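import Pool.Agent.Cyc.Walk

/-!
# Transfer matrix estimates, Section 2.2 (a), (b), (c), (e)
-/

open Finset
open scoped Classical

namespace Cyc

lemma rv_rv_ker {E : Type} (x : E × Bool) : rv (rv x) = x := by
  rcases x with ⟨e, b⟩
  simp [rv]

lemma rv_inj_ker {E : Type} {x y : E × Bool} (h : rv x = rv y) : x = y := by
  rw [← rv_rv_ker x, h, rv_rv_ker]

/-- reversal as a permutation of the darts -/
def rvEquivKer (E : Type) : (E × Bool) ≃ (E × Bool) where
  toFun := rv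
  invFun := rv
  left_inv := rv_rv_ker
  right_inv := rv_rv_ker

lemma sum_rv_ker {E : Type} [Fintype E] (f : E × Bool → ℝ) : ∑ x, f (rv x) = ∑ x, f x :=
  Equiv.sum_comp (rvEquivKer E) f

namespace MG

variable {V E : Type} [Fintype V] [Fintype E] (G : MG V E)

omit [Fintype V] [Fintype E] in
lemma hd_rv_ker (x : E × Bool) : G.hd (rv x) = G.tl x := by
  rcases x with ⟨e, b⟩
  cases b <;> simp [hd, tl, rv]

omit [Fintype V] [Fintype E] in
lemma tl_rv_ker (x : E × Bool) : G.tl (rv x) = G.hd x := by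
  rcases x with ⟨e, b⟩
  cases b <;> simp [hd, tl, rv]

omit [Fintype V] [Fintype E] in
lemma K_apply_ker (Ω : Finset (E × Bool)) (x y : E × Bool) :
    G.K Ω x y = if x ∈ Ω ∧ y ∈ Ω ∧ G.Nx x y then 1 else 0 := rfl

omit [Fintype V] [Fintype E] in
lemma K_nonneg_ker (Ω : Finset (E × Bool)) (x y : E × Bool) : 0 ≤ G.K Ω x y := by
  rw [K_apply_ker]; split_ifs <;> norm_num

omit [Fintype V] [Fintype E] in
lemma K_le_ind_ker (Ω : Finset (E × Bool)) (x y : E × Bool) :
    G.K Ω x y ≤ if G.Nx x y then 1 else 0 := by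
  rw [K_apply_ker]; split_ifs with h1 h2 h2
  · exact le_rfl
  · exact absurd h1.2.2 h2
  · norm_num
  · exact le_rfl

omit [Fintype V] [Fintype E] in
lemma K_rv_self_ker (Ω : Finset (E × Bool)) (x : E × Bool) : G.K Ω x (rv x) = 0 := by
  rw [K_apply_ker, if_neg]
  rintro ⟨-, -, h⟩
  exact h.2 rfl

lemma K_rev_ker {Ω : Finset (E × Bool)} (hΩ : RevC Ω) (x y : E × Bool) :
    G.K Ω x y = G.K Ω (rv y) (rv x) := by
  have h := G.Kpow_rev hΩ x y 1
  rwa [pow_one] at h

lemma row_sum_le_ker (hG : G.Good) (Ω : Finset (E × Bool)) (x : E × Bool) :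
    ∑ y, G.K Ω x y ≤ 2 := by
  calc ∑ y, G.K Ω x y ≤ ∑ y, (if G.Nx x y then (1 : ℝ) else 0) :=
        Finset.sum_le_sum fun y _ => G.K_le_ind_ker Ω x y
    _ = ((univ.filter (fun y => G.Nx x y)).card : ℝ) := by
        rw [Finset.sum_ite, Finset.sum_const_zero, add_zero, Finset.sum_const, nsmul_eq_mul,
          mul_one]
    _ = 2 := by rw [G.card_succ hG]; norm_num

lemma col_sum_le_ker (hG : G.Good) (Ω : Finset (E × Bool)) (y : E × Bool) :
    ∑ x, G.K Ω x y ≤ 2 := by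
  calc ∑ x, G.K Ω x y ≤ ∑ x, (if G.Nx x y then (1 : ℝ) else 0) :=
        Finset.sum_le_sum fun x _ => G.K_le_ind_ker Ω x y
    _ = ((univ.filter (fun x => G.Nx x y)).card : ℝ) := by
        rw [Finset.sum_ite, Finset.sum_const_zero, add_zero, Finset.sum_const, nsmul_eq_mul,
          mul_one]
    _ = 2 := by rw [G.card_pred hG]; norm_num

/-- common successors -/
lemma common_succ_ker (hG : G.Good) {Ω : Finset (E × Bool)} (hΩ : RevC Ω) (w w' : E × Bool) :
    ∑ y, G.K Ω w y * G.K Ω w' y ≤ (if w = w' then 2 else 0) + G.K Ω w (rv w') := by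
  by_cases hw : w = w'
  · subst hw
    rw [if_pos rfl, K_rv_self_ker, add_zero]
    refine le_trans (Finset.sum_le_sum fun y _ => ?_) (G.row_sum_le_ker hG Ω w)
    rw [K_apply_ker]
    split_ifs <;> norm_num
  · rw [if_neg hw, zero_add]
    by_cases hex : ∃ y, G.K Ω w y * G.K Ω w' y ≠ 0
    · obtain ⟨y, hy⟩ := hex
      have h1 : w ∈ Ω ∧ y ∈ Ω ∧ G.Nx w y := by
        by_contra h
        rw [K_apply_ker, if_neg h, zero_mul] at hy
        exact hy rfl
      have h2 : w' ∈ Ω ∧ y ∈ Ω ∧ G.Nx w' y := by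
        by_contra h
        rw [G.K_apply_ker Ω w', if_neg h, mul_zero] at hy
        exact hy rfl
      have h3 : G.Nx w (rv w') := by
        refine ⟨?_, fun h => hw (rv_inj_ker h).symm⟩
        rw [tl_rv_ker, ← h2.2.2.1, h1.2.2.1]
      rw [G.K_apply_ker Ω w (rv w'), if_pos ⟨h1.1, hΩ _ h2.1, h3⟩]
      have h4 : ∀ z ∈ (univ : Finset (E × Bool)), G.K Ω w z * G.K Ω w' z ≤
          if z ∈ (univ.filter (fun y => G.Nx w y)).erase (rv w') then (1 : ℝ) else 0 := by
        intro z _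
        rw [K_apply_ker, K_apply_ker]
        split_ifs with a b c d
        · norm_num
        · exfalso
          apply c
          rw [Finset.mem_erase, Finset.mem_filter]
          refine ⟨?_, Finset.mem_univ _, a.2.2⟩
          intro h
          exact b.2.2.2 h
        all_goals norm_num
      refine (Finset.sum_le_sum h4).trans ?_
      rw [Finset.sum_ite_mem, Finset.univ_inter, Finset.sum_const, nsmul_eq_mul, mul_one,
        Finset.card_erase_of_mem (by rw [Finset.mem_filter]; exact ⟨Finset.mem_univ _, h3⟩),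
        G.card_succ hG]
      norm_num
    · push Not at hex
      rw [Finset.sum_eq_zero fun y _ => hex y]
      exact G.K_nonneg_ker Ω _ _

/-- common predecessors -/
lemma common_pred_ker (hG : G.Good) {Ω : Finset (E × Bool)} (hΩ : RevC Ω) (y y' : E × Bool) :
    ∑ x, G.K Ω x y * G.K Ω x y' ≤ (if y = y' then 2 else 0) + G.K Ω (rv y') y := by
  have h1 : ∑ x, G.K Ω x y * G.K Ω x y' = ∑ x, G.K Ω (rv y) x * G.K Ω (rv y') x := by
    rw [← sum_rv_ker (fun x => G.K Ω (rv y) x * G.K Ω (rv y') x)]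
    refine Finset.sum_congr rfl fun x _ => ?_
    rw [G.K_rev_ker hΩ x y, G.K_rev_ker hΩ x y']
  rw [h1]
  refine (G.common_succ_ker hG hΩ (rv y) (rv y')).trans (le_of_eq ?_)
  rw [rv_rv_ker, G.K_rev_ker hΩ (rv y) y', rv_rv_ker]
  congr 1
  by_cases h : y = y'
  · rw [if_pos h, if_pos (by rw [h])]
  · rw [if_neg h, if_neg (fun h' => h (rv_inj_ker h'))]

/-- one step of the recursion (b). -/
theorem sq_step (hG : G.Good) {Ω : Finset (E × Bool)} (hΩ : RevC Ω) (x : E × Bool) (m : ℕ) :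
    ∑ y, ((G.K Ω ^ (m + 1)) x y) ^ 2 ≤
      2 * ∑ y, ((G.K Ω ^ m) x y) ^ 2 + (G.K Ω ^ (2 * m + 1)) x (rv x) := by
  set a : E × Bool → ℝ := fun w => (G.K Ω ^ m) x w with ha
  have ha0 : ∀ w, 0 ≤ a w := fun w => G.Kpow_nonneg Ω x w m
  have h1 : ∑ y, ((G.K Ω ^ (m + 1)) x y) ^ 2 =
      ∑ w, ∑ w', a w * a w' * ∑ y, G.K Ω w y * G.K Ω w' y := by
    have : ∀ y, ((G.K Ω ^ (m + 1)) x y) ^ 2 =
        ∑ w, ∑ w', a w * a w' * (G.K Ω w y * G.K Ω w' y) := by
      intro y
      rw [pow_succ (G.K Ω) m, Matrix.mul_apply, sq, Finset.sum_mul_sum]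
      refine Finset.sum_congr rfl fun w _ => Finset.sum_congr rfl fun w' _ => ?_
      simp only [ha]; ring
    rw [Finset.sum_congr rfl fun y _ => this y, Finset.sum_comm]
    refine Finset.sum_congr rfl fun w _ => ?_
    rw [Finset.sum_comm]
    refine Finset.sum_congr rfl fun w' _ => ?_
    rw [Finset.mul_sum]
  have h2 : (G.K Ω ^ (2 * m + 1)) x (rv x) = ∑ w, ∑ w', a w * a w' * G.K Ω w (rv w') := by
    rw [show 2 * m + 1 = m + (1 + m) by ring, pow_add, Matrix.mul_apply]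
    refine Finset.sum_congr rfl fun w _ => ?_
    rw [pow_add, pow_one, Matrix.mul_apply,
      ← sum_rv_ker (fun u => G.K Ω w u * (G.K Ω ^ m) u (rv x)), Finset.mul_sum]
    refine Finset.sum_congr rfl fun w' _ => ?_
    rw [← G.Kpow_rev hΩ x w' m]
    simp only [ha]; ring
  rw [h1, h2, Finset.mul_sum, ← Finset.sum_add_distrib]
  refine Finset.sum_le_sum fun w _ => ?_
  have h3 : 2 * (G.K Ω ^ m) x w ^ 2 = ∑ w', a w * a w' * (if w = w' then 2 else 0) := by
    simp only [mul_ite, mul_zero, Finset.sum_ite_eq, Finset.mem_univ, if_true]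
    simp only [ha]; ring
  rw [h3, ← Finset.sum_add_distrib]
  refine Finset.sum_le_sum fun w' _ => ?_
  rw [← mul_add]
  exact mul_le_mul_of_nonneg_left (G.common_succ_ker hG hΩ w w') (mul_nonneg (ha0 w) (ha0 w'))

/-- one step of the recursion (c). -/
theorem rv_step (hG : G.Good) {Ω : Finset (E × Bool)} (hΩ : RevC Ω) (l : ℕ) :
    ∑ x, (G.K Ω ^ (2 * l + 3)) x (rv x) ≤
      2 * ∑ x, (G.K Ω ^ (2 * l + 1)) x (rv x) + (G.K Ω ^ (2 * l + 2)).trace := by
  set B : E × Bool → E × Bool → ℝ := fun y u => (G.K Ω ^ (2 * l + 1)) y u with hB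
  have h1 : ∑ x, (G.K Ω ^ (2 * l + 3)) x (rv x) =
      ∑ y, ∑ y', (∑ x, G.K Ω x y * G.K Ω x y') * B y (rv y') := by
    have : ∀ x, (G.K Ω ^ (2 * l + 3)) x (rv x) =
        ∑ y, ∑ y', (G.K Ω x y * G.K Ω x y') * B y (rv y') := by
      intro x
      rw [show 2 * l + 3 = 1 + ((2 * l + 1) + 1) by ring, pow_add, pow_one, Matrix.mul_apply]
      refine Finset.sum_congr rfl fun y _ => ?_
      rw [pow_add, pow_one, Matrix.mul_apply,
        ← sum_rv_ker (fun u => (G.K Ω ^ (2 * l + 1)) y u * G.K Ω u (rv x)), Finset.mul_sum]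
      refine Finset.sum_congr rfl fun y' _ => ?_
      rw [← G.K_rev_ker hΩ x y']
      simp only [hB]; ring
    rw [Finset.sum_congr rfl fun x _ => this x, Finset.sum_comm]
    refine Finset.sum_congr rfl fun y _ => ?_
    rw [Finset.sum_comm]
    refine Finset.sum_congr rfl fun y' _ => ?_
    rw [Finset.sum_mul]
  have h2 : (G.K Ω ^ (2 * l + 2)).trace = ∑ y, ∑ y', G.K Ω (rv y') y * B y (rv y') := by
    rw [show 2 * l + 2 = (2 * l + 1) + 1 by ring, pow_succ, Matrix.trace]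
    refine Finset.sum_congr rfl fun y _ => ?_
    rw [Matrix.diag_apply, Matrix.mul_apply,
      ← sum_rv_ker (fun u => (G.K Ω ^ (2 * l + 1)) y u * G.K Ω u y)]
    refine Finset.sum_congr rfl fun y' _ => ?_
    simp only [hB]; ring
  rw [h1, h2, Finset.mul_sum, ← Finset.sum_add_distrib]
  refine Finset.sum_le_sum fun y _ => ?_
  have h3 : 2 * (G.K Ω ^ (2 * l + 1)) y (rv y) =
      ∑ y', (if y = y' then 2 else 0) * B y (rv y') := by
    simp only [ite_mul, zero_mul, Finset.sum_ite_eq, Finset.mem_univ, if_true]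
    simp only [hB]
  rw [h3, ← Finset.sum_add_distrib]
  refine Finset.sum_le_sum fun y' _ => ?_
  rw [← add_mul]
  exact mul_le_mul_of_nonneg_right (G.common_pred_ker hG hΩ y y') (G.Kpow_nonneg Ω _ _ _)

lemma rv_sum_le_ker (hG : G.Good) {Ω : Finset (E × Bool)} (hΩ : RevC Ω) (l : ℕ) :
    ∑ x, (G.K Ω ^ (2 * l + 1)) x (rv x) ≤
      ∑ t ∈ Finset.Ico 1 (l + 1), (2 : ℝ) ^ (l - t) * (G.K Ω ^ (2 * t)).trace := by
  induction l with
  | zero =>
    simp only [mul_zero, zero_add, pow_one, Finset.Ico_self, Finset.sum_empty]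
    exact le_of_eq (Finset.sum_eq_zero fun x _ => G.K_rv_self_ker Ω x)
  | succ l ih =>
    have h1 := G.rv_step hG hΩ l
    rw [show 2 * (l + 1) + 1 = 2 * l + 3 by ring]
    refine h1.trans ?_
    rw [Finset.sum_Ico_succ_top (by omega : 1 ≤ l + 1), Nat.sub_self, pow_zero, one_mul,
      show 2 * (l + 1) = 2 * l + 2 by ring]
    refine add_le_add ?_ le_rfl
    refine (mul_le_mul_of_nonneg_left ih (by norm_num)).trans (le_of_eq ?_)
    rw [Finset.mul_sum]
    refine Finset.sum_congr rfl fun t ht => ?_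
    rw [Finset.mem_Ico] at ht
    rw [show l + 1 - t = (l - t) + 1 by omega, pow_succ]
    ring

/-- (c) -/
theorem sq_sum_le (hG : G.Good) {Ω : Finset (E × Bool)} (hΩ : RevC Ω) (m : ℕ) :
    ∑ x ∈ Ω, ∑ y, ((G.K Ω ^ m) x y) ^ 2 ≤ 2 ^ m * (Ω.card : ℝ) +
      ∑ t ∈ Finset.Ico 1 m, ((m : ℝ) - t) * 2 ^ (m - t - 1) * (G.K Ω ^ (2 * t)).trace := by
  induction m with
  | zero =>
    simp only [pow_zero, one_mul]
    rw [Finset.Ico_eq_empty (by omega), Finset.sum_empty, add_zero]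
    refine le_of_eq ?_
    have : ∀ x ∈ Ω, ∑ y, ((1 : Matrix (E × Bool) (E × Bool) ℝ) x y) ^ 2 = 1 := by
      intro x _
      rw [Finset.sum_eq_single x]
      · rw [Matrix.one_apply_eq, one_pow]
      · intro y _ hy
        rw [Matrix.one_apply_ne (Ne.symm hy)]
        norm_num
      · intro h; exact absurd (Finset.mem_univ x) h
    rw [Finset.sum_congr rfl this, Finset.sum_const, nsmul_eq_mul, mul_one]
  | succ m ih =>
    have h1 : ∑ x ∈ Ω, ∑ y, ((G.K Ω ^ (m + 1)) x y) ^ 2 ≤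
        2 * ∑ x ∈ Ω, ∑ y, ((G.K Ω ^ m) x y) ^ 2 + ∑ x, (G.K Ω ^ (2 * m + 1)) x (rv x) := by
      rw [Finset.mul_sum]
      refine (Finset.sum_le_sum fun x _ => G.sq_step hG hΩ x m).trans ?_
      rw [Finset.sum_add_distrib]
      refine add_le_add le_rfl ?_
      exact Finset.sum_le_sum_of_subset_of_nonneg (Finset.subset_univ _)
        fun x _ _ => G.Kpow_nonneg Ω _ _ _
    refine h1.trans ?_
    have h2 := G.rv_sum_le_ker hG hΩ m
    have h3 := mul_le_mul_of_nonneg_left ih (by norm_num : (0 : ℝ) ≤ 2)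
    refine (add_le_add h3 h2).trans (le_of_eq ?_)
    have h4 : ∑ t ∈ Finset.Ico 1 (m + 1), (((m + 1 : ℕ) : ℝ) - t) * 2 ^ (m + 1 - t - 1) *
          (G.K Ω ^ (2 * t)).trace =
        ∑ t ∈ Finset.Ico 1 (m + 1), 2 * (((m : ℝ) - t) * 2 ^ (m - t - 1) *
          (G.K Ω ^ (2 * t)).trace) +
        ∑ t ∈ Finset.Ico 1 (m + 1), (2 : ℝ) ^ (m - t) * (G.K Ω ^ (2 * t)).trace := by
      rw [← Finset.sum_add_distrib]
      refine Finset.sum_congr rfl fun t ht => ?_
      rw [Finset.mem_Ico] at ht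
      rcases Nat.lt_or_ge t m with h | h
      · rw [show m + 1 - t - 1 = (m - t - 1) + 1 by omega, show m - t = (m - t - 1) + 1 by omega,
          Nat.add_sub_cancel, pow_succ]
        push_cast
        ring
      · have : t = m := by omega
        subst this
        simp
    rw [h4, mul_add, Finset.mul_sum]
    have h5 : ∑ t ∈ Finset.Ico 1 (m + 1), 2 * (((m : ℝ) - t) * 2 ^ (m - t - 1) *
          (G.K Ω ^ (2 * t)).trace) = ∑ t ∈ Finset.Ico 1 m, 2 * (((m : ℝ) - t) * 2 ^ (m - t - 1) *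
          (G.K Ω ^ (2 * t)).trace) := by
      rcases Nat.eq_zero_or_pos m with h | h
      · subst h; simp
      · rw [Finset.sum_Ico_succ_top h]
        simp
    rw [h5, pow_succ]
    ring

omit [Fintype V] in
lemma phi_nonneg_ker (Ω : Finset (E × Bool)) (M : ℕ) (x : E × Bool) : 0 ≤ G.phi Ω M x :=
  Finset.sum_nonneg fun _ _ => by positivity

/-- (e) -/
theorem sup_le (hG : G.Good) {Ω Ω' : Finset (E × Bool)} (hΩ : RevC Ω) (hΩ' : Ω ⊆ Ω') (M l : ℕ)
    (hl : 2 * l ≤ M) (x y : E × Bool) (hx : x ∈ Ω) :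
    ((G.K Ω ^ l) x y) ^ 2 ≤ 2 ^ l + 4 ^ l * G.phi Ω' M x := by
  have key : ∀ l : ℕ, 2 * l ≤ M → ∑ y, ((G.K Ω ^ l) x y) ^ 2 ≤
      2 ^ l + (4 ^ l - 2 ^ l) * G.phi Ω' M x := by
    intro l
    induction l with
    | zero =>
      intro _
      rw [pow_zero, pow_zero, pow_zero, sub_self, zero_mul, add_zero]
      rw [Finset.sum_eq_single x]
      · rw [Matrix.one_apply_eq, one_pow]
      · intro y _ hy
        rw [Matrix.one_apply_ne (Ne.symm hy)]
        norm_num
      · intro h; exact absurd (Finset.mem_univ x) h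
    | succ l ih =>
      intro hl
      have h1 := ih (by omega)
      have h2 := G.sq_step hG hΩ x l
      have h3 := G.Kpow_rv_le hG Ω Ω' hΩ' M x hx (2 * l + 1) (by omega) (by omega)
      have h4 : (2 : ℝ) ^ (2 * l + 1) = 2 * 4 ^ l := by
        rw [pow_succ, pow_mul]; norm_num; ring
      rw [h4] at h3
      rw [pow_succ (2 : ℝ) l, pow_succ (4 : ℝ) l]
      nlinarith
  have h1 := key l hl
  have h2 : ((G.K Ω ^ l) x y) ^ 2 ≤ ∑ y, ((G.K Ω ^ l) x y) ^ 2 :=
    Finset.single_le_sum (f := fun y => ((G.K Ω ^ l) x y) ^ 2) (fun _ _ => sq_nonneg _)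
      (Finset.mem_univ y)
  have h3 := G.phi_nonneg_ker Ω' M x
  have h4 : (0 : ℝ) < 2 ^ l := by positivity
  nlinarith [mul_nonneg h4.le h3]

lemma Kpow_col_sum_le_ker (hG : G.Good) (Ω : Finset (E × Bool)) (y : E × Bool) (m : ℕ) :
    ∑ x, (G.K Ω ^ m) x y ≤ 2 ^ m := by
  induction m with
  | zero =>
    rw [pow_zero, pow_zero, Finset.sum_eq_single y]
    · rw [Matrix.one_apply_eq]
    · intro x _ hx
      rw [Matrix.one_apply_ne hx]
    · intro h; exact absurd (Finset.mem_univ y) h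
  | succ m ih =>
    have h1 : ∑ x, (G.K Ω ^ (m + 1)) x y = ∑ w, (∑ x, G.K Ω x w) * (G.K Ω ^ m) w y := by
      have : ∀ x, (G.K Ω ^ (m + 1)) x y = ∑ w, G.K Ω x w * (G.K Ω ^ m) w y := by
        intro x
        rw [pow_succ', Matrix.mul_apply]
      rw [Finset.sum_congr rfl fun x _ => this x, Finset.sum_comm]
      refine Finset.sum_congr rfl fun w _ => ?_
      rw [Finset.sum_mul]
    rw [h1]
    calc ∑ w, (∑ x, G.K Ω x w) * (G.K Ω ^ m) w y ≤ ∑ w, 2 * (G.K Ω ^ m) w y :=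
          Finset.sum_le_sum fun w _ => mul_le_mul_of_nonneg_right (G.col_sum_le_ker hG Ω w)
            (G.Kpow_nonneg Ω _ _ _)
      _ = 2 * ∑ w, (G.K Ω ^ m) w y := by rw [Finset.mul_sum]
      _ ≤ 2 * 2 ^ m := by linarith
      _ = 2 ^ (m + 1) := by rw [pow_succ]; ring

/-- darts leaving `Ω` -/
lemma exits_le_ker (hG : G.Good) (A : Finset V) {Ω : Finset (E × Bool)} (hΩ : Ω ⊆ G.Om A) :
    ∑ y ∈ Ω, (2 - ∑ z, G.K Ω y z) ≤
      2 * (((G.Om A \ Ω).card : ℝ) + (G.del A).card) := by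
  -- the darts outside `Ω` which have a predecessor in `Ω`
  set X : Finset (E × Bool) := univ.filter (fun z => z ∉ Ω ∧ ∃ y ∈ Ω, G.Nx y z) with hX
  have hXc : X.card ≤ (G.Om A \ Ω).card + (G.del A).card := by
    have h1 : X ⊆ (G.Om A \ Ω) ∪ (univ.filter (fun z : E × Bool => z.1 ∈ G.del A ∧ G.tl z ∈ A)) := by
      intro z hz
      rw [hX, Finset.mem_filter] at hz
      obtain ⟨-, hz1, y, hy, hyz⟩ := hz
      rw [Finset.mem_union, Finset.mem_sdiff, Finset.mem_filter]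
      by_cases hzA : z ∈ G.Om A
      · exact Or.inl ⟨hzA, hz1⟩
      · right
        have hyA := hΩ hy
        rw [Om, Finset.mem_filter, inn, Finset.mem_filter] at hyA
        have htl : G.tl z ∈ A := by
          rw [hyz.1]
          unfold hd
          split_ifs
          · exact hyA.2.2.1
          · exact hyA.2.2.2
        refine ⟨Finset.mem_univ _, ?_, htl⟩
        rw [Om, Finset.mem_filter, inn, Finset.mem_filter] at hzA
        rw [del, Finset.mem_filter]
        refine ⟨Finset.mem_univ _, ?_⟩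
        unfold tl at htl
        by_cases hb : z.2
        · rw [if_pos hb] at htl
          right
          refine ⟨fun h => hzA ⟨Finset.mem_univ _, Finset.mem_univ _, h, htl⟩, htl⟩
        · rw [if_neg hb] at htl
          left
          refine ⟨htl, fun h => hzA ⟨Finset.mem_univ _, Finset.mem_univ _, htl, h⟩⟩
    refine (Finset.card_le_card h1).trans ((Finset.card_union_le _ _).trans ?_)
    refine Nat.add_le_add_left ?_ _
    refine Finset.card_le_card_of_injOn Prod.fst ?_ ?_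
    · intro z hz
      rw [Finset.mem_coe, Finset.mem_filter] at hz
      exact hz.2.1
    · rintro ⟨e, b⟩ hz ⟨e', b'⟩ hz' h
      simp only [Finset.coe_filter, Finset.mem_univ, true_and, Set.mem_ofPred_eq] at hz hz' h
      subst h
      have h2 : ¬ (G.s e ∈ A ∧ G.t e ∈ A) := by
        have := hz.1
        rw [del, Finset.mem_filter] at this
        tauto
      have h3 := hz.2
      have h4 := hz'.2
      unfold tl at h3 h4
      cases b <;> cases b' <;> simp at h3 h4 ⊢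
      · exact h2 ⟨h3, h4⟩
      · exact h2 ⟨h4, h3⟩
  have h2 : ∀ y ∈ Ω, (2 - ∑ z, G.K Ω y z) = ∑ z ∈ X, (if G.Nx y z then (1 : ℝ) else 0) := by
    intro y hy
    have h3 : (2 : ℝ) = ∑ z, (if G.Nx y z then (1 : ℝ) else 0) := by
      rw [Finset.sum_ite, Finset.sum_const_zero, add_zero, Finset.sum_const, nsmul_eq_mul,
        mul_one, G.card_succ hG]
      norm_num
    rw [h3, ← Finset.sum_sub_distrib]
    have h4 : ∀ z, (if G.Nx y z then (1 : ℝ) else 0) - G.K Ω y z =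
        if z ∈ X then (if G.Nx y z then (1 : ℝ) else 0) else 0 := by
      intro z
      rw [K_apply_ker]
      by_cases hN : G.Nx y z
      · by_cases hz : z ∈ Ω
        · have hzX : z ∉ X := by
            rw [hX, Finset.mem_filter]
            exact fun h => h.2.1 hz
          rw [if_pos hN, if_pos ⟨hy, hz, hN⟩, if_neg hzX, sub_self]
        · have hzX : z ∈ X := by
            rw [hX, Finset.mem_filter]
            exact ⟨Finset.mem_univ _, hz, y, hy, hN⟩
          rw [if_pos hN, if_neg (fun h => hz h.2.1), if_pos hzX, sub_zero]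
      · rw [if_neg hN, if_neg (fun h => hN h.2.2), sub_zero, ite_self]
    rw [Finset.sum_congr rfl fun z _ => h4 z, Finset.sum_ite_mem, Finset.univ_inter]
  rw [Finset.sum_congr rfl h2, Finset.sum_comm]
  calc ∑ z ∈ X, ∑ y ∈ Ω, (if G.Nx y z then (1 : ℝ) else 0) ≤ ∑ z ∈ X, 2 := by
        refine Finset.sum_le_sum fun z _ => ?_
        calc ∑ y ∈ Ω, (if G.Nx y z then (1 : ℝ) else 0)
            ≤ ∑ y, (if G.Nx y z then (1 : ℝ) else 0) :=
              Finset.sum_le_sum_of_subset_of_nonneg (Finset.subset_univ _)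
                fun _ _ _ => by split_ifs <;> norm_num
          _ = ((univ.filter (fun y => G.Nx y z)).card : ℝ) := by
              rw [Finset.sum_ite, Finset.sum_const_zero, add_zero, Finset.sum_const,
                nsmul_eq_mul, mul_one]
          _ = 2 := by rw [G.card_pred hG]; norm_num
    _ = 2 * (X.card : ℝ) := by rw [Finset.sum_const, nsmul_eq_mul]; ring
    _ ≤ 2 * (((G.Om A \ Ω).card : ℝ) + (G.del A).card) := by
        have : (X.card : ℝ) ≤ ((G.Om A \ Ω).card : ℝ) + (G.del A).card := by exact_mod_cast hXc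
        linarith

omit [Fintype V] in
lemma Kpow_eq_zero_ker {Ω : Finset (E × Bool)} (x y : E × Bool) (hy : y ∉ Ω) (m : ℕ) :
    (G.K Ω ^ (m + 1)) x y = 0 := by
  rw [pow_succ, Matrix.mul_apply]
  refine Finset.sum_eq_zero fun w _ => ?_
  rw [K_apply_ker, if_neg (fun h => hy h.2.1), mul_zero]

/-- (a): mass of walks staying in the good set `Ω` -/
theorem mass_ge (hG : G.Good) (A : Finset V) {Ω : Finset (E × Bool)} (hΩ : Ω ⊆ G.Om A) (m : ℕ) :
    2 ^ m * (((G.Om A).card : ℝ) - (m + 1) * (((G.Om A \ Ω).card : ℝ) + (G.del A).card)) ≤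
      ∑ x ∈ Ω, ∑ y ∈ Ω, (G.K Ω ^ m) x y := by
  set q : ℝ := ((G.Om A \ Ω).card : ℝ) + (G.del A).card with hq
  induction m with
  | zero =>
    have h1 : ∑ x ∈ Ω, ∑ y ∈ Ω, (G.K Ω ^ 0) x y = (Ω.card : ℝ) := by
      have : ∀ x ∈ Ω, ∑ y ∈ Ω, (G.K Ω ^ 0) x y = 1 := by
        intro x hx
        rw [pow_zero, Finset.sum_eq_single x]
        · rw [Matrix.one_apply_eq]
        · intro y _ hy
          rw [Matrix.one_apply_ne (Ne.symm hy)]
        · intro h; exact absurd hx h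
      rw [Finset.sum_congr rfl this, Finset.sum_const, nsmul_eq_mul, mul_one]
    rw [h1]
    have h2 : (G.Om A).card = (G.Om A \ Ω).card + Ω.card := by
      rw [Finset.card_sdiff_add_card, Finset.union_eq_left.2 hΩ]
    have h3 : ((G.Om A).card : ℝ) = ((G.Om A \ Ω).card : ℝ) + Ω.card := by exact_mod_cast h2
    have h4 : (0 : ℝ) ≤ (G.del A).card := Nat.cast_nonneg _
    rw [h3, hq]
    push_cast
    linarith
  | succ m ih =>
    have h1 : ∑ x ∈ Ω, ∑ y ∈ Ω, (G.K Ω ^ (m + 1)) x y =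
        2 * ∑ x ∈ Ω, ∑ y ∈ Ω, (G.K Ω ^ m) x y -
          ∑ y ∈ Ω, (∑ x ∈ Ω, (G.K Ω ^ m) x y) * (2 - ∑ z, G.K Ω y z) := by
      have h2 : ∀ x ∈ Ω, ∑ y ∈ Ω, (G.K Ω ^ (m + 1)) x y =
          ∑ y ∈ Ω, (G.K Ω ^ m) x y * ∑ z, G.K Ω y z := by
        intro x hx
        have h3 : ∑ z ∈ Ω, (G.K Ω ^ (m + 1)) x z = ∑ z, (G.K Ω ^ (m + 1)) x z := by
          refine Finset.sum_subset (Finset.subset_univ _) fun z _ hz => ?_
          exact G.Kpow_eq_zero_ker x z hz m
        rw [h3]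
        have h4 : ∀ z, (G.K Ω ^ (m + 1)) x z = ∑ y, (G.K Ω ^ m) x y * G.K Ω y z := by
          intro z; rw [pow_succ, Matrix.mul_apply]
        rw [Finset.sum_congr rfl fun z _ => h4 z, Finset.sum_comm]
        rw [← Finset.sum_subset (Finset.subset_univ Ω)]
        · refine Finset.sum_congr rfl fun y _ => ?_
          rw [Finset.mul_sum]
        · intro y _ hy
          refine Finset.sum_eq_zero fun z _ => ?_
          rw [K_apply_ker, if_neg (fun h => hy h.1), mul_zero]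
      rw [Finset.sum_congr rfl h2, Finset.sum_comm, Finset.sum_comm (s := Ω) (t := Ω)
        (f := fun x y => (G.K Ω ^ m) x y), Finset.mul_sum, ← Finset.sum_sub_distrib]
      refine Finset.sum_congr rfl fun y _ => ?_
      rw [← Finset.sum_mul]
      ring
    have h5 : ∑ y ∈ Ω, (∑ x ∈ Ω, (G.K Ω ^ m) x y) * (2 - ∑ z, G.K Ω y z) ≤ 2 ^ (m + 1) * q := by
      calc ∑ y ∈ Ω, (∑ x ∈ Ω, (G.K Ω ^ m) x y) * (2 - ∑ z, G.K Ω y z)
          ≤ ∑ y ∈ Ω, 2 ^ m * (2 - ∑ z, G.K Ω y z) := by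
            refine Finset.sum_le_sum fun y _ => mul_le_mul_of_nonneg_right ?_ ?_
            · refine le_trans ?_ (G.Kpow_col_sum_le_ker hG Ω y m)
              exact Finset.sum_le_sum_of_subset_of_nonneg (Finset.subset_univ _)
                fun x _ _ => G.Kpow_nonneg Ω _ _ _
            · have := G.row_sum_le_ker hG Ω y
              linarith
        _ = 2 ^ m * ∑ y ∈ Ω, (2 - ∑ z, G.K Ω y z) := by rw [Finset.mul_sum]
        _ ≤ 2 ^ m * (2 * q) :=
            mul_le_mul_of_nonneg_left (G.exits_le_ker hG A hΩ) (by positivity)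
        _ = 2 ^ (m + 1) * q := by rw [pow_succ]; ring
    rw [h1]
    have h6 : (2 : ℝ) ^ (m + 1) * (((G.Om A).card : ℝ) - (((m + 1 : ℕ) : ℝ) + 1) * q) =
        2 * (2 ^ m * (((G.Om A).card : ℝ) - (m + 1) * q)) - 2 ^ (m + 1) * q := by
      rw [pow_succ]; push_cast; ring
    rw [h6]
    linarith

/-- (a)+(c): lower bound for closed walks -/
theorem closed_lower (hG : G.Good) (A : Finset V) {Ω : Finset (E × Bool)} (hR : RevC Ω)
    (hΩ : Ω ⊆ G.Om A) (m : ℕ)
    (hm : 10 * (m + 1) * (((G.Om A \ Ω).card : ℝ) + (G.del A).card) ≤ (G.Om A).card)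
    (hA : 0 < (G.Om A).card) :
    (1 / 2 : ℝ) ≤ ((G.Om A).card : ℝ) / 2 ^ m + ∑ t ∈ Finset.Ico 1 m,
      ((m : ℝ) - t) * (1 / 2) ^ (m - t + 1) * ((1 / 2) ^ (2 * t) * (G.K Ω ^ (2 * t)).trace) := by
  set N : ℝ := ((G.Om A).card : ℝ) with hN
  have hNpos : 0 < N := by rw [hN]; exact_mod_cast hA
  set S : ℝ := ∑ x ∈ Ω, ∑ y ∈ Ω, (G.K Ω ^ m) x y with hS
  set F : ℝ := ∑ x ∈ Ω, ∑ y, ((G.K Ω ^ m) x y) ^ 2 with hF
  have h1 : 9 / 10 * (2 ^ m * N) ≤ S := by
    refine le_trans ?_ (G.mass_ge hG A hΩ m)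
    have h2 : (0 : ℝ) < 2 ^ m := by positivity
    rw [← hN]
    nlinarith
  have hcard : (Ω.card : ℝ) ≤ N := by
    rw [hN]; exact_mod_cast Finset.card_le_card hΩ
  have h2 : S ^ 2 ≤ (Ω.card : ℝ) ^ 2 * F := by
    have h3 : S ^ 2 ≤ (Ω.card : ℝ) * ∑ x ∈ Ω, (∑ y ∈ Ω, (G.K Ω ^ m) x y) ^ 2 := by
      rw [hS]
      exact sq_sum_le_card_mul_sum_sq
    have h4 : ∀ x ∈ Ω, (∑ y ∈ Ω, (G.K Ω ^ m) x y) ^ 2 ≤
        (Ω.card : ℝ) * ∑ y, ((G.K Ω ^ m) x y) ^ 2 := by
      intro x _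
      refine (sq_sum_le_card_mul_sum_sq (s := Ω)).trans ?_
      refine mul_le_mul_of_nonneg_left ?_ (Nat.cast_nonneg _)
      exact Finset.sum_le_sum_of_subset_of_nonneg (Finset.subset_univ _)
        fun _ _ _ => sq_nonneg _
    calc S ^ 2 ≤ (Ω.card : ℝ) * ∑ x ∈ Ω, (∑ y ∈ Ω, (G.K Ω ^ m) x y) ^ 2 := h3
      _ ≤ (Ω.card : ℝ) * ∑ x ∈ Ω, (Ω.card : ℝ) * ∑ y, ((G.K Ω ^ m) x y) ^ 2 :=
          mul_le_mul_of_nonneg_left (Finset.sum_le_sum h4) (Nat.cast_nonneg _)
      _ = (Ω.card : ℝ) ^ 2 * F := by rw [← Finset.mul_sum, hF]; ring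
  have hFnn : 0 ≤ F := Finset.sum_nonneg fun _ _ => Finset.sum_nonneg fun _ _ => sq_nonneg _
  have h3 : (1 / 2 : ℝ) * 4 ^ m ≤ F := by
    have h4 : (4 : ℝ) ^ m = (2 ^ m) ^ 2 := by rw [← pow_mul, mul_comm, pow_mul]; norm_num
    have h5 : (9 / 10 * (2 ^ m * N)) ^ 2 ≤ N ^ 2 * F := by
      calc (9 / 10 * (2 ^ m * N)) ^ 2 ≤ S ^ 2 := by
            refine pow_le_pow_left₀ (by positivity) h1 2
        _ ≤ (Ω.card : ℝ) ^ 2 * F := h2
        _ ≤ N ^ 2 * F :=
            mul_le_mul_of_nonneg_right (pow_le_pow_left₀ (Nat.cast_nonneg _) hcard 2) hFnn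
    have h6 : (9 / 10 * (2 ^ m * N)) ^ 2 = N ^ 2 * (81 / 100 * 4 ^ m) := by rw [h4]; ring
    rw [h6] at h5
    have h7 : 81 / 100 * (4 : ℝ) ^ m ≤ F := le_of_mul_le_mul_left h5 (by positivity)
    have h8 : (0 : ℝ) < 4 ^ m := by positivity
    linarith
  have h4 := h3.trans (G.sq_sum_le hG hR m)
  have h5 : (1 / 2 : ℝ) * 4 ^ m ≤ 2 ^ m * N +
      ∑ t ∈ Finset.Ico 1 m, ((m : ℝ) - t) * 2 ^ (m - t - 1) * (G.K Ω ^ (2 * t)).trace := by
    refine h4.trans (add_le_add ?_ le_rfl)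
    exact mul_le_mul_of_nonneg_left hcard (by positivity)
  have h6 : N / 2 ^ m + ∑ t ∈ Finset.Ico 1 m,
      ((m : ℝ) - t) * (1 / 2) ^ (m - t + 1) * ((1 / 2) ^ (2 * t) * (G.K Ω ^ (2 * t)).trace) =
      (2 ^ m * N + ∑ t ∈ Finset.Ico 1 m, ((m : ℝ) - t) * 2 ^ (m - t - 1) *
        (G.K Ω ^ (2 * t)).trace) / 4 ^ m := by
    rw [add_div, Finset.sum_div]
    congr 1
    · rw [show (4 : ℝ) = 2 * 2 by norm_num, mul_pow]
      field_simp
    · refine Finset.sum_congr rfl fun t ht => ?_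
      rw [Finset.mem_Ico] at ht
      obtain ⟨s, rfl⟩ : ∃ s, m = t + (s + 1) := ⟨m - t - 1, by omega⟩
      rw [show t + (s + 1) - t + 1 = s + 2 by omega, show t + (s + 1) - t - 1 = s by omega]
      rw [show (4 : ℝ) = 2 * 2 by norm_num, mul_pow, one_div, inv_pow, inv_pow]
      have h2 : (2 : ℝ) ≠ 0 := two_ne_zero
      field_simp
      ring
  rw [h6, le_div_iff₀ (by positivity)]
  exact h5

end MG

lemma sum_half_le (n : ℕ) : ∑ s ∈ Finset.range n, (s : ℝ) * (1 / 2) ^ (s + 1) ≤ 1 := by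
  have h : ∀ n : ℕ, ∑ s ∈ Finset.range n, (s : ℝ) * (1 / 2) ^ (s + 1) =
      1 - (n + 1) * (1 / 2) ^ n := by
    intro n
    induction n with
    | zero => simp
    | succ n ih =>
      rw [Finset.sum_range_succ, ih, pow_succ]
      push_cast
      ring
  rw [h n]
  have : (0 : ℝ) ≤ (n + 1) * (1 / 2) ^ n := by positivity
  linarith

lemma log_le_sum_inv (m₁ m₂ : ℕ) (h1 : 1 ≤ m₁) (h12 : m₁ ≤ m₂) :
    Real.log (((m₂ : ℝ) + 1) / m₁) ≤ ∑ m ∈ Finset.Ico m₁ (m₂ + 1), (1 : ℝ) / m := by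
  have step : ∀ n : ℕ, 1 ≤ n → Real.log (((n : ℝ) + 1) / n) ≤ 1 / n := by
    intro n hn
    have hn0 : (0 : ℝ) < n := by exact_mod_cast hn
    have h2 := Real.log_le_sub_one_of_pos (x := ((n : ℝ) + 1) / n) (by positivity)
    refine h2.trans (le_of_eq ?_)
    field_simp
    ring
  induction m₂, h12 using Nat.le_induction with
  | base =>
    rw [Finset.sum_Ico_succ_top le_rfl, Finset.Ico_self, Finset.sum_empty, zero_add]
    exact step m₁ h1
  | succ n hn ih =>
    rw [Finset.sum_Ico_succ_top (by omega)]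
    have hm : (0 : ℝ) < m₁ := by exact_mod_cast h1
    have h3 := step (n + 1) (by omega)
    have h2 : Real.log ((((n + 1 : ℕ) : ℝ) + 1) / m₁) =
        Real.log (((n : ℝ) + 1) / m₁) + Real.log ((((n + 1 : ℕ) : ℝ) + 1) / ((n + 1 : ℕ) : ℝ)) := by
      rw [← Real.log_mul (by positivity) (by positivity)]
      congr 1
      push_cast
      field_simp
    rw [h2]
    exact add_le_add ih h3

lemma sum_shift_eq (g : ℕ → ℝ) (hg : g 0 = 0) (t n : ℕ) :
    ∑ m ∈ Finset.range n, g (m - t) = ∑ s ∈ Finset.range (n - t), g s := by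
  induction n with
  | zero => simp
  | succ n ih =>
    rw [Finset.sum_range_succ, ih]
    rcases Nat.lt_or_ge n t with h | h
    · rw [show n - t = 0 by omega, show n + 1 - t = 0 by omega, hg, add_zero]
    · rw [show n + 1 - t = (n - t) + 1 by omega, Finset.sum_range_succ]

/-- the analytic step (d) -/
theorem sum_lower (b : ℕ → ℝ) (hb : ∀ k, 0 ≤ b k) (m₁ m₂ t₀ : ℕ) (ht : 1 ≤ t₀) (h1 : t₀ ≤ m₁)
    (h12 : m₁ ≤ m₂) (η : ℝ)
    (h : ∀ m, m₁ ≤ m → m ≤ m₂ → η ≤ ∑ t ∈ Finset.Ico t₀ m, ((m : ℝ) - t) * (1 / 2) ^ (m - t + 1) *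
      b t) : η * Real.log (m₂ / m₁) ≤ ∑ t ∈ Finset.Ico t₀ m₂, b t / t := by
  have hm1 : (0 : ℝ) < m₁ := by exact_mod_cast (by omega : 0 < m₁)
  have hm12 : (m₁ : ℝ) ≤ m₂ := by exact_mod_cast h12
  have hlog0 : 0 ≤ Real.log ((m₂ : ℝ) / m₁) := Real.log_nonneg ((one_le_div hm1).2 hm12)
  have hR : 0 ≤ ∑ t ∈ Finset.Ico t₀ m₂, b t / t :=
    Finset.sum_nonneg fun t _ => div_nonneg (hb t) (Nat.cast_nonneg _)
  rcases le_or_gt η 0 with hη | hη
  · exact (mul_nonpos_of_nonpos_of_nonneg hη hlog0).trans hR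
  · have hlog : Real.log ((m₂ : ℝ) / m₁) ≤ ∑ m ∈ Finset.Ico m₁ (m₂ + 1), (1 : ℝ) / m := by
      refine le_trans ?_ (log_le_sum_inv m₁ m₂ (by omega) h12)
      refine Real.log_le_log (div_pos (by linarith) hm1) ?_
      exact div_le_div_of_nonneg_right (by linarith) hm1.le
    set g : ℕ → ℝ := fun s => (s : ℝ) * (1 / 2) ^ (s + 1) with hg
    have hg0 : g 0 = 0 := by simp [hg]
    have hgn : ∀ s, 0 ≤ g s := fun s => by simp only [hg]; positivity
    have h2 : ∀ m ∈ Finset.Ico m₁ (m₂ + 1), η * (1 / (m : ℝ)) ≤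
        ∑ t ∈ Finset.Ico t₀ m₂, g (m - t) * (b t / t) := by
      intro m hm
      rw [Finset.mem_Ico] at hm
      have hm0 : (0 : ℝ) < m := by exact_mod_cast (by omega : 0 < m)
      have h3 := h m hm.1 (by omega)
      calc η * (1 / (m : ℝ)) ≤ (∑ t ∈ Finset.Ico t₀ m, ((m : ℝ) - t) * (1 / 2) ^ (m - t + 1) *
            b t) * (1 / (m : ℝ)) := mul_le_mul_of_nonneg_right h3 (by positivity)
        _ = ∑ t ∈ Finset.Ico t₀ m, g (m - t) * (b t / m) := by
            rw [Finset.sum_mul]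
            refine Finset.sum_congr rfl fun t ht => ?_
            rw [Finset.mem_Ico] at ht
            simp only [hg]
            rw [Nat.cast_sub ht.2.le]
            ring
        _ ≤ ∑ t ∈ Finset.Ico t₀ m, g (m - t) * (b t / t) := by
            refine Finset.sum_le_sum fun t ht => mul_le_mul_of_nonneg_left ?_ (hgn _)
            rw [Finset.mem_Ico] at ht
            refine div_le_div_of_nonneg_left (hb t) ?_ ?_
            · exact_mod_cast (by omega : 0 < t)
            · exact_mod_cast ht.2.le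
        _ ≤ ∑ t ∈ Finset.Ico t₀ m₂, g (m - t) * (b t / t) := by
            refine Finset.sum_le_sum_of_subset_of_nonneg ?_ ?_
            · exact Finset.Ico_subset_Ico le_rfl (by omega)
            · intro t _ _
              exact mul_nonneg (hgn _) (div_nonneg (hb t) (Nat.cast_nonneg _))
    calc η * Real.log (m₂ / m₁) ≤ η * ∑ m ∈ Finset.Ico m₁ (m₂ + 1), (1 : ℝ) / m :=
          mul_le_mul_of_nonneg_left hlog hη.le
      _ = ∑ m ∈ Finset.Ico m₁ (m₂ + 1), η * (1 / (m : ℝ)) := by rw [Finset.mul_sum]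
      _ ≤ ∑ m ∈ Finset.Ico m₁ (m₂ + 1), ∑ t ∈ Finset.Ico t₀ m₂, g (m - t) * (b t / t) :=
          Finset.sum_le_sum h2
      _ = ∑ t ∈ Finset.Ico t₀ m₂, (∑ m ∈ Finset.Ico m₁ (m₂ + 1), g (m - t)) * (b t / t) := by
          rw [Finset.sum_comm]
          refine Finset.sum_congr rfl fun t _ => ?_
          rw [Finset.sum_mul]
      _ ≤ ∑ t ∈ Finset.Ico t₀ m₂, b t / t := by
          refine Finset.sum_le_sum fun t _ => ?_
          have h4 : ∑ m ∈ Finset.Ico m₁ (m₂ + 1), g (m - t) ≤ 1 := by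
            calc ∑ m ∈ Finset.Ico m₁ (m₂ + 1), g (m - t)
                ≤ ∑ m ∈ Finset.range (m₂ + 1), g (m - t) := by
                  refine Finset.sum_le_sum_of_subset_of_nonneg ?_ fun _ _ _ => hgn _
                  rw [Finset.range_eq_Ico]
                  exact Finset.Ico_subset_Ico (Nat.zero_le _) le_rfl
              _ = ∑ s ∈ Finset.range (m₂ + 1 - t), g s := sum_shift_eq g hg0 t _
              _ ≤ 1 := sum_half_le _
          have h5 : 0 ≤ b t / t := div_nonneg (hb t) (Nat.cast_nonneg _)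
          calc (∑ m ∈ Finset.Ico m₁ (m₂ + 1), g (m - t)) * (b t / t) ≤ 1 * (b t / t) :=
                mul_le_mul_of_nonneg_right h4 h5
            _ = b t / t := one_mul _

end Cyc
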