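import Pool.Agent.Cyc.CircWalk
import Pool.Agent.Cyc.Kernel

/-!
# Chord paths and bad closed walks, Section 2.2 (f), (g)
-/

set_option linter.unusedSectionVars false
set_option linter.unusedVariables false

open Finset
open scoped Classical

namespace Cyc

namespace MG

variable {V E : Type} [Fintype V] [Fintype E] (G : MG V E)

/-- `c` has a chord path with at most `ρ` darts: a non-backtracking walk outside `c` joining two
different vertices of `c`. -/
def Chord (c : E → ZMod 2) (ρ : ℕ) : Prop :=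
  ∃ (x : E × Bool) (p : List (E × Bool)), (x :: p).IsChain G.Nx ∧ (∀ y ∈ x :: p, c y.1 = 0) ∧
    (x :: p).length ≤ ρ ∧ G.On c (G.tl x) ∧ G.On c (G.hd ((x :: p).getLast (by simp))) ∧
    G.tl x ≠ G.hd ((x :: p).getLast (by simp))

/-- circuits of length `k` with all darts in `Ω` and without short chord path. -/
noncomputable def GG (Ω : Finset (E × Bool)) (ρ k : ℕ) : Finset (E → ZMod 2) :=
  univ.filter (fun c => G.Circ c ∧ len c = k ∧ (∀ e, c e = 1 → (e, true) ∈ Ω ∧ (e, false) ∈ Ω) ∧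
    ¬ G.Chord c ρ)

omit [Fintype V] [Fintype E] in
lemma ch_tl_rv (x : E × Bool) : G.tl (rv x) = G.hd x := by
  rcases x with ⟨e, b⟩; cases b <;> simp [tl, hd, rv]

omit [Fintype V] [Fintype E] in
lemma ch_hd_rv (x : E × Bool) : G.hd (rv x) = G.tl x := by
  rcases x with ⟨e, b⟩; cases b <;> simp [tl, hd, rv]

omit [Fintype V] [Fintype E] in
lemma ch_Nx_rev {x y : E × Bool} (h : G.Nx x y) : G.Nx (rv y) (rv x) := by
  refine ⟨?_, ?_⟩
  · rw [ch_tl_rv, ch_hd_rv]; exact h.1.symm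
  · rw [rv_rv_ker]
    intro h2
    exact h.2 h2.symm

omit [Fintype V] [Fintype E] in
lemma ch_chain_rev {p : List (E × Bool)} (h : p.IsChain G.Nx) :
    ((p.reverse).map rv).IsChain G.Nx := by
  rw [List.isChain_map, List.isChain_reverse]
  refine h.imp fun a b hab => ch_Nx_rev G hab

theorem good_count (hG : G.Good) {Ω : Finset (E × Bool)} (hR : RevC Ω) (k ρ : ℕ) (hk : 2 ≤ k) :
    ((G.cw Ω k).filter (fun l => (l.map G.tl).Nodup ∧ ¬ G.Chord (chainOf l) ρ)).card ≤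
      2 * k * (G.GG Ω ρ k).card := by
  have hsub : ∀ l ∈ (G.cw Ω k).filter (fun l => (l.map G.tl).Nodup ∧ ¬ G.Chord (chainOf l) ρ),
      l ∈ G.scw k := by
    intro l hl
    simp only [mem_filter, cw, scw, mem_univ, implies_true, true_and] at hl ⊢
    exact ⟨⟨hl.1.1, hl.1.2.1, hl.1.2.2.2⟩, hl.2.1⟩
  refine card_le_mul_card_image_of_maps_to (f := chainOf) ?_ (2 * k) ?_
  · intro l hl
    have h1 := G.circ_of_scw hG (by omega : 1 ≤ k) (hsub l hl)
    have h2 := (mem_filter.1 hl).1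
    rw [cw, mem_filter] at h2
    rw [GG, mem_filter]
    refine ⟨mem_univ _, h1.1, h1.2, ?_, (mem_filter.1 hl).2.2⟩
    intro e he
    have h3 : ∃ b, (e, b) ∈ l := by
      by_contra hcon
      rw [chainOf, if_neg hcon] at he
      exact zero_ne_one he
    obtain ⟨b, hb⟩ := h3
    have h4 := h2.2.2.1 _ hb
    have h5 := hR _ h4
    cases b
    · exact ⟨h5, h4⟩
    · exact ⟨h4, h5⟩
  · intro c _
    refine le_trans (card_le_card ?_) (G.scw_count hG c k (by omega))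
    intro l hl
    rw [mem_filter] at hl ⊢
    exact ⟨hsub l hl.1, hl.2⟩

section bad

variable {k : ℕ} (hk0 : 0 < k) (l : List (E × Bool)) (hl : l.length = k)

/-- the periodic sequence of darts of a closed walk -/
def ch_f (hk0 : 0 < k) (l : List (E × Bool)) (hl : l.length = k) (n : ℕ) : E × Bool :=
  l[n % k]'(by rw [hl]; exact Nat.mod_lt _ hk0)

lemma ch_f_mod (n m : ℕ) (h : n % k = m % k) : ch_f hk0 l hl n = ch_f hk0 l hl m := by
  simp only [ch_f, h]

lemma ch_f_lt (n : ℕ) (h : n < k) : ch_f hk0 l hl n = l[n]'(by omega) := by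
  simp only [ch_f, Nat.mod_eq_of_lt h]

lemma ch_f_add (n : ℕ) : ch_f hk0 l hl (n + k) = ch_f hk0 l hl n :=
  ch_f_mod hk0 l hl _ _ (by simp)

lemma ch_f_mem (n : ℕ) : ch_f hk0 l hl n ∈ l := List.getElem_mem _

lemma ch_f_Nx (hch : l.IsChain G.Nx) (hcy : ∀ x ∈ l.head?, ∀ y ∈ l.getLast?, G.Nx y x) (n : ℕ) :
    G.Nx (ch_f hk0 l hl n) (ch_f hk0 l hl (n + 1)) := by
  have h1 : n % k < k := Nat.mod_lt _ hk0
  rcases Nat.lt_or_ge (n % k + 1) k with h | h
  · have h2 : (n + 1) % k = n % k + 1 := by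
      rw [Nat.add_mod, Nat.mod_eq_of_lt (by omega : 1 < k), Nat.mod_eq_of_lt h]
    simp only [ch_f, h2]
    exact List.isChain_iff_getElem.1 hch _ (by omega)
  · have h3 : n % k = k - 1 := by omega
    have h2 : (n + 1) % k = 0 := by
      rw [← Nat.mod_add_mod, h3, Nat.sub_add_cancel hk0, Nat.mod_self]
    simp only [ch_f, h2, h3]
    apply hcy
    · rw [List.head?_eq_getElem?, List.getElem?_eq_getElem (by omega)]
      exact rfl
    · rw [List.getLast?_eq_getElem?, hl, List.getElem?_eq_getElem (by omega)]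
      exact rfl

/-- decoding a bad closed walk -/
def ch_dec (k i m : ℕ) (x : E × Bool) (W B : List (E × Bool)) : List (E × Bool) :=
  List.ofFn (fun j : Fin k => if ((j : ℕ) + k - i) % k < m - 1 then
    W.getD (((j : ℕ) + k - i) % k) x else B.getD (((j : ℕ) + k - i) % k - (m - 1)) x)

/-- walks returning to their first vertex -/
noncomputable def ch_ret (Ω : Finset (E × Bool)) (x : E × Bool) (j : ℕ) :
    Finset (List (E × Bool)) :=
  (G.wk Ω x j).filter (fun W => ∃ y, W.getLast? = some y ∧ G.hd y = G.tl x)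

/-- the rest of the closed walk -/
noncomputable def ch_BB (Ω : Finset (E × Bool)) (k m : ℕ) (x : E × Bool)
    (W : List (E × Bool)) : Finset (List (E × Bool)) :=
  (G.wk Ω (W.getD (m - 1) x) (k - m + 1)).filter
    (fun B => B.getLast? = some x ∧ x ∈ Ω ∧ W.getD (m - 1) x ∈ Ω)

/-- a path outside of the closed walk -/
def ch_P (ρ : ℕ) (l : List (E × Bool)) (u v : V) (p : List (E × Bool)) : Prop :=
  p.IsChain G.Nx ∧ p.length ≤ ρ ∧ (∀ y ∈ p, chainOf l y.1 = 0) ∧ (p = [] → u = v) ∧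
    (∀ y ∈ p.head?, G.tl y = u) ∧ (∀ y ∈ p.getLast?, G.hd y = v)

lemma ch_P_rev {ρ : ℕ} {l : List (E × Bool)} {u v : V} {p : List (E × Bool)}
    (h : G.ch_P ρ l u v p) : G.ch_P ρ l v u (p.reverse.map rv) := by
  obtain ⟨h1, h2, h3, h4, h5, h6⟩ := h
  refine ⟨ch_chain_rev G h1, by simpa using h2, ?_, ?_, ?_, ?_⟩
  · intro y hy
    rw [List.mem_map] at hy
    obtain ⟨z, hz, rfl⟩ := hy
    exact h3 z (List.mem_reverse.1 hz)
  · intro h
    have : p = [] := by simpa using h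
    exact (h4 this).symm
  · intro y hy
    rw [List.head?_map, List.head?_reverse] at hy
    rw [Option.mem_def, Option.map_eq_some_iff] at hy
    obtain ⟨z, hz, rfl⟩ := hy
    rw [ch_tl_rv]
    exact h6 z hz
  · intro y hy
    rw [List.getLast?_map, List.getLast?_reverse] at hy
    rw [Option.mem_def, Option.map_eq_some_iff] at hy
    obtain ⟨z, hz, rfl⟩ := hy
    rw [ch_hd_rv]
    exact h5 z hz

lemma ch_ret_card (hG : G.Good) (Ω : Finset (E × Bool)) (M : ℕ) {x : E × Bool} (hx : x ∈ Ω)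
    {j : ℕ} (hj : j < M) : ((G.ch_ret Ω x j).card : ℝ) ≤ 2 ^ j * G.phi Ω M x := by
  refine le_trans ?_ (G.Kpow_ret_le hG Ω Ω (Finset.Subset.refl _) M x hx j hj)
  have h1 : G.ch_ret Ω x j ⊆ (univ.filter (fun y => G.hd y = G.tl x)).biUnion
      (fun y => (G.wk Ω x j).filter (fun l => l.getLast? = some y)) := by
    intro W hW
    rw [ch_ret, mem_filter] at hW
    obtain ⟨h1, y, h2, h3⟩ := hW
    rw [mem_biUnion]
    exact ⟨y, mem_filter.2 ⟨mem_univ _, h3⟩, mem_filter.2 ⟨h1, h2⟩⟩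
  have h2 := le_trans (card_le_card h1) card_biUnion_le
  have h3 : ((G.ch_ret Ω x j).card : ℝ) ≤ ∑ y ∈ univ.filter (fun y => G.hd y = G.tl x),
      (((G.wk Ω x j).filter (fun l => l.getLast? = some y)).card : ℝ) := by
    exact_mod_cast h2
  refine h3.trans (le_of_eq ?_)
  refine sum_congr rfl fun y _ => ?_
  rw [G.Kpow_eq Ω hx]

lemma ch_BB_card {Ω : Finset (E × Bool)} {q₀ : ℝ} (hq0 : 0 ≤ q₀)
    (hq : ∀ x ∈ Ω, ∀ y ∈ Ω, ∀ l, k ≤ 2 * l → l ≤ k → (G.K Ω ^ l) x y ≤ 2 ^ l * q₀)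
    {m : ℕ} (hm1 : 1 ≤ m) (hm : 2 * m ≤ k) (x : E × Bool) (W : List (E × Bool)) :
    ((G.ch_BB Ω k m x W).card : ℝ) ≤ 2 ^ (k - m + 1) * q₀ := by
  by_cases h : x ∈ Ω ∧ W.getD (m - 1) x ∈ Ω
  · refine le_trans ?_ (hq (W.getD (m - 1) x) h.2 x h.1 (k - m + 1) (by omega) (by omega))
    rw [G.Kpow_eq Ω h.2]
    norm_cast
    refine card_le_card ?_
    intro B hB
    rw [ch_BB, mem_filter] at hB
    exact mem_filter.2 ⟨hB.1, hB.2.1⟩
  · have h0 : G.ch_BB Ω k m x W = ∅ := by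
      rw [ch_BB, filter_eq_empty_iff]
      intro B _ hB
      exact h hB.2
    rw [h0]
    simp only [card_empty, Nat.cast_zero]
    positivity

lemma ch_core {A : Finset V} {Ω : Finset (E × Bool)} (hR : RevC Ω) (hΩ : Ω ⊆ G.Om A) {ρ : ℕ}
    (hin : ∀ y ∈ Ω, ∀ (x : E × Bool) (p : List (E × Bool)), G.tl x = G.tl y →
      (x :: p).IsChain G.Nx → (x :: p).length ≤ ρ → ∀ z ∈ x :: p, z ∈ G.Om A)
    (hlc : l ∈ G.cw Ω k) {s m : ℕ} (hs : s < k) (hm1 : 1 ≤ m) (hm : 2 * m ≤ k)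
    {p : List (E × Bool)}
    (hP : G.ch_P ρ l (G.tl (ch_f hk0 l hl (s + m))) (G.tl (ch_f hk0 l hl s)) p) :
    ∃ i ∈ range k, ∃ m ∈ Icc 1 (k / 2), ∃ r ∈ range (ρ + 1), ∃ x ∈ G.Om A,
      ∃ W ∈ G.ch_ret (G.Om A) x (m + r - 1), ∃ B ∈ G.ch_BB Ω k m x W, ch_dec k i m x W B = l := by
  rw [cw, mem_filter] at hlc
  obtain ⟨-, hch, hΩl, hcy⟩ := hlc
  set f := ch_f hk0 l hl with hf
  have hN : ∀ n, G.Nx (f n) (f (n + 1)) := ch_f_Nx G hk0 l hl hch hcy
  have hfm : ∀ n, f n ∈ l := ch_f_mem hk0 l hl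
  have hfΩ : ∀ n, f n ∈ Ω := fun n => hΩl _ (hfm n)
  obtain ⟨h1, h2, h3, h4, h5, h6⟩ := hP
  have hpA : ∀ z ∈ p, z ∈ G.Om A := by
    rcases p with _ | ⟨y, p'⟩
    · simp
    · exact hin (f (s + m)) (hfΩ _) y p' (h5 y rfl) h1 h2
  set W : List (E × Bool) := List.ofFn (fun t : Fin m => f (s + t)) ++ p with hW
  set B : List (E × Bool) := List.ofFn (fun t : Fin (k - m + 2) => f (s + (m - 1) + t)) with hB
  have hWlen : W.length = m + p.length := by rw [hW]; simp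
  have hWget : ∀ t, t < m → W.getD t (f s) = f (s + t) := by
    intro t ht
    rw [List.getD_eq_getElem?_getD, hW, List.getElem?_append_left (by simpa using ht)]
    rw [List.getElem?_ofFn]
    simp [ht]
  have hofn : ∀ a n, (List.ofFn (fun t : Fin n => f (a + t))).IsChain G.Nx := by
    intro a n
    rw [List.isChain_iff_getElem]
    intro i hi
    simp only [List.getElem_ofFn]
    exact hN (a + i)
  have hlast : ∀ a n, 1 ≤ n → (List.ofFn (fun t : Fin n => f (a + t))).getLast? =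
      some (f (a + (n - 1))) := by
    intro a n hn
    rw [List.getLast?_eq_getElem?, List.getElem?_ofFn, List.length_ofFn]
    simp only [show n - 1 < n by omega, dif_pos]
  have hBget : ∀ t, t < k - m + 2 → B.getD t (f s) = f (s + (m - 1) + t) := by
    intro t ht
    rw [List.getD_eq_getElem?_getD, hB, List.getElem?_ofFn]
    simp [ht]
  refine ⟨s, mem_range.2 hs, m, mem_Icc.2 ⟨hm1, by omega⟩, p.length, mem_range.2 (by omega), f s,
    hΩ (hfΩ s), W, ?_, B, ?_, ?_⟩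
  · rw [ch_ret, mem_filter, wk, mem_filter, mem_allL]
    refine ⟨⟨?_, ?_, ?_, ?_⟩, ?_⟩
    · rw [hWlen]; omega
    · rw [hW, List.head?_append, List.head?_eq_getElem?, List.getElem?_ofFn]
      simp [show 0 < m from hm1]
    · rw [hW, List.isChain_append]
      refine ⟨hofn s m, h1, ?_⟩
      intro a ha b hb
      rw [hlast s m hm1, Option.mem_def, Option.some_inj] at ha
      subst ha
      have hNx := hN (s + (m - 1))
      have e : s + (m - 1) + 1 = s + m := by omega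
      rw [e] at hNx
      refine ⟨?_, ?_⟩
      · rw [h5 b hb]; exact hNx.1
      · intro hb2
        have h7 := h3 b (List.mem_of_mem_head? hb)
        rw [hb2] at h7
        have h8 : chainOf l (rv (f (s + (m - 1)))).1 = 1 := by
          rw [chainOf, if_pos]
          exact ⟨(f (s + (m - 1))).2, hfm _⟩
        rw [h8] at h7
        exact one_ne_zero h7
    · intro z hz
      rw [hW, List.mem_append] at hz
      rcases hz with hz | hz
      · rw [List.mem_ofFn] at hz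
        obtain ⟨t, rfl⟩ := hz
        exact hΩ (hfΩ _)
      · exact hpA z hz
    · rcases hp : p.getLast? with _ | y
      · have hp0 : p = [] := List.getLast?_eq_none_iff.1 hp
        refine ⟨f (s + (m - 1)), ?_, ?_⟩
        · rw [hW, hp0, List.append_nil]
          exact hlast s m hm1
        · have hNx := hN (s + (m - 1))
          have e : s + (m - 1) + 1 = s + m := by omega
          rw [e] at hNx
          rw [← hNx.1]
          exact h4 hp0
      · refine ⟨y, ?_, h6 y hp⟩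
        rw [hW, List.getLast?_append, hp]
        rfl
  · rw [ch_BB, mem_filter, wk, mem_filter, mem_allL, hWget _ (by omega)]
    refine ⟨⟨?_, ?_, ?_, ?_⟩, ?_, hfΩ _, hfΩ _⟩
    · rw [hB]; simp
    · rw [hB, List.head?_eq_getElem?, List.getElem?_ofFn]
      simp
    · rw [hB]; exact hofn _ _
    · intro z hz
      rw [hB, List.mem_ofFn] at hz
      obtain ⟨t, rfl⟩ := hz
      exact hfΩ _
    · rw [hB, hlast _ _ (by omega)]
      congr 1
      have e : s + (m - 1) + (k - m + 2 - 1) = s + k := by omega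
      rw [e]
      exact ch_f_add hk0 l hl s
  · apply List.ext_getElem
    · rw [ch_dec, List.length_ofFn, hl]
    · intro j hj1 hj2
      have hj : j < k := by rw [hl] at hj2; exact hj2
      simp only [ch_dec, List.getElem_ofFn]
      set t := (j + k - s) % k with ht
      have htk : t < k := Nat.mod_lt _ hk0
      have hst : (s + t) % k = j % k := by
        rw [ht, Nat.add_mod_mod, show s + (j + k - s) = j + k by omega, Nat.add_mod_right]
      have hfj : f (s + t) = l[j] := by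
        rw [← ch_f_lt hk0 l hl j hj]
        exact ch_f_mod hk0 l hl _ _ hst
      split_ifs with hlt
      · rw [hWget _ (by omega), hfj]
      · rw [hBget _ (by omega), ← hfj]
        congr 1
        omega

lemma ch_exists {A : Finset V} {Ω : Finset (E × Bool)} (hR : RevC Ω) (hΩ : Ω ⊆ G.Om A) {ρ : ℕ}
    (hin : ∀ y ∈ Ω, ∀ (x : E × Bool) (p : List (E × Bool)), G.tl x = G.tl y →
      (x :: p).IsChain G.Nx → (x :: p).length ≤ ρ → ∀ z ∈ x :: p, z ∈ G.Om A)
    (hlc : l ∈ G.cw Ω k) {a b : ℕ} (ha : a < k) (hb : b < k) (hab : a ≠ b)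
    {p : List (E × Bool)}
    (hP : G.ch_P ρ l (G.tl (ch_f hk0 l hl a)) (G.tl (ch_f hk0 l hl b)) p) :
    ∃ i ∈ range k, ∃ m ∈ Icc 1 (k / 2), ∃ r ∈ range (ρ + 1), ∃ x ∈ G.Om A,
      ∃ W ∈ G.ch_ret (G.Om A) x (m + r - 1), ∃ B ∈ G.ch_BB Ω k m x W, ch_dec k i m x W B = l := by
  have key : ∀ (a b : ℕ) (p : List (E × Bool)), b < k → a < k → (b < a → 2 * (a - b) ≤ k) →
      (a < b → 2 * (a + k - b) ≤ k) → a ≠ b →
      G.ch_P ρ l (G.tl (ch_f hk0 l hl a)) (G.tl (ch_f hk0 l hl b)) p →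
      ∃ i ∈ range k, ∃ m ∈ Icc 1 (k / 2), ∃ r ∈ range (ρ + 1), ∃ x ∈ G.Om A,
      ∃ W ∈ G.ch_ret (G.Om A) x (m + r - 1), ∃ B ∈ G.ch_BB Ω k m x W,
        ch_dec k i m x W B = l := by
    intro a b p hb ha h1 h2 hab hP
    rcases Nat.lt_or_ge b a with h | h
    · refine ch_core G hk0 l hl hR hΩ hin hlc (s := b) (m := a - b) hb (by omega) (h1 h) (p := p) ?_
      rw [Nat.add_sub_cancel' h.le]
      exact hP
    · refine ch_core G hk0 l hl hR hΩ hin hlc (s := b) (m := a + k - b) hb (by omega)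
        (h2 (by omega)) (p := p) ?_
      rw [show b + (a + k - b) = a + k by omega, ch_f_add]
      exact hP
  by_cases h : (b < a → 2 * (a - b) ≤ k) ∧ (a < b → 2 * (a + k - b) ≤ k)
  · exact key a b p hb ha h.1 h.2 hab hP
  · exact key b a _ ha hb (by omega) (by omega) (Ne.symm hab) (ch_P_rev G hP)

lemma ch_On {v : V} (hc : G.On (chainOf l) v)
    (hch : l.IsChain G.Nx) (hcy : ∀ x ∈ l.head?, ∀ y ∈ l.getLast?, G.Nx y x) :
    ∃ n < k, G.tl (ch_f hk0 l hl n) = v := by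
  obtain ⟨e, he, hv⟩ := hc
  have h3 : ∃ b, (e, b) ∈ l := by
    by_contra hcon
    rw [chainOf, if_neg hcon] at he
    exact zero_ne_one he
  obtain ⟨b, hb⟩ := h3
  obtain ⟨n, hn, hn'⟩ := List.getElem_of_mem hb
  have hnk : n < k := by omega
  have hfn : ch_f hk0 l hl n = (e, b) := by rw [ch_f_lt hk0 l hl n hnk, hn']
  have hNx := ch_f_Nx G hk0 l hl hch hcy n
  have hor : G.tl (e, b) = v ∨ G.hd (e, b) = v := by
    rcases b <;> rcases hv with hv | hv <;> simp [tl, hd, hv]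
  rcases hor with h | h
  · exact ⟨n, hnk, by rw [hfn]; exact h⟩
  · refine ⟨(n + 1) % k, Nat.mod_lt _ hk0, ?_⟩
    rw [ch_f_mod hk0 l hl ((n + 1) % k) (n + 1) (Nat.mod_mod _ _), hNx.1, hfn]
    exact h

include hk0 hl in
lemma ch_bad {A : Finset V} {Ω : Finset (E × Bool)} (hR : RevC Ω) (hΩ : Ω ⊆ G.Om A) {ρ : ℕ}
    (hin : ∀ y ∈ Ω, ∀ (x : E × Bool) (p : List (E × Bool)), G.tl x = G.tl y →
      (x :: p).IsChain G.Nx → (x :: p).length ≤ ρ → ∀ z ∈ x :: p, z ∈ G.Om A)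
    (hlc : l ∈ G.cw Ω k) (hbad : ¬ ((l.map G.tl).Nodup ∧ ¬ G.Chord (chainOf l) ρ)) :
    ∃ i ∈ range k, ∃ m ∈ Icc 1 (k / 2), ∃ r ∈ range (ρ + 1), ∃ x ∈ G.Om A,
      ∃ W ∈ G.ch_ret (G.Om A) x (m + r - 1), ∃ B ∈ G.ch_BB Ω k m x W, ch_dec k i m x W B = l := by
  have hlc' := hlc
  rw [cw, mem_filter] at hlc'
  obtain ⟨-, hch, hΩl, hcy⟩ := hlc'
  by_cases hnd : (l.map G.tl).Nodup
  · have hCh : G.Chord (chainOf l) ρ := by
      by_contra h
      exact hbad ⟨hnd, h⟩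
    obtain ⟨x, p, h1, h2, h3, h4, h5, h6⟩ := hCh
    obtain ⟨a, ha, ha'⟩ := ch_On G hk0 l hl h4 hch hcy
    obtain ⟨b, hb, hb'⟩ := ch_On G hk0 l hl h5 hch hcy
    refine ch_exists G hk0 l hl hR hΩ hin hlc ha hb ?_ (p := x :: p) ⟨h1, h3, h2, ?_, ?_, ?_⟩
    · rintro rfl
      exact h6 (ha'.symm.trans hb')
    · intro h; exact absurd h (by simp)
    · intro y hy
      rw [List.head?_cons, Option.mem_def, Option.some_inj] at hy
      rw [← hy, ha']
    · intro y hy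
      rw [List.getLast?_eq_some_getLast (by simp), Option.mem_def, Option.some_inj] at hy
      rw [← hy, hb']
  · rw [List.Nodup, List.pairwise_iff_getElem] at hnd
    push Not at hnd
    obtain ⟨a, b, ha, hb, hab, h⟩ := hnd
    rw [List.length_map, hl] at ha hb
    simp only [List.getElem_map] at h
    refine ch_exists G hk0 l hl hR hΩ hin hlc ha hb (by omega) (p := [])
      ⟨List.isChain_nil, Nat.zero_le _, by simp, fun _ => ?_, by simp, by simp⟩
    rw [ch_f_lt hk0 l hl a ha, ch_f_lt hk0 l hl b hb]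
    exact h

end bad

theorem bad_count (hG : G.Good) (A : Finset V) {Ω : Finset (E × Bool)} (hR : RevC Ω)
    (hΩ : Ω ⊆ G.Om A) (M k ρ : ℕ) (hk : 2 ≤ k) (hkM : k + ρ ≤ M) (q₀ : ℝ) (hq0 : 0 ≤ q₀)
    (hq : ∀ x ∈ Ω, ∀ y ∈ Ω, ∀ l, k ≤ 2 * l → l ≤ k → (G.K Ω ^ l) x y ≤ 2 ^ l * q₀)
    (hin : ∀ y ∈ Ω, ∀ (x : E × Bool) (p : List (E × Bool)), G.tl x = G.tl y →
      (x :: p).IsChain G.Nx → (x :: p).length ≤ ρ → ∀ z ∈ x :: p, z ∈ G.Om A) :
    (((G.cw Ω k).filter (fun l => ¬ ((l.map G.tl).Nodup ∧ ¬ G.Chord (chainOf l) ρ))).card : ℝ) ≤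
      (k : ℝ) ^ 2 * 2 ^ (ρ + 1) * 2 ^ k * q₀ * ∑ x ∈ G.Om A, G.phi (G.Om A) M x := by
  have hk0 : 0 < k := by omega
  set S := (G.cw Ω k).filter (fun l => ¬ ((l.map G.tl).Nodup ∧ ¬ G.Chord (chainOf l) ρ)) with hS
  have hsub : S ⊆ (range k).biUnion fun i => (Icc 1 (k / 2)).biUnion fun m =>
      (range (ρ + 1)).biUnion fun r => (G.Om A).biUnion fun x =>
        (G.ch_ret (G.Om A) x (m + r - 1)).biUnion fun W =>
          (G.ch_BB Ω k m x W).image (fun B => ch_dec k i m x W B) := by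
    intro l hl
    rw [hS, mem_filter] at hl
    have hlen : l.length = k := by
      have := hl.1
      rw [cw, mem_filter, mem_allL] at this
      exact this.1
    obtain ⟨i, hi, m, hm, r, hr, x, hx, W, hW, B, hB, hd⟩ :=
      ch_bad G hk0 l hlen hR hΩ hin hl.1 hl.2
    simp only [mem_biUnion, mem_image]
    exact ⟨i, hi, m, hm, r, hr, x, hx, W, hW, B, hB, hd⟩
  have hphi0 : ∀ x, 0 ≤ G.phi (G.Om A) M x := by
    intro x
    unfold phi
    positivity
  set Φ := ∑ x ∈ G.Om A, G.phi (G.Om A) M x with hΦ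
  have hΦ0 : 0 ≤ Φ := sum_nonneg fun x _ => hphi0 x
  have h1 : (S.card : ℝ) ≤ ∑ i ∈ range k, ∑ m ∈ Icc 1 (k / 2), ∑ r ∈ range (ρ + 1),
      ∑ x ∈ G.Om A, ∑ W ∈ G.ch_ret (G.Om A) x (m + r - 1), ((G.ch_BB Ω k m x W).card : ℝ) := by
    have h2 := card_le_card hsub
    have h3 : S.card ≤ ∑ i ∈ range k, ∑ m ∈ Icc 1 (k / 2), ∑ r ∈ range (ρ + 1),
      ∑ x ∈ G.Om A, ∑ W ∈ G.ch_ret (G.Om A) x (m + r - 1), (G.ch_BB Ω k m x W).card := by
      refine h2.trans ?_
      refine card_biUnion_le.trans (sum_le_sum fun i _ => ?_)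
      refine card_biUnion_le.trans (sum_le_sum fun m _ => ?_)
      refine card_biUnion_le.trans (sum_le_sum fun r _ => ?_)
      refine card_biUnion_le.trans (sum_le_sum fun x _ => ?_)
      refine card_biUnion_le.trans (sum_le_sum fun W _ => ?_)
      exact card_image_le
    exact_mod_cast h3
  have h2 : ∀ m ∈ Icc 1 (k / 2), ∀ r ∈ range (ρ + 1),
      ∑ x ∈ G.Om A, ∑ W ∈ G.ch_ret (G.Om A) x (m + r - 1), ((G.ch_BB Ω k m x W).card : ℝ) ≤
        2 ^ r * (2 ^ k * q₀ * Φ) := by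
    intro m hm r hr
    rw [mem_Icc] at hm
    rw [mem_range] at hr
    calc ∑ x ∈ G.Om A, ∑ W ∈ G.ch_ret (G.Om A) x (m + r - 1), ((G.ch_BB Ω k m x W).card : ℝ)
        ≤ ∑ x ∈ G.Om A, ∑ W ∈ G.ch_ret (G.Om A) x (m + r - 1), 2 ^ (k - m + 1) * q₀ := by
          refine sum_le_sum fun x _ => sum_le_sum fun W _ => ?_
          exact ch_BB_card G hq0 hq hm.1 (by omega) x W
      _ = ∑ x ∈ G.Om A, ((G.ch_ret (G.Om A) x (m + r - 1)).card : ℝ) * (2 ^ (k - m + 1) * q₀) := by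
          refine sum_congr rfl fun x _ => ?_
          rw [sum_const, nsmul_eq_mul]
      _ ≤ ∑ x ∈ G.Om A, (2 ^ (m + r - 1) * G.phi (G.Om A) M x) * (2 ^ (k - m + 1) * q₀) := by
          refine sum_le_sum fun x hx => ?_
          refine mul_le_mul_of_nonneg_right (G.ch_ret_card hG _ M hx (by omega)) (by positivity)
      _ = 2 ^ r * (2 ^ k * q₀ * Φ) := by
          rw [hΦ, ← sum_mul, ← mul_sum]
          have e : (2 : ℝ) ^ (m + r - 1) * 2 ^ (k - m + 1) = 2 ^ r * 2 ^ k := by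
            rw [← pow_add, ← pow_add]
            congr 1
            omega
          linear_combination (q₀ * ∑ x ∈ G.Om A, G.phi (G.Om A) M x) * e
  have h3 : ∀ m ∈ Icc 1 (k / 2), ∑ r ∈ range (ρ + 1),
      ∑ x ∈ G.Om A, ∑ W ∈ G.ch_ret (G.Om A) x (m + r - 1), ((G.ch_BB Ω k m x W).card : ℝ) ≤
        2 ^ (ρ + 1) * (2 ^ k * q₀ * Φ) := by
    intro m hm
    refine (sum_le_sum (h2 m hm)).trans ?_
    rw [← sum_mul]
    refine mul_le_mul_of_nonneg_right ?_ (by positivity)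
    have := geom_sum_eq (by norm_num : (2 : ℝ) ≠ 1) (ρ + 1)
    rw [this]
    norm_num
  refine h1.trans ?_
  calc ∑ i ∈ range k, ∑ m ∈ Icc 1 (k / 2), ∑ r ∈ range (ρ + 1),
      ∑ x ∈ G.Om A, ∑ W ∈ G.ch_ret (G.Om A) x (m + r - 1), ((G.ch_BB Ω k m x W).card : ℝ)
      ≤ ∑ i ∈ range k, ∑ m ∈ Icc 1 (k / 2), 2 ^ (ρ + 1) * (2 ^ k * q₀ * Φ) :=
        sum_le_sum fun i _ => sum_le_sum h3
    _ = (k : ℝ) * ((k / 2 : ℕ) : ℝ) * (2 ^ (ρ + 1) * (2 ^ k * q₀ * Φ)) := by
        rw [sum_const, sum_const, card_range, Nat.card_Icc, nsmul_eq_mul, nsmul_eq_mul]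
        push_cast
        ring
    _ ≤ (k : ℝ) * k * (2 ^ (ρ + 1) * (2 ^ k * q₀ * Φ)) := by
        refine mul_le_mul_of_nonneg_right ?_ (by positivity)
        refine mul_le_mul_of_nonneg_left ?_ (by positivity)
        exact_mod_cast Nat.div_le_self k 2
    _ = _ := by ring

end MG

end Cyc
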