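import Pool.Agent.Cyc.Walk

/-!
# Circuits and closed walks
-/

open Finset
open scoped Classical

set_option linter.unusedSectionVars false
set_option linter.unusedVariables false

namespace Cyc

/-- the set of edges of a list of darts, as a chain. -/
noncomputable def chainOf {E : Type} (l : List (E × Bool)) : E → ZMod 2 :=
  fun e => if ∃ b, (e, b) ∈ l then 1 else 0

theorem cq_rv_rv {E : Type} (x : E × Bool) : rv (rv x) = x := by simp [rv]

theorem cq_rv_ne {E : Type} (x : E × Bool) : rv x ≠ x := by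
  intro h
  have h1 := congrArg Prod.snd h
  revert h1
  simp [rv]

theorem cq_eq_or {E : Type} {x y : E × Bool} (h : x.1 = y.1) : y = x ∨ y = rv x := by
  obtain ⟨e, b⟩ := x
  obtain ⟨e', b'⟩ := y
  simp only at h
  subst h
  cases b <;> cases b' <;> simp [rv]

theorem cq_chainOf {E : Type} (l : List (E × Bool)) (e : E) :
    chainOf l e = 1 ↔ ∃ x ∈ l, x.1 = e := by
  unfold chainOf
  constructor
  · intro h
    split_ifs at h with h1
    · obtain ⟨b, hb⟩ := h1
      exact ⟨(e, b), hb, rfl⟩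
    · exact absurd h.symm z2_one_ne_zero
  · rintro ⟨x, hx, rfl⟩
    rw [if_pos ⟨x.2, hx⟩]

namespace MG

variable {V E : Type} [Fintype V] [Fintype E] (G : MG V E)

theorem cq_tl_rv (x : E × Bool) : G.tl (rv x) = G.hd x := by
  obtain ⟨e, b⟩ := x
  cases b <;> simp [tl, hd, rv]

theorem cq_hd_rv (x : E × Bool) : G.hd (rv x) = G.tl x := by
  obtain ⟨e, b⟩ := x
  cases b <;> simp [tl, hd, rv]

theorem cq_tl_ne_hd (hG : G.Good) (x : E × Bool) : G.tl x ≠ G.hd x := by
  obtain ⟨e, b⟩ := x
  cases b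
  · simpa [tl, hd] using hG.noloop e
  · simpa [tl, hd] using (hG.noloop e).symm

/-- simple closed walks of length `k` (rooted): tails pairwise distinct. -/
noncomputable def scw (k : ℕ) : Finset (List (E × Bool)) :=
  (G.cw univ k).filter (fun l => (l.map G.tl).Nodup)

theorem cq_mem_scw {k : ℕ} {l : List (E × Bool)} : l ∈ G.scw k ↔
    l.length = k ∧ l.IsChain G.Nx ∧ (∀ x ∈ l.head?, ∀ y ∈ l.getLast?, G.Nx y x) ∧
      (l.map G.tl).Nodup := by
  unfold scw cw
  rw [Finset.mem_filter, Finset.mem_filter, mem_allL]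
  constructor
  · rintro ⟨⟨h1, h2, _, h3⟩, h4⟩
    exact ⟨h1, h2, h3, h4⟩
  · rintro ⟨h1, h2, h3, h4⟩
    exact ⟨⟨h1, h2, fun y _ => Finset.mem_univ y, h3⟩, h4⟩

/-- simple closed walks as functions on `Fin (n + 1)` -/
def CqW {n : ℕ} (w : Fin (n + 1) → E × Bool) : Prop :=
  (∀ i, G.Nx (w i) (w (i + 1))) ∧ Function.Injective (fun i => G.tl (w i))

theorem cq_scw_iff {n : ℕ} {l : List (E × Bool)} : l ∈ G.scw (n + 1) ↔
    ∃ w : Fin (n + 1) → E × Bool, l = List.ofFn w ∧ G.CqW w := by
  rw [cq_mem_scw]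
  have key : ∀ w : Fin (n + 1) → E × Bool,
      ((List.ofFn w).IsChain G.Nx ∧ (∀ x ∈ (List.ofFn w).head?, ∀ y ∈ (List.ofFn w).getLast?,
        G.Nx y x) ∧ ((List.ofFn w).map G.tl).Nodup) ↔ G.CqW w := by
    intro w
    have h1 : (List.ofFn w).head? = some (w 0) := by rw [List.ofFn_succ]; rfl
    have h2 : (List.ofFn w).getLast? = some (w (Fin.last n)) := by
      rw [List.getLast?_eq_getElem?]
      simp only [List.length_ofFn, add_tsub_cancel_right]
      rw [List.getElem?_eq_getElem (by simp)]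
      simp only [List.getElem_ofFn]
      rfl
    rw [h1, h2, List.map_ofFn, List.nodup_ofFn, List.isChain_iff_getElem]
    unfold CqW
    simp only [Option.mem_some_iff, forall_eq']
    constructor
    · rintro ⟨h3, h4, h5⟩
      refine ⟨fun i => ?_, h5⟩
      refine Fin.lastCases ?_ (fun i => ?_) i
      · rw [Fin.last_add_one]; exact h4
      · rw [Fin.coeSucc_eq_succ]
        have := h3 i.1 (by simp)
        simp only [List.getElem_ofFn] at this
        exact this
    · rintro ⟨h3, h5⟩
      refine ⟨fun i hi => ?_, ?_, h5⟩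
      · simp only [List.length_ofFn] at hi
        have := h3 (Fin.castSucc ⟨i, by omega⟩)
        rw [Fin.coeSucc_eq_succ] at this
        simp only [List.getElem_ofFn]
        exact this
      · have := h3 (Fin.last n)
        rw [Fin.last_add_one] at this
        exact this
  constructor
  · rintro ⟨h1, h2⟩
    have h3 : l = List.ofFn (fun i : Fin (n + 1) => l[i.1]'(by rw [h1]; exact i.2)) := by
      apply List.ext_getElem
      · simp [h1]
      · intro i hi hi'
        rw [List.getElem_ofFn]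
    refine ⟨_, h3, ?_⟩
    rw [h3] at h2
    exact (key _).1 h2
  · rintro ⟨w, rfl, hw⟩
    exact ⟨by simp, (key w).2 hw⟩

variable {G}

theorem CqW.hd {n : ℕ} {w : Fin (n + 1) → E × Bool} (hw : G.CqW w) (i : Fin (n + 1)) :
    G.hd (w i) = G.tl (w (i + 1)) := (hw.1 i).1.symm

theorem CqW.edge_inj {n : ℕ} {w : Fin (n + 1) → E × Bool} (hw : G.CqW w) :
    Function.Injective (fun i => (w i).1) := by
  intro i j hij
  rcases cq_eq_or hij with h | h
  · exact hw.2 (by simp only [h])
  · exfalso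
    have h1 : G.tl (w j) = G.tl (w (i + 1)) := by
      rw [← hw.hd, h, cq_tl_rv]
    have h2 : j = i + 1 := hw.2 h1
    subst h2
    exact (hw.1 i).2 h

theorem cq_bd_dart (x : E × Bool) (a : ZMod 2) (v : V) :
    (if G.s x.1 = v then a else 0) + (if G.t x.1 = v then a else 0) =
      (if G.tl x = v then a else 0) + (if G.hd x = v then a else 0) := by
  obtain ⟨e, b⟩ := x
  cases b
  · simp [MG.tl, MG.hd]
  · simp [MG.tl, MG.hd, add_comm]

/-- boundary of a chain supported on a simple closed walk -/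
theorem CqW.bd {n : ℕ} {w : Fin (n + 1) → E × Bool} (hw : G.CqW w)
    {y : E → ZMod 2} (hy : ∀ e, y e = 1 → ∃ i, (w i).1 = e) (v : V) :
    G.bd y v = ∑ i, (if G.tl (w (i + 1)) = v then y (w (i + 1)).1 + y (w i).1 else 0) := by
  have h1 : G.bd y v = ∑ i, ((if G.tl (w i) = v then y (w i).1 else 0) +
      (if G.hd (w i) = v then y (w i).1 else 0)) := by
    unfold MG.bd
    have h2 : ∑ e, ((if G.s e = v then y e else 0) + (if G.t e = v then y e else 0)) =
        ∑ e ∈ univ.image (fun i => (w i).1),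
          ((if G.s e = v then y e else 0) + (if G.t e = v then y e else 0)) := by
      symm
      refine Finset.sum_subset (Finset.subset_univ _) fun e _ he => ?_
      have h3 : y e = 0 := by
        by_contra h4
        obtain ⟨i, hi⟩ := hy e (z2_ne_zero h4)
        exact he (Finset.mem_image.2 ⟨i, Finset.mem_univ _, hi⟩)
      simp [h3]
    rw [h2, Finset.sum_image (fun i _ j _ h => hw.edge_inj h)]
    exact Finset.sum_congr rfl fun i _ => cq_bd_dart _ _ _
  rw [h1, Finset.sum_add_distrib]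
  have h3 : ∑ i, (if G.tl (w i) = v then y (w i).1 else 0) =
      ∑ i, (if G.tl (w (i + 1)) = v then y (w (i + 1)).1 else 0) :=
    (Equiv.sum_comp (Equiv.addRight (1 : Fin (n + 1)))
      (fun i => if G.tl (w i) = v then y (w i).1 else 0)).symm
  rw [h3, ← Finset.sum_add_distrib]
  refine Finset.sum_congr rfl fun i _ => ?_
  rw [hw.hd i]
  split_ifs <;> simp

theorem CqW.const {n : ℕ} {w : Fin (n + 1) → E × Bool} (hw : G.CqW w)
    {y : E → ZMod 2} (hy : ∀ e, y e = 1 → ∃ i, (w i).1 = e) (hZ : y ∈ G.Z) (i : Fin (n + 1)) :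
    y (w (i + 1)).1 = y (w i).1 := by
  have h1 := hZ (G.tl (w (i + 1)))
  rw [hw.bd hy, Finset.sum_eq_single i] at h1
  · simpa [z2_add_eq_zero] using h1
  · intro j _ hj
    rw [if_neg]
    intro h
    apply hj
    have := hw.2 h
    exact add_right_cancel this
  · simp

theorem CqW.all {n : ℕ} {w : Fin (n + 1) → E × Bool} (hw : G.CqW w)
    {y : E → ZMod 2} (hy : ∀ e, y e = 1 → ∃ i, (w i).1 = e) (hZ : y ∈ G.Z) (i : Fin (n + 1)) :
    y (w i).1 = y (w 0).1 := by
  induction i using Fin.induction with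
  | zero => rfl
  | succ i ih =>
    rw [← Fin.coeSucc_eq_succ, hw.const hy hZ, ih]

variable (G)

theorem circ_of_scw (hG : G.Good) {k : ℕ} (hk : 1 ≤ k) {l : List (E × Bool)} (hl : l ∈ G.scw k) :
    G.Circ (chainOf l) ∧ len (chainOf l) = k := by
  obtain ⟨n, rfl⟩ : ∃ n, k = n + 1 := ⟨k - 1, by omega⟩
  rw [cq_scw_iff] at hl
  obtain ⟨w, rfl, hw⟩ := hl
  have hc : ∀ e, chainOf (List.ofFn w) e = 1 ↔ ∃ i, (w i).1 = e := by
    intro e
    rw [cq_chainOf]
    constructor
    · rintro ⟨x, hx, rfl⟩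
      obtain ⟨i, rfl⟩ := List.mem_ofFn.1 hx
      exact ⟨i, rfl⟩
    · rintro ⟨i, rfl⟩
      exact ⟨w i, List.mem_ofFn.2 ⟨i, rfl⟩, rfl⟩
  refine ⟨⟨?_, ?_, ?_⟩, ?_⟩
  · intro v
    rw [hw.bd (fun e he => (hc e).1 he)]
    refine Finset.sum_eq_zero fun i _ => ?_
    rw [(hc _).2 ⟨_, rfl⟩, (hc _).2 ⟨_, rfl⟩, z2_add_self, ite_self]
  · intro h
    have h1 := congrFun h (w 0).1
    rw [(hc _).2 ⟨_, rfl⟩] at h1
    exact z2_one_ne_zero h1
  · intro c' hc' hle
    have hy : ∀ e, c' e = 1 → ∃ i, (w i).1 = e := fun e he => (hc e).1 (hle e he)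
    have hall := hw.all hy hc'
    rcases z2_cases (c' (w 0).1) with h0 | h0
    · left
      funext e
      by_contra h1
      obtain ⟨i, hi⟩ := hy e (z2_ne_zero h1)
      rw [← hi, hall, h0] at h1
      exact h1 rfl
    · right
      apply Le.antisymm hle
      intro e he
      obtain ⟨i, hi⟩ := (hc e).1 he
      rw [← hi, hall, h0]
  · unfold len
    have h1 : univ.filter (fun e => chainOf (List.ofFn w) e = 1) =
        univ.image (fun i => (w i).1) := by
      ext e
      simp only [Finset.mem_filter, Finset.mem_univ, true_and, Finset.mem_image, hc]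
    rw [h1, Finset.card_image_of_injective _ hw.edge_inj]
    simp

/-- darts of a chain with tail `v` -/
noncomputable def cqAt (c : E → ZMod 2) (v : V) : Finset (E × Bool) :=
  univ.filter (fun x => c x.1 = 1 ∧ G.tl x = v)

theorem cq_mem_at {c : E → ZMod 2} {v : V} {x : E × Bool} :
    x ∈ G.cqAt c v ↔ c x.1 = 1 ∧ G.tl x = v := by simp [cqAt]

theorem cq_card_at (c : E → ZMod 2) (v : V) : (G.cqAt c v).card = G.deg c v := by
  have h1 : G.cqAt c v = (univ.filter (fun e => c e = 1 ∧ G.s e = v)).image (fun e => (e, false)) ∪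
      (univ.filter (fun e => c e = 1 ∧ G.t e = v)).image (fun e => (e, true)) := by
    ext ⟨e, b⟩
    rw [cq_mem_at, Finset.mem_union, Finset.mem_image, Finset.mem_image]
    cases b <;> simp [tl]
  rw [h1, Finset.card_union_of_disjoint, Finset.card_image_of_injective, Finset.card_image_of_injective]
  · rfl
  · intro a b h; simpa using h
  · intro a b h; simpa using h
  · rw [Finset.disjoint_left]
    intro x hx hx'
    rw [Finset.mem_image] at hx hx'
    obtain ⟨a, _, rfl⟩ := hx
    obtain ⟨b, _, hb⟩ := hx'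
    simp at hb

theorem cq_card_at_le (hG : G.Good) {c : E → ZMod 2} (hc : c ∈ G.Z) (v : V) :
    (G.cqAt c v).card ≤ 2 := by
  rw [cq_card_at]
  rcases G.deg_zero_or_two hG hc v with h | h <;> omega

theorem cq_card_at_eq (hG : G.Good) {c : E → ZMod 2} (hc : c ∈ G.Z) {v : V} {x : E × Bool}
    (hx : x ∈ G.cqAt c v) : (G.cqAt c v).card = 2 := by
  have h1 : 0 < (G.cqAt c v).card := Finset.card_pos.2 ⟨x, hx⟩
  rw [cq_card_at] at h1 ⊢
  rcases G.deg_zero_or_two hG hc v with h | h <;> omega

/-- there is a next dart -/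
theorem cq_next (hG : G.Good) {c : E → ZMod 2} (hc : c ∈ G.Z) {x : E × Bool} (hx : c x.1 = 1) :
    ∃ y : E × Bool, c y.1 = 1 ∧ G.Nx x y := by
  have h1 : rv x ∈ G.cqAt c (G.hd x) := by
    rw [cq_mem_at, cq_tl_rv]; exact ⟨hx, rfl⟩
  have h2 := G.cq_card_at_eq hG hc h1
  obtain ⟨y, hy, hne⟩ := Finset.exists_mem_ne (by omega : 1 < (G.cqAt c (G.hd x)).card) (rv x)
  rw [cq_mem_at] at hy
  exact ⟨y, hy.1, hy.2, hne⟩

/-- at most two darts -/
theorem cq_three (hG : G.Good) {c : E → ZMod 2} (hc : c ∈ G.Z) {v : V} {x y z : E × Bool}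
    (hx : c x.1 = 1 ∧ G.tl x = v) (hy : c y.1 = 1 ∧ G.tl y = v) (hz : c z.1 = 1 ∧ G.tl z = v)
    (hxy : x ≠ y) : z = x ∨ z = y := by
  by_contra h
  push Not at h
  have h1 : ({x, y, z} : Finset (E × Bool)) ⊆ G.cqAt c v := by
    intro u hu
    simp only [Finset.mem_insert, Finset.mem_singleton] at hu
    rw [cq_mem_at]
    rcases hu with rfl | rfl | rfl
    · exact hx
    · exact hy
    · exact hz
  have h2 := Finset.card_le_card h1
  rw [Finset.card_eq_three.2 ⟨x, y, z, hxy, h.1.symm, h.2.symm, rfl⟩] at h2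
  have := G.cq_card_at_le hG hc v
  omega

/-- the next dart is unique -/
theorem cq_next_unique (hG : G.Good) {c : E → ZMod 2} (hc : c ∈ G.Z) {x y z : E × Bool}
    (hx : c x.1 = 1) (hy : c y.1 = 1) (hz : c z.1 = 1) (hxy : G.Nx x y) (hxz : G.Nx x z) :
    y = z := by
  rcases G.cq_three hG hc (v := G.hd x) (x := rv x) (y := y) (z := z) ⟨hx, G.cq_tl_rv x⟩
    ⟨hy, hxy.1⟩ ⟨hz, hxz.1⟩ hxy.2.symm with h | h
  · exact absurd h hxz.2
  · exact h.symm

theorem scw_unique (hG : G.Good) {k : ℕ} {l l' : List (E × Bool)} (hl : l ∈ G.scw k)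
    (hl' : l' ∈ G.scw k) (h : l.head? = l'.head?) (hc : chainOf l = chainOf l') : l = l' := by
  rcases Nat.eq_zero_or_pos k with rfl | hk
  · rw [cq_mem_scw] at hl hl'
    rw [List.length_eq_zero_iff.1 hl.1, List.length_eq_zero_iff.1 hl'.1]
  · have hZ := (G.circ_of_scw hG hk hl).1.1
    obtain ⟨n, rfl⟩ : ∃ n, k = n + 1 := ⟨k - 1, by omega⟩
    rw [cq_scw_iff] at hl hl'
    obtain ⟨w, rfl, hw⟩ := hl
    obtain ⟨w', rfl, hw'⟩ := hl'
    congr 1
    funext i
    have hm : ∀ i, chainOf (List.ofFn w) (w i).1 = 1 := fun i =>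
      (cq_chainOf _ _).2 ⟨w i, List.mem_ofFn.2 ⟨i, rfl⟩, rfl⟩
    have hm' : ∀ i, chainOf (List.ofFn w) (w' i).1 = 1 := fun i => by
      rw [hc]; exact (cq_chainOf _ _).2 ⟨w' i, List.mem_ofFn.2 ⟨i, rfl⟩, rfl⟩
    induction i using Fin.induction with
    | zero =>
      rw [List.ofFn_succ, List.ofFn_succ] at h
      simpa using h
    | succ i ih =>
      have h1 := hw.1 i.castSucc
      have h2 := hw'.1 i.castSucc
      rw [Fin.coeSucc_eq_succ] at h1 h2
      rw [← ih] at h2
      exact G.cq_next_unique hG hZ (hm _) (hm _) (hm' _) h1 h2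

theorem scw_of_circ (hG : G.Good) {c : E → ZMod 2} (hc : G.Circ c) (x : E × Bool)
    (hx : c x.1 = 1) : ∃ l ∈ G.scw (len c), l.head? = some x ∧ chainOf l = c := by
  -- the walk
  choose f hf using fun y : {y : E × Bool // c y.1 = 1} => G.cq_next hG hc.1 y.2
  let step : {y : E × Bool // c y.1 = 1} → {y : E × Bool // c y.1 = 1} := fun y => ⟨f y, (hf y).1⟩
  let w : ℕ → E × Bool := fun i => (step^[i] ⟨x, hx⟩).1
  have hwc : ∀ i, c (w i).1 = 1 := fun i => (step^[i] ⟨x, hx⟩).2
  have hwn : ∀ i, G.Nx (w i) (w (i + 1)) := by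
    intro i
    show G.Nx _ (step^[i + 1] ⟨x, hx⟩).1
    rw [Function.iterate_succ_apply']
    exact (hf _).2
  have hhd : ∀ i, G.hd (w i) = G.tl (w (i + 1)) := fun i => (hwn i).1.symm
  -- first repetition
  have hrep : ∃ p, ∃ i < p, G.tl (w p) = G.tl (w i) := by
    by_contra hcon
    push Not at hcon
    have : Function.Injective (fun i => G.tl (w i)) := by
      intro i j hij
      rcases lt_trichotomy i j with h | h | h
      · exact absurd hij.symm (hcon j i h)
      · exact h
      · exact absurd hij (hcon i j h)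
    exact not_injective_infinite_finite _ this
  obtain ⟨i, hip, hi⟩ := Nat.find_spec hrep
  have hmin : ∀ a, a < Nat.find hrep → ∀ b, b < a → G.tl (w a) ≠ G.tl (w b) := by
    intro a ha b hb h
    exact Nat.find_min hrep ha ⟨b, hb, h⟩
  generalize Nat.find hrep = p at hip hi hmin
  have hinj : ∀ a b, a < p → b < p → G.tl (w a) = G.tl (w b) → a = b := by
    intro a b ha hb hab
    rcases lt_trichotomy a b with h | h | h
    · exact absurd hab.symm (hmin b hb a h)
    · exact h
    · exact absurd hab (hmin a ha b h)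
  obtain ⟨n, rfl⟩ : ∃ n, p = n + 1 := ⟨p - 1, by omega⟩
  -- the closing dart is not a reversed dart of the walk
  have hclose : ∀ a, a ≤ n → w a ≠ rv (w n) := by
    intro a ha h
    have h1 : G.tl (w (a + 1)) = G.tl (w n) := by
      rw [← hhd, h, cq_hd_rv]
    rcases Nat.lt_or_ge a n with h2 | h2
    · have h3 : a + 1 = n := hinj _ _ (by omega) (by omega) h1
      subst h3
      have h4 := (hwn a).2
      apply h4
      rw [h, cq_rv_rv]
    · have h3 : a = n := by omega
      subst h3
      exact cq_rv_ne _ h.symm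
  have hi0 : i = 0 := by
    by_contra hne
    obtain ⟨i, rfl⟩ : ∃ i', i = i' + 1 := ⟨i - 1, by omega⟩
    have h1 : c (rv (w i)).1 = 1 ∧ G.tl (rv (w i)) = G.tl (w (i + 1)) := by
      rw [cq_tl_rv, hhd]; exact ⟨hwc i, rfl⟩
    have h2 : c (rv (w n)).1 = 1 ∧ G.tl (rv (w n)) = G.tl (w (i + 1)) := by
      rw [cq_tl_rv, hhd, hi]; exact ⟨hwc n, rfl⟩
    rcases G.cq_three hG hc.1 ⟨hwc (i + 1), rfl⟩ h1 h2 (hwn i).2 with h | h
    · exact hclose (i + 1) (by omega) h.symm
    · have h3 : w n = w i := by rw [← cq_rv_rv (w n), h, cq_rv_rv]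
      have h4 := hinj n i (by omega) (by omega) (by rw [h3])
      omega
  subst hi0
  -- the closed walk
  have hW : G.CqW (fun i : Fin (n + 1) => w i) := by
    constructor
    · intro j
      refine Fin.lastCases ?_ (fun j => ?_) j
      · rw [Fin.last_add_one]
        refine ⟨?_, hclose 0 (by omega)⟩
        show G.tl (w 0) = G.hd (w n)
        rw [hhd, hi]
      · rw [Fin.coeSucc_eq_succ]
        exact hwn j
    · intro a b hab
      exact Fin.ext (hinj a b a.2 b.2 hab)
  have hl : List.ofFn (fun i : Fin (n + 1) => w i) ∈ G.scw (n + 1) :=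
    G.cq_scw_iff.2 ⟨_, rfl, hW⟩
  obtain ⟨h1, h2⟩ := G.circ_of_scw hG (by omega) hl
  have h3 : chainOf (List.ofFn (fun i : Fin (n + 1) => w i)) = c := by
    refine (hc.2.2 _ h1.1 ?_).resolve_left h1.2.1
    intro e he
    rw [cq_chainOf] at he
    obtain ⟨y, hy, rfl⟩ := he
    obtain ⟨j, rfl⟩ := List.mem_ofFn.1 hy
    exact hwc j
  refine ⟨_, ?_, ?_, h3⟩
  · rw [← h3, h2]
    exact hl
  · rw [List.ofFn_succ]
    rfl

theorem cq_card_darts (c : E → ZMod 2) :
    (univ.filter (fun x : E × Bool => c x.1 = 1)).card = 2 * len c := by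
  have h1 : univ.filter (fun x : E × Bool => c x.1 = 1) =
      (univ.filter (fun e => c e = 1)) ×ˢ (univ : Finset Bool) := by
    ext ⟨e, b⟩
    simp
  rw [h1, Finset.card_product]
  simp [len, mul_comm]

theorem cq_head (l : List (E × Bool)) {k : ℕ} (hk : 1 ≤ k) (hl : l.length = k) :
    ∃ x ∈ l, l.head? = some x := by
  cases l with
  | nil => simp at hl; omega
  | cons x l => exact ⟨x, List.mem_cons_self, rfl⟩

theorem scw_count (hG : G.Good) (c : E → ZMod 2) (k : ℕ) (hk : 1 ≤ k) :
    ((G.scw k).filter (fun l => chainOf l = c)).card ≤ 2 * k := by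
  rcases Finset.eq_empty_or_nonempty ((G.scw k).filter (fun l => chainOf l = c)) with h | h
  · rw [h]; simp
  obtain ⟨l, hl⟩ := h
  rw [Finset.mem_filter] at hl
  have hlen : len c = k := by rw [← hl.2]; exact (G.circ_of_scw hG hk hl.1).2
  rw [← hlen, ← cq_card_darts, ← Finset.card_image_of_injective
    (univ.filter (fun x : E × Bool => c x.1 = 1)) (Option.some_injective _)]
  apply Finset.card_le_card_of_injOn (fun l => l.head?)
  · intro l' hl'
    rw [Finset.mem_coe, Finset.mem_filter] at hl'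
    obtain ⟨x, hx, hx'⟩ := cq_head l' hk ((G.cq_mem_scw.1 hl'.1).1.trans hlen)
    rw [Finset.mem_coe, Finset.mem_image]
    refine ⟨x, ?_, hx'.symm⟩
    rw [Finset.mem_filter]
    refine ⟨Finset.mem_univ _, ?_⟩
    rw [← hl'.2, cq_chainOf]
    exact ⟨x, hx, rfl⟩
  · intro a ha b hb hab
    rw [Finset.mem_coe, Finset.mem_filter] at ha hb
    exact G.scw_unique hG ha.1 hb.1 hab (ha.2.trans hb.2.symm)

theorem cq_map_hd : ∀ (l : List (E × Bool)) (x : E × Bool), (x :: l).IsChain G.Nx →
    ∀ y, (x :: l).getLast? = some y → (x :: l).map G.hd = l.map G.tl ++ [G.hd y] := by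
  intro l
  induction l with
  | nil =>
    intro x _ y hy
    simp only [List.getLast?_singleton, Option.some.injEq] at hy
    subst hy
    rfl
  | cons z l ih =>
    intro x hx y hy
    rw [List.isChain_cons_cons] at hx
    rw [List.getLast?_cons_cons] at hy
    rw [List.map_cons, ih z hx.2 y hy, List.map_cons, ← hx.1.1]
    rfl

theorem cq_vts {l : List (E × Bool)} (hl : l.IsChain G.Nx) {y : E × Bool}
    (hy : l.getLast? = some y) : G.vts l = l.map G.tl ++ [G.hd y] := by
  cases l with
  | nil => simp at hy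
  | cons x l =>
    show G.tl x :: (x :: l).map G.hd = _
    rw [G.cq_map_hd l x hl y hy]
    rfl

theorem cq_rep_iff {l : List (E × Bool)} (hl : l.IsChain G.Nx) {y : E × Bool}
    (hy : l.getLast? = some y) : G.Rep l ↔ ¬ (l.map G.tl).Nodup ∨ G.hd y ∈ l.map G.tl := by
  unfold Rep
  rw [G.cq_vts hl hy, List.nodup_append]
  simp only [List.nodup_cons, List.not_mem_nil, not_false_eq_true, List.nodup_nil, and_self,
    List.mem_cons, or_false, ne_eq, forall_eq, true_and]
  constructor
  · intro h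
    by_contra h1
    push Not at h1
    exact h ⟨h1.1, fun a ha h2 => h1.2 (h2 ▸ ha)⟩
  · rintro (h | h) ⟨h1, h2⟩
    · exact h h1
    · exact h2 _ h rfl

theorem cq_norep_dropLast {l : List (E × Bool)} (hl : l.IsChain G.Nx) :
    ¬ G.Rep l.dropLast ↔ (l.map G.tl).Nodup := by
  rcases List.eq_nil_or_concat l with rfl | ⟨l, y, rfl⟩
  · simp [Rep, vts]
  · rw [List.concat_eq_append] at hl ⊢
    rw [List.dropLast_concat]
    rcases List.eq_nil_or_concat l with rfl | ⟨l, z, rfl⟩
    · simp [Rep, vts]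
    · rw [List.concat_eq_append] at hl ⊢
      have h1 : (l ++ [z]).IsChain G.Nx := (List.isChain_append.1 hl).1
      have h2 : G.Nx z y := (List.isChain_append.1 hl).2.2 z (by simp) y (by simp)
      unfold Rep
      rw [G.cq_vts h1 (y := z) (by simp), not_not, ← h2.1]
      simp

theorem cq_mem_SI {Ω : Finset (E × Bool)} {x : E × Bool} {j : ℕ} {l : List (E × Bool)} :
    l ∈ G.SI Ω x j ↔ l.length = j + 1 ∧ l.head? = some x ∧ l.IsChain G.Nx ∧ (∀ y ∈ l, y ∈ Ω) ∧
      (l.map G.tl).Nodup ∧ ∃ y, l.getLast? = some y ∧ G.hd y ∈ l.map G.tl := by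
  unfold SI wk
  rw [Finset.mem_filter, Finset.mem_filter, mem_allL]
  constructor
  · rintro ⟨⟨h1, h2, h3, h4⟩, h5, h6⟩
    rw [G.cq_norep_dropLast h3] at h6
    obtain ⟨y, hy⟩ : ∃ y, l.getLast? = some y := by
      cases l with
      | nil => simp at h1
      | cons a l => exact ⟨_, List.getLast?_eq_some_getLast (by simp)⟩
    rw [G.cq_rep_iff h3 hy] at h5
    exact ⟨h1, h2, h3, h4, h6, y, hy, h5.resolve_left (not_not.2 h6)⟩
  · rintro ⟨h1, h2, h3, h4, h6, y, hy, h5⟩
    exact ⟨⟨h1, h2, h3, h4⟩, (G.cq_rep_iff h3 hy).2 (Or.inr h5), (G.cq_norep_dropLast h3).2 h6⟩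

theorem cq_mem_Om {A : Finset V} {x : E × Bool} : x ∈ G.Om A ↔ x.1 ∈ G.inn A := by simp [Om]

theorem cq_mem_short {A : Finset V} {M : ℕ} {c : E → ZMod 2} :
    c ∈ G.short A M ↔ G.Circ c ∧ In c (G.inn A) ∧ len c ≤ M := by simp [short]

theorem cq_len_pos {c : E → ZMod 2} (hc : G.Circ c) : 1 ≤ len c := by
  by_contra h
  have h1 : len c = 0 := by omega
  unfold len at h1
  rw [Finset.card_eq_zero] at h1
  apply hc.2.1
  funext e
  by_contra h2
  have : e ∈ univ.filter (fun e => c e = 1) := by simp [z2_ne_zero h2]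
  rw [h1] at this
  simp at this

theorem cq_SI_ge (hG : G.Good) (A : Finset V) (M : ℕ) (x : E × Bool) (j : ℕ) :
    (((G.short A M).filter (fun c => c x.1 = 1)).filter (fun c => len c = j + 1)).card ≤
      (G.SI (G.Om A) x j).card := by
  apply Finset.card_le_card_of_surjOn (fun l => chainOf l)
  intro c hc
  rw [Finset.mem_coe, Finset.mem_filter, Finset.mem_filter, cq_mem_short] at hc
  obtain ⟨⟨⟨h1, h2, h3⟩, h4⟩, h5⟩ := hc
  obtain ⟨l, hl, hlx, hlc⟩ := G.scw_of_circ hG h1 x h4
  refine ⟨l, ?_, hlc⟩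
  rw [h5, cq_mem_scw] at hl
  rw [Finset.mem_coe, cq_mem_SI]
  refine ⟨hl.1, hlx, hl.2.1, ?_, hl.2.2.2, ?_⟩
  · intro y hy
    rw [cq_mem_Om]
    apply h2
    rw [← hlc, cq_chainOf]
    exact ⟨y, hy, rfl⟩
  · obtain ⟨y, hy⟩ : ∃ y, l.getLast? = some y := by
      cases l with
      | nil => simp at hlx
      | cons a l => exact ⟨_, List.getLast?_eq_some_getLast (by simp)⟩
    refine ⟨y, hy, ?_⟩
    rw [← (hl.2.2.1 x hlx y hy).1]
    exact List.mem_map.2 ⟨x, List.mem_of_head? hlx, rfl⟩

theorem cq_phi_ge (hG : G.Good) (A : Finset V) (M M' : ℕ) (hM : M ≤ M') (x : E × Bool) :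
    2 * ∑ c ∈ (G.short A M).filter (fun c => c x.1 = 1), (1 / 2 : ℝ) ^ len c ≤
      G.phi (G.Om A) M' x := by
  have h1 : ∑ c ∈ (G.short A M).filter (fun c => c x.1 = 1), (1 / 2 : ℝ) ^ len c =
      ∑ j ∈ range M', ∑ c ∈ ((G.short A M).filter (fun c => c x.1 = 1)).filter
        (fun c => len c - 1 = j), (1 / 2 : ℝ) ^ len c := by
    symm
    apply Finset.sum_fiberwise_of_maps_to
    intro c hc
    rw [Finset.mem_filter, cq_mem_short] at hc
    have := G.cq_len_pos hc.1.1
    rw [Finset.mem_range]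
    have := hc.1.2.2
    omega
  rw [h1, Finset.mul_sum]
  unfold phi
  refine Finset.sum_le_sum fun j _ => ?_
  have h2 : ((G.short A M).filter (fun c => c x.1 = 1)).filter (fun c => len c - 1 = j) =
      ((G.short A M).filter (fun c => c x.1 = 1)).filter (fun c => len c = j + 1) := by
    apply Finset.filter_congr
    intro c hc
    rw [Finset.mem_filter, cq_mem_short] at hc
    have := G.cq_len_pos hc.1.1
    omega
  rw [h2, Finset.sum_congr rfl (fun c hc => by rw [(Finset.mem_filter.1 hc).2]),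
    Finset.sum_const, nsmul_eq_mul]
  have h3 : (((((G.short A M).filter (fun c => c x.1 = 1)).filter (fun c => len c = j + 1)).card : ℕ)
      : ℝ) ≤ ((G.SI (G.Om A) x j).card : ℝ) := by exact_mod_cast G.cq_SI_ge hG A M x j
  have h4 : 2 * (((((G.short A M).filter (fun c => c x.1 = 1)).filter
      (fun c => len c = j + 1)).card : ℝ) * (1 / 2 : ℝ) ^ (j + 1)) =
      ((((G.short A M).filter (fun c => c x.1 = 1)).filter (fun c => len c = j + 1)).card : ℝ) /
        2 ^ j := by
    rw [pow_succ, one_div, inv_pow]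
    field_simp
  rw [h4]
  gcongr

/-- (phi5) -/
theorem phi_vertex (hG : G.Good) (A : Finset V) (M M' : ℕ) (hM : M ≤ M') (v : V) :
    4 * ∑ c ∈ (G.short A M).filter (fun c => G.On c v), (1 / 2 : ℝ) ^ len c ≤
      ∑ x ∈ (G.Om A).filter (fun x => G.tl x = v), G.phi (G.Om A) M' x := by
  refine le_trans ?_ (Finset.sum_le_sum fun x _ => G.cq_phi_ge hG A M M' hM x)
  rw [← Finset.mul_sum]
  have h1 : ∑ x ∈ (G.Om A).filter (fun x => G.tl x = v),
      ∑ c ∈ (G.short A M).filter (fun c => c x.1 = 1), (1 / 2 : ℝ) ^ len c =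
      ∑ c ∈ G.short A M, ∑ x ∈ (G.Om A).filter (fun x => G.tl x = v),
        (if c x.1 = 1 then (1 / 2 : ℝ) ^ len c else 0) := by
    rw [Finset.sum_comm]
    refine Finset.sum_congr rfl fun x _ => ?_
    rw [Finset.sum_filter]
  have h2 : ∑ c ∈ (G.short A M).filter (fun c => G.On c v), (2 * (1 / 2 : ℝ) ^ len c) ≤
      ∑ c ∈ G.short A M, ∑ x ∈ (G.Om A).filter (fun x => G.tl x = v),
        (if c x.1 = 1 then (1 / 2 : ℝ) ^ len c else 0) := by
    rw [Finset.sum_filter]
    refine Finset.sum_le_sum fun c hc => ?_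
    rw [cq_mem_short] at hc
    split_ifs with hon
    · rw [← Finset.sum_filter, Finset.sum_const, nsmul_eq_mul]
      have h3 : (((G.Om A).filter (fun x => G.tl x = v)).filter (fun x => c x.1 = 1)) =
          G.cqAt c v := by
        ext x
        rw [Finset.mem_filter, Finset.mem_filter, cq_mem_at, cq_mem_Om]
        constructor
        · rintro ⟨⟨_, h3⟩, h4⟩; exact ⟨h4, h3⟩
        · rintro ⟨h3, h4⟩; exact ⟨⟨hc.2.1 _ h3, h4⟩, h3⟩
      have h4 : (G.cqAt c v).card = 2 := by
        have h5 := (G.deg_pos_iff c v).2 hon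
        rw [cq_card_at]
        rcases G.deg_zero_or_two hG hc.1.1 v with h6 | h6 <;> omega
      rw [h3, h4]
      norm_num
    · refine Finset.sum_nonneg fun x _ => ?_
      split_ifs <;> positivity
  rw [h1]
  rw [← Finset.mul_sum] at h2
  linarith

/-- prefixes -/
noncomputable def cqPre (m : List (E × Bool)) (i : ℕ) : Finset (List (E × Bool)) :=
  (allL (E × Bool) i).filter (fun p => (p ++ m).IsChain G.Nx)

theorem cq_card_pre (hG : G.Good) (i : ℕ) : ∀ (a : E × Bool) (m : List (E × Bool)),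
    (G.cqPre (a :: m) i).card ≤ 2 ^ i := by
  induction i with
  | zero =>
    intro a m
    have h1 : G.cqPre (a :: m) 0 ⊆ {[]} := by
      intro p hp
      unfold cqPre at hp
      rw [Finset.mem_filter, mem_allL] at hp
      rw [Finset.mem_singleton]
      exact List.length_eq_zero_iff.1 hp.1
    simpa using Finset.card_le_card h1
  | succ i ih =>
    intro a m
    have h1 : G.cqPre (a :: m) (i + 1) ⊆ (univ.filter (fun b => G.Nx b a)).biUnion
        (fun b => (G.cqPre (b :: a :: m) i).image (fun p => p ++ [b])) := by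
      intro p hp
      unfold cqPre at hp
      rw [Finset.mem_filter, mem_allL] at hp
      obtain ⟨hp1, hp2⟩ := hp
      rcases List.eq_nil_or_concat p with rfl | ⟨p, b, rfl⟩
      · simp at hp1
      · rw [List.concat_eq_append] at hp1 hp2 ⊢
        rw [Finset.mem_biUnion]
        refine ⟨b, ?_, ?_⟩
        · rw [Finset.mem_filter]
          refine ⟨Finset.mem_univ _, ?_⟩
          exact (List.isChain_append.1 hp2).2.2 b (by simp) a (by simp)
        · rw [Finset.mem_image]
          refine ⟨p, ?_, rfl⟩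
          unfold cqPre
          rw [Finset.mem_filter, mem_allL]
          refine ⟨by simpa using hp1, ?_⟩
          simpa using hp2
    calc (G.cqPre (a :: m) (i + 1)).card ≤ _ := Finset.card_le_card h1
      _ ≤ ∑ b ∈ univ.filter (fun b => G.Nx b a),
          ((G.cqPre (b :: a :: m) i).image (fun p => p ++ [b])).card := Finset.card_biUnion_le
      _ ≤ ∑ b ∈ univ.filter (fun b => G.Nx b a), 2 ^ i :=
          Finset.sum_le_sum fun b _ => Finset.card_image_le.trans (ih b (a :: m))
      _ = 2 ^ (i + 1) := by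
          rw [Finset.sum_const, G.card_pred hG, smul_eq_mul, pow_succ, mul_comm]

theorem cq_scw_of_ret {m : List (E × Bool)} (hm : m.IsChain G.Nx) (hnd : (m.map G.tl).Nodup)
    {a y : E × Bool} (ha : m.head? = some a) (hy : m.getLast? = some y) (h : G.hd y = G.tl a) :
    m ∈ G.scw m.length := by
  rw [cq_mem_scw]
  refine ⟨rfl, hm, ?_, hnd⟩
  intro x hx z hz
  rw [ha, Option.mem_some_iff] at hx
  rw [hy, Option.mem_some_iff] at hz
  subst hx hz
  refine ⟨h.symm, ?_⟩
  intro hay
  cases m with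
  | nil => simp at ha
  | cons b m =>
    simp only [List.head?_cons, Option.some.injEq] at ha
    subst ha
    cases m with
    | nil =>
      simp only [List.getLast?_singleton, Option.some.injEq] at hy
      subst hy
      exact cq_rv_ne _ hay.symm
    | cons z m =>
      rw [List.isChain_cons_cons] at hm
      rw [List.getLast?_cons_cons] at hy
      have h1 : G.tl z = G.tl y := by
        rw [hm.1.1, hay, cq_hd_rv]
      cases m with
      | nil =>
        simp only [List.getLast?_singleton, Option.some.injEq] at hy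
        subst hy
        exact hm.1.2 (by rw [hay, cq_rv_rv])
      | cons u m =>
        rw [List.getLast?_cons_cons] at hy
        have h2 : y ∈ u :: m := List.mem_of_getLast? hy
        rw [List.map_cons, List.map_cons, List.nodup_cons, List.nodup_cons] at hnd
        apply hnd.2.1
        rw [h1]
        exact List.mem_map.2 ⟨y, h2, rfl⟩

/-- the walks of `SI` are decomposed into a prefix and a simple closed walk -/
theorem cq_SI_sub (hG : G.Good) (A : Finset V) (M j : ℕ) (hj : j < M) :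
    (G.Om A).biUnion (fun x => G.SI (G.Om A) x j) ⊆
      (range (j + 1)).biUnion (fun i =>
        ((G.short A M).filter (fun c => len c = j + 1 - i)).biUnion (fun c =>
          ((G.scw (j + 1 - i)).filter (fun m => chainOf m = c)).biUnion (fun m =>
            (G.cqPre m i).image (fun p => p ++ m)))) := by
  intro l hl
  rw [Finset.mem_biUnion] at hl
  obtain ⟨x, _, hl⟩ := hl
  rw [cq_mem_SI] at hl
  obtain ⟨h1, h2, h3, h4, h5, y, hy, h6⟩ := hl
  rw [List.mem_map] at h6
  obtain ⟨a, ha, hay⟩ := h6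
  obtain ⟨i, hi, hia⟩ := List.getElem_of_mem ha
  have hdrop : (l.drop i).length = j + 1 - i := by rw [List.length_drop, h1]
  have hij : i < j + 1 := by omega
  have hhead : (l.drop i).head? = some a := by
    rw [List.head?_drop, List.getElem?_eq_getElem hi, hia]
  have hlast : (l.drop i).getLast? = some y := by
    rw [List.getLast?_drop, if_neg (by omega), hy]
  have hsplit : l.take i ++ l.drop i = l := List.take_append_drop i l
  have hchain : (l.drop i).IsChain G.Nx := h3.drop i
  have hnd : ((l.drop i).map G.tl).Nodup :=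
    h5.sublist ((List.drop_sublist i l).map G.tl)
  have hscw : l.drop i ∈ G.scw (j + 1 - i) := by
    rw [← hdrop]
    exact G.cq_scw_of_ret hchain hnd hhead hlast hay.symm
  obtain ⟨hc1, hc2⟩ := G.circ_of_scw hG (by omega) hscw
  rw [Finset.mem_biUnion]
  refine ⟨i, Finset.mem_range.2 hij, ?_⟩
  rw [Finset.mem_biUnion]
  refine ⟨chainOf (l.drop i), ?_, ?_⟩
  · rw [Finset.mem_filter, cq_mem_short]
    refine ⟨⟨hc1, ?_, by omega⟩, hc2⟩
    intro e he
    rw [cq_chainOf] at he
    obtain ⟨z, hz, rfl⟩ := he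
    exact G.cq_mem_Om.1 (h4 z (List.mem_of_mem_drop hz))
  · rw [Finset.mem_biUnion]
    refine ⟨l.drop i, Finset.mem_filter.2 ⟨hscw, rfl⟩, ?_⟩
    rw [Finset.mem_image]
    refine ⟨l.take i, ?_, hsplit⟩
    unfold cqPre
    rw [Finset.mem_filter, mem_allL, hsplit]
    refine ⟨?_, h3⟩
    rw [List.length_take]
    omega

theorem cq_SI_card (hG : G.Good) (A : Finset V) (M j : ℕ) (hj : j < M) :
    ∑ x ∈ G.Om A, (G.SI (G.Om A) x j).card ≤ ∑ i ∈ range (j + 1),
      ∑ c ∈ (G.short A M).filter (fun c => len c = j + 1 - i), 2 * (j + 1 - i) * 2 ^ i := by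
  rw [← Finset.card_biUnion]
  · refine (Finset.card_le_card (G.cq_SI_sub hG A M j hj)).trans ?_
    refine Finset.card_biUnion_le.trans (Finset.sum_le_sum fun i hi => ?_)
    rw [Finset.mem_range] at hi
    refine Finset.card_biUnion_le.trans (Finset.sum_le_sum fun c _ => ?_)
    refine Finset.card_biUnion_le.trans ?_
    calc ∑ m ∈ (G.scw (j + 1 - i)).filter (fun m => chainOf m = c),
          ((G.cqPre m i).image (fun p => p ++ m)).card
        ≤ ∑ m ∈ (G.scw (j + 1 - i)).filter (fun m => chainOf m = c), 2 ^ i := by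
          refine Finset.sum_le_sum fun m hm => Finset.card_image_le.trans ?_
          rw [Finset.mem_filter, cq_mem_scw] at hm
          cases m with
          | nil =>
            have := hm.1.1
            simp only [List.length_nil] at this
            omega
          | cons a m => exact G.cq_card_pre hG i a m
      _ = ((G.scw (j + 1 - i)).filter (fun m => chainOf m = c)).card * 2 ^ i := by
          rw [Finset.sum_const, smul_eq_mul]
      _ ≤ 2 * (j + 1 - i) * 2 ^ i :=
          Nat.mul_le_mul_right _ (G.scw_count hG c (j + 1 - i) (by omega))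
  · intro x _ y _ hxy
    rw [Function.onFun, Finset.disjoint_left]
    intro l hl hl'
    rw [cq_mem_SI] at hl hl'
    rw [hl.2.1] at hl'
    exact hxy (Option.some.inj hl'.2.1)

/-- (phi3) -/
theorem phi_sum (hG : G.Good) (A : Finset V) (M : ℕ) :
    ∑ x ∈ G.Om A, G.phi (G.Om A) M x ≤
      4 * (M : ℝ) ^ 2 * ∑ c ∈ G.short A M, (1 / 2 : ℝ) ^ len c := by
  unfold phi
  rw [Finset.sum_comm]
  have h1 : ∀ j ∈ range M, ∑ x ∈ G.Om A, ((G.SI (G.Om A) x j).card : ℝ) / 2 ^ j ≤
      4 * (M : ℝ) * ∑ c ∈ G.short A M, (1 / 2 : ℝ) ^ len c := by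
    intro j hj
    rw [Finset.mem_range] at hj
    rw [← Finset.sum_div]
    have h2 : (∑ x ∈ G.Om A, ((G.SI (G.Om A) x j).card : ℝ)) ≤ ∑ i ∈ range (j + 1),
      ∑ c ∈ (G.short A M).filter (fun c => len c = j + 1 - i),
        (((2 * (j + 1 - i) * 2 ^ i : ℕ)) : ℝ) := by
      have := G.cq_SI_card hG A M j hj
      exact_mod_cast this
    refine (div_le_div_of_nonneg_right h2 (by positivity)).trans ?_
    rw [Finset.sum_div]
    have h3 : ∀ i ∈ range (j + 1), (∑ c ∈ (G.short A M).filter (fun c => len c = j + 1 - i),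
        (((2 * (j + 1 - i) * 2 ^ i : ℕ)) : ℝ)) / 2 ^ j ≤
        ∑ c ∈ G.short A M, (if i = j + 1 - len c then 4 * (M : ℝ) * (1 / 2 : ℝ) ^ len c else 0) := by
      intro i hi
      rw [Finset.mem_range] at hi
      rw [Finset.sum_div, Finset.sum_filter]
      refine Finset.sum_le_sum fun c hc => ?_
      rw [cq_mem_short] at hc
      by_cases hlc : len c = j + 1 - i
      · rw [if_pos hlc, if_pos (by omega), ← hlc]
        have h4 : j + 1 = i + len c := by omega
        have h5 : (2 : ℝ) ^ j * 2 = 2 ^ i * 2 ^ len c := by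
          rw [← pow_succ, ← pow_add, h4]
        have h6 : (((2 * len c * 2 ^ i : ℕ)) : ℝ) / 2 ^ j = 4 * (len c : ℝ) * (1 / 2 : ℝ) ^ len c := by
          push_cast
          rw [one_div, inv_pow, div_eq_iff (by positivity)]
          have h7 : (2 : ℝ) ^ len c ≠ 0 := by positivity
          field_simp
          linear_combination (-2 * (len c : ℝ)) * h5
        rw [h6]
        have h8 : (len c : ℝ) ≤ M := by exact_mod_cast hc.2.2
        have h9 : (0 : ℝ) ≤ (1 / 2 : ℝ) ^ len c := by positivity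
        nlinarith
      · rw [if_neg hlc]
        split_ifs <;> positivity
    refine (Finset.sum_le_sum h3).trans ?_
    rw [Finset.sum_comm, Finset.mul_sum]
    refine Finset.sum_le_sum fun c _ => ?_
    rw [Finset.sum_ite_eq']
    split_ifs
    · exact le_rfl
    · positivity
  refine (Finset.sum_le_sum h1).trans ?_
  rw [Finset.sum_const, Finset.card_range, nsmul_eq_mul]
  apply le_of_eq
  ring

end MG

end Cyc
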