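import Pool.Agent.Cyc.Lin

/-!
# Probability on the cycle space
-/

set_option linter.unusedSectionVars false
set_option linter.unusedVariables false

open Finset
open scoped Classical

namespace Cyc

namespace MG

variable {V E : Type} [Fintype V] [Fintype E] (G : MG V E)

/-- number of elements of the cycle space with a property -/
noncomputable def cnt (p : G.Z → Prop) : ℕ := (univ.filter p).card

theorem Pr_eq_cnt (p : G.Z → Prop) : G.Pr p = (G.cnt p : ℝ) / (Fintype.card G.Z : ℝ) := rfl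

theorem card_Z_pos : 0 < Fintype.card G.Z := Fintype.card_pos

theorem card_Z_pos' : (0 : ℝ) < (Fintype.card G.Z : ℝ) := by exact_mod_cast G.card_Z_pos

theorem Pr_nonneg (p : G.Z → Prop) : 0 ≤ G.Pr p := by
  unfold Pr; positivity

theorem Pr_mono {p q : G.Z → Prop} (h : ∀ z, p z → q z) : G.Pr p ≤ G.Pr q := by
  unfold Pr
  gcongr
  exact h _

theorem Pr_congr {p q : G.Z → Prop} (h : ∀ z, p z ↔ q z) : G.Pr p = G.Pr q :=
  le_antisymm (G.Pr_mono fun z => (h z).1) (G.Pr_mono fun z => (h z).2)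

theorem Pr_true : G.Pr (fun _ => True) = 1 := by
  unfold Pr
  have := G.card_Z_pos'
  rw [Finset.filter_true, Finset.card_univ]
  exact div_self this.ne'

theorem Pr_false : G.Pr (fun _ => False) = 0 := by
  unfold Pr
  simp

theorem Pr_le_one (p : G.Z → Prop) : G.Pr p ≤ 1 := by
  rw [← G.Pr_true]
  exact G.Pr_mono fun _ _ => trivial

theorem cnt_add_not (p q : G.Z → Prop) :
    G.cnt (fun z => p z ∧ q z) + G.cnt (fun z => p z ∧ ¬ q z) = G.cnt p := by
  unfold cnt
  rw [← Finset.card_union_of_disjoint]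
  · congr 1
    ext z
    simp only [mem_union, mem_filter, mem_univ, true_and]
    tauto
  · rw [Finset.disjoint_left]
    intro z h1 h2
    simp only [mem_filter, mem_univ, true_and] at h1 h2
    exact h2.2 h1.2

theorem cnt_or_le (p q : G.Z → Prop) : G.cnt (fun z => p z ∨ q z) ≤ G.cnt p + G.cnt q := by
  unfold cnt
  refine (Finset.card_le_card ?_).trans (Finset.card_union_le _ _)
  intro z hz
  simp only [mem_union, mem_filter, mem_univ, true_and] at hz ⊢
  exact hz

theorem Pr_add_not (p q : G.Z → Prop) :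
    G.Pr (fun z => p z ∧ q z) + G.Pr (fun z => p z ∧ ¬ q z) = G.Pr p := by
  rw [Pr_eq_cnt, Pr_eq_cnt, Pr_eq_cnt, ← add_div, ← Nat.cast_add, G.cnt_add_not]

theorem Pr_or_le (p q : G.Z → Prop) : G.Pr (fun z => p z ∨ q z) ≤ G.Pr p + G.Pr q := by
  rw [Pr_eq_cnt, Pr_eq_cnt, Pr_eq_cnt, ← add_div, ← Nat.cast_add]
  gcongr
  exact G.cnt_or_le p q

theorem Pr_exists_le {ι : Type} (I : Finset ι) (p : ι → G.Z → Prop) :
    G.Pr (fun z => ∃ i ∈ I, p i z) ≤ ∑ i ∈ I, G.Pr (p i) := by
  induction I using Finset.induction_on with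
  | empty => simp [Pr_false]
  | insert a I ha ih =>
    rw [Finset.sum_insert ha]
    calc G.Pr (fun z => ∃ i ∈ insert a I, p i z) ≤ G.Pr (fun z => p a z ∨ ∃ i ∈ I, p i z) := by
          apply G.Pr_mono
          rintro z ⟨i, hi, h⟩
          rcases Finset.mem_insert.1 hi with rfl | hi
          · exact Or.inl h
          · exact Or.inr ⟨i, hi, h⟩
      _ ≤ G.Pr (p a) + G.Pr (fun z => ∃ i ∈ I, p i z) := G.Pr_or_le _ _
      _ ≤ _ := by gcongr

/-! ### the functional `ev` -/

theorem ev_apply_add (f : E → ZMod 2) (z z' : G.Z) : G.ev f (z + z') = G.ev f z + G.ev f z' := by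
  simp only [ev, Submodule.coe_add, Pi.add_apply, mul_add, Finset.sum_add_distrib]

theorem ev_apply_zero (f : E → ZMod 2) : G.ev f 0 = 0 := by
  simp [ev]

theorem zmod2_cases (a : ZMod 2) : a = 0 ∨ a = 1 := by
  revert a; decide

theorem zmod2_add_self (a : ZMod 2) : a + a = 0 := by
  revert a; decide

theorem Z_add_self (z : G.Z) : z + z = 0 := by
  ext e
  simp only [Submodule.coe_add, Pi.add_apply, ZeroMemClass.coe_zero, Pi.zero_apply]
  exact zmod2_add_self _

/-- translation -/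
theorem cnt_translate (p : G.Z → Prop) (w : G.Z) :
    G.cnt p = G.cnt fun z => p (z + w) := by
  unfold cnt
  refine Finset.card_bij (fun z _ => z + w) ?_ ?_ ?_
  · intro z hz
    simp only [mem_filter, mem_univ, true_and] at hz ⊢
    rwa [add_assoc, G.Z_add_self, add_zero]
  · intro a _ b _ h
    exact add_right_cancel h
  · intro b hb
    simp only [mem_filter, mem_univ, true_and] at hb
    refine ⟨b + w, by simpa using hb, ?_⟩
    rw [add_assoc, G.Z_add_self, add_zero]

theorem Pr_translate (p : G.Z → Prop) (w : G.Z) : G.Pr p = G.Pr fun z => p (z + w) := by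
  rw [Pr_eq_cnt, Pr_eq_cnt, G.cnt_translate p w]

theorem exists_ev_one {f : E → ZMod 2} (hf : G.ev f ≠ 0) : ∃ w, G.ev f w = 1 := by
  by_contra hcon
  push Not at hcon
  apply hf
  funext z
  rcases zmod2_cases (G.ev f z) with h | h
  · exact h
  · exact absurd h (hcon z)

/-- a nonzero functional takes each value with probability 1/2 -/
theorem Pr_half (f : E → ZMod 2) (hf : G.ev f ≠ 0) (lam : ZMod 2) :
    G.Pr (fun z => G.ev f z = lam) = 1 / 2 := by
  obtain ⟨w, hw⟩ := G.exists_ev_one hf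
  have h1 : G.Pr (fun z => G.ev f z = 0) = G.Pr (fun z => G.ev f z = 1) := by
    rw [G.Pr_translate _ w]
    apply G.Pr_congr
    intro z
    rw [G.ev_apply_add, hw]
    rcases zmod2_cases (G.ev f z) with h | h <;> rw [h] <;> decide
  have h2 := G.Pr_add_not (fun _ => True) (fun z => G.ev f z = 0)
  rw [G.Pr_true] at h2
  have h3 : G.Pr (fun z => True ∧ G.ev f z = 0) = G.Pr (fun z => G.ev f z = 0) :=
    G.Pr_congr fun z => by simp
  have h4 : G.Pr (fun z => True ∧ ¬ G.ev f z = 0) = G.Pr (fun z => G.ev f z = 1) :=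
    G.Pr_congr fun z => by
      rcases zmod2_cases (G.ev f z) with h | h <;> rw [h] <;> simp
  rw [h3, h4] at h2
  rcases zmod2_cases lam with h | h <;> subst h <;> linarith

theorem Pr_quarter (f g : E → ZMod 2) (hf : G.ev f ≠ 0) (hg : G.ev g ≠ 0) (hfg : G.ev f ≠ G.ev g)
    (a b : ZMod 2) : G.Pr (fun z => G.ev f z = a ∧ G.ev g z = b) = 1 / 4 := by
  have hadd : ∀ z, G.ev (f + g) z = G.ev f z + G.ev g z := by
    intro z
    simp only [ev, Pi.add_apply, add_mul, Finset.sum_add_distrib]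
  have hfg' : G.ev (f + g) ≠ 0 := by
    intro h
    apply hfg
    funext z
    have h1 := congrFun h z
    rw [hadd, Pi.zero_apply] at h1
    rcases zmod2_cases (G.ev f z) with h2 | h2 <;> rcases zmod2_cases (G.ev g z) with h3 | h3 <;>
      rw [h2, h3] at h1 ⊢ <;> revert h1 <;> decide
  set P := fun a b => G.Pr (fun z => G.ev f z = a ∧ G.ev g z = b) with hP
  have key : ∀ (p : G.Z → Prop) (F : G.Z → ZMod 2), G.Pr (fun z => p z ∧ F z = 0) +
      G.Pr (fun z => p z ∧ F z = 1) = G.Pr p := by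
    intro p F
    rw [← G.Pr_add_not p (fun z => F z = 0)]
    congr 1
    apply G.Pr_congr
    intro z
    rcases zmod2_cases (F z) with h | h <;> rw [h] <;> simp
  have e1 := key (fun z => G.ev f z = 0) (G.ev g)
  have e2 := key (fun z => G.ev f z = 1) (G.ev g)
  have e3 := key (fun z => G.ev g z = 0) (G.ev f)
  have e4 := key (fun z => G.ev (f + g) z = 0) (G.ev f)
  rw [G.Pr_half f hf] at e1 e2
  rw [G.Pr_half g hg] at e3
  rw [G.Pr_half _ hfg'] at e4
  have c1 : G.Pr (fun z => G.ev g z = 0 ∧ G.ev f z = 0) = P 0 0 :=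
    G.Pr_congr fun z => and_comm
  have c2 : G.Pr (fun z => G.ev g z = 0 ∧ G.ev f z = 1) = P 1 0 :=
    G.Pr_congr fun z => and_comm
  have c3 : G.Pr (fun z => G.ev (f + g) z = 0 ∧ G.ev f z = 0) = P 0 0 :=
    G.Pr_congr fun z => by
      rw [hadd]
      rcases zmod2_cases (G.ev f z) with h2 | h2 <;> rcases zmod2_cases (G.ev g z) with h3 | h3 <;>
        rw [h2, h3] <;> decide
  have c4 : G.Pr (fun z => G.ev (f + g) z = 0 ∧ G.ev f z = 1) = P 1 1 :=
    G.Pr_congr fun z => by
      rw [hadd]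
      rcases zmod2_cases (G.ev f z) with h2 | h2 <;> rcases zmod2_cases (G.ev g z) with h3 | h3 <;>
        rw [h2, h3] <;> decide
  rw [c1, c2] at e3
  rw [c3, c4] at e4
  have e1' : P 0 0 + P 0 1 = 1 / 2 := e1
  have e2' : P 1 0 + P 1 1 = 1 / 2 := e2
  change P a b = 1 / 4
  rcases zmod2_cases a with h | h <;> rcases zmod2_cases b with h' | h' <;> subst h <;> subst h' <;>
    linarith

/-- gluing modulo the functional `Λ`. -/
def Glue {ι : Type} (Λ : G.Z → ZMod 2) (I : Finset ι) (K : ι → Finset E) : Prop :=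
  ∀ y : ι → G.Z, (∀ i ∈ I, Λ (y i) = 0) →
    ∃ z : G.Z, Λ z = 0 ∧ ∀ i ∈ I, ∀ e ∈ K i, z.1 e = (y i).1 e

/-- the predicate `T` only depends on the coordinates in `K`. -/
def Dep (K : Finset E) (T : G.Z → Prop) : Prop :=
  ∀ z z' : G.Z, (∀ e ∈ K, z.1 e = z'.1 e) → (T z ↔ T z')

/-- two blocks -/
theorem two_block (K K' : Finset E) (f : E → ZMod 2)
    (hg : ∀ y y' : G.Z, G.ev f y = 0 → G.ev f y' = 0 → ∃ z : G.Z, G.ev f z = 0 ∧
      (∀ e ∈ K, z.1 e = y.1 e) ∧ ∀ e ∈ K', z.1 e = y'.1 e)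
    (lam : ZMod 2) (A B : G.Z → Prop) (hA : G.Dep K A) (hB : G.Dep K' B) :
    G.Pr (fun z => G.ev f z = lam ∧ A z) * G.Pr (fun z => G.ev f z = lam ∧ B z) =
      G.Pr (fun z => G.ev f z = lam ∧ A z ∧ B z) * G.Pr (fun z => G.ev f z = lam) := by
  -- a choice function
  have hπ : ∀ h : G.Z, ∃ k : G.Z, G.ev f h = 0 → G.ev f k = 0 ∧ (∀ e ∈ K, k.1 e = 0) ∧
      ∀ e ∈ K', k.1 e = h.1 e := by
    intro h
    by_cases h0 : G.ev f h = 0
    · obtain ⟨z, h1, h2, h3⟩ := hg 0 h (G.ev_apply_zero f) h0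
      exact ⟨z, fun _ => ⟨h1, fun e he => by rw [h2 e he]; rfl, h3⟩⟩
    · exact ⟨0, fun h1 => absurd h1 h0⟩
  choose π hπ using hπ
  by_cases hne : ∃ w, G.ev f w = lam
  swap
  · push Not at hne
    have h0 : ∀ q : G.Z → Prop, G.Pr (fun z => G.ev f z = lam ∧ q z) = 0 := by
      intro q
      rw [← G.Pr_false]
      exact G.Pr_congr fun z => ⟨fun h => hne z h.1, fun h => h.elim⟩
    have h1 : G.Pr (fun z => G.ev f z = lam) = 0 := by
      rw [← G.Pr_false]
      exact G.Pr_congr fun z => ⟨fun h => hne z h, fun h => h.elim⟩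
    rw [h0, h1]; ring
  obtain ⟨w₀, hw₀⟩ := hne
  have hH : G.cnt (fun z => G.ev f z = lam) = G.cnt (fun z => G.ev f z = 0) := by
    rw [G.cnt_translate _ w₀]
    congr 1
    ext z
    rw [G.ev_apply_add, hw₀]
    simp
  have hcard : G.cnt (fun z => G.ev f z = lam ∧ A z) *
      G.cnt (fun z => G.ev f z = lam ∧ B z) =
      G.cnt (fun z => G.ev f z = lam ∧ A z ∧ B z) *
      G.cnt (fun z => G.ev f z = 0) := by
    unfold cnt
    rw [← Finset.card_product, ← Finset.card_product]
    refine Finset.card_bij (fun x _ => (x.1 + π (x.1 + x.2), x.1 + x.2)) ?_ ?_ ?_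
    · rintro ⟨x, y⟩ hxy
      simp only [mem_product, mem_filter, mem_univ, true_and] at hxy ⊢
      obtain ⟨⟨hx, hAx⟩, hy, hBy⟩ := hxy
      have h0 : G.ev f (x + y) = 0 := by
        rw [G.ev_apply_add, hx, hy, zmod2_add_self]
      obtain ⟨p1, p2, p3⟩ := hπ _ h0
      refine ⟨⟨by rw [G.ev_apply_add, hx, p1, add_zero], ?_, ?_⟩, h0⟩
      · refine (hA _ _ fun e he => ?_).1 hAx
        rw [Submodule.coe_add, Pi.add_apply, p2 e he, add_zero]
      · refine (hB _ _ fun e he => ?_).1 hBy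
        rw [Submodule.coe_add, Pi.add_apply, p3 e he, Submodule.coe_add, Pi.add_apply, ← add_assoc,
          zmod2_add_self, zero_add]
    · rintro ⟨x, y⟩ _ ⟨x', y'⟩ _ h
      simp only [Prod.mk.injEq] at h
      obtain ⟨h1, h2⟩ := h
      rw [h2] at h1
      have h3 := add_right_cancel h1
      subst h3
      rw [add_left_cancel h2]
    · rintro ⟨w, h⟩ hwh
      simp only [mem_product, mem_filter, mem_univ, true_and] at hwh
      obtain ⟨⟨hw, hAw, hBw⟩, h0⟩ := hwh
      obtain ⟨p1, p2, p3⟩ := hπ _ h0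
      have hxy : w + π h + (w + π h + h) = h := by
        rw [← add_assoc, G.Z_add_self, zero_add]
      refine ⟨(w + π h, w + π h + h), ?_, ?_⟩
      · simp only [mem_product, mem_filter, mem_univ, true_and]
        refine ⟨⟨by rw [G.ev_apply_add, hw, p1, add_zero], ?_⟩,
          by rw [G.ev_apply_add, G.ev_apply_add, hw, p1, h0, add_zero, add_zero], ?_⟩
        · refine (hA _ _ fun e he => ?_).1 hAw
          rw [Submodule.coe_add, Pi.add_apply, p2 e he, add_zero]
        · refine (hB _ _ fun e he => ?_).1 hBw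
          rw [Submodule.coe_add, Pi.add_apply, Submodule.coe_add, Pi.add_apply, p3 e he, add_assoc,
            zmod2_add_self, add_zero]
      · simp only [hxy, Prod.mk.injEq, and_true]
        rw [add_assoc, G.Z_add_self, add_zero]
  simp only [Pr_eq_cnt]
  rw [div_mul_div_comm, div_mul_div_comm]
  congr 1
  rw [hH]
  exact_mod_cast hcard

/-- product formula: conditional independence given `Λ = lam`. -/
theorem prod_formula {ι : Type} (I : Finset ι) (K : ι → Finset E) (f : E → ZMod 2)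
    (hg : G.Glue (G.ev f) I K) (lam : ZMod 2) (T : ι → G.Z → Prop) (hT : ∀ i ∈ I, G.Dep (K i) (T i))
    (q : ℝ) (hq : q = G.Pr (fun z => G.ev f z = lam)) (hq0 : 0 < q) :
    G.Pr (fun z => G.ev f z = lam ∧ ∀ i ∈ I, T i z) =
      q * ∏ i ∈ I, (G.Pr (fun z => G.ev f z = lam ∧ T i z) / q) := by
  induction I using Finset.induction_on with
  | empty =>
    simp only [Finset.notMem_empty, false_imp_iff, implies_true, and_true, Finset.prod_empty, mul_one]
    rw [hq]
  | insert a I ha ih =>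
    have hg' : G.Glue (G.ev f) I K := by
      intro y hy
      obtain ⟨z, h1, h2⟩ := hg (fun i => if i = a then 0 else y i) (by
        intro i hi
        by_cases hia : i = a
        · simp only [hia, if_true]; exact G.ev_apply_zero f
        · simp only [hia, if_false]
          exact hy i ((Finset.mem_insert.1 hi).resolve_left hia))
      refine ⟨z, h1, fun i hi e he => ?_⟩
      have hia : i ≠ a := by rintro rfl; exact ha hi
      have := h2 i (Finset.mem_insert_of_mem hi) e he
      simpa only [hia, if_false] using this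
    have ih' := ih hg' (fun i hi => hT i (Finset.mem_insert_of_mem hi))
    rw [Finset.prod_insert ha]
    have hb := G.two_block (K a) (I.biUnion K) f (by
      intro y y' hy hy'
      obtain ⟨z, h1, h2⟩ := hg (fun i => if i = a then y else y') (by
        intro i hi
        by_cases hia : i = a
        · simp only [hia, if_true]; exact hy
        · simp only [hia, if_false]; exact hy')
      refine ⟨z, h1, fun e he => ?_, fun e he => ?_⟩
      · have := h2 a (Finset.mem_insert_self _ _) e he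
        simpa only [if_true] using this
      · obtain ⟨i, hi, he'⟩ := Finset.mem_biUnion.1 he
        have hia : i ≠ a := by rintro rfl; exact ha hi
        have := h2 i (Finset.mem_insert_of_mem hi) e he'
        simpa only [hia, if_false] using this) lam (T a) (fun z => ∀ i ∈ I, T i z)
      (hT a (Finset.mem_insert_self _ _)) (by
        intro z z' hz
        refine forall_congr' fun i => forall_congr' fun hi => ?_
        exact hT i (Finset.mem_insert_of_mem hi) z z' fun e he =>
          hz e (Finset.mem_biUnion.2 ⟨i, hi, he⟩))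
    rw [← hq, ih'] at hb
    have h1 : G.Pr (fun z => G.ev f z = lam ∧ ∀ i ∈ insert a I, T i z) =
        G.Pr (fun z => G.ev f z = lam ∧ T a z ∧ ∀ i ∈ I, T i z) := by
      apply G.Pr_congr
      intro z
      rw [Finset.forall_mem_insert]
    rw [h1]
    field_simp
    have hq0' := hq0.ne'
    have h2 : G.Pr (fun z => G.ev f z = lam ∧ T a z ∧ ∀ i ∈ I, T i z) * q =
        G.Pr (fun z => G.ev f z = lam ∧ T a z) *
        (q * ∏ i ∈ I, (G.Pr (fun z => G.ev f z = lam ∧ T i z) / q)) := hb.symm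
    apply mul_right_cancel₀ hq0'
    rw [h2]
    ring

/-- if every event `A i` has conditional probability at least `p` then it is unlikely that at most
one of them occurs. -/
theorem at_most_one {ι : Type} (I : Finset ι) (K : ι → Finset E) (f : E → ZMod 2)
    (hg : G.Glue (G.ev f) I K) (lam : ZMod 2) (A : ι → G.Z → Prop) (hA : ∀ i ∈ I, G.Dep (K i) (A i))
    (p : ℝ) (hp0 : 0 ≤ p) (hp1 : p ≤ 1)
    (hp : ∀ i ∈ I, p * G.Pr (fun z => G.ev f z = lam) ≤ G.Pr (fun z => G.ev f z = lam ∧ A i z)) :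
    G.Pr (fun z => G.ev f z = lam ∧ ∀ i ∈ I, ∀ j ∈ I, A i z → A j z → i = j) ≤
      (I.card + 1) * (1 - p) ^ (I.card - 1) := by
  set q := G.Pr (fun z => G.ev f z = lam) with hq
  have hq1 : q ≤ 1 := G.Pr_le_one _
  have h1p : 0 ≤ 1 - p := by linarith
  rcases (G.Pr_nonneg (fun z => G.ev f z = lam)).eq_or_lt with hq0 | hq0
  · have h1 : G.Pr (fun z => G.ev f z = lam ∧ ∀ i ∈ I, ∀ j ∈ I, A i z → A j z → i = j) ≤ 0 := by
      rw [hq0]
      exact G.Pr_mono fun z hz => hz.1
    refine h1.trans ?_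
    positivity
  rcases I.eq_empty_or_nonempty with hI | hI
  · subst hI
    simp only [Finset.card_empty, Nat.cast_zero, zero_add, one_mul]
    simpa using G.Pr_le_one _
  have hsub : ∀ J ⊆ I, G.Glue (G.ev f) J K := by
    intro J hJ y hy
    obtain ⟨z, h1, h2⟩ := hg (fun i => if i ∈ J then y i else 0) (by
      intro i hi
      by_cases hiJ : i ∈ J
      · simp only [hiJ, if_true]; exact hy i hiJ
      · simp only [hiJ, if_false]; exact G.ev_apply_zero f)
    refine ⟨z, h1, fun i hi e he => ?_⟩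
    have := h2 i (hJ hi) e he
    simpa only [hi, if_true] using this
  have hone : ∀ a ∈ I, G.Pr (fun z => G.ev f z = lam ∧ ∀ i ∈ I.erase a, ¬ A i z) ≤
      (1 - p) ^ (I.card - 1) := by
    intro a ha
    rw [G.prod_formula (I.erase a) K f (hsub _ (Finset.erase_subset _ _)) lam (fun i z => ¬ A i z)
      (fun i hi z z' hz => not_congr (hA i (Finset.mem_of_mem_erase hi) z z' hz)) q hq hq0]
    have h2 : ∏ i ∈ I.erase a, (G.Pr (fun z => G.ev f z = lam ∧ ¬ A i z) / q) ≤
        ∏ i ∈ I.erase a, (1 - p) := by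
      apply Finset.prod_le_prod
      · intro i _
        exact div_nonneg (G.Pr_nonneg _) (G.Pr_nonneg _)
      · intro i hi
        have h3 := G.Pr_add_not (fun z => G.ev f z = lam) (A i)
        have h4 := hp i (Finset.mem_of_mem_erase hi)
        rw [div_le_iff₀ hq0]
        nlinarith
    rw [Finset.prod_const, Finset.card_erase_of_mem ha] at h2
    have h5 : 0 ≤ ∏ i ∈ I.erase a, (G.Pr (fun z => G.ev f z = lam ∧ ¬ A i z) / q) :=
      Finset.prod_nonneg fun i _ => div_nonneg (G.Pr_nonneg _) (G.Pr_nonneg _)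
    calc q * _ ≤ 1 * (1 - p) ^ (I.card - 1) := by
          apply mul_le_mul hq1 h2 h5 zero_le_one
      _ = _ := one_mul _
  calc G.Pr (fun z => G.ev f z = lam ∧ ∀ i ∈ I, ∀ j ∈ I, A i z → A j z → i = j)
      ≤ G.Pr (fun z => ∃ a ∈ I, G.ev f z = lam ∧ ∀ i ∈ I.erase a, ¬ A i z) := by
        apply G.Pr_mono
        rintro z ⟨h1, h2⟩
        by_cases h3 : ∃ a ∈ I, A a z
        · obtain ⟨a, ha, haz⟩ := h3
          refine ⟨a, ha, h1, fun i hi hiz => ?_⟩
          exact (Finset.ne_of_mem_erase hi) (h2 i (Finset.mem_of_mem_erase hi) a ha hiz haz)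
        · push Not at h3
          obtain ⟨a, ha⟩ := hI
          exact ⟨a, ha, h1, fun i hi => h3 i (Finset.mem_of_mem_erase hi)⟩
    _ ≤ ∑ a ∈ I, G.Pr (fun z => G.ev f z = lam ∧ ∀ i ∈ I.erase a, ¬ A i z) := G.Pr_exists_le _ _
    _ ≤ ∑ _a ∈ I, (1 - p) ^ (I.card - 1) := Finset.sum_le_sum hone
    _ = I.card * (1 - p) ^ (I.card - 1) := by rw [Finset.sum_const, nsmul_eq_mul]
    _ ≤ (I.card + 1) * (1 - p) ^ (I.card - 1) := by
        have : 0 ≤ (1 - p) ^ (I.card - 1) := by positivity
        nlinarith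

/-- a pattern which occurs has probability at least `2 ^ (-|K|)`. -/
theorem Pr_pattern (f : E → ZMod 2) (lam : ZMod 2) (K : Finset E) (z₀ : G.Z)
    (h₀ : G.ev f z₀ = lam) :
    (1 / 2 : ℝ) ^ K.card * G.Pr (fun z => G.ev f z = lam) ≤
      G.Pr (fun z => G.ev f z = lam ∧ ∀ e ∈ K, z.1 e = z₀.1 e) := by
  let r : G.Z → (K → ZMod 2) := fun z e => z.1 e
  have hfib : ∀ a ∈ (univ.filter fun z => G.ev f z = lam).image r,
      ((univ.filter fun z => G.ev f z = lam).filter fun z => r z = a).card ≤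
        G.cnt (fun z => G.ev f z = lam ∧ ∀ e ∈ K, z.1 e = z₀.1 e) := by
    intro a ha
    obtain ⟨z₁, hz₁, rfl⟩ := Finset.mem_image.1 ha
    simp only [mem_filter, mem_univ, true_and] at hz₁
    unfold cnt
    refine Finset.card_le_card_of_injOn (fun z => z + (z₁ + z₀)) ?_ ?_
    · intro z hz
      simp only [Finset.coe_filter, mem_filter, mem_univ, true_and, Set.mem_ofPred_eq] at hz ⊢
      obtain ⟨h1, h2⟩ := hz
      refine ⟨?_, fun e he => ?_⟩
      · rw [G.ev_apply_add, G.ev_apply_add, h1, hz₁, h₀, zmod2_add_self, add_zero]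
      · have h3 := congrFun h2 ⟨e, he⟩
        simp only [r] at h3
        rw [Submodule.coe_add, Pi.add_apply, Submodule.coe_add, Pi.add_apply, h3, ← add_assoc,
          zmod2_add_self, zero_add]
    · intro a _ b _ h
      exact add_right_cancel h
  have h1 := Finset.card_le_mul_card_image _ _ hfib
  have h2 : ((univ.filter fun z => G.ev f z = lam).image r).card ≤ 2 ^ K.card := by
    refine (Finset.card_le_univ _).trans ?_
    simp
  have h3 : G.cnt (fun z => G.ev f z = lam) ≤
      G.cnt (fun z => G.ev f z = lam ∧ ∀ e ∈ K, z.1 e = z₀.1 e) * 2 ^ K.card := by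
    have h4 : G.cnt (fun z => G.ev f z = lam) = (univ.filter fun z => G.ev f z = lam).card := by
      unfold cnt
      congr 1
      ext z
      simp
    rw [h4]
    exact h1.trans (Nat.mul_le_mul_left _ h2)
  rw [Pr_eq_cnt, Pr_eq_cnt]
  have h5 := G.card_Z_pos'
  rw [mul_div_assoc', div_le_div_iff_of_pos_right h5]
  have h6 : (G.cnt (fun z => G.ev f z = lam) : ℝ) ≤
      G.cnt (fun z => G.ev f z = lam ∧ ∀ e ∈ K, z.1 e = z₀.1 e) * 2 ^ K.card := by
    exact_mod_cast h3
  have h7 : (1 / 2 : ℝ) ^ K.card * 2 ^ K.card = 1 := by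
    rw [← mul_pow]; norm_num
  calc (1 / 2 : ℝ) ^ K.card * G.cnt (fun z => G.ev f z = lam)
      ≤ (1 / 2 : ℝ) ^ K.card *
        (G.cnt (fun z => G.ev f z = lam ∧ ∀ e ∈ K, z.1 e = z₀.1 e) * 2 ^ K.card) := by gcongr
    _ = G.cnt (fun z => G.ev f z = lam ∧ ∀ e ∈ K, z.1 e = z₀.1 e) *
        ((1 / 2 : ℝ) ^ K.card * 2 ^ K.card) := by ring
    _ = _ := by rw [h7, mul_one]

/-- edges of a chain -/
noncomputable def supp (c : E → ZMod 2) : Finset E := univ.filter fun e => c e = 1

theorem mem_supp (c : E → ZMod 2) (e : E) : e ∈ supp c ↔ c e = 1 := by simp [supp]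

theorem card_supp (c : E → ZMod 2) : (supp c).card = len c := rfl

theorem ev_zero' (z : G.Z) : G.ev 0 z = 0 := by simp [ev]

theorem Pr_Le_ge {c : E → ZMod 2} (hc : c ∈ G.Z) :
    (1 / 2 : ℝ) ^ len c ≤ G.Pr (fun z => Le c z.1) := by
  have h1 := G.Pr_pattern 0 0 (supp c) ⟨c, hc⟩ (G.ev_zero' _)
  have h2 : G.Pr (fun z => G.ev 0 z = 0) = 1 := by
    rw [← G.Pr_true]
    exact G.Pr_congr fun z => by simp [G.ev_zero' z]
  rw [h2, mul_one, card_supp] at h1
  refine h1.trans (G.Pr_mono fun z hz e he => ?_)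
  rw [hz.2 e ((mem_supp c e).2 he)]
  exact he

/-- the sign character -/
noncomputable def chi (a : ZMod 2) : ℝ := if a = 0 then 1 else -1

theorem chi_add (a b : ZMod 2) : chi (a + b) = chi a * chi b := by
  have h11 : (1 : ZMod 2) + 1 = 0 := by decide
  rcases zmod2_cases a with h | h <;> rcases zmod2_cases b with h' | h' <;> subst h <;> subst h' <;>
    simp [chi, h11]

theorem chi_sum {α : Type} (S : Finset α) (g : α → ZMod 2) :
    chi (∑ e ∈ S, g e) = ∏ e ∈ S, chi (g e) := by
  induction S using Finset.induction_on with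
  | empty => simp [chi]
  | insert a S ha ih => rw [Finset.sum_insert ha, Finset.prod_insert ha, chi_add, ih]

theorem sum_chi (f : E → ZMod 2) :
    ∑ z, chi (G.ev f z) = if G.ev f = 0 then (Fintype.card G.Z : ℝ) else 0 := by
  split_ifs with h
  · rw [h]
    simp [chi]
  · obtain ⟨w, hw⟩ := G.exists_ev_one h
    have h1 : ∑ z, chi (G.ev f z) = ∑ z, chi (G.ev f (z + w)) := by
      refine (Equiv.sum_comp (Equiv.addRight w) fun z => chi (G.ev f z)).symm
    have h2 : ∀ z, chi (G.ev f (z + w)) = - chi (G.ev f z) := by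
      intro z
      rw [G.ev_apply_add, hw, chi_add]
      simp [chi]
    rw [Finset.sum_congr rfl fun z _ => h2 z, Finset.sum_neg_distrib] at h1
    linarith

theorem prod_one_sub_chi (K : Finset E) (z : E → ZMod 2) :
    ∏ e ∈ K, (1 + -chi (z e)) = if ∀ e ∈ K, z e = 1 then (2 : ℝ) ^ K.card else 0 := by
  split_ifs with h
  · rw [Finset.prod_congr rfl fun e he => by rw [h e he], Finset.prod_const]
    simp only [chi, one_ne_zero, if_false]
    norm_num
  · push Not at h
    obtain ⟨e, he, h1⟩ := h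
    apply Finset.prod_eq_zero he
    have : z e = 0 := (zmod2_cases (z e)).resolve_right h1
    rw [this]
    simp [chi]

/-- if at most `2 ^ j` cuts are contained in `c` then `c` is contained in `z` with probability
at most `2 ^ (j - |c|)`. -/
theorem Pr_Le_le (c : E → ZMod 2) (j : ℕ)
    (h : (univ.filter (fun f : E → ZMod 2 => G.Cut f ∧ Le f c)).card ≤ 2 ^ j) :
    G.Pr (fun z => Le c z.1) ≤ 2 ^ j * (1 / 2 : ℝ) ^ len c := by
  have hZ := G.card_Z_pos'
  -- the Fourier expansion
  have h1 : ∑ z : G.Z, ∏ e ∈ supp c, (1 + -chi (z.1 e)) =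
      (2 : ℝ) ^ len c * G.cnt (fun z => Le c z.1) := by
    have h2 : ∀ z : G.Z, ∏ e ∈ supp c, (1 + -chi (z.1 e)) =
        if Le c z.1 then (2 : ℝ) ^ len c else 0 := by
      intro z
      rw [prod_one_sub_chi, card_supp]
      congr 1
      simp only [mem_supp, Le]
    rw [Finset.sum_congr rfl fun z _ => h2 z, ← Finset.sum_filter, Finset.sum_const, nsmul_eq_mul,
      mul_comm]
    rfl
  have h3 : ∑ z : G.Z, ∏ e ∈ supp c, (1 + -chi (z.1 e)) =
      ∑ S ∈ (supp c).powerset, (-1 : ℝ) ^ S.card *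
        (if G.ev (ind S) = 0 then (Fintype.card G.Z : ℝ) else 0) := by
    simp_rw [Finset.prod_one_add]
    rw [Finset.sum_comm]
    refine Finset.sum_congr rfl fun S _ => ?_
    rw [← G.sum_chi, Finset.mul_sum]
    refine Finset.sum_congr rfl fun z _ => ?_
    rw [G.ev_ind, chi_sum, Finset.prod_neg]
  have h4 : ∑ S ∈ (supp c).powerset, (-1 : ℝ) ^ S.card *
        (if G.ev (ind S) = 0 then (Fintype.card G.Z : ℝ) else 0) ≤
      ∑ S ∈ (supp c).powerset, (if G.ev (ind S) = 0 then (Fintype.card G.Z : ℝ) else 0) := by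
    refine Finset.sum_le_sum fun S _ => ?_
    have h5 : (0 : ℝ) ≤ (if G.ev (ind S) = 0 then (Fintype.card G.Z : ℝ) else 0) := by
      split_ifs <;> positivity
    have h6 : (-1 : ℝ) ^ S.card ≤ 1 := by
      rcases neg_one_pow_eq_or ℝ S.card with h | h <;> rw [h]
      norm_num
    nlinarith
  have h7 : ∑ S ∈ (supp c).powerset, (if G.ev (ind S) = 0 then (Fintype.card G.Z : ℝ) else 0) ≤
      2 ^ j * Fintype.card G.Z := by
    rw [← Finset.sum_filter, Finset.sum_const, nsmul_eq_mul]
    gcongr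
    have h8 : ((supp c).powerset.filter fun S => G.ev (ind S) = 0).card ≤
        (univ.filter (fun f : E → ZMod 2 => G.Cut f ∧ Le f c)).card := by
      refine Finset.card_le_card_of_injOn ind ?_ ?_
      · intro S hS
        simp only [Finset.coe_filter, Finset.mem_powerset, Set.mem_ofPred_eq, mem_univ,
          true_and] at hS ⊢
        refine ⟨(G.ev_eq_zero_iff _).1 hS.2, fun e he => ?_⟩
        have : e ∈ S := by
          by_contra hcon
          simp [ind, hcon] at he
        exact (mem_supp c e).1 (hS.1 this)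
      · intro S _ S' _ hSS
        ext e
        have := congrFun hSS e
        by_cases h1 : e ∈ S <;> by_cases h2 : e ∈ S' <;> simp [ind, h1, h2] at this ⊢
    exact_mod_cast h8.trans h
  have h9 : (2 : ℝ) ^ len c * G.cnt (fun z => Le c z.1) ≤ 2 ^ j * Fintype.card G.Z := by
    rw [← h1, h3]
    exact h4.trans h7
  rw [Pr_eq_cnt, div_le_iff₀ hZ]
  have h10 : (1 / 2 : ℝ) ^ len c * 2 ^ len c = 1 := by
    rw [← mul_pow]; norm_num
  calc (G.cnt (fun z => Le c z.1) : ℝ) =
      ((1 / 2 : ℝ) ^ len c * 2 ^ len c) * G.cnt (fun z => Le c z.1) := by rw [h10, one_mul]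
    _ = (1 / 2 : ℝ) ^ len c * (2 ^ len c * G.cnt (fun z => Le c z.1)) := by ring
    _ ≤ (1 / 2 : ℝ) ^ len c * (2 ^ j * Fintype.card G.Z) := by gcongr
    _ = _ := by ring

/-- independence of two disjoint chains -/
theorem Pr_indep {c c' : E → ZMod 2} (hc : c ∈ G.Z) (hc' : c' ∈ G.Z)
    (hd : ∀ e, ¬ (c e = 1 ∧ c' e = 1))
    (h : ∀ f : E → ZMod 2, G.Cut f → (∀ e, f e = 1 → c e = 1 ∨ c' e = 1) →
      G.Cut (fun e => if c e = 1 then f e else 0)) :
    G.Pr (fun z => Le c z.1 ∧ Le c' z.1) = G.Pr (fun z => Le c z.1) * G.Pr (fun z => Le c' z.1) := by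
  have hglue : ∀ y y' : G.Z, G.ev 0 y = 0 → G.ev 0 y' = 0 → ∃ z : G.Z, G.ev 0 z = 0 ∧
      (∀ e ∈ supp c, z.1 e = y.1 e) ∧ ∀ e ∈ supp c', z.1 e = y'.1 e := by
    intro y y' _ _
    obtain ⟨z, hz, hze⟩ := G.extension (supp c ∪ supp c')
      (fun e => if c e = 1 then y.1 e else y'.1 e) (by
        intro φ hφ
        have hcut : G.Cut (G.d φ) := ⟨φ, rfl⟩
        have hsub : ∀ e, G.d φ e = 1 → c e = 1 ∨ c' e = 1 := by
          intro e he
          by_contra hcon
          have : e ∉ supp c ∪ supp c' := by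
            rw [Finset.mem_union, mem_supp, mem_supp]; exact hcon
          rw [hφ e this] at he
          exact absurd he (by decide)
        have h1 := h _ hcut hsub
        have h2 := (G.ev_eq_zero_iff _).2 h1
        have h3 := (G.ev_eq_zero_iff _).2 hcut
        have h4 : ∑ e ∈ supp c ∪ supp c', (if c e = 1 then y.1 e else y'.1 e) * G.d φ e =
            ∑ e, (if c e = 1 then y.1 e else y'.1 e) * G.d φ e := by
          apply Finset.sum_subset (Finset.subset_univ _)
          intro e _ he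
          rw [hφ e he, mul_zero]
        rw [h4]
        have h5 : G.ev (fun e => if c e = 1 then G.d φ e else 0) y = 0 := congrFun h2 y
        have h6 : G.ev (fun e => if c e = 1 then G.d φ e else 0) y' = 0 := congrFun h2 y'
        have h7 : G.ev (G.d φ) y' = 0 := congrFun h3 y'
        have h8 : ∑ e, (if c e = 1 then y.1 e else y'.1 e) * G.d φ e =
            G.ev (fun e => if c e = 1 then G.d φ e else 0) y +
            (G.ev (fun e => if c e = 1 then G.d φ e else 0) y' + G.ev (G.d φ) y') := by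
          simp only [ev]
          rw [← Finset.sum_add_distrib, ← Finset.sum_add_distrib]
          refine Finset.sum_congr rfl fun e _ => ?_
          by_cases he : c e = 1
          · simp only [he, if_true]
            rw [zmod2_add_self, add_zero, mul_comm]
          · simp only [he, if_false]
            ring
        rw [h8, h5, h6, h7]; simp)
    refine ⟨⟨z, hz⟩, G.ev_zero' _, fun e he => ?_, fun e he => ?_⟩
    · have h1 := hze e (Finset.mem_union_left _ he)
      rw [mem_supp] at he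
      simpa only [he, if_true] using h1
    · have h1 := hze e (Finset.mem_union_right _ he)
      rw [mem_supp] at he
      have h2 : ¬ c e = 1 := fun h2 => hd e ⟨h2, he⟩
      simpa only [h2, if_false] using h1
  have hdep : ∀ b : E → ZMod 2, G.Dep (supp b) (fun z => Le b z.1) := by
    intro b z z' hz
    refine forall_congr' fun e => ?_
    refine ⟨fun h1 h2 => ?_, fun h1 h2 => ?_⟩
    · rw [← hz e ((mem_supp b e).2 h2)]; exact h1 h2
    · rw [hz e ((mem_supp b e).2 h2)]; exact h1 h2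
  have h1 := G.two_block (supp c) (supp c') 0 hglue 0 (fun z => Le c z.1) (fun z => Le c' z.1)
    (hdep c) (hdep c')
  have h2 : ∀ p : G.Z → Prop, G.Pr (fun z => G.ev 0 z = 0 ∧ p z) = G.Pr p := fun p =>
    G.Pr_congr fun z => by simp [G.ev_zero' z]
  have h3 : G.Pr (fun z => G.ev 0 z = 0) = 1 := by
    rw [← G.Pr_true]
    exact G.Pr_congr fun z => by simp [G.ev_zero' z]
  rw [h2, h2, h2, h3, mul_one] at h1
  exact h1.symm

/-- second moment method for circuits inside `X` -/
theorem second_moment (X : Finset V) (𝒢 : Finset (E → ZMod 2))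
    (h𝒢 : ∀ c ∈ 𝒢, G.Circ c ∧ In c (G.inn X)) (μ W : ℝ)
    (hμ : μ = ∑ c ∈ 𝒢, G.Pr (fun z => Le c z.1)) (hμ1 : 1 < μ)
    (hW : ∑ c ∈ 𝒢, ∑ c' ∈ 𝒢, G.Pr (fun z => Le c z.1 ∧ Le c' z.1) ≤ μ ^ 2 + W) :
    G.Pr (fun z => ¬ G.Two X z.1) ≤ W / (μ - 1) ^ 2 := by
  have hZ := G.card_Z_pos'
  have hPr : ∀ p : G.Z → Prop, (Fintype.card G.Z : ℝ) * G.Pr p = ∑ z : G.Z, if p z then 1 else 0 := by
    intro p
    rw [Pr_eq_cnt, mul_div_cancel₀ _ hZ.ne', Finset.sum_boole]
    rfl
  let N : G.Z → ℝ := fun z => ∑ c ∈ 𝒢, if Le c z.1 then 1 else 0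
  have hN1 : ∑ z, N z = Fintype.card G.Z * μ := by
    rw [hμ, Finset.mul_sum, Finset.sum_comm]
    exact Finset.sum_congr rfl fun c _ => (hPr _).symm
  have hN2 : ∑ z, N z ^ 2 ≤ Fintype.card G.Z * (μ ^ 2 + W) := by
    refine le_trans (le_of_eq ?_) (mul_le_mul_of_nonneg_left hW hZ.le)
    rw [Finset.mul_sum]
    simp_rw [Finset.mul_sum, hPr]
    simp only [N, sq, Finset.sum_mul_sum]
    rw [Finset.sum_comm]
    refine Finset.sum_congr rfl fun c _ => ?_
    rw [Finset.sum_comm]
    refine Finset.sum_congr rfl fun c' _ => Finset.sum_congr rfl fun z _ => ?_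
    by_cases h1 : Le c z.1 <;> by_cases h2 : Le c' z.1 <;> simp [h1, h2]
  have hvar : ∑ z, (N z - μ) ^ 2 ≤ Fintype.card G.Z * W := by
    have h1 : ∑ z, (N z - μ) ^ 2 = ∑ z, N z ^ 2 - 2 * μ * ∑ z, N z + Fintype.card G.Z * μ ^ 2 := by
      have h2 : ∀ z, (N z - μ) ^ 2 = N z ^ 2 - 2 * μ * N z + μ ^ 2 := fun z => by ring
      rw [Finset.sum_congr rfl fun z _ => h2 z, Finset.sum_add_distrib, Finset.sum_sub_distrib,
        ← Finset.mul_sum, Finset.sum_const, nsmul_eq_mul, Finset.card_univ]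
    rw [h1, hN1]
    nlinarith
  have hsmall : ∀ z : G.Z, ¬ G.Two X z.1 → N z ≤ 1 := by
    intro z hz
    have h1 : N z = ((𝒢.filter fun c => Le c z.1).card : ℝ) := by
      simp only [N, Finset.sum_boole]
    rw [h1]
    have h2 : (𝒢.filter fun c => Le c z.1).card ≤ 1 := by
      rw [Finset.card_le_one]
      intro a ha b hb
      rw [Finset.mem_filter] at ha hb
      by_contra hab
      exact hz ⟨a, b, (h𝒢 a ha.1).1, (h𝒢 b hb.1).1, hab, ha.2, hb.2, (h𝒢 a ha.1).2, (h𝒢 b hb.1).2⟩
    exact_mod_cast h2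
  have hfin : Fintype.card G.Z * G.Pr (fun z => ¬ G.Two X z.1) * (μ - 1) ^ 2 ≤
      Fintype.card G.Z * W := by
    refine le_trans ?_ hvar
    rw [hPr, Finset.sum_mul]
    refine Finset.sum_le_sum fun z _ => ?_
    by_cases h1 : G.Two X z.1
    · rw [if_neg (not_not.2 h1), zero_mul]; positivity
    · rw [if_pos h1]
      have h2 := hsmall z h1
      nlinarith
  rw [le_div_iff₀ (by nlinarith [sq_nonneg (μ - 1)] : (0 : ℝ) < (μ - 1) ^ 2)]
  rw [mul_assoc] at hfin
  exact le_of_mul_le_mul_left hfin hZ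

end MG

end Cyc
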