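import Pool.Agent.Cyc.Lin

/-!
# Minimal sparse sets (interface)
-/

open Finset
open scoped Classical

namespace Cyc

namespace MG

variable {V E : Type} [Fintype V] [Fintype E] (G : MG V E)

theorem tch_eq (X : Finset V) : G.tch X = G.inn X ∪ G.del X := by
  ext e
  simp only [mem_tch, mem_inn, mem_del, Finset.mem_union]
  tauto

theorem card_tch_le (hG : G.Good) (X : Finset V) : (G.tch X).card ≤ 3 * X.card := by
  rw [tch_eq]
  have h1 := Finset.card_union_le (G.inn X) (G.del X)
  have h2 := G.two_inn hG X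
  omega

theorem card_lt_of_not_sparse {B : Finset V} (h : ¬ G.Sparse B) (hB : B.Nonempty) :
    B.card < 4 * (G.del B).card ^ 2 := by
  by_contra hlt
  exact h ⟨hB, by omega⟩

theorem MinSparse.connOn (hG : G.Good) {A : Finset V} (hA : G.MinSparse A) : G.ConnOn A := by
  intro φ hφ u hu v hv
  by_contra hne
  set P := A.filter (fun x => φ x = φ u) with hP
  set Q := A.filter (fun x => ¬ φ x = φ u) with hQ
  have hPn : P.Nonempty := ⟨u, by simp [hP, hu]⟩
  have hQn : Q.Nonempty := ⟨v, by simp [hQ, hv, Ne.symm hne]⟩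
  have hcard : P.card + Q.card = A.card := Finset.card_filter_add_card_filter_not _
  have hPA : P ⊂ A := by
    refine Finset.ssubset_iff_subset_ne.2 ⟨Finset.filter_subset _ _, fun h => ?_⟩
    have := hQn.card_pos
    rw [h] at hcard
    omega
  have hQA : Q ⊂ A := by
    refine Finset.ssubset_iff_subset_ne.2 ⟨Finset.filter_subset _ _, fun h => ?_⟩
    have := hPn.card_pos
    rw [h] at hcard
    omega
  have hp := G.card_lt_of_not_sparse (hA.2 P hPA) hPn
  have hq := G.card_lt_of_not_sparse (hA.2 Q hQA) hQn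
  have hdisj : Disjoint (G.del P) (G.del Q) := by
    rw [Finset.disjoint_left]
    intro e he he'
    have h1 := hφ e
    simp only [mem_del, hP, hQ, Finset.mem_filter] at he he'
    by_cases hs : G.s e ∈ A <;> by_cases ht : G.t e ∈ A
    · have h2 := h1 hs ht
      rw [h2] at he
      simp [hs, ht] at he
    · simp [hs, ht] at he he'
      exact he' he
    · simp [hs, ht] at he he'
      exact he' he
    · simp [hs, ht] at he
  have hsub : G.del P ∪ G.del Q ⊆ G.del A := by
    intro e he
    have h1 := hφ e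
    simp only [Finset.mem_union, mem_del, hP, hQ, Finset.mem_filter] at he ⊢
    by_cases hs : G.s e ∈ A <;> by_cases ht : G.t e ∈ A
    · have h2 := h1 hs ht
      rw [h2] at he
      simp [hs, ht] at he
    · simp [hs, ht]
    · simp [hs, ht]
    · simp [hs, ht] at he
  have hc : (G.del P).card + (G.del Q).card ≤ (G.del A).card := by
    rw [← Finset.card_union_of_disjoint hdisj]
    exact Finset.card_le_card hsub
  have hsp := hA.1.2
  have h5 : ((G.del P).card + (G.del Q).card) ^ 2 ≤ (G.del A).card ^ 2 := Nat.pow_le_pow_left hc 2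
  nlinarith [Nat.zero_le ((G.del P).card * (G.del Q).card)]

theorem MinSparse.exists_circ (hG : G.Good) {A : Finset V} (hA : G.MinSparse A) :
    ∃ c, G.Circ c ∧ In c (G.inn A) := by
  apply G.exists_circ_of_card A (G.inn A) Finset.Subset.rfl
  have h1 := G.two_inn hG A
  have h2 := hA.1.2
  have h3 := hA.1.1.card_pos
  have h4 : (G.del A).card < A.card := by
    rcases Nat.eq_zero_or_pos (G.del A).card with h | h
    · omega
    · nlinarith
  omega

theorem iso_aux {p q d w₁ w₂ : ℕ} (hp : p < 4 * (d + w₁) ^ 2) (hq : q < 4 * (d + w₂) ^ 2)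
    (h : 4 * (w₁ + w₂) ^ 2 ≤ p + q) (hpq : p ≤ q) : p ≤ 49 * d ^ 2 := by
  by_contra hlt
  push Not at hlt
  have hp' : (p : ℝ) < 4 * ((d : ℝ) + w₁) ^ 2 := by exact_mod_cast hp
  have hq' : (q : ℝ) < 4 * ((d : ℝ) + w₂) ^ 2 := by exact_mod_cast hq
  have h' : 4 * ((w₁ : ℝ) + w₂) ^ 2 ≤ (p : ℝ) + q := by exact_mod_cast h
  have hpq' : (p : ℝ) ≤ q := by exact_mod_cast hpq
  have hlt' : 49 * (d : ℝ) ^ 2 < p := by exact_mod_cast hlt
  have hd : (0 : ℝ) ≤ d := Nat.cast_nonneg _
  have hw1 : (0 : ℝ) ≤ w₁ := Nat.cast_nonneg _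
  have hw2 : (0 : ℝ) ≤ w₂ := Nat.cast_nonneg _
  have hp0 : (0 : ℝ) ≤ p := Nat.cast_nonneg _
  have hq0 : (0 : ℝ) ≤ q := Nat.cast_nonneg _
  set x := Real.sqrt p with hx
  set y := Real.sqrt q with hy
  have hx0 : 0 ≤ x := Real.sqrt_nonneg _
  have hy0 : 0 ≤ y := Real.sqrt_nonneg _
  have hx2 : x ^ 2 = p := Real.sq_sqrt hp0
  have hy2 : y ^ 2 = q := Real.sq_sqrt hq0
  have hxy : x ≤ y := Real.sqrt_le_sqrt hpq'
  have hx1 : x < 2 * (d + w₁) := by
    apply lt_of_pow_lt_pow_left₀ 2 (by positivity)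
    rw [hx2]; nlinarith
  have hy1 : y < 2 * (d + w₂) := by
    apply lt_of_pow_lt_pow_left₀ 2 (by positivity)
    rw [hy2]; nlinarith
  have hxd : 7 * (d : ℝ) < x := by
    apply lt_of_pow_lt_pow_left₀ 2 hx0
    rw [hx2]; nlinarith
  -- `2 w ≤ sqrt (x² + y²)`
  have hw : 2 * ((w₁ : ℝ) + w₂) > y + 3 / 7 * x := by linarith
  have hsq : (y + 3 / 7 * x) ^ 2 < (2 * ((w₁ : ℝ) + w₂)) ^ 2 :=
    pow_lt_pow_left₀ hw (by positivity) (by norm_num)
  have h6 : (y + 3 / 7 * x) ^ 2 < x ^ 2 + y ^ 2 := by
    rw [hx2, hy2]; nlinarith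
  have hxpos : 0 < x := by linarith
  nlinarith

/-- isoperimetry -/
theorem MinSparse.iso (hG : G.Good) {A : Finset V} (hA : G.MinSparse A) (B : Finset V)
    (hB : G.del B ⊆ G.inn A) :
    (A ∩ B).card ≤ 49 * (G.del B).card ^ 2 ∨ (A \ B).card ≤ 49 * (G.del B).card ^ 2 := by
  rcases Finset.eq_empty_or_nonempty (A ∩ B) with hP | hP
  · left; simp [hP]
  rcases Finset.eq_empty_or_nonempty (A \ B) with hQ | hQ
  · right; simp [hQ]
  have hcard : (A ∩ B).card + (A \ B).card = A.card := by
    rw [add_comm]; exact Finset.card_sdiff_add_card_inter A B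
  have hPA : A ∩ B ⊂ A := by
    refine Finset.ssubset_iff_subset_ne.2 ⟨Finset.inter_subset_left, fun h => ?_⟩
    have := hQ.card_pos
    rw [h] at hcard
    omega
  have hQA : A \ B ⊂ A := by
    refine Finset.ssubset_iff_subset_ne.2 ⟨Finset.sdiff_subset, fun h => ?_⟩
    have := hP.card_pos
    rw [h] at hcard
    omega
  have hp := G.card_lt_of_not_sparse (hA.2 _ hPA) hP
  have hq := G.card_lt_of_not_sparse (hA.2 _ hQA) hQ
  set W₁ := (G.del A).filter (fun e => G.s e ∈ A ∩ B ∨ G.t e ∈ A ∩ B) with hW1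
  set W₂ := (G.del A).filter (fun e => ¬ (G.s e ∈ A ∩ B ∨ G.t e ∈ A ∩ B)) with hW2
  have hw : W₁.card + W₂.card = (G.del A).card := Finset.card_filter_add_card_filter_not _
  have h1 : (G.del (A ∩ B)).card ≤ (G.del B).card + W₁.card := by
    refine (Finset.card_le_card (t := G.del B ∪ W₁) ?_).trans (Finset.card_union_le _ _)
    intro e he
    simp only [Finset.mem_union, mem_del, hW1, Finset.mem_filter, Finset.mem_inter] at he ⊢
    tauto
  have h2 : (G.del (A \ B)).card ≤ (G.del B).card + W₂.card := by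
    refine (Finset.card_le_card (t := G.del B ∪ W₂) ?_).trans (Finset.card_union_le _ _)
    intro e he
    simp only [Finset.mem_union, mem_del, hW2, Finset.mem_filter, Finset.mem_inter,
      Finset.mem_sdiff] at he ⊢
    tauto
  have hp' : (A ∩ B).card < 4 * ((G.del B).card + W₁.card) ^ 2 :=
    hp.trans_le (Nat.mul_le_mul_left 4 (Nat.pow_le_pow_left h1 2))
  have hq' : (A \ B).card < 4 * ((G.del B).card + W₂.card) ^ 2 :=
    hq.trans_le (Nat.mul_le_mul_left 4 (Nat.pow_le_pow_left h2 2))
  have hs : 4 * (W₁.card + W₂.card) ^ 2 ≤ (A ∩ B).card + (A \ B).card := by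
    rw [hw, hcard]; exact hA.1.2
  rcases le_total (A ∩ B).card (A \ B).card with hle | hle
  · left; exact iso_aux hp' hq' hs hle
  · right
    exact iso_aux hq' hp' (by rw [add_comm W₂.card, add_comm (A \ B).card]; exact hs) hle

theorem exists_minSparse {A : Finset V} (hA : G.Sparse A) : ∃ B, B ⊆ A ∧ G.MinSparse B := by
  induction A using Finset.strongInduction with
  | H A ih =>
    by_cases h : G.MinSparse A
    · exact ⟨A, Finset.Subset.rfl, h⟩
    · have : ∃ B, B ⊂ A ∧ G.Sparse B := by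
        by_contra hne
        push Not at hne
        exact h ⟨hA, hne⟩
      obtain ⟨B, hB, hs⟩ := this
      obtain ⟨C, hC, hm⟩ := ih B hB hs
      exact ⟨C, hC.trans hB.1, hm⟩

/-- extraction of many disjoint non-adjacent minimal sparse sets -/
theorem extract (n₀ t w : ℕ) : ∃ N : ℕ, ∀ (V E : Type) [Fintype V] [Fintype E] (G : MG V E),
    G.Good → ∀ V₀ : Finset V, (G.del V₀).card ≤ w → N ≤ V₀.card →
    (∃ A, A ⊆ V₀ ∧ G.MinSparse A ∧ n₀ ≤ A.card) ∨
    ∃ A : Fin t → Finset V, (∀ i, A i ⊆ V₀ ∧ G.MinSparse (A i) ∧ (A i).card < n₀) ∧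
      ∀ i j, i ≠ j → Disjoint (A i) (A j) ∧ Disjoint (G.tch (A i)) (G.tch (A j)) := by
  induction t generalizing w with
  | zero =>
    exact ⟨0, fun V E _ _ G _ V₀ _ _ => Or.inr ⟨fun i => i.elim0, fun i => i.elim0, fun i => i.elim0⟩⟩
  | succ t ih =>
    obtain ⟨N, hN⟩ := ih (w + 21 * n₀)
    refine ⟨max (4 * w ^ 2 + 1) (N + 7 * n₀), fun V E _ _ G hG V₀ hw hV₀ => ?_⟩
    have hsp : G.Sparse V₀ := by
      refine ⟨?_, ?_⟩
      · rw [← Finset.card_pos]
        have := le_max_left (4 * w ^ 2 + 1) (N + 7 * n₀)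
        omega
      · have h1 := Nat.pow_le_pow_left hw 2
        have := le_max_left (4 * w ^ 2 + 1) (N + 7 * n₀)
        omega
    obtain ⟨A, hA, hAm⟩ := G.exists_minSparse hsp
    by_cases hlt : n₀ ≤ A.card
    · exact Or.inl ⟨A, hA, hAm, hlt⟩
    push Not at hlt
    set X : Finset V := A ∪ ((G.tch A).image G.s ∪ (G.tch A).image G.t) with hX
    have htA := G.card_tch_le hG A
    have hXc : X.card ≤ 7 * n₀ := by
      have h1 := Finset.card_union_le A ((G.tch A).image G.s ∪ (G.tch A).image G.t)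
      have h2 := Finset.card_union_le ((G.tch A).image G.s) ((G.tch A).image G.t)
      have h3 := Finset.card_image_le (s := G.tch A) (f := G.s)
      have h4 := Finset.card_image_le (s := G.tch A) (f := G.t)
      rw [← hX] at h1
      omega
    have hdel : (G.del (V₀ \ X)).card ≤ w + 21 * n₀ := by
      have h1 : G.del (V₀ \ X) ⊆ G.del V₀ ∪ G.tch X := by
        intro e he
        simp only [Finset.mem_union, mem_del, mem_tch, Finset.mem_sdiff] at he ⊢
        tauto
      have h2 := (Finset.card_le_card h1).trans (Finset.card_union_le _ _)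
      have h3 := G.card_tch_le hG X
      omega
    have hcard : N ≤ (V₀ \ X).card := by
      have h1 := Finset.le_card_sdiff X V₀
      have := le_max_right (4 * w ^ 2 + 1) (N + 7 * n₀)
      omega
    rcases hN V E G hG (V₀ \ X) hdel hcard with ⟨B, hB, hBm, hBc⟩ | ⟨B, hB, hBd⟩
    · exact Or.inl ⟨B, hB.trans Finset.sdiff_subset, hBm, hBc⟩
    · right
      have key : ∀ i, Disjoint A (B i) ∧ Disjoint (G.tch A) (G.tch (B i)) := by
        intro i
        have hBi := (hB i).1
        refine ⟨?_, ?_⟩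
        · rw [Finset.disjoint_left]
          intro v hv hv'
          exact (Finset.mem_sdiff.1 (hBi hv')).2 (Finset.mem_union_left _ hv)
        · rw [Finset.disjoint_left]
          intro e he he'
          have hs : G.s e ∈ X := Finset.mem_union_right _
            (Finset.mem_union_left _ (Finset.mem_image_of_mem _ he))
          have ht : G.t e ∈ X := Finset.mem_union_right _
            (Finset.mem_union_right _ (Finset.mem_image_of_mem _ he))
          rcases G.mem_tch.1 he' with h | h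
          · exact (Finset.mem_sdiff.1 (hBi h)).2 hs
          · exact (Finset.mem_sdiff.1 (hBi h)).2 ht
      refine ⟨Fin.cons A B, ?_, ?_⟩
      · intro i
        refine Fin.cases ?_ (fun j => ?_) i
        · exact ⟨hA, hAm, hlt⟩
        · exact ⟨(hB j).1.trans Finset.sdiff_subset, (hB j).2⟩
      · intro i j
        refine Fin.cases ?_ (fun i => ?_) i <;> refine Fin.cases ?_ (fun j => ?_) j
        · intro h; exact absurd rfl h
        · intro _; exact key j
        · intro _; exact ⟨(key i).1.symm, (key i).2.symm⟩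
        · intro h
          exact hBd i j (fun h' => h (by rw [h']))

end MG

end Cyc
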