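import Pool.Agent.Cyc.Triple
import Pool.Agent.Cyc.Prob
import Pool.Agent.Cyc.Sparse

/-!
# Sections 3.2, 3.3: the common functional (interface)
-/

open Finset
open scoped Classical

namespace Cyc

namespace MG

variable {V E : Type} [Fintype V] [Fintype E] (G : MG V E)

/-- a family of connected, pairwise disjoint and non-adjacent sets, each containing a circuit -/
structure Fam (n₀ : ℕ) {t : ℕ} (A : Fin t → Finset V) : Prop where
  conn : ∀ i, G.ConnOn (A i)
  card : ∀ i, (A i).card < n₀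
  circ : ∀ i, ∃ c, G.Circ c ∧ In c (G.inn (A i))
  disj : ∀ i j, i ≠ j → Disjoint (A i) (A j)
  far : ∀ i j, i ≠ j → Disjoint (G.tch (A i)) (G.tch (A j))

/-- `i` is rigid: no element of the cycle space with `Λ = 1` has a circuit inside `A i`. -/
def Rigid (L : E → ZMod 2) (A : Finset V) : Prop :=
  ∀ z : G.Z, G.ev L z = 1 → G.NoneIn (G.inn A) z.1

/-! ### auxiliary notions -/

theorem cm_ev_sum {ι : Type} (I : Finset ι) (f : ι → E → ZMod 2) :
    G.ev (∑ i ∈ I, f i) = ∑ i ∈ I, G.ev (f i) := by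
  induction I using Finset.induction_on with
  | empty => simp [ev_zero]
  | insert a I ha ih => rw [Finset.sum_insert ha, Finset.sum_insert ha, ev_add, ih]

/-- independence of a family of edge sets modulo a set of functionals -/
def CmIndep {ι : Type} (K : ι → Finset E) (S : Set (G.Z → ZMod 2)) (I : Finset ι) : Prop :=
  ∀ f : ι → E → ZMod 2, (∀ i ∈ I, In (f i) (K i)) → ∑ i ∈ I, G.ev (f i) = 0 →
    ∀ i ∈ I, G.ev (f i) ∈ S

omit [Fintype V] in
theorem cm_exists_max {ι : Type} [DecidableEq ι] (K : ι → Finset E) (S : Set (G.Z → ZMod 2)) (J : Finset ι) :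
    ∃ I ⊆ J, G.CmIndep K S I ∧ ∀ j ∈ J, j ∉ I → ¬ G.CmIndep K S (insert j I) := by
  obtain ⟨I, hI, hmax⟩ := Finset.exists_max_image (J.powerset.filter (fun I => G.CmIndep K S I))
    Finset.card ⟨∅, by
      rw [mem_filter, mem_powerset]
      exact ⟨Finset.empty_subset _, fun f _ _ i hi => absurd hi (Finset.notMem_empty i)⟩⟩
  rw [mem_filter, mem_powerset] at hI
  refine ⟨I, hI.1, hI.2, fun j hj hjI hind => ?_⟩
  have := hmax (insert j I) (by
    rw [mem_filter, mem_powerset]
    exact ⟨Finset.insert_subset hj hI.1, hind⟩)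
  rw [Finset.card_insert_of_notMem hjI] at this
  omega

/-- gluing from independence -/
theorem cm_glue {ι : Type} (K : ι → Finset E) (S : Set (G.Z → ZMod 2)) (I : Finset ι)
    (hK : ∀ i ∈ I, ∀ j ∈ I, i ≠ j → Disjoint (K i) (K j)) (hI : G.CmIndep K S I)
    (y : ι → G.Z) (hy : ∀ i ∈ I, ∀ g ∈ S, g (y i) = 0) :
    ∃ z : G.Z, ∀ i ∈ I, ∀ e ∈ K i, z.1 e = (y i).1 e := by
  set x : E → ZMod 2 := fun e => ∑ i ∈ I, if e ∈ K i then (y i).1 e else 0 with hx
  have hxe : ∀ i ∈ I, ∀ e ∈ K i, x e = (y i).1 e := by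
    intro i hi e he
    rw [hx]
    simp only
    rw [Finset.sum_eq_single_of_mem i hi]
    · rw [if_pos he]
    · intro j hj hji
      rw [if_neg]
      intro he'
      exact Finset.disjoint_left.1 (hK j hj i hi hji) he' he
  obtain ⟨z, hz, hzx⟩ := G.extension (I.biUnion K) x (by
    intro φ hφ
    set f : ι → E → ZMod 2 := fun i e => if e ∈ K i then G.d φ e else 0 with hf
    have hfin : ∀ i ∈ I, In (f i) (K i) := by
      intro i _ e he
      by_contra h
      simp [hf, h] at he
    have hsum : ∑ i ∈ I, f i = G.d φ := by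
      funext e
      rw [Finset.sum_apply]
      by_cases he : e ∈ I.biUnion K
      · obtain ⟨i, hi, hei⟩ := Finset.mem_biUnion.1 he
        rw [Finset.sum_eq_single_of_mem i hi]
        · simp [hf, hei]
        · intro j hj hji
          have : e ∉ K j := fun he' => Finset.disjoint_left.1 (hK j hj i hi hji) he' hei
          simp [hf, this]
      · rw [hφ e he]
        apply Finset.sum_eq_zero
        intro i hi
        have : e ∉ K i := fun h => he (Finset.mem_biUnion.2 ⟨i, hi, h⟩)
        simp [hf, this]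
    have h0 : ∑ i ∈ I, G.ev (f i) = 0 := by
      rw [← G.cm_ev_sum, hsum, ev_d]
    have hS := hI f hfin h0
    rw [Finset.sum_biUnion (by
      intro i hi j hj hij
      exact hK i hi j hj hij)]
    apply Finset.sum_eq_zero
    intro i hi
    have h1 : G.ev (f i) (y i) = 0 := hy i hi _ (hS i hi)
    rw [← h1]
    unfold ev
    rw [← Finset.sum_subset (Finset.subset_univ (K i))]
    · apply Finset.sum_congr rfl
      intro e he
      rw [hxe i hi e he]
      simp [hf, he, mul_comm]
    · intro e _ he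
      simp [hf, he])
  exact ⟨⟨z, hz⟩, fun i hi e he => by
    rw [← hxe i hi e he]
    exact hzx e (Finset.mem_biUnion.2 ⟨i, hi, he⟩)⟩

/-- the number of chains supported in `U`. -/
theorem cm_card_In (U : Finset E) : (univ.filter (fun h : E → ZMod 2 => In h U)).card ≤ 2 ^ U.card := by
  rw [← Finset.card_powerset]
  refine Finset.card_le_card_of_injOn supp ?_ ?_
  · intro h hh
    simp only [Finset.coe_filter, Finset.mem_univ, true_and, Set.mem_ofPred_eq] at hh
    rw [Finset.mem_coe, Finset.mem_powerset]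
    intro e he
    exact hh e ((mem_supp _ _).1 he)
  · intro h _ h' _ hhh
    funext e
    have h1 : e ∈ supp h ↔ e ∈ supp h' := by rw [hhh]
    rw [mem_supp, mem_supp] at h1
    rcases z2_cases (h e) with h2 | h2 <;> rcases z2_cases (h' e) with h3 | h3
    · rw [h2, h3]
    · have h4 := h1.2 h3
      rw [h2] at h4
      exact absurd h4 (by decide)
    · have h4 := h1.1 h2
      rw [h3] at h4
      exact absurd h4 (by decide)
    · rw [h2, h3]

/-- a maximal independent family and one more index: pigeonhole. -/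
theorem cm_pigeon {ι : Type} (K : ι → Finset E) (I J : Finset ι) (u m r : ℕ)
    (hu : ∀ i ∈ I, (K i).card ≤ u) (hI : I.card ≤ m) (g : ι → E → ZMod 2)
    (hg : ∀ j ∈ J, ∃ f : ι → E → ZMod 2, (∀ i ∈ I, In (f i) (K i)) ∧
      G.ev (g j) = ∑ i ∈ I, G.ev (f i)) (hJ : r * 2 ^ (m * u) < J.card) :
    ∃ F : E → ZMod 2, r < (J.filter (fun j => G.ev (g j) = G.ev F)).card := by
  have h1 : ∀ j ∈ J, ∃ h : E → ZMod 2, In h (I.biUnion K) ∧ G.ev (g j) = G.ev h := by
    intro j hj
    obtain ⟨f, hf, hs⟩ := hg j hj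
    refine ⟨∑ i ∈ I, f i, ?_, by rw [G.cm_ev_sum, hs]⟩
    intro e he
    by_contra hcon
    rw [Finset.sum_apply] at he
    have : ∑ i ∈ I, f i e = 0 := by
      apply Finset.sum_eq_zero
      intro i hi
      by_contra hne
      exact hcon (Finset.mem_biUnion.2 ⟨i, hi, hf i hi e (z2_ne_zero hne)⟩)
    rw [this] at he
    exact absurd he (by decide)
  have h2 : ∀ j, ∃ h : E → ZMod 2, j ∈ J → In h (I.biUnion K) ∧ G.ev (g j) = G.ev h := by
    intro j
    by_cases hj : j ∈ J
    · obtain ⟨h, hh⟩ := h1 j hj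
      exact ⟨h, fun _ => hh⟩
    · exact ⟨0, fun h => absurd h hj⟩
  choose h hh using h2
  have hcard : (univ.filter (fun h : E → ZMod 2 => In h (I.biUnion K))).card ≤ 2 ^ (m * u) := by
    refine (cm_card_In _).trans (Nat.pow_le_pow_right (by norm_num) ?_)
    refine Finset.card_biUnion_le.trans ?_
    calc ∑ i ∈ I, (K i).card ≤ ∑ _i ∈ I, u := Finset.sum_le_sum hu
      _ = I.card * u := by rw [Finset.sum_const, smul_eq_mul]
      _ ≤ m * u := Nat.mul_le_mul_right _ hI
  obtain ⟨F, hF, hF2⟩ := Finset.exists_lt_card_fiber_of_mul_lt_card_of_maps_to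
    (s := J) (t := univ.filter (fun h : E → ZMod 2 => In h (I.biUnion K))) (f := h) (n := r)
    (fun j hj => by rw [mem_filter]; exact ⟨mem_univ _, (hh j hj).1⟩)
    (by
      refine lt_of_le_of_lt ?_ hJ
      rw [mul_comm]
      exact Nat.mul_le_mul_left _ hcard)
  refine ⟨F, lt_of_lt_of_le hF2 (Finset.card_le_card ?_)⟩
  intro j hj
  rw [mem_filter] at hj ⊢
  exact ⟨hj.1, by rw [← hj.2]; exact (hh j hj.1).2⟩

theorem cm_inn_subset_tch (X : Finset V) : G.inn X ⊆ G.tch X := by
  intro e he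
  rw [mem_inn] at he
  rw [mem_tch]
  exact Or.inl he.1

/-- two closed pieces are likely in a glued family. -/
theorem cm_two {t n₀ : ℕ} (hG : G.Good) (A : Fin t → Finset V) (hA : G.Fam n₀ A) (V₀ : Finset V)
    (hV : ∀ i, A i ⊆ V₀) (I : Finset (Fin t)) (L : E → ZMod 2) (lam : ZMod 2)
    (hg : G.Glue (G.ev L) I (fun i => G.tch (A i))) (w : Fin t → G.Z) (c : Fin t → E → ZMod 2)
    (hw : ∀ i ∈ I, G.ev L (w i) = lam)
    (hc : ∀ i ∈ I, G.Circ (c i) ∧ Le (c i) (w i).1 ∧ In (c i) (G.inn (A i))) :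
    G.Pr (fun z => ¬ G.Two V₀ z.1 ∧ G.ev L z = lam) ≤
      (I.card + 1) * (1 - (1 / 2 : ℝ) ^ (3 * n₀)) ^ (I.card - 1) := by
  have key := G.at_most_one I (fun i => G.tch (A i)) L hg lam
    (fun i z => ∀ e ∈ G.tch (A i), z.1 e = (w i).1 e)
    (by
      intro i _ z z' hzz
      constructor
      · intro h e he; rw [← hzz e he]; exact h e he
      · intro h e he; rw [hzz e he]; exact h e he)
    ((1 / 2 : ℝ) ^ (3 * n₀)) (by positivity) (pow_le_one₀ (by norm_num) (by norm_num))
    (by
      intro i hi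
      refine le_trans ?_ (G.Pr_pattern L lam (G.tch (A i)) (w i) (hw i hi))
      apply mul_le_mul_of_nonneg_right _ (G.Pr_nonneg _)
      apply pow_le_pow_of_le_one (by norm_num) (by norm_num)
      refine (G.card_tch_le hG (A i)).trans ?_
      exact Nat.mul_le_mul_left _ (hA.card i).le)
  refine le_trans (G.Pr_mono ?_) key
  rintro z ⟨h1, h2⟩
  refine ⟨h2, fun i hi j hj hAi hAj => ?_⟩
  by_contra hij
  apply h1
  obtain ⟨ci1, ci2, ci3⟩ := hc i hi
  obtain ⟨cj1, cj2, cj3⟩ := hc j hj
  refine ⟨c i, c j, ci1, cj1, ?_, ?_, ?_, ?_, ?_⟩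
  · intro hcc
    apply ci1.2.1
    funext e
    by_contra hne
    have h3 := z2_ne_zero hne
    have h4 := ci3 e h3
    rw [hcc] at h3
    have h5 := cj3 e h3
    exact Finset.disjoint_left.1 (hA.far i j hij) (G.cm_inn_subset_tch _ h4)
      (G.cm_inn_subset_tch _ h5)
  · intro e he
    rw [hAi e (G.cm_inn_subset_tch _ (ci3 e he))]
    exact ci2 e he
  · intro e he
    rw [hAj e (G.cm_inn_subset_tch _ (cj3 e he))]
    exact cj2 e he
  · intro e he
    have := ci3 e he
    rw [mem_inn] at this ⊢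
    exact ⟨hV i this.1, hV i this.2⟩
  · intro e he
    have := cj3 e he
    rw [mem_inn] at this ⊢
    exact ⟨hV j this.1, hV j this.2⟩

end MG

theorem cm_threshold (ε : ℝ) (hε : 0 < ε) (u : ℕ) : ∃ k0 : ℕ, ∀ k ≥ k0,
    ((k : ℝ) + 1) * (1 - (1 / 2 : ℝ) ^ u) ^ (k - 1) ≤ ε := by
  set r : ℝ := 1 - (1 / 2 : ℝ) ^ u with hr
  have hr0 : 0 ≤ r := by
    have : (1 / 2 : ℝ) ^ u ≤ 1 := pow_le_one₀ (by norm_num) (by norm_num)
    linarith
  have hr1 : r < 1 := by
    have : (0 : ℝ) < (1 / 2 : ℝ) ^ u := by positivity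
    linarith
  have h1 : Filter.Tendsto (fun n : ℕ => (n : ℝ) * r ^ n + 2 * r ^ n) Filter.atTop (nhds (0 + 2 * 0)) :=
    (tendsto_self_mul_const_pow_of_lt_one hr0 hr1).add
      ((tendsto_pow_atTop_nhds_zero_of_lt_one hr0 hr1).const_mul 2)
  rw [mul_zero, add_zero] at h1
  obtain ⟨N, hN⟩ := Filter.eventually_atTop.1 (h1.eventually (gt_mem_nhds hε))
  refine ⟨N + 1, fun k hk => ?_⟩
  obtain ⟨m, rfl⟩ : ∃ m, k = m + 1 := ⟨k - 1, by omega⟩
  have h2 := hN m (by omega)
  rw [Nat.add_sub_cancel]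
  push_cast
  nlinarith [h2]

/-- many small sets: either two closed pieces are likely, or there is a common functional `ev L`,
the sector `ev L = 0` is negligible, and all sets of a large subfamily are rigid. -/
theorem common (ε : ℝ) (hε : 0 < ε) (n₀ r : ℕ) : ∃ t : ℕ, ∀ (V E : Type) [Fintype V] [Fintype E]
    (G : MG V E), G.Good → ∀ (V₀ : Finset V) (A : Fin t → Finset V), G.Fam n₀ A →
    (∀ i, A i ⊆ V₀) → G.Pr (fun z => ¬ G.Two V₀ z.1) ≤ ε ∨
    ∃ L : E → ZMod 2, G.ev L ≠ 0 ∧ G.Pr (fun z => ¬ G.Two V₀ z.1 ∧ G.ev L z = 0) ≤ ε ∧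
      ∃ J : Finset (Fin t), r ≤ J.card ∧
        (∀ j ∈ J, ∃ F : E → ZMod 2, In F (G.tch (A j)) ∧ G.ev F = G.ev L) ∧
        ∀ j ∈ J, G.Rigid L (A j) := by
  obtain ⟨k0, hk0⟩ := cm_threshold (ε / 2) (by linarith) (3 * n₀)
  set u := 3 * n₀ with hu
  set t1 := r + k0 + 2 with ht1
  set NJ := t1 + (2 * 2 ^ (t1 * u) + 1) with hNJ
  refine ⟨k0 + (NJ * 2 ^ (k0 * u) + 1), ?_⟩
  intro V E _ _ G hG V₀ A hA hV
  have hKu : ∀ i, (G.tch (A i)).card ≤ u := fun i =>
    (G.card_tch_le hG (A i)).trans (Nat.mul_le_mul_left _ (hA.card i).le)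
  set K : Fin (k0 + (NJ * 2 ^ (k0 * u) + 1)) → Finset E := fun i => G.tch (A i) with hK
  choose Γ hΓ using hA.circ
  -- step 3.2
  obtain ⟨I, -, hI, hmax⟩ := G.cm_exists_max K {0} univ
  by_cases hIk : k0 ≤ I.card
  · left
    have hg : G.Glue (G.ev (0 : E → ZMod 2)) I K := by
      intro y _
      obtain ⟨z, hz⟩ := G.cm_glue K {0} I (fun i _ j _ hij => hA.far i j hij) hI y
        (fun i _ g hg => by rw [Set.mem_singleton_iff.1 hg]; rfl)
      exact ⟨z, by rw [G.ev_zero]; rfl, hz⟩
    have h1 := G.cm_two hG A hA V₀ hV I 0 0 hg (fun i => ⟨Γ i, (hΓ i).1.1⟩) Γ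
      (fun i _ => by rw [G.ev_zero]; rfl) (fun i _ => ⟨(hΓ i).1, Le.refl _, (hΓ i).2⟩)
    have h2 := hk0 _ hIk
    have h3 : G.Pr (fun z => ¬ G.Two V₀ z.1) ≤
        G.Pr (fun z => ¬ G.Two V₀ z.1 ∧ G.ev (0 : E → ZMod 2) z = 0) :=
      G.Pr_mono fun z hz => ⟨hz, by rw [G.ev_zero]; rfl⟩
    linarith
  push Not at hIk
  -- common functional
  have hj1 : ∀ j ∈ (univ \ I : Finset (Fin (k0 + (NJ * 2 ^ (k0 * u) + 1)))),
      ∃ f : Fin (k0 + (NJ * 2 ^ (k0 * u) + 1)) → E → ZMod 2,
      (∀ i ∈ insert j I, In (f i) (K i)) ∧ G.ev (f j) = ∑ i ∈ I, G.ev (f i) ∧ G.ev (f j) ≠ 0 := by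
    intro j hj
    rw [mem_sdiff] at hj
    have h1 := hmax j (mem_univ _) hj.2
    unfold MG.CmIndep at h1
    push Not at h1
    obtain ⟨f, hf, hs, i0, hi0, hne⟩ := h1
    rw [Finset.sum_insert hj.2, chain_add_eq_zero] at hs
    refine ⟨f, hf, hs, fun h0 => ?_⟩
    rw [h0] at hs
    have h2 := hI f (fun i hi => hf i (Finset.mem_insert_of_mem hi)) hs.symm
    rcases Finset.mem_insert.1 hi0 with h3 | h3
    · rw [h3] at hne
      exact hne (by rw [h0]; rfl)
    · exact hne (h2 i0 h3)
  have hj2 : ∀ j, ∃ f : Fin (k0 + (NJ * 2 ^ (k0 * u) + 1)) → E → ZMod 2,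
      j ∈ (univ \ I : Finset (Fin (k0 + (NJ * 2 ^ (k0 * u) + 1)))) →
      (∀ i ∈ insert j I, In (f i) (K i)) ∧ G.ev (f j) = ∑ i ∈ I, G.ev (f i) ∧ G.ev (f j) ≠ 0 := by
    intro j
    by_cases hj : j ∈ (univ \ I : Finset (Fin (k0 + (NJ * 2 ^ (k0 * u) + 1))))
    · obtain ⟨f, hf⟩ := hj1 j hj
      exact ⟨f, fun _ => hf⟩
    · exact ⟨fun _ => 0, fun h => absurd h hj⟩
  choose ff hff using hj2
  have hcardc : NJ * 2 ^ (k0 * u) <
      (univ \ I : Finset (Fin (k0 + (NJ * 2 ^ (k0 * u) + 1)))).card := by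
    rw [Finset.card_sdiff_of_subset (Finset.subset_univ _), Finset.card_univ, Fintype.card_fin]
    omega
  obtain ⟨L, hL⟩ := G.cm_pigeon K I (univ \ I) u k0 NJ (fun i _ => hKu i) hIk.le
    (fun j => ff j j) (fun j hj => ⟨ff j, fun i hi => (hff j hj).1 i (Finset.mem_insert_of_mem hi),
      (hff j hj).2.1⟩) hcardc
  set J := (univ \ I : Finset (Fin (k0 + (NJ * 2 ^ (k0 * u) + 1)))).filter
    (fun j => G.ev (ff j j) = G.ev L) with hJ
  have hJm : ∀ j ∈ J, In (ff j j) (K j) ∧ G.ev (ff j j) = G.ev L ∧ G.ev L ≠ 0 := by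
    intro j hj
    rw [hJ, mem_filter] at hj
    have h1 := hff j hj.1
    exact ⟨h1.1 j (Finset.mem_insert_self _ _), hj.2, by rw [← hj.2]; exact h1.2.2⟩
  have hL0 : G.ev L ≠ 0 := by
    obtain ⟨j, hj⟩ := Finset.card_pos.1 (lt_of_le_of_lt (Nat.zero_le _) hL)
    exact (hJm j hj).2.2
  -- step 3.3
  obtain ⟨I2, hI2J, hI2, hmax2⟩ := G.cm_exists_max K {0, G.ev L} J
  have hI2c : t1 ≤ I2.card := by
    by_contra hlt
    push Not at hlt
    have hne2 : I2.Nonempty := by
      rw [Finset.nonempty_iff_ne_empty]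
      intro he
      obtain ⟨j, hj⟩ := Finset.card_pos.1 (lt_of_le_of_lt (Nat.zero_le _) hL)
      apply hmax2 j hj (by rw [he]; exact Finset.notMem_empty j)
      intro f hf hs i hi
      rw [he] at hs hi
      have hij : i = j := by simpa using hi
      simp at hs
      rw [hij, hs]
      exact Or.inl rfl
    obtain ⟨i1, hi1⟩ := hne2
    have hj3 : ∀ j ∈ J \ I2, ∃ f : Fin (k0 + (NJ * 2 ^ (k0 * u) + 1)) → E → ZMod 2,
        (∀ i ∈ insert j I2, In (f i) (K i)) ∧ G.ev (f j) = ∑ i ∈ I2, G.ev (f i) ∧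
        G.ev (f j) ≠ 0 ∧ G.ev (f j) ≠ G.ev L := by
      intro j hj
      rw [mem_sdiff] at hj
      have h1 := hmax2 j hj.1 hj.2
      unfold MG.CmIndep at h1
      push Not at h1
      obtain ⟨f, hf, hs, i0, hi0, hne⟩ := h1
      rw [Finset.sum_insert hj.2, chain_add_eq_zero] at hs
      have hne' : ¬ (G.ev (f i0) = 0 ∨ G.ev (f i0) = G.ev L) := hne
      refine ⟨f, hf, hs, fun h0 => ?_, fun h0 => ?_⟩
      · rw [h0] at hs
        have h2 := hI2 f (fun i hi => hf i (Finset.mem_insert_of_mem hi)) hs.symm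
        rcases Finset.mem_insert.1 hi0 with h3 | h3
        · rw [h3] at hne'
          exact hne' (Or.inl h0)
        · exact hne' (h2 i0 h3)
      · -- replace `f i1`
        set f' : Fin (k0 + (NJ * 2 ^ (k0 * u) + 1)) → E → ZMod 2 :=
          fun i => if i = i1 then f i1 + ff i1 i1 else f i with hf'
        have hsum' : ∑ i ∈ I2, G.ev (f' i) = 0 := by
          have h4 : ∑ i ∈ I2, G.ev (f' i) = ∑ i ∈ I2, G.ev (f i) + G.ev L := by
            rw [← Finset.add_sum_erase _ _ hi1, ← Finset.add_sum_erase _ _ hi1]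
            have h5 : ∑ i ∈ I2.erase i1, G.ev (f' i) = ∑ i ∈ I2.erase i1, G.ev (f i) := by
              apply Finset.sum_congr rfl
              intro i hi
              have : i ≠ i1 := Finset.ne_of_mem_erase hi
              simp [hf', this]
            have h6 : G.ev (f' i1) = G.ev (f i1) + G.ev L := by
              simp only [hf', if_true]
              rw [G.ev_add, (hJm i1 (hI2J hi1)).2.1]
            rw [h5, h6]
            abel
          rw [h4, ← hs, h0, chain_add_self]
        have h7 := hI2 f' (by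
          intro i hi
          by_cases hii : i = i1
          · rw [hii]
            intro e he
            simp only [hf', if_true, Pi.add_apply] at he
            by_contra hcon
            have h8 : f i1 e = 0 := by
              by_contra h9
              exact hcon (hf i1 (Finset.mem_insert_of_mem hi1) e (z2_ne_zero h9))
            have h10 : ff i1 i1 e = 0 := by
              by_contra h9
              exact hcon ((hJm i1 (hI2J hi1)).1 e (z2_ne_zero h9))
            rw [h8, h10] at he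
            exact absurd he (by decide)
          · simp only [hf', if_neg hii]
            exact hf i (Finset.mem_insert_of_mem hi)) hsum'
        rcases Finset.mem_insert.1 hi0 with h3 | h3
        · rw [h3] at hne'
          exact hne' (Or.inr h0)
        · by_cases h11 : i0 = i1
          · have h12 : G.ev (f' i1) = 0 ∨ G.ev (f' i1) = G.ev L := h7 i1 hi1
            have h6 : G.ev (f' i1) = G.ev (f i1) + G.ev L := by
              simp only [hf', if_true]
              rw [G.ev_add, (hJm i1 (hI2J hi1)).2.1]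
            rw [h6] at h12
            rw [h11] at hne'
            rcases h12 with h13 | h13
            · exact hne' (Or.inr (chain_add_eq_zero.1 h13))
            · exact hne' (Or.inl (by
                have h14 : G.ev (f i1) + G.ev L + G.ev L = G.ev L + G.ev L := by rw [h13]
                rw [add_assoc, chain_add_self, add_zero] at h14
                exact h14))
          · have h12 : G.ev (f' i0) = 0 ∨ G.ev (f' i0) = G.ev L := h7 i0 h3
            have h13 : f' i0 = f i0 := by simp only [hf', if_neg h11]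
            rw [h13] at h12
            exact hne' h12
    have hj4 : ∀ j, ∃ f : Fin (k0 + (NJ * 2 ^ (k0 * u) + 1)) → E → ZMod 2, j ∈ J \ I2 →
        (∀ i ∈ insert j I2, In (f i) (K i)) ∧ G.ev (f j) = ∑ i ∈ I2, G.ev (f i) ∧
        G.ev (f j) ≠ 0 ∧ G.ev (f j) ≠ G.ev L := by
      intro j
      by_cases hj : j ∈ J \ I2
      · obtain ⟨f, hf⟩ := hj3 j hj
        exact ⟨f, fun _ => hf⟩
      · exact ⟨fun _ => 0, fun h => absurd h hj⟩
    choose gg hgg using hj4
    obtain ⟨F, hF⟩ := G.cm_pigeon K I2 (J \ I2) u t1 2 (fun i _ => hKu i) hlt.le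
      (fun j => gg j j) (fun j hj => ⟨gg j, fun i hi => (hgg j hj).1 i (Finset.mem_insert_of_mem hi),
        (hgg j hj).2.1⟩) (by
        have := Finset.le_card_sdiff I2 J
        omega)
    obtain ⟨a, b, c, hab, hac, hbc, hsub⟩ : ∃ a b c, a ≠ b ∧ a ≠ c ∧ b ≠ c ∧
        ({a, b, c} : Finset _) ⊆ (J \ I2).filter (fun j => G.ev (gg j j) = G.ev F) := by
      obtain ⟨s, hs, hs3⟩ := Finset.exists_subset_card_eq (show 3 ≤ _ from hF)
      obtain ⟨a, b, c, hab, hac, hbc, rfl⟩ := Finset.card_eq_three.1 hs3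
      exact ⟨a, b, c, hab, hac, hbc, hs⟩
    set B : Fin 3 → Fin (k0 + (NJ * 2 ^ (k0 * u) + 1)) := ![a, b, c] with hB
    have hBmem : ∀ i, B i ∈ (J \ I2).filter (fun j => G.ev (gg j j) = G.ev F) := by
      intro i
      apply hsub
      rw [Finset.mem_insert, Finset.mem_insert, Finset.mem_singleton]
      fin_cases i
      · exact Or.inl rfl
      · exact Or.inr (Or.inl rfl)
      · exact Or.inr (Or.inr rfl)
    have hBinj : ∀ i j, i ≠ j → B i ≠ B j := by
      intro i j hij
      clear_value J NJ t1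
      fin_cases i <;> fin_cases j
      · exact absurd rfl hij
      · exact hab
      · exact hac
      · exact hab.symm
      · exact absurd rfl hij
      · exact hbc
      · exact hac.symm
      · exact hbc.symm
      · exact absurd rfl hij
    have hBJ : ∀ i, B i ∈ J := fun i => (mem_sdiff.1 (mem_filter.1 (hBmem i)).1).1
    have hthree : G.Three (fun i => A (B i)) := by
      refine ⟨fun i => hA.conn _, fun i => ?_, fun i j hij => hA.disj _ _ (hBinj i j hij),
        fun i j hij => hA.far _ _ (hBinj i j hij)⟩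
      obtain ⟨h1, h2⟩ := hΓ (B i)
      by_contra hemp
      rw [Finset.not_nonempty_iff_eq_empty] at hemp
      apply h1.2.1
      funext e
      by_contra hne
      have := h2 e (z2_ne_zero hne)
      rw [hemp, MG.mem_inn] at this
      exact absurd this.1 (Finset.notMem_empty _)
    have h1 := G.triple_unique hG hthree (fun i => ff (B i) (B i)) (fun i => gg (B i) (B i))
      (fun i => (hJm _ (hBJ i)).1)
      (fun i => (hgg _ (mem_filter.1 (hBmem i)).1).1 _ (Finset.mem_insert_self _ _))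
      (fun i => by rw [(hJm _ (hBJ i)).2.1, (hJm _ (hBJ 0)).2.1])
      (fun i => by rw [(mem_filter.1 (hBmem i)).2, (mem_filter.1 (hBmem 0)).2])
      (by rw [(hJm _ (hBJ 0)).2.1]; exact hL0)
      ((hgg _ (mem_filter.1 (hBmem 0)).1).2.2.1)
    rw [(hJm _ (hBJ 0)).2.1] at h1
    exact (hgg _ (mem_filter.1 (hBmem 0)).1).2.2.2 h1.symm
  -- gluing for `L`
  have hglue : ∀ I3 ⊆ I2, G.Glue (G.ev L) I3 K := by
    intro I3 hI3 y hy
    by_cases hne3 : I3.Nonempty
    · obtain ⟨i1, hi1⟩ := hne3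
      have hI3ind : G.CmIndep K {0, G.ev L} I3 := by
        intro f hf hs i hi
        have := hI2 (fun i => if i ∈ I3 then f i else 0) (by
          intro i _
          by_cases h : i ∈ I3
          · simp only [h, if_true]; exact hf i h
          · simp only [h, if_false]
            intro e he
            rw [Pi.zero_apply] at he
            exact absurd he (by decide)) (by
          rw [← hs, ← Finset.sum_subset hI3]
          · apply Finset.sum_congr rfl
            intro i hi
            simp [hi]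
          · intro i _ hi
            simp [hi, MG.ev_zero]) i (hI3 hi)
        simpa [hi] using this
      obtain ⟨z, hz⟩ := G.cm_glue K {0, G.ev L} I3 (fun i _ j _ hij => hA.far i j hij) hI3ind y
        (by
          intro i hi g hg
          rcases hg with hg | hg
          · rw [hg]; rfl
          · rw [hg]; exact hy i hi)
      refine ⟨z, ?_, hz⟩
      have h1 := hJm i1 (hI2J (hI3 hi1))
      rw [← h1.2.1, ← hy i1 hi1, ← h1.2.1]
      unfold MG.ev
      apply Finset.sum_congr rfl
      intro e _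
      by_cases he : e ∈ K i1
      · rw [hz i1 hi1 e he]
      · have : ff i1 i1 e = 0 := by
          by_contra h9
          exact he (h1.1 e (z2_ne_zero h9))
        rw [this, zero_mul, zero_mul]
    · rw [Finset.not_nonempty_iff_eq_empty] at hne3
      subst hne3
      exact ⟨0, G.ev_apply_zero L, fun i hi => absurd hi (Finset.notMem_empty i)⟩
  have hΓ0 : ∀ i, G.ev L ⟨Γ i, (hΓ i).1.1⟩ = 0 := by
    intro i
    obtain ⟨j, hj, hji⟩ : ∃ j ∈ J, j ≠ i := by
      by_contra hcon
      push Not at hcon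
      have : J ⊆ {i} := fun j hj => Finset.mem_singleton.2 (hcon j hj)
      have := Finset.card_le_card this
      rw [Finset.card_singleton] at this
      omega
    have h1 := hJm j hj
    rw [← h1.2.1]
    unfold MG.ev
    apply Finset.sum_eq_zero
    intro e _
    by_cases he : e ∈ K j
    · have : Γ i e = 0 := by
        by_contra h9
        have h2 := G.cm_inn_subset_tch _ ((hΓ i).2 e (z2_ne_zero h9))
        exact Finset.disjoint_left.1 (hA.far j i hji) he h2
      simp only [this, mul_zero]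
    · have : ff j j e = 0 := by
        by_contra h9
        exact he (h1.1 e (z2_ne_zero h9))
      rw [this, zero_mul]
  have hzero : G.Pr (fun z => ¬ G.Two V₀ z.1 ∧ G.ev L z = 0) ≤ ε / 2 :=
    (G.cm_two hG A hA V₀ hV I2 L 0 (hglue I2 (Finset.Subset.refl _)) (fun i => ⟨Γ i, (hΓ i).1.1⟩) Γ
      (fun i _ => hΓ0 i) (fun i _ => ⟨(hΓ i).1, Le.refl _, (hΓ i).2⟩)).trans (hk0 _ (by omega))
  -- rigid members
  set I3 := I2.filter (fun i => ¬ G.Rigid L (A i)) with hI3
  by_cases hI3c : k0 ≤ I3.card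
  · left
    have hw : ∀ i, ∃ z : G.Z, ∃ c : E → ZMod 2, i ∈ I3 → G.ev L z = 1 ∧ G.Circ c ∧ Le c z.1 ∧
        In c (G.inn (A i)) := by
      intro i
      by_cases hi : i ∈ I3
      · have h1 := (mem_filter.1 hi).2
        unfold MG.Rigid MG.NoneIn at h1
        push Not at h1
        obtain ⟨z, hz, c, hc1, hc2, hc3⟩ := h1
        exact ⟨z, c, fun _ => ⟨hz, hc1, hc2, hc3⟩⟩
      · exact ⟨0, 0, fun h => absurd h hi⟩
    choose w c hwc using hw
    have hone := (G.cm_two hG A hA V₀ hV I3 L 1 (hglue I3 (Finset.filter_subset _ _)) w c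
      (fun i hi => (hwc i hi).1) (fun i hi => (hwc i hi).2)).trans (hk0 _ hI3c)
    have h1 : G.Pr (fun z => ¬ G.Two V₀ z.1) ≤
        G.Pr (fun z => ¬ G.Two V₀ z.1 ∧ G.ev L z = 0) +
        G.Pr (fun z => ¬ G.Two V₀ z.1 ∧ G.ev L z = 1) := by
      refine le_trans (G.Pr_mono ?_) (G.Pr_or_le _ _)
      intro z hz
      rcases z2_cases (G.ev L z) with h | h
      · exact Or.inl ⟨hz, h⟩
      · exact Or.inr ⟨hz, h⟩
    linarith
  · right
    push Not at hI3c
    refine ⟨L, hL0, by linarith, I2.filter (fun i => G.Rigid L (A i)), ?_, ?_, ?_⟩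
    · have h9 := Finset.card_filter_add_card_filter_not (s := I2) (fun i => G.Rigid L (A i))
      have h10 : (I2.filter (fun i => ¬ G.Rigid L (A i))).card < k0 := hI3c
      omega
    · intro j hj
      have h1 := hJm j (hI2J (mem_filter.1 hj).1)
      exact ⟨ff j j, h1.1, h1.2.1⟩
    · intro j hj
      exact (mem_filter.1 hj).2

end Cyc
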