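import Pool.Agent.Cyc.Chord

/-!
# Cuts inside good circuits, Section 2.2 (h), (i)
-/

open Finset
open scoped Classical

namespace Cyc

/-- an initial segment of a chain is a chain -/
theorem cc_chain_pre {α : Type} {r : α → α → Prop} {l l₁ : List α} (h : l.IsChain r)
    (h' : l₁ <+: l) : l₁.IsChain r := by
  obtain ⟨s, rfl⟩ := h'
  exact h.left_of_append

namespace MG

variable {V E : Type} [Fintype V] [Fintype E] (G : MG V E)

/-- around `v` the graph looks like a tree inside `A`, up to distance `L`. -/
def Tame (A : Finset V) (L : ℕ) (v : V) : Prop :=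
  v ∈ A ∧ ∀ (x : E × Bool) (p : List (E × Bool)), G.tl x = v → (x :: p).IsChain G.Nx →
    (x :: p).length ≤ L → (∀ y ∈ x :: p, y ∈ G.Om A) ∧ ¬ G.Rep (x :: p)

/-- a circuit in `A` of length at most `M`, with tame vertices and without short chord paths -/
structure Fine (A : Finset V) (M L ρ : ℕ) (c : E → ZMod 2) : Prop where
  circ : G.Circ c
  inn : In c (G.inn A)
  len_le : len c ≤ M
  tame : ∀ v, G.On c v → G.Tame A L v
  chord : ¬ G.Chord c ρ

/-- edges joining the circuits `c` and `c'` -/
noncomputable def joins (c c' : E → ZMod 2) : Finset E :=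
  univ.filter (fun e => c e = 0 ∧ c' e = 0 ∧
    ((G.On c (G.s e) ∧ G.On c' (G.t e)) ∨ (G.On c' (G.s e) ∧ G.On c (G.t e))))

namespace CutC

/-! ### darts -/

theorem rv_rv (x : E × Bool) : rv (rv x) = x := by
  unfold rv
  simp

theorem rv_fst (x : E × Bool) : (rv x).1 = x.1 := rfl

theorem tl_rv (x : E × Bool) : G.tl (rv x) = G.hd x := by
  obtain ⟨e, b⟩ := x
  cases b <;> rfl

theorem hd_rv (x : E × Bool) : G.hd (rv x) = G.tl x := by
  obtain ⟨e, b⟩ := x
  cases b <;> rfl

theorem zmod_two (a : ZMod 2) : a = 0 ∨ a = 1 := by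
  revert a; decide

theorem on_tl {c : E → ZMod 2} {x : E × Bool} (h : c x.1 = 1) : G.On c (G.tl x) := by
  obtain ⟨e, b⟩ := x
  cases b
  · exact ⟨e, h, Or.inl rfl⟩
  · exact ⟨e, h, Or.inr rfl⟩

theorem on_hd {c : E → ZMod 2} {x : E × Bool} (h : c x.1 = 1) : G.On c (G.hd x) := by
  rw [← tl_rv]
  exact on_tl G (x := rv x) h

theorem on_iff {c : E → ZMod 2} {v : V} : G.On c v ↔ ∃ x : E × Bool, c x.1 = 1 ∧ G.tl x = v := by
  constructor
  · rintro ⟨e, he, h | h⟩
    · exact ⟨(e, false), he, h⟩
    · exact ⟨(e, true), he, h⟩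
  · rintro ⟨x, hx, rfl⟩
    exact on_tl G hx

theorem tl_ne_hd (hG : G.Good) (x : E × Bool) : G.tl x ≠ G.hd x := by
  obtain ⟨e, b⟩ := x
  cases b
  · exact hG.noloop e
  · exact (hG.noloop e).symm

/-- counting darts at a vertex -/
theorem card_darts (P : E → Prop) [DecidablePred P] (v : V) :
    (univ.filter (fun x : E × Bool => P x.1 ∧ G.tl x = v)).card =
      (univ.filter (fun e => P e ∧ G.s e = v)).card +
        (univ.filter (fun e => P e ∧ G.t e = v)).card := by
  simp only [card_eq_sum_ones, sum_filter]
  rw [Fintype.sum_prod_type, ← sum_add_distrib]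
  apply sum_congr rfl
  intro e _
  rw [Fintype.sum_bool]
  unfold tl
  simp only [if_true, Bool.false_eq_true, if_false]
  rw [add_comm]

theorem card_tail (hG : G.Good) (v : V) :
    (univ.filter (fun x : E × Bool => G.tl x = v)).card = 3 := by
  have h := card_darts G (fun _ => True) v
  simp only [true_and] at h
  rw [h]
  exact hG.cubic v

/-- a circuit has exactly one dart outside at each of its vertices. -/
theorem third (hG : G.Good) {c : E → ZMod 2} (hc : G.Circ c) {v : V} (hv : G.On c v) :
    (univ.filter (fun x : E × Bool => c x.1 = 0 ∧ G.tl x = v)).card = 1 := by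
  have h2 : (univ.filter (fun x : E × Bool => c x.1 = 1 ∧ G.tl x = v)).card = 2 := by
    have h := card_darts G (fun e => c e = 1) v
    rw [h]
    rcases G.deg_zero_or_two hG hc.1 v with h0 | h0
    · exfalso
      unfold deg at h0
      obtain ⟨x, hx, hxv⟩ := (on_iff G).1 hv
      have hmem : x ∈ univ.filter (fun x : E × Bool => c x.1 = 1 ∧ G.tl x = v) := by
        simp [hx, hxv]
      have hpos := card_pos.2 ⟨x, hmem⟩
      rw [h, h0] at hpos
      exact lt_irrefl _ hpos
    · exact h0
  have h3 := card_tail G hG v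
  have hsplit : (univ.filter (fun x : E × Bool => G.tl x = v)) =
      (univ.filter (fun x : E × Bool => c x.1 = 0 ∧ G.tl x = v)) ∪
      (univ.filter (fun x : E × Bool => c x.1 = 1 ∧ G.tl x = v)) := by
    ext x
    simp only [mem_filter, mem_univ, true_and, mem_union]
    constructor
    · intro h
      rcases zmod_two (c x.1) with h' | h'
      · exact Or.inl ⟨h', h⟩
      · exact Or.inr ⟨h', h⟩
    · rintro (h | h)
      · exact h.2
      · exact h.2
  rw [hsplit, card_union_of_disjoint, h2] at h3
  · omega
  · rw [disjoint_left]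
    intro x hx hx'
    simp only [mem_filter, mem_univ, true_and] at hx hx'
    rw [hx.1] at hx'
    exact zero_ne_one hx'.1

theorem third_exists (hG : G.Good) {c : E → ZMod 2} (hc : G.Circ c) {v : V} (hv : G.On c v) :
    ∃ x : E × Bool, c x.1 = 0 ∧ G.tl x = v := by
  obtain ⟨x, hx⟩ := card_pos.1 (by rw [third G hG hc hv]; exact Nat.one_pos)
  simp only [mem_filter, mem_univ, true_and] at hx
  exact ⟨x, hx⟩

theorem third_unique (hG : G.Good) {c : E → ZMod 2} (hc : G.Circ c) {v : V} (hv : G.On c v)
    {x y : E × Bool} (hx : c x.1 = 0) (hxv : G.tl x = v) (hy : c y.1 = 0) (hyv : G.tl y = v) :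
    x = y := by
  have h := third G hG hc hv
  rw [card_eq_one] at h
  obtain ⟨a, ha⟩ := h
  have h1 : x ∈ univ.filter (fun x : E × Bool => c x.1 = 0 ∧ G.tl x = v) := by simp [hx, hxv]
  have h2 : y ∈ univ.filter (fun x : E × Bool => c x.1 = 0 ∧ G.tl x = v) := by simp [hy, hyv]
  rw [ha, mem_singleton] at h1 h2
  rw [h1, h2]

/-! ### lists of darts -/

/-- reversal of a walk -/
def rvl (l : List (E × Bool)) : List (E × Bool) := (l.map rv).reverse

theorem rvl_chain {l : List (E × Bool)} (h : l.IsChain G.Nx) : (rvl l).IsChain G.Nx := by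
  unfold rvl
  rw [List.isChain_reverse, List.isChain_map]
  exact h.imp (fun a b hab => (G.Nx_rev a b).1 hab)

theorem rvl_length (l : List (E × Bool)) : (rvl l).length = l.length := by
  unfold rvl; simp

theorem mem_rvl {l : List (E × Bool)} {x : E × Bool} : x ∈ rvl l ↔ rv x ∈ l := by
  unfold rvl
  rw [List.mem_reverse, List.mem_map]
  constructor
  · rintro ⟨a, ha, rfl⟩
    rw [rv_rv]; exact ha
  · intro h
    exact ⟨rv x, h, rv_rv x⟩

theorem rvl_cons (x : E × Bool) (l : List (E × Bool)) : rvl (x :: l) = rvl l ++ [rv x] := by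
  unfold rvl; simp

theorem rvl_head (l : List (E × Bool)) (h : rvl l ≠ []) (h' : l ≠ []) :
    (rvl l).head h = rv (l.getLast h') := by
  have h2 : (l.map rv).reverse ≠ [] := h
  show (l.map rv).reverse.head h2 = _
  rw [List.head_reverse, List.getLast_map]

theorem rvl_concat (x : E × Bool) (l : List (E × Bool)) : rvl (l ++ [x]) = rv x :: rvl l := by
  unfold rvl; simp

/-- last vertex of the walk `x :: p` -/
def en (x : E × Bool) (p : List (E × Bool)) : V := G.hd ((x :: p).getLast (by simp))

theorem en_nil (x : E × Bool) : en G x [] = G.hd x := rfl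

theorem en_concat (x a : E × Bool) (p : List (E × Bool)) : en G x (p ++ [a]) = G.hd a := by
  unfold en
  simp [List.getLast_cons]

theorem en_cons (x a : E × Bool) (p : List (E × Bool)) : en G x (a :: p) = en G a p := by
  unfold en
  rw [List.getLast_cons (by simp)]

theorem en_mem (x : E × Bool) (p : List (E × Bool)) : en G x p ∈ (x :: p).map G.hd := by
  unfold en
  exact List.mem_map_of_mem (List.getLast_mem _)

theorem tl_head {x : E × Bool} {a : E × Bool} {p : List (E × Bool)}
    (h : (x :: a :: p).IsChain G.Nx) : G.tl a = G.hd x := by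
  rw [List.isChain_cons_cons] at h
  exact h.1.1

/-- two walks starting with the same dart and with the same end are equal. -/
theorem uniq {A : Finset V} {L : ℕ} (d : E × Bool) (hT : G.Tame A L (G.tl d)) :
    ∀ (p q : List (E × Bool)), (d :: p).IsChain G.Nx → (d :: q).IsChain G.Nx →
      en G d p = en G d q → p.length + q.length + 1 ≤ L → p = q := by
  have hrep : ∀ p : List (E × Bool), (d :: p).IsChain G.Nx → p.length + 1 ≤ L →
      ∀ z ∈ p, G.hd z ≠ G.hd d := by
    intro p hp hl z hz heq
    have h1 := (hT.2 d p rfl hp (by simpa using hl)).2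
    apply h1
    unfold Rep vts
    intro hnd
    rw [List.nodup_cons, List.map_cons, List.nodup_cons] at hnd
    exact hnd.2.1 (heq ▸ List.mem_map_of_mem hz)
  intro p
  induction p using List.reverseRecOn with
  | nil =>
    intro q _ hq heq hl
    rcases List.eq_nil_or_concat q with h | ⟨q', b, h⟩
    · exact h.symm
    · exfalso
      rw [h, List.concat_eq_append, en_concat, en_nil] at heq
      refine hrep q hq (by omega) b ?_ heq.symm
      rw [h]; simp
  | append_singleton p a ih =>
    intro q hp hq heq hl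
    rcases List.eq_nil_or_concat q with h | ⟨q', b, h⟩
    · exfalso
      rw [h, en_concat, en_nil] at heq
      exact hrep (p ++ [a]) hp (by omega) a (by simp) heq
    · rw [List.concat_eq_append] at h
      rw [h, en_concat, en_concat] at heq
      by_cases hab : a = b
      · subst hab
        have e1 : en G d p = G.tl a := by
          rcases List.eq_nil_or_concat p with h1 | ⟨p', a', h1⟩
          · subst h1
            rw [en_nil]
            exact (tl_head G hp).symm
          · rw [List.concat_eq_append] at h1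
            rw [h1, en_concat]
            rw [h1] at hp
            have : ([a', a] : List (E × Bool)).IsChain G.Nx := by
              apply hp.suffix
              exact ⟨d :: p', by simp⟩
            rw [List.isChain_pair] at this
            exact this.1.symm
        have e2 : en G d q' = G.tl a := by
          rcases List.eq_nil_or_concat q' with h1 | ⟨p', a', h1⟩
          · rw [h1] at h ⊢
            rw [h] at hq
            rw [en_nil]
            exact (tl_head G hq).symm
          · rw [List.concat_eq_append] at h1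
            rw [h1, en_concat]
            rw [h, h1] at hq
            have : ([a', a] : List (E × Bool)).IsChain G.Nx := by
              apply hq.suffix
              exact ⟨d :: p', by simp⟩
            rw [List.isChain_pair] at this
            exact this.1.symm
        rw [h]
        congr 1
        apply ih q'
        · exact cc_chain_pre hp ⟨[a], by simp⟩
        · rw [h] at hq
          exact cc_chain_pre hq ⟨[a], by simp⟩
        · rw [e1, e2]
        · rw [h] at hl
          simp only [List.length_append, List.length_singleton] at hl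
          omega
      · exfalso
        -- the walk `d, p, a, rv b, ...`
        have hq' : q ≠ [] := by rw [h]; simp
        obtain ⟨f, q₁, hf⟩ := List.exists_cons_of_ne_nil hq'
        have hfd : G.tl f = G.hd d := by
          rw [hf] at hq
          exact tl_head G hq
        have hchain : (d :: ((p ++ [a]) ++ rvl q)).IsChain G.Nx := by
          have : d :: ((p ++ [a]) ++ rvl q) = (d :: (p ++ [a])) ++ rvl q := by simp
          rw [this, List.isChain_append]
          refine ⟨hp, ?_, ?_⟩
          · apply rvl_chain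
            exact hq.tail
          · intro x hx y hy
            rw [h, rvl_concat] at hy
            have hx' : x = a := by
              have : (d :: (p ++ [a])).getLast? = some a := by
                rw [← List.cons_append]
                exact List.getLast?_concat
              rw [this] at hx
              exact (Option.some_injective _ (Option.mem_def.1 hx)).symm
            have hy' : y = rv b := by
              simp only [List.head?_cons] at hy
              exact (Option.some_injective _ (Option.mem_def.1 hy)).symm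
            rw [hx', hy']
            refine ⟨?_, ?_⟩
            · rw [tl_rv, heq]
            · intro hcon
              apply hab
              rw [← rv_rv a, ← hcon, rv_rv]
        refine hrep _ hchain ?_ (rv f) ?_ ?_
        · simp only [List.length_append, rvl_length, List.length_singleton] at hl ⊢
          omega
        · rw [List.mem_append]
          right
          rw [mem_rvl, rv_rv, hf]
          simp
        · rw [hd_rv, hfd]

/-! ### counting walks -/

/-- lists `p` of length `k` such that `x :: p` is a walk -/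
noncomputable def ext : ℕ → (E × Bool) → Finset (List (E × Bool))
  | 0, _ => {[]}
  | k + 1, x => (univ.filter (fun y => G.Nx x y)).biUnion (fun y => (ext k y).image (List.cons y))

theorem mem_ext (k : ℕ) : ∀ (x : E × Bool) (p : List (E × Bool)),
    p ∈ ext G k x → p.length = k ∧ (x :: p).IsChain G.Nx := by
  induction k with
  | zero =>
    intro x p hp
    unfold ext at hp
    rw [mem_singleton] at hp
    subst hp
    exact ⟨rfl, List.isChain_singleton x⟩
  | succ k ih =>
    intro x p hp
    unfold ext at hp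
    rw [mem_biUnion] at hp
    obtain ⟨y, hy, hp⟩ := hp
    rw [mem_image] at hp
    obtain ⟨q, hq, rfl⟩ := hp
    obtain ⟨h1, h2⟩ := ih y q hq
    refine ⟨by simp [h1], ?_⟩
    rw [List.isChain_cons_cons]
    exact ⟨(mem_filter.1 hy).2, h2⟩

theorem card_ext (hG : G.Good) (k : ℕ) : ∀ x : E × Bool, (ext G k x).card = 2 ^ k := by
  induction k with
  | zero => intro x; unfold ext; simp
  | succ k ih =>
    intro x
    unfold ext
    rw [card_biUnion]
    · rw [sum_congr rfl (fun y _ => by
        rw [card_image_of_injective _ (List.cons_injective), ih y])]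
      rw [sum_const, G.card_succ hG x, pow_succ]
      ring
    · intro y _ y' _ hne
      rw [Function.onFun, disjoint_left]
      intro l hl hl'
      rw [mem_image] at hl hl'
      obtain ⟨q, _, rfl⟩ := hl
      obtain ⟨q', _, hq'⟩ := hl'
      exact hne (List.cons.inj hq').1.symm

/-- first hit of the set `U` by a walk starting with the darts `d, e₁`. -/
theorem hit (hG : G.Good) {A : Finset V} {L : ℕ} (d e₁ : E × Bool) (hde : G.Nx d e₁)
    (hT : G.Tame A L (G.tl d)) (U : V → Prop) (φ : V → ZMod 2)
    (hφ : ∀ x : E × Bool, ¬ U (G.tl x) → φ (G.hd x) = φ (G.tl x)) (hU : ¬ U (G.hd d))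
    (h1 : φ (G.hd d) = 1) (L₀ : ℕ) (h0 : 1 ≤ L₀) (hL : 2 * L₀ + 1 ≤ L)
    (hS : (A.filter (fun v => φ v = 1)).card < 2 ^ (L₀ - 1)) :
    ∃ p : List (E × Bool), (d :: e₁ :: p).IsChain G.Nx ∧ p.length + 1 ≤ L₀ ∧ U (en G e₁ p) ∧
      ∀ z ∈ e₁ :: p, ¬ U (G.tl z) := by
  by_contra hcon
  push Not at hcon
  have htl : G.tl e₁ = G.hd d := hde.1
  have key : ∀ p : List (E × Bool), (d :: e₁ :: p).IsChain G.Nx → p.length + 1 ≤ L₀ →
      (∀ z ∈ e₁ :: p, ¬ U (G.tl z)) ∧ ¬ U (en G e₁ p) ∧ φ (en G e₁ p) = 1 := by
    intro p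
    induction p using List.reverseRecOn with
    | nil =>
      intro hc hl
      have ha : ∀ z ∈ [e₁], ¬ U (G.tl z) := by
        intro z hz
        rw [List.mem_singleton] at hz
        rw [hz, htl]; exact hU
      have hb : ¬ U (en G e₁ []) := by
        intro h
        obtain ⟨z, hz, hz'⟩ := hcon [] hc hl h
        exact ha z hz hz'
      refine ⟨ha, hb, ?_⟩
      rw [en_nil, hφ e₁ (by rw [htl]; exact hU), htl, h1]
    | append_singleton p a ih =>
      intro hc hl
      have hc' : (d :: e₁ :: p).IsChain G.Nx := cc_chain_pre hc ⟨[a], by simp⟩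
      simp only [List.length_append, List.length_singleton] at hl
      obtain ⟨i1, i2, i3⟩ := ih hc' (by omega)
      have hta : G.tl a = en G e₁ p := by
        rcases List.eq_nil_or_concat p with h | ⟨p', a', h⟩
        · subst h
          rw [en_nil]
          exact tl_head G (hc.tail)
        · rw [List.concat_eq_append] at h
          rw [h, en_concat]
          rw [h] at hc
          have : ([a', a] : List (E × Bool)).IsChain G.Nx := by
            apply hc.suffix
            exact ⟨d :: e₁ :: p', by simp⟩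
          rw [List.isChain_pair] at this
          exact this.1
      have ha : ∀ z ∈ e₁ :: (p ++ [a]), ¬ U (G.tl z) := by
        intro z hz
        rw [← List.cons_append, List.mem_append, List.mem_singleton] at hz
        rcases hz with hz | hz
        · exact i1 z hz
        · rw [hz, hta]; exact i2
      have hb : ¬ U (en G e₁ (p ++ [a])) := by
        intro h
        obtain ⟨z, hz, hz'⟩ := hcon (p ++ [a]) hc (by simpa using hl) h
        exact ha z hz hz'
      refine ⟨ha, hb, ?_⟩
      rw [en_concat, hφ a (by rw [hta]; exact i2), hta, i3]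
  have hle : (ext G (L₀ - 1) e₁).card ≤ (A.filter (fun v => φ v = 1)).card := by
    apply card_le_card_of_injOn (fun p => en G e₁ p)
    · intro p hp
      obtain ⟨hl, hc⟩ := mem_ext G _ _ _ (mem_coe.1 hp)
      have hc' : (d :: e₁ :: p).IsChain G.Nx := by
        rw [List.isChain_cons_cons]; exact ⟨hde, hc⟩
      rw [mem_coe, mem_filter]
      refine ⟨?_, (key p hc' (by omega)).2.2⟩
      have hm : (e₁ :: p).getLast (by simp) ∈ G.Om A := by
        apply (hT.2 d (e₁ :: p) rfl hc' ?_).1
        · exact List.mem_cons_of_mem _ (List.getLast_mem _)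
        · simp only [List.length_cons]; omega
      have hmem : ∀ y : E × Bool, y ∈ G.Om A → G.hd y ∈ A := by
        intro y hy
        unfold Om inn at hy
        simp only [mem_filter, mem_univ, true_and] at hy
        unfold hd
        split_ifs
        · exact hy.1
        · exact hy.2
      exact hmem _ hm
    · intro p hp q hq hpq
      obtain ⟨hl, hc⟩ := mem_ext G _ _ _ (mem_coe.1 hp)
      obtain ⟨hl', hc'⟩ := mem_ext G _ _ _ (mem_coe.1 hq)
      have h2 : (d :: e₁ :: p).IsChain G.Nx := by
        rw [List.isChain_cons_cons]; exact ⟨hde, hc⟩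
      have h3 : (d :: e₁ :: q).IsChain G.Nx := by
        rw [List.isChain_cons_cons]; exact ⟨hde, hc'⟩
      have := uniq G d hT (e₁ :: p) (e₁ :: q) h2 h3 (by rw [en_cons, en_cons]; exact hpq)
        (by simp only [List.length_cons]; omega)
      exact (List.cons.inj this).2
  rw [card_ext G hG] at hle
  omega

/-- a chord path from a list -/
theorem chord_of_list {c : E → ZMod 2} {ρ : ℕ} (l : List (E × Bool)) (hl : l ≠ [])
    (hch : l.IsChain G.Nx) (h0 : ∀ y ∈ l, c y.1 = 0) (hlen : l.length ≤ ρ)
    (h1 : G.On c (G.tl (l.head hl))) (h2 : G.On c (G.hd (l.getLast hl)))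
    (h3 : G.tl (l.head hl) ≠ G.hd (l.getLast hl)) : G.Chord c ρ := by
  cases l with
  | nil => exact (hl rfl).elim
  | cons x p => exact ⟨x, p, hch, h0, hlen, h1, h2, h3⟩

/-- the branching argument -/
theorem branch (hG : G.Good) {A : Finset V} (M L₀ L ρ : ℕ)
    (h0 : 1 ≤ L₀) (hL : 2 * L₀ + 4 ≤ L) (hρ : 2 * L₀ + 2 ≤ ρ)
    {c c' : E → ZMod 2} (hc : G.Fine A M L ρ c) (hc' : G.Fine A M L ρ c')
    (hd : c = c' ∨ ∀ v, ¬ (G.On c v ∧ G.On c' v)) (φ : V → ZMod 2)
    (hφ : ∀ e, G.d φ e = 1 → c e = 1 ∨ c' e = 1)
    (hS : (A.filter (fun v => φ v = 1)).card < 2 ^ (L₀ - 1)) (d : E × Bool)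
    (hx : G.On c (G.tl d)) (hx1 : φ (G.tl d) = 1) (hcd : c d.1 = 0) :
    ¬ G.On c (G.hd d) ∧ G.On c' (G.hd d) ∧ φ (G.hd d) = 1 ∧ c' d.1 = 0 := by
  have hlen1 : 1 ≤ ρ := by omega
  have hne := tl_ne_hd G hG d
  have n1 : ¬ G.On c (G.hd d) := by
    intro h
    exact hc.chord ⟨d, [], List.isChain_singleton d, by simpa using hcd, by simpa using hlen1,
      hx, h, hne⟩
  -- the edge `d` is not in `c'`
  have hc'd : c' d.1 = 0 := by
    rcases zmod_two (c' d.1) with h | h
    · exact h
    · exfalso
      rcases hd with rfl | hd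
      · rw [hcd] at h; exact zero_ne_one h
      · exact hd _ ⟨hx, on_tl G h⟩
  have hconst : ∀ x : E × Bool, c x.1 = 0 → c' x.1 = 0 → φ (G.hd x) = φ (G.tl x) := by
    intro x h h'
    have : G.d φ x.1 = 0 := by
      rcases zmod_two (G.d φ x.1) with h2 | h2
      · exact h2
      · exfalso
        rcases hφ _ h2 with h3 | h3
        · rw [h] at h3; exact zero_ne_one h3
        · rw [h'] at h3; exact zero_ne_one h3
    unfold MG.d at this
    obtain ⟨e, b⟩ := x
    have h5 : φ (G.s e) = φ (G.t e) := by
      have : φ (G.s e) + φ (G.t e) = 0 := this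
      exact CharTwo.add_eq_zero.1 this
    cases b
    · exact h5.symm
    · exact h5
  have hφd : φ (G.hd d) = 1 := by rw [hconst d hcd hc'd, hx1]
  refine ⟨n1, ?_, hφd, hc'd⟩
  by_contra n2
  -- both successors of `d` lead to `U`
  set U : V → Prop := fun v => G.On c v ∨ G.On c' v with hUdef
  have hUd : ¬ U (G.hd d) := by
    rintro (h | h)
    · exact n1 h
    · exact n2 h
  have hφU : ∀ x : E × Bool, ¬ U (G.tl x) → φ (G.hd x) = φ (G.tl x) := by
    intro x hx
    apply hconst
    · rcases zmod_two (c x.1) with h | h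
      · exact h
      · exact (hx (Or.inl (on_tl G h))).elim
    · rcases zmod_two (c' x.1) with h | h
      · exact h
      · exact (hx (Or.inr (on_tl G h))).elim
  have hsucc := G.card_succ hG d
  rw [card_eq_two] at hsucc
  obtain ⟨e₁, e₂, hne12, hs⟩ := hsucc
  have hs1 : G.Nx d e₁ := by
    have : e₁ ∈ univ.filter (fun y => G.Nx d y) := by rw [hs]; simp
    exact (mem_filter.1 this).2
  have hs2 : G.Nx d e₂ := by
    have : e₂ ∈ univ.filter (fun y => G.Nx d y) := by rw [hs]; simp
    exact (mem_filter.1 this).2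
  have hT := hc.tame _ hx
  obtain ⟨p₁, c1, l1, u1, t1⟩ := hit G hG d e₁ hs1 hT U φ hφU hUd hφd L₀ h0 (by omega) hS
  obtain ⟨p₂, c2, l2, u2, t2⟩ := hit G hG d e₂ hs2 hT U φ hφU hUd hφd L₀ h0 (by omega) hS
  have hcase : ∀ (e : E × Bool) (p : List (E × Bool)), (d :: e :: p).IsChain G.Nx →
      p.length + 1 ≤ L₀ → (∀ z ∈ e :: p, ¬ U (G.tl z)) → ¬ G.On c (en G e p) := by
    intro e p hch hl ht hon
    apply hc.chord
    refine ⟨d, e :: p, hch, ?_, ?_, hx, ?_, ?_⟩
    · intro y hy
      rw [List.mem_cons] at hy
      rcases hy with hy | hy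
      · rw [hy]; exact hcd
      · rcases zmod_two (c y.1) with h | h
        · exact h
        · exact (ht y hy (Or.inl (on_tl G h))).elim
    · simp only [List.length_cons]; omega
    · have := hon
      unfold en at this
      rw [List.getLast_cons (by simp)]
      exact this
    · intro heq
      have hrep := (hT.2 d (e :: p) rfl hch (by simp only [List.length_cons]; omega)).2
      apply hrep
      unfold Rep vts
      intro hnd
      rw [List.nodup_cons] at hnd
      apply hnd.1
      rw [heq]
      exact List.mem_map_of_mem (List.getLast_mem _)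
  have v1 : G.On c' (en G e₁ p₁) := by
    rcases u1 with h | h
    · exact (hcase e₁ p₁ c1 l1 t1 h).elim
    · exact h
  have v2 : G.On c' (en G e₂ p₂) := by
    rcases u2 with h | h
    · exact (hcase e₂ p₂ c2 l2 t2 h).elim
    · exact h
  apply hc'.chord
  have hne1 : rvl (e₁ :: p₁) ++ (e₂ :: p₂) ≠ [] := by simp
  have hhead : (rvl (e₁ :: p₁) ++ (e₂ :: p₂)).head hne1 =
      rv ((e₁ :: p₁).getLast (by simp)) := by
    have h1 : rvl (e₁ :: p₁) ≠ [] := by
      intro h
      have := rvl_length (e₁ :: p₁)
      rw [h] at this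
      simp at this
    rw [List.head_append_of_ne_nil h1]
    exact rvl_head _ h1 _
  have hlast : (rvl (e₁ :: p₁) ++ (e₂ :: p₂)).getLast hne1 = (e₂ :: p₂).getLast (by simp) := by
    rw [List.getLast_append_of_ne_nil _ (by simp)]
  refine chord_of_list G _ hne1 ?_ ?_ ?_ ?_ ?_ ?_
  · rw [List.isChain_append]
    refine ⟨rvl_chain G c1.tail, c2.tail, ?_⟩
    intro x hx y hy
    rw [rvl_cons] at hx
    have hx' : x = rv e₁ := by
      rw [List.getLast?_concat] at hx
      exact (Option.some_injective _ (Option.mem_def.1 hx)).symm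
    have hy' : y = e₂ := by
      simp only [List.head?_cons] at hy
      exact (Option.some_injective _ (Option.mem_def.1 hy)).symm
    rw [hx', hy']
    refine ⟨?_, ?_⟩
    · rw [hd_rv, hs1.1, hs2.1]
    · rw [rv_rv]; exact hne12.symm
  · intro y hy
    rw [List.mem_append] at hy
    rcases zmod_two (c' y.1) with h | h
    · exact h
    · exfalso
      rcases hy with hy | hy
      · rw [mem_rvl] at hy
        exact t1 _ hy (Or.inr (on_tl G (x := rv y) h))
      · exact t2 _ hy (Or.inr (on_tl G h))
  · rw [List.length_append, rvl_length]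
    simp only [List.length_cons]; omega
  · rw [hhead, tl_rv]; exact v1
  · rw [hlast]; exact v2
  · rw [hhead, hlast, tl_rv]
    intro heq
    have := uniq G d hT (e₁ :: p₁) (e₂ :: p₂) c1 c2 (by rw [en_cons, en_cons]; exact heq)
      (by simp only [List.length_cons]; omega)
    exact hne12 (List.cons.inj this).1

/-- the small side of a cut inside two fine circuits is contained in them. -/
theorem supp_on (hG : G.Good) {A : Finset V} (M L₀ L ρ : ℕ)
    (h0 : 1 ≤ L₀) (hL : 2 * L₀ + 4 ≤ L) (hρ : 2 * L₀ + 2 ≤ ρ)
    {c c' : E → ZMod 2} (hc : G.Fine A M L ρ c) (hc' : G.Fine A M L ρ c')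
    (hd : c = c' ∨ ∀ v, ¬ (G.On c v ∧ G.On c' v)) (φ : V → ZMod 2)
    (hφ : ∀ e, G.d φ e = 1 → c e = 1 ∨ c' e = 1)
    (hS : (A.filter (fun v => φ v = 1)).card < 2 ^ (L₀ - 1)) (v : V) (hv : φ v = 1) :
    G.On c v ∨ G.On c' v := by
  set ψ : V → ZMod 2 := fun v => if (¬ (G.On c v ∨ G.On c' v)) then φ v else 0 with hψ
  have hd' : c' = c ∨ ∀ v, ¬ (G.On c' v ∧ G.On c v) := by
    rcases hd with h | h
    · exact Or.inl h.symm
    · exact Or.inr (fun v h' => h v ⟨h'.2, h'.1⟩)
  have hφ' : ∀ e, G.d φ e = 1 → c' e = 1 ∨ c e = 1 := fun e he => (hφ e he).symm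
  -- a dart from `U` to the outside
  have hout : ∀ x : E × Bool, (G.On c (G.tl x) ∨ G.On c' (G.tl x)) →
      ¬ (G.On c (G.hd x) ∨ G.On c' (G.hd x)) → φ (G.hd x) = 0 := by
    intro x h1 h2
    rcases zmod_two (φ (G.hd x)) with h | h
    · exact h
    · exfalso
      have hcx : c x.1 = 0 := by
        rcases zmod_two (c x.1) with h' | h'
        · exact h'
        · exact (h2 (Or.inl (on_hd G h'))).elim
      have hc'x : c' x.1 = 0 := by
        rcases zmod_two (c' x.1) with h' | h'
        · exact h'
        · exact (h2 (Or.inr (on_hd G h'))).elim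
      have h3 : φ (G.tl x) = 1 := by
        have : G.d φ x.1 = 0 := by
          rcases zmod_two (G.d φ x.1) with h2 | h2
          · exact h2
          · exfalso
            rcases hφ _ h2 with h3 | h3
            · rw [hcx] at h3; exact zero_ne_one h3
            · rw [hc'x] at h3; exact zero_ne_one h3
        unfold MG.d at this
        obtain ⟨e, b⟩ := x
        have h5 : φ (G.s e) = φ (G.t e) := by
          have : φ (G.s e) + φ (G.t e) = 0 := this
          exact CharTwo.add_eq_zero.1 this
        cases b
        · exact h5.trans h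
        · exact h5.symm.trans h
      rcases h1 with h1 | h1
      · exact h2 (Or.inr (branch G hG M L₀ L ρ h0 hL hρ hc hc' hd φ hφ hS x h1 h3 hcx).2.1)
      · exact h2 (Or.inl (branch G hG M L₀ L ρ h0 hL hρ hc' hc hd' φ hφ' hS x h1 h3 hc'x).2.1)
  have hψc : ∀ e, ψ (G.s e) = ψ (G.t e) := by
    intro e
    rw [hψ]
    by_cases hs : G.On c (G.s e) ∨ G.On c' (G.s e)
    · by_cases ht : G.On c (G.t e) ∨ G.On c' (G.t e)
      · simp only [if_neg (not_not.2 hs), if_neg (not_not.2 ht)]
      · simp only [if_neg (not_not.2 hs), if_pos ht]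
        exact (hout (e, false) hs ht).symm
    · by_cases ht : G.On c (G.t e) ∨ G.On c' (G.t e)
      · simp only [if_pos hs, if_neg (not_not.2 ht)]
        exact hout (e, true) ht hs
      · simp only [if_pos hs, if_pos ht]
        have hcx : c e = 0 := by
          rcases zmod_two (c e) with h' | h'
          · exact h'
          · exact (ht (Or.inl (on_hd G (x := (e, false)) h'))).elim
        have hc'x : c' e = 0 := by
          rcases zmod_two (c' e) with h' | h'
          · exact h'
          · exact (ht (Or.inr (on_hd G (x := (e, false)) h'))).elim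
        have : G.d φ e = 0 := by
          rcases zmod_two (G.d φ e) with h2 | h2
          · exact h2
          · exfalso
            rcases hφ _ h2 with h3 | h3
            · rw [hcx] at h3; exact zero_ne_one h3
            · rw [hc'x] at h3; exact zero_ne_one h3
        exact CharTwo.add_eq_zero.1 this
  have hall := hG.conn ψ hψc
  -- `c` has a vertex
  obtain ⟨u, hu⟩ : ∃ u, G.On c u := by
    have : ∃ e, c e = 1 := by
      by_contra h
      push Not at h
      apply hc.circ.2.1
      funext e
      rcases zmod_two (c e) with h' | h'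
      · exact h'
      · exact (h e h').elim
    obtain ⟨e, he⟩ := this
    exact ⟨_, e, he, Or.inl rfl⟩
  by_contra hcon
  have h1 : ψ v = 1 := by
    rw [hψ]
    simp only [if_pos hcon]
    exact hv
  have h2 : ψ u = 0 := by
    rw [hψ]
    simp only [if_neg (not_not.2 (Or.inl hu : G.On c u ∨ G.On c' u))]
  rw [hall v u, h2] at h1
  exact zero_ne_one h1

/-- choice of the small side -/
theorem small_side (hG : G.Good) {A : Finset V} (hA : G.MinSparse A) (M L₀ : ℕ)
    (h0 : 196 * M ^ 2 < 2 ^ (L₀ - 1)) {c c' : E → ZMod 2} (hc : len c ≤ M) (hc' : len c' ≤ M)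
    (hi : In c (G.inn A)) (hi' : In c' (G.inn A)) (f : E → ZMod 2) (hf : G.Cut f)
    (hfc : ∀ e, f e = 1 → c e = 1 ∨ c' e = 1) :
    ∃ φ : V → ZMod 2, f = G.d φ ∧ (A.filter (fun v => φ v = 1)).card < 2 ^ (L₀ - 1) := by
  obtain ⟨φ, rfl⟩ := hf
  set B : Finset V := univ.filter (fun v => φ v = 1) with hB
  have hdel : ∀ e, e ∈ G.del B → G.d φ e = 1 := by
    intro e he
    unfold del at he
    simp only [hB, mem_filter, mem_univ, true_and] at he
    unfold MG.d
    rcases he with ⟨h1, h2⟩ | ⟨h1, h2⟩
    · rcases zmod_two (φ (G.t e)) with h3 | h3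
      · rw [h1, h3, add_zero]
      · exact (h2 h3).elim
    · rcases zmod_two (φ (G.s e)) with h3 | h3
      · rw [h2, h3, zero_add]
      · exact (h1 h3).elim
  have hsub : G.del B ⊆ G.inn A := by
    intro e he
    rcases hfc e (hdel e he) with h | h
    · exact hi e h
    · exact hi' e h
  have hcard : (G.del B).card ≤ 2 * M := by
    calc (G.del B).card ≤ (univ.filter (fun e => c e = 1) ∪ univ.filter (fun e => c' e = 1)).card := by
          apply card_le_card
          intro e he
          rw [mem_union, mem_filter, mem_filter]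
          rcases hfc e (hdel e he) with h | h
          · exact Or.inl ⟨mem_univ _, h⟩
          · exact Or.inr ⟨mem_univ _, h⟩
      _ ≤ len c + len c' := card_union_le _ _
      _ ≤ 2 * M := by omega
  have hsq : 49 * (G.del B).card ^ 2 ≤ 196 * M ^ 2 := by
    calc 49 * (G.del B).card ^ 2 ≤ 49 * (2 * M) ^ 2 :=
          Nat.mul_le_mul_left _ (Nat.pow_le_pow_left hcard 2)
      _ = 196 * M ^ 2 := by ring
  rcases MinSparse.iso G hG hA B hsub with h | h
  · refine ⟨φ, rfl, ?_⟩
    have : A.filter (fun v => φ v = 1) = A ∩ B := by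
      ext v; simp [hB]
    rw [this]
    omega
  · refine ⟨fun v => φ v + 1, ?_, ?_⟩
    · funext e
      unfold MG.d
      have h2 : (1 : ZMod 2) + 1 = 0 := by decide
      calc φ (G.s e) + φ (G.t e) = φ (G.s e) + φ (G.t e) + (1 + 1) := by rw [h2, add_zero]
        _ = (φ (G.s e) + 1) + (φ (G.t e) + 1) := by ring
    · have : A.filter (fun v => φ v + 1 = 1) = A \ B := by
        ext v
        simp only [mem_filter, mem_sdiff, hB, mem_univ, true_and, add_eq_right]
        constructor
        · rintro ⟨h1, h2⟩
          refine ⟨h1, ?_⟩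
          rw [h2]; exact zero_ne_one
        · rintro ⟨h1, h2⟩
          refine ⟨h1, ?_⟩
          rcases zmod_two (φ v) with h3 | h3
          · exact h3
          · exact (h2 h3).elim
      rw [this]
      omega

theorem one_le_of {M L₀ : ℕ} (h0 : 196 * M ^ 2 < 2 ^ (L₀ - 1)) (hM : 1 ≤ M) : 1 ≤ L₀ := by
  by_contra h
  have : L₀ = 0 := by omega
  subst this
  have : 1 ≤ M ^ 2 := Nat.one_le_pow _ _ hM
  simp at h0
  omega

end CutC

theorem cut_single (hG : G.Good) {A : Finset V} (hA : G.MinSparse A) (M L₀ L ρ : ℕ)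
    (h0 : 196 * M ^ 2 < 2 ^ (L₀ - 1)) (hL : 2 * L₀ + 4 ≤ L) (hρ : 2 * L₀ + 2 ≤ ρ)
    (hn : 392 * M ^ 2 < A.card) {c : E → ZMod 2} (hc : G.Fine A M L ρ c)
    (f : E → ZMod 2) (hf : G.Cut f) (hfc : Le f c) : f = 0 := by
  have hM : 1 ≤ M := by
    refine le_trans ?_ hc.len_le
    by_contra h
    apply hc.circ.2.1
    funext e
    rcases CutC.zmod_two (c e) with h' | h'
    · exact h'
    · exfalso
      apply h
      unfold len
      exact card_pos.2 ⟨e, by simp [h']⟩
  have hL0 : 1 ≤ L₀ := CutC.one_le_of h0 hM
  obtain ⟨φ, rfl, hS⟩ := CutC.small_side G hG hA M L₀ h0 hc.len_le hc.len_le hc.inn hc.inn f hf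
    (fun e he => Or.inl (hfc e he))
  have hφ : ∀ e, G.d φ e = 1 → c e = 1 ∨ c e = 1 := fun e he => Or.inl (hfc e he)
  have hz : ∀ v, φ v = 0 := by
    intro v
    rcases CutC.zmod_two (φ v) with h | h
    · exact h
    · exfalso
      have hv := CutC.supp_on G hG M L₀ L ρ hL0 hL hρ hc hc (Or.inl rfl) φ hφ hS v h
      rw [or_self] at hv
      obtain ⟨x, hx0, hxv⟩ := CutC.third_exists G hG hc.circ hv
      subst hxv
      have := CutC.branch G hG M L₀ L ρ hL0 hL hρ hc hc (Or.inl rfl) φ hφ hS x hv h hx0
      exact this.1 this.2.1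
  funext e
  unfold MG.d
  rw [hz, hz]
  rfl

theorem cut_pair (hG : G.Good) {A : Finset V} (hA : G.MinSparse A) (M L₀ L ρ : ℕ)
    (h0 : 196 * M ^ 2 < 2 ^ (L₀ - 1)) (hL : 2 * L₀ + 4 ≤ L) (hρ : 2 * L₀ + 2 ≤ ρ)
    (hn : 392 * M ^ 2 < A.card) {c c' : E → ZMod 2} (hc : G.Fine A M L ρ c)
    (hc' : G.Fine A M L ρ c') (hd : ∀ v, ¬ (G.On c v ∧ G.On c' v)) :
    (univ.filter (fun f : E → ZMod 2 => G.Cut f ∧ Le f (c + c'))).card ≤
      2 ^ (G.joins c c').card := by
  have hM : 1 ≤ M := by
    refine le_trans ?_ hc.len_le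
    by_contra h
    apply hc.circ.2.1
    funext e
    rcases CutC.zmod_two (c e) with h' | h'
    · exact h'
    · exfalso
      apply h
      unfold len
      exact card_pos.2 ⟨e, by simp [h']⟩
  have hL0 : 1 ≤ L₀ := CutC.one_le_of h0 hM
  have hd' : ∀ v, ¬ (G.On c' v ∧ G.On c v) := fun v h => hd v ⟨h.2, h.1⟩
  have hsupp : ∀ f : E → ZMod 2, Le f (c + c') → ∀ e, f e = 1 → c e = 1 ∨ c' e = 1 := by
    intro f hf e he
    have := hf e he
    rcases CutC.zmod_two (c e) with h | h
    · right
      rw [Pi.add_apply, h, zero_add] at this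
      exact this
    · exact Or.inl h
  have hex : ∀ f : E → ZMod 2, (G.Cut f ∧ Le f (c + c')) → ∃ φ : V → ZMod 2, f = G.d φ ∧
      (A.filter (fun v => φ v = 1)).card < 2 ^ (L₀ - 1) := by
    intro f hf
    exact CutC.small_side G hG hA M L₀ h0 hc.len_le hc'.len_le hc.inn hc'.inn f hf.1
      (hsupp f hf.2)
  choose! Φ hΦ hΦS using hex
  rw [← card_powerset]
  apply card_le_card_of_injOn (fun f => (G.joins c c').filter (fun e => Φ f (G.s e) = 1))
  · intro f _
    rw [mem_coe, mem_powerset]
    exact filter_subset _ _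
  · -- injectivity
    have key : ∀ f g : E → ZMod 2, (G.Cut f ∧ Le f (c + c')) → (G.Cut g ∧ Le g (c + c')) →
        (G.joins c c').filter (fun e => Φ f (G.s e) = 1) =
          (G.joins c c').filter (fun e => Φ g (G.s e) = 1) → ∀ v, Φ f v = 1 → Φ g v = 1 := by
      intro f g hf hg hfg v hv
      have hφ : ∀ e, G.d (Φ f) e = 1 → c e = 1 ∨ c' e = 1 := by
        rw [← hΦ f hf]; exact hsupp f hf.2
      have hφg : ∀ e, G.d (Φ g) e = 1 → c e = 1 ∨ c' e = 1 := by
        rw [← hΦ g hg]; exact hsupp g hg.2
      have hon := CutC.supp_on G hG M L₀ L ρ hL0 hL hρ hc hc' (Or.inr hd) (Φ f) hφ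
        (hΦS f hf) v hv
      -- the third dart
      obtain ⟨x, hxv, hx1, hx2, hx3, hx4⟩ : ∃ x : E × Bool, G.tl x = v ∧ c x.1 = 0 ∧ c' x.1 = 0 ∧
          Φ f (G.hd x) = 1 ∧ x.1 ∈ G.joins c c' := by
        rcases hon with hon | hon
        · obtain ⟨x, hx0, hxv⟩ := CutC.third_exists G hG hc.circ hon
          subst hxv
          have hb := CutC.branch G hG M L₀ L ρ hL0 hL hρ hc hc' (Or.inr hd) (Φ f) hφ
            (hΦS f hf) x hon hv hx0
          refine ⟨x, rfl, hx0, hb.2.2.2, hb.2.2.1, ?_⟩
          unfold joins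
          rw [mem_filter]
          refine ⟨mem_univ _, hx0, hb.2.2.2, ?_⟩
          obtain ⟨e, b⟩ := x
          cases b
          · exact Or.inl ⟨hon, hb.2.1⟩
          · exact Or.inr ⟨hb.2.1, hon⟩
        · obtain ⟨x, hx0, hxv⟩ := CutC.third_exists G hG hc'.circ hon
          subst hxv
          have hb := CutC.branch G hG M L₀ L ρ hL0 hL hρ hc' hc (Or.inr hd') (Φ f)
            (fun e he => (hφ e he).symm) (hΦS f hf) x hon hv hx0
          refine ⟨x, rfl, hb.2.2.2, hx0, hb.2.2.1, ?_⟩
          unfold joins
          rw [mem_filter]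
          refine ⟨mem_univ _, hb.2.2.2, hx0, ?_⟩
          obtain ⟨e, b⟩ := x
          cases b
          · exact Or.inr ⟨hon, hb.2.1⟩
          · exact Or.inl ⟨hb.2.1, hon⟩
      have hs : Φ f (G.s x.1) = 1 := by
        obtain ⟨e, b⟩ := x
        cases b
        · have : G.tl (e, false) = G.s e := rfl
          rw [this] at hxv
          show Φ f (G.s e) = 1
          rw [hxv]; exact hv
        · exact hx3
      have hmem : x.1 ∈ (G.joins c c').filter (fun e => Φ f (G.s e) = 1) := by
        rw [mem_filter]; exact ⟨hx4, hs⟩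
      rw [hfg, mem_filter] at hmem
      have hg0 : G.d (Φ g) x.1 = 0 := by
        rcases CutC.zmod_two (G.d (Φ g) x.1) with h | h
        · exact h
        · exfalso
          rcases hφg _ h with h3 | h3
          · rw [hx1] at h3; exact zero_ne_one h3
          · rw [hx2] at h3; exact zero_ne_one h3
      have hst : Φ g (G.s x.1) = Φ g (G.t x.1) := CharTwo.add_eq_zero.1 hg0
      rw [← hxv]
      obtain ⟨e, b⟩ := x
      cases b
      · exact hmem.2
      · exact hst.symm.trans hmem.2
    intro f hf g hg hfg
    rw [mem_coe, mem_filter] at hf hg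
    have h1 : Φ f = Φ g := by
      funext v
      rcases CutC.zmod_two (Φ f v) with h | h
      · rcases CutC.zmod_two (Φ g v) with h' | h'
        · rw [h, h']
        · have := key g f hg.2 hf.2 hfg.symm v h'
          rw [this, h']
      · rw [h, key f g hf.2 hg.2 hfg v h]
    rw [hΦ f hf.2, hΦ g hg.2, h1]

namespace CutC

/-- a join, seen as a dart from `c'` to `c` -/
theorem join_dart {c c' : E → ZMod 2} {e : E} (he : e ∈ G.joins c c') :
    ∃ x : E × Bool, x.1 = e ∧ c x.1 = 0 ∧ c' x.1 = 0 ∧ G.On c' (G.tl x) ∧ G.On c (G.hd x) := by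
  unfold joins at he
  rw [mem_filter] at he
  obtain ⟨_, h1, h2, h | h⟩ := he
  · exact ⟨(e, true), rfl, h1, h2, h.2, h.1⟩
  · exact ⟨(e, false), rfl, h1, h2, h.1, h.2⟩

theorem cyc_tail {l : List (E × Bool)} (hch : l.IsChain G.Nx)
    (hcl : ∀ x ∈ l.head?, ∀ y ∈ l.getLast?, G.Nx y x) {z : E × Bool} (hz : z ∈ l) :
    ∃ y ∈ l, G.tl y = G.hd z := by
  obtain ⟨l₁, l₂, rfl⟩ := List.append_of_mem hz
  cases l₂ with
  | nil =>
    have hne : l₁ ++ [z] ≠ [] := by simp
    have h1 : (l₁ ++ [z]).getLast? = some z := List.getLast?_concat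
    have h2 : (l₁ ++ [z]).head? = some ((l₁ ++ [z]).head hne) := List.head?_eq_some_head hne
    refine ⟨(l₁ ++ [z]).head hne, List.head_mem hne, ?_⟩
    exact (hcl _ (by rw [h2]; rfl) z (by rw [h1]; rfl)).1
  | cons y l₂ =>
    refine ⟨y, by simp, ?_⟩
    have : (z :: y :: l₂).IsChain G.Nx := hch.suffix ⟨l₁, rfl⟩
    rw [List.isChain_cons_cons] at this
    exact this.1.1

end CutC

theorem joins_le (hG : G.Good) {A : Finset V} (M L ρ : ℕ) (hρ : 2 ≤ ρ) {c c' : E → ZMod 2}
    (hc : G.Fine A M L ρ c) (hc' : G.Fine A M L ρ c') (hd : ∀ v, ¬ (G.On c v ∧ G.On c' v)) :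
    (G.joins c c').card ≤ 1 + M / (ρ - 1) := by
  -- a closed walk around c'
  obtain ⟨x₀, hx₀⟩ : ∃ x : E × Bool, c' x.1 = 1 := by
    by_contra h
    push Not at h
    apply hc'.circ.2.1
    funext e
    rcases CutC.zmod_two (c' e) with h' | h'
    · exact h'
    · exact (h (e, true) h').elim
  obtain ⟨l, hl, _, hlc⟩ := G.scw_of_circ hG hc'.circ x₀ hx₀
  unfold scw at hl
  rw [mem_filter] at hl
  obtain ⟨hl, hnd⟩ := hl
  unfold cw at hl
  rw [mem_filter, mem_allL] at hl
  obtain ⟨hlen, hch, _, hcl⟩ := hl
  have hmem1 : ∀ z ∈ l, c' z.1 = 1 := by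
    intro z hz
    rw [← hlc]
    unfold chainOf
    rw [if_pos ⟨z.2, hz⟩]
  have hmem0 : ∀ z ∈ l, c z.1 = 0 := by
    intro z hz
    rcases CutC.zmod_two (c z.1) with h | h
    · exact h
    · exact (hd _ ⟨CutC.on_tl G h, CutC.on_tl G (hmem1 z hz)⟩).elim
  have hcov : ∀ v, G.On c' v → v ∈ l.map G.tl := by
    rintro v ⟨e, he, hv⟩
    rw [← hlc] at he
    unfold chainOf at he
    rw [ite_eq_left_iff] at he
    have : ∃ b, (e, b) ∈ l := by
      by_contra h
      exact zero_ne_one (he h)
    obtain ⟨b, hb⟩ := this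
    have hv' : G.tl (e, b) = v ∨ G.hd (e, b) = v := by
      cases b
      · exact hv
      · exact hv.symm
    rcases hv' with h | h
    · exact List.mem_map.2 ⟨_, hb, h⟩
    · obtain ⟨y, hy, hyt⟩ := CutC.cyc_tail G hch hcl hb
      exact List.mem_map.2 ⟨y, hy, hyt.trans h⟩
  -- darts of the joins
  have hjd : ∀ e, e ∈ G.joins c c' → ∃ x : E × Bool, x.1 = e ∧ c x.1 = 0 ∧ c' x.1 = 0 ∧
      G.On c' (G.tl x) ∧ G.On c (G.hd x) := fun e he => CutC.join_dart G he
  choose! a ha1 ha2 ha3 ha4 ha5 using hjd
  -- positions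
  have hpos : ∀ e, e ∈ G.joins c c' → ∃ i, ∃ h : i < l.length, G.tl (l[i]) = G.tl (a e) := by
    intro e he
    obtain ⟨z, hz, hz'⟩ := List.mem_map.1 (hcov _ (ha4 e he))
    obtain ⟨i, hi, hi'⟩ := List.getElem_of_mem hz
    exact ⟨i, hi, by rw [hi', hz']⟩
  choose! pos hpos1 hpos2 using hpos
  have hMl : l.length ≤ M := by rw [hlen]; exact hc'.len_le
  have main : ∀ e ∈ G.joins c c', ∀ e' ∈ G.joins c c', pos e < pos e' →
      pos e' - pos e + 2 ≤ ρ → False := by
    intro e he e' he' hlt hle
    have hi := hpos1 e he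
    have hj := hpos1 e' he'
    -- the middle part
    set m : List (E × Bool) := (l.drop (pos e)).take (pos e' - pos e) with hm
    have hmlen : m.length = pos e' - pos e := by
      rw [hm, List.length_take, List.length_drop]
      omega
    have hmne : m ≠ [] := by
      intro h
      rw [h] at hmlen
      simp only [List.length_nil] at hmlen
      omega
    have hmch : m.IsChain G.Nx := (hch.drop _).take _
    have hmsub : ∀ z ∈ m, z ∈ l := fun z hz => List.mem_of_mem_drop (List.mem_of_mem_take hz)
    have hhead : G.tl (m.head hmne) = G.tl (a e) := by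
      have : m.head hmne = l[pos e] := by
        rw [List.head_eq_getElem]
        simp [hm]
      rw [this]
      exact hpos2 e he
    have hlast : G.hd (m.getLast hmne) = G.tl (a e') := by
      have h1 : m.getLast hmne = l[pos e' - 1] := by
        rw [List.getLast_eq_getElem]
        simp only [hm, List.getElem_take, List.getElem_drop]
        congr 1
        rw [← hm, hmlen]
        omega
      have h2 : G.Nx (l[pos e' - 1]) (l[pos e' - 1 + 1]'(by omega)) := by
        rw [List.isChain_iff_getElem] at hch
        exact hch _ _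
      rw [h1, ← h2.1, ← hpos2 e' he']
      congr 1
      congr 1
      omega
    have hne1 : rv (a e) :: (m ++ [a e']) ≠ [] := by simp
    have hlast' : (rv (a e) :: (m ++ [a e'])).getLast hne1 = a e' := by
      rw [List.getLast_cons (by simp), List.getLast_concat]
    apply hc.chord
    refine CutC.chord_of_list G (rv (a e) :: (m ++ [a e'])) hne1 ?_ ?_ ?_ ?_ ?_ ?_
    · rw [List.isChain_cons, List.isChain_append]
      refine ⟨?_, hmch, List.isChain_singleton _, ?_⟩
      · intro y hy
        have : (m ++ [a e']).head? = some (m.head hmne) := by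
          rw [List.head?_append_of_ne_nil _ hmne, List.head?_eq_some_head hmne]
        rw [this] at hy
        have hy' := (Option.some_injective _ (Option.mem_def.1 hy)).symm
        rw [hy']
        refine ⟨?_, ?_⟩
        · rw [CutC.hd_rv, hhead]
        · rw [CutC.rv_rv]
          intro h
          have h1 := hmem1 _ (hmsub _ (List.head_mem hmne))
          rw [h, ha3 e he] at h1
          exact zero_ne_one h1
      · intro x hx y hy
        rw [List.getLast?_eq_some_getLast hmne] at hx
        have hx' := (Option.some_injective _ (Option.mem_def.1 hx)).symm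
        simp only [List.head?_cons] at hy
        have hy' := (Option.some_injective _ (Option.mem_def.1 hy)).symm
        rw [hx', hy']
        refine ⟨hlast.symm, ?_⟩
        intro h
        have h1 := hmem1 _ (hmsub _ (List.getLast_mem hmne))
        have h2 : c' (a e').1 = c' (m.getLast hmne).1 := by rw [h]; rfl
        rw [← h2, ha3 e' he'] at h1
        exact zero_ne_one h1
    · intro y hy
      rw [List.mem_cons, List.mem_append, List.mem_singleton] at hy
      rcases hy with hy | hy | hy
      · rw [hy]; exact ha2 e he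
      · exact hmem0 _ (hmsub _ hy)
      · rw [hy]; exact ha2 e' he'
    · simp only [List.length_cons, List.length_append, List.length_nil, hmlen]
      omega
    · rw [List.head_cons, CutC.tl_rv]; exact ha5 e he
    · rw [hlast']; exact ha5 e' he'
    · rw [hlast', List.head_cons, CutC.tl_rv]
      intro h
      have h1 := CutC.third_unique G hG hc.circ (ha5 e he) (x := rv (a e)) (y := rv (a e'))
        (ha2 e he) (CutC.tl_rv G _) (ha2 e' he') (by rw [CutC.tl_rv, ← h])
      have h2 : a e = a e' := by rw [← CutC.rv_rv (a e), h1, CutC.rv_rv]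
      have h3 : pos e = pos e' := by
        have h4 : (l.map G.tl)[pos e]'(by simpa using hi) =
            (l.map G.tl)[pos e']'(by simpa using hj) := by
          rw [List.getElem_map, List.getElem_map, hpos2 e he, hpos2 e' he', h2]
        exact (List.Nodup.getElem_inj_iff hnd).1 h4
      omega
  -- pigeonhole
  have hinj : ∀ e ∈ G.joins c c', ∀ e' ∈ G.joins c c', pos e = pos e' → e = e' := by
    intro e he e' he' h
    have h1 : G.tl (a e) = G.tl (a e') := by
      rw [← hpos2 e he, ← hpos2 e' he']
      congr 1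
      simp only [h]
    have h2 := CutC.third_unique G hG hc'.circ (ha4 e he) (ha3 e he) rfl (ha3 e' he') h1.symm
    rw [← ha1 e he, ← ha1 e' he', h2]
  have hcard : (G.joins c c').card ≤ (range (1 + M / (ρ - 1))).card := by
    apply card_le_card_of_injOn (fun e => pos e / (ρ - 1))
    · intro e he
      rw [mem_coe, mem_range]
      have h1 : pos e ≤ M := le_trans (hpos1 e he).le hMl
      have h2 : pos e / (ρ - 1) ≤ M / (ρ - 1) := Nat.div_le_div_right h1
      show pos e / (ρ - 1) < _
      omega
    · intro e he e' he' h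
      rw [mem_coe] at he he'
      have h' : pos e / (ρ - 1) = pos e' / (ρ - 1) := h
      rcases lt_trichotomy (pos e) (pos e') with h1 | h1 | h1
      · exfalso
        apply main e he e' he' h1
        have h2 := Nat.div_add_mod (pos e) (ρ - 1)
        have h3 := Nat.div_add_mod (pos e') (ρ - 1)
        have h4 := Nat.mod_lt (pos e') (show 0 < ρ - 1 by omega)
        rw [h'] at h2
        omega
      · exact hinj e he e' he' h1
      · exfalso
        apply main e' he' e he h1
        have h2 := Nat.div_add_mod (pos e) (ρ - 1)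
        have h3 := Nat.div_add_mod (pos e') (ρ - 1)
        have h4 := Nat.mod_lt (pos e) (show 0 < ρ - 1 by omega)
        rw [h'] at h2
        omega
  rwa [card_range] at hcard

end MG

end Cyc
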