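import Mathlib

/-!
# Cycle spaces of multigraphs: definitions

A multigraph is a pair of maps `s t : E → V`. Chains are functions `E → ZMod 2`, potentials are
functions `V → ZMod 2`. `G.Z` is the cycle space.
-/

open Finset
open scoped Classical

namespace Cyc

/-- A finite multigraph with vertices `V` and (arbitrarily oriented) edges `E`. -/
structure MG (V E : Type) where
  /-- one end of an edge -/
  s : E → V
  /-- the other end of an edge -/
  t : E → V

/-- `c` is contained in `z` (as sets of edges). -/
def Le {E : Type} (c z : E → ZMod 2) : Prop := ∀ e, c e = 1 → z e = 1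

/-- the chain `c` is supported in the edge set `K`. -/
def In {E : Type} (c : E → ZMod 2) (K : Finset E) : Prop := ∀ e, c e = 1 → e ∈ K

/-- indicator chain of a set of edges (or of vertices). -/
noncomputable def ind {α : Type} (K : Finset α) : α → ZMod 2 := fun e => if e ∈ K then 1 else 0

/-- number of edges of a chain. -/
noncomputable def len {E : Type} [Fintype E] (c : E → ZMod 2) : ℕ :=
  (univ.filter (fun e => c e = 1)).card

namespace MG

variable {V E : Type} [Fintype V] [Fintype E] (G : MG V E)

/-- coboundary of a potential. -/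
def d (φ : V → ZMod 2) : E → ZMod 2 := fun e => φ (G.s e) + φ (G.t e)

/-- boundary of a chain. -/
noncomputable def bd (z : E → ZMod 2) (v : V) : ZMod 2 :=
  ∑ e, ((if G.s e = v then z e else 0) + (if G.t e = v then z e else 0))

/-- the cycle space. -/
noncomputable def Z : Submodule (ZMod 2) (E → ZMod 2) where
  carrier := {z | ∀ v, G.bd z v = 0}
  add_mem' := by
    intro a b ha hb v
    have h1 := ha v
    have h2 := hb v
    unfold bd at *
    have : ∀ e, ((if G.s e = v then (a + b) e else 0) + (if G.t e = v then (a + b) e else 0)) =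
        ((if G.s e = v then a e else 0) + (if G.t e = v then a e else 0)) +
        ((if G.s e = v then b e else 0) + (if G.t e = v then b e else 0)) := by
      intro e
      by_cases h3 : G.s e = v <;> by_cases h4 : G.t e = v <;> simp [h3, h4] <;> ring
    rw [Finset.sum_congr rfl (fun e _ => this e), Finset.sum_add_distrib, h1, h2, add_zero]
  zero_mem' := by intro v; simp [bd]
  smul_mem' := by
    intro c a ha v
    have h1 := ha v
    unfold bd at *
    have : ∀ e, ((if G.s e = v then (c • a) e else 0) + (if G.t e = v then (c • a) e else 0)) =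
        c * ((if G.s e = v then a e else 0) + (if G.t e = v then a e else 0)) := by
      intro e
      by_cases h3 : G.s e = v <;> by_cases h4 : G.t e = v <;> simp [h3, h4] <;> ring
    rw [Finset.sum_congr rfl (fun e _ => this e), ← Finset.mul_sum, h1, mul_zero]

noncomputable instance : Fintype G.Z := Fintype.ofFinite _

/-- evaluation of a chain on the cycle space. -/
def ev (f : E → ZMod 2) : G.Z → ZMod 2 := fun z => ∑ e, f e * z.1 e

/-- coordinate functional. -/
def co (e : E) : G.Z → ZMod 2 := fun z => z.1 e

/-- `f` is a cut (a coboundary). -/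
def Cut (f : E → ZMod 2) : Prop := ∃ φ : V → ZMod 2, f = G.d φ

/-- edges with both ends in `X`. -/
noncomputable def inn (X : Finset V) : Finset E := univ.filter (fun e => G.s e ∈ X ∧ G.t e ∈ X)

/-- edges with at least one end in `X`. -/
noncomputable def tch (X : Finset V) : Finset E := univ.filter (fun e => G.s e ∈ X ∨ G.t e ∈ X)

/-- edges with exactly one end in `X`. -/
noncomputable def del (X : Finset V) : Finset E :=
  univ.filter (fun e => (G.s e ∈ X ∧ G.t e ∉ X) ∨ (G.s e ∉ X ∧ G.t e ∈ X))

/-- `B` is connected (through the edges inside `B`). -/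
def ConnOn (B : Finset V) : Prop :=
  ∀ φ : V → ZMod 2, (∀ e, G.s e ∈ B → G.t e ∈ B → φ (G.s e) = φ (G.t e)) →
    ∀ u ∈ B, ∀ v ∈ B, φ u = φ v

/-- cubic, loopless, connected, bridgeless. -/
structure Good : Prop where
  cubic : ∀ v, (univ.filter (fun e => G.s e = v)).card + (univ.filter (fun e => G.t e = v)).card = 3
  noloop : ∀ e, G.s e ≠ G.t e
  conn : ∀ φ : V → ZMod 2, (∀ e, φ (G.s e) = φ (G.t e)) → ∀ u v, φ u = φ v
  bridgeless : ∀ e, ∃ z : G.Z, z.1 e = 1

/-- circuits: minimal nonzero elements of the cycle space. -/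
def Circ (c : E → ZMod 2) : Prop :=
  c ∈ G.Z ∧ c ≠ 0 ∧ ∀ c' ∈ G.Z, Le c' c → c' = 0 ∨ c' = c

/-- there are two different circuits contained in `z` inside `X`. -/
def Two (X : Finset V) (z : E → ZMod 2) : Prop :=
  ∃ c₁ c₂, G.Circ c₁ ∧ G.Circ c₂ ∧ c₁ ≠ c₂ ∧ Le c₁ z ∧ Le c₂ z ∧ In c₁ (G.inn X) ∧ In c₂ (G.inn X)

/-- there is no circuit contained in `z` with edges in `K`. -/
def NoneIn (K : Finset E) (z : E → ZMod 2) : Prop := ∀ c, G.Circ c → Le c z → ¬ In c K

/-- probability of an event for a uniformly random element of the cycle space. -/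
noncomputable def Pr (p : G.Z → Prop) : ℝ := ((univ.filter p).card : ℝ) / (Fintype.card G.Z : ℝ)

/-- sparse sets of vertices. -/
def Sparse (A : Finset V) : Prop := A.Nonempty ∧ 4 * (G.del A).card ^ 2 ≤ A.card

/-- minimal sparse sets. -/
def MinSparse (A : Finset V) : Prop := G.Sparse A ∧ ∀ B, B ⊂ A → ¬ G.Sparse B

end MG

end Cyc
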