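import Pool.Agent.Cyc.Lin

/-!
# Section 7.6: suppressing vertices of degree 2
-/

open Finset
open scoped Classical

set_option linter.unusedSectionVars false

namespace Cyc

/-- weight of a chain -/
noncomputable def wgt {E : Type} [Fintype E] (wt : E → ℕ) (c : E → ZMod 2) : ℕ :=
  ∑ e ∈ univ.filter (fun e => c e = 1), wt e

namespace MG

variable {V E : Type} [Fintype V] [Fintype E] (G : MG V E)

/-- degree of a vertex -/
noncomputable def dg (v : V) : ℕ :=
  (univ.filter (fun e => G.s e = v)).card + (univ.filter (fun e => G.t e = v)).card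

/-- connected, bridgeless, all degrees 2 or 3. -/
structure Sub23 : Prop where
  deg : ∀ v, G.dg v = 2 ∨ G.dg v = 3
  conn : ∀ φ : V → ZMod 2, (∀ e, φ (G.s e) = φ (G.t e)) → ∀ u v, φ u = φ v
  bridgeless : ∀ e, ∃ z : G.Z, z.1 e = 1

/-- incidence sum with values in any commutative monoid -/
noncomputable def inc {M : Type} [AddCommMonoid M] (z : E → M) (v : V) : M :=
  ∑ e, ((if G.s e = v then z e else 0) + (if G.t e = v then z e else 0))

theorem bd_eq_inc (z : E → ZMod 2) (v : V) : G.bd z v = G.inc z v := rfl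

theorem dg_eq_inc (v : V) : G.dg v = G.inc (fun _ => (1 : ℕ)) v := by
  unfold dg inc
  rw [Finset.sum_add_distrib, Finset.card_filter, Finset.card_filter]

/-- no loops in a connected bridgeless graph with degrees 2, 3 and a vertex of degree 3 -/
theorem Sub23.noloop {G : MG V E} (hG : G.Sub23) (h3 : ∃ v, G.dg v = 3) (e : E) :
    G.s e ≠ G.t e := by
  intro hl
  obtain ⟨u, hu⟩ := h3
  set v := G.s e with hv
  -- the number of ends at `v` of an edge
  have hsum : G.dg v = 2 + ∑ e' ∈ univ.erase e,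
      ((if G.s e' = v then 1 else 0) + (if G.t e' = v then 1 else 0)) := by
    rw [dg_eq_inc, inc, ← Finset.add_sum_erase _ _ (Finset.mem_univ e)]
    congr 1
    rw [if_pos hv.symm, if_pos hl.symm]
  rcases hG.deg v with h2 | h2
  · -- the vertex is a component
    have h0 : ∑ e' ∈ univ.erase e,
      ((if G.s e' = v then 1 else 0) + (if G.t e' = v then 1 else 0)) = 0 := by omega
    rw [Finset.sum_eq_zero_iff] at h0
    have hc := hG.conn (ind {v}) (fun e' => by
      by_cases he : e' = e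
      · rw [he, ← hv, ← hl]
      · have h4 := h0 e' (Finset.mem_erase.2 ⟨he, Finset.mem_univ _⟩)
        have h5 : G.s e' ≠ v := by
          intro h; rw [if_pos h] at h4; omega
        have h6 : G.t e' ≠ v := by
          intro h; rw [if_pos h] at h4; omega
        simp [ind, h5, h6]) v u
    have huv : u ≠ v := by rintro rfl; omega
    simp [ind, huv] at hc
  · have h0 : ∑ e' ∈ univ.erase e,
      ((if G.s e' = v then 1 else 0) + (if G.t e' = v then 1 else 0)) = 1 := by omega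
    have hex : ∃ f ∈ univ.erase e,
        ((if G.s f = v then 1 else 0) + (if G.t f = v then 1 else 0)) ≠ 0 := by
      by_contra hcon
      push Not at hcon
      rw [Finset.sum_eq_zero hcon] at h0
      omega
    obtain ⟨f, hf, hfv⟩ := hex
    rw [← Finset.add_sum_erase _ _ hf] at h0
    have h00 : ∑ e' ∈ (univ.erase e).erase f,
      ((if G.s e' = v then 1 else 0) + (if G.t e' = v then 1 else 0)) = 0 := by omega
    rw [Finset.sum_eq_zero_iff] at h00
    obtain ⟨z, hz⟩ := hG.bridgeless f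
    have hb := z.2 v
    unfold bd at hb
    rw [← Finset.add_sum_erase _ _ (Finset.mem_univ e), ← Finset.add_sum_erase _ _ hf,
      if_pos hv.symm, if_pos hl.symm, z2_add_self, zero_add, Finset.sum_eq_zero, add_zero] at hb
    · rw [hz] at hb
      by_cases h5 : G.s f = v
      · by_cases h6 : G.t f = v
        · rw [if_pos h5, if_pos h6] at h0; omega
        · rw [if_pos h5, if_neg h6, add_zero] at hb
          exact z2_one_ne_zero hb
      · by_cases h6 : G.t f = v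
        · rw [if_neg h5, if_pos h6, zero_add] at hb
          exact z2_one_ne_zero hb
        · rw [if_neg h5, if_neg h6] at hfv; omega
    · intro e' he'
      have h4 := h00 e' he'
      have h5 : G.s e' ≠ v := by
        intro h; rw [if_pos h] at h4; omega
      have h6 : G.t e' ≠ v := by
        intro h; rw [if_pos h] at h4; omega
      rw [if_neg h5, if_neg h6, add_zero]

/-- the data of a vertex `v` of degree 2 with edges `e₁`, `e₂` and neighbours `a`, `b`. -/
structure Two' (v : V) (e₁ e₂ : E) (a b : V) : Prop where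
  ne : e₁ ≠ e₂
  ha : a ≠ v
  hb : b ≠ v
  h1 : (G.s e₁ = v ∧ G.t e₁ = a) ∨ (G.s e₁ = a ∧ G.t e₁ = v)
  h2 : (G.s e₂ = v ∧ G.t e₂ = b) ∨ (G.s e₂ = b ∧ G.t e₂ = v)
  oth : ∀ e, e ≠ e₁ → e ≠ e₂ → G.s e ≠ v ∧ G.t e ≠ v

theorem exists_two' (hG : G.Sub23) (h3 : ∃ v, G.dg v = 3) (v : V) (hv : G.dg v = 2) :
    ∃ e₁ e₂ a b, G.Two' v e₁ e₂ a b := by
  have hnl := hG.noloop h3
  have hcard : (univ.filter (fun e => G.s e = v ∨ G.t e = v)).card = 2 := by
    rw [Finset.filter_or, Finset.card_union_of_disjoint]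
    · exact hv
    · rw [Finset.disjoint_left]
      intro e h1 h2
      simp only [Finset.mem_filter, Finset.mem_univ, true_and] at h1 h2
      exact hnl e (h1.trans h2.symm)
  obtain ⟨e₁, e₂, hne, hS⟩ := Finset.card_eq_two.1 hcard
  have hm : ∀ e, (G.s e = v ∨ G.t e = v) ↔ (e = e₁ ∨ e = e₂) := by
    intro e
    have := Finset.ext_iff.1 hS e
    simpa using this
  have key : ∀ e, (G.s e = v ∨ G.t e = v) →
      ∃ a, a ≠ v ∧ ((G.s e = v ∧ G.t e = a) ∨ (G.s e = a ∧ G.t e = v)) := by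
    intro e he
    rcases he with he | he
    · exact ⟨G.t e, fun h => hnl e (he.trans h.symm), Or.inl ⟨he, rfl⟩⟩
    · exact ⟨G.s e, fun h => hnl e (h.trans he.symm), Or.inr ⟨rfl, he⟩⟩
  obtain ⟨a, ha, h1⟩ := key e₁ ((hm e₁).2 (Or.inl rfl))
  obtain ⟨b, hb, h2⟩ := key e₂ ((hm e₂).2 (Or.inr rfl))
  refine ⟨e₁, e₂, a, b, hne, ha, hb, h1, h2, fun e he1 he2 => ?_⟩
  have h4 : ¬ (G.s e = v ∨ G.t e = v) := fun h => by
    rcases (hm e).1 h with h | h
    · exact he1 h
    · exact he2 h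
  push Not at h4
  exact h4

variable {G}

/-- suppress the vertex `v`: the edge `e₂` is deleted, the edge `e₁` joins `a` and `b`. -/
noncomputable def sup {v : V} {e₁ e₂ : E} {a b : V} (h : G.Two' v e₁ e₂ a b) :
    MG {u : V // u ≠ v} {e : E // e ≠ e₂} where
  s e := if h' : e.1 = e₁ then ⟨a, h.ha⟩ else ⟨G.s e.1, (h.oth e.1 h' e.2).1⟩
  t e := if h' : e.1 = e₁ then ⟨b, h.hb⟩ else ⟨G.t e.1, (h.oth e.1 h' e.2).2⟩

section

variable {v : V} {e₁ e₂ : E} {a b : V} (h : G.Two' v e₁ e₂ a b)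

include h

theorem sup_s_one : ((sup h).s ⟨e₁, h.ne⟩).1 = a := by simp [sup]

theorem sup_t_one : ((sup h).t ⟨e₁, h.ne⟩).1 = b := by simp [sup]

theorem sup_s_oth (e : {e : E // e ≠ e₂}) (he : e.1 ≠ e₁) : ((sup h).s e).1 = G.s e.1 := by
  simp [sup, he]

theorem sup_t_oth (e : {e : E // e ≠ e₂}) (he : e.1 ≠ e₁) : ((sup h).t e).1 = G.t e.1 := by
  simp [sup, he]

/-- the sum over all edges in terms of the edges different from `e₂` -/
theorem sum_split {M : Type} [AddCommMonoid M] (f : E → M) (g : {e : E // e ≠ e₂} → M)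
    (h1 : g ⟨e₁, h.ne⟩ = f e₁ + f e₂) (h2 : ∀ e : {e : E // e ≠ e₂}, e.1 ≠ e₁ → g e = f e.1) :
    ∑ e, g e = ∑ e, f e := by
  have h3 : ∑ e, f e = f e₂ + ∑ e : {e : E // e ≠ e₂}, f e.1 := by
    rw [← Finset.add_sum_erase _ _ (Finset.mem_univ e₂)]
    congr 1
    rw [← Finset.sum_subtype]
    intro x
    simp
  rw [h3, ← Finset.add_sum_erase _ _ (Finset.mem_univ (⟨e₁, h.ne⟩ : {e : E // e ≠ e₂})),
    ← Finset.add_sum_erase _ _ (Finset.mem_univ (⟨e₁, h.ne⟩ : {e : E // e ≠ e₂})), h1, ← add_assoc,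
    add_comm (f e₂) (f e₁)]
  congr 1
  refine Finset.sum_congr rfl fun e he => h2 e ?_
  intro he'
  rw [Finset.mem_erase] at he
  exact he.1 (Subtype.ext he')

theorem inc_sup {M : Type} [AddCommMonoid M] (z : E → M) (hz : z e₁ = z e₂)
    (u : {u : V // u ≠ v}) : (sup h).inc (fun e => z e.1) u = G.inc z u.1 := by
  unfold inc
  apply sum_split h
  · simp only [← Subtype.val_inj, sup_s_one, sup_t_one]
    have hu : v ≠ u.1 := fun h => u.2 h.symm
    rcases h.h1 with ⟨h1, h1'⟩ | ⟨h1, h1'⟩ <;> rcases h.h2 with ⟨h2, h2'⟩ | ⟨h2, h2'⟩ <;>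
      rw [h1, h1', h2, h2'] <;> simp [hu, hz]
  · intro e he
    simp only [← Subtype.val_inj, sup_s_oth h e he, sup_t_oth h e he]

theorem inc_at {M : Type} [AddCommMonoid M] (z : E → M) : G.inc z v = z e₁ + z e₂ := by
  unfold inc
  rw [← Finset.add_sum_erase _ _ (Finset.mem_univ e₁),
    ← Finset.add_sum_erase _ _ (Finset.mem_erase.2 ⟨h.ne.symm, Finset.mem_univ e₂⟩),
    Finset.sum_eq_zero, add_zero]
  · have ha := h.ha
    have hb := h.hb
    rcases h.h1 with ⟨h1, h1'⟩ | ⟨h1, h1'⟩ <;> rcases h.h2 with ⟨h2, h2'⟩ | ⟨h2, h2'⟩ <;>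
      rw [h1, h1', h2, h2'] <;> simp [ha, hb]
  · intro e he
    simp only [Finset.mem_erase, Finset.mem_univ, and_true] at he
    obtain ⟨h1, h2⟩ := h.oth e he.2 he.1
    rw [if_neg h1, if_neg h2, add_zero]

theorem dg_sup (u : {u : V // u ≠ v}) : (sup h).dg u = G.dg u.1 := by
  rw [dg_eq_inc, dg_eq_inc]
  exact inc_sup h (fun _ => (1 : ℕ)) rfl u

theorem eq_of_mem_Z {z : E → ZMod 2} (hz : z ∈ G.Z) : z e₁ = z e₂ := by
  have h1 := hz v
  rw [bd_eq_inc, inc_at h] at h1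
  exact z2_add_eq_zero.1 h1

theorem res_mem {z : E → ZMod 2} (hz : z ∈ G.Z) : (fun e : {e : E // e ≠ e₂} => z e.1) ∈ (sup h).Z := by
  intro u
  rw [bd_eq_inc, inc_sup h z (eq_of_mem_Z h hz) u]
  exact hz u.1

/-- extension of a chain -/
noncomputable def ext (y : {e : E // e ≠ e₂} → ZMod 2) : E → ZMod 2 :=
  fun e => if he : e = e₂ then y ⟨e₁, h.ne⟩ else y ⟨e, he⟩

theorem ext_two (y : {e : E // e ≠ e₂} → ZMod 2) : ext h y e₂ = y ⟨e₁, h.ne⟩ := by simp [ext]

theorem ext_oth (y : {e : E // e ≠ e₂} → ZMod 2) (e : {e : E // e ≠ e₂}) : ext h y e.1 = y e := by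
  simp [ext, e.2]

theorem ext_res {z : E → ZMod 2} (hz : z ∈ G.Z) : ext h (fun e => z e.1) = z := by
  funext e
  by_cases he : e = e₂
  · rw [he, ext_two]
    exact eq_of_mem_Z h hz
  · exact ext_oth h _ ⟨e, he⟩

theorem ext_mem {y : {e : E // e ≠ e₂} → ZMod 2} (hy : y ∈ (sup h).Z) : ext h y ∈ G.Z := by
  have h1 : ext h y e₁ = ext h y e₂ := by
    rw [ext_two]
    exact ext_oth h y ⟨e₁, h.ne⟩
  intro u
  rw [bd_eq_inc]
  by_cases hu : u = v
  · rw [hu, inc_at h, h1, z2_add_self]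
  · have h2 := inc_sup h (ext h y) h1 ⟨u, hu⟩
    rw [← h2]
    have h3 : (fun e : {e : E // e ≠ e₂} => ext h y e.1) = y := by
      funext e
      exact ext_oth h y e
    rw [h3]
    exact hy ⟨u, hu⟩

theorem card_sup : Fintype.card (sup h).Z ≤ Fintype.card G.Z := by
  apply Fintype.card_le_of_injective (fun y : (sup h).Z => (⟨ext h y.1, ext_mem h y.2⟩ : G.Z))
  intro y y' hyy
  have h1 : ext h y.1 = ext h y'.1 := congrArg Subtype.val hyy
  apply Subtype.ext
  funext e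
  rw [← ext_oth h y.1 e, ← ext_oth h y'.1 e, h1]

theorem circ_sup {c : E → ZMod 2} (hc : G.Circ c) :
    (sup h).Circ (fun e : {e : E // e ≠ e₂} => c e.1) := by
  refine ⟨res_mem h hc.1, ?_, ?_⟩
  · intro h0
    apply hc.2.1
    rw [← ext_res h hc.1, h0]
    funext e
    by_cases he : e = e₂
    · rw [he, ext_two]; rfl
    · exact ext_oth h _ ⟨e, he⟩
  · intro y hy hle
    rcases hc.2.2 (ext h y) (ext_mem h hy) (by
      intro e he
      by_cases he2 : e = e₂
      · rw [he2, ext_two] at he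
        rw [he2, ← eq_of_mem_Z h hc.1]
        exact hle _ he
      · exact hle ⟨e, he2⟩ ((ext_oth h y ⟨e, he2⟩).symm.trans he)) with h1 | h1
    · left
      funext e
      rw [← ext_oth h y e, h1]; rfl
    · right
      funext e
      rw [← ext_oth h y e, h1]

/-- weights after suppression -/
noncomputable def supw (e₁ e₂ : E) (wt : E → ℕ) : {e : E // e ≠ e₂} → ℕ :=
  fun e => if e.1 = e₁ then wt e₁ + wt e₂ else wt e.1

theorem wgt_sup (wt : E → ℕ) {c : E → ZMod 2} (hc : c ∈ G.Z) :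
    wgt (supw e₁ e₂ wt) (fun e : {e : E // e ≠ e₂} => c e.1) = wgt wt c := by
  unfold wgt
  rw [Finset.sum_filter, Finset.sum_filter]
  apply sum_split h
  · have h1 := eq_of_mem_Z h hc
    rw [← h1]
    by_cases h2 : c e₁ = 1 <;> simp [supw, h2]
  · intro e he
    simp [supw, he]

theorem sub23_sup (hG : G.Sub23) : (sup h).Sub23 := by
  refine ⟨fun u => ?_, ?_, ?_⟩
  · rw [dg_sup]; exact hG.deg u.1
  · intro φ hφ
    have hab : φ ⟨a, h.ha⟩ = φ ⟨b, h.hb⟩ := by
      have h1 := hφ ⟨e₁, h.ne⟩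
      have h2 : (sup h).s ⟨e₁, h.ne⟩ = ⟨a, h.ha⟩ := Subtype.ext (sup_s_one h)
      have h3 : (sup h).t ⟨e₁, h.ne⟩ = ⟨b, h.hb⟩ := Subtype.ext (sup_t_one h)
      rwa [h2, h3] at h1
    let ψ : V → ZMod 2 := fun u => if hu : u = v then φ ⟨a, h.ha⟩ else φ ⟨u, hu⟩
    have hψv : ψ v = φ ⟨a, h.ha⟩ := by simp [ψ]
    have hψ : ∀ u (hu : u ≠ v), ψ u = φ ⟨u, hu⟩ := fun u hu => by simp [ψ, hu]
    have hc := hG.conn ψ (by
      intro e
      by_cases he1 : e = e₁
      · rw [he1]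
        rcases h.h1 with ⟨h1, h1'⟩ | ⟨h1, h1'⟩
        · rw [h1, h1', hψv, hψ a h.ha]
        · rw [h1, h1', hψv, hψ a h.ha]
      · by_cases he2 : e = e₂
        · rw [he2]
          rcases h.h2 with ⟨h1, h1'⟩ | ⟨h1, h1'⟩
          · rw [h1, h1', hψv, hψ b h.hb, hab]
          · rw [h1, h1', hψv, hψ b h.hb, hab]
        · obtain ⟨h4, h5⟩ := h.oth e he1 he2
          rw [hψ _ h4, hψ _ h5]
          have h6 := hφ ⟨e, he2⟩
          have h7 : (sup h).s ⟨e, he2⟩ = ⟨G.s e, h4⟩ := Subtype.ext (sup_s_oth h ⟨e, he2⟩ he1)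
          have h8 : (sup h).t ⟨e, he2⟩ = ⟨G.t e, h5⟩ := Subtype.ext (sup_t_oth h ⟨e, he2⟩ he1)
          rwa [h7, h8] at h6)
    intro x y
    have h9 := hc x.1 y.1
    rwa [hψ x.1 x.2, hψ y.1 y.2] at h9
  · intro e
    obtain ⟨z, hz⟩ := hG.bridgeless e.1
    exact ⟨⟨_, res_mem h z.2⟩, hz⟩

theorem lab_sup (wt : E → ℕ) (lab : V → ℕ) (hlab : ∀ e, wt e = 0 → lab (G.s e) = lab (G.t e))
    (e : {e : E // e ≠ e₂}) (he : supw e₁ e₂ wt e = 0) :
    lab ((sup h).s e).1 = lab ((sup h).t e).1 := by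
  by_cases he1 : e.1 = e₁
  · have h1 : e = ⟨e₁, h.ne⟩ := Subtype.ext he1
    rw [h1, sup_s_one, sup_t_one]
    simp only [supw, he1, if_true] at he
    have h2 := hlab e₁ (by omega)
    have h3 := hlab e₂ (by omega)
    have h4 : lab a = lab v := by
      rcases h.h1 with ⟨h1, h1'⟩ | ⟨h1, h1'⟩
      · rw [h1, h1'] at h2; exact h2.symm
      · rw [h1, h1'] at h2; exact h2
    have h5 : lab b = lab v := by
      rcases h.h2 with ⟨h1, h1'⟩ | ⟨h1, h1'⟩
      · rw [h1, h1'] at h3; exact h3.symm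
      · rw [h1, h1'] at h3; exact h3
    rw [h4, h5]
  · rw [sup_s_oth h e he1, sup_t_oth h e he1]
    apply hlab
    simpa [supw, he1] using he

end

end MG

theorem suppress (V E : Type) [Fintype V] [Fintype E] (G : MG V E) (hG : G.Sub23)
    (h3 : ∃ v, G.dg v = 3) (wt : E → ℕ) (lab : V → ℕ)
    (hlab : ∀ e, wt e = 0 → lab (G.s e) = lab (G.t e)) :
    ∃ (V' E' : Type) (_ : Fintype V') (_ : Fintype E') (G' : MG V' E') (wt' : E' → ℕ)
      (ι : V' → V) (Φ : (E → ZMod 2) → (E' → ZMod 2)), G'.Good ∧ Function.Injective ι ∧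
      (∀ v, G.dg (ι v) = 3) ∧ (∀ e, wt' e = 0 → lab (ι (G'.s e)) = lab (ι (G'.t e))) ∧
      Fintype.card G'.Z ≤ Fintype.card G.Z ∧
      ∀ c, G.Circ c → G'.Circ (Φ c) ∧ wgt wt' (Φ c) = wgt wt c := by
  obtain ⟨n, hn⟩ : ∃ n, n = Fintype.card V := ⟨_, rfl⟩
  induction n using Nat.strong_induction_on generalizing V E with
  | _ n ih =>
    by_cases h2 : ∃ v, G.dg v = 2
    · obtain ⟨v, hv⟩ := h2
      obtain ⟨e₁, e₂, a, b, h⟩ := G.exists_two' hG h3 v hv
      obtain ⟨V', E', fV, fE, G', wt', ι, Φ, h1, h2, h4, h5, h6, h7⟩ :=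
        ih (Fintype.card {u : V // u ≠ v})
          (by rw [hn]; exact Fintype.card_subtype_lt (x := v) (by simp))
          {u : V // u ≠ v} {e : E // e ≠ e₂} (MG.sup h) (MG.sub23_sup h hG)
          (by
            obtain ⟨u, hu⟩ := h3
            have huv : u ≠ v := by rintro rfl; omega
            exact ⟨⟨u, huv⟩, by rw [MG.dg_sup]; exact hu⟩)
          (MG.supw e₁ e₂ wt) (fun u => lab u.1) (MG.lab_sup h wt lab hlab) rfl
      refine ⟨V', E', fV, fE, G', wt', fun x => (ι x).1, fun c => Φ (fun e => c e.1), h1,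
        Subtype.val_injective.comp h2, fun x => ?_, h5, h6.trans (MG.card_sup h), fun c hc => ?_⟩
      · rw [← MG.dg_sup h]; exact h4 x
      · obtain ⟨h8, h9⟩ := h7 _ (MG.circ_sup h hc)
        exact ⟨h8, h9.trans (MG.wgt_sup h wt hc.1)⟩
    · push Not at h2
      have hd : ∀ v, G.dg v = 3 := fun v => (hG.deg v).resolve_left (h2 v)
      exact ⟨V, E, inferInstance, inferInstance, G, wt, id, id,
        ⟨hd, hG.noloop h3, hG.conn, hG.bridgeless⟩, Function.injective_id, hd, hlab, le_rfl,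
        fun c hc => ⟨hc, rfl⟩⟩

end Cyc
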