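import Pool.Agent.Cyc.Tube
import Pool.Agent.Cyc.Suppress
import Pool.Agent.Cyc.Sparse

/-!
# Section 6: the final contradiction for weighted cubic graphs

Coset density (6.1), the greedy jumps and the linear weight bound (6.2), labels (6.3), the choice
of the gap in the thresholds (6.4).
-/

open Finset
open scoped Classical

set_option linter.unusedSectionVars false

namespace Cyc

namespace MG

variable {V E : Type} [Fintype V] [Fintype E] (G : MG V E)

/-- splitting the weight of a chain along an edge set -/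
theorem f6_wgt_split (wt : E → ℕ) (c : E → ZMod 2) (H : Finset E) :
    wgt wt c = (∑ e ∈ univ.filter (fun e => c e = 1 ∧ e ∉ H), wt e) +
      ∑ e ∈ H.filter (fun e => c e = 1), wt e := by
  unfold wgt
  rw [← Finset.sum_filter_add_sum_filter_not (univ.filter (fun e => c e = 1)) (fun e => e ∉ H)]
  congr 1
  · apply Finset.sum_congr _ (fun _ _ => rfl)
    ext e; simp
  · apply Finset.sum_congr _ (fun _ _ => rfl)
    ext e; simp [and_comm]

/-- coset density -/
theorem f6_coset {n κ : ℕ} (wt : E → ℕ) (ζ : ℕ → E → ZMod 2)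
    (hζ : ∀ k, κ ≤ k → k ≤ n → ζ k ∈ G.Z ∧ wgt wt (ζ k) = k) (H : Finset E) :
    (n + 1 - κ) * G.numZ H ≤ (∑ e ∈ H, wt e + 1) * Fintype.card G.Z := by
  set ζ' : ℕ → G.Z := fun k => if h : ζ k ∈ G.Z then ⟨ζ k, h⟩ else 0 with hζ'
  set s : Finset (ℕ × G.Z) := Finset.Icc κ n ×ˢ univ.filter (fun z : G.Z => In z.1 H) with hs
  have hcs : s.card = (n + 1 - κ) * G.numZ H := by
    rw [hs, Finset.card_product, Nat.card_Icc]; rfl
  rw [← hcs, ← Finset.card_univ]
  refine Finset.card_le_mul_card_image_of_maps_to (f := fun p => ζ' p.1 + p.2)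
    (fun _ _ => Finset.mem_univ _) _ ?_
  intro b _
  set w₀ := ∑ e ∈ univ.filter (fun e => b.1 e = 1 ∧ e ∉ H), wt e with hw₀
  have : (Finset.Icc w₀ (w₀ + ∑ e ∈ H, wt e)).card = ∑ e ∈ H, wt e + 1 := by
    rw [Nat.card_Icc]; omega
  rw [← this]
  refine Finset.card_le_card_of_injOn (fun p => p.1) ?_ ?_
  · intro p hp
    simp only [Finset.coe_filter, Set.mem_ofPred_eq] at hp
    obtain ⟨hp1, hp2⟩ := hp
    rw [hs, Finset.mem_product] at hp1
    obtain ⟨hp3, hp4⟩ := hp1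
    rw [Finset.mem_Icc] at hp3
    obtain ⟨hk1, hk2⟩ := hζ p.1 hp3.1 hp3.2
    have hH : In p.2.1 H := (Finset.mem_filter.1 hp4).2
    have hz : ζ' p.1 = ⟨ζ p.1, hk1⟩ := by rw [hζ']; exact dif_pos hk1
    rw [hz] at hp2
    have hval : ∀ e, ζ p.1 e + p.2.1 e = b.1 e := by
      intro e
      rw [← hp2]; rfl
    have hout : ∀ e, e ∉ H → ζ p.1 e = b.1 e := by
      intro e he
      rw [← hval e, (In_iff_zero _ _).1 hH e he, add_zero]
    have hsp := f6_wgt_split wt (ζ p.1) H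
    rw [hk2] at hsp
    have h1 : (∑ e ∈ univ.filter (fun e => ζ p.1 e = 1 ∧ e ∉ H), wt e) = w₀ := by
      rw [hw₀]
      apply Finset.sum_congr _ (fun _ _ => rfl)
      ext e
      simp only [Finset.mem_filter, Finset.mem_univ, true_and]
      constructor
      · rintro ⟨h1, h2⟩; exact ⟨(hout e h2).symm.trans h1, h2⟩
      · rintro ⟨h1, h2⟩; exact ⟨(hout e h2).trans h1, h2⟩
    have h2 : (∑ e ∈ H.filter (fun e => ζ p.1 e = 1), wt e) ≤ ∑ e ∈ H, wt e :=
      Finset.sum_le_sum_of_subset (Finset.filter_subset _ _)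
    simp only [Finset.coe_Icc, Set.mem_Icc]
    omega
  · intro p hp q hq hpq
    simp only [Finset.coe_filter, Set.mem_ofPred_eq] at hp hq
    have h1 : ζ' p.1 + p.2 = ζ' p.1 + q.2 := by
      rw [hp.2, ← hq.2]
      rw [show p.1 = q.1 from hpq]
    exact Prod.ext hpq (add_left_cancel h1)

/-! ### the jumps -/

section Jump

variable (κ : ℕ) (ζ : ℕ → E → ZMod 2)

/-- span of the first chains -/
noncomputable def Sp (l : ℕ) : Submodule (ZMod 2) (E → ZMod 2) :=
  Submodule.span (ZMod 2) (ζ '' Set.Ico κ l)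

/-- the jumps -/
noncomputable def Jp (l : ℕ) : Finset ℕ := (Finset.Ico κ l).filter (fun k => ζ k ∉ Sp κ ζ k)

/-- union of the supports -/
noncomputable def Hs (l : ℕ) : Finset E :=
  univ.filter (fun e => ∃ k, κ ≤ k ∧ k < l ∧ ζ k e = 1)

theorem Sp_succ {l : ℕ} (hl : κ ≤ l) : Sp κ ζ (l + 1) = Sp κ ζ l ⊔ Submodule.span (ZMod 2) {ζ l} := by
  unfold Sp
  rw [← Submodule.span_union]
  congr 1
  ext x
  simp only [Set.mem_image, Set.mem_Ico, Set.mem_union, Set.mem_singleton_iff]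
  constructor
  · rintro ⟨k, ⟨h1, h2⟩, rfl⟩
    rcases Nat.lt_succ_iff_lt_or_eq.1 h2 with h | h
    · exact Or.inl ⟨k, ⟨h1, h⟩, rfl⟩
    · right; rw [h]
  · rintro (⟨k, ⟨h1, h2⟩, rfl⟩ | rfl)
    · exact ⟨k, ⟨h1, by omega⟩, rfl⟩
    · exact ⟨l, ⟨hl, by omega⟩, rfl⟩

theorem Sp_succ_of_mem {l : ℕ} (hl : κ ≤ l) (h : ζ l ∈ Sp κ ζ l) : Sp κ ζ (l + 1) = Sp κ ζ l := by
  rw [Sp_succ κ ζ hl]
  exact sup_eq_left.2 ((Submodule.span_singleton_le_iff_mem _ _).2 h)

theorem Jp_succ_of_mem {l : ℕ} (h : ζ l ∈ Sp κ ζ l) : Jp κ ζ (l + 1) = Jp κ ζ l := by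
  unfold Jp
  ext k
  simp only [Finset.mem_filter, Finset.mem_Ico]
  constructor
  · rintro ⟨⟨h1, h2⟩, h3⟩
    refine ⟨⟨h1, ?_⟩, h3⟩
    rcases Nat.lt_succ_iff_lt_or_eq.1 h2 with h4 | h4
    · exact h4
    · rw [h4] at h3; exact absurd h h3
  · rintro ⟨⟨h1, h2⟩, h3⟩
    exact ⟨⟨h1, by omega⟩, h3⟩

theorem Jp_succ_of_notMem {l : ℕ} (hl : κ ≤ l) (h : ζ l ∉ Sp κ ζ l) :
    Jp κ ζ (l + 1) = insert l (Jp κ ζ l) := by
  unfold Jp
  ext k
  simp only [Finset.mem_filter, Finset.mem_Ico, Finset.mem_insert]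
  constructor
  · rintro ⟨⟨h1, h2⟩, h3⟩
    rcases Nat.lt_succ_iff_lt_or_eq.1 h2 with h4 | h4
    · exact Or.inr ⟨⟨h1, h4⟩, h3⟩
    · exact Or.inl h4
  · rintro (rfl | ⟨⟨h1, h2⟩, h3⟩)
    · exact ⟨⟨hl, by omega⟩, h⟩
    · exact ⟨⟨h1, by omega⟩, h3⟩

theorem not_mem_Jp (l : ℕ) : l ∉ Jp κ ζ l := by simp [Jp]

theorem Jp_le {l : ℕ} (hl : l ≤ κ) : Jp κ ζ l = ∅ := by
  unfold Jp
  rw [Finset.Ico_eq_empty_of_le hl]; simp

theorem finrank_Sp (l : ℕ) : Module.finrank (ZMod 2) (Sp κ ζ l) = (Jp κ ζ l).card := by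
  have : Fact (Nat.Prime 2) := ⟨Nat.prime_two⟩
  induction l with
  | zero =>
    rw [Jp_le κ ζ (Nat.zero_le _)]
    unfold Sp
    rw [Set.Ico_eq_empty (by omega)]
    simp
  | succ l ih =>
    by_cases hl : κ ≤ l
    · by_cases h : ζ l ∈ Sp κ ζ l
      · rw [Sp_succ_of_mem κ ζ hl h, Jp_succ_of_mem κ ζ h, ih]
      · rw [Jp_succ_of_notMem κ ζ hl h, Finset.card_insert_of_notMem (not_mem_Jp κ ζ l), ← ih,
          Sp_succ κ ζ hl]
        have h0 : ζ l ≠ 0 := fun h0 => h (by rw [h0]; exact Submodule.zero_mem _)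
        have hd : Disjoint (Sp κ ζ l) (Submodule.span (ZMod 2) {ζ l}) :=
          (Submodule.disjoint_span_singleton' h0).2 h
        have h5 := Submodule.finrank_sup_add_finrank_inf_eq (Sp κ ζ l)
          (Submodule.span (ZMod 2) {ζ l})
        rw [disjoint_iff.1 hd, finrank_bot, finrank_span_singleton h0] at h5
        omega
    · rw [Jp_le κ ζ (by omega)]
      unfold Sp
      rw [Set.Ico_eq_empty (by omega)]
      simp

theorem card_Sp (l : ℕ) : Nat.card (Sp κ ζ l) = 2 ^ (Jp κ ζ l).card := by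
  have : Fact (Nat.Prime 2) := ⟨Nat.prime_two⟩
  rw [← finrank_Sp κ ζ l, Module.natCard_eq_pow_finrank (K := ZMod 2)]
  simp

theorem Jp_mono {k l : ℕ} (h : k ≤ l) : Jp κ ζ k ⊆ Jp κ ζ l := by
  intro i hi
  simp only [Jp, Finset.mem_filter, Finset.mem_Ico] at hi ⊢
  exact ⟨⟨hi.1.1, by omega⟩, hi.2⟩

theorem rank_lt {k l : ℕ} (hk : k ∈ Jp κ ζ l) : (Jp κ ζ k).card < (Jp κ ζ l).card := by
  refine Finset.card_lt_card ⟨Jp_mono κ ζ ?_, fun h => not_mem_Jp κ ζ k (h hk)⟩
  simp only [Jp, Finset.mem_filter, Finset.mem_Ico] at hk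
  exact hk.1.2.le

theorem rank_inj (l : ℕ) : Set.InjOn (fun k => (Jp κ ζ k).card) (Jp κ ζ l) := by
  have key : ∀ a b, a ∈ Jp κ ζ l → b ∈ Jp κ ζ l → a < b → (Jp κ ζ a).card < (Jp κ ζ b).card := by
    intro a b ha hb hab
    apply rank_lt
    simp only [Jp, Finset.mem_filter, Finset.mem_Ico] at ha ⊢
    exact ⟨⟨ha.1.1, hab⟩, ha.2⟩
  intro a ha b hb hab
  rcases lt_trichotomy a b with h | h | h
  · exact absurd hab (key a b ha hb h).ne
  · exact h
  · exact absurd hab.symm (key b a hb ha h).ne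

variable {κ ζ}

/-- members of the span vanish off the union of the supports -/
theorem Sp_In {l : ℕ} {z : E → ZMod 2} (hz : z ∈ Sp κ ζ l) : In z (Hs κ ζ l) := by
  rw [In_iff_zero]
  intro e he
  have : Sp κ ζ l ≤ LinearMap.ker (LinearMap.proj (R := ZMod 2) (φ := fun _ : E => ZMod 2) e) := by
    unfold Sp
    rw [Submodule.span_le]
    rintro _ ⟨k, hk, rfl⟩
    simp only [SetLike.mem_coe, LinearMap.mem_ker, LinearMap.proj_apply]
    by_contra h
    exact he (Finset.mem_filter.2 ⟨Finset.mem_univ _, k, hk.1, hk.2, z2_ne_zero h⟩)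
  exact this hz

theorem Hs_succ {l : ℕ} (hl : κ ≤ l) :
    Hs κ ζ (l + 1) = Hs κ ζ l ∪ univ.filter (fun e => ζ l e = 1) := by
  ext e
  simp only [Hs, Finset.mem_filter, Finset.mem_univ, true_and, Finset.mem_union]
  constructor
  · rintro ⟨k, h1, h2, h3⟩
    rcases Nat.lt_succ_iff_lt_or_eq.1 h2 with h4 | h4
    · exact Or.inl ⟨k, h1, h4, h3⟩
    · right; rw [← h4]; exact h3
  · rintro (⟨k, h1, h2, h3⟩ | h)
    · exact ⟨k, h1, by omega, h3⟩
    · exact ⟨l, hl, by omega, h⟩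

theorem Hs_le {l : ℕ} (hl : l ≤ κ) : Hs κ ζ l = ∅ := by
  ext e
  simp only [Hs, Finset.mem_filter, Finset.mem_univ, true_and, Finset.notMem_empty, iff_false]
  rintro ⟨k, h1, h2, h3⟩
  omega

/-- weight of the union of the supports -/
theorem f6_wt_Hs {n : ℕ} (wt : E → ℕ) (hw : ∀ k, κ ≤ k → k ≤ n → wgt wt (ζ k) = k) (l : ℕ)
    (hl : l ≤ n + 1) : ∑ e ∈ Hs κ ζ l, wt e ≤ ∑ k ∈ Jp κ ζ l, k := by
  induction l with
  | zero => rw [Hs_le (Nat.zero_le _)]; simp
  | succ l ih =>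
    by_cases hκ : κ ≤ l
    · have ih' := ih (by omega)
      by_cases h : ζ l ∈ Sp κ ζ l
      · rw [Jp_succ_of_mem κ ζ h]
        have : Hs κ ζ (l + 1) = Hs κ ζ l := by
          rw [Hs_succ hκ]
          refine Finset.union_eq_left.2 ?_
          intro e he
          exact Sp_In h e (Finset.mem_filter.1 he).2
        rw [this]; exact ih'
      · rw [Jp_succ_of_notMem κ ζ hκ h, Finset.sum_insert (not_mem_Jp κ ζ l), Hs_succ hκ]
        have h1 : ∑ e ∈ univ.filter (fun e => ζ l e = 1), wt e = l := hw l hκ (by omega)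
        have h2 := Finset.sum_union_inter (s₁ := Hs κ ζ l)
          (s₂ := univ.filter (fun e => ζ l e = 1)) (f := wt)
        omega
    · rw [Hs_le (by omega)]; simp

/-- location of the jumps -/
theorem f6_jump_le {n : ℕ} (wt : E → ℕ) (hw : ∀ k, κ ≤ k → k ≤ n → wgt wt (ζ k) = k) (l : ℕ)
    (hl : l ≤ n + 1) : l ≤ 2 ^ (Jp κ ζ l).card + κ := by
  rw [← card_Sp κ ζ l]
  by_cases hκ : l ≤ κ
  · omega
  have : (Finset.Ico κ l).card ≤ Nat.card (Sp κ ζ l) := by
    have h1 : ∀ k : Finset.Ico κ l, ζ k.1 ∈ Sp κ ζ l := fun k =>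
      Submodule.subset_span ⟨k.1, Finset.mem_Ico.1 k.2, rfl⟩
    have h2 := Nat.card_le_card_of_injective (fun k : Finset.Ico κ l => (⟨ζ k.1, h1 k⟩ : Sp κ ζ l))
      (fun a b hab => by
        have h3 : ζ a.1 = ζ b.1 := congrArg Subtype.val hab
        have ha := Finset.mem_Ico.1 a.2
        have hb := Finset.mem_Ico.1 b.2
        have h4 := hw a.1 ha.1 (by omega)
        have h5 := hw b.1 hb.1 (by omega)
        rw [h3, h5] at h4
        exact Subtype.ext h4.symm)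
    rwa [Nat.card_eq_fintype_card, Fintype.card_coe] at h2
  rw [Nat.card_Ico] at this
  omega

/-- sum of the jumps -/
theorem f6_sum_Jp {n : ℕ} (wt : E → ℕ) (hw : ∀ k, κ ≤ k → k ≤ n → wgt wt (ζ k) = k) (l : ℕ)
    (hl : l ≤ n + 1) (i t : ℕ) (hit : (Jp κ ζ l).card = i + t) :
    ∑ k ∈ Jp κ ζ l, k ≤ 2 ^ i + κ * i + t * l := by
  set g : ℕ → ℕ := fun j => if j < i then 2 ^ j + κ else l with hg
  have h1 : ∑ k ∈ Jp κ ζ l, k ≤ ∑ k ∈ Jp κ ζ l, g ((Jp κ ζ k).card) := by
    refine Finset.sum_le_sum fun k hk => ?_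
    have hkl : κ ≤ k ∧ k < l := by
      simp only [Jp, Finset.mem_filter, Finset.mem_Ico] at hk
      exact hk.1
    simp only [hg]
    split_ifs
    · exact f6_jump_le wt hw k (by omega)
    · omega
  have h2 : ∑ k ∈ Jp κ ζ l, g ((Jp κ ζ k).card) = ∑ j ∈ (Jp κ ζ l).image (fun k => (Jp κ ζ k).card), g j :=
    (Finset.sum_image (f := g) (rank_inj κ ζ l)).symm
  have h3 : ∑ j ∈ (Jp κ ζ l).image (fun k => (Jp κ ζ k).card), g j ≤ ∑ j ∈ Finset.range (i + t), g j := by
    refine Finset.sum_le_sum_of_subset ?_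
    intro j hj
    obtain ⟨k, hk, rfl⟩ := Finset.mem_image.1 hj
    rw [Finset.mem_range, ← hit]
    exact rank_lt κ ζ hk
  have h4 : ∑ j ∈ Finset.range (i + t), g j = ∑ j ∈ Finset.range i, (2 ^ j + κ) + t * l := by
    rw [Finset.sum_range_add]
    congr 1
    · refine Finset.sum_congr rfl fun j hj => ?_
      simp only [hg]
      rw [if_pos (Finset.mem_range.1 hj)]
    · rw [Finset.sum_congr rfl (g := fun _ => l) (fun j _ => by simp only [hg]; rw [if_neg (by omega)])]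
      simp
  have h5 : ∑ j ∈ Finset.range i, (2 ^ j + κ) = 2 ^ i - 1 + κ * i := by
    rw [Finset.sum_add_distrib, Nat.geomSum_eq (le_refl 2)]
    simp [mul_comm]
  have h6 : 1 ≤ 2 ^ i := Nat.one_le_two_pow
  omega

end Jump

/-- number of even chains supported in the union of the supports -/
theorem f6_card_Sp_le (κ : ℕ) (ζ : ℕ → E → ZMod 2) (l : ℕ) (hζ : ∀ k, κ ≤ k → k < l → ζ k ∈ G.Z) :
    2 ^ (Jp κ ζ l).card ≤ G.numZ (Hs κ ζ l) := by
  rw [← card_Sp κ ζ l]
  have hle : Sp κ ζ l ≤ G.Z := by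
    unfold Sp
    rw [Submodule.span_le]
    rintro _ ⟨k, hk, rfl⟩
    exact hζ k hk.1 hk.2
  unfold numZ
  rw [← Fintype.card_coe, ← Nat.card_eq_fintype_card]
  refine Nat.card_le_card_of_injective (fun z : Sp κ ζ l =>
    (⟨⟨z.1, hle z.2⟩, Finset.mem_filter.2 ⟨Finset.mem_univ _, Sp_In z.2⟩⟩ :
      {x // x ∈ univ.filter (fun z : G.Z => In z.1 (Hs κ ζ l))})) (fun a b hab => ?_)
  have h1 := congrArg (fun x => (Subtype.val (Subtype.val x))) hab
  exact Subtype.ext h1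

/-- number of circuits supported in the union of the supports -/
theorem f6_numC_ge {κ n : ℕ} {ζ : ℕ → E → ZMod 2} (wt : E → ℕ)
    (hw : ∀ k, κ ≤ k → k ≤ n → wgt wt (ζ k) = k) (l : ℕ) (hl : l ≤ n + 1)
    (hζ : ∀ k, κ ≤ k → k < l → G.Circ (ζ k)) : l - κ ≤ G.numC (Hs κ ζ l) := by
  rw [← Nat.card_Ico]
  unfold numC
  have h1 : ∀ k, k ∈ Finset.Ico κ l → ζ k ∈ G.Z := fun k hk =>
    (hζ k (Finset.mem_Ico.1 hk).1 (Finset.mem_Ico.1 hk).2).1
  set f : ℕ → G.Z := fun k => if h : ζ k ∈ G.Z then ⟨ζ k, h⟩ else 0 with hf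
  have h2 : ∀ k ∈ Finset.Ico κ l, (f k).1 = ζ k := by
    intro k hk
    simp only [hf]
    rw [dif_pos (h1 k hk)]
  refine Finset.card_le_card_of_injOn f ?_ ?_
  · intro k hk
    rw [Finset.mem_coe] at hk
    have hk' := Finset.mem_Ico.1 hk
    simp only [Finset.coe_filter, Finset.mem_univ, true_and, Set.mem_ofPred_eq]
    rw [h2 k hk]
    refine ⟨fun e he => Finset.mem_filter.2 ⟨Finset.mem_univ _, k, hk'.1, hk'.2, he⟩,
      hζ k hk'.1 hk'.2⟩
  · intro a ha b hb hab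
    rw [Finset.mem_coe] at ha hb
    have h3 : ζ a = ζ b := by rw [← h2 a ha, ← h2 b hb, hab]
    have ha' := Finset.mem_Ico.1 ha
    have hb' := Finset.mem_Ico.1 hb
    have h4 := hw a ha'.1 (by omega)
    have h5 := hw b hb'.1 (by omega)
    rw [h3, h5] at h4
    exact h4.symm

theorem f6_numC_le (H : Finset E) : G.numC H ≤ G.numZ H := by
  unfold numC numZ
  exact Finset.card_le_card (fun z hz => by
    simp only [Finset.mem_filter, Finset.mem_univ, true_and] at hz ⊢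
    exact hz.1)

end MG

/-- an elementary inequality -/
theorem f6_sq_le (q : ℕ) (h : 4 ≤ q) : q * q ≤ 2 ^ q := by
  induction q, h using Nat.le_induction with
  | base => norm_num
  | succ q hq ih => rw [pow_succ]; nlinarith

theorem f6_pow_bound {C κ q : ℕ} (h : 2 ^ q ≤ 4 * C * (2 + κ + q)) : q ≤ 4 * C * (κ + 3) + 4 := by
  by_contra hcon
  push Not at hcon
  have h1 := f6_sq_le q (by omega)
  have h2 : (4 * C * (κ + 3) + 4) * q ≤ q * q := Nat.mul_le_mul_right _ hcon.le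
  have h3 : 4 * C * (2 + κ + q) < (4 * C * (κ + 3) + 4) * q := by
    have h4 : 1 ≤ q := by omega
    have h5 : 2 + κ + q ≤ (κ + 3) * q := by nlinarith
    have h6 : 4 * C * (2 + κ + q) ≤ 4 * C * ((κ + 3) * q) := Nat.mul_le_mul_left _ h5
    nlinarith
  omega

namespace MG

variable {V E : Type} [Fintype V] [Fintype E] (G : MG V E)

/-- 6.2: the weight of the union is linear -/
theorem f6_linear {n κ C₁ : ℕ} (hC : 1 ≤ C₁) (wt : E → ℕ) (ζ : ℕ → E → ZMod 2)
    (hζ : ∀ k, κ ≤ k → k ≤ n → ζ k ∈ G.Z ∧ wgt wt (ζ k) = k) (hZ : Fintype.card G.Z ≤ C₁ * n)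
    (hn : 2 * κ ≤ n) (l : ℕ) (hl1 : 1 ≤ l) (hl : l ≤ n + 1) :
    ∑ e ∈ Hs κ ζ l, wt e ≤ (4 * C₁ * (κ + 3) + κ + 5) * l ∧
      G.numZ (Hs κ ζ l) ≤ 2 * C₁ * (∑ e ∈ Hs κ ζ l, wt e + 1) := by
  have hw : ∀ k, κ ≤ k → k ≤ n → wgt wt (ζ k) = k := fun k h1 h2 => (hζ k h1 h2).2
  have hcd := G.f6_coset wt ζ hζ (Hs κ ζ l)
  have hnum : G.numZ (Hs κ ζ l) ≤ 2 * C₁ * (∑ e ∈ Hs κ ζ l, wt e + 1) := by
    have h1 : n ≤ 2 * (n + 1 - κ) := by omega
    set W := ∑ e ∈ Hs κ ζ l, wt e + 1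
    set N := G.numZ (Hs κ ζ l)
    by_contra hcon
    push Not at hcon
    have h2 : (n + 1 - κ) * N ≤ W * (C₁ * n) := hcd.trans (Nat.mul_le_mul_left _ hZ)
    have h3 : W * (C₁ * n) ≤ W * (C₁ * (2 * (n + 1 - κ))) :=
      Nat.mul_le_mul_left _ (Nat.mul_le_mul_left _ h1)
    have h4 : (n + 1 - κ) * (2 * C₁ * W) < (n + 1 - κ) * N :=
      Nat.mul_lt_mul_of_pos_left hcon (by omega)
    nlinarith
  refine ⟨?_, hnum⟩
  have hJ := f6_wt_Hs wt hw l hl
  set r := (Jp κ ζ l).card with hr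
  set i₀ := Nat.log 2 l with hi₀
  have hi1 : 2 ^ i₀ ≤ l := Nat.pow_log_le_self 2 (by omega)
  have hi2 : l < 2 ^ (i₀ + 1) := Nat.lt_pow_succ_log_self (by norm_num) l
  have hi3 : i₀ < 2 ^ i₀ := Nat.lt_two_pow_self
  by_cases hri : r ≤ i₀
  · have h1 := f6_sum_Jp wt hw l hl r 0 (by omega)
    have h2 : 2 ^ r ≤ 2 ^ i₀ := Nat.pow_le_pow_right (by norm_num) hri
    have h3 : κ * r ≤ κ * l := Nat.mul_le_mul_left _ (by omega)
    nlinarith
  · obtain ⟨q, hq⟩ : ∃ q, r = i₀ + q := ⟨r - i₀, by omega⟩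
    have h1 := f6_sum_Jp wt hw l hl i₀ q (by omega)
    have h3 : κ * i₀ ≤ κ * l := Nat.mul_le_mul_left _ (by omega)
    have h4 : ∑ e ∈ Hs κ ζ l, wt e ≤ (1 + κ + q) * l := by nlinarith
    have h5 := G.f6_card_Sp_le κ ζ l (fun k hk1 hk2 => (hζ k hk1 (by omega)).1)
    rw [← hr, hq] at h5
    have h6 : 2 ^ (i₀ + q) ≤ 2 * C₁ * ((1 + κ + q) * l + 1) :=
      h5.trans (hnum.trans (Nat.mul_le_mul_left _ (by omega)))
    have h7 : (1 + κ + q) * l + 1 ≤ (2 + κ + q) * l := by nlinarith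
    have h8 : 2 ^ i₀ * 2 ^ q ≤ 2 ^ i₀ * (4 * C₁ * (2 + κ + q)) := by
      rw [← pow_add]
      calc 2 ^ (i₀ + q) ≤ 2 * C₁ * ((2 + κ + q) * l) := h6.trans (Nat.mul_le_mul_left _ h7)
        _ ≤ 2 * C₁ * ((2 + κ + q) * 2 ^ (i₀ + 1)) :=
          Nat.mul_le_mul_left _ (Nat.mul_le_mul_left _ hi2.le)
        _ = 2 ^ i₀ * (4 * C₁ * (2 + κ + q)) := by ring
    have h9 : 2 ^ q ≤ 4 * C₁ * (2 + κ + q) := Nat.le_of_mul_le_mul_left h8 (by positivity)
    have h10 := f6_pow_bound h9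
    calc ∑ e ∈ Hs κ ζ l, wt e ≤ (1 + κ + q) * l := h4
      _ ≤ (4 * C₁ * (κ + 3) + κ + 5) * l := Nat.mul_le_mul_right _ (by omega)

/-- 6.3: vertices touched by the union of the supports -/
theorem f6_touched {n κ d₁ : ℕ} (hκ : 3 ≤ κ) (wt : E → ℕ) (lab : V → ℕ) (ζ : ℕ → E → ZMod 2)
    (hζ : ∀ k, κ ≤ k → k ≤ n → G.Circ (ζ k) ∧ wgt wt (ζ k) = k)
    (hlab : ∀ e, wt e = 0 → lab (G.s e) = lab (G.t e))
    (hcard : ∀ x, (univ.filter (fun v => lab v = x)).card ≤ d₁) (l : ℕ) (hl : l ≤ n + 1) :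
    (univ.filter (fun v => ∃ e ∈ Hs κ ζ l, G.s e = v ∨ G.t e = v)).card ≤
      2 * d₁ * ∑ e ∈ Hs κ ζ l, wt e := by
  set P := (Hs κ ζ l).filter (fun e => 0 < wt e) with hP
  set Lb := P.image (fun e => lab (G.s e)) ∪ P.image (fun e => lab (G.t e)) with hLb
  have hPc : P.card ≤ ∑ e ∈ Hs κ ζ l, wt e := by
    rw [Finset.card_eq_sum_ones]
    refine le_trans (Finset.sum_le_sum (g := wt) fun e he => ?_)
      (Finset.sum_le_sum_of_subset (Finset.filter_subset _ _))
    exact (Finset.mem_filter.1 he).2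
  have hLc : Lb.card ≤ 2 * P.card := by
    refine (Finset.card_union_le _ _).trans ?_
    have h1 := Finset.card_image_le (s := P) (f := fun e => lab (G.s e))
    have h2 := Finset.card_image_le (s := P) (f := fun e => lab (G.t e))
    omega
  have hsub : univ.filter (fun v => ∃ e ∈ Hs κ ζ l, G.s e = v ∨ G.t e = v) ⊆
      Lb.biUnion (fun x => univ.filter (fun v => lab v = x)) := by
    intro v hv
    obtain ⟨e, he, hev⟩ := (Finset.mem_filter.1 hv).2
    rw [Finset.mem_biUnion]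
    refine ⟨lab v, ?_, by simp⟩
    by_contra hcon
    obtain ⟨k, hk1, hk2, hk3⟩ := (Finset.mem_filter.1 he).2
    obtain ⟨hc, hw⟩ := hζ k hk1 (by omega)
    have key : ∀ e', ζ k e' = 1 → (lab (G.s e') = lab v ∨ lab (G.t e') = lab v) → wt e' = 0 := by
      intro e' h1 h2
      by_contra h3
      apply hcon
      have h4 : e' ∈ P := Finset.mem_filter.2
        ⟨Finset.mem_filter.2 ⟨Finset.mem_univ _, k, hk1, hk2, h1⟩, Nat.pos_of_ne_zero h3⟩
      rw [hLb, Finset.mem_union, Finset.mem_image, Finset.mem_image]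
      rcases h2 with h2 | h2
      · exact Or.inl ⟨e', h4, h2⟩
      · exact Or.inr ⟨e', h4, h2⟩
    have hin := G.circ_in_of_on hc (univ.filter (fun u => lab u = lab v)) (by
      intro e' he'
      by_contra h1
      have h1' := z2_ne_zero h1
      rw [mem_del] at he'
      simp only [Finset.mem_filter, Finset.mem_univ, true_and] at he'
      have h2 := key e' h1' (by tauto)
      have h3 := hlab e' h2
      rw [h3] at he'
      tauto) (v := v) (by simp) ⟨e, hk3, hev⟩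
    have h0 : wgt wt (ζ k) = 0 := by
      unfold wgt
      refine Finset.sum_eq_zero fun e' he' => ?_
      have h1 := (Finset.mem_filter.1 he').2
      have h2 := hin e' h1
      rw [mem_inn] at h2
      simp only [Finset.mem_filter, Finset.mem_univ, true_and] at h2
      exact key e' h1 (Or.inl h2.1)
    omega
  calc _ ≤ _ := Finset.card_le_card hsub
    _ ≤ Lb.card * d₁ := Finset.card_biUnion_le_card_mul _ _ _ (fun x _ => hcard x)
    _ ≤ (2 * ∑ e ∈ Hs κ ζ l, wt e) * d₁ := Nat.mul_le_mul_right _ (by omega)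
    _ = _ := by ring

variable {G}

theorem f6_card_F_le {L : E → ZMod 2} {m : ℕ} (R : G.Ring L m) (i : ℕ) : (R.F i).card ≤ 2 := by
  by_cases h : i < m
  · exact (R.two i h).le
  · have : R.F i = ∅ := by
      ext e
      simp only [Ring.F, Finset.mem_filter, Finset.mem_univ, true_and, Finset.notMem_empty,
        iff_false]
      intro he
      exact h (R.clt e i he)
    rw [this]; simp

theorem f6_card_del {Nb : ℕ} (r : G.Run Nb) : (G.del r.Y).card ≤ 6 := by
  have hsub : G.del r.Y ⊆ r.R.F r.a ∪ r.R.F (r.a + r.q) ∪ r.R.F 0 := by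
    intro e he
    rw [mem_del] at he
    simp only [Run.Y, Finset.mem_filter, Finset.mem_univ, true_and] at he
    simp only [Ring.F, Finset.mem_union, Finset.mem_filter, Finset.mem_univ, true_and]
    have ha := r.ha
    have hq := r.hq
    rcases hc : r.R.c e with _ | i
    · have := r.R.inner e hc
      omega
    · rcases i with _ | i
      · right; rfl
      · left
        have h1 := r.R.cross e i hc
        have h2 : i + 1 = r.a ∨ i + 1 = r.a + r.q := by omega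
        rcases h2 with h2 | h2
        · left; rw [h2]
        · right; rw [h2]
  have h1 := Finset.card_le_card hsub
  have h2 := Finset.card_union_le (r.R.F r.a ∪ r.R.F (r.a + r.q)) (r.R.F 0)
  have h3 := Finset.card_union_le (r.R.F r.a) (r.R.F (r.a + r.q))
  have h4 := f6_card_F_le r.R r.a
  have h5 := f6_card_F_le r.R (r.a + r.q)
  have h6 := f6_card_F_le r.R 0
  omega

theorem f6_card_Y {Nb : ℕ} (r : G.Run Nb) : r.Y.card ≤ r.q * Nb := by
  have hsub : r.Y ⊆ (Finset.Ico r.a (r.a + r.q)).biUnion (fun i => r.R.P i) := by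
    intro v hv
    simp only [Run.Y, Finset.mem_filter, Finset.mem_univ, true_and] at hv
    rw [Finset.mem_biUnion]
    exact ⟨r.R.h v, Finset.mem_Ico.2 hv, by simp [Ring.P]⟩
  refine (Finset.card_le_card hsub).trans ?_
  refine (Finset.card_biUnion_le_card_mul _ _ Nb (fun i hi => ?_)).trans ?_
  · rw [Finset.mem_Ico] at hi
    exact r.small i hi.1 hi.2
  · rw [Nat.card_Ico]
    exact Nat.mul_le_mul_right _ (by omega)

/-- on a long run the functional vanishes on the even chains in `H` -/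
theorem f6_ev_zero {Nb : ℕ} (r : G.Run Nb) (H : Finset E)
    (h : (univ.filter (fun v => ∃ e ∈ H, G.s e = v ∨ G.t e = v)).card < r.q) :
    ∀ z : G.Z, In z.1 H → G.ev r.L z = 0 := by
  set T := univ.filter (fun v => ∃ e ∈ H, G.s e = v ∨ G.t e = v) with hT
  have h1 : ∃ i, r.a ≤ i ∧ i < r.a + r.q ∧ ∀ v ∈ T, r.R.h v ≠ i := by
    by_contra hcon
    push Not at hcon
    have h2 : Finset.Ico r.a (r.a + r.q) ⊆ T.image r.R.h := by
      intro i hi
      rw [Finset.mem_Ico] at hi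
      obtain ⟨v, hv, hvi⟩ := hcon i hi.1 hi.2
      exact Finset.mem_image.2 ⟨v, hv, hvi⟩
    have h3 := (Finset.card_le_card h2).trans Finset.card_image_le
    rw [Nat.card_Ico] at h3
    omega
  obtain ⟨i, hi1, hi2, hi3⟩ := h1
  intro z hz
  have ha := r.ha
  have hq := r.hq
  rw [← r.R.lam i (by omega), ev_ind]
  refine Finset.sum_eq_zero fun e he => ?_
  have hc := (Finset.mem_filter.1 he).2
  by_contra h4
  have h5 := hz e (z2_ne_zero h4)
  obtain ⟨j, rfl⟩ : ∃ j, i = j + 1 := ⟨i - 1, by omega⟩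
  have hs : G.s e ∈ T := Finset.mem_filter.2 ⟨Finset.mem_univ _, e, h5, Or.inl rfl⟩
  have ht : G.t e ∈ T := Finset.mem_filter.2 ⟨Finset.mem_univ _, e, h5, Or.inr rfl⟩
  rcases r.R.cross e j hc with h6 | h6
  · exact hi3 _ ht h6.2
  · exact hi3 _ hs h6.1

variable (G)

/-- counting even chains by restriction to `K` -/
theorem f6_numZ_le (H K : Finset E) :
    G.numZ H ≤ (univ.filter (fun z : G.Z => In z.1 H ∧ ∀ e ∈ K, z.1 e = 0)).card * 2 ^ K.card := by
  have h1 : Fintype.card (K → ZMod 2) = 2 ^ K.card := by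
    rw [Fintype.card_fun, ZMod.card, Fintype.card_coe]
  rw [← h1, ← Finset.card_univ]
  unfold numZ
  refine Finset.card_le_mul_card_image_of_maps_to (f := fun (z : G.Z) (e : K) => z.1 e.1)
    (fun _ _ => Finset.mem_univ _) _ ?_
  intro b _
  rcases Finset.eq_empty_or_nonempty
    ((univ.filter (fun z : G.Z => In z.1 H)).filter (fun z => (fun e : K => z.1 e.1) = b)) with h | h
  · rw [h]; simp
  · obtain ⟨z₀, hz₀⟩ := h
    rw [Finset.mem_filter, Finset.mem_filter] at hz₀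
    refine Finset.card_le_card_of_injOn (fun z => z + z₀) ?_ (fun a _ b _ hab => add_right_cancel hab)
    intro z hz
    rw [Finset.mem_coe, Finset.mem_filter, Finset.mem_filter] at hz
    rw [Finset.mem_coe, Finset.mem_filter]
    refine ⟨Finset.mem_univ _, ?_, ?_⟩
    · rw [In_iff_zero]
      intro e he
      show z.1 e + z₀.1 e = 0
      rw [(In_iff_zero _ _).1 hz.1.2 e he, (In_iff_zero _ _).1 hz₀.1.2 e he, add_zero]
    · intro e he
      show z.1 e + z₀.1 e = 0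
      have h2 := congrFun hz.2 ⟨e, he⟩
      have h3 := congrFun hz₀.2 ⟨e, he⟩
      simp only at h2 h3
      rw [h2, h3, z2_add_self]

/-- chains avoiding `K`, when everything else is inside sets `Y j` with boundary in `K` -/
theorem f6_ker {p : ℕ} (H K : Finset E) (Y : Fin p → Finset V) (C : ℕ)
    (hdel : ∀ j, G.del (Y j) ⊆ K)
    (hcov : ∀ e, e ∉ K → ∃ j, e ∈ G.inn (Y j))
    (hnum : ∀ j, G.numZ ((H ∩ G.inn (Y j)) \ K) ≤ C) :
    (univ.filter (fun z : G.Z => In z.1 H ∧ ∀ e ∈ K, z.1 e = 0)).card ≤ C ^ p := by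
  set g : G.Z → Fin p → G.Z := fun z j =>
    if h : (fun e => if e ∈ G.inn (Y j) then z.1 e else 0) ∈ G.Z then ⟨_, h⟩ else 0 with hg
  have hgv : ∀ z : G.Z, (∀ e ∈ K, z.1 e = 0) → ∀ j e,
      (g z j).1 e = if e ∈ G.inn (Y j) then z.1 e else 0 := by
    intro z hz j e
    have h1 := G.restrict_mem z.2 (Y j) (fun e he => hz e (hdel j he))
    simp only [hg]
    rw [dif_pos h1]
  have h1 : (Fintype.piFinset (fun j => univ.filter (fun z : G.Z => In z.1 ((H ∩ G.inn (Y j)) \ K)))).card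
      ≤ C ^ p := by
    rw [Fintype.card_piFinset]
    calc _ ≤ ∏ _j : Fin p, C := Finset.prod_le_prod' (fun j _ => hnum j)
      _ = C ^ p := by simp
  refine le_trans (Finset.card_le_card_of_injOn g ?_ ?_) h1
  · intro z hz
    rw [Finset.mem_coe, Finset.mem_filter] at hz
    rw [Finset.mem_coe, Fintype.mem_piFinset]
    intro j
    rw [Finset.mem_filter]
    refine ⟨Finset.mem_univ _, fun e he => ?_⟩
    rw [hgv z hz.2.2] at he
    by_cases h2 : e ∈ G.inn (Y j)
    · rw [if_pos h2] at he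
      rw [Finset.mem_sdiff, Finset.mem_inter]
      refine ⟨⟨hz.2.1 e he, h2⟩, fun h3 => ?_⟩
      rw [hz.2.2 e h3] at he
      exact z2_one_ne_zero he.symm
    · rw [if_neg h2] at he
      exact absurd he.symm z2_one_ne_zero
  · intro z hz z' hz' hzz
    rw [Finset.mem_coe, Finset.mem_filter] at hz hz'
    apply Subtype.ext
    funext e
    by_cases hK : e ∈ K
    · rw [hz.2.2 e hK, hz'.2.2 e hK]
    · obtain ⟨j, hj⟩ := hcov e hK
      have h2 := hgv z hz.2.2 j e
      have h3 := hgv z' hz'.2.2 j e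
      rw [if_pos hj] at h2 h3
      rw [← h2, ← h3, hzz]

/-- the number of even chains in `H` is bounded -/
theorem f6_bound {Nb C p t C' : ℕ} (hG : G.Good) (core : Finset V) (runs : Fin p → G.Run Nb)
    (hcore : core.card ≤ C) (hcov : ∀ v, v ∈ core ∨ ∃ j, v ∈ (runs j).Y) (H : Finset E)
    (hlong : ∀ j, t < (runs j).q → G.numZ (H ∩ G.inn (runs j).Y) ≤ 2 ^ C') :
    G.numZ H ≤ 2 ^ (3 * C + p * (3 * (t * Nb) + 6) + C' * p) := by
  set K : Finset E := G.tch core ∪ univ.biUnion (fun j =>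
    if (runs j).q ≤ t then G.tch (runs j).Y else G.del (runs j).Y) with hK
  have hKc : K.card ≤ 3 * C + p * (3 * (t * Nb) + 6) := by
    have h1 := G.card_tch_le hG core
    have h2 : (univ.biUnion (fun j : Fin p =>
      if (runs j).q ≤ t then G.tch (runs j).Y else G.del (runs j).Y)).card ≤
        p * (3 * (t * Nb) + 6) := by
      refine (Finset.card_biUnion_le_card_mul _ _ (3 * (t * Nb) + 6) (fun j _ => ?_)).trans ?_
      · split_ifs with h
        · have h3 := G.card_tch_le hG (runs j).Y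
          have h4 := f6_card_Y (runs j)
          have h5 : (runs j).q * Nb ≤ t * Nb := Nat.mul_le_mul_right _ h
          omega
        · have h3 := f6_card_del (runs j)
          omega
      · rw [Finset.card_univ, Fintype.card_fin]
    have h3 := Finset.card_union_le (G.tch core) (univ.biUnion (fun j : Fin p =>
      if (runs j).q ≤ t then G.tch (runs j).Y else G.del (runs j).Y))
    rw [hK]
    omega
  have hsubK : ∀ j, (if (runs j).q ≤ t then G.tch (runs j).Y else G.del (runs j).Y) ⊆ K := by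
    intro j
    rw [hK]
    exact (Finset.subset_biUnion_of_mem (fun j =>
      if (runs j).q ≤ t then G.tch (runs j).Y else G.del (runs j).Y) (Finset.mem_univ j)).trans
      Finset.subset_union_right
  have htd : ∀ X : Finset V, G.del X ⊆ G.tch X := by
    intro X e he
    rw [mem_del] at he
    rw [mem_tch]
    tauto
  have hker := G.f6_ker H K (fun j => (runs j).Y) (2 ^ C') (fun j => by
      refine Finset.Subset.trans ?_ (hsubK j)
      split_ifs
      · exact htd _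
      · exact Finset.Subset.refl _) (fun e he => by
      have h1 : G.s e ∉ core := fun h => he (Finset.mem_union_left _ (G.mem_tch.2 (Or.inl h)))
      obtain ⟨j, hj⟩ := (hcov (G.s e)).resolve_left h1
      refine ⟨j, ?_⟩
      have h2 : e ∉ (if (runs j).q ≤ t then G.tch (runs j).Y else G.del (runs j).Y) :=
        fun h => he (hsubK j h)
      have h3 : e ∉ G.del (runs j).Y := by
        intro h3
        apply h2
        split_ifs
        · exact htd _ h3
        · exact h3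
      rw [mem_inn]
      refine ⟨hj, ?_⟩
      by_contra h4
      exact h3 (G.mem_del.2 (Or.inl ⟨hj, h4⟩))) (fun j => by
      by_cases h : (runs j).q ≤ t
      · have h1 : (H ∩ G.inn (runs j).Y) \ K = ∅ := by
          rw [Finset.sdiff_eq_empty_iff_subset]
          intro e he
          have h2 := hsubK j
          rw [if_pos h] at h2
          refine h2 (G.mem_tch.2 (Or.inl ?_))
          exact (G.mem_inn.1 (Finset.mem_inter.1 he).2).1
        rw [h1]
        have h2 : G.numZ (∅ : Finset E) ≤ 1 := by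
          unfold numZ
          refine Finset.card_le_one.2 fun a ha b hb => ?_
          have ha' := (In_iff_zero _ _).1 (Finset.mem_filter.1 ha).2
          have hb' := (In_iff_zero _ _).1 (Finset.mem_filter.1 hb).2
          apply Subtype.ext
          funext e
          rw [ha' e (by simp), hb' e (by simp)]
        exact h2.trans Nat.one_le_two_pow
      · refine le_trans ?_ (hlong j (by omega))
        unfold numZ
        refine Finset.card_le_card fun z hz => ?_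
        rw [Finset.mem_filter] at hz ⊢
        exact ⟨hz.1, fun e he => (Finset.mem_sdiff.1 (hz.2 e he)).1⟩)
  refine (G.f6_numZ_le H K).trans ?_
  rw [pow_add, mul_comm (2 ^ (3 * C + p * (3 * (t * Nb) + 6)))]
  refine Nat.mul_le_mul ?_ (Nat.pow_le_pow_right (by norm_num) hKc)
  rw [pow_mul]
  exact hker

end MG

/-- weighted cubic graph with circuits of all but few weights up to `n`, few even chains,
and labels. -/
structure WData (n κ C₁ d₁ : ℕ) where
  /-- vertices -/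
  V : Type
  /-- edges -/
  E : Type
  [fV : Fintype V]
  [fE : Fintype E]
  /-- the graph -/
  G : MG V E
  good : G.Good
  /-- weights -/
  wt : E → ℕ
  /-- labels of vertices -/
  lab : V → ℕ
  /-- the circuits -/
  ζ : ℕ → E → ZMod 2
  hκ : 3 ≤ κ
  hζ : ∀ k, κ ≤ k → k ≤ n → G.Circ (ζ k) ∧ wgt wt (ζ k) = k
  hZ : Fintype.card G.Z ≤ C₁ * n
  hlab : ∀ e, wt e = 0 → lab (G.s e) = lab (G.t e)
  hcard : ∀ x, (univ.filter (fun v => lab v = x)).card ≤ d₁

/-- section 6 -/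
theorem no_WData (κ C₁ d₁ : ℕ) : ∃ n₁ : ℕ, ∀ n, n₁ ≤ n → IsEmpty (WData n κ C₁ d₁) := by
  obtain ⟨A, hA⟩ : ∃ A, A = C₁ + 1 := ⟨_, rfl⟩
  obtain ⟨B, hB⟩ : ∃ B, B = 4 * A * (κ + 3) + κ + 5 := ⟨_, rfl⟩
  have hA1 : 1 ≤ A := by omega
  have hA0 : (0 : ℝ) < A := by exact_mod_cast hA1
  have hB0 : (0 : ℝ) ≤ B := by positivity
  obtain ⟨C, p, Nb, hst⟩ := structure_thm (1 / (2 * (A : ℝ))) (by positivity)
  obtain ⟨C', htube⟩ := tube (1 / (4 * (A : ℝ) * (B + 1))) (by positivity) Nb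
  obtain ⟨M, hM⟩ : ∃ M : ℕ → ℕ, ∀ t, M t = 3 * C + p * (3 * (t * Nb) + 6) + C' * p := ⟨_, fun _ => rfl⟩
  obtain ⟨L, hL⟩ : ∃ L : ℕ → ℕ, ∀ t, L t = 2 * κ + 1 + 2 ^ M t := ⟨_, fun _ => rfl⟩
  obtain ⟨T, hT⟩ : ∃ T : ℕ → ℕ, ∀ i, T (i + 1) = 2 * d₁ * (B * L (T i)) + T i :=
    ⟨fun i => Nat.rec 0 (fun _ t => 2 * d₁ * (B * L t) + t) i, fun _ => rfl⟩
  have hTm : Monotone T := monotone_nat_of_le_succ (fun i => by rw [hT]; omega)
  refine ⟨2 * κ + ∑ i ∈ Finset.range (p + 1), L (T i), fun n hn => ⟨fun W => ?_⟩⟩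
  obtain ⟨V, E, G, good, wt, lab, ζ, hκ, hζ, hZ, hlab, hcard⟩ := W
  have hn2 : 2 * κ ≤ n := by omega
  have hZA : Fintype.card G.Z ≤ A * n := hZ.trans (Nat.mul_le_mul_right _ (by omega))
  have hw : ∀ k, κ ≤ k → k ≤ n → wgt wt (ζ k) = k := fun k h1 h2 => (hζ k h1 h2).2
  have hzw : ∀ k, κ ≤ k → k ≤ n → ζ k ∈ G.Z ∧ wgt wt (ζ k) = k :=
    fun k h1 h2 => ⟨(hζ k h1 h2).1.1, (hζ k h1 h2).2⟩
  -- the probability of a circuit
  have hPr : 1 / (2 * (A : ℝ)) ≤ G.Pr (fun z => G.Circ z.1) := by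
    have h1 := G.f6_numC_ge wt hw (n + 1) le_rfl (fun k h1 h2 => (hζ k h1 (by omega)).1)
    have h2 : G.numC (MG.Hs κ ζ (n + 1)) ≤ (univ.filter (fun z : G.Z => G.Circ z.1)).card := by
      unfold MG.numC
      refine Finset.card_le_card fun z hz => ?_
      rw [Finset.mem_filter] at hz ⊢
      exact ⟨hz.1, hz.2.2⟩
    have h3 : (0 : ℝ) < (Fintype.card G.Z : ℝ) := by
      exact_mod_cast Fintype.card_pos
    unfold MG.Pr
    rw [div_le_div_iff₀ (by positivity) h3]
    have h4 : Fintype.card G.Z ≤ (univ.filter (fun z : G.Z => G.Circ z.1)).card * (2 * A) := by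
      calc Fintype.card G.Z ≤ A * n := hZA
        _ ≤ A * (2 * (n + 1 - κ)) := Nat.mul_le_mul_left _ (by omega)
        _ = (n + 1 - κ) * (2 * A) := by ring
        _ ≤ _ := Nat.mul_le_mul_right _ (h1.trans h2)
    have h5 : (Fintype.card G.Z : ℝ) ≤
        ((univ.filter (fun z : G.Z => G.Circ z.1)).card : ℝ) * (2 * (A : ℝ)) := by
      exact_mod_cast h4
    linarith
  obtain ⟨core, runs, hcore, hlen, hcov⟩ := hst V E G good hPr
  -- the gap
  obtain ⟨i, hi, hgap⟩ : ∃ i ∈ Finset.range (p + 1), ∀ j : Fin runs.length,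
      T i < (runs.get j).q → T (i + 1) < (runs.get j).q := by
    by_contra hcon
    push Not at hcon
    have hcon' : ∀ i : Fin (p + 1), ∃ j : Fin runs.length,
        T i.1 < (runs.get j).q ∧ (runs.get j).q ≤ T (i.1 + 1) := fun i =>
      hcon i.1 (Finset.mem_range.2 i.2)
    choose f hf1 hf2 using hcon'
    have key : ∀ a b : Fin (p + 1), a.1 < b.1 → f a ≠ f b := by
      intro a b hab hfab
      have h2 := hf2 a
      have h3 := hf1 b
      rw [← hfab] at h3
      have h4 := hTm (show a.1 + 1 ≤ b.1 by omega)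
      omega
    have h1 : Fintype.card (Fin (p + 1)) ≤ Fintype.card (Fin runs.length) := by
      refine Fintype.card_le_of_injective f ?_
      intro a b hab
      rcases lt_trichotomy a.1 b.1 with h | h | h
      · exact absurd hab (key a b h)
      · exact Fin.ext h
      · exact absurd hab.symm (key b a h)
    rw [Fintype.card_fin, Fintype.card_fin] at h1
    omega
  obtain ⟨t, ht⟩ : ∃ t, t = T i := ⟨_, rfl⟩
  obtain ⟨l, hl⟩ : ∃ l, l = L t := ⟨_, rfl⟩
  have hln : l ≤ n + 1 := by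
    have h1 : L (T i) ≤ ∑ i ∈ Finset.range (p + 1), L (T i) :=
      Finset.single_le_sum (f := fun i => L (T i)) (fun _ _ => Nat.zero_le _) hi
    rw [hl, ht]
    omega
  obtain ⟨X, hX⟩ : ∃ X, X = 2 ^ M t := ⟨_, rfl⟩
  have hl' : l = 2 * κ + 1 + X := by rw [hX]; exact hl.trans (hL t)
  have hTi : T (i + 1) = 2 * d₁ * (B * l) + t := by rw [hT, hl, ht]
  obtain ⟨hlin1, hlin2⟩ := G.f6_linear hA1 wt ζ hzw hZA hn2 l (by omega) hln
  rw [← hB] at hlin1
  have hC := G.f6_numC_ge wt hw l hln (fun k h1 h2 => (hζ k h1 (by omega)).1)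
  have hratio : 1 / (4 * (A : ℝ) * (B + 1)) * G.numZ (MG.Hs κ ζ l) ≤ G.numC (MG.Hs κ ζ l) := by
    have h1 : G.numZ (MG.Hs κ ζ l) ≤ 2 * A * ((B + 1) * l) := by
      refine hlin2.trans (Nat.mul_le_mul_left _ ?_)
      have : 1 ≤ l := by omega
      nlinarith
    have h2 : (G.numZ (MG.Hs κ ζ l) : ℝ) ≤ 2 * A * ((B + 1) * l) := by exact_mod_cast h1
    have h3 : (l : ℝ) ≤ 2 * (G.numC (MG.Hs κ ζ l) : ℝ) := by
      have : l ≤ 2 * G.numC (MG.Hs κ ζ l) := by omega
      exact_mod_cast this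
    rw [div_mul_eq_mul_div, one_mul, div_le_iff₀ (by positivity)]
    have h4 : (0 : ℝ) ≤ 2 * A * (B + 1) := by positivity
    nlinarith [mul_le_mul_of_nonneg_left h3 h4]
  have hbd := G.f6_bound (C' := C') (t := t) good core (fun j => runs.get j) hcore (fun v => by
      rcases hcov v with h | ⟨r, hr, hv⟩
      · exact Or.inl h
      · obtain ⟨j, hj⟩ := List.get_of_mem hr
        exact Or.inr ⟨j, by rw [hj]; exact hv⟩) (MG.Hs κ ζ l) (fun j hj => by
      rw [ht] at hj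
      have h1 := hgap j hj
      refine htube V E G good (runs.get j) (MG.Hs κ ζ l) (MG.f6_ev_zero _ _ ?_) hratio
      have h2 := G.f6_touched hκ wt lab ζ hζ hlab hcard l hln
      have h3 : 2 * d₁ * ∑ e ∈ MG.Hs κ ζ l, wt e ≤ 2 * d₁ * (B * l) := Nat.mul_le_mul_left _ hlin1
      omega)
  have hexp : 3 * C + runs.length * (3 * (t * Nb) + 6) + C' * runs.length ≤ M t := by
    rw [hM]
    have h1 : runs.length * (3 * (t * Nb) + 6) ≤ p * (3 * (t * Nb) + 6) :=
      Nat.mul_le_mul_right _ hlen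
    have h2 : C' * runs.length ≤ C' * p := Nat.mul_le_mul_left _ hlen
    omega
  have h1 : G.numZ (MG.Hs κ ζ l) ≤ X := by
    rw [hX]; exact hbd.trans (Nat.pow_le_pow_right (by norm_num) hexp)
  have h2 := G.f6_numC_le (MG.Hs κ ζ l)
  omega

end Cyc
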