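import Pool.Agent.Cyc.Defs

/-!
# Linear algebra and elementary combinatorics of cycle spaces
-/

open Finset
open scoped Classical

set_option linter.unusedSectionVars false
set_option linter.unnecessarySeqFocus false

namespace Cyc

theorem z2_cases (x : ZMod 2) : x = 0 ∨ x = 1 := by revert x; decide

theorem z2_ne_zero {x : ZMod 2} (h : x ≠ 0) : x = 1 := (z2_cases x).resolve_left h

theorem z2_ne_one {x : ZMod 2} (h : x ≠ 1) : x = 0 := (z2_cases x).resolve_right h

theorem z2_add_self (x : ZMod 2) : x + x = 0 := by revert x; decide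

theorem z2_add_eq_zero {x y : ZMod 2} : x + y = 0 ↔ x = y := by revert x y; decide

theorem z2_one_ne_zero : (1 : ZMod 2) ≠ 0 := by decide

theorem chain_add_self {α : Type} (f : α → ZMod 2) : f + f = 0 := by
  funext x; exact z2_add_self _

theorem chain_add_eq_zero {α : Type} {f g : α → ZMod 2} : f + g = 0 ↔ f = g := by
  constructor
  · intro h; funext x; exact z2_add_eq_zero.1 (congrFun h x)
  · rintro rfl; exact chain_add_self f

theorem In_iff_zero {E : Type} (c : E → ZMod 2) (K : Finset E) : In c K ↔ ∀ e, e ∉ K → c e = 0 := by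
  constructor
  · intro h e he
    by_contra h'
    exact he (h e (z2_ne_zero h'))
  · intro h e he
    by_contra h'
    rw [h e h'] at he
    exact z2_one_ne_zero he.symm

theorem Le.refl {E : Type} (c : E → ZMod 2) : Le c c := fun _ h => h

theorem Le.trans {E : Type} {a b c : E → ZMod 2} (h : Le a b) (h' : Le b c) : Le a c :=
  fun e he => h' e (h e he)

theorem Le.antisymm {E : Type} {a b : E → ZMod 2} (h : Le a b) (h' : Le b a) : a = b := by
  funext e
  rcases z2_cases (a e) with ha | ha
  · rcases z2_cases (b e) with hb | hb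
    · rw [ha, hb]
    · rw [h' e hb] at ha; exact absurd ha z2_one_ne_zero
  · rw [ha, h e ha]

namespace MG

variable {V E : Type} [Fintype V] [Fintype E] (G : MG V E)

/-- degree of a vertex in a chain. -/
noncomputable def deg (z : E → ZMod 2) (v : V) : ℕ :=
  (univ.filter (fun e => z e = 1 ∧ G.s e = v)).card + (univ.filter (fun e => z e = 1 ∧ G.t e = v)).card

/-- `v` is a vertex of the chain `c`. -/
def On (c : E → ZMod 2) (v : V) : Prop := ∃ e, c e = 1 ∧ (G.s e = v ∨ G.t e = v)

theorem mem_Z {z : E → ZMod 2} : z ∈ G.Z ↔ ∀ v, G.bd z v = 0 := Iff.rfl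

theorem d_add (φ ψ : V → ZMod 2) : G.d (φ + ψ) = G.d φ + G.d ψ := by
  funext e; simp only [d, Pi.add_apply]; ring

theorem bd_add (y z : E → ZMod 2) (v : V) : G.bd (y + z) v = G.bd y v + G.bd z v := by
  unfold bd
  rw [← Finset.sum_add_distrib]
  refine Finset.sum_congr rfl fun e _ => ?_
  by_cases h3 : G.s e = v <;> by_cases h4 : G.t e = v <;> simp [h3, h4] <;> ring

theorem pair_d (φ : V → ZMod 2) (z : E → ZMod 2) :
    ∑ e, G.d φ e * z e = ∑ v, φ v * G.bd z v := by
  unfold bd d
  simp_rw [Finset.mul_sum]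
  rw [Finset.sum_comm]
  refine Finset.sum_congr rfl fun e _ => ?_
  simp_rw [mul_add, Finset.sum_add_distrib, mul_ite, mul_zero]
  rw [Finset.sum_ite_eq, Finset.sum_ite_eq]
  simp
  ring

theorem ev_add (f g : E → ZMod 2) : G.ev (f + g) = G.ev f + G.ev g := by
  funext z
  simp only [ev, Pi.add_apply, add_mul, Finset.sum_add_distrib]

theorem ev_map_add (f : E → ZMod 2) (y z : G.Z) : G.ev f (y + z) = G.ev f y + G.ev f z := by
  simp only [ev, Submodule.coe_add, Pi.add_apply, mul_add, Finset.sum_add_distrib]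

theorem ev_zero : G.ev (0 : E → ZMod 2) = 0 := by
  funext z; simp [ev]

theorem co_eq (e : E) : G.co e = G.ev (Pi.single e 1) := by
  funext z
  simp [co, ev, Pi.single_apply]

theorem ev_ind (K : Finset E) (z : G.Z) : G.ev (ind K) z = ∑ e ∈ K, z.1 e := by
  simp [ev, ind, Finset.sum_ite_mem]

theorem ev_d (φ : V → ZMod 2) : G.ev (G.d φ) = 0 := by
  funext z
  show ∑ e, G.d φ e * z.1 e = 0
  rw [pair_d]
  exact Finset.sum_eq_zero fun v _ => by rw [z.2 v, mul_zero]

/-- boundary as a linear map -/
noncomputable def bdL : (E → ZMod 2) →ₗ[ZMod 2] (V → ZMod 2) where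
  toFun z := fun v => G.bd z v
  map_add' y z := by funext v; exact G.bd_add y z v
  map_smul' c z := by
    funext v
    simp only [bd, Pi.smul_apply, smul_eq_mul, RingHom.id_apply, Finset.mul_sum]
    refine Finset.sum_congr rfl fun e _ => ?_
    by_cases h3 : G.s e = v <;> by_cases h4 : G.t e = v <;> simp [h3, h4] <;> ring

/-- the linear functional attached to a chain -/
noncomputable def fL (f : E → ZMod 2) : (E → ZMod 2) →ₗ[ZMod 2] ZMod 2 where
  toFun := fun z => ∑ e, f e * z e
  map_add' := fun y z => by simp only [Pi.add_apply, mul_add, Finset.sum_add_distrib]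
  map_smul' := fun c z => by
    simp only [Pi.smul_apply, smul_eq_mul, RingHom.id_apply, Finset.mul_sum]
    exact Finset.sum_congr rfl fun e _ => by ring

theorem fL_single (f : E → ZMod 2) (e : E) : fL f (Pi.single e 1) = f e := by
  simp [fL, Pi.single_apply]

theorem exists_chain (F : (E → ZMod 2) →ₗ[ZMod 2] ZMod 2) : ∃ f, F = fL f := by
  refine ⟨fun e => F (Pi.single e 1), ?_⟩
  refine LinearMap.pi_ext' fun e => ?_
  ext
  simp [fL, Pi.single_apply]

theorem bd_single (e : E) (v : V) : G.bd (Pi.single e 1) v =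
    (if G.s e = v then 1 else 0) + (if G.t e = v then 1 else 0) := by
  unfold bd
  rw [Finset.sum_eq_single e]
  · simp
  · intro b _ hb
    simp [Pi.single_apply, hb]
  · simp

theorem cut_of_ev_zero (f : E → ZMod 2) (h : G.ev f = 0) : G.Cut f := by
  have hk : fL f ∈ (LinearMap.ker G.bdL).dualAnnihilator := by
    rw [Submodule.mem_dualAnnihilator]
    intro z hz
    rw [LinearMap.mem_ker] at hz
    exact congrFun h ⟨z, fun v => congrFun hz v⟩
  rw [← LinearMap.range_dualMap_eq_dualAnnihilator_ker] at hk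
  obtain ⟨g, hg⟩ := hk
  refine ⟨fun v => g (Pi.single v 1), ?_⟩
  funext e
  have h1 : fL f (Pi.single e 1) = g (G.bdL (Pi.single e 1)) := by
    rw [← hg]; rfl
  have h2 : G.bdL (Pi.single e 1) = Pi.single (G.s e) 1 + Pi.single (G.t e) 1 := by
    funext v
    show G.bd (Pi.single e 1) v = _
    rw [bd_single]
    simp only [Pi.add_apply, Pi.single_apply]
    congr 1 <;> simp only [eq_comm]
  rw [fL_single, h2, map_add] at h1
  exact h1

/-- duality -/
theorem ev_eq_zero_iff (f : E → ZMod 2) : G.ev f = 0 ↔ G.Cut f := by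
  constructor
  · exact G.cut_of_ev_zero f
  · rintro ⟨φ, rfl⟩
    exact G.ev_d φ

theorem ev_eq_iff (f g : E → ZMod 2) : G.ev f = G.ev g ↔ ∃ φ, f + g = G.d φ := by
  rw [← chain_add_eq_zero (f := G.ev f) (g := G.ev g), ← G.ev_add, ev_eq_zero_iff]
  rfl

/-- extension -/
theorem extension (K : Finset E) (x : E → ZMod 2)
    (h : ∀ φ : V → ZMod 2, (∀ e, e ∉ K → G.d φ e = 0) → ∑ e ∈ K, x e * G.d φ e = 0) :
    ∃ z ∈ G.Z, ∀ e ∈ K, z e = x e := by
  let N : Submodule (ZMod 2) (E → ZMod 2) :=
    { carrier := {y | ∀ e ∈ K, y e = 0}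
      add_mem' := fun {a b} ha hb e he => by
        simp only [Set.mem_setOf_eq] at ha hb
        rw [Pi.add_apply, ha e he, hb e he, add_zero]
      zero_mem' := fun e _ => rfl
      smul_mem' := fun c a ha e he => by
        simp only [Set.mem_setOf_eq] at ha
        rw [Pi.smul_apply, ha e he, smul_zero] }
  by_cases hx : x ∈ G.Z ⊔ N
  · obtain ⟨z, hz, y, hy, hzy⟩ := Submodule.mem_sup.1 hx
    refine ⟨z, hz, fun e he => ?_⟩
    rw [← hzy, Pi.add_apply, show y e = 0 from hy e he, add_zero]
  · exfalso
    obtain ⟨F, hF, hle⟩ := Submodule.exists_le_ker_of_notMem hx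
    obtain ⟨f, rfl⟩ := exists_chain F
    have h1 : G.ev f = 0 := by
      funext z
      have : (z : E → ZMod 2) ∈ G.Z ⊔ N := Submodule.mem_sup_left z.2
      exact LinearMap.mem_ker.1 (hle this)
    obtain ⟨φ, hφ⟩ := G.cut_of_ev_zero f h1
    have h2 : ∀ e, e ∉ K → G.d φ e = 0 := by
      intro e he
      have h3 : (Pi.single e 1 : E → ZMod 2) ∈ G.Z ⊔ N := by
        refine Submodule.mem_sup_right ?_
        intro e' he'
        have : e' ≠ e := by rintro rfl; exact he he'
        simp [Pi.single_apply, this]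
      have h4 := LinearMap.mem_ker.1 (hle h3)
      rw [fL_single] at h4
      rw [← hφ]; exact h4
    apply hF
    have h5 := h φ h2
    show ∑ e, f e * x e = 0
    rw [← h5]
    symm
    have h6 : ∑ e ∈ K, x e * G.d φ e = ∑ e, x e * G.d φ e := by
      refine Finset.sum_subset (Finset.subset_univ _) fun e _ he => ?_
      rw [h2 e he, mul_zero]
    rw [h6]
    refine Finset.sum_congr rfl fun e _ => ?_
    rw [hφ, mul_comm]

theorem mem_tch {X : Finset V} {e : E} : e ∈ G.tch X ↔ G.s e ∈ X ∨ G.t e ∈ X := by simp [tch]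

theorem mem_inn {X : Finset V} {e : E} : e ∈ G.inn X ↔ G.s e ∈ X ∧ G.t e ∈ X := by simp [inn]

theorem mem_del {X : Finset V} {e : E} :
    e ∈ G.del X ↔ (G.s e ∈ X ∧ G.t e ∉ X) ∨ (G.s e ∉ X ∧ G.t e ∈ X) := by simp [del]

/-- a chain which is even at the vertices of `R` extends to an even chain if the complement of `R`
is connected. -/
theorem extend_conn (R : Finset V) (hR : G.ConnOn Rᶜ) (x : E → ZMod 2)
    (hx : ∀ v ∈ R, G.bd x v = 0) : ∃ z ∈ G.Z, ∀ e ∈ G.tch R, z e = x e := by
  apply G.extension
  intro φ hφ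
  -- a constant value outside `R`
  obtain ⟨c, hc⟩ : ∃ c : ZMod 2, ∀ v, v ∉ R → φ v = c := by
    by_cases hne : ∃ u, u ∉ R
    · obtain ⟨u, hu⟩ := hne
      refine ⟨φ u, fun v hv => ?_⟩
      refine hR φ ?_ v (Finset.mem_compl.2 hv) u (Finset.mem_compl.2 hu)
      intro e h1 h2
      have h3 : e ∉ G.tch R := by
        rw [mem_tch]
        rw [Finset.mem_compl] at h1 h2
        tauto
      exact z2_add_eq_zero.1 (hφ e h3)
    · push Not at hne
      exact ⟨0, fun v hv => absurd (hne v) hv⟩
  have h1 : ∑ e ∈ G.tch R, x e * G.d φ e = ∑ e, G.d (fun v => φ v + c) e * x e := by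
    have h2 : ∀ e, G.d (fun v => φ v + c) e = G.d φ e := by
      intro e
      simp only [d]
      have := z2_add_self c
      linear_combination this
    rw [show ∑ e, G.d (fun v => φ v + c) e * x e = ∑ e, x e * G.d φ e from
      Finset.sum_congr rfl fun e _ => by rw [h2, mul_comm]]
    refine Finset.sum_subset (Finset.subset_univ _) fun e _ he => ?_
    rw [hφ e he, mul_zero]
  rw [h1, pair_d]
  refine Finset.sum_eq_zero fun v _ => ?_
  by_cases hv : v ∈ R
  · rw [hx v hv, mul_zero]
  · simp only [hc v hv, z2_add_self, zero_mul]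

/-- components -/
theorem exists_comp (A : Finset V) (a : V) (ha : a ∉ A) :
    ∃ O : Finset V, a ∈ O ∧ Disjoint O A ∧ G.ConnOn O ∧
      ∀ e, G.s e ∉ A → G.t e ∉ A → (G.s e ∈ O ↔ G.t e ∈ O) := by
  let O : Finset V := univ.filter (fun v => v ∉ A ∧ ∀ φ : V → ZMod 2,
    (∀ e, G.s e ∉ A → G.t e ∉ A → φ (G.s e) = φ (G.t e)) → φ v = φ a)
  have hO : ∀ v, v ∈ O ↔ (v ∉ A ∧ ∀ φ : V → ZMod 2,
    (∀ e, G.s e ∉ A → G.t e ∉ A → φ (G.s e) = φ (G.t e)) → φ v = φ a) := by
    intro v; simp [O]
  have hcl : ∀ e, G.s e ∉ A → G.t e ∉ A → (G.s e ∈ O ↔ G.t e ∈ O) := by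
    intro e h1 h2
    rw [hO, hO]
    constructor
    · rintro ⟨_, h⟩
      exact ⟨h2, fun φ hφ => by rw [← hφ e h1 h2]; exact h φ hφ⟩
    · rintro ⟨_, h⟩
      exact ⟨h1, fun φ hφ => by rw [hφ e h1 h2]; exact h φ hφ⟩
  refine ⟨O, (hO a).2 ⟨ha, fun _ _ => rfl⟩, ?_, ?_, hcl⟩
  · rw [Finset.disjoint_left]
    intro v hv
    exact ((hO v).1 hv).1
  · intro φ hφ u hu v hv
    have key : ∀ w, w ∈ O → φ w = φ a := by
      intro w hw
      have h1 := ((hO w).1 hw).2 (fun x => if x ∈ O then φ x + φ a else 0) ?_
      · simp only [hw, if_true, (hO a).2 ⟨ha, fun _ _ => rfl⟩, z2_add_self] at h1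
        exact z2_add_eq_zero.1 h1
      · intro e h1 h2
        by_cases h3 : G.s e ∈ O
        · have h4 := (hcl e h1 h2).1 h3
          simp only [h3, h4, if_true, hφ e h3 h4]
        · have h4 : G.t e ∉ O := fun h => h3 ((hcl e h1 h2).2 h)
          simp only [h3, h4, if_false]
    rw [key u hu, key v hv]

theorem connOn_union {B C : Finset V} (hB : G.ConnOn B) (hC : G.ConnOn C) (x y : V)
    (hx : x ∈ B) (hy : y ∈ C) (h : x = y ∨ ∃ e, (G.s e = x ∧ G.t e = y) ∨ (G.s e = y ∧ G.t e = x)) :
    G.ConnOn (B ∪ C) := by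
  intro φ hφ u hu v hv
  have h1 : φ x = φ y := by
    rcases h with rfl | ⟨e, ⟨rfl, rfl⟩ | ⟨rfl, rfl⟩⟩
    · rfl
    · exact hφ e (Finset.mem_union_left _ hx) (Finset.mem_union_right _ hy)
    · exact (hφ e (Finset.mem_union_right _ hy) (Finset.mem_union_left _ hx)).symm
  have hB' : ∀ w ∈ B, φ w = φ x := fun w hw => hB φ (fun e h1 h2 =>
    hφ e (Finset.mem_union_left _ h1) (Finset.mem_union_left _ h2)) w hw x hx
  have hC' : ∀ w ∈ C, φ w = φ y := fun w hw => hC φ (fun e h1 h2 =>
    hφ e (Finset.mem_union_right _ h1) (Finset.mem_union_right _ h2)) w hw y hy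
  have key : ∀ w ∈ B ∪ C, φ w = φ x := by
    intro w hw
    rcases Finset.mem_union.1 hw with hw | hw
    · exact hB' w hw
    · rw [hC' w hw, h1]
  rw [key u hu, key v hv]

theorem d_ind (X : Finset V) : G.d (ind X) = ind (G.del X) := by
  funext e
  simp only [d, ind, mem_del]
  by_cases h1 : G.s e ∈ X <;> by_cases h2 : G.t e ∈ X <;> simp [h1, h2, z2_add_self]

/-- parity: `z` in the cycle space meets `del X` in an even number of edges. -/
theorem sum_del {z : E → ZMod 2} (hz : z ∈ G.Z) (X : Finset V) : ∑ e ∈ G.del X, z e = 0 := by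
  have h := congrFun (G.ev_d (ind X)) ⟨z, hz⟩
  rw [d_ind, ev_ind] at h
  exact h

/-- every nonzero even chain contains a circuit. -/
theorem exists_circ {z : E → ZMod 2} (hz : z ∈ G.Z) (h : z ≠ 0) : ∃ c, G.Circ c ∧ Le c z := by
  have key : ∀ n (z : E → ZMod 2), len z ≤ n → z ∈ G.Z → z ≠ 0 → ∃ c, G.Circ c ∧ Le c z := by
    intro n
    induction n with
    | zero =>
      intro z hn _ hz0
      exfalso
      apply hz0
      funext e
      by_contra he
      have : e ∈ univ.filter (fun e => z e = 1) := by simp [z2_ne_zero he]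
      have h1 : 0 < len z := Finset.card_pos.2 ⟨e, this⟩
      omega
    | succ n ih =>
      intro z hn hz hz0
      by_cases hc : G.Circ z
      · exact ⟨z, hc, Le.refl z⟩
      · have : ∃ c' ∈ G.Z, Le c' z ∧ c' ≠ 0 ∧ c' ≠ z := by
          by_contra hcon
          push Not at hcon
          refine hc ⟨hz, hz0, fun c' h1 h2 => ?_⟩
          by_cases h3 : c' = 0
          · exact Or.inl h3
          · exact Or.inr (hcon c' h1 h2 h3)
        obtain ⟨c', h1, h2, h3, h4⟩ := this
        have h5 : len c' < len z := by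
          apply Finset.card_lt_card
          rw [Finset.ssubset_iff_subset_ne]
          refine ⟨fun e he => ?_, fun heq => ?_⟩
          · simp only [Finset.mem_filter, Finset.mem_univ, true_and] at he ⊢
            exact h2 e he
          · apply h4
            apply Le.antisymm h2
            intro e he
            have : e ∈ univ.filter (fun e => z e = 1) := by simp [he]
            rw [← heq] at this
            simpa using this
        obtain ⟨c, hc1, hc2⟩ := ih c' (by omega) h1 h3
        exact ⟨c, hc1, hc2.trans h2⟩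
  exact key _ z le_rfl hz h

theorem bd_congr {y z : E → ZMod 2} {v : V} (h : ∀ e, G.s e = v ∨ G.t e = v → y e = z e) :
    G.bd y v = G.bd z v := by
  unfold bd
  refine Finset.sum_congr rfl fun e _ => ?_
  by_cases h1 : G.s e = v
  · rw [h e (Or.inl h1)]
  · by_cases h2 : G.t e = v
    · rw [h e (Or.inr h2)]
    · simp [h1, h2]

theorem bd_zero (v : V) : G.bd (0 : E → ZMod 2) v = 0 := by simp [bd]

/-- restriction to `inn X` of an even chain without edges in `del X` is even. -/
theorem restrict_mem {z : E → ZMod 2} (hz : z ∈ G.Z) (X : Finset V)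
    (h : ∀ e ∈ G.del X, z e = 0) : (fun e => if e ∈ G.inn X then z e else 0) ∈ G.Z := by
  intro v
  by_cases hv : v ∈ X
  · refine (G.bd_congr ?_).trans (hz v)
    intro e he
    by_cases h1 : e ∈ G.inn X
    · simp [h1]
    · simp only [h1, if_false]
      symm
      apply h
      rw [mem_del]
      rw [mem_inn] at h1
      rcases he with rfl | rfl <;> tauto
  · refine (G.bd_congr ?_).trans (G.bd_zero v)
    intro e he
    have h1 : e ∉ G.inn X := by
      rw [mem_inn]
      rcases he with rfl | rfl <;> tauto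
    simp [h1]

theorem not_mem_inn_compl {X : Finset V} {e : E} : e ∈ G.inn Xᶜ ↔ e ∉ G.inn X ∧ e ∉ G.del X := by
  simp only [mem_inn, mem_del, Finset.mem_compl]
  tauto

theorem del_compl (X : Finset V) : G.del Xᶜ = G.del X := by
  ext e
  simp only [mem_del, Finset.mem_compl]
  tauto

theorem circ_in_or {c : E → ZMod 2} (hc : G.Circ c) (X : Finset V)
    (h : ∀ e ∈ G.del X, c e = 0) : In c (G.inn X) ∨ In c (G.inn Xᶜ) := by
  have h1 := G.restrict_mem hc.1 X h
  rcases hc.2.2 _ h1 (by
    intro e he
    by_cases h2 : e ∈ G.inn X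
    · simpa [h2] using he
    · simp only [h2, if_false] at he
      exact absurd he.symm z2_one_ne_zero) with h2 | h2
  · right
    intro e he
    rw [not_mem_inn_compl]
    refine ⟨fun h3 => ?_, fun h3 => ?_⟩
    · have h4 := congrFun h2 e
      simp only [h3, if_true] at h4
      rw [he] at h4
      exact z2_one_ne_zero h4
    · rw [h e h3] at he
      exact z2_one_ne_zero he.symm
  · left
    intro e he
    by_contra h3
    have h4 := congrFun h2 e
    simp only [h3, if_false] at h4
    rw [he] at h4
    exact z2_one_ne_zero h4.symm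

/-- a circuit which avoids the edges of `del X` and has a vertex in `X` is inside `X`. -/
theorem circ_in_of_on {c : E → ZMod 2} (hc : G.Circ c) (X : Finset V)
    (h : ∀ e ∈ G.del X, c e = 0) {v : V} (hv : v ∈ X) (hon : G.On c v) : In c (G.inn X) := by
  rcases G.circ_in_or hc X h with h1 | h1
  · exact h1
  · exfalso
    obtain ⟨e, he, h2⟩ := hon
    have h3 := h1 e he
    rw [mem_inn, Finset.mem_compl, Finset.mem_compl] at h3
    rcases h2 with rfl | rfl
    · exact h3.1 hv
    · exact h3.2 hv

theorem card_s_add_card_t (X : Finset V) :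
    (univ.filter (fun e => G.s e ∈ X)).card + (univ.filter (fun e => G.t e ∈ X)).card =
      ∑ v ∈ X, ((univ.filter (fun e => G.s e = v)).card + (univ.filter (fun e => G.t e = v)).card) := by
  rw [Finset.sum_add_distrib]
  congr 1
  · rw [Finset.card_eq_sum_card_fiberwise (f := G.s) (t := X)]
    · refine Finset.sum_congr rfl fun v hv => ?_
      congr 1
      ext e
      simp only [Finset.mem_filter, Finset.mem_univ, true_and]
      constructor
      · rintro ⟨_, h⟩; exact h
      · rintro rfl; exact ⟨hv, rfl⟩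
    · intro e he
      simpa using he
  · rw [Finset.card_eq_sum_card_fiberwise (f := G.t) (t := X)]
    · refine Finset.sum_congr rfl fun v hv => ?_
      congr 1
      ext e
      simp only [Finset.mem_filter, Finset.mem_univ, true_and]
      constructor
      · rintro ⟨_, h⟩; exact h
      · rintro rfl; exact ⟨hv, rfl⟩
    · intro e he
      simpa using he

theorem card_st (X : Finset V) :
    (univ.filter (fun e => G.s e ∈ X)).card + (univ.filter (fun e => G.t e ∈ X)).card =
      2 * (G.inn X).card + (G.del X).card := by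
  have h1 : (univ.filter (fun e => G.s e ∈ X)).card =
      (G.inn X).card + (univ.filter (fun e => G.s e ∈ X ∧ G.t e ∉ X)).card := by
    rw [← Finset.card_union_of_disjoint]
    · congr 1
      ext e
      simp only [inn, Finset.mem_filter, Finset.mem_univ, true_and, Finset.mem_union]
      tauto
    · rw [Finset.disjoint_left]
      intro e
      simp only [inn, Finset.mem_filter, Finset.mem_univ, true_and]
      tauto
  have h2 : (univ.filter (fun e => G.t e ∈ X)).card =
      (G.inn X).card + (univ.filter (fun e => G.s e ∉ X ∧ G.t e ∈ X)).card := by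
    rw [← Finset.card_union_of_disjoint]
    · congr 1
      ext e
      simp only [inn, Finset.mem_filter, Finset.mem_univ, true_and, Finset.mem_union]
      tauto
    · rw [Finset.disjoint_left]
      intro e
      simp only [inn, Finset.mem_filter, Finset.mem_univ, true_and]
      tauto
  have h3 : (G.del X).card = (univ.filter (fun e => G.s e ∈ X ∧ G.t e ∉ X)).card +
      (univ.filter (fun e => G.s e ∉ X ∧ G.t e ∈ X)).card := by
    rw [← Finset.card_union_of_disjoint]
    · congr 1
      ext e
      simp only [del, Finset.mem_filter, Finset.mem_univ, true_and, Finset.mem_union]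
    · rw [Finset.disjoint_left]
      intro e
      simp only [Finset.mem_filter, Finset.mem_univ, true_and]
      tauto
  omega

theorem two_inn (hG : G.Good) (X : Finset V) :
    2 * (G.inn X).card + (G.del X).card = 3 * X.card := by
  rw [← card_st, card_s_add_card_t]
  rw [Finset.sum_congr rfl fun v _ => hG.cubic v]
  simp [mul_comm]

/-- too many edges: there is a circuit. -/
theorem exists_circ_of_card (X : Finset V) (H : Finset E) (hH : H ⊆ G.inn X)
    (h : X.card < H.card) : ∃ c, G.Circ c ∧ In c H := by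
  -- chains supported on `H`, boundary restricted to `X`
  let f : (H → ZMod 2) →ₗ[ZMod 2] (X → ZMod 2) :=
    { toFun := fun y v => G.bd (fun e => if he : e ∈ H then y ⟨e, he⟩ else 0) v
      map_add' := by
        intro a b
        funext v
        rw [Pi.add_apply, ← G.bd_add]
        congr 1
        funext e
        by_cases he : e ∈ H <;> simp [he]
      map_smul' := by
        intro c a
        funext v
        simp only [bd, Pi.smul_apply, smul_eq_mul, RingHom.id_apply, Finset.mul_sum]
        refine Finset.sum_congr rfl fun e _ => ?_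
        by_cases he : e ∈ H <;> by_cases h3 : G.s e = v <;> by_cases h4 : G.t e = v <;>
          simp [h3, h4, he] <;> ring }
  have hdim : Module.finrank (ZMod 2) (X → ZMod 2) < Module.finrank (ZMod 2) (H → ZMod 2) := by
    simpa using h
  obtain ⟨y, hy, hy0⟩ := Submodule.exists_mem_ne_zero_of_ne_bot
    (LinearMap.ker_ne_bot_of_finrank_lt (f := f) hdim)
  rw [LinearMap.mem_ker] at hy
  let z : E → ZMod 2 := fun e => if he : e ∈ H then y ⟨e, he⟩ else 0
  have hz : z ∈ G.Z := by
    intro v
    by_cases hv : v ∈ X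
    · exact congrFun hy ⟨v, hv⟩
    · refine (G.bd_congr ?_).trans (G.bd_zero v)
      intro e he
      have h1 : e ∉ H := by
        intro h2
        have h3 := hH h2
        rw [mem_inn] at h3
        rcases he with rfl | rfl
        · exact hv h3.1
        · exact hv h3.2
      simp [z, h1]
  have hz0 : z ≠ 0 := by
    intro h1
    apply hy0
    funext e
    have h2 := congrFun h1 e.1
    simpa [z] using h2
  obtain ⟨c, hc, hcz⟩ := G.exists_circ hz hz0
  refine ⟨c, hc, fun e he => ?_⟩
  by_contra h1
  have h2 := hcz e he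
  simp [z, h1] at h2

theorem deg_cast (z : E → ZMod 2) (v : V) : ((G.deg z v : ℕ) : ZMod 2) = G.bd z v := by
  unfold deg bd
  rw [Finset.sum_add_distrib, Nat.cast_add]
  congr 1
  · rw [Finset.card_filter, Nat.cast_sum]
    refine Finset.sum_congr rfl fun e _ => ?_
    rcases z2_cases (z e) with h | h <;> by_cases h3 : G.s e = v <;> simp [h, h3]
  · rw [Finset.card_filter, Nat.cast_sum]
    refine Finset.sum_congr rfl fun e _ => ?_
    rcases z2_cases (z e) with h | h <;> by_cases h3 : G.t e = v <;> simp [h, h3]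

theorem deg_le_three (hG : G.Good) (z : E → ZMod 2) (v : V) : G.deg z v ≤ 3 := by
  rw [← hG.cubic v]
  unfold deg
  apply Nat.add_le_add
  · apply Finset.card_le_card
    intro e
    simp only [Finset.mem_filter, Finset.mem_univ, true_and]
    exact fun h => h.2
  · apply Finset.card_le_card
    intro e
    simp only [Finset.mem_filter, Finset.mem_univ, true_and]
    exact fun h => h.2

/-- degrees in an even chain of a cubic graph. -/
theorem deg_zero_or_two (hG : G.Good) {z : E → ZMod 2} (hz : z ∈ G.Z) (v : V) :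
    G.deg z v = 0 ∨ G.deg z v = 2 := by
  have h1 := G.deg_cast z v
  rw [hz v, ZMod.natCast_eq_zero_iff_even] at h1
  have h2 := G.deg_le_three hG z v
  obtain ⟨k, hk⟩ := h1
  omega

theorem deg_pos_iff (z : E → ZMod 2) (v : V) : 0 < G.deg z v ↔ G.On z v := by
  unfold deg On
  constructor
  · intro h
    have : (univ.filter (fun e => z e = 1 ∧ G.s e = v)).Nonempty ∨
        (univ.filter (fun e => z e = 1 ∧ G.t e = v)).Nonempty := by
      rw [← Finset.card_pos, ← Finset.card_pos]; omega
    rcases this with ⟨e, he⟩ | ⟨e, he⟩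
    · simp only [Finset.mem_filter, Finset.mem_univ, true_and] at he
      exact ⟨e, he.1, Or.inl he.2⟩
    · simp only [Finset.mem_filter, Finset.mem_univ, true_and] at he
      exact ⟨e, he.1, Or.inr he.2⟩
  · rintro ⟨e, he, h | h⟩
    · have : 0 < (univ.filter (fun e => z e = 1 ∧ G.s e = v)).card :=
        Finset.card_pos.2 ⟨e, by simp [he, h]⟩
      omega
    · have : 0 < (univ.filter (fun e => z e = 1 ∧ G.t e = v)).card :=
        Finset.card_pos.2 ⟨e, by simp [he, h]⟩
      omega

/-- if `c ≤ z` are even and `v` is on `c` then the edges of `z` at `v` are edges of `c`. -/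
theorem edge_of_on (hG : G.Good) {z c : E → ZMod 2} (hz : z ∈ G.Z) (hc : c ∈ G.Z) (h : Le c z)
    {v : V} (hv : G.On c v) {e : E} (he : G.s e = v ∨ G.t e = v) (hze : z e = 1) : c e = 1 := by
  have h1 : G.deg c v = 2 := by
    have := (G.deg_pos_iff c v).2 hv
    rcases G.deg_zero_or_two hG hc v with h2 | h2 <;> omega
  have h2 : G.deg z v = 2 := by
    have h3 : G.deg c v ≤ G.deg z v := by
      unfold deg
      apply Nat.add_le_add <;> apply Finset.card_le_card <;> intro e <;>
        simp only [Finset.mem_filter, Finset.mem_univ, true_and] <;> exact fun h4 => ⟨h e h4.1, h4.2⟩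
    rcases G.deg_zero_or_two hG hz v with h4 | h4 <;> omega
  have hs : univ.filter (fun e => c e = 1 ∧ G.s e = v) ⊆ univ.filter (fun e => z e = 1 ∧ G.s e = v) := by
    intro e
    simp only [Finset.mem_filter, Finset.mem_univ, true_and]; exact fun h4 => ⟨h e h4.1, h4.2⟩
  have ht : univ.filter (fun e => c e = 1 ∧ G.t e = v) ⊆ univ.filter (fun e => z e = 1 ∧ G.t e = v) := by
    intro e
    simp only [Finset.mem_filter, Finset.mem_univ, true_and]; exact fun h4 => ⟨h e h4.1, h4.2⟩
  have hs' := Finset.card_le_card hs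
  have ht' := Finset.card_le_card ht
  unfold deg at h1 h2
  have es := Finset.eq_of_subset_of_card_le hs (by omega)
  have et := Finset.eq_of_subset_of_card_le ht (by omega)
  rcases he with h3 | h3
  · have : e ∈ univ.filter (fun e => z e = 1 ∧ G.s e = v) := by simp [hze, h3]
    rw [← es] at this
    simpa [h3] using this
  · have : e ∈ univ.filter (fun e => z e = 1 ∧ G.t e = v) := by simp [hze, h3]
    rw [← et] at this
    simpa [h3] using this

/-- different circuits inside the same even chain of a cubic graph are vertex-disjoint. -/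
theorem circ_disj (hG : G.Good) {z c c' : E → ZMod 2} (hz : z ∈ G.Z) (hc : G.Circ c)
    (hc' : G.Circ c') (h : Le c z) (h' : Le c' z) (hne : c ≠ c') (v : V) :
    ¬ (G.On c v ∧ G.On c' v) := by
  rintro ⟨hv, hv'⟩
  let m : E → ZMod 2 := fun e => c e * c' e
  have hm1 : ∀ e, m e = 1 ↔ c e = 1 ∧ c' e = 1 := by
    intro e
    show c e * c' e = 1 ↔ _
    rcases z2_cases (c e) with h1 | h1 <;> rcases z2_cases (c' e) with h2 | h2 <;> simp [h1, h2]
  have hm : m ∈ G.Z := by
    intro u
    by_cases hu : G.On c u ∧ G.On c' u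
    · refine (G.bd_congr ?_).trans (hz u)
      intro e he
      rcases z2_cases (z e) with h1 | h1
      · rw [h1]
        by_contra h2
        have h3 := (hm1 e).1 (z2_ne_zero h2)
        rw [h e h3.1] at h1
        exact z2_one_ne_zero h1
      · rw [h1, hm1]
        exact ⟨G.edge_of_on hG hz hc.1 h hu.1 he h1, G.edge_of_on hG hz hc'.1 h' hu.2 he h1⟩
    · refine (G.bd_congr ?_).trans (G.bd_zero u)
      intro e he
      rw [Pi.zero_apply]
      by_contra h2
      have h3 := (hm1 e).1 (z2_ne_zero h2)
      exact hu ⟨⟨e, h3.1, he⟩, ⟨e, h3.2, he⟩⟩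
  obtain ⟨e, he, hev⟩ := hv
  have h1 : c' e = 1 := G.edge_of_on hG hz hc'.1 h' hv' hev (h e he)
  have hm0 : m ≠ 0 := by
    intro h2
    have h3 := congrFun h2 e
    rw [(hm1 e).2 ⟨he, h1⟩] at h3
    exact z2_one_ne_zero h3
  have h2 : m = c := (hc.2.2 m hm fun e he => ((hm1 e).1 he).1).resolve_left hm0
  have h3 : m = c' := (hc'.2.2 m hm fun e he => ((hm1 e).1 he).2).resolve_left hm0
  exact hne (h2.symm.trans h3)

end MG

end Cyc
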