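import Pool.Agent.Cyc.Lin

/-!
# Section 3.6: Menger's theorem for three paths in a cubic graph, by Hall's theorem
-/

open Finset
open scoped Classical

namespace Cyc

namespace MG

variable {V E : Type} [Fintype V] [Fintype E] (G : MG V E)

/-- allowed steps: from a vertex or a source to a vertex or a sink -/
def Step (B : Finset V) (L : Finset E) :
    ({v // v ∈ B} ⊕ Fin 3) → ({v // v ∈ B} ⊕ Fin 3) → Prop
  | Sum.inl u, Sum.inl w => u = w ∨ ∃ e, (G.s e = u ∧ G.t e = w) ∨ (G.s e = w ∧ G.t e = u)
  | Sum.inr _, Sum.inl w => ∃ e ∈ L, G.s e = w ∨ G.t e = w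
  | Sum.inl u, Sum.inr _ => ∃ e ∈ G.del B, e ∉ L ∧ (G.s e = u ∨ G.t e = u)
  | Sum.inr _, Sum.inr _ => False

/-- indicator of the point `a` on the vertices -/
noncomputable def pt {B : Finset V} (a : {v // v ∈ B} ⊕ Fin 3) (v : V) : ZMod 2 :=
  match a with
  | Sum.inl u => if u.1 = v then 1 else 0
  | Sum.inr _ => 0

/-- the chain of one step -/
theorem step_chain (hG : G.Good) (B : Finset V) (L : Finset E) (hL : L ⊆ G.del B)
    (a b : {v // v ∈ B} ⊕ Fin 3) (h : G.Step B L a b) :
    ∃ c : E → ZMod 2, In c (G.tch B) ∧ (∀ v ∈ B, G.bd c v = pt a v + pt b v) ∧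
      (∑ e ∈ L, c e = if a.isRight then 1 else 0) ∧
      (∀ v (hv : v ∈ B), G.On c v → a = Sum.inl ⟨v, hv⟩ ∨ b = Sum.inl ⟨v, hv⟩) := by
  have hIn : ∀ (x : E) (K : Finset E), x ∈ K → In (Pi.single x 1 : E → ZMod 2) K := by
    intro x K hx e he
    by_cases hxe : e = x
    · rw [hxe]; exact hx
    · simp [hxe] at he
  have hOn : ∀ (x : E) (v : V), G.On (Pi.single x 1 : E → ZMod 2) v → G.s x = v ∨ G.t x = v := by
    rintro x v ⟨e, he, hev⟩
    by_cases hxe : e = x
    · rwa [hxe] at hev
    · simp [hxe] at he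
  have hsum : ∀ (x : E) (K : Finset E),
      ∑ e ∈ K, (Pi.single x 1 : E → ZMod 2) e = if x ∈ K then 1 else 0 := by
    intro x K
    simp [Pi.single_apply]
  match a, b, h with
  | Sum.inl u, Sum.inl w, h =>
    rcases h with rfl | ⟨e, he⟩
    · refine ⟨0, ?_, ?_, ?_, ?_⟩
      · rw [In_iff_zero]; intro e _; rfl
      · intro v _
        rw [z2_add_self]
        exact (G.mem_Z.1 G.Z.zero_mem) v
      · simp
      · rintro v hv ⟨e, he, _⟩
        exact absurd he.symm z2_one_ne_zero
    · have h1 : G.s e ∈ B ∧ G.t e ∈ B := by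
        rcases he with he | he <;> rw [he.1, he.2]
        · exact ⟨u.2, w.2⟩
        · exact ⟨w.2, u.2⟩
      refine ⟨Pi.single e 1, hIn _ _ (G.mem_tch.2 (Or.inl h1.1)), ?_, ?_, ?_⟩
      · intro v _
        rw [bd_single]
        rcases he with he | he <;> rw [he.1, he.2]
        · rfl
        · rw [add_comm]; rfl
      · rw [hsum, if_neg]
        · rfl
        · intro he'
          rcases G.mem_del.1 (hL he') with h2 | h2
          · exact h2.2 h1.2
          · exact h2.1 h1.1
      · intro v hv hon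
        have := hOn e v hon
        rcases he with he | he <;> rw [he.1, he.2] at this <;> rcases this with h2 | h2
        · left; congr 1; exact Subtype.ext h2
        · right; congr 1; exact Subtype.ext h2
        · right; congr 1; exact Subtype.ext h2
        · left; congr 1; exact Subtype.ext h2
  | Sum.inr j, Sum.inl w, h =>
    obtain ⟨e, heL, he⟩ := h
    have hd := G.mem_del.1 (hL heL)
    refine ⟨Pi.single e 1, hIn _ _ (G.mem_tch.2 ?_), ?_, ?_, ?_⟩
    · rcases he with he | he <;> rw [he]
      · exact Or.inl w.2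
      · exact Or.inr w.2
    · intro v hv
      rw [bd_single]
      have hw := w.2
      rcases he with he | he
      · have h2 : G.t e ∉ B := by
          rcases hd with h3 | h3
          · exact h3.2
          · exact absurd (he ▸ hw) h3.1
        have h3 : G.t e ≠ v := fun h => h2 (h ▸ hv)
        rw [if_neg h3, he, add_zero]
        show _ = 0 + _
        rw [zero_add]; rfl
      · have h2 : G.s e ∉ B := by
          rcases hd with h3 | h3
          · exact absurd (he ▸ hw) h3.2
          · exact h3.1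
        have h3 : G.s e ≠ v := fun h => h2 (h ▸ hv)
        rw [if_neg h3, he, zero_add]
        show _ = 0 + _
        rw [zero_add]; rfl
    · rw [hsum, if_pos heL]; rfl
    · intro v hv hon
      right
      have hw := w.2
      have h1 := hOn e v hon
      congr 1
      apply Subtype.ext
      show w.1 = v
      rcases he with he | he <;> rcases h1 with h2 | h2
      · rw [← he, h2]
      · exfalso
        rcases hd with h3 | h3
        · exact h3.2 (h2 ▸ hv)
        · exact h3.1 (he ▸ hw)
      · exfalso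
        rcases hd with h3 | h3
        · exact h3.2 (he ▸ hw)
        · exact h3.1 (h2 ▸ hv)
      · rw [← he, h2]
  | Sum.inl u, Sum.inr j, h =>
    obtain ⟨e, hdel, heL, he⟩ := h
    have hd := G.mem_del.1 hdel
    refine ⟨Pi.single e 1, hIn _ _ (G.mem_tch.2 ?_), ?_, ?_, ?_⟩
    · rcases he with he | he <;> rw [he]
      · exact Or.inl u.2
      · exact Or.inr u.2
    · intro v hv
      rw [bd_single]
      have hw := u.2
      rcases he with he | he
      · have h2 : G.t e ∉ B := by
          rcases hd with h3 | h3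
          · exact h3.2
          · exact absurd (he ▸ hw) h3.1
        have h3 : G.t e ≠ v := fun h => h2 (h ▸ hv)
        rw [if_neg h3, he]
        rfl
      · have h2 : G.s e ∉ B := by
          rcases hd with h3 | h3
          · exact absurd (he ▸ hw) h3.2
          · exact h3.1
        have h3 : G.s e ≠ v := fun h => h2 (h ▸ hv)
        rw [if_neg h3, he, add_comm]
        rfl
    · rw [hsum, if_neg heL]; rfl
    · intro v hv hon
      left
      have hw := u.2
      have h1 := hOn e v hon
      congr 1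
      apply Subtype.ext
      show u.1 = v
      rcases he with he | he <;> rcases h1 with h2 | h2
      · rw [← he, h2]
      · exfalso
        rcases hd with h3 | h3
        · exact h3.2 (h2 ▸ hv)
        · exact h3.1 (he ▸ hw)
      · exfalso
        rcases hd with h3 | h3
        · exact h3.2 (he ▸ hw)
        · exact h3.1 (h2 ▸ hv)
      · rw [← he, h2]
  | Sum.inr _, Sum.inr _, h => exact h.elim

/-- telescoping mod 2 -/
theorem telescope (f : ℕ → ZMod 2) (n : ℕ) : ∑ i ∈ range n, (f i + f (i + 1)) = f 0 + f n := by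
  induction n with
  | zero => simp [z2_add_self]
  | succ n ih =>
    rw [Finset.sum_range_succ, ih]
    have := z2_add_self (f n)
    linear_combination this

/-- an injective system of steps gives three chains -/
theorem chains_of_injective (hG : G.Good) (B : Finset V) (L : Finset E) (hL : L ⊆ G.del B)
    (σ : ({v // v ∈ B} ⊕ Fin 3) → ({v // v ∈ B} ⊕ Fin 3)) (hσ : Function.Injective σ)
    (hstep : ∀ a, G.Step B L a (σ a)) :
    ∃ x : Fin 3 → E → ZMod 2, (∀ j, In (x j) (G.tch B)) ∧ (∀ j, ∀ v ∈ B, G.bd (x j) v = 0) ∧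
      (∀ j, ∑ e ∈ L, x j e = 1) ∧
      (∀ v ∈ B, ∀ i j, G.On (x i) v → G.On (x j) v → i = j) := by
  choose c hc1 hc2 hc3 hc4 using fun a => G.step_chain hG B L hL a (σ a) (hstep a)
  have hret : ∀ j : Fin 3, ∃ n, 0 < n ∧ (σ^[n] (Sum.inr j)).isRight = true := by
    intro j
    obtain ⟨n, hn, hp⟩ := hσ.mem_periodicPts (Sum.inr j)
    exact ⟨n, hn, by rw [hp]; rfl⟩
  let n : Fin 3 → ℕ := fun j => Nat.find (hret j)
  have hn0 : ∀ j, 0 < n j := fun j => (Nat.find_spec (hret j)).1
  have hnr : ∀ j, (σ^[n j] (Sum.inr j)).isRight = true := fun j => (Nat.find_spec (hret j)).2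
  have hmin : ∀ j m, 0 < m → m < n j → (σ^[m] (Sum.inr j)).isRight = false := by
    intro j m hm hmn
    by_contra h
    exact Nat.find_min (hret j) hmn ⟨hm, by simpa using h⟩
  let x : Fin 3 → E → ZMod 2 := fun j => ∑ i ∈ range (n j), c (σ^[i] (Sum.inr j))
  have hx : ∀ j e, x j e = ∑ i ∈ range (n j), c (σ^[i] (Sum.inr j)) e := by
    intro j e
    simp only [x, Finset.sum_apply]
  have hon : ∀ j v (hv : v ∈ B), G.On (x j) v →
      ∃ m, 0 < m ∧ m < n j ∧ σ^[m] (Sum.inr j) = Sum.inl ⟨v, hv⟩ := by
    rintro j v hv ⟨e, he, hev⟩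
    have h1 : ∃ i ∈ range (n j), c (σ^[i] (Sum.inr j)) e ≠ 0 := by
      by_contra hcon
      push Not at hcon
      rw [hx, Finset.sum_eq_zero hcon] at he
      exact z2_one_ne_zero he.symm
    obtain ⟨i, hi, hie⟩ := h1
    rw [Finset.mem_range] at hi
    have h2 := hc4 (σ^[i] (Sum.inr j)) v hv ⟨e, z2_ne_zero hie, hev⟩
    rcases h2 with h2 | h2
    · refine ⟨i, ?_, hi, h2⟩
      rcases Nat.eq_zero_or_pos i with h3 | h3
      · rw [h3] at h2
        exact absurd h2 (by simp)
      · exact h3
    · rw [← Function.iterate_succ_apply' σ i] at h2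
      refine ⟨i + 1, Nat.succ_pos i, ?_, h2⟩
      rcases Nat.lt_or_ge (i + 1) (n j) with h3 | h3
      · exact h3
      · have h4 : i + 1 = n j := by omega
        have h5 := hnr j
        rw [← h4, h2] at h5
        simp at h5
  refine ⟨x, ?_, ?_, ?_, ?_⟩
  · intro j
    rw [In_iff_zero]
    intro e he
    rw [hx]
    exact Finset.sum_eq_zero fun i _ => (In_iff_zero _ _).1 (hc1 _) e he
  · intro j v hv
    have h1 : G.bd (x j) v = ∑ i ∈ range (n j), G.bd (c (σ^[i] (Sum.inr j))) v := by
      have h2 : G.bd (x j) v = G.bdL (x j) v := rfl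
      rw [h2, show x j = ∑ i ∈ range (n j), c (σ^[i] (Sum.inr j)) from rfl, map_sum,
        Finset.sum_apply]
      rfl
    rw [h1]
    have h3 : ∀ i, G.bd (c (σ^[i] (Sum.inr j))) v =
        pt (σ^[i] (Sum.inr j)) v + pt (σ^[i + 1] (Sum.inr j)) v := by
      intro i
      rw [hc2 _ v hv, Function.iterate_succ_apply']
    rw [Finset.sum_congr rfl fun i _ => h3 i, telescope (fun i => pt (σ^[i] (Sum.inr j)) v)]
    have h4 : pt (σ^[n j] (Sum.inr j)) v = 0 := by
      have h5 := hnr j
      generalize σ^[n j] (Sum.inr j) = p at h5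
      cases p with
      | inl u => simp at h5
      | inr k => rfl
    rw [h4, add_zero]
    rfl
  · intro j
    have h1 : ∑ e ∈ L, x j e = ∑ i ∈ range (n j), ∑ e ∈ L, c (σ^[i] (Sum.inr j)) e := by
      rw [Finset.sum_comm]
      exact Finset.sum_congr rfl fun e _ => hx j e
    rw [h1, Finset.sum_congr rfl fun i _ => hc3 _, Finset.sum_eq_single 0]
    · simp
    · intro i hi hi0
      rw [if_neg]
      rw [hmin j i (Nat.pos_of_ne_zero hi0) (Finset.mem_range.1 hi)]
      simp
    · intro h
      exact absurd (Finset.mem_range.2 (hn0 j)) h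
  · intro v hv i j hi hj
    obtain ⟨m, hm0, hmn, hm⟩ := hon i v hv hi
    obtain ⟨m', hm0', hmn', hm'⟩ := hon j v hv hj
    have key : ∀ (i j : Fin 3) (m m' : ℕ), m ≤ m' → 0 < m → m' < n j →
        σ^[m] (Sum.inr i) = σ^[m'] (Sum.inr j) → i = j := by
      intro i j m m' hmm h0 h1 h2
      obtain ⟨k, rfl⟩ := Nat.exists_eq_add_of_le hmm
      rw [Function.iterate_add_apply] at h2
      have h3 := (hσ.iterate m) h2
      rcases Nat.eq_zero_or_pos k with h4 | h4
      · rw [h4] at h3
        exact Sum.inr_injective h3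
      · have h5 := hmin j k h4 (by omega)
        rw [← h3] at h5
        simp at h5
    rcases le_total m m' with h | h
    · exact key i j m m' h hm0 hmn' (hm.trans hm'.symm)
    · exact (key j i m' m h hm0' hmn (hm'.trans hm.symm)).symm

/-- edges at a vertex -/
theorem card_at (hG : G.Good) (v : V) :
    (univ.filter (fun e => G.s e = v ∨ G.t e = v)).card = 3 := by
  rw [Finset.filter_or, Finset.card_union_of_disjoint, hG.cubic v]
  rw [Finset.disjoint_left]
  intro e h1 h2
  rw [Finset.mem_filter] at h1 h2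
  exact hG.noloop e (h1.2.trans h2.2.symm)

/-- the small cut obtained when Hall's condition fails -/
theorem small_of_hall_fails (hG : G.Good) (B : Finset V) (L : Finset E) (hL : L ⊆ G.del B)
    (Y S : Finset V) (hY : Y ⊆ B) (hYR : ∀ e ∈ G.del B, G.s e ∈ Y ∨ G.t e ∈ Y → e ∈ L)
    (hS : ∀ v, v ∈ S ↔ v ∈ B ∧ v ∉ Y ∧ ((∃ e ∈ L, G.s e = v ∨ G.t e = v) ∨
      ∃ e, (G.s e = v ∧ G.t e ∈ Y) ∨ (G.s e ∈ Y ∧ G.t e = v))) :
    ∃ W : Finset V, W ⊆ B ∧
      (univ.filter (fun e => (ind L + G.d (ind W)) e = 1)).card ≤ S.card := by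
  -- counted edges at a vertex
  let A : V → Finset E := fun v => univ.filter fun e =>
    (G.s e = v ∨ G.t e = v) ∧ (e ∈ L ∨ (G.s e = v ∧ G.t e ∈ Y) ∨ (G.s e ∈ Y ∧ G.t e = v))
  let C : V → Finset E := fun v => univ.filter fun e =>
    (G.s e = v ∨ G.t e = v) ∧ ¬ (e ∈ L ∨ (G.s e = v ∧ G.t e ∈ Y) ∨ (G.s e ∈ Y ∧ G.t e = v))
  have hAC : ∀ v, (A v).card + (C v).card = 3 := by
    intro v
    rw [← G.card_at hG v, ← Finset.card_filter_add_card_filter_not
      (s := univ.filter (fun e => G.s e = v ∨ G.t e = v))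
      (fun e => e ∈ L ∨ (G.s e = v ∧ G.t e ∈ Y) ∨ (G.s e ∈ Y ∧ G.t e = v)),
      Finset.filter_filter, Finset.filter_filter]
  let W : Finset V := Y ∪ S.filter fun v => 2 ≤ (A v).card
  have hSB : ∀ v ∈ S, v ∈ B := fun v hv => ((hS v).1 hv).1
  have hSY : ∀ v ∈ S, v ∉ Y := fun v hv => ((hS v).1 hv).2.1
  have hWB : W ⊆ B := by
    intro v hv
    rcases Finset.mem_union.1 hv with h | h
    · exact hY h
    · exact hSB v (Finset.mem_filter.1 h).1
  have hW : ∀ v, v ∈ W ↔ v ∈ Y ∨ (v ∈ S ∧ 2 ≤ (A v).card) := by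
    intro v
    simp [W]
  let D : V → Finset E := fun v => if 2 ≤ (A v).card then C v else A v
  have hD : ∀ v, (D v).card ≤ 1 := by
    intro v
    have := hAC v
    by_cases h : 2 ≤ (A v).card
    · simp only [D, if_pos h]; omega
    · simp only [D, if_neg h]; omega
  refine ⟨W, hWB, ?_⟩
  have hsub : (univ.filter (fun e => (ind L + G.d (ind W)) e = 1)) ⊆ S.biUnion D := by
    intro e he
    rw [Finset.mem_filter] at he
    have he := he.2
    rw [Finset.mem_biUnion]
    -- an edge leaving `W`, not in `L`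
    have key : ∀ u w : V, ((G.s e = u ∧ G.t e = w) ∨ (G.s e = w ∧ G.t e = u)) → u ∈ W → w ∉ W →
        e ∉ L → ∃ a ∈ S, e ∈ D a := by
      intro u w huw hu hw heL
      have hinc : G.s e = u ∨ G.t e = u := by rcases huw with h | h <;> simp [h]
      have hinc' : G.s e = w ∨ G.t e = w := by rcases huw with h | h <;> simp [h]
      rw [hW] at hu hw
      push Not at hw
      rcases hu with hu | ⟨huS, hu2⟩
      · -- `u ∈ Y`
        by_cases hwB : w ∈ B
        · have hwS : w ∈ S := by
            rw [hS]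
            refine ⟨hwB, hw.1, Or.inr ⟨e, ?_⟩⟩
            rcases huw with h | h
            · exact Or.inr ⟨by rw [h.1]; exact hu, h.2⟩
            · exact Or.inl ⟨h.1, by rw [h.2]; exact hu⟩
          refine ⟨w, hwS, ?_⟩
          have h1 : ¬ 2 ≤ (A w).card := by have := hw.2 hwS; omega
          simp only [D, if_neg h1, A, Finset.mem_filter, Finset.mem_univ, true_and]
          refine ⟨hinc', Or.inr ?_⟩
          rcases huw with h | h
          · exact Or.inr ⟨by rw [h.1]; exact hu, h.2⟩
          · exact Or.inl ⟨h.1, by rw [h.2]; exact hu⟩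
        · exfalso
          apply heL
          apply hYR e
          · rw [mem_del]
            rcases huw with h | h <;> rw [h.1, h.2]
            · exact Or.inl ⟨hY hu, hwB⟩
            · exact Or.inr ⟨hwB, hY hu⟩
          · rcases huw with h | h <;> rw [h.1, h.2]
            · exact Or.inl hu
            · exact Or.inr hu
      · refine ⟨u, huS, ?_⟩
        simp only [D, if_pos hu2, C, Finset.mem_filter, Finset.mem_univ, true_and]
        refine ⟨hinc, ?_⟩
        rintro (h | h | h)
        · exact heL h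
        · rcases huw with h' | h'
          · exact hw.1 (h'.2 ▸ h.2)
          · exact hSY u huS (h'.2 ▸ h.2)
        · rcases huw with h' | h'
          · exact hSY u huS (h'.1 ▸ h.1)
          · exact hw.1 (h'.1 ▸ h.1)
    by_cases heL : e ∈ L
    · -- an edge of `L`, not leaving `W`
      have hd : G.d (ind W) e = 0 := by
        simp only [Pi.add_apply, ind, if_pos heL] at he
        have : (1 : ZMod 2) + G.d (fun v => if v ∈ W then 1 else 0) e = 1 := he
        change G.d (fun v => if v ∈ W then 1 else 0) e = 0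
        simpa using this
      have aux : ∀ u w : V, ((G.s e = u ∧ G.t e = w) ∨ (G.s e = w ∧ G.t e = u)) → u ∈ B → w ∉ B →
          ∃ a ∈ S, e ∈ D a := by
        intro u w huw hu hw
        have hinc : G.s e = u ∨ G.t e = u := by rcases huw with h | h <;> simp [h]
        have hwW : w ∉ W := fun h => hw (hWB h)
        have huW : u ∉ W := by
          intro h
          have : G.d (ind W) e = 1 := by
            simp only [d, ind]
            rcases huw with h' | h' <;> rw [h'.1, h'.2] <;> simp [h, hwW]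
          rw [hd] at this
          exact z2_one_ne_zero this.symm
        rw [hW] at huW
        push Not at huW
        have huS : u ∈ S := by
          rw [hS]
          exact ⟨hu, huW.1, Or.inl ⟨e, heL, hinc⟩⟩
        refine ⟨u, huS, ?_⟩
        have h1 : ¬ 2 ≤ (A u).card := by have := huW.2 huS; omega
        simp only [D, if_neg h1, A, Finset.mem_filter, Finset.mem_univ, true_and]
        exact ⟨hinc, Or.inl heL⟩
      rcases G.mem_del.1 (hL heL) with h | h
      · exact aux _ _ (Or.inl ⟨rfl, rfl⟩) h.1 h.2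
      · exact aux _ _ (Or.inr ⟨rfl, rfl⟩) h.2 h.1
    · have hd : G.d (ind W) e = 1 := by
        simp only [Pi.add_apply, ind, if_neg heL] at he
        have : (0 : ZMod 2) + G.d (fun v => if v ∈ W then 1 else 0) e = 1 := he
        rwa [zero_add] at this
      simp only [d, ind] at hd
      by_cases h1 : G.s e ∈ W <;> by_cases h2 : G.t e ∈ W
      · simp [h1, h2, z2_add_self] at hd
      · exact key _ _ (Or.inl ⟨rfl, rfl⟩) h1 h2 heL
      · exact key _ _ (Or.inr ⟨rfl, rfl⟩) h2 h1 heL
      · simp [h1, h2] at hd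
  calc _ ≤ (S.biUnion D).card := Finset.card_le_card hsub
    _ ≤ ∑ v ∈ S, (D v).card := Finset.card_biUnion_le
    _ ≤ ∑ v ∈ S, 1 := Finset.sum_le_sum fun v _ => hD v
    _ = S.card := by simp

/-- Either there are three pairwise vertex-disjoint chains on `tch B`, even at the vertices of `B`
and meeting `L` in an odd number of edges, or `L` can be moved inside `B` to a set of at most two
edges. -/
theorem menger_three (hG : G.Good) (B : Finset V) (L : Finset E) (hL : L ⊆ G.del B) :
    (∃ x : Fin 3 → E → ZMod 2, (∀ j, In (x j) (G.tch B)) ∧ (∀ j, ∀ v ∈ B, G.bd (x j) v = 0) ∧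
      (∀ j, ∑ e ∈ L, x j e = 1) ∧
      (∀ v ∈ B, ∀ i j, G.On (x i) v → G.On (x j) v → i = j)) ∨
    ∃ W : Finset V, W ⊆ B ∧
      (univ.filter (fun e => (ind L + G.d (ind W)) e = 1)).card ≤ 2 := by
  let ι := {v // v ∈ B} ⊕ Fin 3
  let nb : ι → Finset ι := fun a => univ.filter fun b => G.Step B L a b
  by_cases hall : ∀ T : Finset ι, T.card ≤ (T.biUnion nb).card
  · left
    obtain ⟨σ, hσ, hσ'⟩ := (Finset.all_card_le_biUnion_card_iff_exists_injective nb).1 hall
    exact G.chains_of_injective hG B L hL σ hσ fun a => (Finset.mem_filter.1 (hσ' a)).2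
  · right
    push Not at hall
    obtain ⟨T, hT⟩ := hall
    let g : ι ↪ V ⊕ Fin 3 := ⟨Sum.map Subtype.val id,
      Sum.map_injective.2 ⟨Subtype.val_injective, Function.injective_id⟩⟩
    have hg : ∀ (u : Finset ι) (v : V), v ∈ (u.map g).toLeft ↔
        ∃ hv : v ∈ B, (Sum.inl ⟨v, hv⟩ : ι) ∈ u := by
      intro u v
      rw [Finset.mem_toLeft, Finset.mem_map]
      constructor
      · rintro ⟨a, ha, hav⟩
        cases a with
        | inl w =>
          have : w.1 = v := Sum.inl_injective hav
          subst this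
          exact ⟨w.2, ha⟩
        | inr k => exact absurd hav (by simp [g])
      · rintro ⟨hv, ha⟩
        exact ⟨_, ha, rfl⟩
    have hg' : ∀ (u : Finset ι) (k : Fin 3), k ∈ (u.map g).toRight ↔ (Sum.inr k : ι) ∈ u := by
      intro u k
      rw [Finset.mem_toRight, Finset.mem_map]
      constructor
      · rintro ⟨a, ha, hav⟩
        cases a with
        | inl w => exact absurd hav (by simp [g])
        | inr k' =>
          have : k' = k := Sum.inr_injective hav
          subst this
          exact ha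
      · intro ha
        exact ⟨_, ha, rfl⟩
    set Y : Finset V := (T.map g).toLeft with hYdef
    set J : Finset (Fin 3) := (T.map g).toRight with hJdef
    have hcT : Y.card + J.card = T.card := by
      rw [hYdef, hJdef, Finset.card_toLeft_add_card_toRight, Finset.card_map]
    set N : Finset ι := T.biUnion nb with hN
    have hcN : (N.map g).toLeft.card + (N.map g).toRight.card = N.card := by
      rw [Finset.card_toLeft_add_card_toRight, Finset.card_map]
    have hmemN : ∀ b, b ∈ N ↔ ∃ a ∈ T, G.Step B L a b := by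
      intro b
      rw [hN, Finset.mem_biUnion]
      simp only [nb, Finset.mem_filter, Finset.mem_univ, true_and]
    have hYB : Y ⊆ B := fun v hv => ((hg T v).1 hv).1
    have hYN : Y ⊆ (N.map g).toLeft := by
      intro v hv
      obtain ⟨hvB, hvT⟩ := (hg T v).1 hv
      rw [hg]
      exact ⟨hvB, (hmemN _).2 ⟨_, hvT, Or.inl rfl⟩⟩
    have hJ3 : J.card ≤ 3 := (Finset.card_le_univ J).trans (by simp)
    have hYR : ∀ e ∈ G.del B, G.s e ∈ Y ∨ G.t e ∈ Y → e ∈ L := by
      intro e hd hinc
      by_contra heL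
      have hR : (N.map g).toRight = univ := by
        rw [Finset.eq_univ_iff_forall]
        intro k
        rw [hg']
        rcases hinc with h | h <;> obtain ⟨hvB, hvT⟩ := (hg T _).1 h
        · exact (hmemN _).2 ⟨_, hvT, e, hd, heL, Or.inl rfl⟩
        · exact (hmemN _).2 ⟨_, hvT, e, hd, heL, Or.inr rfl⟩
      rw [hR, Finset.card_univ, Fintype.card_fin] at hcN
      have := Finset.card_le_card hYN
      omega
    have hJne : J.Nonempty := by
      rw [Finset.nonempty_iff_ne_empty]
      intro h
      rw [h, Finset.card_empty] at hcT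
      have := Finset.card_le_card hYN
      omega
    obtain ⟨k, hk⟩ := hJne
    have hkT : (Sum.inr k : ι) ∈ T := (hg' T k).1 hk
    let S : Finset V := univ.filter fun v => v ∈ B ∧ v ∉ Y ∧
      ((∃ e ∈ L, G.s e = v ∨ G.t e = v) ∨
        ∃ e, (G.s e = v ∧ G.t e ∈ Y) ∨ (G.s e ∈ Y ∧ G.t e = v))
    have hS : ∀ v, v ∈ S ↔ v ∈ B ∧ v ∉ Y ∧ ((∃ e ∈ L, G.s e = v ∨ G.t e = v) ∨
        ∃ e, (G.s e = v ∧ G.t e ∈ Y) ∨ (G.s e ∈ Y ∧ G.t e = v)) := by
      intro v; simp [S]
    have hSN : Y ∪ S ⊆ (N.map g).toLeft := by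
      apply Finset.union_subset hYN
      intro v hv
      obtain ⟨hvB, hvY, h⟩ := (hS v).1 hv
      rw [hg]
      refine ⟨hvB, (hmemN _).2 ?_⟩
      rcases h with ⟨e, heL, he⟩ | ⟨e, ⟨h1, h2⟩ | ⟨h1, h2⟩⟩
      · exact ⟨Sum.inr k, hkT, e, heL, he⟩
      · obtain ⟨hvB', hvT⟩ := (hg T _).1 h2
        exact ⟨_, hvT, Or.inr ⟨e, Or.inr ⟨h1, rfl⟩⟩⟩
      · obtain ⟨hvB', hvT⟩ := (hg T _).1 h1
        exact ⟨_, hvT, Or.inr ⟨e, Or.inl ⟨rfl, h2⟩⟩⟩
    have hdis : Disjoint Y S := by
      rw [Finset.disjoint_left]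
      intro v h1 h2
      exact ((hS v).1 h2).2.1 h1
    have hc := Finset.card_le_card hSN
    rw [Finset.card_union_of_disjoint hdis] at hc
    obtain ⟨W, hW, hWc⟩ := G.small_of_hall_fails hG B L hL Y S hYB hYR hS
    exact ⟨W, hW, hWc.trans (by omega)⟩

end MG

end Cyc
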