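import Mathlib

set_option autoImplicit false

/-!
Non-backtracking matrices of a cubic multigraph (section 2.2 (a)-(e) of the proof for MP_45f6a5_co).
`D` is the set of darts, `rev` the reversal, `tail` the tail vertex; the head of `x` is
`tail (rev x)`. Everything is stated for an abstract dart structure.
-/

namespace Pool.Agent.Cyc.NB

open Finset Matrix

/-- Darts of a cubic multigraph. -/
structure DartSys (D V : Type*) [Fintype D] [DecidableEq D] [DecidableEq V] where
  rev : D → D
  tail : D → V
  rev_rev : ∀ x, rev (rev x) = x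
  card_tail : ∀ x : D, (univ.filter (fun y => tail y = tail x)).card = 3

variable {D V : Type*} [Fintype D] [DecidableEq D] [DecidableEq V]

namespace DartSys

variable (S : DartSys D V)

/-- `y` may follow `x` in a non-backtracking walk. -/
def Succ (x y : D) : Prop := S.tail y = S.tail (S.rev x) ∧ y ≠ S.rev x

instance (x y : D) : Decidable (S.Succ x y) := by unfold Succ; infer_instance

theorem rev_inj {x y : D} (h : S.rev x = S.rev y) : x = y := by
  rw [← S.rev_rev x, h, S.rev_rev]

theorem succ_rev {x y : D} : S.Succ x y ↔ S.Succ (S.rev y) (S.rev x) := by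
  unfold Succ
  rw [S.rev_rev]
  constructor
  · rintro ⟨h1, h2⟩
    exact ⟨h1.symm, fun h => h2 h.symm⟩
  · rintro ⟨h1, h2⟩
    exact ⟨h1.symm, fun h => h2 h.symm⟩

theorem not_succ_rev (x : D) : ¬ S.Succ x (S.rev x) := fun h => h.2 rfl

theorem card_succ (x : D) : (univ.filter (fun y => S.Succ x y)).card = 2 := by
  have h : univ.filter (fun y => S.Succ x y) =
      (univ.filter (fun y => S.tail y = S.tail (S.rev x))).erase (S.rev x) := by
    ext y
    simp only [mem_filter, mem_univ, true_and, mem_erase]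
    constructor
    · rintro ⟨h1, h2⟩
      exact ⟨h2, h1⟩
    · rintro ⟨h1, h2⟩
      exact ⟨h2, h1⟩
  rw [h, card_erase_of_mem (by simp), S.card_tail]

theorem card_pred (y : D) : (univ.filter (fun x => S.Succ x y)).card = 2 := by
  rw [← S.card_succ (S.rev y)]
  apply card_bij' (fun x _ => S.rev x) (fun x _ => S.rev x)
  · intro x hx
    simp only [mem_filter, mem_univ, true_and] at hx ⊢
    exact S.succ_rev.1 hx
  · intro x hx
    simp only [mem_filter, mem_univ, true_and] at hx ⊢
    rw [S.succ_rev, S.rev_rev]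
    exact hx
  · intro x _; exact S.rev_rev x
  · intro x _; exact S.rev_rev x

/-- For distinct `w`, `w'` there is at most one common successor, and then `rev w'` follows `w`. -/
theorem card_common {w w' : D} (hne : w ≠ w') :
    (univ.filter (fun y => S.Succ w y ∧ S.Succ w' y)).card ≤ 1 ∧
      ((univ.filter (fun y => S.Succ w y ∧ S.Succ w' y)).Nonempty → S.Succ w (S.rev w')) := by
  constructor
  · by_contra hlt
    push Not at hlt
    obtain ⟨y, hy⟩ := card_pos.1 (lt_trans Nat.zero_lt_one hlt)
    simp only [mem_filter, mem_univ, true_and] at hy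
    have hsub : univ.filter (fun y => S.Succ w y ∧ S.Succ w' y) ⊆
        ((univ.filter (fun y => S.tail y = S.tail (S.rev w))).erase (S.rev w)).erase
          (S.rev w') := by
      intro z hz
      simp only [mem_filter, mem_univ, true_and, mem_erase] at hz ⊢
      exact ⟨hz.2.2, hz.1.2, hz.1.1⟩
    have h1 := card_le_card hsub
    rw [card_erase_of_mem, card_erase_of_mem (by simp), S.card_tail] at h1
    · omega
    · simp only [mem_erase, mem_filter, mem_univ, true_and]
      refine ⟨fun h => hne (S.rev_inj h).symm, ?_⟩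
      rw [← hy.1.1, hy.2.1]
  · rintro ⟨y, hy⟩
    simp only [mem_filter, mem_univ, true_and] at hy
    refine ⟨?_, fun h => hne (S.rev_inj h).symm⟩
    rw [← hy.1.1, hy.2.1]

variable (Og : Finset D)

/-- The non-backtracking matrix restricted to a set of darts. -/
def K : Matrix D D ℕ := fun x y => if x ∈ Og ∧ y ∈ Og ∧ S.Succ x y then 1 else 0

theorem K_le_one (x y : D) : S.K Og x y ≤ 1 := by unfold K; split_ifs <;> simp

theorem K_rev (hOg : ∀ x, x ∈ Og ↔ S.rev x ∈ Og) (x y : D) :
    S.K Og x y = S.K Og (S.rev y) (S.rev x) := by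
  unfold K
  by_cases h : x ∈ Og ∧ y ∈ Og ∧ S.Succ x y
  · rw [if_pos h, if_pos ⟨(hOg y).1 h.2.1, (hOg x).1 h.1, S.succ_rev.1 h.2.2⟩]
  · rw [if_neg h, if_neg (fun h' => h ⟨(hOg x).2 h'.2.1, (hOg y).2 h'.1, S.succ_rev.2 h'.2.2⟩)]

theorem sum_rev (f : D → ℕ) : ∑ x, f (S.rev x) = ∑ x, f x :=
  Fintype.sum_bijective S.rev
    ⟨fun _ _ h => S.rev_inj h, fun x => ⟨S.rev x, S.rev_rev x⟩⟩ _ _ (fun _ => rfl)

theorem pow_rev (hOg : ∀ x, x ∈ Og ↔ S.rev x ∈ Og) (j : ℕ) :
    ∀ x y : D, (S.K Og ^ j) x y = (S.K Og ^ j) (S.rev y) (S.rev x) := by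
  induction j with
  | zero =>
    intro x y
    simp only [pow_zero, Matrix.one_apply]
    by_cases h : x = y
    · simp [h]
    · rw [if_neg h, if_neg (fun h' => h (S.rev_inj h').symm)]
  | succ j ih =>
    intro x y
    have h1 : (S.K Og ^ (j + 1)) x y = ∑ z, (S.K Og ^ j) x z * S.K Og z y := by
      rw [pow_succ, Matrix.mul_apply]
    have h2 : (S.K Og ^ (j + 1)) (S.rev y) (S.rev x) =
        ∑ z, S.K Og (S.rev y) z * (S.K Og ^ j) z (S.rev x) := by
      rw [pow_succ', Matrix.mul_apply]
    rw [h1, h2, ← S.sum_rev (fun z => S.K Og (S.rev y) z * (S.K Og ^ j) z (S.rev x))]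
    apply sum_congr rfl
    intro z _
    rw [ih x z, S.K_rev Og hOg z y, mul_comm]

/-- Row sums. -/
theorem K_row (x : D) : ∑ y, S.K Og x y ≤ 2 := by
  rw [← S.card_succ x, card_eq_sum_ones, sum_filter]
  apply sum_le_sum
  intro y _
  unfold K
  by_cases h : S.Succ x y
  · rw [if_pos h]; split_ifs <;> simp
  · rw [if_neg h, if_neg (fun h' => h h'.2.2)]

theorem K_col (y : D) : ∑ x, S.K Og x y ≤ 2 := by
  rw [← S.card_pred y, card_eq_sum_ones, sum_filter]
  apply sum_le_sum
  intro x _
  unfold K
  by_cases h : S.Succ x y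
  · rw [if_pos h]; split_ifs <;> simp
  · rw [if_neg h, if_neg (fun h' => h h'.2.2)]

theorem pow_row (j : ℕ) : ∀ x : D, ∑ y, (S.K Og ^ j) x y ≤ 2 ^ j := by
  induction j with
  | zero => intro x; simp [Matrix.one_apply]
  | succ j ih =>
    intro x
    calc ∑ y, (S.K Og ^ (j + 1)) x y = ∑ y, ∑ z, (S.K Og ^ j) x z * S.K Og z y := by
          simp only [pow_succ, Matrix.mul_apply]
      _ = ∑ z, (S.K Og ^ j) x z * ∑ y, S.K Og z y := by
          rw [sum_comm]; simp only [mul_sum]
      _ ≤ ∑ z, (S.K Og ^ j) x z * 2 :=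
          sum_le_sum (fun z _ => Nat.mul_le_mul_left _ (S.K_row Og z))
      _ = (∑ z, (S.K Og ^ j) x z) * 2 := by rw [sum_mul]
      _ ≤ 2 ^ (j + 1) := by rw [pow_succ]; exact Nat.mul_le_mul_right _ (ih x)

theorem pow_col (j : ℕ) : ∀ y : D, ∑ x, (S.K Og ^ j) x y ≤ 2 ^ j := by
  induction j with
  | zero => intro x; simp [Matrix.one_apply]
  | succ j ih =>
    intro y
    calc ∑ x, (S.K Og ^ (j + 1)) x y = ∑ x, ∑ z, S.K Og x z * (S.K Og ^ j) z y := by
          simp only [pow_succ', Matrix.mul_apply]
      _ = ∑ z, (∑ x, S.K Og x z) * (S.K Og ^ j) z y := by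
          rw [sum_comm]; simp only [sum_mul]
      _ ≤ ∑ z, 2 * (S.K Og ^ j) z y :=
          sum_le_sum (fun z _ => Nat.mul_le_mul_right _ (S.K_col Og z))
      _ = 2 * (∑ z, (S.K Og ^ j) z y) := by rw [mul_sum]
      _ ≤ 2 ^ (j + 1) := by rw [pow_succ, mul_comm]; exact Nat.mul_le_mul_right _ (ih y)

/-- `sum_y K(w,y) K(w',y)`. -/
theorem K_common (hOg : ∀ x, x ∈ Og ↔ S.rev x ∈ Og) (w w' : D) :
    ∑ y, S.K Og w y * S.K Og w' y ≤ (if w = w' then 2 else 0) + S.K Og w (S.rev w') := by
  by_cases hne : w = w'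
  · subst hne
    rw [if_pos rfl]
    calc ∑ y, S.K Og w y * S.K Og w y ≤ ∑ y, S.K Og w y := by
          apply sum_le_sum
          intro y _
          calc S.K Og w y * S.K Og w y ≤ S.K Og w y * 1 :=
                Nat.mul_le_mul_left _ (S.K_le_one Og w y)
            _ = S.K Og w y := mul_one _
      _ ≤ 2 := S.K_row Og w
      _ ≤ _ := Nat.le_add_right _ _
  · rw [if_neg hne, zero_add]
    obtain ⟨h1, h2⟩ := S.card_common hne
    have hle : ∀ y, S.K Og w y * S.K Og w' y ≤
        if (S.Succ w y ∧ S.Succ w' y) then 1 else 0 := by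
      intro y
      by_cases h : S.Succ w y ∧ S.Succ w' y
      · rw [if_pos h]
        calc S.K Og w y * S.K Og w' y ≤ 1 * 1 :=
              Nat.mul_le_mul (S.K_le_one Og w y) (S.K_le_one Og w' y)
          _ = 1 := one_mul 1
      · rw [if_neg h, Nat.le_zero, Nat.mul_eq_zero]
        unfold K
        by_cases h1 : S.Succ w y
        · right
          exact if_neg (fun h' => h ⟨h1, h'.2.2⟩)
        · left
          exact if_neg (fun h' => h1 h'.2.2)
    by_cases hw : w ∈ Og ∧ w' ∈ Og ∧ (univ.filter (fun y => S.Succ w y ∧ S.Succ w' y)).Nonempty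
    · have hK : S.K Og w (S.rev w') = 1 := by
        unfold K
        rw [if_pos ⟨hw.1, (hOg w').1 hw.2.1, h2 hw.2.2⟩]
      rw [hK]
      calc ∑ y, S.K Og w y * S.K Og w' y
          ≤ ∑ y, (if (S.Succ w y ∧ S.Succ w' y) then 1 else 0) := sum_le_sum (fun y _ => hle y)
        _ = (univ.filter (fun y => S.Succ w y ∧ S.Succ w' y)).card := by
            rw [card_eq_sum_ones, sum_filter]
        _ ≤ 1 := h1
    · have : ∑ y, S.K Og w y * S.K Og w' y = 0 := by
        apply sum_eq_zero
        intro y _
        by_contra hy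
        have hy1 : S.K Og w y ≠ 0 := left_ne_zero_of_mul hy
        have hy2 : S.K Og w' y ≠ 0 := right_ne_zero_of_mul hy
        unfold K at hy1 hy2
        rw [ite_ne_right_iff] at hy1 hy2
        exact hw ⟨hy1.1.1, hy2.1.1, ⟨y, by simp [hy1.1.2.2, hy2.1.2.2]⟩⟩
      rw [this]
      exact Nat.zero_le _

/-- `e_m(x)`. -/
def ee (m : ℕ) (x : D) : ℕ := ∑ y, (S.K Og ^ m) x y ^ 2

/-- (b) -/
theorem ee_succ (hOg : ∀ x, x ∈ Og ↔ S.rev x ∈ Og) (m : ℕ) (x : D) :
    S.ee Og (m + 1) x ≤ 2 * S.ee Og m x + (S.K Og ^ (2 * m + 1)) x (S.rev x) := by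
  unfold ee
  set A := S.K Og ^ m with hA
  have h1 : ∑ y, (S.K Og ^ (m + 1)) x y ^ 2 =
      ∑ w, ∑ w', A x w * A x w' * ∑ y, S.K Og w y * S.K Og w' y := by
    calc ∑ y, (S.K Og ^ (m + 1)) x y ^ 2
        = ∑ y, (∑ w, A x w * S.K Og w y) * (∑ w', A x w' * S.K Og w' y) := by
          apply sum_congr rfl
          intro y _
          rw [pow_succ (S.K Og), Matrix.mul_apply, sq]
      _ = ∑ y, ∑ w, ∑ w', A x w * A x w' * (S.K Og w y * S.K Og w' y) := by
          apply sum_congr rfl
          intro y _
          rw [sum_mul_sum]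
          apply sum_congr rfl
          intro w _
          apply sum_congr rfl
          intro w' _
          ring
      _ = ∑ w, ∑ w', A x w * A x w' * ∑ y, S.K Og w y * S.K Og w' y := by
          rw [sum_comm]
          apply sum_congr rfl
          intro w _
          rw [sum_comm]
          apply sum_congr rfl
          intro w' _
          rw [mul_sum]
  rw [h1]
  calc ∑ w, ∑ w', A x w * A x w' * ∑ y, S.K Og w y * S.K Og w' y
      ≤ ∑ w, ∑ w', A x w * A x w' * ((if w = w' then 2 else 0) + S.K Og w (S.rev w')) := by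
        apply sum_le_sum
        intro w _
        apply sum_le_sum
        intro w' _
        exact Nat.mul_le_mul_left _ (S.K_common Og hOg w w')
    _ = ∑ w, ∑ w', (if w = w' then A x w * A x w' * 2 else 0) +
          ∑ w, ∑ w', A x w * S.K Og w (S.rev w') * A x w' := by
        rw [← sum_add_distrib]
        apply sum_congr rfl
        intro w _
        rw [← sum_add_distrib]
        apply sum_congr rfl
        intro w' _
        split_ifs <;> ring
    _ = 2 * ∑ y, A x y ^ 2 + (S.K Og ^ (2 * m + 1)) x (S.rev x) := by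
        congr 1
        · rw [mul_sum]
          apply sum_congr rfl
          intro w _
          rw [sum_ite_eq]
          simp only [mem_univ, if_true]
          ring
        · have hp : S.K Og ^ (2 * m + 1) = A * S.K Og * A := by
            rw [hA, ← pow_succ, ← pow_add]; congr 1; ring
          rw [hp, Matrix.mul_apply]
          rw [← S.sum_rev (fun z => (A * S.K Og) x z * A z (S.rev x))]
          rw [sum_comm]
          apply sum_congr rfl
          intro w' _
          rw [Matrix.mul_apply, sum_mul]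
          apply sum_congr rfl
          intro w _
          rw [hA, S.pow_rev Og hOg m x w']

/-- `C_l = sum_x K^(2l+1)(x, rev x)`. -/
def CC (l : ℕ) : ℕ := ∑ x, (S.K Og ^ (2 * l + 1)) x (S.rev x)

theorem CC_zero : S.CC Og 0 = 0 := by
  unfold CC
  apply sum_eq_zero
  intro x _
  rw [mul_zero, zero_add, pow_one]
  unfold K
  rw [if_neg]
  exact fun h => S.not_succ_rev x h.2.2

/-- (c) -/
theorem CC_succ (hOg : ∀ x, x ∈ Og ↔ S.rev x ∈ Og) (l : ℕ) :
    S.CC Og (l + 1) ≤ 2 * S.CC Og l + Matrix.trace (S.K Og ^ (2 * (l + 1))) := by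
  unfold CC
  set A := S.K Og ^ (2 * l + 1) with hA
  have h1 : ∑ x, (S.K Og ^ (2 * (l + 1) + 1)) x (S.rev x) =
      ∑ y, ∑ y', A y (S.rev y') * ∑ x, S.K Og x y * S.K Og x y' := by
    have hp : S.K Og ^ (2 * (l + 1) + 1) = S.K Og * (A * S.K Og) := by
      rw [hA, ← pow_succ, ← pow_succ']; congr 1
    calc ∑ x, (S.K Og ^ (2 * (l + 1) + 1)) x (S.rev x)
        = ∑ x, ∑ y, S.K Og x y * ∑ y', A y (S.rev y') * S.K Og x y' := by
          apply sum_congr rfl
          intro x _
          rw [hp, Matrix.mul_apply]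
          apply sum_congr rfl
          intro y _
          congr 1
          rw [Matrix.mul_apply, ← S.sum_rev]
          apply sum_congr rfl
          intro y' _
          rw [S.K_rev Og hOg x y']
      _ = ∑ y, ∑ y', A y (S.rev y') * ∑ x, S.K Og x y * S.K Og x y' := by
          rw [sum_comm]
          apply sum_congr rfl
          intro y _
          simp only [mul_sum]
          rw [sum_comm]
          apply sum_congr rfl
          intro y' _
          apply sum_congr rfl
          intro x _
          ring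
  rw [h1]
  have h2 : ∀ y y', ∑ x, S.K Og x y * S.K Og x y' ≤
      (if y = y' then 2 else 0) + S.K Og (S.rev y') y := by
    intro y y'
    have := S.K_common Og hOg (S.rev y) (S.rev y')
    rw [S.rev_rev, ← S.sum_rev (fun z => S.K Og (S.rev y) z * S.K Og (S.rev y') z)] at this
    calc ∑ x, S.K Og x y * S.K Og x y'
        = ∑ x, S.K Og (S.rev y) (S.rev x) * S.K Og (S.rev y') (S.rev x) := by
          apply sum_congr rfl
          intro x _
          rw [← S.K_rev Og hOg, ← S.K_rev Og hOg]
      _ ≤ _ := this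
      _ = (if y = y' then 2 else 0) + S.K Og (S.rev y') y := by
          congr 1
          · by_cases h : y = y'
            · simp [h]
            · rw [if_neg h, if_neg (fun h' => h (S.rev_inj h'))]
          · rw [S.K_rev Og hOg (S.rev y) y', S.rev_rev]
  calc ∑ y, ∑ y', A y (S.rev y') * ∑ x, S.K Og x y * S.K Og x y'
      ≤ ∑ y, ∑ y', A y (S.rev y') * ((if y = y' then 2 else 0) + S.K Og (S.rev y') y) := by
        apply sum_le_sum
        intro y _
        apply sum_le_sum
        intro y' _
        exact Nat.mul_le_mul_left _ (h2 y y')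
    _ = ∑ y, ∑ y', (if y = y' then A y (S.rev y') * 2 else 0) +
          ∑ y, ∑ y', A y (S.rev y') * S.K Og (S.rev y') y := by
        rw [← sum_add_distrib]
        apply sum_congr rfl
        intro w _
        rw [← sum_add_distrib]
        apply sum_congr rfl
        intro w' _
        split_ifs <;> ring
    _ = 2 * ∑ x, A x (S.rev x) + Matrix.trace (S.K Og ^ (2 * (l + 1))) := by
        congr 1
        · rw [mul_sum]
          apply sum_congr rfl
          intro w _
          rw [sum_ite_eq]
          simp only [mem_univ, if_true]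
          ring
        · have hp : S.K Og ^ (2 * (l + 1)) = A * S.K Og := by
            rw [hA, ← pow_succ]; congr 1
          rw [hp, Matrix.trace]
          apply sum_congr rfl
          intro y _
          rw [Matrix.diag_apply, Matrix.mul_apply,
            ← S.sum_rev (fun z => A y z * S.K Og z y)]

/-- `B_(2t)`. -/
def BB (t : ℕ) : ℕ := Matrix.trace (S.K Og ^ (2 * t))

theorem CC_le (hOg : ∀ x, x ∈ Og ↔ S.rev x ∈ Og) (l : ℕ) :
    S.CC Og l ≤ ∑ i ∈ Ico 1 (l + 1), 2 ^ (l - i) * S.BB Og i := by
  induction l with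
  | zero => simp [CC_zero]
  | succ l ih =>
    rw [sum_Ico_succ_top (by omega), Nat.sub_self, pow_zero, one_mul]
    calc S.CC Og (l + 1) ≤ 2 * S.CC Og l + Matrix.trace (S.K Og ^ (2 * (l + 1))) :=
          S.CC_succ Og hOg l
      _ ≤ 2 * (∑ i ∈ Ico 1 (l + 1), 2 ^ (l - i) * S.BB Og i) + S.BB Og (l + 1) :=
          Nat.add_le_add (Nat.mul_le_mul_left _ ih) le_rfl
      _ = _ := by
          congr 1
          rw [mul_sum]
          apply sum_congr rfl
          intro i hi
          rw [mem_Ico] at hi
          have : l + 1 - i = (l - i) + 1 := by omega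
          rw [this, pow_succ]; ring

/-- `E_m`. -/
def EE (m : ℕ) : ℕ := ∑ x ∈ Og, S.ee Og m x

theorem pow_zero_of_not_mem {j : ℕ} {x y : D} (hx : x ∉ Og) (hj : j ≠ 0) :
    (S.K Og ^ j) x y = 0 := by
  obtain ⟨j, rfl⟩ := Nat.exists_eq_succ_of_ne_zero hj
  rw [Nat.succ_eq_add_one, pow_succ', Matrix.mul_apply]
  apply sum_eq_zero
  intro z _
  unfold K
  rw [if_neg (fun h => hx h.1), zero_mul]

theorem pow_zero_of_not_mem' {j : ℕ} {x y : D} (hy : y ∉ Og) (hj : j ≠ 0) :
    (S.K Og ^ j) x y = 0 := by
  obtain ⟨j, rfl⟩ := Nat.exists_eq_succ_of_ne_zero hj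
  rw [Nat.succ_eq_add_one, pow_succ, Matrix.mul_apply]
  apply sum_eq_zero
  intro z _
  have : S.K Og z y = 0 := by
    unfold K
    rw [if_neg (fun h => hy h.2.1)]
  rw [this, mul_zero]

theorem EE_zero : S.EE Og 0 = Og.card := by
  unfold EE ee
  rw [card_eq_sum_ones]
  apply sum_congr rfl
  intro x _
  rw [pow_zero]
  rw [sum_eq_single x]
  · simp
  · intro y _ hy
    rw [Matrix.one_apply_ne (Ne.symm hy)]; rfl
  · simp

theorem EE_succ (hOg : ∀ x, x ∈ Og ↔ S.rev x ∈ Og) (m : ℕ) :
    S.EE Og (m + 1) ≤ 2 * S.EE Og m + S.CC Og m := by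
  unfold EE CC
  rw [mul_sum]
  calc ∑ x ∈ Og, S.ee Og (m + 1) x
      ≤ ∑ x ∈ Og, (2 * S.ee Og m x + (S.K Og ^ (2 * m + 1)) x (S.rev x)) :=
        sum_le_sum (fun x _ => S.ee_succ Og hOg m x)
    _ = ∑ x ∈ Og, 2 * S.ee Og m x + ∑ x ∈ Og, (S.K Og ^ (2 * m + 1)) x (S.rev x) :=
        sum_add_distrib
    _ ≤ _ := Nat.add_le_add le_rfl (sum_le_sum_of_subset (subset_univ _))

theorem EE_le (hOg : ∀ x, x ∈ Og ↔ S.rev x ∈ Og) (m : ℕ) :
    S.EE Og m ≤ 2 ^ m * Og.card +
      ∑ t ∈ Ico 1 m, (m - t) * 2 ^ (m - t - 1) * S.BB Og t := by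
  induction m with
  | zero => simp [EE_zero]
  | succ m ih =>
    calc S.EE Og (m + 1) ≤ 2 * S.EE Og m + S.CC Og m := S.EE_succ Og hOg m
      _ ≤ 2 * (2 ^ m * Og.card + ∑ t ∈ Ico 1 m, (m - t) * 2 ^ (m - t - 1) * S.BB Og t) +
          ∑ i ∈ Ico 1 (m + 1), 2 ^ (m - i) * S.BB Og i :=
          Nat.add_le_add (Nat.mul_le_mul_left _ ih) (S.CC_le Og hOg m)
      _ = 2 ^ (m + 1) * Og.card +
          ∑ t ∈ Ico 1 (m + 1), (m + 1 - t) * 2 ^ (m + 1 - t - 1) * S.BB Og t := by
          have h0 : ∑ t ∈ Ico 1 (m + 1), (m - t) * 2 ^ (m - t) * S.BB Og t =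
              ∑ t ∈ Ico 1 m, (m - t) * 2 ^ (m - t) * S.BB Og t := by
            rcases Nat.eq_zero_or_pos m with h | h
            · subst h; simp
            · rw [sum_Ico_succ_top (by omega)]; simp
          have h1 : ∑ t ∈ Ico 1 (m + 1), (m + 1 - t) * 2 ^ (m + 1 - t - 1) * S.BB Og t =
              ∑ t ∈ Ico 1 (m + 1), (m - t) * 2 ^ (m - t) * S.BB Og t +
              ∑ t ∈ Ico 1 (m + 1), 2 ^ (m - t) * S.BB Og t := by
            rw [← sum_add_distrib]
            apply sum_congr rfl
            intro t ht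
            rw [mem_Ico] at ht
            have e1 : m + 1 - t = (m - t) + 1 := by omega
            have e2 : m + 1 - t - 1 = m - t := by omega
            rw [e2, e1]; ring
          have h2 : 2 * ∑ t ∈ Ico 1 m, (m - t) * 2 ^ (m - t - 1) * S.BB Og t =
              ∑ t ∈ Ico 1 m, (m - t) * 2 ^ (m - t) * S.BB Og t := by
            rw [mul_sum]
            apply sum_congr rfl
            intro t ht
            rw [mem_Ico] at ht
            have e1 : m - t = (m - t - 1) + 1 := by omega
            rw [e1, pow_succ]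
            simp only [Nat.add_sub_cancel]
            ring
          rw [h1, h0, ← h2, pow_succ]
          ring

/-- (a) lower bound for the number of walks inside the good set: at most `b` darts outside `Og`
can follow a dart of `Og`. -/
theorem sum_pow_ge (b : ℕ)
    (hb : (univ.filter (fun y => y ∉ Og ∧ ∃ x ∈ Og, S.Succ x y)).card ≤ b) (m : ℕ) :
    2 ^ m * Og.card ≤ ∑ x ∈ Og, ∑ y ∈ Og, (S.K Og ^ m) x y + m * 2 ^ m * b := by
  induction m with
  | zero =>
    simp only [pow_zero, one_mul, zero_mul, add_zero]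
    rw [card_eq_sum_ones]
    apply sum_le_sum
    intro x hx
    calc 1 = (1 : Matrix D D ℕ) x x := by simp
      _ ≤ ∑ y ∈ Og, (1 : Matrix D D ℕ) x y :=
          single_le_sum (f := fun y => (1 : Matrix D D ℕ) x y) (fun _ _ => Nat.zero_le _) hx
  | succ m ih =>
    have key : 2 * ∑ x ∈ Og, ∑ y ∈ Og, (S.K Og ^ m) x y ≤
        ∑ x ∈ Og, ∑ y ∈ Og, (S.K Og ^ (m + 1)) x y + 2 ^ (m + 1) * b := by
      have h1 : ∀ z ∈ Og, 2 ≤ ∑ y ∈ Og, S.K Og z y +
          (univ.filter (fun y => y ∉ Og ∧ S.Succ z y)).card := by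
        intro z hz
        rw [← S.card_succ z]
        have : ∑ y ∈ Og, S.K Og z y = (Og.filter (fun y => S.Succ z y)).card := by
          rw [card_eq_sum_ones, sum_filter]
          apply sum_congr rfl
          intro y hy
          unfold K
          by_cases h : S.Succ z y
          · rw [if_pos h, if_pos ⟨hz, hy, h⟩]
          · rw [if_neg h, if_neg (fun h' => h h'.2.2)]
        rw [this, ← card_union_of_disjoint]
        · apply card_le_card
          intro y hy
          simp only [mem_filter, mem_univ, true_and, mem_union] at hy ⊢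
          by_cases h : y ∈ Og
          · exact Or.inl ⟨h, hy⟩
          · exact Or.inr ⟨h, hy⟩
        · rw [disjoint_left]
          intro y hy hy'
          simp only [mem_filter, mem_univ, true_and] at hy hy'
          exact hy'.1 hy.1
      have h2 : ∑ x ∈ Og, ∑ y ∈ Og, (S.K Og ^ (m + 1)) x y =
          ∑ x ∈ Og, ∑ z ∈ Og, (S.K Og ^ m) x z * ∑ y ∈ Og, S.K Og z y := by
        apply sum_congr rfl
        intro x _
        calc ∑ y ∈ Og, (S.K Og ^ (m + 1)) x y
            = ∑ y ∈ Og, ∑ z, (S.K Og ^ m) x z * S.K Og z y := by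
              simp only [pow_succ, Matrix.mul_apply]
          _ = ∑ z, (S.K Og ^ m) x z * ∑ y ∈ Og, S.K Og z y := by
              rw [sum_comm]; simp only [mul_sum]
          _ = ∑ z ∈ Og, (S.K Og ^ m) x z * ∑ y ∈ Og, S.K Og z y := by
              symm
              apply sum_subset (subset_univ _)
              intro z _ hz
              have : ∑ y ∈ Og, S.K Og z y = 0 := by
                apply sum_eq_zero
                intro y _
                unfold K
                rw [if_neg (fun h => hz h.1)]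
              rw [this, mul_zero]
      have h3 : ∑ x ∈ Og, ∑ z ∈ Og, (S.K Og ^ m) x z *
          (univ.filter (fun y => y ∉ Og ∧ S.Succ z y)).card ≤ 2 ^ (m + 1) * b := by
        calc ∑ x ∈ Og, ∑ z ∈ Og, (S.K Og ^ m) x z *
            (univ.filter (fun y => y ∉ Og ∧ S.Succ z y)).card
            = ∑ z ∈ Og, (∑ x ∈ Og, (S.K Og ^ m) x z) *
              (univ.filter (fun y => y ∉ Og ∧ S.Succ z y)).card := by
              rw [sum_comm]; simp only [sum_mul]
          _ ≤ ∑ z ∈ Og, 2 ^ m * (univ.filter (fun y => y ∉ Og ∧ S.Succ z y)).card := by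
              apply sum_le_sum
              intro z _
              apply Nat.mul_le_mul_right
              exact le_trans (sum_le_sum_of_subset (subset_univ _)) (S.pow_col Og m z)
          _ = 2 ^ m * ∑ z ∈ Og, (univ.filter (fun y => y ∉ Og ∧ S.Succ z y)).card := by
              rw [mul_sum]
          _ ≤ 2 ^ m * (2 * b) := by
              apply Nat.mul_le_mul_left
              calc ∑ z ∈ Og, (univ.filter (fun y => y ∉ Og ∧ S.Succ z y)).card
                  = ∑ z ∈ Og, ∑ y, (if y ∉ Og ∧ S.Succ z y then 1 else 0) := by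
                    apply sum_congr rfl
                    intro z _
                    rw [card_eq_sum_ones, sum_filter]
                _ = ∑ y, ∑ z ∈ Og, (if y ∉ Og ∧ S.Succ z y then 1 else 0) := sum_comm
                _ ≤ ∑ y, (if (y ∉ Og ∧ ∃ x ∈ Og, S.Succ x y) then 2 else 0) := by
                    apply sum_le_sum
                    intro y _
                    by_cases hy : y ∉ Og ∧ ∃ x ∈ Og, S.Succ x y
                    · rw [if_pos hy]
                      calc ∑ z ∈ Og, (if y ∉ Og ∧ S.Succ z y then 1 else 0)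
                          ≤ ∑ z ∈ Og, (if S.Succ z y then 1 else 0) := by
                            apply sum_le_sum
                            intro z _
                            split_ifs <;> simp_all
                        _ ≤ ∑ z, (if S.Succ z y then 1 else 0) :=
                            sum_le_sum_of_subset (subset_univ _)
                        _ = 2 := by
                            rw [← S.card_pred y, card_eq_sum_ones, sum_filter]
                    · rw [if_neg hy]
                      rw [sum_eq_zero]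
                      intro z hz
                      rw [if_neg]
                      exact fun h => hy ⟨h.1, z, hz, h.2⟩
                _ = 2 * (univ.filter (fun y => y ∉ Og ∧ ∃ x ∈ Og, S.Succ x y)).card := by
                    rw [card_eq_sum_ones, mul_sum, sum_filter]
                    simp
                _ ≤ 2 * b := Nat.mul_le_mul_left _ hb
          _ = 2 ^ (m + 1) * b := by rw [pow_succ]; ring
      calc 2 * ∑ x ∈ Og, ∑ y ∈ Og, (S.K Og ^ m) x y
          = ∑ x ∈ Og, ∑ z ∈ Og, (S.K Og ^ m) x z * 2 := by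
            rw [mul_comm, sum_mul]; simp only [sum_mul]
        _ ≤ ∑ x ∈ Og, ∑ z ∈ Og, (S.K Og ^ m) x z * (∑ y ∈ Og, S.K Og z y +
              (univ.filter (fun y => y ∉ Og ∧ S.Succ z y)).card) := by
            apply sum_le_sum
            intro x _
            apply sum_le_sum
            intro z hz
            exact Nat.mul_le_mul_left _ (h1 z hz)
        _ = ∑ x ∈ Og, ∑ z ∈ Og, (S.K Og ^ m) x z * ∑ y ∈ Og, S.K Og z y +
            ∑ x ∈ Og, ∑ z ∈ Og, (S.K Og ^ m) x z *
              (univ.filter (fun y => y ∉ Og ∧ S.Succ z y)).card := by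
            rw [← sum_add_distrib]
            apply sum_congr rfl
            intro x _
            rw [← sum_add_distrib]
            apply sum_congr rfl
            intro z _
            ring
        _ ≤ _ := by rw [h2]; exact Nat.add_le_add le_rfl h3
    calc 2 ^ (m + 1) * Og.card = 2 * (2 ^ m * Og.card) := by rw [pow_succ]; ring
      _ ≤ 2 * (∑ x ∈ Og, ∑ y ∈ Og, (S.K Og ^ m) x y + m * 2 ^ m * b) :=
          Nat.mul_le_mul_left _ ih
      _ = 2 * ∑ x ∈ Og, ∑ y ∈ Og, (S.K Og ^ m) x y + m * 2 ^ (m + 1) * b := by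
          rw [pow_succ]; ring
      _ ≤ ∑ x ∈ Og, ∑ y ∈ Og, (S.K Og ^ (m + 1)) x y + 2 ^ (m + 1) * b +
            m * 2 ^ (m + 1) * b := Nat.add_le_add key le_rfl
      _ = _ := by ring

end DartSys

end Pool.Agent.Cyc.NB
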