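import Pool.Agent.Cyc.SubDart

/-!
# Section 7.4: degrees and circuits of the graph on darts
-/

open Finset
open scoped Classical

namespace Cyc

namespace MG

variable {V E : Type} (G : MG V E)

/-- number of ends of `e` at `w` -/
noncomputable def endn (w : V) (e : E) : ℕ :=
  (if G.s e = w then 1 else 0) + (if G.t e = w then 1 else 0)

theorem endn_zero {w : V} {e : E} (h1 : ¬ G.s e = w) (h2 : ¬ G.t e = w) : G.endn w e = 0 := by
  unfold endn; rw [if_neg h1, if_neg h2]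

theorem endn_le {w : V} {e : E} (h : G.s e ≠ G.t e) : G.endn w e ≤ 1 := by
  unfold endn
  by_cases h1 : G.s e = w
  · rw [if_pos h1, if_neg fun h2 => h (h1.trans h2.symm)]
  · rw [if_neg h1]; split_ifs <;> omega

theorem dg_eq_endn [Fintype V] [Fintype E] (w : V) : G.dg w = ∑ e, G.endn w e := by
  unfold dg endn
  rw [Finset.sum_add_distrib, Finset.card_filter, Finset.card_filter]

theorem endn_inj_le {ι : Type} [Fintype ι] (f : ι → E)
    (h1 : Function.Injective (fun i => G.s (f i))) (h2 : Function.Injective (fun i => G.t (f i)))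
    (w : V) : ∑ i, G.endn w (f i) ≤ 2 := by
  unfold endn
  rw [Finset.sum_add_distrib]
  refine Nat.add_le_add (b := 1) (d := 1) ?_ ?_
  · rw [← Finset.card_filter, Finset.card_le_one]
    intro a ha a' ha'
    rw [Finset.mem_filter] at ha ha'
    exact h1 (ha.2.trans ha'.2.symm)
  · rw [← Finset.card_filter, Finset.card_le_one]
    intro a ha a' ha'
    rw [Finset.mem_filter] at ha ha'
    exact h2 (ha.2.trans ha'.2.symm)

end MG

variable {N : ℕ} (G₀ : SimpleGraph (Fin N))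

/-- the other end of the edge `e` at `v` -/
noncomputable def oth (v : Fin N) (e : G₀.edgeSet) : Fin N := if fs G₀ e = v then sn G₀ e else fs G₀ e

theorem mk_oth {v : Fin N} {e : G₀.edgeSet} (h : v ∈ e.1) : s(v, oth G₀ v e) = e.1 := by
  rw [← mk_fs_sn G₀ e, Sym2.mem_iff] at h
  unfold oth
  by_cases h1 : fs G₀ e = v
  · rw [if_pos h1, ← mk_fs_sn G₀ e, h1]
  · rw [if_neg h1, ← mk_fs_sn G₀ e]
    have h2 : v = sn G₀ e := h.resolve_left fun h3 => h1 h3.symm
    rw [h2, Sym2.eq_swap]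

/-- an old edge at `(v, j)` -/
theorem end_inl {v : Fin N} {j : Fin (N + 1)} {e : G₀.edgeSet}
    (h : (DG G₀).s (Sum.inl e) = (v, j) ∨ (DG G₀).t (Sum.inl e) = (v, j)) :
    v ∈ e.1 ∧ (oth G₀ v e).castSucc = j := by
  rw [DG_s_inl, DG_t_inl] at h
  rcases h with h | h
  · have h1 : fs G₀ e = v := congrArg Prod.fst h
    have h2 : (sn G₀ e).castSucc = j := congrArg Prod.snd h
    refine ⟨?_, ?_⟩
    · rw [← mk_fs_sn G₀ e, ← h1]; exact Sym2.mem_mk_left _ _
    · unfold oth; rw [if_pos h1]; exact h2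
  · have h1 : sn G₀ e = v := congrArg Prod.fst h
    have h2 : (fs G₀ e).castSucc = j := congrArg Prod.snd h
    refine ⟨?_, ?_⟩
    · rw [← mk_fs_sn G₀ e, ← h1]; exact Sym2.mem_mk_right _ _
    · unfold oth; rw [if_neg]
      · exact h2
      · intro h3; exact fs_ne_sn G₀ e (h3.trans h1.symm)

theorem end_unique {v : Fin N} {j : Fin (N + 1)} {e f : G₀.edgeSet}
    (h : (DG G₀).s (Sum.inl e) = (v, j) ∨ (DG G₀).t (Sum.inl e) = (v, j))
    (h' : (DG G₀).s (Sum.inl f) = (v, j) ∨ (DG G₀).t (Sum.inl f) = (v, j)) : e = f := by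
  obtain ⟨h1, h2⟩ := end_inl G₀ h
  obtain ⟨h3, h4⟩ := end_inl G₀ h'
  apply Subtype.ext
  rw [← mk_oth G₀ h1, ← mk_oth G₀ h3]
  have : oth G₀ v e = oth G₀ v f := Fin.castSucc_injective _ (h2.trans h4.symm)
  rw [this]

/-- number of old ends at a vertex of the graph on darts -/
noncomputable def oldn (w : Fin N × Fin (N + 1)) : ℕ :=
  ∑ e : G₀.edgeSet, (DG G₀).endn w (Sum.inl e)

theorem oldn_le (w : Fin N × Fin (N + 1)) : oldn G₀ w ≤ 1 := by
  unfold oldn
  by_cases h : ∃ e : G₀.edgeSet, (DG G₀).s (Sum.inl e) = w ∨ (DG G₀).t (Sum.inl e) = w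
  · obtain ⟨e, he⟩ := h
    rw [Finset.sum_eq_single e]
    · exact (DG G₀).endn_le (DG_noloop G₀ _)
    · intro f _ hf
      apply (DG G₀).endn_zero
      · intro h1; exact hf (end_unique G₀ (v := w.1) (j := w.2) (Or.inl h1) he)
      · intro h1; exact hf (end_unique G₀ (v := w.1) (j := w.2) (Or.inr h1) he)
    · simp
  · push Not at h
    rw [Finset.sum_eq_zero]
    · exact Nat.zero_le _
    · intro e _
      exact (DG G₀).endn_zero (h e).1 (h e).2

theorem dg_DG (w : Fin N × Fin (N + 1)) : (DG G₀).dg w ≤ oldn G₀ w + 2 := by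
  rw [MG.dg_eq_endn]
  refine (Fintype.sum_sum_type _).le.trans ?_
  refine Nat.add_le_add_left ?_ _
  refine (DG G₀).endn_inj_le (fun q : Fin N × Fin N => Sum.inr q) ?_ ?_ w
  · intro q q' h
    have h' : ((q.1, q.2.castSucc) : Fin N × Fin (N + 1)) = (q'.1, q'.2.castSucc) := h
    rw [Prod.mk.injEq] at h'
    exact Prod.ext h'.1 (Fin.castSucc_injective _ h'.2)
  · intro q q' h
    have h' : ((q.1, q.2.succ) : Fin N × Fin (N + 1)) = (q'.1, q'.2.succ) := h
    rw [Prod.mk.injEq] at h'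
    exact Prod.ext h'.1 (Fin.succ_injective _ h'.2)

theorem dg_DG_le (w : Fin N × Fin (N + 1)) : (DG G₀).dg w ≤ 3 := by
  have := dg_DG G₀ w
  have := oldn_le G₀ w
  omega

/-- a vertex of degree three has an old edge -/
theorem exists_old {w : Fin N × Fin (N + 1)} (h : 3 ≤ (DG G₀).dg w) :
    ∃ e : G₀.edgeSet, (DG G₀).s (Sum.inl e) = w ∨ (DG G₀).t (Sum.inl e) = w := by
  by_contra hc
  push Not at hc
  have h1 := dg_DG G₀ w
  have h2 : oldn G₀ w = 0 := by
    unfold oldn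
    exact Finset.sum_eq_zero fun e _ => (DG G₀).endn_zero (hc e).1 (hc e).2
  omega

/-- the old edges -/
noncomputable def oldE : Finset (G₀.edgeSet ⊕ (Fin N × Fin N)) :=
  univ.filter (fun e => ∃ e₀, e = Sum.inl e₀)

theorem mem_oldE (e : G₀.edgeSet ⊕ (Fin N × Fin N)) : e ∈ oldE G₀ ↔ ∃ e₀, e = Sum.inl e₀ := by
  simp [oldE]

theorem oldE_eq : oldE G₀ = univ.map (Function.Embedding.inl) := by
  ext e
  rw [mem_oldE, Finset.mem_map]
  constructor
  · rintro ⟨e₀, rfl⟩; exact ⟨e₀, Finset.mem_univ _, rfl⟩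
  · rintro ⟨e₀, _, rfl⟩; exact ⟨e₀, rfl⟩

theorem card_oldE : (oldE G₀).card = G₀.edgeSet.ncard := by
  rw [oldE_eq, Finset.card_map, Finset.card_univ, Set.ncard_eq_toFinset_card', Set.toFinset_card]

theorem card_oldE_filter (x : G₀.edgeSet → ZMod 2) :
    ((oldE G₀).filter (fun e => lift G₀ x e = 1)).card = (univ.filter (fun e => x e = 1)).card := by
  rw [oldE_eq, Finset.filter_map, Finset.card_map]
  rfl

theorem lift_zero : lift G₀ 0 = 0 := by
  funext e
  rcases e with e | q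
  · rfl
  · rw [lift_inr, psum]
    refine Finset.sum_eq_zero fun u _ => ?_
    unfold adjv
    by_cases h : G₀.Adj q.1 u
    · rw [dif_pos h]; simp
    · rw [dif_neg h]; simp

/-- minimality of the lift, tested on the old edges -/
theorem lift_min {x : G₀.edgeSet → ZMod 2}
    (hmin : ∀ y : G₀.edgeSet → ZMod 2, (∀ v, ∑ u, adjv G₀ y v u = 0) → Le y x → y = 0 ∨ y = x)
    {z : G₀.edgeSet ⊕ (Fin N × Fin N) → ZMod 2} (hz : z ∈ (DG G₀).Z)
    (h : ∀ e ∈ oldE G₀, z e = 1 → lift G₀ x e = 1) : z = 0 ∨ z = lift G₀ x := by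
  have h1 := eq_lift G₀ hz
  rcases hmin _ (even_of_mem G₀ hz) (fun e he => h (Sum.inl e) ((mem_oldE G₀ _).2 ⟨e, rfl⟩) he)
    with h2 | h2
  · left
    rw [h1, h2, lift_zero]
  · right
    rw [h1, h2]

theorem lift_ne_zero {x : G₀.edgeSet → ZMod 2} (h : x ≠ 0) : lift G₀ x ≠ 0 := by
  intro h1
  apply h
  funext e
  have := congrFun h1 (Sum.inl e)
  exact this

theorem lift_circ {x : G₀.edgeSet → ZMod 2} (hx : Even0 G₀ x) (h0 : x ≠ 0)
    (hmin : ∀ y : G₀.edgeSet → ZMod 2, (∀ v, ∑ u, adjv G₀ y v u = 0) → Le y x → y = 0 ∨ y = x) :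
    (DG G₀).Circ (lift G₀ x) :=
  ⟨lift_mem G₀ hx, lift_ne_zero G₀ h0, fun _ hz hle => lift_min G₀ hmin hz fun e _ => hle e⟩

/-- weights: old edges have weight one, path edges have weight zero -/
def dwt : G₀.edgeSet ⊕ (Fin N × Fin N) → ℕ := Sum.elim (fun _ => 1) (fun _ => 0)

theorem wgt_lift (x : G₀.edgeSet → ZMod 2) :
    wgt (dwt G₀) (lift G₀ x) = (univ.filter (fun e => x e = 1)).card := by
  unfold wgt
  rw [Finset.sum_filter, Finset.card_filter]
  refine (Fintype.sum_sum_type _).trans ?_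
  have h : ∑ q : Fin N × Fin N, (if lift G₀ x (Sum.inr q) = 1 then dwt G₀ (Sum.inr q) else 0) = 0 :=
    Finset.sum_eq_zero fun q _ => by
      have : dwt G₀ (Sum.inr q) = 0 := rfl
      rw [this, ite_self]
  refine (congrArg₂ (· + ·) rfl h).trans ?_
  rw [add_zero]
  rfl

theorem dlab (e) (h : dwt G₀ e = 0) : ((DG G₀).s e).1 = ((DG G₀).t e).1 := by
  rcases e with e | q
  · exact absurd h one_ne_zero
  · rfl

/-- the set of old non-bridge edges at `v` -/
noncomputable def Dv (v : Fin N) : Finset (G₀.edgeSet ⊕ (Fin N × Fin N)) :=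
  univ.filter (fun e => ∃ e₀ : G₀.edgeSet, e = Sum.inl e₀ ∧ v ∈ e₀.1 ∧ (DG G₀).nb e)

theorem mem_Dv {v : Fin N} {e : G₀.edgeSet ⊕ (Fin N × Fin N)} :
    e ∈ Dv G₀ v ↔ ∃ e₀ : G₀.edgeSet, e = Sum.inl e₀ ∧ v ∈ e₀.1 ∧ (DG G₀).nb e := by simp [Dv]

/-- `oth` on all edges -/
noncomputable def othE (v : Fin N) (e : G₀.edgeSet ⊕ (Fin N × Fin N)) : Fin N :=
  Sum.elim (fun e => oth G₀ v e) (fun _ => v) e

theorem card_Dv_filter (v : Fin N) (x : G₀.edgeSet → ZMod 2) :
    ((Dv G₀ v).filter (fun e => lift G₀ x e = 1)).card ≤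
      (univ.filter (fun u => adjv G₀ x v u = 1)).card := by
  refine Finset.card_le_card_of_injOn (othE G₀ v) ?_ ?_
  · intro e he
    rw [Finset.mem_coe, Finset.mem_filter, mem_Dv] at he
    obtain ⟨⟨e₀, rfl, hv, -⟩, h1⟩ := he
    rw [Finset.mem_coe, Finset.mem_filter]
    refine ⟨Finset.mem_univ _, ?_⟩
    have h2 := mk_oth G₀ hv
    have h3 : G₀.Adj v (oth G₀ v e₀) := by
      have := e₀.2
      rw [← h2] at this
      exact this
    have h4 : (⟨s(v, oth G₀ v e₀), h3⟩ : G₀.edgeSet) = e₀ := Subtype.ext h2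
    show adjv G₀ x v (oth G₀ v e₀) = 1
    unfold adjv
    rw [dif_pos h3, h4]
    exact h1
  · intro e he f hf hef
    rw [Finset.mem_coe, Finset.mem_filter, mem_Dv] at he hf
    obtain ⟨⟨e₀, rfl, hv, -⟩, -⟩ := he
    obtain ⟨⟨f₀, rfl, hv', -⟩, -⟩ := hf
    have hef' : oth G₀ v e₀ = oth G₀ v f₀ := hef
    congr 1
    apply Subtype.ext
    rw [← mk_oth G₀ hv, ← mk_oth G₀ hv', hef']

end Cyc
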