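import Pool.Agent.Cyc.SubRestrict
import Pool.Agent.Cyc.Prob

/-!
# Section 7.2 and 7.5: bounds of the dimension of the cycle space
-/

open Finset
open scoped Classical

set_option linter.unusedSectionVars false

namespace Cyc

namespace MG

variable {V E : Type} [Fintype V] [Fintype E] (G : MG V E)

/-- if an even set which is zero on `T` is zero then `|Z| ≤ 2 ^ |T|` -/
theorem card_Z_le_of_zero (T : Finset E) (hT : ∀ z ∈ G.Z, (∀ e ∈ T, z e = 0) → z = 0) :
    Fintype.card G.Z ≤ 2 ^ T.card := by
  have h1 : Fintype.card (T → ZMod 2) = 2 ^ T.card := by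
    rw [Fintype.card_fun, ZMod.card, Fintype.card_coe]
  rw [← h1]
  apply Fintype.card_le_of_injective (fun (z : G.Z) (e : T) => z.1 e.1)
  intro z z' h
  have h2 : (z - z').1 = 0 := by
    refine hT _ (z - z').2 fun e he => ?_
    have h3 := congrFun h ⟨e, he⟩
    simp only at h3
    show (z.1 - z'.1) e = 0
    rw [Pi.sub_apply, h3, sub_self]
  have h3 : z - z' = 0 := Subtype.ext h2
  exact sub_eq_zero.1 h3

/-- an even set supported in `K` is zero: restriction to the complement of `K` is injective -/
theorem card_Z_le_pow (K : Finset E) (hK : ∀ z ∈ G.Z, In z K → z = 0) :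
    Fintype.card G.Z ≤ 2 ^ (Kᶜ).card := by
  refine G.card_Z_le_of_zero _ fun z hz h => hK z hz ?_
  rw [In_iff_zero]
  intro e he
  exact h e (by simpa using he)

/-- one circuit: restriction of `Z` to `E₁` without `supp c`, except one edge of `E₁ ∩ supp c`, is
injective. (`hmin`: `c` is minimal, tested on `E₁` only.) -/
theorem card_one (E₁ : Finset E) {c : E → ZMod 2} (hc : ∃ e ∈ E₁, c e = 1)
    (hmin : ∀ z ∈ G.Z, (∀ e ∈ E₁, z e = 1 → c e = 1) → z = 0 ∨ z = c) :
    Fintype.card G.Z * 2 ^ (E₁.filter (fun e => c e = 1)).card ≤ 2 ^ (E₁.card + 1) := by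
  obtain ⟨e₀, he₀, hce₀⟩ := hc
  set T : Finset E := insert e₀ (E₁.filter (fun e => ¬ c e = 1)) with hT
  have hcard : T.card + (E₁.filter (fun e => c e = 1)).card = E₁.card + 1 := by
    rw [hT, Finset.card_insert_of_notMem (by simp [hce₀])]
    have := Finset.card_filter_add_card_filter_not (s := E₁) (fun e => c e = 1)
    omega
  have h1 : Fintype.card G.Z ≤ 2 ^ T.card := by
    refine G.card_Z_le_of_zero T fun z hz h => ?_
    have hmem : ∀ e ∈ E₁, z e = 1 → c e = 1 := by
      intro e he hze
      by_contra hce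
      have : z e = 0 := h e (by rw [hT, Finset.mem_insert, Finset.mem_filter]; exact Or.inr ⟨he, hce⟩)
      rw [this] at hze
      exact z2_one_ne_zero hze.symm
    rcases hmin z hz hmem with h2 | h2
    · exact h2
    · exfalso
      have h3 : z e₀ = 0 := h e₀ (by rw [hT]; exact Finset.mem_insert_self _ _)
      rw [h2, hce₀] at h3
      exact z2_one_ne_zero h3
  calc Fintype.card G.Z * 2 ^ (E₁.filter (fun e => c e = 1)).card
      ≤ 2 ^ T.card * 2 ^ (E₁.filter (fun e => c e = 1)).card := Nat.mul_le_mul_right _ h1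
    _ = 2 ^ (E₁.card + 1) := by rw [← pow_add, hcard]

/-- two circuits in different components (use `part_mem` of `SubRestrict.lean`): if `z ∈ Z` is
zero on `E₁` outside `supp c ∪ supp c'` and at one edge of each of `E₁ ∩ supp c`, `E₁ ∩ supp c'`
then its part in the component of `v₀` is `0` by `hmin`, so `z = 0` by `hmin'`. -/
theorem card_two_comp (E₁ : Finset E) (v₀ : V) {c c' : E → ZMod 2} (hc : ∃ e ∈ E₁, c e = 1)
    (hc' : ∃ e ∈ E₁, c' e = 1)
    (hmin : ∀ z ∈ G.Z, (∀ e ∈ E₁, z e = 1 → c e = 1) → z = 0 ∨ z = c)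
    (hmin' : ∀ z ∈ G.Z, (∀ e ∈ E₁, z e = 1 → c' e = 1) → z = 0 ∨ z = c')
    (h : ∀ e, c e = 1 → G.comp v₀ (G.s e)) (h' : ∀ e, c' e = 1 → ¬ G.comp v₀ (G.s e)) :
    Fintype.card G.Z * 2 ^ ((E₁.filter (fun e => c e = 1)).card +
      (E₁.filter (fun e => c' e = 1)).card) ≤ 2 ^ (E₁.card + 2) := by
  obtain ⟨e₀, he₀, hce₀⟩ := hc
  obtain ⟨e₁, he₁, hce₁⟩ := hc'
  set T : Finset E := insert e₀ (insert e₁ (E₁.filter (fun e => ¬ (c e = 1 ∨ c' e = 1)))) with hT
  have hcard : T.card + ((E₁.filter (fun e => c e = 1)).card +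
      (E₁.filter (fun e => c' e = 1)).card) ≤ E₁.card + 2 := by
    have h1 : T.card ≤ (E₁.filter (fun e => ¬ (c e = 1 ∨ c' e = 1))).card + 1 + 1 := by
      rw [hT]
      exact (Finset.card_insert_le _ _).trans (Nat.add_le_add_right (Finset.card_insert_le _ _) _)
    have h2 := Finset.card_filter_add_card_filter_not (s := E₁) (fun e => c e = 1 ∨ c' e = 1)
    have h3 : (E₁.filter (fun e => c e = 1 ∨ c' e = 1)).card =
        (E₁.filter (fun e => c e = 1)).card + (E₁.filter (fun e => c' e = 1)).card := by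
      rw [Finset.filter_or, Finset.card_union_of_disjoint]
      rw [Finset.disjoint_left]
      intro e he he'
      rw [Finset.mem_filter] at he he'
      exact h' e he'.2 (h e he.2)
    omega
  have h1 : Fintype.card G.Z ≤ 2 ^ T.card := by
    refine G.card_Z_le_of_zero T fun z hz hzT => ?_
    have hmem : ∀ e ∈ E₁, z e = 1 → c e = 1 ∨ c' e = 1 := by
      intro e he hze
      by_contra hce
      have : z e = 0 := hzT e (by
        rw [hT, Finset.mem_insert, Finset.mem_insert, Finset.mem_filter]
        exact Or.inr (Or.inr ⟨he, hce⟩))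
      rw [this] at hze
      exact z2_one_ne_zero hze.symm
    have hz0 : z e₀ = 0 := hzT e₀ (by rw [hT]; exact Finset.mem_insert_self _ _)
    have hz1 : z e₁ = 0 := hzT e₁ (by
      rw [hT]; exact Finset.mem_insert_of_mem (Finset.mem_insert_self _ _))
    have hpart : (fun e => if G.comp v₀ (G.s e) then z e else 0) = 0 := by
      rcases hmin _ (G.part_mem v₀ hz) (fun e he hze => by
        by_cases hs : G.comp v₀ (G.s e)
        · simp only [if_pos hs] at hze
          exact (hmem e he hze).resolve_right fun h3 => h' e h3 hs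
        · simp only [if_neg hs] at hze
          exact absurd hze.symm z2_one_ne_zero) with h3 | h3
      · exact h3
      · exfalso
        have h4 := congrFun h3 e₀
        simp only [if_pos (h e₀ hce₀), hz0, hce₀] at h4
        exact z2_one_ne_zero h4.symm
    rcases hmin' z hz (fun e he hze => by
      refine (hmem e he hze).resolve_left fun h3 => ?_
      have h4 := congrFun hpart e
      simp only [if_pos (h e h3), hze] at h4
      exact z2_one_ne_zero h4) with h3 | h3
    · exact h3
    · exfalso
      rw [h3, hce₁] at hz1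
      exact z2_one_ne_zero hz1
  calc Fintype.card G.Z * 2 ^ ((E₁.filter (fun e => c e = 1)).card +
        (E₁.filter (fun e => c' e = 1)).card)
      ≤ 2 ^ T.card * 2 ^ ((E₁.filter (fun e => c e = 1)).card +
        (E₁.filter (fun e => c' e = 1)).card) := Nat.mul_le_mul_right _ h1
    _ = 2 ^ (T.card + ((E₁.filter (fun e => c e = 1)).card +
        (E₁.filter (fun e => c' e = 1)).card)) := by rw [← pow_add]
    _ ≤ 2 ^ (E₁.card + 2) := Nat.pow_le_pow_right (by norm_num) hcard

end MG

end Cyc
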