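import Pool.Agent.Cyc.Prob

/-!
# Section 7.3: bound of the number of non-bridge edges at a vertex
-/

open Finset
open scoped Classical

namespace Cyc

namespace MG

variable {V E : Type} [Fintype V] [Fintype E] (G : MG V E)

/-- the sum of the characters at the edges of `D` -/
noncomputable def chD (D : Finset E) (z : E → ZMod 2) : ℝ := ∑ e ∈ D, chi (z e)

theorem chD_ge {D : Finset E} {z : E → ZMod 2} (h : (D.filter (fun e => z e = 1)).card ≤ 2) :
    (D.card : ℝ) - 4 ≤ chD D z := by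
  have h1 : ∀ e ∈ D, chi (z e) = 1 - 2 * (if z e = 1 then 1 else 0) := by
    intro e _
    rcases zmod2_cases (z e) with h2 | h2
    · rw [h2]; simp [chi]
    · rw [h2]; simp [chi]; norm_num
  unfold chD
  rw [Finset.sum_congr rfl h1, Finset.sum_sub_distrib, ← Finset.mul_sum, ← Finset.sum_filter,
    Finset.sum_const, Finset.sum_const, nsmul_eq_mul, nsmul_eq_mul]
  have h2 : (((D.filter (fun e => z e = 1)).card : ℕ) : ℝ) ≤ 2 := by exact_mod_cast h
  linarith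

theorem ev_single (e : E) (z : G.Z) : G.ev (Pi.single e 1) z = z.1 e := by
  rw [← G.co_eq]; rfl

theorem chD_sq_le (D : Finset E)
    (h3 : ∀ e ∈ D, ∀ f ∈ D, ∀ g ∈ D, e ≠ f → e ≠ g → f ≠ g →
      ¬ (G.ev (Pi.single e 1) = G.ev (Pi.single f 1) ∧
        G.ev (Pi.single e 1) = G.ev (Pi.single g 1))) :
    ∑ z : G.Z, chD D z.1 ^ 2 ≤ 2 * D.card * Fintype.card G.Z := by
  have h4 : ∀ z : G.Z, chD D z.1 ^ 2 =
      ∑ e ∈ D, ∑ f ∈ D, chi (G.ev (Pi.single e 1 + Pi.single f 1) z) := by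
    intro z
    rw [chD, sq, Finset.sum_mul_sum]
    refine Finset.sum_congr rfl fun e _ => Finset.sum_congr rfl fun f _ => ?_
    rw [← chi_add, ev_add, Pi.add_apply, ev_single, ev_single]
  rw [Finset.sum_congr rfl fun z _ => h4 z, Finset.sum_comm]
  have h5 : ∀ e ∈ D, ∑ z : G.Z, ∑ f ∈ D, chi (G.ev (Pi.single e 1 + Pi.single f 1) z) ≤
      2 * Fintype.card G.Z := by
    intro e he
    rw [Finset.sum_comm, Finset.sum_congr rfl fun f _ => G.sum_chi _, ← Finset.sum_filter,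
      Finset.sum_const, nsmul_eq_mul]
    refine mul_le_mul_of_nonneg_right ?_ (by positivity)
    have h6 : (D.filter (fun f => G.ev (Pi.single e 1 + Pi.single f 1) = 0)).card ≤ 2 := by
      by_contra hlt
      push Not at hlt
      obtain ⟨a, b, c, ha, hb, hc, hab, hac, hbc⟩ := Finset.two_lt_card_iff.1 hlt
      rw [Finset.mem_filter, ev_add, chain_add_eq_zero] at ha hb hc
      exact h3 a ha.1 b hb.1 c hc.1 hab hac hbc
        ⟨ha.2.symm.trans hb.2, ha.2.symm.trans hc.2⟩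
    exact_mod_cast h6
  refine (Finset.sum_le_sum h5).trans ?_
  rw [Finset.sum_const, nsmul_eq_mul]
  exact le_of_eq (by ring)

/-- Second moment: `Σ_{z ∈ Z} (Σ_{e ∈ D} χ(z e))² ≤ 2 |D| |Z|` (three different edges of `D` never
have the same functional), and each `ζ k` contributes at least `(|D| - 4)²` if `4 ≤ |D|`. -/
theorem card_D_le (D : Finset E) (_hD : ∀ e ∈ D, ∃ z ∈ G.Z, z e = 1)
    (h3 : ∀ e ∈ D, ∀ f ∈ D, ∀ g ∈ D, e ≠ f → e ≠ g → f ≠ g →
      ¬ (G.ev (Pi.single e 1) = G.ev (Pi.single f 1) ∧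
        G.ev (Pi.single e 1) = G.ev (Pi.single g 1)))
    (C₁ n : ℕ) (hn : 6 ≤ n) (ζ : ℕ → E → ZMod 2) (hζ : ∀ k, 3 ≤ k → k ≤ n → ζ k ∈ G.Z)
    (hinj : ∀ k l, 3 ≤ k → k ≤ n → 3 ≤ l → l ≤ n → ζ k = ζ l → k = l)
    (h2 : ∀ k, 3 ≤ k → k ≤ n → (D.filter (fun e => ζ k e = 1)).card ≤ 2)
    (hcard : Fintype.card G.Z ≤ C₁ * n) : D.card ≤ 3 * C₁ + 8 := by
  by_contra hlt
  push Not at hlt
  have hup := G.chD_sq_le D h3
  set g : ℕ → G.Z := fun k => if h : 3 ≤ k ∧ k ≤ n then ⟨ζ k, hζ k h.1 h.2⟩ else 0 with hg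
  have hgk : ∀ k ∈ Finset.Icc 3 n, (g k).1 = ζ k := by
    intro k hk
    rw [Finset.mem_Icc] at hk
    rw [hg]
    simp only [hk, and_self, dif_pos]
  have hginj : Set.InjOn g (Finset.Icc 3 n) := by
    intro k hk l hl hkl
    have hk' := hgk k hk
    have hl' := hgk l hl
    rw [Finset.mem_coe, Finset.mem_Icc] at hk hl
    exact hinj k l hk.1 hk.2 hl.1 hl.2 (by rw [← hk', ← hl', hkl])
  have hlow : (n - 2 : ℝ) * ((D.card : ℝ) - 4) ^ 2 ≤ ∑ z : G.Z, chD D z.1 ^ 2 := by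
    have h5 : ∑ k ∈ Finset.Icc 3 n, chD D (g k).1 ^ 2 ≤ ∑ z : G.Z, chD D z.1 ^ 2 := by
      rw [← Finset.sum_image (f := fun z : G.Z => chD D z.1 ^ 2) hginj]
      exact Finset.sum_le_univ_sum_of_nonneg fun z => sq_nonneg _
    refine le_trans ?_ h5
    have h6 : ∑ k ∈ Finset.Icc 3 n, ((D.card : ℝ) - 4) ^ 2 ≤
        ∑ k ∈ Finset.Icc 3 n, chD D (g k).1 ^ 2 := by
      refine Finset.sum_le_sum fun k hk => ?_
      rw [hgk k hk]
      rw [Finset.mem_Icc] at hk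
      have h7 : (0 : ℝ) ≤ (D.card : ℝ) - 4 := by
        have : (4 : ℝ) ≤ D.card := by exact_mod_cast (by omega : 4 ≤ D.card)
        linarith
      exact pow_le_pow_left₀ h7 (chD_ge (h2 k hk.1 hk.2)) 2
    refine le_trans (le_of_eq ?_) h6
    rw [Finset.sum_const, Nat.card_Icc, nsmul_eq_mul]
    congr 1
    have : n + 1 - 3 = n - 2 := by omega
    rw [this, Nat.cast_sub (by omega)]
    norm_num
  have hn' : (6 : ℝ) ≤ n := by exact_mod_cast hn
  have hm : (3 * C₁ + 9 : ℝ) ≤ D.card := by exact_mod_cast hlt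
  have hZ : (Fintype.card G.Z : ℝ) ≤ C₁ * n := by exact_mod_cast hcard
  have hC : (0 : ℝ) ≤ C₁ := by positivity
  set m : ℝ := (D.card : ℝ) with hmdef
  have hm0 : (0 : ℝ) ≤ m := by positivity
  have h7 : (n - 2 : ℝ) * (m - 4) ^ 2 ≤ (n - 2 : ℝ) * (m * (m - 9)) := by
    calc (n - 2 : ℝ) * (m - 4) ^ 2 ≤ 2 * m * (Fintype.card G.Z : ℝ) := hlow.trans hup
      _ ≤ 2 * m * (C₁ * n) := by
          apply mul_le_mul_of_nonneg_left hZ
          positivity
      _ ≤ (n - 2 : ℝ) * (m * (3 * C₁)) := by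
          have h8 : 0 ≤ m * C₁ * (n - 6) := by
            apply mul_nonneg (mul_nonneg hm0 hC)
            linarith
          nlinarith
      _ ≤ (n - 2 : ℝ) * (m * (m - 9)) := by
          apply mul_le_mul_of_nonneg_left _ (by linarith)
          apply mul_le_mul_of_nonneg_left _ hm0
          linarith
  have h9 : (m - 4) ^ 2 ≤ m * (m - 9) := le_of_mul_le_mul_left h7 (by linarith)
  nlinarith

end MG

end Cyc
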