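import Pool.Agent.Cyc.SubDart

/-!
# Section 7.3: three old edges at a vertex never have the same functional
-/

open Finset
open scoped Classical

namespace Cyc

variable {N : ℕ} (G₀ : SimpleGraph (Fin N))

/-- a potential whose coboundary vanishes on the path edges at `v` may be taken zero at `v` -/
theorem pot_norm (v : Fin N) (f : G₀.edgeSet ⊕ (Fin N × Fin N) → ZMod 2)
    (hf : ∀ q, f (Sum.inr q) = 0) (h : ∃ φ, f = (DG G₀).d φ) :
    ∃ φ, f = (DG G₀).d φ ∧ ∀ j, φ (v, j) = 0 := by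
  obtain ⟨φ, hφ⟩ := h
  have hc : ∀ j, φ (v, j) = φ (v, 0) := by
    intro j
    induction j using Fin.induction with
    | zero => rfl
    | succ i ih =>
      have h1 := congrFun hφ (Sum.inr (v, i))
      rw [hf, d_inr] at h1
      exact (z2_add_eq_zero.1 h1.symm).symm.trans ih
  refine ⟨fun w => φ w + φ (v, 0), ?_, fun j => ?_⟩
  · rw [hφ]
    funext e
    show φ _ + φ _ = (φ _ + φ (v, 0)) + (φ _ + φ (v, 0))
    have key : ∀ a b c : ZMod 2, a + b = (a + c) + (b + c) := by decide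
    exact key _ _ _
  · show φ (v, j) + φ (v, 0) = 0
    rw [hc, z2_add_self]

/-- at least one end of `inl e` is at `v` if `v ∈ e` -/
theorem end_at {v : Fin N} {e : G₀.edgeSet} (he : v ∈ e.1) :
    ((DG G₀).s (Sum.inl e)).1 = v ∨ ((DG G₀).t (Sum.inl e)).1 = v := by
  rw [← mk_fs_sn G₀ e, Sym2.mem_iff] at he
  rcases he with h | h
  · exact Or.inl h.symm
  · exact Or.inr h.symm

theorem pot_at {v : Fin N} {φ : Fin N × Fin (N + 1) → ZMod 2} (h0 : ∀ j, φ (v, j) = 0)
    {w : Fin N × Fin (N + 1)} (hw : w.1 = v) : φ w = 0 := by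
  obtain ⟨a, b⟩ := w
  have : a = v := hw
  rw [this]
  exact h0 b

theorem no_three (v : Fin N) {e f g : G₀.edgeSet} (he : v ∈ e.1) (hf : v ∈ f.1) (hg : v ∈ g.1)
    (hef : e ≠ f) (heg : e ≠ g) (hfg : f ≠ g) (hnb : (DG G₀).nb (Sum.inl e)) :
    ¬ ((DG G₀).ev (Pi.single (Sum.inl e) 1) = (DG G₀).ev (Pi.single (Sum.inl f) 1) ∧
      (DG G₀).ev (Pi.single (Sum.inl e) 1) = (DG G₀).ev (Pi.single (Sum.inl g) 1)) := by
  rintro ⟨h1, h2⟩
  rw [MG.ev_eq_iff] at h1 h2
  obtain ⟨φ, hφ, hφ0⟩ := pot_norm G₀ v _ (fun q => by simp) h1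
  obtain ⟨ψ, hψ, hψ0⟩ := pot_norm G₀ v _ (fun q => by simp) h2
  -- the product
  have key : ∀ a, (DG G₀).d (fun w => φ w * ψ w) a = (Pi.single (Sum.inl e) 1 : _ → ZMod 2) a := by
    intro a
    show φ _ * ψ _ + φ _ * ψ _ = _
    have p1 : φ ((DG G₀).s a) + φ ((DG G₀).t a) = (Pi.single (Sum.inl e) 1 : _ → ZMod 2) a +
      (Pi.single (Sum.inl f) 1 : _ → ZMod 2) a := (congrFun hφ a).symm
    have p2 : ψ ((DG G₀).s a) + ψ ((DG G₀).t a) = (Pi.single (Sum.inl e) 1 : _ → ZMod 2) a +
      (Pi.single (Sum.inl g) 1 : _ → ZMod 2) a := (congrFun hψ a).symm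
    by_cases hae : a = Sum.inl e
    · subst hae
      rw [Pi.single_eq_same, Pi.single_eq_of_ne (fun h => hef (Sum.inl_injective h)), add_zero] at p1
      rw [Pi.single_eq_same, Pi.single_eq_of_ne (fun h => heg (Sum.inl_injective h)), add_zero] at p2
      rw [Pi.single_eq_same]
      rcases end_at G₀ he with h | h
      · rw [pot_at hφ0 h, zero_add] at p1
        rw [pot_at hψ0 h, zero_add] at p2
        rw [pot_at hφ0 h, p1, p2]
        ring
      · rw [pot_at hφ0 h, add_zero] at p1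
        rw [pot_at hψ0 h, add_zero] at p2
        rw [pot_at hφ0 h, p1, p2]
        ring
    · rw [Pi.single_eq_of_ne hae] at p1 p2 ⊢
      rw [zero_add] at p1 p2
      by_cases haf : a = Sum.inl f
      · subst haf
        rw [Pi.single_eq_of_ne (fun h => hfg (Sum.inl_injective h))] at p2
        rcases end_at G₀ hf with h | h
        · rw [pot_at hψ0 h, zero_add] at p2
          rw [pot_at hψ0 h, p2]
          ring
        · rw [pot_at hψ0 h, add_zero] at p2
          rw [pot_at hψ0 h, p2]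
          ring
      · rw [Pi.single_eq_of_ne haf] at p1
        by_cases hag : a = Sum.inl g
        · subst hag
          rcases end_at G₀ hg with h | h
          · rw [pot_at hφ0 h, zero_add] at p1
            rw [pot_at hφ0 h, p1]
            ring
          · rw [pot_at hφ0 h, add_zero] at p1
            rw [pot_at hφ0 h, p1]
            ring
        · rw [Pi.single_eq_of_ne hag] at p2
          rw [z2_add_eq_zero.1 p1, z2_add_eq_zero.1 p2, z2_add_self]
  obtain ⟨z, hz, hz1⟩ := hnb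
  have h3 := congrFun ((DG G₀).ev_d (fun w => φ w * ψ w)) ⟨z, hz⟩
  rw [funext key] at h3
  have h4 : (DG G₀).ev (Pi.single (Sum.inl e) 1) ⟨z, hz⟩ = z (Sum.inl e) := by
    simp [MG.ev, Pi.single_apply]
  rw [h4, hz1] at h3
  exact z2_one_ne_zero h3

end Cyc
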