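import Pool.Agent.Cyc.Suppress
import Pool.Agent.Cyc.SubCirc
import Pool.Agent.Cyc.SubDeg
import Pool.Agent.Cyc.SubMult
import Pool.Agent.Cyc.SubCount

/-!
# Sections 7.1 - 7.5: from the simple graph to a subcubic weighted graph
-/

open Finset
open scoped Classical

namespace Cyc

theorem MG.co_eq' {V E : Type} [Fintype E] [DecidableEq E] (G : MG V E) (e : E) :
    G.co e = G.ev (Pi.single e 1) := by
  funext z
  simp [MG.co, MG.ev, Pi.single_apply]

theorem two_pow_le {n m C : ℕ} (hn : 0 < n) (h : (m : ℝ) ≤ n + Real.logb 2 n + C) :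
    2 ^ m ≤ 2 ^ n * n * 2 ^ C := by
  have hn' : (0 : ℝ) < n := by exact_mod_cast hn
  have h1 : (2 : ℝ) ^ (m : ℝ) ≤ (2 : ℝ) ^ ((n : ℝ) + Real.logb 2 n + C) :=
    Real.rpow_le_rpow_of_exponent_le (by norm_num) h
  rw [Real.rpow_add (by norm_num), Real.rpow_add (by norm_num),
    Real.rpow_logb (by norm_num) (by norm_num) hn', Real.rpow_natCast, Real.rpow_natCast,
    Real.rpow_natCast] at h1
  exact_mod_cast h1

/-- the degree-three vertices of a label class -/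
theorem card_label (N : ℕ) (G₀ : SimpleGraph (Fin N)) (v₀ : Fin N × Fin (N + 1)) (d : ℕ)
    (hd : ∀ v, (Dv G₀ v).card ≤ d) (x : ℕ) :
    (univ.filter (fun w : {v // (DG G₀).comp v₀ v} =>
      ((DG G₀).sub v₀).dg w = 3 ∧ w.1.1.val = x)).card ≤ d := by
  by_cases hx : x < N
  · refine le_trans ?_ (hd ⟨x, hx⟩)
    refine le_trans ?_ (Finset.card_image_le (s := Dv G₀ ⟨x, hx⟩)
      (f := fun e => ((⟨x, hx⟩ : Fin N), (othE G₀ ⟨x, hx⟩ e).castSucc)))
    refine Finset.card_le_card_of_injOn Subtype.val ?_ Subtype.val_injective.injOn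
    intro w hw
    rw [Finset.mem_coe, Finset.mem_filter] at hw
    obtain ⟨-, h3, hlab⟩ := hw
    have hdeg : 3 ≤ (DG G₀).dg w.1 := by
      have := (DG G₀).dg_sub_le v₀ w
      omega
    obtain ⟨e, he⟩ := exists_old G₀ hdeg
    have hv : w.1.1 = ⟨x, hx⟩ := Fin.ext hlab
    have he' : (DG G₀).s (Sum.inl e) = ((⟨x, hx⟩ : Fin N), w.1.2) ∨
        (DG G₀).t (Sum.inl e) = ((⟨x, hx⟩ : Fin N), w.1.2) := by
      rw [← hv]; exact he
    obtain ⟨h4, h5⟩ := end_inl G₀ he'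
    rw [Finset.mem_coe, Finset.mem_image]
    refine ⟨Sum.inl e, (mem_Dv G₀).2 ⟨e, rfl, h4, ?_⟩, ?_⟩
    · exact (DG G₀).nb_of_dg_three v₀ w (dg_DG_le G₀ _) h3 _ he
    · exact Prod.ext hv.symm h5
  · rw [Finset.card_eq_zero.2]
    · exact Nat.zero_le _
    · rw [Finset.filter_eq_empty_iff]
      rintro w - ⟨-, h⟩
      exact hx (h ▸ w.1.1.2)

/-- 7.1 - 7.5 -/
theorem exists_sub (C : ℕ) : ∃ κ C₁ d₁ n₂ : ℕ, 3 ≤ κ ∧ ∀ n, n₂ ≤ n → ∀ (N : ℕ)
    (G₀ : SimpleGraph (Fin N)),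
    (∀ k, 3 ≤ k → k ≤ n → ∃ (v : Fin N) (p : G₀.Walk v v), p.IsCycle ∧ p.length = k) →
    ((G₀.edgeSet.ncard : ℝ) ≤ n + Real.logb 2 n + C) →
    ∃ (V E : Type) (_ : Fintype V) (_ : Fintype E) (G : MG V E) (wt : E → ℕ) (lab : V → ℕ)
      (ζ : ℕ → E → ZMod 2), G.Sub23 ∧ (∃ v, G.dg v = 3) ∧
      (∀ e, wt e = 0 → lab (G.s e) = lab (G.t e)) ∧
      (∀ k, κ ≤ k → k ≤ n → G.Circ (ζ k) ∧ wgt wt (ζ k) = k) ∧
      Fintype.card G.Z ≤ C₁ * n ∧
      ∀ x, (univ.filter (fun v => G.dg v = 3 ∧ lab v = x)).card ≤ d₁ := by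
  refine ⟨C + 3, 2 ^ (C + 1), 3 * 2 ^ (C + 1) + 8, C + 10, by omega, ?_⟩
  intro n hn N G₀ hcyc hE
  -- the chains
  have hex : ∀ k, ∃ x : G₀.edgeSet → ZMod 2, 3 ≤ k → k ≤ n → (Even0 G₀ x ∧ x ≠ 0 ∧
      (∀ y : G₀.edgeSet → ZMod 2, (∀ v, ∑ u, adjv G₀ y v u = 0) → Le y x → y = 0 ∨ y = x) ∧
      (univ.filter (fun e => x e = 1)).card = k ∧
      ∀ v, (univ.filter (fun u => adjv G₀ x v u = 1)).card ≤ 2) := by
    intro k
    by_cases h3 : 3 ≤ k
    · by_cases hk : k ≤ n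
      · obtain ⟨v, p, hp, hl⟩ := hcyc k h3 hk
        obtain ⟨x, h1, h2, h4, h5, h6⟩ := exists_cycle_chain G₀ p hp
        exact ⟨x, fun _ _ => ⟨h1, h2, h4, h5.trans hl, h6⟩⟩
      · exact ⟨0, fun _ h => absurd h hk⟩
    · exact ⟨0, fun h => absurd h h3⟩
  choose x hx using hex
  have hev := fun k h3 hk => (hx k h3 hk).1
  have hne := fun k h3 hk => (hx k h3 hk).2.1
  have hmin := fun k h3 hk => (hx k h3 hk).2.2.1
  have hcard := fun k h3 hk => (hx k h3 hk).2.2.2.1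
  have htwo := fun k h3 hk => (hx k h3 hk).2.2.2.2
  have hcirc : ∀ k, 3 ≤ k → k ≤ n → (DG G₀).Circ (lift G₀ (x k)) := fun k h3 hk =>
    lift_circ G₀ (hev k h3 hk) (hne k h3 hk) (hmin k h3 hk)
  have hwgt : ∀ k, 3 ≤ k → k ≤ n → wgt (dwt G₀) (lift G₀ (x k)) = k := fun k h3 hk =>
    (wgt_lift G₀ _).trans (hcard k h3 hk)
  have hold : ∀ k, 3 ≤ k → k ≤ n → ∃ e ∈ oldE G₀, lift G₀ (x k) e = 1 := by
    intro k h3 hk
    by_contra hc
    push Not at hc
    apply hne k h3 hk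
    funext e
    exact z2_ne_one (hc (Sum.inl e) ((mem_oldE G₀ _).2 ⟨e, rfl⟩))
  have hpow := two_pow_le (by omega : 0 < n) hE
  -- the size of the cycle space
  have hZ : Fintype.card (DG G₀).Z ≤ 2 ^ (C + 1) * n := by
    have h1 := (DG G₀).card_one (oldE G₀) (hold n (by omega) le_rfl)
      (fun z hz h => lift_min G₀ (hmin n (by omega) le_rfl) hz h)
    rw [card_oldE_filter, hcard n (by omega) le_rfl, card_oldE] at h1
    have h2 : Fintype.card (DG G₀).Z * 2 ^ n ≤ (2 ^ (C + 1) * n) * 2 ^ n := by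
      calc Fintype.card (DG G₀).Z * 2 ^ n ≤ 2 ^ (G₀.edgeSet.ncard + 1) := h1
        _ = 2 * 2 ^ G₀.edgeSet.ncard := by rw [pow_succ, mul_comm]
        _ ≤ 2 * (2 ^ n * n * 2 ^ C) := Nat.mul_le_mul_left _ hpow
        _ = (2 ^ (C + 1) * n) * 2 ^ n := by ring
    exact Nat.le_of_mul_le_mul_right h2 (by positivity)
  have hinj : ∀ k l, 3 ≤ k → k ≤ n → 3 ≤ l → l ≤ n → lift G₀ (x k) = lift G₀ (x l) → k = l := by
    intro k l h1 h2 h3 h4 h
    rw [← hwgt k h1 h2, ← hwgt l h3 h4, h]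
  -- the lower bound of the size of the cycle space
  have hZ' : n - 2 ≤ Fintype.card (DG G₀).Z := by
    have h1 : (Finset.Icc 3 n).card ≤ (univ : Finset (DG G₀).Z).card := by
      refine Finset.card_le_card_of_injOn
        (fun k => if h : 3 ≤ k ∧ k ≤ n then ⟨lift G₀ (x k), (hcirc k h.1 h.2).1⟩ else 0)
        (fun _ _ => Finset.mem_coe.2 (Finset.mem_univ _)) ?_
      intro k hk l hl hkl
      rw [Finset.mem_coe, Finset.mem_Icc] at hk hl
      simp only [hk, hl, and_self, dif_pos] at hkl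
      exact hinj k l hk.1 hk.2 hl.1 hl.2 (congrArg Subtype.val hkl)
    rw [Nat.card_Icc, Finset.card_univ] at h1
    omega
  -- the degree bound
  have hD : ∀ v, (Dv G₀ v).card ≤ 3 * 2 ^ (C + 1) + 8 := by
    intro v
    refine (DG G₀).card_D_le (Dv G₀ v) ?_ ?_ (2 ^ (C + 1)) n (by omega) (fun k => lift G₀ (x k))
      (fun k h3 hk => (hcirc k h3 hk).1) hinj ?_ hZ
    · intro e he
      obtain ⟨e₀, -, -, h⟩ := (mem_Dv G₀).1 he
      exact h
    · intro e he f hf g hg hef heg hfg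
      obtain ⟨e₀, rfl, hv, hnb⟩ := (mem_Dv G₀).1 he
      obtain ⟨f₀, rfl, hv', -⟩ := (mem_Dv G₀).1 hf
      obtain ⟨g₀, rfl, hv'', -⟩ := (mem_Dv G₀).1 hg
      have h4 := no_three G₀ v hv hv' hv'' (fun h => hef (by rw [h])) (fun h => heg (by rw [h]))
        (fun h => hfg (by rw [h])) hnb
      rw [← MG.co_eq', ← MG.co_eq', ← MG.co_eq'] at h4
      rw [← MG.co_eq, ← MG.co_eq, ← MG.co_eq]
      exact h4
    · intro k h3 hk
      exact (card_Dv_filter G₀ v (x k)).trans (htwo k h3 hk v)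
  -- the component
  obtain ⟨e₁, -, he₁⟩ := hold n (by omega) le_rfl
  set v₀ := (DG G₀).s e₁ with hv₀
  have hnb₁ : (DG G₀).nb e₁ := ⟨_, (hcirc n (by omega) le_rfl).1, he₁⟩
  have hin_n : ∀ e, lift G₀ (x n) e = 1 → (DG G₀).comp v₀ ((DG G₀).s e) := by
    rcases (DG G₀).circ_comp v₀ (hcirc n (by omega) le_rfl) with h | h
    · exact h
    · exact absurd (fun φ _ => rfl) (h e₁ he₁)
  have hin : ∀ k, C + 3 ≤ k → k ≤ n → ∀ e, lift G₀ (x k) e = 1 →
      (DG G₀).comp v₀ ((DG G₀).s e) := by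
    intro k h3 hk
    rcases (DG G₀).circ_comp v₀ (hcirc k (by omega) hk) with h | h
    · exact h
    · exfalso
      have h1 := (DG G₀).card_two_comp (oldE G₀) v₀ (hold n (by omega) le_rfl)
        (hold k (by omega) hk)
        (fun z hz h => lift_min G₀ (hmin n (by omega) le_rfl) hz h)
        (fun z hz h => lift_min G₀ (hmin k (by omega) hk) hz h) hin_n h
      rw [card_oldE_filter, card_oldE_filter, hcard n (by omega) le_rfl, hcard k (by omega) hk,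
        card_oldE] at h1
      have h2 : (n - 2) * 2 ^ (C + 3) * 2 ^ n ≤ (2 ^ (C + 2) * n) * 2 ^ n := by
        calc (n - 2) * 2 ^ (C + 3) * 2 ^ n ≤ Fintype.card (DG G₀).Z * 2 ^ k * 2 ^ n := by
              refine Nat.mul_le_mul_right _ (Nat.mul_le_mul hZ' ?_)
              exact Nat.pow_le_pow_right (by norm_num) h3
          _ = Fintype.card (DG G₀).Z * 2 ^ (n + k) := by rw [pow_add]; ring
          _ ≤ 2 ^ (G₀.edgeSet.ncard + 2) := h1
          _ = 4 * 2 ^ G₀.edgeSet.ncard := by rw [pow_add]; ring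
          _ ≤ 4 * (2 ^ n * n * 2 ^ C) := Nat.mul_le_mul_left _ hpow
          _ = (2 ^ (C + 2) * n) * 2 ^ n := by ring
      have h4 := Nat.le_of_mul_le_mul_right h2 (by positivity)
      have h5 : (2 * (n - 2)) * 2 ^ (C + 2) ≤ n * 2 ^ (C + 2) := by
        calc (2 * (n - 2)) * 2 ^ (C + 2) = (n - 2) * 2 ^ (C + 3) := by ring
          _ ≤ 2 ^ (C + 2) * n := h4
          _ = n * 2 ^ (C + 2) := mul_comm _ _
      have h6 := Nat.le_of_mul_le_mul_right h5 (by positivity)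
      omega
  have hsub : ((DG G₀).sub v₀).Sub23 := (DG G₀).sub_sub23 (dg_DG_le G₀) v₀ ⟨e₁, hnb₁, rfl⟩
  have hc : ∀ k, C + 3 ≤ k → k ≤ n → ((DG G₀).sub v₀).Circ ((DG G₀).res v₀ (lift G₀ (x k))) ∧
      wgt (fun e : {e // (DG G₀).nb e ∧ (DG G₀).comp v₀ ((DG G₀).s e)} => dwt G₀ e.1)
        ((DG G₀).res v₀ (lift G₀ (x k))) = k := fun k h3 hk =>
    ⟨(DG G₀).sub_circ v₀ (hcirc k (by omega) hk) (hin k h3 hk),
      ((DG G₀).wgt_res v₀ (dwt G₀) (hcirc k (by omega) hk) (hin k h3 hk)).trans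
        (hwgt k (by omega) hk)⟩
  refine ⟨{v // (DG G₀).comp v₀ v}, {e // (DG G₀).nb e ∧ (DG G₀).comp v₀ ((DG G₀).s e)},
    inferInstance, inferInstance, (DG G₀).sub v₀, fun e => dwt G₀ e.1, fun w => w.1.1.val,
    fun k => (DG G₀).res v₀ (lift G₀ (x k)), hsub, ?_, ?_, hc, ?_, ?_⟩
  · refine ((DG G₀).sub v₀).exists_dg_three hsub ?_ (hc (C + 3) le_rfl (by omega)).1
      (hc (C + 4) (by omega) (by omega)).1 ?_
    · intro e h
      exact DG_noloop G₀ e.1 (congrArg Subtype.val h)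
    · intro h
      have h1 := (hc (C + 3) le_rfl (by omega)).2
      have h2 := (hc (C + 4) (by omega) (by omega)).2
      rw [h, h2] at h1
      omega
  · intro e he
    exact congrArg Fin.val (dlab G₀ e.1 he)
  · exact ((DG G₀).card_sub_Z v₀).trans hZ
  · intro y
    exact card_label N G₀ v₀ _ hD y

end Cyc
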