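import Pool.Agent.Cyc.Final
import Pool.Agent.Cyc.SubGraph

/-!
# Section 7: reduction of the simple graph to a weighted cubic graph
-/

open Finset
open scoped Classical

namespace Cyc

/-- section 7 -/
theorem reduction (C : ℕ) : ∃ κ C₁ d₁ n₂ : ℕ, ∀ n, n₂ ≤ n → ∀ (N : ℕ) (G : SimpleGraph (Fin N)),
    (∀ k, 3 ≤ k → k ≤ n → ∃ (v : Fin N) (p : G.Walk v v), p.IsCycle ∧ p.length = k) →
    ((G.edgeSet.ncard : ℝ) ≤ n + Real.logb 2 n + C) → Nonempty (WData n κ C₁ d₁) := by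
  obtain ⟨κ, C₁, d₁, n₂, hκ, H⟩ := exists_sub C
  refine ⟨κ, C₁, d₁, n₂, fun n hn N G hcyc hE => ?_⟩
  obtain ⟨V, E, fV, fE, G₁, wt, lab, ζ, hG, h3, hlab, hζ, hZ, hd⟩ := H n hn N G hcyc hE
  obtain ⟨V', E', fV', fE', G', wt', ι, Φ, hG', hι, hdeg, hlab', hcard, hΦ⟩ :=
    suppress V E G₁ hG h3 wt lab hlab
  refine ⟨{
    V := V'
    E := E'
    fV := fV'
    fE := fE'
    G := G'
    good := hG'
    wt := wt'
    lab := fun v => lab (ι v)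
    ζ := fun k => Φ (ζ k)
    hκ := hκ
    hζ := ?_
    hZ := hcard.trans hZ
    hlab := hlab'
    hcard := ?_ }⟩
  · intro k h1 h2
    obtain ⟨h3, h4⟩ := hζ k h1 h2
    obtain ⟨h5, h6⟩ := hΦ _ h3
    exact ⟨h5, h6.trans h4⟩
  · intro x
    refine le_trans ?_ (hd x)
    refine Finset.card_le_card_of_injOn ι ?_ hι.injOn
    intro v hv
    simp only [Finset.coe_filter, Finset.mem_univ, true_and, Set.mem_setOf_eq] at hv ⊢
    exact ⟨hdeg v, hv⟩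

theorem main (C : ℕ) : ∃ n₀ : ℕ, ∀ n, n₀ ≤ n → ∀ (N : ℕ) (G : SimpleGraph (Fin N)),
    (∀ k, 3 ≤ k → k ≤ n → ∃ (v : Fin N) (p : G.Walk v v), p.IsCycle ∧ p.length = k) →
    (n : ℝ) + Real.logb 2 n + C < G.edgeSet.ncard := by
  obtain ⟨κ, C₁, d₁, n₂, H⟩ := reduction C
  obtain ⟨n₁, H₁⟩ := no_WData κ C₁ d₁
  refine ⟨max n₁ n₂, fun n hn N G hcyc => ?_⟩
  by_contra hE
  push Not at hE
  exact (H₁ n (le_trans (le_max_left _ _) hn)).elim
    (H n (le_trans (le_max_right _ _) hn) N G hcyc hE).some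

end Cyc
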