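import Pool.Agent.Cyc.Prob
import Pool.Agent.Cyc.Sparse

/-!
# Section 2.1: many short circuits : regime (ii) of Theorem A
-/

open Finset
open scoped Classical

namespace Cyc

/-- A digraph with outdegree at most `m` has an independent set which contains at least the
fraction `1 / (2 m + 1)` of the vertices. -/
theorem rt_exists_indep {α : Type} (m : ℕ) (R : α → α → Prop) : ∀ (n : ℕ) (S : Finset α), S.card = n →
    (∀ x ∈ S, (S.filter (fun y => R x y)).card ≤ m) →
    ∃ I ⊆ S, (∀ x ∈ I, ∀ y ∈ I, x ≠ y → ¬ R x y) ∧ S.card ≤ (2 * m + 1) * I.card := by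
  intro n
  induction n using Nat.strong_induction_on with
  | _ n ih =>
    intro S hSn h
    rcases S.eq_empty_or_nonempty with rfl | hne
    · exact ⟨∅, by simp, by simp, by simp⟩
    have hsum : ∑ y ∈ S, (S.filter (fun x => R x y)).card ≤ ∑ y ∈ S, m := by
      calc ∑ y ∈ S, (S.filter (fun x => R x y)).card
          = ∑ x ∈ S, (S.filter (fun y => R x y)).card := by
            simp only [Finset.card_filter]
            exact Finset.sum_comm
        _ ≤ ∑ x ∈ S, m := Finset.sum_le_sum h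
    obtain ⟨y, hyS, hy⟩ := Finset.exists_le_of_sum_le hne hsum
    set D : Finset α := insert y (S.filter (fun x => R x y) ∪ S.filter (fun x => R y x)) with hD
    have hDcard : D.card ≤ 2 * m + 1 := by
      have h1 : D.card ≤ (S.filter (fun x => R x y) ∪ S.filter (fun x => R y x)).card + 1 :=
        Finset.card_insert_le y (S.filter (fun x => R x y) ∪ S.filter (fun x => R y x))
      have h2 := Finset.card_union_le (S.filter (fun x => R x y)) (S.filter (fun x => R y x))
      have h3 := h y hyS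
      omega
    have hyD : y ∈ D := by rw [hD]; exact Finset.mem_insert_self _ _
    have hlt : (S \ D).card < n := by
      rw [← hSn]
      apply Finset.card_lt_card
      refine ⟨Finset.sdiff_subset, fun hh => ?_⟩
      have := hh hyS
      exact (Finset.mem_sdiff.1 this).2 hyD
    obtain ⟨I, hIS, hI, hIc⟩ := ih _ hlt (S \ D) rfl (by
      intro x hx
      refine le_trans (Finset.card_le_card ?_) (h x (Finset.mem_sdiff.1 hx).1)
      intro w hw
      rw [Finset.mem_filter] at hw ⊢
      exact ⟨(Finset.mem_sdiff.1 hw.1).1, hw.2⟩)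
    refine ⟨insert y I, ?_, ?_, ?_⟩
    · intro x hx
      rcases Finset.mem_insert.1 hx with rfl | hx
      · exact hyS
      · exact (Finset.mem_sdiff.1 (hIS hx)).1
    · intro a ha b hb hab
      rcases Finset.mem_insert.1 ha with ha1 | ha1
      · rcases Finset.mem_insert.1 hb with hb1 | hb1
        · exact absurd (ha1.trans hb1.symm) hab
        · intro hR
          have hb' := Finset.mem_sdiff.1 (hIS hb1)
          apply hb'.2
          rw [ha1] at hR
          rw [hD]
          exact Finset.mem_insert_of_mem (Finset.mem_union_right _ (Finset.mem_filter.2 ⟨hb'.1, hR⟩))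
      · rcases Finset.mem_insert.1 hb with hb1 | hb1
        · intro hR
          have ha' := Finset.mem_sdiff.1 (hIS ha1)
          apply ha'.2
          rw [hb1] at hR
          rw [hD]
          exact Finset.mem_insert_of_mem (Finset.mem_union_left _ (Finset.mem_filter.2 ⟨ha'.1, hR⟩))
        · exact hI a ha1 b hb1 hab
    · have hyI : y ∉ I := fun hh => (Finset.mem_sdiff.1 (hIS hh)).2 hyD
      rw [Finset.card_insert_of_notMem hyI]
      have h1 : S.card ≤ (S \ D).card + D.card := by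
        have := Finset.card_le_card_sdiff_add_card (s := S) (t := D)
        exact this
      calc S.card ≤ (S \ D).card + D.card := h1
        _ ≤ (2 * m + 1) * I.card + (2 * m + 1) := by omega
        _ = (2 * m + 1) * (I.card + 1) := by ring

namespace MG

variable {V E : Type} [Fintype V] [Fintype E] (G : MG V E)

/-- circuits inside `A` with at most `M` edges. -/
noncomputable def short (A : Finset V) (M : ℕ) : Finset (E → ZMod 2) :=
  univ.filter (fun c => G.Circ c ∧ In c (G.inn A) ∧ len c ≤ M)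

theorem rt_mem_del (X : Finset V) (e : E) :
    e ∈ G.del X ↔ (G.s e ∈ X ∧ G.t e ∉ X) ∨ (G.s e ∉ X ∧ G.t e ∈ X) := by
  unfold del
  rw [Finset.mem_filter]
  exact ⟨fun h => h.2, fun h => ⟨Finset.mem_univ _, h⟩⟩

theorem rt_mem_inn (X : Finset V) (e : E) : e ∈ G.inn X ↔ G.s e ∈ X ∧ G.t e ∈ X := by
  unfold inn
  rw [Finset.mem_filter]
  exact ⟨fun h => h.2, fun h => ⟨Finset.mem_univ _, h⟩⟩

theorem rt_del_compl (X : Finset V) : G.del Xᶜ = G.del X := by
  ext e
  rw [rt_mem_del, rt_mem_del]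
  simp only [Finset.mem_compl, not_not]
  tauto

/-- the two chains are independent -/
def RtInd (c c' : E → ZMod 2) : Prop :=
  (∀ e, ¬ (c e = 1 ∧ c' e = 1)) ∧
    ∀ f : E → ZMod 2, G.Cut f → (∀ e, f e = 1 → c e = 1 ∨ c' e = 1) →
      G.Cut (fun e => if c e = 1 then f e else 0)

theorem rt_cases (a : ZMod 2) : a = 0 ∨ a = 1 := by
  fin_cases a
  · exact Or.inl rfl
  · exact Or.inr rfl

/-- the set of vertices belonging to a dependent pair -/
theorem rt_side (hG : G.Good) {A : Finset V} (hA : G.MinSparse A) (M : ℕ)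
    {c₀ c : E → ZMod 2} (h₀ : c₀ ∈ G.short A M) (h : c ∈ G.short A M) (f : E → ZMod 2)
    (hf : G.Cut f) (hfc : ∀ e, f e = 1 → c₀ e = 1 ∨ c e = 1)
    (hn : ¬ G.Cut (fun e => if c₀ e = 1 then f e else 0)) :
    ∃ B : Finset V, (∀ e ∈ G.del B, c₀ e = 1 ∨ c e = 1) ∧
      ¬ G.Cut (fun e => if c₀ e = 1 then ind (G.del B) e else 0) ∧
      (A ∩ B).card ≤ 196 * M ^ 2 := by
  obtain ⟨φ, hφ⟩ := hf
  set B : Finset V := univ.filter (fun v => φ v = 1) with hB
  have hBφ : ind B = φ := by
    funext v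
    unfold ind
    by_cases hv : φ v = 1
    · rw [if_pos (by rw [hB]; exact Finset.mem_filter.2 ⟨Finset.mem_univ _, hv⟩), hv]
    · rw [if_neg (by rw [hB]; intro hh; exact hv (Finset.mem_filter.1 hh).2)]
      rcases rt_cases (φ v) with h | h
      · exact h.symm
      · exact absurd h hv
  have hfB : f = ind (G.del B) := by rw [← G.d_ind, hBφ, hφ]
  have hdel : ∀ e ∈ G.del B, c₀ e = 1 ∨ c e = 1 := by
    intro e he
    apply hfc
    rw [hfB]
    unfold ind
    rw [if_pos he]
  have h₀' := (Finset.mem_filter.1 h₀).2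
  have h' := (Finset.mem_filter.1 h).2
  have hinn : G.del B ⊆ G.inn A := by
    intro e he
    rcases hdel e he with h1 | h1
    · exact h₀'.2.1 e h1
    · exact h'.2.1 e h1
  have hcard : (G.del B).card ≤ 2 * M := by
    have hsub : G.del B ⊆ univ.filter (fun e => c₀ e = 1) ∪ univ.filter (fun e => c e = 1) := by
      intro e he
      rcases hdel e he with h1 | h1
      · exact Finset.mem_union_left _ (Finset.mem_filter.2 ⟨Finset.mem_univ _, h1⟩)
      · exact Finset.mem_union_right _ (Finset.mem_filter.2 ⟨Finset.mem_univ _, h1⟩)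
    have h1 := Finset.card_le_card hsub
    have h2 := Finset.card_union_le (univ.filter (fun e => c₀ e = 1)) (univ.filter (fun e => c e = 1))
    have h3 : (univ.filter (fun e => c₀ e = 1)).card ≤ M := h₀'.2.2
    have h4 : (univ.filter (fun e => c e = 1)).card ≤ M := h'.2.2
    omega
  have hsq : 49 * (G.del B).card ^ 2 ≤ 196 * M ^ 2 := by
    have := Nat.pow_le_pow_left hcard 2
    calc 49 * (G.del B).card ^ 2 ≤ 49 * (2 * M) ^ 2 := Nat.mul_le_mul_left _ this
      _ = 196 * M ^ 2 := by ring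
  rcases hA.iso G hG B hinn with h1 | h1
  · exact ⟨B, hdel, by rw [← hfB]; exact hn, le_trans h1 hsq⟩
  · refine ⟨Bᶜ, by rw [rt_del_compl]; exact hdel, by rw [rt_del_compl, ← hfB]; exact hn, ?_⟩
    have : A ∩ Bᶜ = A \ B := by
      ext v
      simp
    rw [this]
    exact le_trans h1 hsq

/-- edges of different circuits in the same even set are different -/
theorem rt_edge_disj (hG : G.Good) {z c c' : E → ZMod 2} (hz : z ∈ G.Z) (hc : G.Circ c)
    (hc' : G.Circ c') (h : Le c z) (h' : Le c' z) (hne : c ≠ c') (e : E) :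
    ¬ (c e = 1 ∧ c' e = 1) := by
  rintro ⟨h1, h2⟩
  exact G.circ_disj hG hz hc hc' h h' hne (G.s e) ⟨⟨e, h1, Or.inl rfl⟩, ⟨e, h2, Or.inl rfl⟩⟩

/-- the number of circuits in `z` which are dependent on `c₀` -/
theorem rt_dep_count (hG : G.Good) {A : Finset V} (hA : G.MinSparse A) (M : ℕ)
    {z c₀ : E → ZMod 2} (hz : z ∈ G.Z) (h₀ : c₀ ∈ G.short A M) (h₀z : Le c₀ z)
    (S : Finset (E → ZMod 2))
    (hS : ∀ c ∈ S, c ∈ G.short A M ∧ Le c z ∧ c ≠ c₀ ∧ ¬ G.RtInd c₀ c) :
    S.card ≤ (2 * (196 * M ^ 2) + 1) * (2 * M) := by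
  have h₀' := (Finset.mem_filter.1 h₀).2
  have hcirc : ∀ c ∈ S, G.Circ c := fun c hc => ((Finset.mem_filter.1 (hS c hc).1).2).1
  have hdisj0 : ∀ c ∈ S, ∀ e, ¬ (c₀ e = 1 ∧ c e = 1) := fun c hc e =>
    G.rt_edge_disj hG hz h₀'.1 (hcirc c hc) h₀z (hS c hc).2.1 (hS c hc).2.2.1.symm e
  have hdisj : ∀ c ∈ S, ∀ c' ∈ S, c ≠ c' → ∀ e, ¬ (c e = 1 ∧ c' e = 1) := fun c hc c' hc' hne e =>
    G.rt_edge_disj hG hz (hcirc c hc) (hcirc c' hc') (hS c hc).2.1 (hS c' hc').2.1 hne e
  -- choice of the sets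
  have hex : ∀ c : E → ZMod 2, ∃ B : Finset V, c ∈ S → (∀ e ∈ G.del B, c₀ e = 1 ∨ c e = 1) ∧
      ¬ G.Cut (fun e => if c₀ e = 1 then ind (G.del B) e else 0) ∧
      (A ∩ B).card ≤ 196 * M ^ 2 := by
    intro c
    by_cases hc : c ∈ S
    · have h1 := (hS c hc).2.2.2
      unfold RtInd at h1
      rw [not_and_or] at h1
      rcases h1 with h1 | h1
      · exact absurd (hdisj0 c hc) h1
      · push Not at h1
        obtain ⟨f, hf, hfc, hn⟩ := h1
        obtain ⟨B, hB⟩ := G.rt_side hG hA M h₀ (hS c hc).1 f hf hfc hn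
        exact ⟨B, fun _ => hB⟩
    · exact ⟨∅, fun h => absurd h hc⟩
  choose B hB using hex
  -- a vertex on every circuit
  have hvex : ∀ c : E → ZMod 2, ∃ e : E, c ∈ S → c e = 1 := by
    intro c
    by_cases hc : c ∈ S
    · have hne := (hcirc c hc).2.1
      obtain ⟨e, he⟩ := Function.ne_iff.1 hne
      refine ⟨e, fun _ => ?_⟩
      rcases rt_cases (c e) with h | h
      · exact absurd h he
      · exact h
    · have hne := h₀'.1.2.1
      obtain ⟨e, he⟩ := Function.ne_iff.1 hne
      exact ⟨e, fun h => absurd h hc⟩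
  choose ed hed using hvex
  obtain ⟨I, hIS, hI, hIc⟩ := rt_exists_indep (196 * M ^ 2) (fun c c' => c ≠ c' ∧ In c' (G.inn (B c)))
    S.card S rfl (by
      intro c hc
      refine le_trans ?_ (hB c hc).2.2
      refine Finset.card_le_card_of_injOn (fun c' => G.s (ed c')) ?_ ?_
      · intro c' hc'
        have hc'' : c' ∈ S ∧ (c ≠ c' ∧ In c' (G.inn (B c))) := by
          simpa only [Finset.mem_coe, Finset.mem_filter] using hc'
        have h1 := hed c' hc''.1
        have h2 := hc''.2.2 _ h1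
        have h3 := (Finset.mem_filter.1 (hS c' hc''.1).1).2.2.1 _ h1
        rw [rt_mem_inn] at h2 h3
        exact Finset.mem_coe.2 (Finset.mem_inter.2 ⟨h3.1, h2.1⟩)
      · intro c1 hc1 c2 hc2 heq
        have hc1' : c1 ∈ S ∧ (c ≠ c1 ∧ In c1 (G.inn (B c))) := by
          simpa only [Finset.mem_coe, Finset.mem_filter] using hc1
        have hc2' : c2 ∈ S ∧ (c ≠ c2 ∧ In c2 (G.inn (B c))) := by
          simpa only [Finset.mem_coe, Finset.mem_filter] using hc2
        by_contra hne
        refine G.circ_disj hG hz (hcirc c1 hc1'.1) (hcirc c2 hc2'.1) (hS c1 hc1'.1).2.1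
          (hS c2 hc2'.1).2.1 hne (G.s (ed c1)) ⟨⟨ed c1, hed c1 hc1'.1, Or.inl rfl⟩,
            ⟨ed c2, hed c2 hc2'.1, Or.inl heq.symm⟩⟩)
  -- circuits of `I` avoid the sets of the other circuits
  have havoid : ∀ c ∈ I, ∀ c' ∈ I, c ≠ c' → ∀ e, c' e = 1 → G.s e ∉ B c ∧ G.t e ∉ B c := by
    intro c hc c' hc' hne e he
    have h1 : ∀ e ∈ G.del (B c), c' e = 0 := by
      intro e' he'
      rcases rt_cases (c' e') with h | h
      · exact h
      · exfalso
        rcases (hB c (hIS hc)).1 e' he' with h2 | h2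
        · exact hdisj0 c' (hIS hc') e' ⟨h2, h⟩
        · exact hdisj c (hIS hc) c' (hIS hc') hne e' ⟨h2, h⟩
    rcases G.circ_in_or (hcirc c' (hIS hc')) (B c) h1 with h2 | h2
    · exact absurd ⟨hne, h2⟩ (hI c hc c' hc' hne)
    · have h3 := h2 e he
      rw [rt_mem_inn] at h3
      exact ⟨Finset.mem_compl.1 h3.1, Finset.mem_compl.1 h3.2⟩
  -- an order on the circuits
  let idx : (E → ZMod 2) → ℕ := fun c => (Fintype.equivFin (E → ZMod 2) c).val
  have hidx : ∀ c c', idx c = idx c' → c = c' := by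
    intro c c' h
    exact (Fintype.equivFin (E → ZMod 2)).injective (Fin.ext h)
  let U : (E → ZMod 2) → Finset V := fun c => (I.filter (fun c' => idx c' < idx c)).biUnion B
  have hU : ∀ c v, v ∈ U c ↔ ∃ c' ∈ I, idx c' < idx c ∧ v ∈ B c' := by
    intro c v
    simp only [U, Finset.mem_biUnion, Finset.mem_filter]
    constructor
    · rintro ⟨c', ⟨h1, h2⟩, h3⟩
      exact ⟨c', h1, h2, h3⟩
    · rintro ⟨c', h1, h2, h3⟩
      exact ⟨c', ⟨h1, h2⟩, h3⟩
  -- step (2)
  have key : ∀ c ∈ I, ∀ e x y, (x ∈ B c ∧ x ∈ U c) → ¬ (y ∈ B c ∧ y ∈ U c) →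
      ((G.s e = x ∧ G.t e = y) ∨ (G.s e = y ∧ G.t e = x)) → c₀ e = 1 := by
    intro c hc e x y hx hy hxy
    obtain ⟨c₁, hc₁, hlt, hx₁⟩ := (hU c x).1 hx.2
    have hne : c₁ ≠ c := by
      rintro rfl
      exact lt_irrefl _ hlt
    have hend : ∀ c' : E → ZMod 2, c' e = 1 → (∀ X : Finset V, (G.s e ∉ X ∧ G.t e ∉ X) → x ∉ X) := by
      intro c' _ X hX
      rcases hxy with ⟨h1, h2⟩ | ⟨h1, h2⟩
      · rw [← h1]; exact hX.1
      · rw [← h2]; exact hX.2
    by_cases hyB : y ∈ B c
    · have hyU : y ∉ U c := fun h => hy ⟨hyB, h⟩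
      have hy₁ : y ∉ B c₁ := fun h => hyU ((hU c y).2 ⟨c₁, hc₁, hlt, h⟩)
      have he : e ∈ G.del (B c₁) := by
        rw [rt_mem_del]
        rcases hxy with ⟨h1, h2⟩ | ⟨h1, h2⟩
        · left; rw [h1, h2]; exact ⟨hx₁, hy₁⟩
        · right; rw [h1, h2]; exact ⟨hy₁, hx₁⟩
      rcases (hB c₁ (hIS hc₁)).1 e he with h | h
      · exact h
      · exact absurd hx.1 (hend c₁ h (B c) (havoid c hc c₁ hc₁ hne.symm e h))
    · have he : e ∈ G.del (B c) := by
        rw [rt_mem_del]
        rcases hxy with ⟨h1, h2⟩ | ⟨h1, h2⟩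
        · left; rw [h1, h2]; exact ⟨hx.1, hyB⟩
        · right; rw [h1, h2]; exact ⟨hyB, hx.1⟩
      rcases (hB c (hIS hc)).1 e he with h | h
      · exact h
      · exact absurd hx₁ (hend c h (B c₁) (havoid c₁ hc₁ c hc hne e h))
  -- step (3)
  have step3 : ∀ c : E → ZMod 2, ∃ q : E × Bool, c ∈ I → c₀ q.1 = 1 ∧
      (if q.2 then G.s q.1 else G.t q.1) ∈ B c \ U c := by
    intro c
    by_cases hc : c ∈ I
    · by_contra hcon
      push Not at hcon
      have hnone : ∀ e, c₀ e = 1 → G.s e ∉ B c \ U c ∧ G.t e ∉ B c \ U c := by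
        intro e he
        have h1 := (hcon (e, true)).2 he
        have h2 := (hcon (e, false)).2 he
        simp only [if_true] at h1
        simp only [Bool.false_eq_true, if_false] at h2
        exact ⟨h1, h2⟩
      apply (hB c (hIS hc)).2.1
      refine ⟨ind (B c ∩ U c), ?_⟩
      rw [G.d_ind]
      funext e
      unfold ind
      by_cases h0e : c₀ e = 1
      · rw [if_pos h0e]
        have h1 := hnone e h0e
        rw [Finset.mem_sdiff, Finset.mem_sdiff] at h1
        have h2 : e ∈ G.del (B c) ↔ e ∈ G.del (B c ∩ U c) := by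
          rw [rt_mem_del, rt_mem_del, Finset.mem_inter, Finset.mem_inter]
          tauto
        by_cases h3 : e ∈ G.del (B c)
        · rw [if_pos h3, if_pos (h2.1 h3)]
        · rw [if_neg h3, if_neg (fun h => h3 (h2.2 h))]
      · rw [if_neg h0e]
        rw [if_neg]
        intro h1
        apply h0e
        rw [rt_mem_del, Finset.mem_inter, Finset.mem_inter] at h1
        rcases h1 with ⟨h1, h2⟩ | ⟨h1, h2⟩
        · exact key c hc e _ _ h1 h2 (Or.inl ⟨rfl, rfl⟩)
        · exact key c hc e _ _ h2 h1 (Or.inr ⟨rfl, rfl⟩)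
    · have hne := h₀'.1.2.1
      obtain ⟨e, he⟩ := Function.ne_iff.1 hne
      exact ⟨(e, true), fun h => absurd h hc⟩
  choose q hq using step3
  -- step (4)
  have hIcard : I.card ≤ 2 * M := by
    have h1 : I.card ≤ ((univ.filter (fun e => c₀ e = 1)) ×ˢ (univ : Finset Bool)).card := by
      refine Finset.card_le_card_of_injOn q ?_ ?_
      · intro c hc
        have := hq c (Finset.mem_coe.1 hc)
        exact Finset.mem_coe.2 (Finset.mem_product.2
          ⟨Finset.mem_filter.2 ⟨Finset.mem_univ _, this.1⟩, Finset.mem_univ _⟩)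
      · intro c1 hc1 c2 hc2 heq
        have hc1 := Finset.mem_coe.1 hc1
        have hc2 := Finset.mem_coe.1 hc2
        have h1 := (hq c1 hc1).2
        have h2 := (hq c2 hc2).2
        rw [← heq] at h2
        rw [Finset.mem_sdiff] at h1 h2
        by_contra hne
        rcases lt_trichotomy (idx c1) (idx c2) with h | h | h
        · exact h2.2 ((hU c2 _).2 ⟨c1, hc1, h, h1.1⟩)
        · exact hne (hidx _ _ h)
        · exact h1.2 ((hU c1 _).2 ⟨c2, hc2, h, h2.1⟩)
    rw [Finset.card_product] at h1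
    have h2 : (univ.filter (fun e => c₀ e = 1)).card ≤ M := h₀'.2.2
    have h3 : (univ : Finset Bool).card = 2 := by simp
    rw [h3] at h1
    omega
  calc S.card ≤ (2 * (196 * M ^ 2) + 1) * I.card := hIc
    _ ≤ (2 * (196 * M ^ 2) + 1) * (2 * M) := Nat.mul_le_mul_left _ hIcard

/-- double counting: the number of events which can hold simultaneously -/
theorem rt_sum_le {ι : Type} (S : Finset ι) (p : G.Z → Prop) (q : ι → G.Z → Prop) (N : ℕ)
    (h : ∀ z, p z → (S.filter (fun i => q i z)).card ≤ N) :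
    ∑ i ∈ S, G.Pr (fun z => p z ∧ q i z) ≤ N * G.Pr p := by
  unfold Pr
  rw [← Finset.sum_div, mul_div_assoc']
  apply div_le_div_of_nonneg_right _ (Nat.cast_nonneg _)
  have h1 : ∑ i ∈ S, (univ.filter (fun z => p z ∧ q i z)).card ≤ N * (univ.filter p).card := by
    calc ∑ i ∈ S, (univ.filter (fun z => p z ∧ q i z)).card
        = ∑ i ∈ S, ∑ z ∈ univ.filter p, if q i z then 1 else 0 := by
          refine Finset.sum_congr rfl (fun i _ => ?_)
          rw [← Finset.filter_filter, Finset.card_filter]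
      _ = ∑ z ∈ univ.filter p, ∑ i ∈ S, if q i z then 1 else 0 := Finset.sum_comm
      _ = ∑ z ∈ univ.filter p, (S.filter (fun i => q i z)).card := by
          refine Finset.sum_congr rfl (fun z _ => ?_)
          rw [Finset.card_filter]
      _ ≤ ∑ z ∈ univ.filter p, N := by
          refine Finset.sum_le_sum (fun z hz => ?_)
          exact h z (Finset.mem_filter.1 hz).2
      _ = N * (univ.filter p).card := by
          rw [Finset.sum_const, smul_eq_mul, mul_comm]
  have h1' : (∑ i ∈ S, ((univ.filter (fun z => p z ∧ q i z)).card : ℝ)) ≤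
      N * ((univ.filter p).card : ℝ) := by exact_mod_cast h1
  refine le_trans (le_of_eq ?_) h1'
  refine Finset.sum_congr rfl (fun i _ => ?_)
  congr

theorem regime_two (hG : G.Good) {A : Finset V} (hA : G.MinSparse A) (M : ℕ) (hM : 1 ≤ M)
    (hn : 392 * M ^ 2 < A.card) (μ : ℝ) (hμ : μ = ∑ c ∈ G.short A M, G.Pr (fun z => Le c z.1))
    (h2 : 2 ≤ μ) : G.Pr (fun z => ¬ G.Two A z.1) ≤ 3148 * (M : ℝ) ^ 3 / μ := by
  have hshort : ∀ c ∈ G.short A M, G.Circ c ∧ In c (G.inn A) := by
    intro c hc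
    have := (Finset.mem_filter.1 hc).2
    exact ⟨this.1, this.2.1⟩
  -- the number of circuits in `z` which are not independent of `c`
  have hcount : ∀ c ∈ G.short A M, ∀ z : G.Z, Le c z.1 →
      (((G.short A M).filter (fun c' => ¬ G.RtInd c c')).filter (fun c' => Le c' z.1)).card ≤
        1 + (2 * (196 * M ^ 2) + 1) * (2 * M) := by
    intro c hc z hz
    set T := ((G.short A M).filter (fun c' => ¬ G.RtInd c c')).filter (fun c' => Le c' z.1) with hT
    have h1 : T ⊆ insert c (T.erase c) := by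
      intro c' hc'
      by_cases h : c' = c
      · rw [h]; exact Finset.mem_insert_self _ _
      · exact Finset.mem_insert_of_mem (Finset.mem_erase.2 ⟨h, hc'⟩)
    have h2 := Finset.card_le_card h1
    have h3 := Finset.card_insert_le c (T.erase c)
    have h4 := G.rt_dep_count hG hA M z.2 hc hz (T.erase c) (by
      intro c' hc'
      rw [Finset.mem_erase, hT, Finset.mem_filter, Finset.mem_filter] at hc'
      exact ⟨hc'.2.1.1, hc'.2.2, hc'.1, hc'.2.1.2⟩)
    omega
  have hsum : ∑ c ∈ G.short A M, ∑ c' ∈ G.short A M, G.Pr (fun z => Le c z.1 ∧ Le c' z.1) ≤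
      μ ^ 2 + 787 * (M : ℝ) ^ 3 * μ := by
    have hrow : ∀ c ∈ G.short A M, ∑ c' ∈ G.short A M, G.Pr (fun z => Le c z.1 ∧ Le c' z.1) ≤
        G.Pr (fun z => Le c z.1) * μ + 787 * (M : ℝ) ^ 3 * G.Pr (fun z => Le c z.1) := by
      intro c hc
      rw [← Finset.sum_filter_add_sum_filter_not (G.short A M) (fun c' => G.RtInd c c')]
      apply add_le_add
      · calc ∑ c' ∈ (G.short A M).filter (fun c' => G.RtInd c c'), G.Pr (fun z => Le c z.1 ∧ Le c' z.1)
            = ∑ c' ∈ (G.short A M).filter (fun c' => G.RtInd c c'),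
                G.Pr (fun z => Le c z.1) * G.Pr (fun z => Le c' z.1) := by
              refine Finset.sum_congr rfl (fun c' hc' => ?_)
              rw [Finset.mem_filter] at hc'
              exact G.Pr_indep (hshort c hc).1.1 (hshort c' hc'.1).1.1 hc'.2.1 hc'.2.2
          _ = G.Pr (fun z => Le c z.1) * ∑ c' ∈ (G.short A M).filter (fun c' => G.RtInd c c'),
                G.Pr (fun z => Le c' z.1) := by rw [Finset.mul_sum]
          _ ≤ G.Pr (fun z => Le c z.1) * μ := by
              apply mul_le_mul_of_nonneg_left _ (G.Pr_nonneg _)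
              rw [hμ]
              exact Finset.sum_le_sum_of_subset_of_nonneg (Finset.filter_subset _ _)
                (fun c' _ _ => G.Pr_nonneg _)
      · refine le_trans (G.rt_sum_le _ _ _ _ (hcount c hc)) ?_
        apply mul_le_mul_of_nonneg_right _ (G.Pr_nonneg _)
        push_cast
        have hM' : (1 : ℝ) ≤ M := by exact_mod_cast hM
        nlinarith [mul_nonneg (sub_nonneg.2 hM') (sub_nonneg.2 hM'),
          mul_nonneg (mul_nonneg (sub_nonneg.2 hM') (sub_nonneg.2 hM')) (sub_nonneg.2 hM')]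
    calc ∑ c ∈ G.short A M, ∑ c' ∈ G.short A M, G.Pr (fun z => Le c z.1 ∧ Le c' z.1)
        ≤ ∑ c ∈ G.short A M, (G.Pr (fun z => Le c z.1) * μ +
            787 * (M : ℝ) ^ 3 * G.Pr (fun z => Le c z.1)) := Finset.sum_le_sum hrow
      _ = μ ^ 2 + 787 * (M : ℝ) ^ 3 * μ := by
          rw [Finset.sum_add_distrib, ← Finset.sum_mul, ← Finset.mul_sum, ← hμ]
          ring
  have hsm := G.second_moment A (G.short A M) hshort μ (787 * (M : ℝ) ^ 3 * μ) hμ (by linarith) hsum
  refine le_trans hsm ?_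
  have hM3 : (0 : ℝ) ≤ (M : ℝ) ^ 3 := by positivity
  rw [div_le_div_iff₀ (by nlinarith) (by linarith)]
  nlinarith [mul_nonneg hM3 (mul_nonneg (by linarith : (0:ℝ) ≤ 3 * μ - 2) (by linarith : (0:ℝ) ≤ μ - 2))]

end MG

end Cyc
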