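import Pool.Agent.Cyc.Menger
import Pool.Agent.Cyc.Common

/-!
# Sections 3.4, 3.5: hulls of the sets, cross pairs
-/

open Finset
open scoped Classical

namespace Cyc

namespace MG

variable {V E : Type} [Fintype V] [Fintype E] (G : MG V E)

/-- an end of an edge of `tch X` is in `X`. -/
theorem on_of_mem_tch {X : Finset V} {e : E} (h : e ∈ G.tch X) :
    ∃ v ∈ X, G.s e = v ∨ G.t e = v := by
  rcases G.mem_tch.1 h with h | h
  · exact ⟨_, h, Or.inl rfl⟩
  · exact ⟨_, h, Or.inr rfl⟩

theorem fam_nonempty {n₀ t : ℕ} {A : Fin t → Finset V} (hA : G.Fam n₀ A) (i : Fin t) :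
    (A i).Nonempty := by
  obtain ⟨c, hc, hin⟩ := hA.circ i
  have : ∃ e, c e = 1 := by
    by_contra h
    push Not at h
    apply hc.2.1
    funext e
    exact z2_ne_one (h e)
  obtain ⟨e, he⟩ := this
  have h1 := G.mem_inn.1 (hin e he)
  exact ⟨_, h1.1⟩

/-- one hull -/
theorem hull_one (hG : G.Good) {n₀ t : ℕ} {A : Fin t → Finset V} (hA : G.Fam n₀ A)
    (L : E → ZMod 2) (hL : G.ev L ≠ 0) (J : Finset (Fin t)) (hJ : 3 ≤ J.card)
    (h : ∀ j ∈ J, ∃ F : E → ZMod 2, In F (G.tch (A j)) ∧ G.ev F = G.ev L) (i : Fin t) (hi : i ∈ J) :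
    ∃ O : Finset V, O.Nonempty ∧ Disjoint O (A i) ∧ G.ConnOn O ∧ G.ConnOn Oᶜ ∧
      (∀ e, e ∈ G.del O → (G.s e ∈ A i ∨ G.t e ∈ A i)) ∧
      (∀ k ∈ J, k ≠ i → A k ⊆ O) ∧
      ∃ Lj : Finset E, Lj ⊆ G.del O ∧ G.ev (ind Lj) = G.ev L := by
  obtain ⟨k₀, hk₀, hk₀i⟩ : ∃ k ∈ J, k ≠ i := by
    by_contra hcon
    push Not at hcon
    have : J ⊆ {i} := fun k hk => Finset.mem_singleton.2 (hcon k hk)
    have := Finset.card_le_card this
    simp at this
    omega
  obtain ⟨a, ha⟩ := G.fam_nonempty hA k₀
  have hai : a ∉ A i := Finset.disjoint_left.1 (hA.disj k₀ i hk₀i) ha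
  obtain ⟨O, haO, hOA, hOc, hcl⟩ := G.exists_comp (A i) a hai
  have hOA' : ∀ v, v ∈ O → v ∉ A i := fun v hv => Finset.disjoint_left.1 hOA hv
  -- edges leaving O have the other end in A i
  have hleave : ∀ e, e ∈ G.del O → (G.s e ∈ A i ∨ G.t e ∈ A i) := by
    intro e he
    rw [mem_del] at he
    by_contra hcon
    push Not at hcon
    have := hcl e hcon.1 hcon.2
    tauto
  have hk : ∀ k ∈ J, k ≠ i → (A k ⊆ O ∨ Disjoint (A k) O) := by
    intro k hkJ hki
    by_cases hne : ∃ v ∈ A k, v ∈ O
    · left
      obtain ⟨v, hv, hvO⟩ := hne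
      intro u hu
      have h1 := hA.conn k (ind O) (by
        intro e h2 h3
        have h4 : G.s e ∉ A i := Finset.disjoint_left.1 (hA.disj k i hki) h2
        have h5 : G.t e ∉ A i := Finset.disjoint_left.1 (hA.disj k i hki) h3
        have := hcl e h4 h5
        simp only [ind]
        by_cases h6 : G.s e ∈ O
        · simp [h6, this.1 h6]
        · have h7 : G.t e ∉ O := fun h => h6 (this.2 h)
          simp [h6, h7]) u hu v hv
      simp only [ind, hvO, if_true] at h1
      by_contra h2
      simp [h2] at h1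
    · right
      push Not at hne
      rw [Finset.disjoint_left]
      exact hne
  have hk₀O : A k₀ ⊆ O := by
    rcases hk k₀ hk₀ hk₀i with h1 | h1
    · exact h1
    · exact absurd haO (Finset.disjoint_left.1 h1 ha)
  have hall : ∀ k ∈ J, k ≠ i → A k ⊆ O := by
    intro k hkJ hki
    rcases hk k hkJ hki with h1 | h1
    · exact h1
    exfalso
    have hkk : k ≠ k₀ := by
      rintro rfl
      exact Finset.disjoint_left.1 h1 ha haO
    obtain ⟨F, hF, hFL⟩ := h k₀ hk₀
    obtain ⟨F', hF', hFL'⟩ := h k hkJ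
    obtain ⟨φ, hφ⟩ := (G.ev_eq_iff F F').1 (hFL.trans hFL'.symm)
    rw [In_iff_zero] at hF hF'
    -- φ is constant on A i and its neighbours
    have hz : ∀ e, e ∈ G.tch (A i) → G.d φ e = 0 := by
      intro e he
      rw [← hφ, Pi.add_apply, hF e (Finset.disjoint_left.1 (hA.far i k₀ hk₀i.symm) he),
        hF' e (Finset.disjoint_left.1 (hA.far i k hki.symm) he), add_zero]
    obtain ⟨b, hb⟩ := G.fam_nonempty hA i
    have hcA : ∀ v ∈ A i, φ v = φ b := by
      intro v hv
      refine hA.conn i φ ?_ v hv b hb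
      intro e h2 _
      exact z2_add_eq_zero.1 (hz e (G.mem_tch.2 (Or.inl h2)))
    have hcN : ∀ e, e ∈ G.tch (A i) → φ (G.s e) = φ b ∧ φ (G.t e) = φ b := by
      intro e he
      have h2 := z2_add_eq_zero.1 (hz e he)
      rcases G.mem_tch.1 he with h3 | h3
      · exact ⟨hcA _ h3, by rw [← h2]; exact hcA _ h3⟩
      · exact ⟨by rw [h2]; exact hcA _ h3, hcA _ h3⟩
    apply hL
    rw [← hFL, ev_eq_zero_iff]
    refine ⟨fun v => if v ∈ O then φ v + φ b else 0, ?_⟩
    funext e
    simp only [d]
    by_cases hs : G.s e ∈ O <;> by_cases ht : G.t e ∈ O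
    · simp only [hs, ht, if_true]
      have h2 : F' e = 0 := by
        apply hF'
        intro h3
        rcases G.mem_tch.1 h3 with h4 | h4
        · exact Finset.disjoint_left.1 h1 h4 hs
        · exact Finset.disjoint_left.1 h1 h4 ht
      have h3 := congrFun hφ e
      rw [Pi.add_apply, h2, add_zero] at h3
      rw [h3]
      simp only [d]
      have := z2_add_self (φ b)
      linear_combination -this
    · simp only [hs, ht, if_true, if_false, add_zero]
      have h2 : e ∈ G.del O := G.mem_del.2 (Or.inl ⟨hs, ht⟩)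
      have h3 : e ∈ G.tch (A i) := G.mem_tch.2 (hleave e h2)
      rw [(hcN e h3).1, z2_add_self]
      exact hF e (Finset.disjoint_left.1 (hA.far i k₀ hk₀i.symm) h3)
    · simp only [hs, ht, if_true, if_false, zero_add]
      have h2 : e ∈ G.del O := G.mem_del.2 (Or.inr ⟨hs, ht⟩)
      have h3 : e ∈ G.tch (A i) := G.mem_tch.2 (hleave e h2)
      rw [(hcN e h3).2, z2_add_self]
      exact hF e (Finset.disjoint_left.1 (hA.far i k₀ hk₀i.symm) h3)
    · simp only [hs, ht, if_false, add_zero]
      apply hF
      intro h3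
      rcases G.mem_tch.1 h3 with h4 | h4
      · exact hs (hk₀O h4)
      · exact ht (hk₀O h4)
  refine ⟨O, ⟨a, haO⟩, hOA, hOc, ?_, hleave, hall, ?_⟩
  · -- connectivity of the complement
    intro φ hφ
    obtain ⟨b, hb⟩ := G.fam_nonempty hA i
    have hbO : b ∉ O := fun h1 => hOA' b h1 hb
    have hcA : ∀ v ∈ A i, φ v = φ b := by
      intro v hv
      refine hA.conn i φ ?_ v hv b hb
      intro e h2 h3
      exact hφ e (Finset.mem_compl.2 fun h4 => hOA' _ h4 h2) (Finset.mem_compl.2 fun h4 => hOA' _ h4 h3)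
    have key := hG.conn (fun v => if v ∈ O then 0 else φ v + φ b) (by
      intro e
      by_cases hs : G.s e ∈ O <;> by_cases ht : G.t e ∈ O
      · simp [hs, ht]
      · simp only [hs, ht, if_true, if_false]
        rcases hleave e (G.mem_del.2 (Or.inl ⟨hs, ht⟩)) with h1 | h1
        · exact absurd h1 (hOA' _ hs)
        · rw [hcA _ h1, z2_add_self]
      · simp only [hs, ht, if_true, if_false]
        rcases hleave e (G.mem_del.2 (Or.inr ⟨hs, ht⟩)) with h1 | h1
        · rw [hcA _ h1, z2_add_self]
        · exact absurd h1 (hOA' _ ht)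
      · simp only [hs, ht, if_false]
        rw [hφ e (Finset.mem_compl.2 hs) (Finset.mem_compl.2 ht)])
    have key2 : ∀ v, v ∉ O → φ v = φ b := by
      intro v hv
      have h1 := key v a
      simp only [hv, haO, if_true, if_false] at h1
      exact z2_add_eq_zero.1 h1
    intro u hu v hv
    rw [key2 u (Finset.mem_compl.1 hu), key2 v (Finset.mem_compl.1 hv)]
  · obtain ⟨F, hF, hFL⟩ := h k₀ hk₀
    obtain ⟨F', hF', hFL'⟩ := h i hi
    obtain ⟨φ, hφ⟩ := (G.ev_eq_iff F' F).1 (hFL'.trans hFL.symm)
    rw [In_iff_zero] at hF hF'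
    refine ⟨(G.del O).filter (fun e => (G.s e ∈ O ∧ φ (G.s e) = 1) ∨ (G.t e ∈ O ∧ φ (G.t e) = 1)),
      Finset.filter_subset _ _, ?_⟩
    rw [← hFL, ev_eq_iff]
    refine ⟨fun v => if v ∈ O then φ v else 0, ?_⟩
    funext e
    simp only [Pi.add_apply, ind, d, Finset.mem_filter, mem_del]
    by_cases hs : G.s e ∈ O <;> by_cases ht : G.t e ∈ O
    · simp only [hs, ht, if_true, not_true_eq_false, and_false, false_and, or_self, if_false,
        zero_add]
      have h2 : F' e = 0 := by
        apply hF'
        intro h3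
        rcases G.mem_tch.1 h3 with h4 | h4
        · exact hOA' _ hs h4
        · exact hOA' _ ht h4
      have h3 := congrFun hφ e
      rw [Pi.add_apply, h2, zero_add] at h3
      rw [h3]
      rfl
    · have h2 : e ∈ G.del O := G.mem_del.2 (Or.inl ⟨hs, ht⟩)
      have h3 : e ∈ G.tch (A i) := G.mem_tch.2 (hleave e h2)
      rw [hF e (Finset.disjoint_left.1 (hA.far i k₀ hk₀i.symm) h3)]
      rcases z2_cases (φ (G.s e)) with h4 | h4 <;> simp [hs, ht, h4]
    · have h2 : e ∈ G.del O := G.mem_del.2 (Or.inr ⟨hs, ht⟩)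
      have h3 : e ∈ G.tch (A i) := G.mem_tch.2 (hleave e h2)
      rw [hF e (Finset.disjoint_left.1 (hA.far i k₀ hk₀i.symm) h3)]
      rcases z2_cases (φ (G.t e)) with h4 | h4 <;> simp [hs, ht, h4]
    · have h2 : F e = 0 := by
        apply hF
        intro h3
        rcases G.mem_tch.1 h3 with h4 | h4
        · exact hs (hk₀O h4)
        · exact ht (hk₀O h4)
      simp [hs, ht, h2]

/-- 3.4: the hulls `B j` of the sets `A j` -/
theorem hulls (hG : G.Good) {n₀ t : ℕ} {A : Fin t → Finset V} (hA : G.Fam n₀ A)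
    (L : E → ZMod 2) (hL : G.ev L ≠ 0) (J : Finset (Fin t)) (hJ : 3 ≤ J.card)
    (h : ∀ j ∈ J, ∃ F : E → ZMod 2, In F (G.tch (A j)) ∧ G.ev F = G.ev L) :
    ∃ B : Fin t → Finset V, (∀ j ∈ J, A j ⊆ B j ∧ G.ConnOn (B j) ∧ G.ConnOn (B j)ᶜ ∧
        G.del (B j) ⊆ G.tch (A j)) ∧
      (∀ i ∈ J, ∀ j ∈ J, i ≠ j → Disjoint (B i) (B j) ∧ Disjoint (G.tch (B i)) (G.tch (B j))) ∧
      ∀ j ∈ J, ∃ Lj : Finset E, Lj ⊆ G.del (B j) ∧ G.ev (ind Lj) = G.ev L := by
  have h1 := fun i (hi : i ∈ J) => G.hull_one hG hA L hL J hJ h i hi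
  choose! O hO using h1
  refine ⟨fun i => (O i)ᶜ, ?_, ?_, ?_⟩
  · intro j hj
    obtain ⟨_, h2, h3, h4, h5, _, _⟩ := hO j hj
    refine ⟨?_, h4, ?_, ?_⟩
    · intro v hv
      rw [Finset.mem_compl]
      exact fun h6 => Finset.disjoint_left.1 h2 h6 hv
    · simpa using h3
    · intro e he
      rw [del_compl] at he
      exact G.mem_tch.2 (h5 e he)
  · intro i hi j hj hij
    obtain ⟨⟨oi, hoi⟩, h2, _, _, h5, h6, _⟩ := hO i hi
    obtain ⟨_, h2', _, _, h5', h6', _⟩ := hO j hj
    have hAij : A i ⊆ O j := h6' i hi hij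
    have hAji : A j ⊆ O i := h6 j hj hij.symm
    -- an edge from outside `O i` to `O i` starts in `A i`
    have hi1 : ∀ e, G.s e ∉ O i → G.t e ∈ O i → G.s e ∈ A i := by
      intro e he1 he2
      rcases h5 e (G.mem_del.2 (Or.inr ⟨he1, he2⟩)) with h7 | h7
      · exact h7
      · exact absurd h7 (Finset.disjoint_left.1 h2 he2)
    have hi2 : ∀ e, G.t e ∉ O i → G.s e ∈ O i → G.t e ∈ A i := by
      intro e he1 he2
      rcases h5 e (G.mem_del.2 (Or.inl ⟨he2, he1⟩)) with h7 | h7
      · exact absurd h7 (Finset.disjoint_left.1 h2 he2)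
      · exact h7
    have hj1 : ∀ e, G.s e ∉ O j → G.t e ∈ O j → G.s e ∈ A j := by
      intro e he1 he2
      rcases h5' e (G.mem_del.2 (Or.inr ⟨he1, he2⟩)) with h7 | h7
      · exact h7
      · exact absurd h7 (Finset.disjoint_left.1 h2' he2)
    have hj2 : ∀ e, G.t e ∉ O j → G.s e ∈ O j → G.t e ∈ A j := by
      intro e he1 he2
      rcases h5' e (G.mem_del.2 (Or.inl ⟨he2, he1⟩)) with h7 | h7
      · exact absurd h7 (Finset.disjoint_left.1 h2' he2)
      · exact h7
    have hdis : ∀ v, v ∉ O i → v ∉ O j → False := by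
      intro v hv hv'
      have key := hG.conn (fun v => if v ∉ O i ∧ v ∉ O j then 1 else 0) (by
        intro e
        have hs1 : G.s e ∉ O i → G.s e ∉ O j → (G.t e ∉ O i ∧ G.t e ∉ O j) := by
          intro a1 a2
          refine ⟨fun a3 => a2 (hAij (hi1 e a1 a3)), fun a3 => a1 (hAji (hj1 e a2 a3))⟩
        have ht1 : G.t e ∉ O i → G.t e ∉ O j → (G.s e ∉ O i ∧ G.s e ∉ O j) := by
          intro a1 a2
          refine ⟨fun a3 => a2 (hAij (hi2 e a1 a3)), fun a3 => a1 (hAji (hj2 e a2 a3))⟩
        by_cases a1 : G.s e ∉ O i ∧ G.s e ∉ O j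
        · rw [if_pos a1, if_pos (hs1 a1.1 a1.2)]
        · have a2 : ¬ (G.t e ∉ O i ∧ G.t e ∉ O j) := fun a3 => a1 (ht1 a3.1 a3.2)
          rw [if_neg a1, if_neg a2]) v oi
      simp only [hv, hv', not_false_eq_true, and_self, if_true, hoi, not_true_eq_false, false_and,
        if_false] at key
      exact z2_one_ne_zero key
    constructor
    · rw [Finset.disjoint_left]
      intro v hv hv'
      exact hdis v (Finset.mem_compl.1 hv) (Finset.mem_compl.1 hv')
    · rw [Finset.disjoint_left]
      intro e he he'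
      simp only [mem_tch, Finset.mem_compl] at he he'
      have hfar := hA.far i j hij
      rw [Finset.disjoint_left] at hfar
      rcases he with he | he <;> rcases he' with he' | he'
      · exact hdis _ he he'
      · have a1 : G.s e ∈ O j := by by_contra h7; exact hdis _ he h7
        have a2 : G.t e ∈ O i := by by_contra h7; exact hdis _ h7 he'
        exact hfar (G.mem_tch.2 (Or.inl (hi1 e he a2))) (G.mem_tch.2 (Or.inr (hj2 e he' a1)))
      · have a1 : G.t e ∈ O j := by by_contra h7; exact hdis _ he h7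
        have a2 : G.s e ∈ O i := by by_contra h7; exact hdis _ h7 he'
        exact hfar (G.mem_tch.2 (Or.inr (hi2 e he a2))) (G.mem_tch.2 (Or.inl (hj1 e he' a1)))
      · exact hdis _ he he'
  · intro j hj
    obtain ⟨_, _, _, _, _, _, Lj, h7, h8⟩ := hO j hj
    exact ⟨Lj, by rw [del_compl]; exact h7, h8⟩

/-- the vertices of a chain -/
noncomputable def vx (x : E → ZMod 2) : Finset V := univ.filter (fun v => G.On x v)

theorem mem_vx {x : E → ZMod 2} {v : V} : v ∈ G.vx x ↔ G.On x v := by simp [vx]

/-- counting: a chain which is even on `A` touches at most `2 p` edges of `inn A`. -/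
theorem card_inn_le (hG : G.Good) (A : Finset V) (x : E → ZMod 2) (hx : ∀ v ∈ A, G.bd x v = 0) :
    (G.inn A).card ≤ (G.inn (A \ G.vx x)).card + 2 * (A ∩ G.vx x).card := by
  set P := A ∩ G.vx x with hP
  have hdeg : ∀ v ∈ P, G.deg x v = 2 := by
    intro v hv
    rw [hP, Finset.mem_inter, mem_vx] at hv
    have h1 := G.deg_cast x v
    rw [hx v hv.1, ZMod.natCast_eq_zero_iff_even] at h1
    have h2 := G.deg_le_three hG x v
    have h3 := (G.deg_pos_iff x v).2 hv.2
    obtain ⟨k, hk⟩ := h1
    omega
  -- edges of x inside A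
  let H1 := (G.inn A).filter (fun e => x e = 1)
  let H2 := univ.filter (fun e : E => x e ≠ 1 ∧ G.s e ∈ P)
  let H3 := univ.filter (fun e : E => x e ≠ 1 ∧ G.t e ∈ P)
  have hcov : G.inn A ⊆ G.inn (A \ G.vx x) ∪ (H1 ∪ (H2 ∪ H3)) := by
    intro e he
    have he' := G.mem_inn.1 he
    simp only [Finset.mem_union, mem_inn, Finset.mem_sdiff, mem_vx, H1, H2, H3, Finset.mem_filter,
      Finset.mem_univ, true_and, hP, Finset.mem_inter]
    by_cases h1 : x e = 1
    · right; left; exact ⟨he', h1⟩
    · by_cases h2 : G.On x (G.s e)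
      · right; right; left; exact ⟨h1, he'.1, h2⟩
      · by_cases h3 : G.On x (G.t e)
        · right; right; right; exact ⟨h1, he'.2, h3⟩
        · left; exact ⟨⟨he'.1, h2⟩, he'.2, h3⟩
  -- count of darts
  have hsum : ∑ v ∈ P, G.deg x v = 2 * P.card := by
    rw [Finset.sum_congr rfl hdeg]; simp [mul_comm]
  have hsum3 : ∑ v ∈ P, ((univ.filter (fun e => G.s e = v)).card + (univ.filter (fun e => G.t e = v)).card)
      = 3 * P.card := by
    rw [Finset.sum_congr rfl fun v _ => hG.cubic v]; simp [mul_comm]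
  have hs : (univ.filter (fun e => G.s e ∈ P)).card =
      (univ.filter (fun e => x e = 1 ∧ G.s e ∈ P)).card + H2.card := by
    rw [← Finset.card_union_of_disjoint]
    · congr 1
      ext e
      simp only [H2, Finset.mem_filter, Finset.mem_univ, true_and, Finset.mem_union]
      tauto
    · rw [Finset.disjoint_left]
      intro e
      simp only [H2, Finset.mem_filter, Finset.mem_univ, true_and]
      tauto
  have ht : (univ.filter (fun e => G.t e ∈ P)).card =
      (univ.filter (fun e => x e = 1 ∧ G.t e ∈ P)).card + H3.card := by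
    rw [← Finset.card_union_of_disjoint]
    · congr 1
      ext e
      simp only [H3, Finset.mem_filter, Finset.mem_univ, true_and, Finset.mem_union]
      tauto
    · rw [Finset.disjoint_left]
      intro e
      simp only [H3, Finset.mem_filter, Finset.mem_univ, true_and]
      tauto
  have hst : (univ.filter (fun e => G.s e ∈ P)).card + (univ.filter (fun e => G.t e ∈ P)).card =
      3 * P.card := by rw [card_s_add_card_t, hsum3]
  have hdx : (univ.filter (fun e => x e = 1 ∧ G.s e ∈ P)).card +
      (univ.filter (fun e => x e = 1 ∧ G.t e ∈ P)).card = 2 * P.card := by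
    rw [← hsum]
    unfold deg
    rw [Finset.sum_add_distrib]
    congr 1
    · rw [Finset.card_eq_sum_card_fiberwise (f := G.s) (t := P)]
      · refine Finset.sum_congr rfl fun v hv => ?_
        congr 1
        ext e
        simp only [Finset.mem_filter, Finset.mem_univ, true_and]
        constructor
        · rintro ⟨h1, h2⟩; exact ⟨h1.1, h2⟩
        · rintro ⟨h1, rfl⟩; exact ⟨⟨h1, hv⟩, rfl⟩
      · intro e he
        simp only [Finset.coe_filter, Finset.mem_univ, true_and, Set.mem_setOf_eq] at he
        exact he.2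
    · rw [Finset.card_eq_sum_card_fiberwise (f := G.t) (t := P)]
      · refine Finset.sum_congr rfl fun v hv => ?_
        congr 1
        ext e
        simp only [Finset.mem_filter, Finset.mem_univ, true_and]
        constructor
        · rintro ⟨h1, h2⟩; exact ⟨h1.1, h2⟩
        · rintro ⟨h1, rfl⟩; exact ⟨⟨h1, hv⟩, rfl⟩
      · intro e he
        simp only [Finset.coe_filter, Finset.mem_univ, true_and, Set.mem_setOf_eq] at he
        exact he.2
  have hH1s : H1.card ≤ (univ.filter (fun e => x e = 1 ∧ G.s e ∈ P)).card := by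
    apply Finset.card_le_card
    intro e
    simp only [H1, hP, Finset.mem_filter, Finset.mem_univ, true_and, mem_inn, Finset.mem_inter, mem_vx]
    rintro ⟨⟨h1, _⟩, h3⟩
    exact ⟨h3, h1, ⟨e, h3, Or.inl rfl⟩⟩
  have hH1t : H1.card ≤ (univ.filter (fun e => x e = 1 ∧ G.t e ∈ P)).card := by
    apply Finset.card_le_card
    intro e
    simp only [H1, hP, Finset.mem_filter, Finset.mem_univ, true_and, mem_inn, Finset.mem_inter, mem_vx]
    rintro ⟨⟨_, h1⟩, h3⟩
    exact ⟨h3, h1, ⟨e, h3, Or.inr rfl⟩⟩
  have h1 := Finset.card_le_card hcov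
  have h2 := Finset.card_union_le (G.inn (A \ G.vx x)) (H1 ∪ (H2 ∪ H3))
  have h3 := Finset.card_union_le H1 (H2 ∪ H3)
  have h4 := Finset.card_union_le H2 H3
  omega

/-- 3.5: three disjoint chains are impossible in a rigid set. -/
theorem no_three (hG : G.Good) {A B : Finset V} (hA : G.MinSparse A) (hne : (G.del A).Nonempty)
    (hAB : A ⊆ B) (hBc : G.ConnOn Bᶜ) (Lj : Finset E) (hLj : Lj ⊆ G.del B)
    (hrig : G.Rigid (ind Lj) A) (x : Fin 3 → E → ZMod 2)
    (h1 : ∀ j, In (x j) (G.tch B)) (h2 : ∀ j, ∀ v ∈ B, G.bd (x j) v = 0)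
    (h3 : ∀ j, ∑ e ∈ Lj, x j e = 1)
    (h4 : ∀ v ∈ B, ∀ i j, G.On (x i) v → G.On (x j) v → i = j) : False := by
  have key : ∀ j, (G.inn (A \ G.vx (x j))).card ≤ (A \ G.vx (x j)).card := by
    intro j
    by_contra hcon
    push Not at hcon
    obtain ⟨c, hc, hin⟩ := G.exists_circ_of_card (A \ G.vx (x j)) _ subset_rfl hcon
    obtain ⟨z, hz, hzx⟩ := G.extend_conn B hBc (x j) (h2 j)
    have hcz : ∀ e, c e = 1 → z e = 0 := by
      intro e he
      have h5 := G.mem_inn.1 (hin e he)
      rw [Finset.mem_sdiff, Finset.mem_sdiff, mem_vx] at h5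
      rw [hzx e (G.mem_tch.2 (Or.inl (hAB h5.1.1)))]
      apply z2_ne_one
      intro h6
      exact h5.1.2 ⟨e, h6, Or.inl rfl⟩
    have hinA : In c (G.inn A) := by
      intro e he
      have h5 := G.mem_inn.1 (hin e he)
      rw [Finset.mem_sdiff, Finset.mem_sdiff] at h5
      exact G.mem_inn.2 ⟨h5.1.1, h5.2.1⟩
    have hev : G.ev (ind Lj) (⟨z, hz⟩ + ⟨c, hc.1⟩) = 1 := by
      rw [ev_map_add, ev_ind, ev_ind]
      have h5 : ∑ e ∈ Lj, c e = 0 := by
        refine Finset.sum_eq_zero fun e he => ?_
        apply z2_ne_one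
        intro h6
        have h7 := G.mem_inn.1 (hinA e h6)
        have h8 := G.mem_del.1 (hLj he)
        have h9 := hAB h7.1
        have h10 := hAB h7.2
        tauto
      have h6 : ∑ e ∈ Lj, z e = 1 := by
        rw [← h3 j]
        refine Finset.sum_congr rfl fun e he => ?_
        apply hzx
        have h8 := G.mem_del.1 (hLj he)
        rw [mem_tch]
        tauto
      rw [h5, h6, add_zero]
    refine hrig _ hev c hc ?_ hinA
    intro e he
    show z e + c e = 1
    rw [hcz e he, he, zero_add]
  have hle := fun j => G.card_inn_le hG A (x j) (fun v hv => h2 j v (hAB hv))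
  have hinn := G.two_inn hG A
  have hdisj : ∀ i j, i ≠ j → Disjoint (A ∩ G.vx (x i)) (A ∩ G.vx (x j)) := by
    intro i j hij
    rw [Finset.disjoint_left]
    intro v hv hv'
    rw [Finset.mem_inter, mem_vx] at hv hv'
    exact hij (h4 v (hAB hv.1) i j hv.2 hv'.2)
  have hsum : (A ∩ G.vx (x 0)).card + (A ∩ G.vx (x 1)).card + (A ∩ G.vx (x 2)).card ≤ A.card := by
    rw [← Finset.card_union_of_disjoint (hdisj 0 1 (by decide)), ← Finset.card_union_of_disjoint]
    · apply Finset.card_le_card
      intro v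
      simp only [Finset.mem_union, Finset.mem_inter]
      tauto
    · rw [Finset.disjoint_union_left]
      exact ⟨hdisj 0 2 (by decide), hdisj 1 2 (by decide)⟩
  have hsd : ∀ j, (A \ G.vx (x j)).card + (A ∩ G.vx (x j)).card = A.card := by
    intro j
    exact Finset.card_sdiff_add_card_inter A (G.vx (x j))
  have hw : 1 ≤ (G.del A).card := Finset.card_pos.2 hne
  have hsp := hA.1.2
  have k0 := key 0
  have k1 := key 1
  have k2 := key 2
  have l0 := hle 0
  have l1 := hle 1
  have l2 := hle 2
  have s0 := hsd 0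
  have s1 := hsd 1
  have s2 := hsd 2
  have : A.card ≤ 3 * (G.del A).card := by omega
  nlinarith

/-- 3.5 + 3.6: a cross pair near every rigid set -/
theorem cross_pair (hG : G.Good) {A B : Finset V} (hA : G.MinSparse A) (hne : (G.del A).Nonempty)
    (hAB : A ⊆ B) (hBc : G.ConnOn Bᶜ) (Lj : Finset E) (hLj : Lj ⊆ G.del B)
    (hrig : G.Rigid (ind Lj) A) (h0 : G.ev (ind Lj) ≠ 0) :
    ∃ a b : E, a ≠ b ∧ a ∈ G.tch B ∧ b ∈ G.tch B ∧ G.co a + G.co b = G.ev (ind Lj) := by
  rcases G.menger_three hG B Lj hLj with ⟨x, hx1, hx2, hx3, hx4⟩ | ⟨W, hWB, hW⟩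
  · exact (G.no_three hG hA hne hAB hBc Lj hLj hrig x hx1 hx2 hx3 hx4).elim
  · set F : E → ZMod 2 := ind Lj + G.d (ind W) with hF
    have hFev : G.ev F = G.ev (ind Lj) := by
      rw [hF, ev_add, ev_d, add_zero]
    have hFt : In F (G.tch B) := by
      intro e he
      by_contra h1
      rw [mem_tch] at h1
      push Not at h1
      have h2 : e ∉ Lj := by
        intro h3
        have := G.mem_del.1 (hLj h3)
        tauto
      have h3 : G.s e ∉ W := fun h => h1.1 (hWB h)
      have h4 : G.t e ∉ W := fun h => h1.2 (hWB h)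
      rw [hF] at he
      simp [ind, d, h2, h3, h4] at he
    have hcard := hW
    have hcases : (univ.filter (fun e => F e = 1)).card = 0 ∨
        (univ.filter (fun e => F e = 1)).card = 1 ∨ (univ.filter (fun e => F e = 1)).card = 2 := by
      omega
    rcases hcases with hc | hc | hc
    · exfalso
      apply h0
      rw [← hFev]
      have : F = 0 := by
        funext e
        apply z2_ne_one
        intro h1
        rw [Finset.card_eq_zero] at hc
        have : e ∈ univ.filter (fun e => F e = 1) := by simp [h1]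
        rw [hc] at this
        simp at this
      rw [this, ev_zero]
    · obtain ⟨e, he⟩ := Finset.card_eq_one.1 hc
      have hFe : F = Pi.single e 1 := by
        funext e'
        by_cases h1 : e' = e
        · subst h1
          have : e' ∈ univ.filter (fun e => F e = 1) := by rw [he]; simp
          simp only [Finset.mem_filter, Finset.mem_univ, true_and] at this
          simp [this]
        · rw [Pi.single_eq_of_ne h1]
          apply z2_ne_one
          intro h2
          have : e' ∈ univ.filter (fun e => F e = 1) := by simp [h2]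
          rw [he, Finset.mem_singleton] at this
          exact h1 this
      have hFe1 : F e = 1 := by rw [hFe]; simp
      obtain ⟨v, hv, hev⟩ := G.on_of_mem_tch (hFt e hFe1)
      -- the edges at v
      let S := univ.filter (fun e => G.s e = v ∨ G.t e = v)
      have hS : S.card = 3 := by
        rw [← hG.cubic v, ← Finset.card_union_of_disjoint]
        · congr 1
          ext e'
          simp [S]
        · rw [Finset.disjoint_left]
          intro e' h1 h2
          simp only [Finset.mem_filter, Finset.mem_univ, true_and] at h1 h2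
          exact hG.noloop e' (h1.trans h2.symm)
      have heS : e ∈ S := by simp [S, hev]
      have hS2 : (S.erase e).card = 2 := by rw [Finset.card_erase_of_mem heS, hS]
      obtain ⟨a, b, hab, hSab⟩ := Finset.card_eq_two.1 hS2
      have haS : a ∈ S.erase e := by rw [hSab]; simp
      have hbS : b ∈ S.erase e := by rw [hSab]; simp
      have ha' : G.s a = v ∨ G.t a = v := by
        have := (Finset.mem_erase.1 haS).2
        simpa [S] using this
      have hb' : G.s b = v ∨ G.t b = v := by
        have := (Finset.mem_erase.1 hbS).2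
        simpa [S] using this
      refine ⟨a, b, hab, ?_, ?_, ?_⟩
      · rw [mem_tch]; rcases ha' with h | h <;> rw [h] <;> tauto
      · rw [mem_tch]; rcases hb' with h | h <;> rw [h] <;> tauto
      · rw [← hFev, hFe]
        funext z
        rw [← co_eq]
        show z.1 a + z.1 b = z.1 e
        have hb0 := z.2 v
        have h5 : G.bd z.1 v = ∑ e' ∈ S, z.1 e' := by
          unfold bd
          rw [← Finset.sum_subset (Finset.subset_univ S)]
          · refine Finset.sum_congr rfl fun e' he' => ?_
            simp only [S, Finset.mem_filter, Finset.mem_univ, true_and] at he'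
            have hnl := hG.noloop e'
            rcases he' with h | h
            · have : G.t e' ≠ v := fun h' => hnl (h.trans h'.symm)
              simp [h, this]
            · have : G.s e' ≠ v := fun h' => hnl (h'.trans h.symm)
              simp [h, this]
          · intro e' _ he'
            simp only [S, Finset.mem_filter, Finset.mem_univ, true_and, not_or] at he'
            simp [he'.1, he'.2]
        rw [h5, ← Finset.add_sum_erase S _ heS, hSab, Finset.sum_pair hab] at hb0
        exact (z2_add_eq_zero.1 hb0).symm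
    · obtain ⟨a, b, hab, hFab⟩ := Finset.card_eq_two.1 hc
      have hFa : F a = 1 := by
        have : a ∈ univ.filter (fun e => F e = 1) := by rw [hFab]; simp
        simpa using this
      have hFb : F b = 1 := by
        have : b ∈ univ.filter (fun e => F e = 1) := by rw [hFab]; simp
        simpa using this
      refine ⟨a, b, hab, hFt a hFa, hFt b hFb, ?_⟩
      rw [← hFev, co_eq, co_eq, ← ev_add]
      congr 1
      funext e
      by_cases h1 : e = a
      · subst h1
        simp [hab, hFa]
      · by_cases h2 : e = b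
        · subst h2
          simp [hFb, h1]
        · have h3 : F e = 0 := by
            apply z2_ne_one
            intro h4
            have : e ∈ univ.filter (fun e => F e = 1) := by simp [h4]
            rw [hFab] at this
            simp [h1, h2] at this
          simp [h1, h2, h3]

end MG

end Cyc
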