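import Pool.Agent.Cyc.Prob

/-!
# Section 4.1 - 4.3: rings (interface)
-/

open Finset
open scoped Classical

namespace Cyc

namespace MG

variable {V E : Type} [Fintype V] [Fintype E] (G : MG V E)

/-- a ring of length `m` for the functional `ev L`. The pieces are the fibres of `h`, the crossing
edges with index `i` are those with `c e = some i`. -/
structure Ring (L : E → ZMod 2) (m : ℕ) where
  /-- index of the piece -/
  h : V → ℕ
  /-- index of a crossing edge, `none` for inner edges -/
  c : E → Option ℕ
  hlt : ∀ v, h v < m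
  surj : ∀ i, i < m → ∃ v, h v = i
  clt : ∀ e i, c e = some i → i < m
  inner : ∀ e, c e = none → h (G.s e) = h (G.t e)
  cross : ∀ e i, c e = some (i + 1) →
    (h (G.s e) = i ∧ h (G.t e) = i + 1) ∨ (h (G.s e) = i + 1 ∧ h (G.t e) = i)
  cross0 : ∀ e, c e = some 0 →
    (h (G.s e) = m - 1 ∧ h (G.t e) = 0) ∨ (h (G.s e) = 0 ∧ h (G.t e) = m - 1)
  two : ∀ i, i < m → (univ.filter (fun e => c e = some i)).card = 2
  conn : ∀ i, i < m → ∀ φ : V → ZMod 2,
    (∀ e, c e = none → h (G.s e) = i → φ (G.s e) = φ (G.t e)) →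
    ∀ u v, h u = i → h v = i → φ u = φ v
  lam : ∀ i, i < m → G.ev (ind (univ.filter (fun e => c e = some i))) = G.ev L

variable {G}

/-- vertices of the piece `i`. -/
noncomputable def Ring.P {L : E → ZMod 2} {m : ℕ} (R : G.Ring L m) (i : ℕ) : Finset V :=
  univ.filter (fun v => R.h v = i)

/-- crossing edges with index `i`. -/
noncomputable def Ring.F {L : E → ZMod 2} {m : ℕ} (R : G.Ring L m) (i : ℕ) : Finset E :=
  univ.filter (fun e => R.c e = some i)


section basic

variable {L : E → ZMod 2} {m : ℕ} (R : G.Ring L m)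

theorem Ring.mem_P {i : ℕ} {v : V} : v ∈ R.P i ↔ R.h v = i := by
  simp [Ring.P]

theorem Ring.mem_F {i : ℕ} {e : E} : e ∈ R.F i ↔ R.c e = some i := by
  simp [Ring.F]

/-- a crossing edge with a given index exists. -/
theorem Ring.exists_cross {i : ℕ} (hi : i < m) : ∃ e, R.c e = some i := by
  have h := R.two i hi
  have h1 : (univ.filter (fun e => R.c e = some i)).Nonempty := by
    rw [← Finset.card_pos, h]; norm_num
  obtain ⟨e, he⟩ := h1
  exact ⟨e, by simpa using he⟩

/-- a potential which is constant along the edges inside a union of pieces: consecutive pieces. -/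
theorem Ring.step {S : ℕ → Prop} {φ : V → ZMod 2}
    (hφ : ∀ e, S (R.h (G.s e)) → S (R.h (G.t e)) → φ (G.s e) = φ (G.t e)) {i : ℕ}
    (h1 : i + 1 < m) (hS : S i) (hS' : S (i + 1)) {u v : V} (hu : R.h u = i)
    (hv : R.h v = i + 1) : φ u = φ v := by
  obtain ⟨e, he⟩ := R.exists_cross h1
  have hin : ∀ j, j < m → S j → ∀ u v, R.h u = j → R.h v = j → φ u = φ v := by
    intro j hj hSj
    refine R.conn j hj φ ?_
    intro e hc hs
    have := R.inner e hc
    exact hφ e (by rw [hs]; exact hSj) (by rw [← this, hs]; exact hSj)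
  rcases R.cross e i he with ⟨h2, h3⟩ | ⟨h2, h3⟩
  · rw [hin i (by omega) hS u _ hu h2, hφ e (by rw [h2]; exact hS) (by rw [h3]; exact hS')]
    exact hin (i + 1) h1 hS' _ _ h3 hv
  · rw [hin i (by omega) hS u _ hu h3, ← hφ e (by rw [h2]; exact hS') (by rw [h3]; exact hS)]
    exact hin (i + 1) h1 hS' _ _ h2 hv

theorem Ring.step0 {S : ℕ → Prop} {φ : V → ZMod 2}
    (hφ : ∀ e, S (R.h (G.s e)) → S (R.h (G.t e)) → φ (G.s e) = φ (G.t e))
    (hm : 0 < m) (hS : S 0) (hS' : S (m - 1)) {u v : V} (hu : R.h u = 0)
    (hv : R.h v = m - 1) : φ u = φ v := by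
  obtain ⟨e, he⟩ := R.exists_cross hm
  have hin : ∀ j, j < m → S j → ∀ u v, R.h u = j → R.h v = j → φ u = φ v := by
    intro j hj hSj
    refine R.conn j hj φ ?_
    intro e hc hs
    have := R.inner e hc
    exact hφ e (by rw [hs]; exact hSj) (by rw [← this, hs]; exact hSj)
  rcases R.cross0 e he with ⟨h2, h3⟩ | ⟨h2, h3⟩
  · rw [hin 0 (by omega) hS u _ hu h3, ← hφ e (by rw [h2]; exact hS') (by rw [h3]; exact hS)]
    exact hin (m - 1) (by omega) hS' _ _ h2 hv
  · rw [hin 0 (by omega) hS u _ hu h2, hφ e (by rw [h2]; exact hS) (by rw [h3]; exact hS')]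
    exact hin (m - 1) (by omega) hS' _ _ h3 hv

/-- the same, along an interval of pieces. -/
theorem Ring.steps {S : ℕ → Prop} {φ : V → ZMod 2}
    (hφ : ∀ e, S (R.h (G.s e)) → S (R.h (G.t e)) → φ (G.s e) = φ (G.t e)) {i : ℕ} :
    ∀ k, i + k < m → (∀ j, i ≤ j → j ≤ i + k → S j) → ∀ {u v : V}, R.h u = i →
    R.h v = i + k → φ u = φ v := by
  intro k
  induction k with
  | zero =>
    intro hk hS u v hu hv
    refine R.conn i (by omega) φ ?_ u v hu (by simpa using hv)
    intro e hc hs
    have := R.inner e hc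
    exact hφ e (by rw [hs]; exact hS i le_rfl (by omega))
      (by rw [← this, hs]; exact hS i le_rfl (by omega))
  | succ k ih =>
    intro hk hS u v hu hv
    obtain ⟨w, hw⟩ := R.surj (i + k) (by omega)
    rw [ih (by omega) (fun j h1 h2 => hS j h1 (by omega)) hu hw]
    exact R.step hφ (by omega) (hS _ (by omega) (by omega)) (hS _ (by omega) (by omega)) hw
      (by rw [hv]; omega)

end basic

theorem Ring.conn_P {L : E → ZMod 2} {m : ℕ} (R : G.Ring L m) (hm : 2 ≤ m) {i : ℕ} (hi : i < m) :
    G.ConnOn (R.P i) := by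
  intro φ hφ u hu v hv
  rw [R.mem_P] at hu hv
  refine R.conn i hi φ ?_ u v hu hv
  intro e hc hs
  have := R.inner e hc
  exact hφ e (by rw [R.mem_P]; exact hs) (by rw [R.mem_P, ← this]; exact hs)

theorem Ring.del_P {L : E → ZMod 2} {m : ℕ} (R : G.Ring L m) (hm : 2 ≤ m) {i : ℕ} (hi : i < m) :
    G.del (R.P i) = R.F i ∪ R.F (if i + 1 = m then 0 else i + 1) := by
  ext e
  rw [mem_del, Finset.mem_union, R.mem_P, R.mem_P, R.mem_F, R.mem_F]
  rcases hc : R.c e with _ | j
  · have := R.inner e hc
    constructor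
    · rintro (h | h)
      · exact absurd (this ▸ h.1) h.2
      · exact absurd (this.symm ▸ h.2) h.1
    · rintro (h | h) <;> simp at h
  · rcases j with _ | j
    · have h1 := R.cross0 e hc
      by_cases h2 : i + 1 = m
      · rw [if_pos h2]
        simp only [Option.some.injEq]
        constructor
        · intro _; right; trivial
        · intro _; omega
      · rw [if_neg h2]
        simp only [Option.some.injEq]
        constructor <;> intro _ <;> omega
    · have h1 := R.cross e j hc
      have h3 := R.clt e _ hc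
      by_cases h2 : i + 1 = m
      · rw [if_pos h2]
        simp only [Option.some.injEq]
        constructor <;> intro _ <;> omega
      · rw [if_neg h2]
        simp only [Option.some.injEq]
        constructor <;> intro _ <;> omega

/-- the complement of an interval of pieces is connected -/
theorem Ring.conn_compl {L : E → ZMod 2} {m : ℕ} (R : G.Ring L m) (hm : 2 ≤ m) {a b : ℕ}
    (hab : a ≤ b) (hb : b < m) (hne : 1 ≤ a ∨ b + 1 < m) :
    G.ConnOn (univ.filter (fun v => a ≤ R.h v ∧ R.h v ≤ b))ᶜ := by
  intro φ hφ u hu v hv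
  simp only [Finset.mem_compl, Finset.mem_filter, Finset.mem_univ, true_and, not_and_or,
    not_le] at hφ hu hv
  have hφ' : ∀ e, (fun j => j < a ∨ b < j) (R.h (G.s e)) →
      (fun j => j < a ∨ b < j) (R.h (G.t e)) → φ (G.s e) = φ (G.t e) := hφ
  have hsteps := fun i => R.steps (S := fun j => j < a ∨ b < j) hφ' (i := i)
  -- compare with a vertex of the piece `0` or `m - 1`
  have hlow : ∀ u w, R.h u < a → R.h w = 0 → φ u = φ w := by
    intro u w hu hw
    refine (hsteps 0 (R.h u) (by have := R.hlt u; omega) ?_ hw (by omega)).symm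
    intro j _ hj
    left
    omega
  have hhigh : ∀ u w, b < R.h u → R.h w = m - 1 → φ u = φ w := by
    intro u w hu hw
    have := R.hlt u
    refine hsteps (R.h u) (m - 1 - R.h u) (by omega) ?_ rfl (by omega)
    intro j hj _
    right
    omega
  obtain ⟨w0, hw0⟩ := R.surj 0 (by omega)
  obtain ⟨w1, hw1⟩ := R.surj (m - 1) (by omega)
  have hstep : 1 ≤ a → b + 1 < m → φ w0 = φ w1 := by
    intro h1 h2
    exact R.step0 (S := fun j => j < a ∨ b < j) hφ' (by omega) (Or.inl (by omega))
      (Or.inr (by omega)) hw0 hw1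
  rcases hu with hu | hu <;> rcases hv with hv | hv
  · rw [hlow u w0 hu hw0, hlow v w0 hv hw0]
  · rw [hlow u w0 hu hw0, hhigh v w1 hv hw1]
    exact hstep (by omega) (by have := R.hlt v; omega)
  · rw [hhigh u w1 hu hw1, hlow v w0 hv hw0]
    exact (hstep (by omega) (by have := R.hlt u; omega)).symm
  · rw [hhigh u w1 hu hw1, hhigh v w1 hv hw1]

theorem Ring.conn_interval {L : E → ZMod 2} {m : ℕ} (R : G.Ring L m) (hm : 2 ≤ m) {a b : ℕ}
    (hab : a ≤ b) (hb : b < m) :
    G.ConnOn (univ.filter (fun v => a ≤ R.h v ∧ R.h v ≤ b)) := by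
  intro φ hφ u hu v hv
  simp only [Finset.mem_filter, Finset.mem_univ, true_and] at hφ hu hv
  have hφ' : ∀ e, (fun j => a ≤ j ∧ j ≤ b) (R.h (G.s e)) →
      (fun j => a ≤ j ∧ j ≤ b) (R.h (G.t e)) → φ (G.s e) = φ (G.t e) := hφ
  obtain ⟨w, hw⟩ := R.surj a (by omega)
  have key : ∀ u, a ≤ R.h u → R.h u ≤ b → φ w = φ u := by
    intro u h1 h2
    refine R.steps (S := fun j => a ≤ j ∧ j ≤ b) hφ' (i := a) (R.h u - a) (by omega) ?_ hw (by omega)
    intro j hj hj'
    constructor <;> omega
  rw [← key u hu.1 hu.2, ← key v hv.1 hv.2]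

theorem ev_pair (a b : E) (hab : a ≠ b) :
    G.ev (ind (univ.filter (fun e => e = a ∨ e = b))) = G.co a + G.co b := by
  funext z
  rw [ev_ind]
  have : (univ.filter (fun e => e = a ∨ e = b)) = {a, b} := by
    ext e; simp
  rw [this, Finset.sum_pair hab]
  rfl

/-- The functionals spanned by the crossing edges. -/
def Ring.InW {L : E → ZMod 2} {m : ℕ} (R : G.Ring L m) (g : G.Z → ZMod 2) : Prop :=
  ∃ f : E → ZMod 2, (∀ e, R.c e = none → f e = 0) ∧ G.ev f = g

/-- if the coboundary of a potential is `1_a` up to crossing edges then `z_a` is in `W`. -/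
theorem Ring.inW_of {L : E → ZMod 2} {m : ℕ} (R : G.Ring L m) {a : E} (ψ : V → ZMod 2)
    (h : ∀ e, R.c e = none → G.d ψ e = if e = a then 1 else 0) :
    R.InW (G.co a) := by
  refine ⟨G.d ψ + Pi.single a 1, ?_, ?_⟩
  · intro e he
    rw [Pi.add_apply, h e he, Pi.single_apply]
    exact z2_add_self _
  · rw [ev_add, ev_d, zero_add, co_eq]

theorem Ring.inW_add {L : E → ZMod 2} {m : ℕ} (R : G.Ring L m) {a b : E} (hm : 0 < m)
    (h : G.co a + G.co b = G.ev L) (hb : R.InW (G.co b)) : R.InW (G.co a) := by
  obtain ⟨f, hf, hf'⟩ := hb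
  refine ⟨f + ind (univ.filter (fun e => R.c e = some 0)), ?_, ?_⟩
  · intro e he
    rw [Pi.add_apply, hf e he, zero_add]
    simp [ind, he]
  · rw [ev_add, hf', R.lam 0 hm, ← h, add_comm (G.co a), ← add_assoc]
    have : G.co b + G.co b = 0 := chain_add_self _
    rw [this, zero_add]

theorem Ring.inW_cross {L : E → ZMod 2} {m : ℕ} (R : G.Ring L m) {a : E} (ha : R.c a ≠ none) :
    R.InW (G.co a) := by
  refine ⟨Pi.single a 1, ?_, (co_eq _ _).symm⟩
  intro e he
  rw [Pi.single_apply, if_neg]
  rintro rfl
  exact ha he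

/-- the heart of the refinement: the potential of a cross pair. -/
theorem Ring.refine_potential {L : E → ZMod 2} {m : ℕ} (R : G.Ring L m)
    {a b : E} (hab : a ≠ b) (h : G.co a + G.co b = G.ev L) (hW : ¬ R.InW (G.co a)) :
    R.c a = none ∧ R.c b = none ∧ R.h (G.s b) = R.h (G.s a) ∧
    ∃ φ : V → ZMod 2, (∀ e, G.d φ e = if e = a ∨ e = b ∨ R.c e = some 0 then 1 else 0) ∧
      (∀ v, R.h (G.s a) < R.h v → φ v = 1) ∧ (∀ v, R.h v < R.h (G.s a) → φ v = 0) := by
  have hm : 0 < m := lt_of_le_of_lt (Nat.zero_le _) (R.hlt (G.s a))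
  have ha : R.c a = none := by
    by_contra h1
    exact hW (R.inW_cross h1)
  have hb : R.c b = none := by
    by_contra h1
    exact hW (R.inW_add hm h (R.inW_cross h1))
  have hWb : ¬ R.InW (G.co b) := fun h1 => hW (R.inW_add hm h h1)
  -- the potential
  have h0 : ∃ φ, ind (univ.filter (fun e => e = a ∨ e = b)) +
      ind (univ.filter (fun e => R.c e = some 0)) = G.d φ := by
    rw [← ev_eq_iff, G.ev_pair a b hab, R.lam 0 hm, h]
  obtain ⟨φ, hφ⟩ := h0
  have hd : ∀ e, G.d φ e = if e = a ∨ e = b ∨ R.c e = some 0 then 1 else 0 := by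
    intro e
    rw [← hφ]
    simp only [Pi.add_apply, ind, Finset.mem_filter, Finset.mem_univ, true_and]
    by_cases h1 : e = a ∨ e = b
    · have h2 : R.c e ≠ some 0 := by
        rcases h1 with rfl | rfl
        · rw [ha]; simp
        · rw [hb]; simp
      rw [if_pos h1, if_neg h2, if_pos (by tauto), add_zero]
    · by_cases h2 : R.c e = some 0
      · rw [if_neg h1, if_pos h2, if_pos (by tauto), zero_add]
      · rw [if_neg h1, if_neg h2, if_neg (by tauto), zero_add]
  have hij : R.h (G.s b) = R.h (G.s a) := by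
    by_contra hne
    apply hW
    refine R.inW_of (fun v => if R.h v = R.h (G.s a) then φ v else 0) ?_
    intro e he
    have h1 := R.inner e he
    have h2 := hd e
    simp only [d] at h2 ⊢
    rw [he] at h2
    by_cases h3 : R.h (G.s e) = R.h (G.s a)
    · rw [if_pos h3, if_pos (h1 ▸ h3), h2]
      by_cases h4 : e = a
      · rw [if_pos h4, if_pos (Or.inl h4)]
      · rw [if_neg h4, if_neg]
        rintro (h5 | h5 | h5)
        · exact h4 h5
        · rw [h5] at h3; exact hne h3
        · simp at h5
    · rw [if_neg h3, if_neg (h1 ▸ h3), if_neg, add_zero]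
      rintro rfl
      exact h3 rfl
  refine ⟨ha, hb, hij, ?_⟩
  set i := R.h (G.s a) with hi
  have him : i < m := R.hlt _
  have hκ : ∃ κ, ∀ v, R.h v ≠ i → φ v + (if i < R.h v then 1 else 0) = κ := by
    by_cases hex : ∃ v0, R.h v0 ≠ i
    · obtain ⟨v0, hv0⟩ := hex
      have h2m : 2 ≤ m := by have := R.hlt v0; omega
      have hconn := R.conn_compl h2m (le_refl i) him (by omega)
      have hmem : ∀ v, v ∈ (univ.filter (fun v => i ≤ R.h v ∧ R.h v ≤ i))ᶜ ↔ R.h v ≠ i := by
        intro v
        simp only [Finset.mem_compl, Finset.mem_filter, Finset.mem_univ, true_and]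
        omega
      refine ⟨_, fun v hv => hconn (fun v => φ v + (if i < R.h v then 1 else 0)) ?_ v
        ((hmem v).2 hv) v0 ((hmem v0).2 hv0)⟩
      intro e hs ht
      rw [hmem] at hs ht
      have hea : e ≠ a := by rintro rfl; exact hs rfl
      have heb : e ≠ b := by rintro rfl; exact hs hij
      have h2 := hd e
      simp only [d] at h2
      rcases hc : R.c e with _ | j
      · rw [if_neg (by rw [hc]; simp [hea, heb])] at h2
        have h1 := R.inner e hc
        simp only [← h1]
        rw [z2_add_eq_zero.1 h2]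
      · rcases j with _ | j
        · rw [if_pos (by rw [hc]; simp)] at h2
          rcases R.cross0 e hc with ⟨h3, h4⟩ | ⟨h3, h4⟩
          · simp only [h3, h4]
            rw [if_pos (by omega), if_neg (by omega), add_zero]
            have : φ (G.s e) + 1 = φ (G.t e) := by
              rw [← h2, ← add_assoc, z2_add_self, zero_add]
            exact this
          · simp only [h3, h4]
            rw [if_neg (by omega), if_pos (by omega), add_zero]
            rw [← h2, add_comm (φ (G.s e)), ← add_assoc, z2_add_self, zero_add]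
        · rw [if_neg (by rw [hc]; simp [hea, heb])] at h2
          rw [z2_add_eq_zero.1 h2]
          rcases R.cross e j hc with ⟨h3, h4⟩ | ⟨h3, h4⟩
          · simp only [h3, h4]
            by_cases h5 : i < j
            · rw [if_pos h5, if_pos (by omega)]
            · rw [if_neg h5, if_neg (by omega)]
          · simp only [h3, h4]
            by_cases h5 : i < j
            · rw [if_pos h5, if_pos (by omega)]
            · rw [if_neg h5, if_neg (by omega)]
    · exact ⟨0, fun v hv => absurd ⟨v, hv⟩ hex⟩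
  obtain ⟨κ, hκ⟩ := hκ
  refine ⟨fun v => φ v + κ, ?_, ?_, ?_⟩
  · intro e
    rw [← hd e]
    simp only [d]
    have : κ + κ = 0 := z2_add_self _
    linear_combination this
  · intro v hv
    have h1 := hκ v (by omega)
    rw [if_pos hv] at h1
    show φ v + κ = 1
    rw [← h1, ← add_assoc, z2_add_self, zero_add]
  · intro v hv
    have h1 := hκ v (by omega)
    rw [if_neg (by omega), add_zero] at h1
    show φ v + κ = 0
    rw [h1, z2_add_self]

/-- connectivity of the two halves of a split piece. -/
theorem Ring.conn_split {L : E → ZMod 2} {m : ℕ} (R : G.Ring L m) {a b : E} {i : ℕ} (him : i < m)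
    (hWb : ¬ R.InW (G.co b)) (hsa : R.h (G.s a) = i) (hta : R.h (G.t a) = i)
    (φ : V → ZMod 2) (hda : φ (G.s a) + φ (G.t a) = 1)
    (hinner : ∀ e, R.c e = none → e ≠ a → e ≠ b → φ (G.s e) = φ (G.t e))
    (κ : ZMod 2) (χ : V → ZMod 2)
    (hχ : ∀ e, R.c e = none → e ≠ a → e ≠ b → R.h (G.s e) = i → φ (G.s e) = κ →
      χ (G.s e) = χ (G.t e))
    (u v : V) (hu : R.h u = i) (hu' : φ u = κ) (hv : R.h v = i) (hv' : φ v = κ) :
    χ u = χ v := by
  obtain ⟨x, y, hx, hx', hy, hy', hxy⟩ : ∃ x y, R.h x = i ∧ φ x = κ ∧ R.h y = i ∧ φ y ≠ κ ∧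
      ((G.s a = x ∧ G.t a = y) ∨ (G.s a = y ∧ G.t a = x)) := by
    by_cases h1 : φ (G.s a) = κ
    · refine ⟨G.s a, G.t a, hsa, h1, hta, ?_, Or.inl ⟨rfl, rfl⟩⟩
      intro h2
      rw [h1, h2, z2_add_self] at hda
      exact z2_one_ne_zero hda.symm
    · refine ⟨G.t a, G.s a, hta, ?_, hsa, h1, Or.inr ⟨rfl, rfl⟩⟩
      rcases z2_cases κ with rfl | rfl
      · rw [z2_ne_zero h1] at hda
        rcases z2_cases (φ (G.t a)) with h2 | h2
        · exact h2
        · rw [h2] at hda; exact absurd hda (by decide)
      · rw [z2_ne_one h1, zero_add] at hda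
        exact hda
  let ψ : V → ZMod 2 := fun v => if R.h v = i ∧ φ v = κ then χ v + χ x else 0
  have hψx : ψ x = 0 := by
    show (if R.h x = i ∧ φ x = κ then χ x + χ x else 0) = 0
    rw [z2_add_self, ite_self]
  have hψy : ψ y = 0 := if_neg (fun h => hy' h.2)
  have hψe : ∀ e, R.c e = none → e ≠ b → G.d ψ e = 0 := by
    intro e he heb
    by_cases hea : e = a
    · rw [hea]
      show ψ (G.s a) + ψ (G.t a) = 0
      rcases hxy with ⟨h1, h2⟩ | ⟨h1, h2⟩ <;> rw [h1, h2, hψx, hψy, add_zero]
    · have h1 := R.inner e he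
      have h2 := hinner e he hea heb
      have h3 := hχ e he hea heb
      show (if R.h (G.s e) = i ∧ φ (G.s e) = κ then χ (G.s e) + χ x else 0) +
        (if R.h (G.t e) = i ∧ φ (G.t e) = κ then χ (G.t e) + χ x else 0) = 0
      rw [← h1, ← h2]
      by_cases h4 : R.h (G.s e) = i ∧ φ (G.s e) = κ
      · rw [if_pos h4, if_pos h4, h3 h4.1 h4.2, z2_add_self]
      · rw [if_neg h4, if_neg h4, add_zero]
  have hψb : G.d ψ b = 0 := by
    by_contra h1
    apply hWb
    refine R.inW_of ψ ?_
    intro e he
    by_cases h2 : e = b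
    · rw [if_pos h2, h2]; exact z2_ne_zero h1
    · rw [if_neg h2]; exact hψe e he h2
  have hconst := R.conn i him ψ (fun e he _ => by
    by_cases h2 : e = b
    · rw [h2]; exact z2_add_eq_zero.1 hψb
    · exact z2_add_eq_zero.1 (hψe e he h2))
  have key : ∀ u, R.h u = i → φ u = κ → χ u = χ x := by
    intro u hu hu'
    have h1 := hconst u y hu hy
    rw [hψy] at h1
    have h2 : ψ u = χ u + χ x := if_pos ⟨hu, hu'⟩
    rw [h2] at h1
    exact z2_add_eq_zero.1 h1
  rw [key u hu hu', key v hv hv']

/-- 4.1: refinement of a ring. -/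
theorem Ring.refinement {L : E → ZMod 2} {m : ℕ} (R : G.Ring L m)
    {a b : E} (hab : a ≠ b) (h : G.co a + G.co b = G.ev L) (hW : ¬ R.InW (G.co a)) :
    Nonempty (G.Ring L (m + 1)) := by
  have hm : 0 < m := lt_of_le_of_lt (Nat.zero_le _) (R.hlt (G.s a))
  obtain ⟨ha, hb, hij, φ, hd, hhi, hlo⟩ := R.refine_potential hab h hW
  have hWb : ¬ R.InW (G.co b) := fun h1 => hW (R.inW_add hm h h1)
  obtain ⟨i, hi⟩ : ∃ i, i = R.h (G.s a) := ⟨_, rfl⟩
  rw [← hi] at hij hhi hlo
  have him : i < m := by rw [hi]; exact R.hlt _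
  have hta : R.h (G.t a) = i := by rw [← R.inner a ha, hi]
  have htb : R.h (G.t b) = i := by rw [← R.inner b hb, hij]
  have hda : φ (G.s a) + φ (G.t a) = 1 := by
    have := hd a
    rwa [if_pos (Or.inl rfl)] at this
  have hdb : φ (G.s b) + φ (G.t b) = 1 := by
    have := hd b
    rwa [if_pos (Or.inr (Or.inl rfl))] at this
  have hinner : ∀ e, R.c e = none → e ≠ a → e ≠ b → φ (G.s e) = φ (G.t e) := by
    intro e he hea heb
    have := hd e
    rw [he, if_neg (by simp [hea, heb])] at this
    exact z2_add_eq_zero.1 this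
  have hcr : ∀ e j, R.c e = some (j + 1) → φ (G.s e) = φ (G.t e) := by
    intro e j he
    have hea : e ≠ a := by rintro rfl; rw [ha] at he; simp at he
    have heb : e ≠ b := by rintro rfl; rw [hb] at he; simp at he
    have := hd e
    rw [he, if_neg (by simp [hea, heb])] at this
    exact z2_add_eq_zero.1 this
  have hcr0 : ∀ e, R.c e = some 0 → φ (G.s e) + φ (G.t e) = 1 := by
    intro e he
    have := hd e
    rwa [if_pos (Or.inr (Or.inr he))] at this
  -- a pair of values with sum one
  have hone : ∀ x y : ZMod 2, x + y = 1 → (x = 0 ∧ y = 1) ∨ (x = 1 ∧ y = 0) := by decide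
  let h' : V → ℕ := fun v => R.h v + (if φ v = 1 then 1 else 0)
  let c' : E → Option ℕ := fun e => if e = a ∨ e = b then some (i + 1) else
    (R.c e).map (fun k => if k ≤ i then k else k + 1)
  have hh' : ∀ v, h' v = R.h v + (if φ v = 1 then 1 else 0) := fun v => rfl
  have hh1 : ∀ v, φ v = 1 → h' v = R.h v + 1 := fun v hv => by rw [hh', if_pos hv]
  have hh0 : ∀ v, φ v = 0 → h' v = R.h v := fun v hv => by
    rw [hh', hv, if_neg (by decide), add_zero]
  have hc'n : ∀ e, c' e = none ↔ e ≠ a ∧ e ≠ b ∧ R.c e = none := by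
    intro e
    show (if e = a ∨ e = b then some (i + 1) else
      (R.c e).map (fun k => if k ≤ i then k else k + 1)) = none ↔ _
    by_cases h1 : e = a ∨ e = b
    · rw [if_pos h1]
      simp only [reduceCtorEq, false_iff]
      tauto
    · rw [if_neg h1, Option.map_eq_none_iff]
      tauto
  have hc's : ∀ e k, c' e = some k ↔ (k = i + 1 ∧ (e = a ∨ e = b)) ∨
      (k ≤ i ∧ R.c e = some k) ∨ (i + 2 ≤ k ∧ R.c e = some (k - 1)) := by
    intro e k
    show (if e = a ∨ e = b then some (i + 1) else
      (R.c e).map (fun k => if k ≤ i then k else k + 1)) = some k ↔ _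
    by_cases h1 : e = a ∨ e = b
    · have h2 : R.c e = none := by rcases h1 with rfl | rfl <;> assumption
      rw [if_pos h1, h2]
      simp only [Option.some.injEq, reduceCtorEq, and_false, or_false, h1, and_true]
      exact eq_comm
    · rw [if_neg h1]
      rcases hc : R.c e with _ | j
      · simp [h1]
      · simp only [Option.map_some, Option.some.injEq, h1, and_false, false_or]
        by_cases h2 : j ≤ i
        · rw [if_pos h2]; omega
        · rw [if_neg h2]; omega
  refine ⟨⟨h', c', ?_, ?_, ?_, ?_, ?_, ?_, ?_, ?_, ?_⟩⟩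
  · intro v
    have := R.hlt v
    rw [hh']
    split_ifs <;> omega
  · intro k hk
    rcases lt_trichotomy k i with h1 | h1 | h1
    · obtain ⟨v, hv⟩ := R.surj k (by omega)
      exact ⟨v, by rw [hh0 v (hlo v (by omega)), hv]⟩
    · subst h1
      rcases hone _ _ hda with ⟨h2, h3⟩ | ⟨h2, h3⟩
      · exact ⟨G.s a, by rw [hh0 _ h2, ← hi]⟩
      · exact ⟨G.t a, by rw [hh0 _ h3, hta]⟩
    · by_cases h4 : k = i + 1
      · rcases hone _ _ hda with ⟨h2, h3⟩ | ⟨h2, h3⟩
        · exact ⟨G.t a, by rw [hh1 _ h3, hta, h4]⟩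
        · exact ⟨G.s a, by rw [hh1 _ h2, ← hi, h4]⟩
      · obtain ⟨v, hv⟩ := R.surj (k - 1) (by omega)
        exact ⟨v, by rw [hh1 v (hhi v (by omega)), hv]; omega⟩
  · intro e k hk
    rw [hc's] at hk
    rcases hk with ⟨h1, _⟩ | ⟨h1, h2⟩ | ⟨h1, h2⟩
    · omega
    · have := R.clt e _ h2; omega
    · have := R.clt e _ h2; omega
  · intro e he
    rw [hc'n] at he
    rw [hh', hh', R.inner e he.2.2, hinner e he.2.2 he.1 he.2.1]
  · intro e k hk
    rw [hc's] at hk
    rcases hk with ⟨h1, h2⟩ | ⟨h1, h2⟩ | ⟨h1, h2⟩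
    · have hki : k = i := by omega
      subst hki
      rcases h2 with rfl | rfl
      · rcases hone _ _ hda with ⟨h2, h3⟩ | ⟨h2, h3⟩
        · left; rw [hh0 _ h2, hh1 _ h3, ← hi, hta]; exact ⟨rfl, rfl⟩
        · right; rw [hh1 _ h2, hh0 _ h3, ← hi, hta]; exact ⟨rfl, rfl⟩
      · rcases hone _ _ hdb with ⟨h2, h3⟩ | ⟨h2, h3⟩
        · left; rw [hh0 _ h2, hh1 _ h3, hij, htb]; exact ⟨rfl, rfl⟩
        · right; rw [hh1 _ h2, hh0 _ h3, hij, htb]; exact ⟨rfl, rfl⟩
    · have h3 := hcr e k h2
      rcases R.cross e k h2 with ⟨h4, h5⟩ | ⟨h4, h5⟩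
      · have h6 := hlo (G.s e) (by omega)
        left
        rw [hh0 _ h6, hh0 _ (h3 ▸ h6)]
        exact ⟨h4, h5⟩
      · have h6 := hlo (G.t e) (by omega)
        right
        rw [hh0 _ h6, hh0 _ (h3.symm ▸ h6)]
        exact ⟨h4, h5⟩
    · obtain ⟨j, rfl⟩ : ∃ j, k = j + 1 := ⟨k - 1, by omega⟩
      rw [Nat.add_sub_cancel] at h2
      have h3 := hcr e j h2
      rcases R.cross e j h2 with ⟨h4, h5⟩ | ⟨h4, h5⟩
      · have h6 := hhi (G.t e) (by omega)
        left
        rw [hh1 _ h6, hh1 _ (h3.symm ▸ h6)]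
        omega
      · have h6 := hhi (G.s e) (by omega)
        right
        rw [hh1 _ h6, hh1 _ (h3 ▸ h6)]
        omega
  · intro e he
    rw [hc's] at he
    have h2 : R.c e = some 0 := by
      rcases he with ⟨h1, _⟩ | ⟨_, h2⟩ | ⟨h1, _⟩
      · omega
      · exact h2
      · omega
    rcases hone _ _ (hcr0 e h2) with ⟨h3, h4⟩ | ⟨h3, h4⟩
    · rw [hh0 _ h3, hh1 _ h4]
      have h5 : ¬ i < R.h (G.s e) := fun h6 => by
        rw [hhi _ h6] at h3; exact z2_one_ne_zero h3
      have h6 : ¬ R.h (G.t e) < i := fun h6 => by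
        rw [hlo _ h6] at h4; exact z2_one_ne_zero h4.symm
      have h7 := R.hlt (G.s e)
      have h8 := R.hlt (G.t e)
      rcases R.cross0 e h2 with h9 | h9 <;> omega
    · rw [hh1 _ h3, hh0 _ h4]
      have h5 : ¬ R.h (G.s e) < i := fun h6 => by
        rw [hlo _ h6] at h3; exact z2_one_ne_zero h3.symm
      have h6 : ¬ i < R.h (G.t e) := fun h6 => by
        rw [hhi _ h6] at h4; exact z2_one_ne_zero h4
      have h7 := R.hlt (G.s e)
      have h8 := R.hlt (G.t e)
      rcases R.cross0 e h2 with h9 | h9 <;> omega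
  · intro k hk
    by_cases h1 : k = i + 1
    · have : (univ.filter (fun e => c' e = some k)) = {a, b} := by
        ext e
        simp only [Finset.mem_filter, Finset.mem_univ, true_and, Finset.mem_insert,
          Finset.mem_singleton]
        rw [hc's]
        constructor
        · rintro (h3 | h3 | h3)
          · exact h3.2
          · omega
          · omega
        · intro h3; exact Or.inl ⟨h1, h3⟩
      rw [this, Finset.card_pair hab]
    · by_cases h2 : k ≤ i
      · rw [← R.two k (by omega)]
        congr 1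
        ext e
        simp only [Finset.mem_filter, Finset.mem_univ, true_and]
        rw [hc's]
        constructor
        · rintro (h3 | h3 | h3)
          · omega
          · exact h3.2
          · omega
        · intro h3; exact Or.inr (Or.inl ⟨h2, h3⟩)
      · rw [← R.two (k - 1) (by omega)]
        congr 1
        ext e
        simp only [Finset.mem_filter, Finset.mem_univ, true_and]
        rw [hc's]
        constructor
        · rintro (h3 | h3 | h3)
          · omega
          · omega
          · exact h3.2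
        · intro h3; exact Or.inr (Or.inr ⟨by omega, h3⟩)
  · intro k hk χ hχ u v hu hv
    -- the value of `φ` on the new piece `k`
    by_cases h1 : k = i ∨ k = i + 1
    · have hmem : ∀ w, h' w = k ↔ R.h w = i ∧ φ w = (if k = i then 0 else 1) := by
        intro w
        rcases z2_cases (φ w) with h2 | h2
        · rw [hh0 w h2, h2]
          have h5 : ¬ i < R.h w := fun h6 => by
            rw [hhi _ h6] at h2; exact z2_one_ne_zero h2
          by_cases h3 : k = i
          · rw [if_pos h3, h3]; simp
          · rw [if_neg h3]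
            have : (0 : ZMod 2) ≠ 1 := by decide
            simp only [this, and_false, iff_false]
            omega
        · rw [hh1 w h2, h2]
          have h5 : ¬ R.h w < i := fun h6 => by
            rw [hlo _ h6] at h2; exact z2_one_ne_zero h2.symm
          by_cases h3 : k = i
          · rw [if_pos h3, h3]
            simp only [z2_one_ne_zero, and_false, iff_false]
            omega
          · rw [if_neg h3]
            simp only [and_true]
            omega
      refine R.conn_split him hWb hi.symm hta φ hda hinner _ χ ?_ u v ((hmem u).1 hu).1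
        ((hmem u).1 hu).2 ((hmem v).1 hv).1 ((hmem v).1 hv).2
      intro e he hea heb hs hφ
      exact hχ e ((hc'n e).2 ⟨hea, heb, he⟩) ((hmem _).2 ⟨hs, hφ⟩)
    · rw [not_or] at h1
      by_cases h2 : k < i
      · have hmem : ∀ w, h' w = k ↔ R.h w = k := by
          intro w
          rcases z2_cases (φ w) with h3 | h3
          · rw [hh0 w h3]
          · rw [hh1 w h3]
            have h5 : ¬ R.h w < i := fun h6 => by
              rw [hlo _ h6] at h3; exact z2_one_ne_zero h3.symm
            omega
        refine R.conn k (by omega) χ ?_ u v ((hmem u).1 hu) ((hmem v).1 hv)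
        intro e he hs
        refine hχ e ((hc'n e).2 ⟨?_, ?_, he⟩) ((hmem _).2 hs)
        · rintro rfl; omega
        · rintro rfl; omega
      · have hmem : ∀ w, h' w = k ↔ R.h w = k - 1 := by
          intro w
          rcases z2_cases (φ w) with h3 | h3
          · rw [hh0 w h3]
            have h5 : ¬ i < R.h w := fun h6 => by
              rw [hhi _ h6] at h3; exact z2_one_ne_zero h3
            omega
          · rw [hh1 w h3]
            omega
        refine R.conn (k - 1) (by omega) χ ?_ u v ((hmem u).1 hu) ((hmem v).1 hv)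
        intro e he hs
        refine hχ e ((hc'n e).2 ⟨?_, ?_, he⟩) ((hmem _).2 hs)
        · rintro rfl; omega
        · rintro rfl; omega
  · intro k hk
    by_cases h1 : k = i + 1
    · have : (univ.filter (fun e => c' e = some k)) = univ.filter (fun e => e = a ∨ e = b) := by
        ext e
        simp only [Finset.mem_filter, Finset.mem_univ, true_and]
        rw [hc's]
        constructor
        · rintro (h3 | h3 | h3)
          · exact h3.2
          · omega
          · omega
        · intro h3; exact Or.inl ⟨h1, h3⟩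
      rw [this, G.ev_pair a b hab, h]
    · by_cases h2 : k ≤ i
      · rw [← R.lam k (by omega)]
        congr 2
        ext e
        simp only [Finset.mem_filter, Finset.mem_univ, true_and]
        rw [hc's]
        constructor
        · rintro (h3 | h3 | h3)
          · omega
          · exact h3.2
          · omega
        · intro h3; exact Or.inr (Or.inl ⟨h2, h3⟩)
      · rw [← R.lam (k - 1) (by omega)]
        congr 2
        ext e
        simp only [Finset.mem_filter, Finset.mem_univ, true_and]
        rw [hc's]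
        constructor
        · rintro (h3 | h3 | h3)
          · omega
          · omega
          · exact h3.2
        · intro h3; exact Or.inr (Or.inr ⟨by omega, h3⟩)

variable (G)

theorem ring_one (hG : G.Good) {L : E → ZMod 2} (hL : G.ev L ≠ 0) {a b : E} (hab : a ≠ b)
    (h : G.co a + G.co b = G.ev L) : Nonempty (G.Ring L 1) := by
  let c : E → Option ℕ := fun e => if e = a ∨ e = b then some 0 else none
  have hc0 : ∀ e i, c e = some i ↔ i = 0 ∧ (e = a ∨ e = b) := by
    intro e i
    show (if e = a ∨ e = b then some 0 else none) = some i ↔ _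
    by_cases h1 : e = a ∨ e = b
    · rw [if_pos h1]; simp only [Option.some.injEq, h1, and_true]; exact eq_comm
    · rw [if_neg h1]; simp [h1]
  have hcn : ∀ e, c e = none ↔ e ≠ a ∧ e ≠ b := by
    intro e
    show (if e = a ∨ e = b then some 0 else none) = none ↔ _
    by_cases h1 : e = a ∨ e = b
    · rw [if_pos h1]
      simp only [reduceCtorEq, false_iff]
      tauto
    · rw [if_neg h1]
      simp only [true_iff]
      tauto
  have hfil : (univ.filter (fun e => c e = some 0)) = univ.filter (fun e => e = a ∨ e = b) := by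
    ext e
    simp only [Finset.mem_filter, Finset.mem_univ, true_and]
    rw [hc0]
    simp
  have hne : ∀ e, G.ev (Pi.single e 1) ≠ 0 := by
    intro e he
    obtain ⟨z, hz⟩ := hG.bridgeless e
    have := congrFun he z
    rw [← co_eq] at this
    rw [show G.co e z = z.1 e from rfl, hz] at this
    exact z2_one_ne_zero this
  refine ⟨⟨fun _ => 0, c, ?_, ?_, ?_, ?_, ?_, ?_, ?_, ?_, ?_⟩⟩
  · intro _; norm_num
  · intro i hi
    exact ⟨G.s a, by omega⟩
  · intro e i hi
    rw [hc0] at hi
    omega
  · intro e _; rfl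
  · intro e i hi
    rw [hc0] at hi
    omega
  · intro e _
    left; exact ⟨rfl, rfl⟩
  · intro i hi
    have : i = 0 := by omega
    subst this
    rw [hfil]
    have : (univ.filter (fun e => e = a ∨ e = b)) = {a, b} := by
      ext e; simp
    rw [this, Finset.card_pair hab]
  · intro i _ φ hφ u v _ _
    have hi : i = 0 := by omega
    apply hG.conn
    intro e
    by_cases hea : e = a ∨ e = b
    · -- the coboundary of `φ` is supported in `{a, b}`
      by_contra hcon
      have hd : G.d φ = (if G.d φ a = 1 then Pi.single a 1 else 0) +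
          (if G.d φ b = 1 then Pi.single b 1 else 0) := by
        funext e'
        rw [Pi.add_apply]
        by_cases h1 : e' = a
        · subst h1
          rcases z2_cases (G.d φ e') with h2 | h2
          · rw [h2, if_neg (by decide)]
            split_ifs <;> simp [Pi.single_apply, hab]
          · rw [h2, if_pos rfl]
            split_ifs <;> simp [Pi.single_apply, hab]
        · by_cases h3 : e' = b
          · subst h3
            rcases z2_cases (G.d φ e') with h2 | h2
            · rw [h2, if_neg (by decide : ¬ (0 : ZMod 2) = 1)]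
              split_ifs <;> simp [Pi.single_apply, hab.symm]
            · rw [h2, if_pos rfl]
              split_ifs <;> simp [Pi.single_apply, hab.symm]
          · have : G.d φ e' = 0 := z2_add_eq_zero.2 (hφ e' ((hcn e').2 ⟨h1, h3⟩) hi.symm)
            rw [this]
            split_ifs <;> simp [Pi.single_apply, h1, h3]
      have hev := G.ev_d φ
      rw [hd] at hev
      have hor : G.d φ a = 1 ∨ G.d φ b = 1 := by
        rcases hea with rfl | rfl
        · left
          exact z2_ne_zero fun h1 => hcon (z2_add_eq_zero.1 h1)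
        · right
          exact z2_ne_zero fun h1 => hcon (z2_add_eq_zero.1 h1)
      by_cases h1 : G.d φ a = 1
      · by_cases h2 : G.d φ b = 1
        · rw [if_pos h1, if_pos h2, ev_add, ← co_eq, ← co_eq, h] at hev
          exact hL hev
        · rw [if_pos h1, if_neg h2, add_zero] at hev
          exact hne a hev
      · rw [if_neg h1, if_pos (hor.resolve_left h1), zero_add] at hev
        exact hne b hev
    · rw [not_or] at hea
      exact hφ e ((hcn e).2 hea) hi.symm
  · intro i hi
    have : i = 0 := by omega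
    subst this
    rw [hfil, G.ev_pair a b hab, h]

/-- a ring which cannot be refined -/
def Ring.Max {L : E → ZMod 2} {m : ℕ} (_ : G.Ring L m) : Prop := ∀ m', m < m' → IsEmpty (G.Ring L m')

theorem exists_max_ring (hG : G.Good) {L : E → ZMod 2} (hL : G.ev L ≠ 0) {a b : E} (hab : a ≠ b)
    (h : G.co a + G.co b = G.ev L) : ∃ (m : ℕ) (R : G.Ring L m), 1 ≤ m ∧ Ring.Max G R := by
  have hcard : ∀ m, Nonempty (G.Ring L m) → m ≤ Fintype.card V := by
    rintro m ⟨R⟩
    have h1 : (Finset.range m) ⊆ (univ : Finset V).image R.h := by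
      intro i hi
      rw [Finset.mem_range] at hi
      obtain ⟨v, hv⟩ := R.surj i hi
      exact Finset.mem_image.2 ⟨v, Finset.mem_univ _, hv⟩
    calc m = (Finset.range m).card := (Finset.card_range m).symm
      _ ≤ ((univ : Finset V).image R.h).card := Finset.card_le_card h1
      _ ≤ (univ : Finset V).card := Finset.card_image_le
      _ = Fintype.card V := Finset.card_univ
  have h1 := ring_one G hG hL hab h
  have h2 : Nonempty (G.Ring L (Nat.findGreatest (fun m => Nonempty (G.Ring L m))
      (Fintype.card V))) := Nat.findGreatest_spec (P := fun m => Nonempty (G.Ring L m))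
        (hcard 1 h1) h1
  obtain ⟨R⟩ := h2
  refine ⟨_, R, Nat.le_findGreatest (hcard 1 h1) h1, ?_⟩
  intro m' hm'
  by_contra h3
  rw [not_isEmpty_iff] at h3
  have := Nat.le_findGreatest (P := fun m => Nonempty (G.Ring L m)) (hcard m' h3) h3
  omega

variable {G}

theorem Ring.Max.inW {L : E → ZMod 2} {m : ℕ} {R : G.Ring L m} (hR : Ring.Max G R) {a b : E}
    (hab : a ≠ b) (h : G.co a + G.co b = G.ev L) : R.InW (G.co a) := by
  by_contra hW
  exact (hR (m + 1) (by omega)).elim (R.refinement hab h hW).some

theorem ev_ind_eq_of {f : E → ZMod 2} {K : Finset E} (h : ∀ e, f e = 1 ↔ e ∈ K) : f = ind K := by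
  funext e
  by_cases h1 : e ∈ K
  · rw [(h e).2 h1]; simp [ind, h1]
  · have : f e = 0 := z2_ne_one fun h2 => h1 ((h e).1 h2)
    rw [this]; simp [ind, h1]

/-- an edge with ends in a union of pieces: its coordinate is the functional of a set of edges
in the boundary of one of the pieces. -/
theorem Ring.local_of_inW {L : E → ZMod 2} {m : ℕ} (R : G.Ring L m) (hm : 2 ≤ m) {a : E}
    (hW : R.InW (G.co a)) :
    ∃ B ⊆ G.del (R.P (R.h (G.s a))), G.ev (ind B) = G.co a := by
  rcases hc : R.c a with _ | j
  · obtain ⟨f, hf, hf'⟩ := hW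
    have h0 : ∃ φ, Pi.single a 1 + f = G.d φ := by
      rw [← ev_eq_iff, ← co_eq, hf']
    obtain ⟨φ, hφ⟩ := h0
    let ψ : V → ZMod 2 := fun v => if R.h v = R.h (G.s a) then φ v else 0
    -- `d ψ + 1_a` is supported in the boundary of the piece
    obtain ⟨g, hg⟩ : ∃ g : E → ZMod 2, g = G.d ψ + Pi.single a 1 := ⟨_, rfl⟩
    have hsupp : ∀ e, g e = 1 → e ∈ G.del (R.P (R.h (G.s a))) := by
      intro e he
      rw [hg] at he
      by_contra hdel
      rw [mem_del, R.mem_P, R.mem_P] at hdel
      rw [Pi.add_apply] at he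
      have hd : G.d ψ e = (if R.h (G.s e) = R.h (G.s a) then φ (G.s e) else 0) +
        (if R.h (G.t e) = R.h (G.s a) then φ (G.t e) else 0) := rfl
      have h1 : (R.h (G.s e) = R.h (G.s a)) ↔ (R.h (G.t e) = R.h (G.s a)) := by tauto
      by_cases h2 : R.h (G.s e) = R.h (G.s a)
      · rw [if_pos h2, if_pos (h1.1 h2)] at hd
        have h3 : R.c e = none := by
          rcases hce : R.c e with _ | k
          · rfl
          · exfalso
            have h4 := h1.1 h2
            rcases k with _ | k
            · have := R.cross0 e hce; omega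
            · have := R.cross e k hce; omega
        have h4 : φ (G.s e) + φ (G.t e) = (Pi.single a 1 : E → ZMod 2) e + f e := by
          have := congrFun hφ e
          rw [Pi.add_apply] at this
          exact this.symm
        rw [hd, h4, hf e h3, add_zero, z2_add_self] at he
        exact z2_one_ne_zero he.symm
      · rw [if_neg h2, if_neg (fun h5 => h2 (h1.2 h5)), add_zero] at hd
        have h3 : e ≠ a := by rintro rfl; exact h2 rfl
        rw [hd, Pi.single_apply, if_neg h3, add_zero] at he
        exact z2_one_ne_zero he.symm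
    refine ⟨univ.filter (fun e => g e = 1), ?_, ?_⟩
    · intro e he
      rw [Finset.mem_filter] at he
      exact hsupp e he.2
    · rw [← ev_ind_eq_of (f := g) (fun e => by simp), hg, ev_add, ev_d, zero_add, co_eq]
  · refine ⟨{a}, ?_, ?_⟩
    · intro e he
      rw [Finset.mem_singleton] at he
      subst he
      rw [mem_del, R.mem_P, R.mem_P]
      left
      refine ⟨rfl, ?_⟩
      rcases j with _ | j
      · have := R.cross0 e hc; omega
      · have := R.cross e j hc; omega
    · rw [co_eq]
      congr 1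
      funext e
      simp [ind, Pi.single_apply]

theorem Ring.card_del_P {L : E → ZMod 2} {m : ℕ} (R : G.Ring L m) (hm : 2 ≤ m) {i : ℕ}
    (hi : i < m) : (G.del (R.P i)).card ≤ 4 := by
  rw [R.del_P hm hi]
  refine (Finset.card_union_le _ _).trans ?_
  have h1 : (R.F i).card = 2 := R.two i hi
  have h2 : (R.F (if i + 1 = m then 0 else i + 1)).card = 2 := by
    apply R.two
    split_ifs <;> omega
  omega

/-- 4.2 for `m ≥ 2`: in a maximal ring, the coordinate of an edge `a` of a cross pair which has an
end in the piece `i` and both ends in the union `X` of some pieces is one of at most 16 functionals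
of a piece contained in `X`. -/
theorem Ring.Max.few (hG : G.Good) {L : E → ZMod 2} (hL : G.ev L ≠ 0) {m : ℕ} {R : G.Ring L m}
    (hR : Ring.Max G R) (hm : 2 ≤ m) (I : Finset ℕ) (hI : ∀ i ∈ I, i < m) {T : ℕ} (a b : Fin T → E)
    (hX : ∀ k, R.h (G.s (a k)) ∈ I ∧ R.h (G.t (a k)) ∈ I)
    (hab : ∀ k, a k ≠ b k ∧ G.co (a k) + G.co (b k) = G.ev L)
    (hinj : Function.Injective (fun k => G.co (a k))) : T ≤ 16 * I.card := by
  let W : Finset (G.Z → ZMod 2) :=
    I.biUnion (fun i => (G.del (R.P i)).powerset.image (fun B => G.ev (ind B)))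
  have hmem : ∀ k, G.co (a k) ∈ W := by
    intro k
    obtain ⟨B, hB, hB'⟩ := R.local_of_inW hm (hR.inW (hab k).1 (hab k).2)
    refine Finset.mem_biUnion.2 ⟨R.h (G.s (a k)), (hX k).1, ?_⟩
    exact Finset.mem_image.2 ⟨B, Finset.mem_powerset.2 hB, hB'⟩
  have hcard : W.card ≤ 16 * I.card := by
    refine Finset.card_biUnion_le.trans ?_
    refine (Finset.sum_le_card_nsmul I _ 16 ?_).trans ?_
    · intro i hi
      refine Finset.card_image_le.trans ?_
      rw [Finset.card_powerset]
      calc 2 ^ (G.del (R.P i)).card ≤ 2 ^ 4 :=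
            Nat.pow_le_pow_right (by norm_num) (R.card_del_P hm (hI i hi))
        _ = 16 := by norm_num
    · rw [smul_eq_mul, mul_comm]
  calc T = (univ : Finset (Fin T)).card := by simp
    _ = (univ.image (fun k => G.co (a k))).card := (Finset.card_image_of_injective _ hinj).symm
    _ ≤ W.card := Finset.card_le_card (by
        intro g hg
        obtain ⟨k, _, rfl⟩ := Finset.mem_image.1 hg
        exact hmem k)
    _ ≤ 16 * I.card := hcard

/-- 4.2 for `m = 1` -/
theorem Ring.Max.few_one (hG : G.Good) {L : E → ZMod 2} (hL : G.ev L ≠ 0) {R : G.Ring L 1}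
    (hR : Ring.Max G R) {T : ℕ} (a b : Fin T → E)
    (hab : ∀ k, a k ≠ b k ∧ G.co (a k) + G.co (b k) = G.ev L)
    (hinj : Function.Injective (fun k => G.co (a k))) : T ≤ 4 := by
  let W : Finset (G.Z → ZMod 2) := (R.F 0).powerset.image (fun B => G.ev (ind B))
  have hmem : ∀ k, G.co (a k) ∈ W := by
    intro k
    obtain ⟨f, hf, hf'⟩ := hR.inW (hab k).1 (hab k).2
    refine Finset.mem_image.2 ⟨univ.filter (fun e => f e = 1), ?_, ?_⟩
    · rw [Finset.mem_powerset]
      intro e he
      rw [Finset.mem_filter] at he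
      rw [R.mem_F]
      rcases hc : R.c e with _ | j
      · rw [hf e hc] at he
        exact absurd he.2 (by decide)
      · have := R.clt e j hc
        congr 1
        omega
    · rw [← hf']
      congr 1
      exact (ev_ind_eq_of (fun e => by simp)).symm
  have hcard : W.card ≤ 4 := by
    refine Finset.card_image_le.trans ?_
    rw [Finset.card_powerset, show (R.F 0).card = 2 from R.two 0 (by norm_num)]
    norm_num
  calc T = (univ : Finset (Fin T)).card := by simp
    _ = (univ.image (fun k => G.co (a k))).card := (Finset.card_image_of_injective _ hinj).symm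
    _ ≤ W.card := Finset.card_le_card (by
        intro g hg
        obtain ⟨k, _, rfl⟩ := Finset.mem_image.1 hg
        exact hmem k)
    _ ≤ 4 := hcard

end MG

end Cyc
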