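import Pool.Agent.Cyc.Ring

/-!
# Section 4.3: conditional independence of non-adjacent pieces of a ring
-/

open Finset
open scoped Classical

namespace Cyc

namespace MG

variable {V E : Type} [Fintype V] [Fintype E] {G : MG V E}

section ringprob

variable {L : E → ZMod 2} {m : ℕ} (R : G.Ring L m)

theorem Ring.rb_mem_P {i : ℕ} {v : V} : v ∈ R.P i ↔ R.h v = i := by
  simp [Ring.P]

theorem Ring.rb_mem_F {i : ℕ} {e : E} : e ∈ R.F i ↔ R.c e = some i := by
  simp [Ring.F]

theorem rb_mem_tch {X : Finset V} {e : E} : e ∈ G.tch X ↔ G.s e ∈ X ∨ G.t e ∈ X := by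
  simp [tch]

theorem rb_mem_inn {X : Finset V} {e : E} : e ∈ G.inn X ↔ G.s e ∈ X ∧ G.t e ∈ X := by
  simp [inn]

/-- index of the piece before the piece `i` -/
def rbPrv (m i : ℕ) : ℕ := if i = 0 then m - 1 else i - 1

/-- edges touching the piece `i` with `i + 1 < m`. -/
theorem Ring.rb_tch_cases {i : ℕ} (hi : i + 1 < m) {e : E} (he : e ∈ G.tch (R.P i)) :
    (R.c e = none ∧ R.h (G.s e) = i ∧ R.h (G.t e) = i) ∨
    (R.c e = some i ∧ ((R.h (G.s e) = i ∧ R.h (G.t e) = rbPrv m i) ∨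
      (R.h (G.s e) = rbPrv m i ∧ R.h (G.t e) = i))) ∨
    (R.c e = some (i + 1) ∧ ((R.h (G.s e) = i ∧ R.h (G.t e) = i + 1) ∨
      (R.h (G.s e) = i + 1 ∧ R.h (G.t e) = i))) := by
  rw [rb_mem_tch, R.rb_mem_P, R.rb_mem_P] at he
  rcases hc : R.c e with _ | j
  · left
    have := R.inner e hc
    refine ⟨rfl, ?_, ?_⟩ <;> omega
  · right
    rcases j with _ | j
    · have := R.cross0 e hc
      left
      rcases i with _ | i
      · refine ⟨rfl, ?_⟩
        unfold rbPrv
        rw [if_pos rfl]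
        omega
      · exfalso; omega
    · have h1 := R.cross e j hc
      by_cases hji : j = i
      · subst hji
        right
        refine ⟨rfl, ?_⟩
        omega
      · left
        have hj : j + 1 = i := by omega
        subst hj
        refine ⟨rfl, ?_⟩
        unfold rbPrv
        simp only [Nat.add_eq_zero_iff, one_ne_zero, and_false, if_false, Nat.add_sub_cancel]
        omega

theorem Ring.rb_F_sub {i : ℕ} (hi : i + 1 < m) : R.F i ⊆ G.tch (R.P i) := by
  intro e he
  rw [R.rb_mem_F] at he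
  rw [rb_mem_tch, R.rb_mem_P, R.rb_mem_P]
  rcases i with _ | i
  · have := R.cross0 e he
    omega
  · have := R.cross e i he
    omega

theorem Ring.rb_F_succ_sub {i : ℕ} (hi : i + 1 < m) : R.F (i + 1) ⊆ G.tch (R.P i) := by
  intro e he
  rw [R.rb_mem_F] at he
  rw [rb_mem_tch, R.rb_mem_P, R.rb_mem_P]
  have := R.cross e i he
  omega

/-- the sum over the edges of `F i` is the value of the functional of the ring -/
theorem Ring.rb_sum_F {i : ℕ} (hi : i < m) (z : G.Z) : ∑ e ∈ R.F i, z.1 e = G.ev L z := by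
  rw [← R.lam i hi]
  unfold ev ind
  rw [Finset.sum_congr rfl (fun e _ => ite_mul _ _ _ _)]
  simp only [one_mul, zero_mul]
  rw [← Finset.sum_filter]
  apply Finset.sum_congr _ (fun _ _ => rfl)
  ext e
  simp [Ring.F]

theorem rb_sum_d_mul (φ : V → ZMod 2) (z : G.Z) : ∑ e, z.1 e * G.d φ e = 0 := by
  have := G.pair_d φ z.1
  rw [Finset.sum_congr rfl (fun e _ => mul_comm _ _), this]
  apply Finset.sum_eq_zero
  intro v _
  rw [show G.bd z.1 v = 0 from z.2 v, mul_zero]

/-- the main computation: a coboundary which vanishes on the inner edges of the two neighbouring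
pieces pairs trivially with `z` on the edges touching the piece. -/
theorem Ring.local_pair {i : ℕ} (hi : i + 1 < m) (φ : V → ZMod 2) (l r : ZMod 2)
    (hl : ∀ v, R.h v = rbPrv m i → φ v = l) (hr : ∀ v, R.h v = i + 1 → φ v = r)
    (y : G.Z) (hy : G.ev L y = 0) : ∑ e ∈ G.tch (R.P i), y.1 e * G.d φ e = 0 := by
  set ψ : V → ZMod 2 := fun v => if R.h v = i then φ v else 0 with hψ
  have hp : rbPrv m i ≠ i := by
    unfold rbPrv
    split_ifs <;> omega
  have h1 : ∀ e ∈ G.tch (R.P i), y.1 e * G.d φ e = y.1 e * G.d ψ e +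
      ((if e ∈ R.F i then l * y.1 e else 0) + (if e ∈ R.F (i + 1) then r * y.1 e else 0)) := by
    intro e he
    simp only [R.rb_mem_F]
    have h2 : i + 1 ≠ i := by omega
    rcases R.rb_tch_cases hi he with ⟨h3, h4, h5⟩ | ⟨h3, h4⟩ | ⟨h3, h4⟩
    · rw [h3]
      simp only [d, hψ, h4, h5, if_true]
      simp
    · rw [h3]
      have h6 : some i ≠ some (i + 1) := by simp
      rw [if_pos rfl, if_neg h6]
      rcases h4 with ⟨h4, h5⟩ | ⟨h4, h5⟩
      · simp only [d, hψ, h4, h5, if_true, if_neg hp, hl _ h5]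
        ring
      · simp only [d, hψ, h4, h5, if_true, if_neg hp, hl _ h4]
        ring
    · rw [h3]
      have h6 : some (i + 1) ≠ some i := by simp
      rw [if_pos rfl, if_neg h6]
      rcases h4 with ⟨h4, h5⟩ | ⟨h4, h5⟩
      · simp only [d, hψ, h4, h5, if_true, if_neg h2, hr _ h5]
        ring
      · simp only [d, hψ, h4, h5, if_true, if_neg h2, hr _ h4]
        ring
  rw [Finset.sum_congr rfl h1, Finset.sum_add_distrib, Finset.sum_add_distrib]
  have h7 : ∑ e ∈ G.tch (R.P i), y.1 e * G.d ψ e = ∑ e, y.1 e * G.d ψ e := by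
    apply Finset.sum_subset (Finset.subset_univ _)
    intro e _ he
    rw [rb_mem_tch, R.rb_mem_P, R.rb_mem_P, not_or] at he
    simp only [d, hψ, if_neg he.1, if_neg he.2]
    simp
  rw [h7, rb_sum_d_mul, ← Finset.sum_filter, ← Finset.sum_filter]
  have h8 : (G.tch (R.P i)).filter (fun e => e ∈ R.F i) = R.F i := by
    ext e
    simp only [Finset.mem_filter]
    exact ⟨fun h => h.2, fun h => ⟨R.rb_F_sub hi h, h⟩⟩
  have h9 : (G.tch (R.P i)).filter (fun e => e ∈ R.F (i + 1)) = R.F (i + 1) := by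
    ext e
    simp only [Finset.mem_filter]
    exact ⟨fun h => h.2, fun h => ⟨R.rb_F_succ_sub hi h, h⟩⟩
  rw [h8, h9, ← Finset.mul_sum, ← Finset.mul_sum, R.rb_sum_F (by omega), R.rb_sum_F hi, hy]
  simp

/-- 4.3: gluing for non-adjacent pieces -/
theorem Ring.glue (hG : G.Good) {L : E → ZMod 2} {m : ℕ} (R : G.Ring L m) (hm : 2 ≤ m)
    (I : Finset ℕ) (hI : ∀ i ∈ I, i + 1 < m) (hI2 : ∀ i ∈ I, i + 1 ∉ I) :
    G.Glue (G.ev L) I (fun i => G.tch (R.P i)) := by
  intro y hy
  rcases I.eq_empty_or_nonempty with rfl | ⟨i₀, hi₀⟩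
  · refine ⟨0, ?_, by simp⟩
    simp [ev]
  -- an edge touches at most one piece with index in `I`
  have huniq : ∀ i ∈ I, ∀ j ∈ I, ∀ e, e ∈ G.tch (R.P i) → e ∈ G.tch (R.P j) → i = j := by
    intro i hi j hj e he he'
    have h1 := R.rb_tch_cases (hI i hi) he
    have h2 := R.rb_tch_cases (hI j hj) he'
    by_contra hne
    have h3 : i + 1 ≠ j := fun h => hI2 i hi (h ▸ hj)
    have h4 : j + 1 ≠ i := fun h => hI2 j hj (h ▸ hi)
    rcases h1 with ⟨h1, _⟩ | ⟨h1, _⟩ | ⟨h1, _⟩ <;> rcases h2 with ⟨h2, _⟩ | ⟨h2, _⟩ | ⟨h2, _⟩ <;>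
      rw [h1] at h2 <;> simp at h2 <;> omega
  set K : Finset E := I.biUnion (fun i => G.tch (R.P i)) with hK
  -- the chain to be extended
  set x : E → ZMod 2 := fun e => if h : ∃ i ∈ I, e ∈ G.tch (R.P i) then (y h.choose).1 e else 0
    with hx
  have hxe : ∀ i ∈ I, ∀ e ∈ G.tch (R.P i), x e = (y i).1 e := by
    intro i hi e he
    have h : ∃ i ∈ I, e ∈ G.tch (R.P i) := ⟨i, hi, he⟩
    simp only [hx]
    rw [dif_pos h, huniq _ h.choose_spec.1 i hi e h.choose_spec.2 he]
  obtain ⟨z, hz, hze⟩ := G.extension K x (by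
    intro φ hφ
    -- `φ` is constant on pieces with index not in `I`
    have hconst : ∀ j, j < m → j ∉ I → ∃ a, ∀ v, R.h v = j → φ v = a := by
      intro j hj hjI
      obtain ⟨u, hu⟩ := R.surj j hj
      refine ⟨φ u, fun v hv => R.conn j hj φ ?_ v u hv hu⟩
      intro e he1 he2
      have h1 : e ∉ K := by
        simp only [hK, Finset.mem_biUnion, not_exists, not_and]
        intro i hi he
        rcases R.rb_tch_cases (hI i hi) he with ⟨_, h3, _⟩ | ⟨h3, _⟩ | ⟨h3, _⟩
        · rw [h3] at he2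
          exact hjI (he2 ▸ hi)
        · rw [h3] at he1; cases he1
        · rw [h3] at he1; cases he1
      have h2 := hφ e h1
      simp only [d] at h2
      exact CharTwo.add_eq_zero.mp h2
    rw [hK, Finset.sum_biUnion]
    · apply Finset.sum_eq_zero
      intro i hi
      have him := hI i hi
      obtain ⟨r, hr⟩ := hconst (i + 1) him (hI2 i hi)
      obtain ⟨l, hl⟩ := hconst (rbPrv m i) (by unfold rbPrv; split_ifs <;> omega) (by
        intro h
        unfold rbPrv at h
        split_ifs at h with h0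
        · have := hI _ h
          omega
        · have := hI2 _ h
          rw [Nat.sub_add_cancel (by omega)] at this
          exact this hi)
      rw [Finset.sum_congr rfl (fun e he => by rw [hxe i hi e he])]
      exact R.local_pair him φ l r hl hr (y i) (hy i hi)
    · intro i hi j hj hij
      rw [Function.onFun, Finset.disjoint_left]
      intro e he he'
      exact hij (huniq i hi j hj e he he'))
  refine ⟨⟨z, hz⟩, ?_, ?_⟩
  · rw [← R.rb_sum_F (by have := hI i₀ hi₀; omega : i₀ < m), ← hy i₀ hi₀,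
      ← R.rb_sum_F (by have := hI i₀ hi₀; omega : i₀ < m) (y i₀)]
    apply Finset.sum_congr rfl
    intro e he
    have h1 := R.rb_F_sub (hI i₀ hi₀) he
    have h2 : e ∈ K := Finset.mem_biUnion.mpr ⟨i₀, hi₀, h1⟩
    rw [← hxe i₀ hi₀ e h1]
    exact hze e h2
  · intro i hi e he
    have h2 : e ∈ K := Finset.mem_biUnion.mpr ⟨i, hi, he⟩
    rw [← hxe i hi e he]
    exact hze e h2

/-- a circuit with `ev L = 1` has no circuit inside a piece -/
theorem Ring.noneIn_of_circ {i : ℕ} (hi : i + 1 < m) (z : G.Z) (hz : G.Circ z.1)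
    (hL : G.ev L z = 1) : G.NoneIn (G.inn (R.P i)) z.1 := by
  intro c hc hcz hin
  rcases hz.2.2 c hc.1 hcz with h | h
  · exact hc.2.1 h
  · subst h
    have h1 : G.ev L z = 0 := by
      rw [← R.rb_sum_F hi]
      apply Finset.sum_eq_zero
      intro e he
      by_contra hne
      have h2 : z.1 e = 1 := by
        generalize z.1 e = w at hne
        revert w; decide
      have h3 := hin e h2
      rw [rb_mem_inn, R.rb_mem_P, R.rb_mem_P] at h3
      have h4 := R.cross e i (R.rb_mem_F.mp he)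
      omega
    rw [h1] at hL
    exact zero_ne_one hL

theorem Ring.dep_noneIn (i : ℕ) :
    G.Dep (G.tch (R.P i)) (fun z => G.NoneIn (G.inn (R.P i)) z.1) := by
  have key : ∀ z z' : G.Z, (∀ e ∈ G.tch (R.P i), z.1 e = z'.1 e) →
      G.NoneIn (G.inn (R.P i)) z.1 → G.NoneIn (G.inn (R.P i)) z'.1 := by
    intro z z' h hn c hc hle hin
    apply hn c hc _ hin
    intro e he
    have h1 := hin e he
    rw [h e (by rw [rb_mem_inn] at h1; rw [rb_mem_tch]; exact Or.inl h1.1)]
    exact hle e he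
  intro z z' h
  exact ⟨key z z' h, key z' z (fun e he => (h e he).symm)⟩

/-- a large subfamily of non-adjacent indices -/
theorem rb_exists_nonadj (I : Finset ℕ) (hI : ∀ i ∈ I, i < m) :
    ∃ J ⊆ I, (∀ i ∈ J, i + 1 < m) ∧ (∀ i ∈ J, i + 1 ∉ J) ∧ (I.card - 1) / 2 ≤ J.card := by
  set I' := I.erase (m - 1) with hI'
  have h1 : I.card - 1 ≤ I'.card := Finset.pred_card_le_card_erase
  have hsub : I' ⊆ I := Finset.erase_subset _ _
  have h2 : ∀ i ∈ I', i + 1 < m := by
    intro i hi
    have h3 := Finset.mem_erase.mp hi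
    have h4 := hI i h3.2
    have h5 := h3.1
    omega
  have h3 := Finset.card_filter_add_card_filter_not (s := I') (fun i => i % 2 = 0)
  by_cases h4 : (I.card - 1) / 2 ≤ (I'.filter (fun i => i % 2 = 0)).card
  · refine ⟨I'.filter (fun i => i % 2 = 0), (Finset.filter_subset _ _).trans hsub, ?_, ?_, h4⟩
    · intro i hi
      exact h2 i (Finset.mem_of_mem_filter i hi)
    · intro i hi hi'
      have h5 := (Finset.mem_filter.mp hi).2
      have h6 := (Finset.mem_filter.mp hi').2
      omega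
  · refine ⟨I'.filter (fun i => ¬ i % 2 = 0), (Finset.filter_subset _ _).trans hsub, ?_, ?_, ?_⟩
    · intro i hi
      exact h2 i (Finset.mem_of_mem_filter i hi)
    · intro i hi hi'
      have h5 := (Finset.mem_filter.mp hi).2
      have h6 := (Finset.mem_filter.mp hi').2
      omega
    · omega

/-- 4.3: bounding the number of imperfect pieces -/
theorem Ring.card_defect (hG : G.Good) {L : E → ZMod 2} (hL : G.ev L ≠ 0) {m : ℕ} (R : G.Ring L m)
    (hm : 2 ≤ m) (η δ : ℝ) (hη : 0 ≤ η) (hη1 : η ≤ 1)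
    (hδ : δ ≤ G.Pr (fun z => G.Circ z.1 ∧ G.ev L z = 1)) (I : Finset ℕ) (hI : ∀ i ∈ I, i < m)
    (hdef : ∀ i ∈ I, G.Pr (fun z => G.NoneIn (G.inn (R.P i)) z.1 ∧ G.ev L z = 1) ≤ (1 - η) / 2) :
    δ ≤ (1 - η) ^ ((I.card - 1) / 2) := by
  obtain ⟨J, hJI, hJ1, hJ2, hJc⟩ := rb_exists_nonadj I hI
  have hglue := R.glue hG hm J hJ1 hJ2
  have hhalf : G.Pr (fun z => G.ev L z = 1) = 1 / 2 := G.Pr_half L hL 1
  have hprod := G.prod_formula J (fun i => G.tch (R.P i)) L hglue 1
    (fun i z => G.NoneIn (G.inn (R.P i)) z.1) (fun i _ => R.dep_noneIn i) (1 / 2) hhalf.symm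
    (by norm_num)
  have h1 : G.Pr (fun z => G.Circ z.1 ∧ G.ev L z = 1) ≤
      G.Pr (fun z => G.ev L z = 1 ∧ ∀ i ∈ J, G.NoneIn (G.inn (R.P i)) z.1) := by
    apply G.Pr_mono
    rintro z ⟨hz, hz1⟩
    exact ⟨hz1, fun i hi => R.noneIn_of_circ (hJ1 i hi) z hz hz1⟩
  have h2 : ∏ i ∈ J, (G.Pr (fun z => G.ev L z = 1 ∧ G.NoneIn (G.inn (R.P i)) z.1) / (1 / 2)) ≤
      (1 - η) ^ J.card := by
    rw [← Finset.prod_const]
    apply Finset.prod_le_prod
    · intro i _
      exact div_nonneg (G.Pr_nonneg _) (by norm_num)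
    · intro i hi
      have h3 := hdef i (hJI hi)
      have h4 : G.Pr (fun z => G.ev L z = 1 ∧ G.NoneIn (G.inn (R.P i)) z.1) ≤
          G.Pr (fun z => G.NoneIn (G.inn (R.P i)) z.1 ∧ G.ev L z = 1) :=
        G.Pr_mono (fun z hz => ⟨hz.2, hz.1⟩)
      linarith
  have h5 : (0 : ℝ) ≤ (1 - η) ^ J.card := pow_nonneg (by linarith) _
  have h6 : (1 - η) ^ J.card ≤ (1 - η) ^ ((I.card - 1) / 2) :=
    pow_le_pow_of_le_one (by linarith) (by linarith) hJc
  rw [hprod] at h1
  linarith

end ringprob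

end MG

end Cyc
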