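import Pool.Agent.Cyc.ThmA
import Pool.Agent.Cyc.RigidCut

/-!
# Theorem B

Assembly of Theorem B from Theorem A, the extraction of minimal sparse sets, the common functional,
the hulls, the cross pairs and the triple lemma.
-/

open Finset
open scoped Classical

set_option linter.unusedSectionVars false

namespace Cyc

namespace MG

variable {V E : Type} [Fintype V] [Fintype E] (G : MG V E)

theorem inn_mono {X Y : Finset V} (h : X ⊆ Y) : G.inn X ⊆ G.inn Y := by
  intro e he
  rw [mem_inn] at he ⊢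
  exact ⟨h he.1, h he.2⟩

theorem Two.mono {G : MG V E} {X Y : Finset V} (h : X ⊆ Y) {z : E → ZMod 2} (hz : G.Two X z) :
    G.Two Y z := by
  obtain ⟨c₁, c₂, h1, h2, h3, h4, h5, h6, h7⟩ := hz
  exact ⟨c₁, c₂, h1, h2, h3, h4, h5, fun e he => G.inn_mono h (h6 e he),
    fun e he => G.inn_mono h (h7 e he)⟩

theorem Rigid.congr {G : MG V E} {L L' : E → ZMod 2} {A : Finset V} (h : G.Rigid L A)
    (he : G.ev L' = G.ev L) : G.Rigid L' A := by
  intro z hz
  exact h z (by rw [← he]; exact hz)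

/-- a nonempty set whose complement is nonempty has a boundary edge (connectedness). -/
theorem del_nonempty (hG : G.Good) {A : Finset V} {u v : V} (hu : u ∈ A) (hv : v ∉ A) :
    (G.del A).Nonempty := by
  by_contra hne
  rw [Finset.not_nonempty_iff_eq_empty] at hne
  have h1 := hG.conn (fun x => if x ∈ A then (1 : ZMod 2) else 0) (by
    intro e
    have h2 : e ∉ G.del A := by rw [hne]; exact Finset.notMem_empty e
    rw [mem_del] at h2
    by_cases hs : G.s e ∈ A <;> by_cases ht : G.t e ∈ A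
    · simp [hs, ht]
    · exact absurd (Or.inl ⟨hs, ht⟩) h2
    · exact absurd (Or.inr ⟨hs, ht⟩) h2
    · simp [hs, ht]) u v
  simp only [hu, hv, if_true, if_false] at h1
  exact z2_one_ne_zero h1

/-- a connected set which meets `X` and which is not touched by an edge of `del X` is, with all the
edges touching it, inside `X`. -/
theorem tch_subset_inn {B X : Finset V} (hB : G.ConnOn B) {u : V} (hu : u ∈ B) (huX : u ∈ X)
    (h : Disjoint (G.tch B) (G.del X)) : G.tch B ⊆ G.inn X := by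
  rw [Finset.disjoint_left] at h
  have h0 : ∀ v ∈ B, v ∈ X := by
    intro v hv
    have h1 := hB (fun x => if x ∈ X then (1 : ZMod 2) else 0) (by
      intro e hs ht
      have h2 : e ∉ G.del X := h (by rw [mem_tch]; exact Or.inl hs)
      rw [mem_del] at h2
      by_cases hs' : G.s e ∈ X <;> by_cases ht' : G.t e ∈ X
      · simp [hs', ht']
      · exact absurd (Or.inl ⟨hs', ht'⟩) h2
      · exact absurd (Or.inr ⟨hs', ht'⟩) h2
      · simp [hs', ht']) u hu v hv
    by_contra hvX
    simp only [huX, hvX, if_true, if_false] at h1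
    exact z2_one_ne_zero h1
  intro e he
  have h2 := h he
  rw [mem_del] at h2
  rw [mem_tch] at he
  rw [mem_inn]
  rcases he with he | he
  · have h3 := h0 _ he
    refine ⟨h3, ?_⟩
    by_contra h4
    exact h2 (Or.inl ⟨h3, h4⟩)
  · have h3 := h0 _ he
    refine ⟨?_, h3⟩
    by_contra h4
    exact h2 (Or.inr ⟨h4, h3⟩)

/-- among pairwise disjoint sets of edges at most `D.card` meet `D`. -/
theorem card_meet_le {α β : Type} (J : Finset α) (K : α → Finset β) (D : Finset β)
    (hK : ∀ i ∈ J, ∀ j ∈ J, i ≠ j → Disjoint (K i) (K j)) :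
    (J.filter (fun j => ¬ Disjoint (K j) D)).card ≤ D.card := by
  by_cases hD : (J.filter (fun j => ¬ Disjoint (K j) D)).Nonempty
  · obtain ⟨j₀, hj₀⟩ := hD
    have hβ : Nonempty β := by
      rw [Finset.mem_filter, Finset.not_disjoint_iff] at hj₀
      obtain ⟨_, a, _, _⟩ := hj₀
      exact ⟨a⟩
    let f : α → β := fun j => if h : ∃ a, a ∈ K j ∧ a ∈ D then h.choose else Classical.arbitrary β
    have hf : ∀ j ∈ J.filter (fun j => ¬ Disjoint (K j) D), f j ∈ K j ∧ f j ∈ D := by
      intro j hj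
      rw [Finset.mem_filter, Finset.not_disjoint_iff] at hj
      have h : ∃ a, a ∈ K j ∧ a ∈ D := hj.2
      have : f j = h.choose := dif_pos h
      rw [this]
      exact h.choose_spec
    refine Finset.card_le_card_of_injOn f (fun j hj => (hf j hj).2) ?_
    intro i hi j hj hij
    by_contra hne
    have hi' := hf i hi
    have hj' := hf j hj
    have := hK i (Finset.mem_filter.1 hi).1 j (Finset.mem_filter.1 hj).1 hne
    rw [Finset.disjoint_left] at this
    apply this hi'.1
    rw [hij]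
    exact hj'.1
  · rw [Finset.not_nonempty_iff_eq_empty] at hD
    rw [hD]
    simp

/-- a function with fibres of size at most two on a set with at least `2 T` elements is injective
on a `T`-element family. -/
theorem exists_inj {α β : Type} (J : Finset α) (g : α → β) (T : ℕ) (hJ : 2 * T ≤ J.card)
    (hg : ∀ x ∈ J, (J.filter (fun y => g y = g x)).card ≤ 2) :
    ∃ s : Fin T → α, (∀ i, s i ∈ J) ∧ Function.Injective (fun i => g (s i)) := by
  have h1 : T ≤ (J.image g).card := by
    have h2 : J.card ≤ 2 * (J.image g).card := by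
      refine Finset.card_le_mul_card_image J 2 ?_
      intro b hb
      obtain ⟨x, hx, rfl⟩ := Finset.mem_image.1 hb
      exact hg x hx
    omega
  obtain ⟨S, hS, hSc⟩ := Finset.exists_subset_card_eq h1
  have h3 : ∀ b : S, ∃ x ∈ J, g x = b.1 := by
    intro b
    obtain ⟨x, hx, h4⟩ := Finset.mem_image.1 (hS b.2)
    exact ⟨x, hx, h4⟩
  choose f hf1 hf2 using h3
  let e : Fin T ≃ S := (Fintype.equivFinOfCardEq (by simpa using hSc)).symm
  refine ⟨fun i => f (e i), fun i => hf1 _, ?_⟩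
  intro i j hij
  simp only [hf2] at hij
  exact e.injective (Subtype.ext hij)

end MG

/-- Theorem B -/
theorem thmB (ε : ℝ) (hε : 0 < ε) (T w : ℕ) : ∃ N : ℕ, ∀ (V E : Type) [Fintype V] [Fintype E]
    (G : MG V E), G.Good → ∀ V₀ : Finset V, (G.del V₀).card ≤ w → N ≤ V₀.card →
    G.Pr (fun z => ¬ G.Two V₀ z.1) ≤ ε ∨
    ∃ L : E → ZMod 2, G.ev L ≠ 0 ∧ G.Pr (fun z => ¬ G.Two V₀ z.1 ∧ G.ev L z = 0) ≤ ε ∧
      ∃ a b : Fin T → E, (∀ i, a i ∈ G.inn V₀ ∧ b i ∈ G.inn V₀ ∧ a i ≠ b i ∧
        G.co (a i) + G.co (b i) = G.ev L) ∧ Function.Injective (fun i => G.co (a i)) := by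
  obtain ⟨n₀, hn₀⟩ := thmA ε hε
  obtain ⟨t, ht⟩ := common ε hε n₀ (2 * T + w + 3)
  obtain ⟨N, hN⟩ := MG.extract n₀ t w
  refine ⟨N, ?_⟩
  intro V E _ _ G hG V₀ hw hV₀
  rcases hN V E G hG V₀ hw hV₀ with ⟨A, hA0, hA, hAc⟩ | ⟨A, hA, hAA⟩
  · left
    refine le_trans (G.Pr_mono ?_) (hn₀ V E G hG A hA hAc)
    intro z hz hz'
    exact hz (MG.Two.mono hA0 hz')
  have hfam : G.Fam n₀ A :=
    { conn := fun i => (MG.MinSparse.connOn G hG (hA i).2.1)
      card := fun i => (hA i).2.2
      circ := fun i => (MG.MinSparse.exists_circ G hG (hA i).2.1)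
      disj := fun i j hij => (hAA i j hij).1
      far := fun i j hij => (hAA i j hij).2 }
  rcases ht V E G hG V₀ A hfam (fun i => (hA i).1) with h | ⟨L, hL, hLP, J, hJ, hF, hrig⟩
  · exact Or.inl h
  right
  refine ⟨L, hL, hLP, ?_⟩
  obtain ⟨B, hB, hBB, hLj⟩ := G.hulls hG hfam L hL J (by omega) hF
  choose! Lj hLj1 hLj2 using hLj
  -- cross pairs
  have hcross : ∀ j ∈ J, ∃ a b : E, a ≠ b ∧ a ∈ G.tch (B j) ∧ b ∈ G.tch (B j) ∧
      G.co a + G.co b = G.ev L := by
    intro j hj
    have h1 : G.Rigid (ind (Lj j)) (A j) := (hrig j hj).congr (hLj2 j hj)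
    have hne : (G.del (A j)).Nonempty := by
      obtain ⟨k, hk, hkj⟩ := Finset.exists_mem_ne (s := J) (by omega) j
      obtain ⟨u, hu⟩ := (hA j).2.1.1.1
      obtain ⟨v, hv⟩ := (hA k).2.1.1.1
      refine G.del_nonempty hG hu (v := v) ?_
      intro hv'
      exact (Finset.disjoint_left.1 (hAA k j hkj).1) hv hv'
    obtain ⟨a, b, hab, ha, hb, h⟩ := G.cross_pair hG (hA j).2.1 hne (hB j hj).1 (hB j hj).2.2.1
      (Lj j) (hLj1 j hj) h1 (by rw [hLj2 j hj]; exact hL)
    exact ⟨a, b, hab, ha, hb, by rw [h, hLj2 j hj]⟩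
  have : Nonempty E := by
    obtain ⟨j, hj⟩ : J.Nonempty := Finset.card_pos.1 (by omega)
    obtain ⟨e, _⟩ := hcross j hj
    exact ⟨e⟩
  choose! a b hab ha hb hsum using hcross
  -- the indices whose hull is inside `V₀`
  let J' : Finset (Fin t) := J.filter (fun j => Disjoint (G.tch (B j)) (G.del V₀))
  have hJ'c : 2 * T ≤ J'.card := by
    have h1 := MG.card_meet_le J (fun j => G.tch (B j)) (G.del V₀)
      (fun i hi j hj hij => (hBB i hi j hj hij).2)
    have h2 : J'.card + (J.filter (fun j => ¬ Disjoint (G.tch (B j)) (G.del V₀))).card = J.card :=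
      Finset.card_filter_add_card_filter_not _
    omega
  have hJ'J : ∀ j ∈ J', j ∈ J := fun j hj => (Finset.mem_filter.1 hj).1
  have hin : ∀ j ∈ J', G.tch (B j) ⊆ G.inn V₀ := by
    intro j hj
    obtain ⟨u, hu⟩ := (hA j).2.1.1.1
    exact G.tch_subset_inn (hB j (hJ'J j hj)).2.1 ((hB j (hJ'J j hj)).1 hu) ((hA j).1 hu)
      (Finset.mem_filter.1 hj).2
  have hfib : ∀ x ∈ J', (J'.filter (fun y => G.co (a y) = G.co (a x))).card ≤ 2 := by
    intro x hx
    by_contra hcon
    push Not at hcon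
    obtain ⟨i, j, k, hi, hj, hk, hij, hik, hjk⟩ := Finset.two_lt_card_iff.1 hcon
    rw [Finset.mem_filter] at hi hj hk
    let q : Fin 3 → Fin t := ![i, j, k]
    have hq : ∀ m, q m ∈ J' := by
      intro m
      fin_cases m
      · exact hi.1
      · exact hj.1
      · exact hk.1
    have hqe : ∀ m, G.co (a (q m)) = G.co (a x) := by
      intro m
      fin_cases m
      · exact hi.2
      · exact hj.2
      · exact hk.2
    have hqn : ∀ m m', m ≠ m' → q m ≠ q m' := by
      intro m m' hmm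
      fin_cases m <;> fin_cases m' <;> simp [q] at hmm ⊢ <;> first | exact hij | exact hik | exact hjk | exact hij.symm | exact hik.symm | exact hjk.symm
    have hthree : G.Three (fun m => B (q m)) :=
      { conn := fun m => (hB _ (hJ'J _ (hq m))).2.1
        nonempty := fun m => by
          obtain ⟨u, hu⟩ := (hA (q m)).2.1.1.1
          exact ⟨u, (hB _ (hJ'J _ (hq m))).1 hu⟩
        disj := fun m m' h => (hBB _ (hJ'J _ (hq m)) _ (hJ'J _ (hq m')) (hqn m m' h)).1
        far := fun m m' h => (hBB _ (hJ'J _ (hq m)) _ (hJ'J _ (hq m')) (hqn m m' h)).2 }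
    refine G.triple_pair hG hthree (fun m => a (q m)) (fun m => b (q m))
      (fun m => ha _ (hJ'J _ (hq m))) (fun m => hb _ (hJ'J _ (hq m)))
      (fun m => hab _ (hJ'J _ (hq m))) ?_ ?_ ?_
    · intro m
      rw [hsum _ (hJ'J _ (hq m)), hsum _ (hJ'J _ (hq 0))]
    · rw [hsum _ (hJ'J _ (hq 0))]
      exact hL
    · intro m
      rw [hqe m, hqe 0]
  obtain ⟨s, hs1, hs2⟩ := MG.exists_inj J' (fun j => G.co (a j)) T hJ'c
    (fun x hx => le_trans (le_of_eq (by congr)) (hfib x hx))
  refine ⟨fun i => a (s i), fun i => b (s i), ?_, hs2⟩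
  intro i
  have hi := hJ'J _ (hs1 i)
  exact ⟨hin _ (hs1 i) (ha _ hi), hin _ (hs1 i) (hb _ hi), hab _ hi, hsum _ hi⟩

end Cyc
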