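import Pool.Agent.Cyc.RingProb
import Pool.Agent.Cyc.ThmB

/-!
# Sections 4.4, 4.5: structure theorem
-/

open Finset
open scoped Classical

namespace Cyc

namespace MG

variable {V E : Type} [Fintype V] [Fintype E] (G : MG V E)

/-- the piece `i` of a ring is perfect: no element of the cycle space with `ev L = 1` has a circuit
inside it. -/
def Ring.Perfect {L : E → ZMod 2} {m : ℕ} (R : G.Ring L m) (i : ℕ) : Prop :=
  ∀ z : G.Z, G.ev L z = 1 → G.NoneIn (G.inn (R.P i)) z.1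

/-- a run: pieces `a, ..., a + q - 1` of a ring, perfect and with at most `Nb` vertices. -/
structure Run (Nb : ℕ) where
  /-- the functional -/
  L : E → ZMod 2
  /-- length of the ring -/
  m : ℕ
  /-- the ring -/
  R : G.Ring L m
  /-- first piece -/
  a : ℕ
  /-- number of pieces -/
  q : ℕ
  hL : G.ev L ≠ 0
  hm : 2 ≤ m
  ha : 1 ≤ a
  hq : a + q ≤ m
  perfect : ∀ i, a ≤ i → i < a + q → Ring.Perfect G R i
  small : ∀ i, a ≤ i → i < a + q → (R.P i).card ≤ Nb

variable {G}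

/-- the vertices of a run -/
noncomputable def Run.Y {Nb : ℕ} (r : G.Run Nb) : Finset V :=
  univ.filter (fun v => r.a ≤ r.R.h v ∧ r.R.h v < r.a + r.q)

variable (G)

/-! ### the bound on the number of nearly forced functionals -/

theorem sum_filter_chi (S : G.Z → Prop) (f : E → ZMod 2) :
    ∑ z ∈ univ.filter S, chi (G.ev f z) =
      2 * (G.cnt (fun z => S z ∧ G.ev f z = 0) : ℝ) - (G.cnt S : ℝ) := by
  have h1 := G.cnt_add_not S (fun z => G.ev f z = 0)
  have h2 : ∑ z ∈ univ.filter S, chi (G.ev f z) =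
      ∑ z ∈ (univ.filter S).filter (fun z => G.ev f z = 0), chi (G.ev f z) +
      ∑ z ∈ (univ.filter S).filter (fun z => ¬ G.ev f z = 0), chi (G.ev f z) :=
    (Finset.sum_filter_add_sum_filter_not _ _ _).symm
  have h3 : ∑ z ∈ (univ.filter S).filter (fun z => G.ev f z = 0), chi (G.ev f z) =
      (G.cnt (fun z => S z ∧ G.ev f z = 0) : ℝ) := by
    rw [Finset.sum_congr rfl (g := fun _ => (1 : ℝ))]
    · rw [Finset.filter_filter, Finset.sum_const, nsmul_eq_mul, mul_one]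
      unfold cnt
      congr 2
      ext z
      simp
    · intro z hz
      rw [(Finset.mem_filter.1 hz).2]
      simp [chi]
  have h4 : ∑ z ∈ (univ.filter S).filter (fun z => ¬ G.ev f z = 0), chi (G.ev f z) =
      -(G.cnt (fun z => S z ∧ ¬ G.ev f z = 0) : ℝ) := by
    rw [Finset.sum_congr rfl (g := fun _ => (-1 : ℝ))]
    · rw [Finset.filter_filter, Finset.sum_const, nsmul_eq_mul, mul_neg, mul_one]
      unfold cnt
      congr 3
      ext z
      simp
    · intro z hz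
      simp [chi, (Finset.mem_filter.1 hz).2]
  rw [h2, h3, h4, ← h1]
  push_cast
  ring

theorem card_forced (S : G.Z → Prop) (δ : ℝ) (hδ : 0 < δ) (hS : δ ≤ G.Pr S)
    (F : Finset (G.Z → ZMod 2)) (hF : ∀ Λ ∈ F, ∃ f, Λ = G.ev f ∧
      G.Pr (fun z => S z ∧ G.ev f z = 0) ≤ δ / 8) : (F.card : ℝ) * δ ^ 2 ≤ 4 := by
  set N : ℝ := (Fintype.card G.Z : ℝ) with hN
  have hN0 : 0 < N := G.card_Z_pos'
  set X : G.Z → ℝ := fun z => ∑ Λ ∈ F, chi (Λ z) with hX
  -- orthogonality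
  have h1 : ∑ z, X z ^ 2 = F.card * N := by
    have e1 : ∀ z, X z ^ 2 = ∑ Λ ∈ F, ∑ Λ' ∈ F, chi (Λ z) * chi (Λ' z) := by
      intro z
      simp only [hX]
      rw [sq, Finset.sum_mul_sum]
    rw [Finset.sum_congr rfl (fun z _ => e1 z), Finset.sum_comm]
    have e2 : ∀ Λ ∈ F, ∑ z, ∑ Λ' ∈ F, chi (Λ z) * chi (Λ' z) = N := by
      intro Λ hΛ
      rw [Finset.sum_comm]
      obtain ⟨f, rfl, _⟩ := hF Λ hΛ
      have e3 : ∀ Λ' ∈ F, ∑ z, chi (G.ev f z) * chi (Λ' z) = if G.ev f = Λ' then N else 0 := by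
        intro Λ' hΛ'
        obtain ⟨f', rfl, _⟩ := hF Λ' hΛ'
        have e4 : ∀ z, chi (G.ev f z) * chi (G.ev f' z) = chi (G.ev (f + f') z) := by
          intro z
          rw [G.ev_add, Pi.add_apply, chi_add]
        rw [Finset.sum_congr rfl (fun z _ => e4 z), G.sum_chi]
        have e5 : G.ev (f + f') = 0 ↔ G.ev f = G.ev f' := by
          rw [G.ev_add]
          constructor
          · intro h
            funext z
            exact z2_add_eq_zero.1 (congrFun h z)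
          · intro h
            rw [h]
            funext z
            exact z2_add_self _
        by_cases h : G.ev f = G.ev f'
        · rw [if_pos h, if_pos (e5.2 h)]
        · rw [if_neg h, if_neg (fun h' => h (e5.1 h'))]
      rw [Finset.sum_congr rfl e3, Finset.sum_ite_eq, if_pos hΛ]
    rw [Finset.sum_congr rfl e2, Finset.sum_const, nsmul_eq_mul]
  -- the correlation
  have h2 : ∑ z ∈ univ.filter S, X z ≤ -(F.card * (3 / 4 * δ * N)) := by
    simp only [hX]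
    rw [Finset.sum_comm]
    have e1 : ∀ Λ ∈ F, ∑ z ∈ univ.filter S, chi (Λ z) ≤ -(3 / 4 * δ * N) := by
      intro Λ hΛ
      obtain ⟨f, rfl, hf⟩ := hF Λ hΛ
      rw [G.sum_filter_chi]
      rw [Pr_eq_cnt, div_le_iff₀ G.card_Z_pos'] at hf
      rw [Pr_eq_cnt, le_div_iff₀ G.card_Z_pos'] at hS
      have e2 : (G.cnt (fun z => S z ∧ G.ev f z = 0) : ℝ) ≤ δ / 8 * N := hf
      have e3 : δ * N ≤ (G.cnt S : ℝ) := hS
      nlinarith
    calc ∑ Λ ∈ F, ∑ z ∈ univ.filter S, chi (Λ z) ≤ ∑ Λ ∈ F, -(3 / 4 * δ * N) :=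
          Finset.sum_le_sum e1
      _ = -(F.card * (3 / 4 * δ * N)) := by
          rw [Finset.sum_const, nsmul_eq_mul]; ring
  -- Cauchy-Schwarz
  have h3 : (∑ z ∈ univ.filter S, X z) ^ 2 ≤ N * (F.card * N) := by
    calc (∑ z ∈ univ.filter S, X z) ^ 2 ≤ ((univ.filter S).card : ℝ) * ∑ z ∈ univ.filter S, X z ^ 2 :=
          sq_sum_le_card_mul_sum_sq
      _ ≤ N * ∑ z, X z ^ 2 := by
          apply mul_le_mul
          · rw [hN]
            exact_mod_cast Finset.card_le_univ _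
          · exact Finset.sum_le_sum_of_subset_of_nonneg (Finset.subset_univ _)
              (fun _ _ _ => sq_nonneg _)
          · exact Finset.sum_nonneg (fun _ _ => sq_nonneg _)
          · exact hN0.le
      _ = N * (F.card * N) := by rw [h1]
  have h4 : (F.card * (3 / 4 * δ * N)) ^ 2 ≤ (∑ z ∈ univ.filter S, X z) ^ 2 := by
    have e1 : 0 ≤ (F.card : ℝ) * (3 / 4 * δ * N) := by positivity
    nlinarith
  have h5 := h4.trans h3
  rcases F.card.eq_zero_or_pos with h0 | h0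
  · rw [h0]; norm_num
  have h0' : (0 : ℝ) < F.card := by exact_mod_cast h0
  have h6 : (F.card : ℝ) * N ^ 2 * ((F.card : ℝ) * δ ^ 2 * (9 / 16)) ≤ (F.card : ℝ) * N ^ 2 * 1 := by
    nlinarith
  have h7 : (F.card : ℝ) * δ ^ 2 * (9 / 16) ≤ 1 := le_of_mul_le_mul_left h6 (by positivity)
  linarith

/-! ### defects of pieces -/

theorem not_two_of_noneIn {X : Finset V} {z : E → ZMod 2} (h : G.NoneIn (G.inn X) z) :
    ¬ G.Two X z := by
  rintro ⟨c₁, c₂, h1, h2, h3, h4, h5, h6, h7⟩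
  exact h c₁ h1 h4 h6

theorem not_two_of_circ {X : Finset V} {z : E → ZMod 2} (h : G.Circ z) : ¬ G.Two X z := by
  rintro ⟨c₁, c₂, h1, h2, h3, h4, h5, h6, h7⟩
  apply h3
  have e1 := (h.2.2 c₁ h1.1 h4).resolve_left h1.2.1
  have e2 := (h.2.2 c₂ h2.1 h5).resolve_left h2.2.1
  rw [e1, e2]

theorem Ring.card_inn_P {G : MG V E} (hG : G.Good) {L : E → ZMod 2} {m : ℕ} (R : G.Ring L m) {i Nb : ℕ}
    (h : (R.P i).card ≤ Nb) : (G.inn (R.P i)).card ≤ 3 * Nb := by
  have := G.two_inn hG (R.P i)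
  omega

end MG

/-- 4.4: big pieces of a maximal ring are imperfect -/
theorem exists_big : ∃ N : ℕ, ∀ (V E : Type) [Fintype V] [Fintype E] (G : MG V E), G.Good →
    ∀ (L : E → ZMod 2), G.ev L ≠ 0 → ∀ (m : ℕ) (R : G.Ring L m), MG.Ring.Max G R → 2 ≤ m →
    ∀ i, i < m → N ≤ (R.P i).card →
    G.Pr (fun z => G.NoneIn (G.inn (R.P i)) z.1 ∧ G.ev L z = 1) ≤ (1 - 1 / 4) / 2 := by
  obtain ⟨N, hN⟩ := thmB (1 / 8) (by norm_num) 17 4
  refine ⟨N, ?_⟩
  intro V E _ _ G hG L hL m R hR hm i hi hc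
  rcases hN V E G hG (R.P i) (R.card_del_P hm hi) hc with h | ⟨L', hL', hP, a, b, hab, hinj⟩
  · refine le_trans (G.Pr_mono ?_) (h.trans (by norm_num))
    intro z hz
    exact G.not_two_of_noneIn hz.1
  by_cases hLL : G.ev L' = G.ev L
  · exfalso
    have h1 := MG.Ring.Max.few hG hL hR hm {i} (by simpa using hi) a b
      (by
        intro k
        have h2 := (hab k).1
        rw [MG.mem_inn, R.rb_mem_P, R.rb_mem_P] at h2
        simpa using h2)
      (fun k => ⟨(hab k).2.2.1, by rw [(hab k).2.2.2, hLL]⟩) hinj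
    simp at h1
  · have h1 := G.Pr_quarter L L' hL hL' (fun h => hLL h.symm) 1 1
    have h2 : G.Pr (fun z => G.NoneIn (G.inn (R.P i)) z.1 ∧ G.ev L z = 1) ≤
        G.Pr (fun z => (¬ G.Two (R.P i) z.1 ∧ G.ev L' z = 0) ∨ (G.ev L z = 1 ∧ G.ev L' z = 1)) := by
      apply G.Pr_mono
      rintro z ⟨hz1, hz2⟩
      rcases z2_cases (G.ev L' z) with h | h
      · exact Or.inl ⟨G.not_two_of_noneIn hz1, h⟩
      · exact Or.inr ⟨hz2, h⟩
    have h3 := G.Pr_or_le (fun z => ¬ G.Two (R.P i) z.1 ∧ G.ev L' z = 0)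
      (fun z => G.ev L z = 1 ∧ G.ev L' z = 1)
    linarith

namespace MG

variable {V E : Type} [Fintype V] [Fintype E] {G : MG V E}

/-- small imperfect pieces -/
theorem Ring.defect_small (hG : G.Good) {L : E → ZMod 2} (hL : G.ev L ≠ 0) {m : ℕ} (R : G.Ring L m)
    {i Nb : ℕ} (hc : (R.P i).card ≤ Nb) (hp : ¬ Ring.Perfect G R i) :
    G.Pr (fun z => G.NoneIn (G.inn (R.P i)) z.1 ∧ G.ev L z = 1) ≤ (1 - (1 / 2) ^ (3 * Nb)) / 2 := by
  unfold Ring.Perfect NoneIn at hp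
  push Not at hp
  obtain ⟨z₀, hz₀, c, hc1, hc2, hc3⟩ := hp
  have h1 := G.Pr_pattern L 1 (G.inn (R.P i)) z₀ hz₀
  rw [G.Pr_half L hL] at h1
  have h2 : (1 / 2 : ℝ) ^ (3 * Nb) ≤ (1 / 2 : ℝ) ^ (G.inn (R.P i)).card :=
    pow_le_pow_of_le_one (by norm_num) (by norm_num) (R.card_inn_P hG hc)
  have h3 := G.Pr_add_not (fun z => G.ev L z = 1) (fun z => G.NoneIn (G.inn (R.P i)) z.1)
  rw [G.Pr_half L hL] at h3
  have h4 : G.Pr (fun z => G.ev L z = 1 ∧ ∀ e ∈ G.inn (R.P i), z.1 e = z₀.1 e) ≤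
      G.Pr (fun z => G.ev L z = 1 ∧ ¬ G.NoneIn (G.inn (R.P i)) z.1) := by
    apply G.Pr_mono
    rintro z ⟨hz1, hz2⟩
    refine ⟨hz1, fun h => ?_⟩
    apply h c hc1 _ hc3
    intro e he
    rw [hz2 e (hc3 e he)]
    exact hc2 e he
  have h5 : G.Pr (fun z => G.NoneIn (G.inn (R.P i)) z.1 ∧ G.ev L z = 1) =
      G.Pr (fun z => G.ev L z = 1 ∧ G.NoneIn (G.inn (R.P i)) z.1) :=
    G.Pr_congr fun z => and_comm
  linarith

/-- the runs of a ring: the indices which are not in `Bad` are perfect and small. -/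
theorem Ring.exists_runs {L : E → ZMod 2} (hL : G.ev L ≠ 0) {m : ℕ} (R : G.Ring L m) (hm : 2 ≤ m)
    (Nb : ℕ) (Bad : Finset ℕ)
    (hBad : ∀ i, 1 ≤ i → i < m → i ∉ Bad → Ring.Perfect G R i ∧ (R.P i).card ≤ Nb) :
    ∃ runs : List (G.Run Nb), runs.length ≤ Bad.card + 1 ∧
      ∀ v, 1 ≤ R.h v → R.h v ∉ Bad → ∃ r ∈ runs, v ∈ r.Y := by
  -- for every `b < m` the maximal run starting with `b + 1`
  have key : ∀ b : ℕ, b < m → ∃ r : G.Run Nb, ∀ v, b < R.h v →
      (∀ i, b < i → i ≤ R.h v → i ∉ Bad) → v ∈ r.Y := by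
    intro b hb
    have hex : ∃ j, b < j ∧ (j = m ∨ j ∈ Bad) := ⟨m, hb, Or.inl rfl⟩
    set j := Nat.find hex with hj
    obtain ⟨h1, h2⟩ := Nat.find_spec hex
    have hjm : j ≤ m := Nat.find_min' hex ⟨hb, Or.inl rfl⟩
    have h3 : ∀ i, b + 1 ≤ i → i < b + 1 + (j - (b + 1)) → i ∉ Bad ∧ i < m := by
      intro i hi1 hi2
      have hij : i < j := by omega
      refine ⟨fun h => ?_, by omega⟩
      exact Nat.find_min hex hij ⟨hi1, Or.inr h⟩
    refine ⟨{ L := L, m := m, R := R, a := b + 1, q := j - (b + 1), hL := hL, hm := hm,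
              ha := by omega, hq := by omega
              perfect := fun i hi1 hi2 => (hBad i (by omega) (h3 i hi1 hi2).2 (h3 i hi1 hi2).1).1
              small := fun i hi1 hi2 => (hBad i (by omega) (h3 i hi1 hi2).2 (h3 i hi1 hi2).1).2 },
      ?_⟩
    intro v hv1 hv2
    simp only [Run.Y, Finset.mem_filter, Finset.mem_univ, true_and]
    refine ⟨hv1, ?_⟩
    have h4 : R.h v < j := by
      by_contra hcon
      push Not at hcon
      rcases h2 with h2 | h2
      · have := R.hlt v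
        omega
      · exact hv2 j h1 hcon h2
    omega
  haveI : Nonempty (G.Run Nb) := ⟨(key 0 (by omega)).choose⟩
  choose! f hf using key
  refine ⟨(((insert 0 Bad).filter (fun b => b < m)).toList.map f), ?_, ?_⟩
  · rw [List.length_map, Finset.length_toList]
    exact (Finset.card_filter_le _ _).trans (Finset.card_insert_le _ _)
  · intro v hv1 hv2
    -- the last bad index before the piece of `v`
    have hne : (((insert 0 Bad).filter (fun b => b < R.h v))).Nonempty :=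
      ⟨0, by simp only [Finset.mem_filter, Finset.mem_insert, true_or, true_and]; omega⟩
    set b := (((insert 0 Bad).filter (fun b => b < R.h v))).max' hne with hb
    have hb1 := Finset.max'_mem _ hne
    rw [← hb, Finset.mem_filter] at hb1
    have hbm : b < m := hb1.2.trans (R.hlt v)
    refine ⟨f b, ?_, ?_⟩
    · rw [List.mem_map]
      exact ⟨b, by rw [Finset.mem_toList, Finset.mem_filter]; exact ⟨hb1.1, hbm⟩, rfl⟩
    · apply hf b hbm v hb1.2
      intro i hi1 hi2 hi3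
      rcases hi2.eq_or_lt with h | h
      · exact hv2 (h ▸ hi3)
      · have := Finset.le_max' ((insert 0 Bad).filter (fun b => b < R.h v)) i (by
          rw [Finset.mem_filter]
          exact ⟨Finset.mem_insert_of_mem hi3, h⟩)
        rw [← hb] at this
        omega

theorem del_biUnion_subset {ι : Type} (I : Finset ι) (X : ι → Finset V) :
    G.del (I.biUnion X) ⊆ I.biUnion (fun i => G.del (X i)) := by
  intro e he
  rw [mem_del] at he
  rw [Finset.mem_biUnion]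
  rcases he with ⟨h1, h2⟩ | ⟨h1, h2⟩
  · obtain ⟨i, hi, h3⟩ := Finset.mem_biUnion.1 h1
    refine ⟨i, hi, ?_⟩
    rw [mem_del]
    exact Or.inl ⟨h3, fun h => h2 (Finset.mem_biUnion.2 ⟨i, hi, h⟩)⟩
  · obtain ⟨i, hi, h3⟩ := Finset.mem_biUnion.1 h2
    refine ⟨i, hi, ?_⟩
    rw [mem_del]
    exact Or.inr ⟨fun h => h1 (Finset.mem_biUnion.2 ⟨i, hi, h⟩), h3⟩

end MG

theorem exists_exp_bound (η δ : ℝ) (hη : 0 < η) (hη1 : η ≤ 1) (hδ : 0 < δ) :
    ∃ C : ℕ, ∀ n : ℕ, δ ≤ (1 - η) ^ ((n - 1) / 2) → n ≤ C := by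
  obtain ⟨k, hk⟩ := exists_pow_lt_of_lt_one hδ (show 1 - η < 1 by linarith)
  refine ⟨2 * k, fun n hn => ?_⟩
  have h1 : (n - 1) / 2 < k := by
    by_contra hcon
    push Not at hcon
    have := pow_le_pow_of_le_one (show (0 : ℝ) ≤ 1 - η by linarith) (by linarith) hcon
    linarith
  omega

/-- the data of one maximal ring -/
theorem ring_data (δ : ℝ) (hδ : 0 < δ) : ∃ C₁ C₂ Nb : ℕ, ∀ (V E : Type) [Fintype V] [Fintype E]
    (G : MG V E), G.Good → ∀ (L : E → ZMod 2), G.ev L ≠ 0 → ∀ (m : ℕ) (R : G.Ring L m),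
    MG.Ring.Max G R → 2 ≤ m → δ ≤ G.Pr (fun z => G.Circ z.1 ∧ G.ev L z = 1) →
    ∃ (D core : Finset V) (runs : List (G.Run Nb)), (G.del D).card ≤ 4 * C₁ ∧
      core.card ≤ (C₂ + 1) * Nb ∧ runs.length ≤ C₁ + C₂ + 1 ∧
      (∀ v, v ∈ D ∨ v ∈ core ∨ ∃ r ∈ runs, v ∈ r.Y) ∧
      ∀ (T : ℕ) (a b : Fin T → E), (∀ k, a k ∈ G.inn D) →
        (∀ k, a k ≠ b k ∧ G.co (a k) + G.co (b k) = G.ev L) →
        Function.Injective (fun k => G.co (a k)) → T ≤ 16 * C₁ := by
  obtain ⟨Nb, hNb⟩ := exists_big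
  obtain ⟨C₁, hC₁⟩ := exists_exp_bound (1 / 4) δ (by norm_num) (by norm_num) hδ
  obtain ⟨C₂, hC₂⟩ := exists_exp_bound ((1 / 2) ^ (3 * Nb)) δ (by positivity)
    (pow_le_one₀ (by norm_num) (by norm_num)) hδ
  refine ⟨C₁, C₂, Nb, ?_⟩
  intro V E _ _ G hG L hL m R hR hm hP
  set Big : Finset ℕ := (Finset.range m).filter (fun i => Nb ≤ (R.P i).card) with hBig
  set Imp : Finset ℕ := (Finset.range m).filter (fun i => (R.P i).card ≤ Nb ∧
    ¬ MG.Ring.Perfect G R i) with hImp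
  have hBigm : ∀ i ∈ Big, i < m := fun i hi => Finset.mem_range.1 (Finset.mem_filter.1 hi).1
  have hImpm : ∀ i ∈ Imp, i < m := fun i hi => Finset.mem_range.1 (Finset.mem_filter.1 hi).1
  have hB : Big.card ≤ C₁ := by
    apply hC₁
    refine R.card_defect hG hL hm (1 / 4) δ (by norm_num) (by norm_num) hP Big hBigm ?_
    intro i hi
    exact hNb V E G hG L hL m R hR hm i (hBigm i hi) (Finset.mem_filter.1 hi).2
  have hI : Imp.card ≤ C₂ := by
    apply hC₂
    refine R.card_defect hG hL hm ((1 / 2) ^ (3 * Nb)) δ (by positivity)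
      (pow_le_one₀ (by norm_num) (by norm_num)) hP Imp hImpm ?_
    intro i hi
    exact R.defect_small hG hL (Finset.mem_filter.1 hi).2.1 (Finset.mem_filter.1 hi).2.2
  obtain ⟨runs, hr1, hr2⟩ := R.exists_runs hL hm Nb (Big ∪ Imp) (by
    intro i hi1 him hi
    rw [Finset.mem_union, not_or] at hi
    have h1 : (R.P i).card ≤ Nb := by
      by_contra hcon
      apply hi.1
      rw [hBig, Finset.mem_filter]
      exact ⟨Finset.mem_range.2 him, by omega⟩
    refine ⟨?_, h1⟩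
    by_contra hcon
    apply hi.2
    rw [hImp, Finset.mem_filter]
    exact ⟨Finset.mem_range.2 him, h1, hcon⟩)
  refine ⟨Big.biUnion (fun i => R.P i), ((insert 0 Imp).filter (fun i => (R.P i).card ≤ Nb)).biUnion (fun i => R.P i),
    runs, ?_, ?_, ?_, ?_, ?_⟩
  · refine (Finset.card_le_card (MG.del_biUnion_subset Big _)).trans ?_
    refine (Finset.card_biUnion_le_card_mul Big _ 4 ?_).trans ?_
    · intro i hi
      exact R.card_del_P hm (hBigm i hi)
    · rw [mul_comm]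
      exact Nat.mul_le_mul_left 4 hB
  · refine (Finset.card_biUnion_le_card_mul _ _ Nb ?_).trans ?_
    · intro i hi
      exact (Finset.mem_filter.1 hi).2
    · apply Nat.mul_le_mul_right
      refine (Finset.card_filter_le _ _).trans ((Finset.card_insert_le _ _).trans ?_)
      omega
  · have := Finset.card_union_le Big Imp
    omega
  · intro v
    have hvm := R.hlt v
    by_cases h1 : R.h v ∈ Big
    · left
      rw [Finset.mem_biUnion]
      exact ⟨_, h1, R.rb_mem_P.2 rfl⟩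
    right
    have h4 : (R.P (R.h v)).card ≤ Nb := by
      by_contra hcon
      apply h1
      rw [hBig, Finset.mem_filter]
      exact ⟨Finset.mem_range.2 hvm, by omega⟩
    by_cases h2 : R.h v ∈ insert 0 Imp
    · left
      rw [Finset.mem_biUnion]
      exact ⟨_, Finset.mem_filter.2 ⟨h2, h4⟩, R.rb_mem_P.2 rfl⟩
    right
    rw [Finset.mem_insert, not_or] at h2
    apply hr2 v (by omega)
    rw [Finset.mem_union, not_or]
    exact ⟨h1, h2.2⟩
  · intro T a b ha hab hinj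
    have h1 := MG.Ring.Max.few hG hL hR hm Big hBigm a b (by
      intro k
      have h2 := ha k
      rw [MG.mem_inn, Finset.mem_biUnion, Finset.mem_biUnion] at h2
      obtain ⟨⟨i, hi, hi'⟩, j, hj, hj'⟩ := h2
      rw [R.rb_mem_P] at hi' hj'
      rw [hi', hj']
      exact ⟨hi, hj⟩) hab hinj
    exact h1.trans (Nat.mul_le_mul_left 16 hB)

/-- structure theorem -/
theorem structure_thm (δ : ℝ) (hδ : 0 < δ) : ∃ C p Nb : ℕ, ∀ (V E : Type) [Fintype V] [Fintype E]
    (G : MG V E), G.Good → δ ≤ G.Pr (fun z => G.Circ z.1) →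
    ∃ (core : Finset V) (runs : List (G.Run Nb)), core.card ≤ C ∧ runs.length ≤ p ∧
      ∀ v, v ∈ core ∨ ∃ r ∈ runs, v ∈ r.Y := by
  obtain ⟨C₁, C₂, Nb, hdata⟩ := ring_data (δ / 2) (by positivity)
  obtain ⟨M, hM⟩ := exists_nat_ge (4 / δ ^ 2)
  obtain ⟨N, hN⟩ := thmB (δ / 8) (by positivity) (16 * C₁ + 17) (M * (4 * C₁))
  refine ⟨N + M * ((C₂ + 1) * Nb), M * (C₁ + C₂ + 1), Nb, ?_⟩
  intro V E _ _ G hG hS
  -- the nearly forced functionals with a maximal ring
  set F : Finset (G.Z → ZMod 2) := univ.filter (fun Λ => ∃ f, Λ = G.ev f ∧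
    G.Pr (fun z => G.Circ z.1 ∧ G.ev f z = 0) ≤ δ / 8) with hF
  set F' : Finset (G.Z → ZMod 2) := F.filter (fun Λ => ∃ (L : E → ZMod 2) (m : ℕ) (R : G.Ring L m),
    G.ev L = Λ ∧ 2 ≤ m ∧ MG.Ring.Max G R) with hF'
  have hFc : F.card ≤ M := by
    have h1 := G.card_forced (fun z => G.Circ z.1) δ hδ hS F (by
      intro Λ hΛ
      exact (Finset.mem_filter.1 hΛ).2)
    have h2 : (F.card : ℝ) ≤ 4 / δ ^ 2 := by
      rw [le_div_iff₀ (by positivity)]
      exact h1
    exact_mod_cast h2.trans hM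
  have hFc' : F'.card ≤ M := (Finset.card_filter_le _ _).trans hFc
  -- functionals in `F`
  have hFmem : ∀ L : E → ZMod 2, G.ev L ∈ F → G.ev L ≠ 0 ∧
      δ / 2 ≤ G.Pr (fun z => G.Circ z.1 ∧ G.ev L z = 1) := by
    intro L hL
    obtain ⟨f, hf, hP⟩ := (Finset.mem_filter.1 hL).2
    rw [← hf] at hP
    have h1 := G.Pr_add_not (fun z => G.Circ z.1) (fun z => G.ev L z = 0)
    have h2 : G.Pr (fun z => G.Circ z.1 ∧ ¬ G.ev L z = 0) =
        G.Pr (fun z => G.Circ z.1 ∧ G.ev L z = 1) := by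
      apply G.Pr_congr
      intro z
      rcases z2_cases (G.ev L z) with h | h <;> rw [h] <;> simp
    refine ⟨?_, by linarith⟩
    intro h0
    have h3 : G.Pr (fun z => G.Circ z.1 ∧ G.ev L z = 0) = G.Pr (fun z => G.Circ z.1) := by
      apply G.Pr_congr
      intro z
      rw [h0]
      simp
    linarith
  have hD : ∀ Λ ∈ F', ∃ (D core : Finset V) (runs : List (G.Run Nb)), (G.del D).card ≤ 4 * C₁ ∧
      core.card ≤ (C₂ + 1) * Nb ∧ runs.length ≤ C₁ + C₂ + 1 ∧
      (∀ v, v ∈ D ∨ v ∈ core ∨ ∃ r ∈ runs, v ∈ r.Y) ∧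
      ∀ (T : ℕ) (a b : Fin T → E), (∀ k, a k ∈ G.inn D) →
        (∀ k, a k ≠ b k ∧ G.co (a k) + G.co (b k) = Λ) →
        Function.Injective (fun k => G.co (a k)) → T ≤ 16 * C₁ := by
    intro Λ hΛ
    obtain ⟨hΛ1, L, m, R, rfl, hm, hR⟩ := Finset.mem_filter.1 hΛ
    obtain ⟨h1, h2⟩ := hFmem L hΛ1
    exact hdata V E G hG L h1 m R hR hm h2
  choose! D core runs hD1 hD2 hD3 hD4 hD5 using hD
  -- the vertices which are in all the `D Λ`
  set V₁ : Finset V := univ.filter (fun v => ∀ Λ ∈ F', v ∈ D Λ) with hV₁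
  have hdel : (G.del V₁).card ≤ M * (4 * C₁) := by
    have h1 : G.del V₁ ⊆ F'.biUnion (fun Λ => G.del (D Λ)) := by
      intro e he
      rw [MG.mem_del] at he
      rw [Finset.mem_biUnion]
      simp only [hV₁, Finset.mem_filter, Finset.mem_univ, true_and, not_forall] at he
      rcases he with ⟨h1, Λ, hΛ, h2⟩ | ⟨⟨Λ, hΛ, h2⟩, h1⟩
      · exact ⟨Λ, hΛ, by rw [MG.mem_del]; exact Or.inl ⟨h1 Λ hΛ, h2⟩⟩
      · exact ⟨Λ, hΛ, by rw [MG.mem_del]; exact Or.inr ⟨h2, h1 Λ hΛ⟩⟩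
    refine (Finset.card_le_card h1).trans ((Finset.card_biUnion_le_card_mul _ _ _ hD1).trans ?_)
    exact Nat.mul_le_mul_right _ hFc'
  have hV₁c : V₁.card ≤ N := by
    by_contra hcon
    push Not at hcon
    rcases hN V E G hG V₁ hdel hcon.le with h | ⟨L, hL, hP, a, b, hab, hinj⟩
    · have h1 : G.Pr (fun z => G.Circ z.1) ≤ G.Pr (fun z => ¬ G.Two V₁ z.1) := by
        apply G.Pr_mono
        intro z hz
        exact G.not_two_of_circ hz
      linarith
    · have h1 : G.ev L ∈ F := by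
        rw [hF, Finset.mem_filter]
        refine ⟨Finset.mem_univ _, L, rfl, le_trans (G.Pr_mono ?_) hP⟩
        intro z hz
        exact ⟨G.not_two_of_circ hz.1, hz.2⟩
      obtain ⟨h2, h3⟩ := hFmem L h1
      let k₀ : Fin (16 * C₁ + 17) := ⟨0, by omega⟩
      obtain ⟨m, R, hm, hR⟩ := G.exists_max_ring hG hL (hab k₀).2.2.1 (hab k₀).2.2.2
      rcases hm.eq_or_lt with h4 | h4
      · subst h4
        have := MG.Ring.Max.few_one hG hL hR a b (fun k => ⟨(hab k).2.2.1, (hab k).2.2.2⟩) hinj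
        omega
      · have h5 : G.ev L ∈ F' := by
          rw [hF', Finset.mem_filter]
          exact ⟨h1, L, m, R, rfl, h4, hR⟩
        have := hD5 _ h5 _ a b (by
          intro k
          have h6 := (hab k).1
          rw [MG.mem_inn] at h6 ⊢
          exact ⟨(Finset.mem_filter.1 h6.1).2 _ h5, (Finset.mem_filter.1 h6.2).2 _ h5⟩)
          (fun k => ⟨(hab k).2.2.1, (hab k).2.2.2⟩) hinj
        omega
  refine ⟨V₁ ∪ F'.biUnion core, F'.toList.flatMap runs, ?_, ?_, ?_⟩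
  · refine (Finset.card_union_le _ _).trans ?_
    have h1 := Finset.card_biUnion_le_card_mul F' core ((C₂ + 1) * Nb) hD2
    have h2 := Nat.mul_le_mul_right ((C₂ + 1) * Nb) hFc'
    omega
  · rw [List.length_flatMap]
    have h1 : (F'.toList.map (fun Λ => (runs Λ).length)).sum ≤
        (F'.toList.map (fun Λ => (runs Λ).length)).length • (C₁ + C₂ + 1) := by
      apply List.sum_le_card_nsmul
      intro x hx
      obtain ⟨Λ, hΛ, rfl⟩ := List.mem_map.1 hx
      exact hD3 Λ (Finset.mem_toList.1 hΛ)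
    rw [List.length_map, Finset.length_toList, smul_eq_mul] at h1
    exact h1.trans (Nat.mul_le_mul_right _ hFc')
  · intro v
    by_cases h1 : v ∈ V₁
    · exact Or.inl (Finset.mem_union_left _ h1)
    · simp only [hV₁, Finset.mem_filter, Finset.mem_univ, true_and, not_forall] at h1
      obtain ⟨Λ, hΛ, h2⟩ := h1
      rcases hD4 Λ hΛ v with h3 | h3 | ⟨r, hr, h3⟩
      · exact absurd h3 h2
      · exact Or.inl (Finset.mem_union_right _ (Finset.mem_biUnion.2 ⟨Λ, hΛ, h3⟩))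
      · exact Or.inr ⟨r, List.mem_flatMap.2 ⟨Λ, Finset.mem_toList.2 hΛ, hr⟩, h3⟩

end Cyc
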