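import Pool.Agent.Cyc.Lin
import Pool.Agent.Helper86.Cycle

/-!
# Section 7.1: chains of cycles of a simple graph (interface, helper86)
-/

open Finset
open scoped Classical

namespace Cyc

variable {N : ℕ} (G₀ : SimpleGraph (Fin N))

/-- value of the chain `x` at the pair `v u`. -/
noncomputable def adjv (x : G₀.edgeSet → ZMod 2) (v u : Fin N) : ZMod 2 :=
  if h : G₀.Adj v u then x ⟨s(v, u), h⟩ else 0

/-- the set of edges of a chain -/
def suppSet (x : G₀.edgeSet → ZMod 2) : Set (Sym2 (Fin N)) := {e | ∃ h : e ∈ G₀.edgeSet, x ⟨e, h⟩ = 1}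

theorem adjv_eq_one (x : G₀.edgeSet → ZMod 2) (v u : Fin N) :
    adjv G₀ x v u = 1 ↔ s(v, u) ∈ suppSet G₀ x := by
  unfold adjv suppSet
  by_cases h : G₀.Adj v u
  · rw [dif_pos h]
    constructor
    · intro h'; exact ⟨h, h'⟩
    · rintro ⟨_, h'⟩; exact h'
  · rw [dif_neg h]
    constructor
    · intro h'; exact absurd h' (by decide)
    · rintro ⟨h', _⟩; exact absurd h' h

theorem sub_z2 (x : ZMod 2) : x = 0 ∨ x = 1 := by revert x; decide

theorem sum_adjv (x : G₀.edgeSet → ZMod 2) (v : Fin N) :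
    ∑ u, adjv G₀ x v u = (({e | e ∈ suppSet G₀ x ∧ v ∈ e}.ncard : ℕ) : ZMod 2) := by
  have h1 : ∑ u, adjv G₀ x v u = ∑ u, if adjv G₀ x v u = 1 then 1 else 0 := by
    refine Finset.sum_congr rfl fun u _ => ?_
    rcases sub_z2 (adjv G₀ x v u) with h | h <;> rw [h] <;> decide
  rw [h1, Finset.sum_boole]
  congr 1
  have h2 : {e | e ∈ suppSet G₀ x ∧ v ∈ e} =
      (fun u => s(v, u)) '' {u | adjv G₀ x v u = 1} := by
    ext e
    constructor
    · rintro ⟨he, hv⟩
      obtain ⟨u, rfl⟩ := Sym2.mem_iff_exists.1 hv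
      exact ⟨u, (adjv_eq_one G₀ x v u).2 he, rfl⟩
    · rintro ⟨u, hu, rfl⟩
      exact ⟨(adjv_eq_one G₀ x v u).1 hu, Sym2.mem_mk_left v u⟩
  rw [h2, Set.ncard_image_of_injective]
  · rw [← Set.ncard_coe_finset]
    congr 1
    ext u
    simp
  · intro u u' h
    exact Sym2.congr_right.1 h

theorem exists_cycle_chain {v : Fin N} (p : G₀.Walk v v) (hp : p.IsCycle) :
    ∃ x : G₀.edgeSet → ZMod 2, (∀ v, ∑ u, adjv G₀ x v u = 0) ∧ x ≠ 0 ∧
      (∀ y : G₀.edgeSet → ZMod 2, (∀ v, ∑ u, adjv G₀ y v u = 0) → Le y x → y = 0 ∨ y = x) ∧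
      (univ.filter (fun e => x e = 1)).card = p.length ∧
      ∀ v, (univ.filter (fun u => adjv G₀ x v u = 1)).card ≤ 2 := by
  let x : G₀.edgeSet → ZMod 2 := fun e => if e.1 ∈ p.edges then 1 else 0
  have hx : ∀ e, x e = 1 ↔ e.1 ∈ p.edges := by
    intro e
    by_cases h : e.1 ∈ p.edges <;> simp [x, h]
  have hS : suppSet G₀ x = {e | e ∈ p.edges} := by
    ext e
    constructor
    · rintro ⟨h, h'⟩; exact (hx _).1 h'
    · intro h
      exact ⟨p.edges_subset_edgeSet h, (hx ⟨e, p.edges_subset_edgeSet h⟩).2 h⟩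
  have hev := Pool.Agent.Helper86.cycle_even G₀ p hp
  have hsub : ∀ y : G₀.edgeSet → ZMod 2, suppSet G₀ y ⊆ G₀.edgeSet := by
    rintro y e ⟨h, _⟩; exact h
  have hchain : ∀ y : G₀.edgeSet → ZMod 2, (∀ v, ∑ u, adjv G₀ y v u = 0) →
      Pool.Agent.Helper86.IsEven G₀ (suppSet G₀ y) := by
    intro y hy
    refine ⟨hsub y, fun v => ?_⟩
    have := hy v
    rw [sum_adjv, ZMod.natCast_eq_zero_iff_even] at this
    exact this
  refine ⟨x, ?_, ?_, ?_, ?_, ?_⟩
  · intro v
    rw [sum_adjv, hS, ZMod.natCast_eq_zero_iff_even]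
    exact hev.2 v
  · intro h0
    have h3 := hp.three_le_length
    obtain ⟨e, he⟩ : ∃ e, e ∈ p.edges := by
      apply List.exists_mem_of_ne_nil
      intro h
      have h4 : p.edges.length = 0 := by rw [h]; rfl
      rw [SimpleGraph.Walk.length_edges] at h4
      omega
    have h1 := (hx ⟨e, p.edges_subset_edgeSet he⟩).2 he
    rw [h0] at h1
    simp at h1
  · intro y hy hle
    have hyS : ∀ e ∈ suppSet G₀ y, e ∈ p.edges := by
      rintro e ⟨h, h'⟩
      exact (hx _).1 (hle _ h')
    rcases Pool.Agent.Helper86.cycle_min G₀ p hp (suppSet G₀ y) (hchain y hy) hyS with h | h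
    · left
      funext e
      rcases sub_z2 (y e) with h' | h'
      · exact h'
      · have : e.1 ∈ suppSet G₀ y := ⟨e.2, h'⟩
        rw [h] at this
        exact absurd this (Set.notMem_empty _)
    · right
      funext e
      rcases sub_z2 (y e) with h' | h'
      · rcases sub_z2 (x e) with h'' | h''
        · rw [h', h'']
        · have h1 : e.1 ∈ suppSet G₀ y := by
            rw [h]; exact (hx _).1 h''
          obtain ⟨_, h2⟩ := h1
          exact absurd (h'.symm.trans h2) (by decide)
      · rw [h', hle _ h']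
  · have h1 : (univ.filter (fun e => x e = 1)).map (Function.Embedding.subtype _) =
        p.edges.toFinset := by
      ext e
      simp only [Finset.mem_map, Finset.mem_filter, Finset.mem_univ, true_and,
        Function.Embedding.subtype_apply, List.mem_toFinset]
      constructor
      · rintro ⟨e', h, rfl⟩; exact (hx _).1 h
      · intro h
        exact ⟨⟨e, p.edges_subset_edgeSet h⟩, (hx _).2 h, rfl⟩
    rw [← Finset.card_map (Function.Embedding.subtype _), h1,
      List.toFinset_card_of_nodup hp.isTrail.edges_nodup, SimpleGraph.Walk.length_edges]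
  · intro w
    have h1 : ((univ.filter (fun u => adjv G₀ x w u = 1) : Finset (Fin N)) : Set (Fin N)) =
        p.toSubgraph.neighborSet w := by
      ext u
      simp only [Finset.coe_filter, Finset.mem_univ, true_and, Set.mem_ofPred_eq,
        SimpleGraph.Subgraph.mem_neighborSet]
      rw [adjv_eq_one, hS]
      exact (SimpleGraph.Walk.adj_toSubgraph_iff_mem_edges).symm
    rw [← Set.ncard_coe_finset, h1]
    by_cases hw : w ∈ p.support
    · rw [hp.ncard_neighborSet_toSubgraph_eq_two hw]
    · have : p.toSubgraph.neighborSet w = ∅ := by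
        ext u
        simp only [SimpleGraph.Subgraph.mem_neighborSet, Set.mem_empty_iff_false, iff_false]
        intro h
        apply hw
        have := p.toSubgraph.edge_vert h
        simpa using this
      rw [this]
      simp

end Cyc
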