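import Pool.Agent.Cyc.Suppress

/-!
# Section 7.5: component of the graph of non-bridge edges
-/

open Finset
open scoped Classical

set_option linter.unusedSectionVars false

namespace Cyc

namespace MG

variable {V E : Type} [Fintype V] [Fintype E] (G : MG V E)

/-- non-bridge edges -/
def nb (e : E) : Prop := ∃ z ∈ G.Z, z e = 1

/-- component of `v₀` in the graph of non-bridge edges -/
def comp (v₀ v : V) : Prop :=
  ∀ φ : V → ZMod 2, (∀ e, G.nb e → φ (G.s e) = φ (G.t e)) → φ v = φ v₀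

theorem comp_t {v₀ : V} {e : E} (h : G.nb e ∧ G.comp v₀ (G.s e)) : G.comp v₀ (G.t e) :=
  fun φ hφ => (hφ e h.1).symm.trans (h.2 φ hφ)

/-- the component of `v₀` with its non-bridge edges -/
def sub (v₀ : V) : MG {v // G.comp v₀ v} {e // G.nb e ∧ G.comp v₀ (G.s e)} where
  s e := ⟨G.s e.1, e.2.2⟩
  t e := ⟨G.t e.1, G.comp_t e.2⟩

/-- restriction of a chain to the component -/
def res (v₀ : V) (c : E → ZMod 2) : {e // G.nb e ∧ G.comp v₀ (G.s e)} → ZMod 2 := fun e => c e.1

theorem comp_refl (v₀ : V) : G.comp v₀ v₀ := fun _ _ => rfl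

theorem comp_s {v₀ : V} {e : E} (h : G.nb e) (ht : G.comp v₀ (G.t e)) : G.comp v₀ (G.s e) :=
  fun φ hφ => (hφ e h).trans (ht φ hφ)

theorem comp_of_at {v₀ : V} {e : E} (h : G.nb e) {v : V} (hv : G.comp v₀ v)
    (he : G.s e = v ∨ G.t e = v) : G.comp v₀ (G.s e) := by
  rcases he with rfl | rfl
  · exact hv
  · exact G.comp_s h hv

theorem comp_at_of {v₀ : V} {e : E} (h : G.nb e) {v : V} (hs : G.comp v₀ (G.s e))
    (he : G.s e = v ∨ G.t e = v) : G.comp v₀ v := by
  rcases he with rfl | rfl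
  · exact hs
  · exact G.comp_t ⟨h, hs⟩

theorem zero_of_not_nb {z : E → ZMod 2} (hz : z ∈ G.Z) {e : E} (he : ¬ G.nb e) : z e = 0 :=
  z2_ne_one fun h => he ⟨z, hz, h⟩

theorem sum_sub {M : Type} [AddCommMonoid M] (p : E → Prop) [Fintype {e // p e}] (f : E → M)
    (h : ∀ e, ¬ p e → f e = 0) : ∑ e : {e // p e}, f e.1 = ∑ e, f e := by
  rw [← Finset.sum_subtype (univ.filter p) (by simp) f, Finset.sum_filter]
  refine Finset.sum_congr rfl fun e _ => ?_
  by_cases he : p e
  · rw [if_pos he]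
  · rw [if_neg he, h e he]

/-- incidence sums in the component -/
theorem inc_sub {M : Type} [AddCommMonoid M] (v₀ : V) (z : E → M) (v : {v // G.comp v₀ v}) :
    (G.sub v₀).inc (fun e => z e.1) v = G.inc (fun e => if G.nb e then z e else 0) v.1 := by
  unfold inc
  rw [← sum_sub (fun e => G.nb e ∧ G.comp v₀ (G.s e))]
  · refine Finset.sum_congr rfl fun e _ => ?_
    have h2 : ((G.sub v₀).s e = v) ↔ (G.s e.1 = v.1) := by
      rw [← Subtype.val_inj]; rfl
    have h3 : ((G.sub v₀).t e = v) ↔ (G.t e.1 = v.1) := by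
      rw [← Subtype.val_inj]; rfl
    simp only [h2, h3, e.2.1, if_true]
  · intro e he
    by_cases hn : G.nb e
    · have h2 : G.s e ≠ v.1 := by
        intro h
        exact he ⟨hn, G.comp_of_at hn v.2 (Or.inl h)⟩
      have h3 : G.t e ≠ v.1 := by
        intro h
        exact he ⟨hn, G.comp_of_at hn v.2 (Or.inr h)⟩
      rw [if_neg h2, if_neg h3, add_zero]
    · simp [hn]

theorem res_mem_Z (v₀ : V) {z : E → ZMod 2} (hz : z ∈ G.Z) : G.res v₀ z ∈ (G.sub v₀).Z := by
  intro v
  rw [bd_eq_inc]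
  show (G.sub v₀).inc (fun e => z e.1) v = 0
  rw [inc_sub]
  have h1 : (fun e => if G.nb e then z e else 0) = z := by
    funext e
    by_cases h : G.nb e
    · rw [if_pos h]
    · rw [if_neg h, G.zero_of_not_nb hz h]
  rw [h1]
  exact hz v.1

/-- the chain of edge ends -/
theorem dg_sub (v₀ : V) (v : {v // G.comp v₀ v}) :
    (G.sub v₀).dg v = G.inc (fun e => if G.nb e then 1 else 0) v.1 := by
  rw [dg_eq_inc]
  exact G.inc_sub v₀ (fun _ => (1 : ℕ)) v

/-- degrees do not increase -/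
theorem dg_sub_le (v₀ : V) (v : {v // G.comp v₀ v}) : (G.sub v₀).dg v ≤ G.dg v.1 := by
  rw [dg_sub, dg_eq_inc]
  unfold inc
  refine Finset.sum_le_sum fun e _ => ?_
  by_cases h : G.nb e <;> simp [h]

/-- if the degree is still three then all edges at `v` are non-bridge edges -/
theorem nb_of_dg_three (v₀ : V) (v : {v // G.comp v₀ v}) (hdeg : G.dg v.1 ≤ 3)
    (h3 : (G.sub v₀).dg v = 3) (e : E) (he : G.s e = v.1 ∨ G.t e = v.1) : G.nb e := by
  by_contra hn
  rw [dg_sub] at h3
  rw [dg_eq_inc] at hdeg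
  have h1 : G.inc (fun e => if G.nb e then 1 else 0) v.1 < G.inc (fun _ => (1 : ℕ)) v.1 := by
    unfold inc
    refine Finset.sum_lt_sum (fun e _ => ?_) ⟨e, Finset.mem_univ _, ?_⟩
    · by_cases h : G.nb e <;> simp [h]
    · dsimp only
      rw [if_neg hn]
      rcases he with he | he <;> simp [he]
  omega

/-- a non-bridge edge at a vertex gives degree at least two in the component -/
theorem two_le_dg_sub (v₀ : V) (v : {v // G.comp v₀ v}) {e : E} (hn : G.nb e)
    (he : G.s e = v.1 ∨ G.t e = v.1) : 2 ≤ (G.sub v₀).dg v := by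
  obtain ⟨z, hz, hze⟩ := hn
  have hzn : ∀ f, z f = 1 → G.nb f := fun f hf => ⟨z, hz, hf⟩
  rw [dg_sub]
  -- the number of ends of edges of `z` at `v` is even and at least one
  have h1 : ((G.inc (fun e => if z e = 1 then 1 else 0) v.1 : ℕ) : ZMod 2) = 0 := by
    rw [← hz v.1]
    unfold inc bd
    rw [Nat.cast_sum]
    refine Finset.sum_congr rfl fun f _ => ?_
    rcases z2_cases (z f) with h | h
    · simp [h]
    · simp [h]
  have h2 : 1 ≤ G.inc (fun e => if z e = 1 then 1 else 0) v.1 := by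
    unfold inc
    refine le_trans ?_ (Finset.single_le_sum (fun f _ => Nat.zero_le _) (Finset.mem_univ e))
    dsimp only
    rw [if_pos hze]
    rcases he with he | he <;> simp [he]
  have h3 : G.inc (fun e => if z e = 1 then 1 else 0) v.1 ≤
      G.inc (fun e => if G.nb e then 1 else 0) v.1 := by
    unfold inc
    refine Finset.sum_le_sum fun f _ => ?_
    by_cases h : z f = 1
    · simp [h, hzn f h]
    · simp [h]
  have h4 : 2 ∣ G.inc (fun e => if z e = 1 then 1 else 0) v.1 := (ZMod.natCast_eq_zero_iff _ _).1 h1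
  omega

theorem sub_sub23 (hdeg : ∀ v, G.dg v ≤ 3) (v₀ : V) (h0 : ∃ e, G.nb e ∧ G.s e = v₀) :
    (G.sub v₀).Sub23 := by
  refine ⟨fun v => ?_, ?_, ?_⟩
  · have h1 : (G.sub v₀).dg v ≤ 3 := (G.dg_sub_le v₀ v).trans (hdeg v.1)
    have h2 : ∃ e, G.nb e ∧ (G.s e = v.1 ∨ G.t e = v.1) := by
      by_cases hv : v.1 = v₀
      · obtain ⟨e, he, hs⟩ := h0
        exact ⟨e, he, Or.inl (hs.trans hv.symm)⟩
      · by_contra hcon
        push Not at hcon
        have h3 := v.2 (ind {v.1}) (fun e he => by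
          obtain ⟨h4, h5⟩ := hcon e he
          simp [ind, h4, h5])
        have hv' : v₀ ≠ v.1 := fun h => hv h.symm
        simp [ind, hv'] at h3
    obtain ⟨e, hn, he⟩ := h2
    have h3 := G.two_le_dg_sub v₀ v hn he
    omega
  · intro φ hφ
    have key : ∀ v : {v // G.comp v₀ v}, φ v = φ ⟨v₀, G.comp_refl v₀⟩ := by
      intro v
      have h1 := v.2 (fun u => if h : G.comp v₀ u then φ ⟨u, h⟩ else 0) (fun e he => by
        by_cases hs : G.comp v₀ (G.s e)
        · have ht := G.comp_t ⟨he, hs⟩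
          rw [dif_pos hs, dif_pos ht]
          exact hφ ⟨e, he, hs⟩
        · have ht : ¬ G.comp v₀ (G.t e) := fun ht => hs (G.comp_s he ht)
          rw [dif_neg hs, dif_neg ht])
      rw [dif_pos v.2, dif_pos (G.comp_refl v₀)] at h1
      exact h1
    intro u v
    rw [key u, key v]
  · intro e
    obtain ⟨z, hz, hze⟩ := e.2.1
    exact ⟨⟨G.res v₀ z, G.res_mem_Z v₀ hz⟩, hze⟩

/-- the part of an even set in the component is even -/
theorem part_mem (v₀ : V) {z : E → ZMod 2} (hz : z ∈ G.Z) :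
    (fun e => if G.comp v₀ (G.s e) then z e else 0) ∈ G.Z := by
  intro v
  by_cases hv : G.comp v₀ v
  · refine (G.bd_congr fun e he => ?_).trans (hz v)
    by_cases hn : G.nb e
    · rw [if_pos (G.comp_of_at hn hv he)]
    · rw [G.zero_of_not_nb hz hn, ite_self]
  · refine (G.bd_congr fun e he => ?_).trans (G.bd_zero v)
    by_cases hn : G.nb e
    · rw [if_neg fun hs => hv (G.comp_at_of hn hs he)]; rfl
    · rw [G.zero_of_not_nb hz hn, ite_self]; rfl

/-- a circuit is inside the component or does not touch it -/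
theorem circ_comp (v₀ : V) {c : E → ZMod 2} (hc : G.Circ c) :
    (∀ e, c e = 1 → G.comp v₀ (G.s e)) ∨ (∀ e, c e = 1 → ¬ G.comp v₀ (G.s e)) := by
  rcases hc.2.2 _ (G.part_mem v₀ hc.1) (fun e he => by
    by_cases h : G.comp v₀ (G.s e)
    · rwa [if_pos h] at he
    · rw [if_neg h] at he; exact absurd he.symm z2_one_ne_zero) with h | h
  · right
    intro e he hs
    have h1 := congrFun h e
    simp only [if_pos hs, he] at h1
    exact z2_one_ne_zero h1
  · left
    intro e he
    by_contra hs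
    have h1 := congrFun h e
    simp only [if_neg hs, he] at h1
    exact z2_one_ne_zero h1.symm

/-- extension by zero of a chain of the component -/
noncomputable def ext0 (v₀ : V) (y : {e // G.nb e ∧ G.comp v₀ (G.s e)} → ZMod 2) : E → ZMod 2 :=
  fun e => if h : G.nb e ∧ G.comp v₀ (G.s e) then y ⟨e, h⟩ else 0

theorem ext0_pos (v₀ : V) (y : {e // G.nb e ∧ G.comp v₀ (G.s e)} → ZMod 2)
    (e : {e // G.nb e ∧ G.comp v₀ (G.s e)}) : G.ext0 v₀ y e.1 = y e := by
  unfold ext0
  rw [dif_pos e.2]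

theorem ext0_neg (v₀ : V) (y : {e // G.nb e ∧ G.comp v₀ (G.s e)} → ZMod 2)
    {e : E} (he : ¬ (G.nb e ∧ G.comp v₀ (G.s e))) : G.ext0 v₀ y e = 0 := by
  unfold ext0
  rw [dif_neg he]

theorem ext0_mem (v₀ : V) {y : {e // G.nb e ∧ G.comp v₀ (G.s e)} → ZMod 2}
    (hy : y ∈ (G.sub v₀).Z) : G.ext0 v₀ y ∈ G.Z := by
  intro v
  by_cases hv : G.comp v₀ v
  · have h1 := G.inc_sub v₀ (G.ext0 v₀ y) ⟨v, hv⟩
    have h2 : (fun e : {e // G.nb e ∧ G.comp v₀ (G.s e)} => G.ext0 v₀ y e.1) = y := by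
      funext e; exact G.ext0_pos v₀ y e
    have h3 : (fun e => if G.nb e then G.ext0 v₀ y e else 0) = G.ext0 v₀ y := by
      funext e
      by_cases h : G.nb e
      · rw [if_pos h]
      · rw [if_neg h, G.ext0_neg v₀ y fun h' => h h'.1]
    rw [h2, h3] at h1
    rw [bd_eq_inc, ← h1]
    exact hy ⟨v, hv⟩
  · refine (G.bd_congr fun e he => ?_).trans (G.bd_zero v)
    rw [G.ext0_neg v₀ y fun h' => hv (G.comp_at_of h'.1 h'.2 he)]
    rfl

theorem sub_circ (v₀ : V) {c : E → ZMod 2} (hc : G.Circ c)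
    (h : ∀ e, c e = 1 → G.comp v₀ (G.s e)) :
    (G.sub v₀).Circ (G.res v₀ c) := by
  refine ⟨G.res_mem_Z v₀ hc.1, ?_, ?_⟩
  · intro h0
    apply hc.2.1
    funext e
    refine z2_ne_one fun he => ?_
    have h1 := congrFun h0 ⟨e, ⟨c, hc.1, he⟩, h e he⟩
    simp only [res, he] at h1
    exact z2_one_ne_zero h1
  · intro y hy hle
    rcases hc.2.2 _ (G.ext0_mem v₀ hy) (fun e he => by
      by_cases h' : G.nb e ∧ G.comp v₀ (G.s e)
      · exact hle ⟨e, h'⟩ ((G.ext0_pos v₀ y ⟨e, h'⟩).symm.trans he)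
      · rw [G.ext0_neg v₀ y h'] at he; exact absurd he.symm z2_one_ne_zero) with h1 | h1
    · left
      funext e
      rw [← G.ext0_pos v₀ y e, h1]; rfl
    · right
      funext e
      rw [← G.ext0_pos v₀ y e, h1]; rfl

theorem wgt_res (v₀ : V) (wt : E → ℕ) {c : E → ZMod 2} (hc : G.Circ c)
    (h : ∀ e, c e = 1 → G.comp v₀ (G.s e)) :
    wgt (fun e : {e // G.nb e ∧ G.comp v₀ (G.s e)} => wt e.1) (G.res v₀ c) = wgt wt c := by
  unfold wgt
  rw [Finset.sum_filter, Finset.sum_filter]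
  refine sum_sub (fun e => G.nb e ∧ G.comp v₀ (G.s e)) (fun e => if c e = 1 then wt e else 0) ?_
  intro e he
  rw [if_neg fun h1 => he ⟨⟨c, hc.1, h1⟩, h e h1⟩]

theorem card_sub_Z (v₀ : V) : Fintype.card (G.sub v₀).Z ≤ Fintype.card G.Z := by
  apply Fintype.card_le_of_injective
    (fun y : (G.sub v₀).Z => (⟨G.ext0 v₀ y.1, G.ext0_mem v₀ y.2⟩ : G.Z))
  intro y y' hyy
  have h1 : G.ext0 v₀ y.1 = G.ext0 v₀ y'.1 := congrArg Subtype.val hyy
  apply Subtype.ext
  funext e
  rw [← G.ext0_pos v₀ y.1 e, ← G.ext0_pos v₀ y'.1 e, h1]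

/-- a connected graph with all degrees two has only one circuit -/
theorem exists_dg_three (hG : G.Sub23) (hl : ∀ e, G.s e ≠ G.t e) {c c' : E → ZMod 2}
    (hc : G.Circ c) (hc' : G.Circ c') (h : c ≠ c') : ∃ v, G.dg v = 3 := by
  by_contra hcon
  push Not at hcon
  have h2 : ∀ v, G.dg v = 2 := fun v => (hG.deg v).resolve_right (hcon v)
  -- even chains are constant at each vertex
  have hloc : ∀ z ∈ G.Z, ∀ v e f, (G.s e = v ∨ G.t e = v) → (G.s f = v ∨ G.t f = v) →
      z e = z f := by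
    intro z hz v e f he hf
    have hcard : (univ.filter (fun e => G.s e = v ∨ G.t e = v)).card = 2 := by
      rw [Finset.filter_or, Finset.card_union_of_disjoint]
      · exact h2 v
      · rw [Finset.disjoint_left]
        intro e h1 h2
        simp only [Finset.mem_filter, Finset.mem_univ, true_and] at h1 h2
        exact hl e (h1.trans h2.symm)
    obtain ⟨e₁, e₂, hne, hS⟩ := Finset.card_eq_two.1 hcard
    have hm : ∀ e, (G.s e = v ∨ G.t e = v) ↔ (e = e₁ ∨ e = e₂) := by
      intro e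
      have := Finset.ext_iff.1 hS e
      simpa using this
    have hone : ∀ e, (G.s e = v ∨ G.t e = v) →
        ((if G.s e = v then z e else 0) + (if G.t e = v then z e else 0)) = z e := by
      intro e he
      by_cases h1 : G.s e = v
      · have h3 : G.t e ≠ v := fun h3 => hl e (h1.trans h3.symm)
        rw [if_pos h1, if_neg h3, add_zero]
      · have h3 : G.t e = v := he.resolve_left h1
        rw [if_neg h1, if_pos h3, zero_add]
    have hb := hz v
    unfold bd at hb
    rw [← Finset.sum_subset (Finset.subset_univ {e₁, e₂}) (fun e _ he => by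
      have h3 : ¬ (G.s e = v ∨ G.t e = v) := fun h4 => he (by simpa using (hm e).1 h4)
      push Not at h3
      rw [if_neg h3.1, if_neg h3.2, add_zero]), Finset.sum_pair hne,
      hone e₁ ((hm e₁).2 (Or.inl rfl)), hone e₂ ((hm e₂).2 (Or.inr rfl))] at hb
    have h12 := z2_add_eq_zero.1 hb
    rcases (hm e).1 he with rfl | rfl <;> rcases (hm f).1 hf with rfl | rfl
    · rfl
    · exact h12
    · exact h12.symm
    · rfl
  have hall : ∀ z, G.Circ z → ∀ e, z e = 1 := by
    intro z hz e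
    have hφ := hG.conn (fun v => if ∃ f, (G.s f = v ∨ G.t f = v) ∧ z f = 1 then 1 else 0)
      (fun f => by
        have key : ∀ v, (G.s f = v ∨ G.t f = v) →
            (if ∃ f, (G.s f = v ∨ G.t f = v) ∧ z f = 1 then (1 : ZMod 2) else 0) = z f := by
          intro v hv
          by_cases h1 : ∃ f, (G.s f = v ∨ G.t f = v) ∧ z f = 1
          · rw [if_pos h1]
            obtain ⟨f', hf', h3⟩ := h1
            rw [← h3]
            exact hloc z hz.1 v f' f hf' hv
          · rw [if_neg h1]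
            exact (z2_ne_one fun h3 => h1 ⟨f, hv, h3⟩).symm
        show (if _ then (1 : ZMod 2) else 0) = (if _ then (1 : ZMod 2) else 0)
        rw [key _ (Or.inl rfl), key _ (Or.inr rfl)])
    by_contra he
    apply hz.2.1
    funext f
    refine z2_ne_one fun hf => ?_
    have h1 := hφ (G.s f) (G.s e)
    have h3 : (∃ f', (G.s f' = G.s f ∨ G.t f' = G.s f) ∧ z f' = 1) := ⟨f, Or.inl rfl, hf⟩
    have h4 : ¬ (∃ f', (G.s f' = G.s e ∨ G.t f' = G.s e) ∧ z f' = 1) := by
      rintro ⟨f', hf', h5⟩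
      exact he ((hloc z hz.1 (G.s e) e f' (Or.inl rfl) hf').trans h5)
    simp only [if_pos h3, if_neg h4] at h1
    exact z2_one_ne_zero h1
  apply h
  funext e
  rw [hall c hc e, hall c' hc' e]

end MG

end Cyc
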