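import Pool.Agent.Cyc.Prob
import Pool.Agent.Cyc.SubCycle
import Pool.Agent.Cyc.SubRestrict

/-!
# Section 7.2 - 7.4: the graph on darts, lifting of even sets, degree bound
-/

open Finset
open scoped Classical

namespace Cyc

/-- indicator of a proposition -/
noncomputable def bb (p : Prop) : ZMod 2 := if p then 1 else 0

theorem bb_pos {p : Prop} (h : p) : bb p = 1 := if_pos h

theorem bb_neg {p : Prop} (h : ¬ p) : bb p = 0 := if_neg h

theorem bb_and (p q : Prop) : bb (p ∧ q) = bb p * bb q := by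
  by_cases hp : p <;> by_cases hq : q <;> simp [bb, hp, hq]

theorem bb_congr {p q : Prop} (h : p ↔ q) : bb p = bb q := by rw [propext h]

theorem sum_bb_eq {α : Type} [Fintype α] (a : α) (f : α → ZMod 2) :
    ∑ x, bb (x = a) * f x = f a := by
  rw [Finset.sum_eq_single a]
  · rw [bb_pos rfl, one_mul]
  · intro x _ hx
    rw [bb_neg hx, zero_mul]
  · simp

variable {N : ℕ} (G₀ : SimpleGraph (Fin N))

/-- first end of an edge -/
noncomputable def fs (e : G₀.edgeSet) : Fin N := (Quot.out e.1).1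

/-- second end of an edge -/
noncomputable def sn (e : G₀.edgeSet) : Fin N := (Quot.out e.1).2

theorem mk_fs_sn (e : G₀.edgeSet) : s(fs G₀ e, sn G₀ e) = e.1 := by
  have h := Quot.out_eq e.1
  exact h

theorem adj_fs_sn (e : G₀.edgeSet) : G₀.Adj (fs G₀ e) (sn G₀ e) := by
  have h := e.2
  rw [← mk_fs_sn G₀ e] at h
  exact h

theorem fs_ne_sn (e : G₀.edgeSet) : fs G₀ e ≠ sn G₀ e := (adj_fs_sn G₀ e).ne

/-- the graph on darts (every vertex becomes a path of `N + 1` vertices) -/
noncomputable def DG : MG (Fin N × Fin (N + 1)) (G₀.edgeSet ⊕ (Fin N × Fin N)) where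
  s e := Sum.elim (fun e => (fs G₀ e, (sn G₀ e).castSucc)) (fun q => (q.1, q.2.castSucc)) e
  t e := Sum.elim (fun e => (sn G₀ e, (fs G₀ e).castSucc)) (fun q => (q.1, q.2.succ)) e

theorem DG_s_inl (e : G₀.edgeSet) :
    (DG G₀).s (Sum.inl e) = (fs G₀ e, (sn G₀ e).castSucc) := rfl
theorem DG_t_inl (e : G₀.edgeSet) :
    (DG G₀).t (Sum.inl e) = (sn G₀ e, (fs G₀ e).castSucc) := rfl
theorem DG_s_inr (q : Fin N × Fin N) : (DG G₀).s (Sum.inr q) = (q.1, q.2.castSucc) := rfl
theorem DG_t_inr (q : Fin N × Fin N) : (DG G₀).t (Sum.inr q) = (q.1, q.2.succ) := rfl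

theorem DG_noloop (e) : (DG G₀).s e ≠ (DG G₀).t e := by
  rcases e with e | q
  · intro h
    have := congrArg Prod.fst h
    exact fs_ne_sn G₀ e this
  · intro h
    have h2 : q.2.castSucc = q.2.succ := congrArg Prod.snd h
    exact absurd h2 (Fin.castSucc_lt_succ).ne

theorem d_inl (φ : Fin N × Fin (N + 1) → ZMod 2) (e : G₀.edgeSet) :
    (DG G₀).d φ (Sum.inl e) = φ (fs G₀ e, (sn G₀ e).castSucc) + φ (sn G₀ e, (fs G₀ e).castSucc) :=
  rfl

theorem d_inr (φ : Fin N × Fin (N + 1) → ZMod 2) (q : Fin N × Fin N) :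
    (DG G₀).d φ (Sum.inr q) = φ (q.1, q.2.castSucc) + φ (q.1, q.2.succ) := rfl

/-- sum over the edges at `v` -/
theorem sum_adj (x : G₀.edgeSet → ZMod 2) (v : Fin N) (g : Fin N → ZMod 2) :
    ∑ e, (bb (fs G₀ e = v) * g (sn G₀ e) + bb (sn G₀ e = v) * g (fs G₀ e)) * x e
      = ∑ u, g u * adjv G₀ x v u := by
  have h1 : ∀ u, g u * adjv G₀ x v u = ∑ e : G₀.edgeSet, bb (s(v, u) = e.1) * (g u * x e) := by
    intro u
    unfold adjv
    by_cases h : G₀.Adj v u
    · rw [dif_pos h, Finset.sum_eq_single (⟨s(v, u), h⟩ : G₀.edgeSet)]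
      · rw [bb_pos rfl, one_mul]
      · intro e _ he
        rw [bb_neg, zero_mul]
        intro h2
        exact he (Subtype.ext h2.symm)
      · simp
    · rw [dif_neg h, mul_zero]
      symm
      refine Finset.sum_eq_zero fun e _ => ?_
      rw [bb_neg, zero_mul]
      intro h2
      apply h
      have := e.2
      rw [← h2] at this
      exact this
  simp_rw [h1]
  rw [Finset.sum_comm]
  refine Finset.sum_congr rfl fun e _ => ?_
  have h2 : ∀ u, bb (s(v, u) = e.1) * (g u * x e) =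
      bb (u = sn G₀ e) * (bb (fs G₀ e = v) * (g u * x e)) +
      bb (u = fs G₀ e) * (bb (sn G₀ e = v) * (g u * x e)) := by
    intro u
    have hne := fs_ne_sn G₀ e
    have hiff : s(v, u) = e.1 ↔ ((fs G₀ e = v ∧ u = sn G₀ e) ∨ (sn G₀ e = v ∧ u = fs G₀ e)) := by
      rw [← mk_fs_sn G₀ e, Sym2.eq_iff]
      constructor
      · rintro (h | h)
        · exact Or.inl ⟨h.1.symm, h.2⟩
        · exact Or.inr ⟨h.1.symm, h.2⟩
      · rintro (h | h)
        · exact Or.inl ⟨h.1.symm, h.2⟩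
        · exact Or.inr ⟨h.1.symm, h.2⟩
    rw [bb_congr hiff]
    by_cases h3 : fs G₀ e = v ∧ u = sn G₀ e
    · have h4 : ¬ (sn G₀ e = v) := fun h4 => hne (h3.1.trans h4.symm)
      rw [bb_pos (Or.inl h3), bb_pos h3.1, bb_pos h3.2, bb_neg h4]
      ring
    · by_cases h4 : sn G₀ e = v ∧ u = fs G₀ e
      · have h5 : ¬ (fs G₀ e = v) := fun h5 => hne (h5.trans h4.1.symm)
        rw [bb_pos (Or.inr h4), bb_pos h4.1, bb_pos h4.2, bb_neg h5]
        ring
      · rw [bb_neg (not_or.2 ⟨h3, h4⟩)]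
        have h5 : bb (u = sn G₀ e) * bb (fs G₀ e = v) = 0 := by
          rw [← bb_and, bb_neg]
          rintro ⟨a, b⟩
          exact h3 ⟨b, a⟩
        have h6 : bb (u = fs G₀ e) * bb (sn G₀ e = v) = 0 := by
          rw [← bb_and, bb_neg]
          rintro ⟨a, b⟩
          exact h4 ⟨b, a⟩
        linear_combination (- (g u * x e)) * h5 + (- (g u * x e)) * h6
  simp_rw [h2]
  rw [Finset.sum_add_distrib, sum_bb_eq, sum_bb_eq]
  ring

/-- even functions on the edges of the simple graph -/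
def Even0 (x : G₀.edgeSet → ZMod 2) : Prop := ∀ v, ∑ u, adjv G₀ x v u = 0

/-- partial sums at a vertex -/
noncomputable def psum (x : G₀.edgeSet → ZMod 2) (v : Fin N) (j : Fin (N + 1)) : ZMod 2 :=
  ∑ u, bb (u.castSucc < j) * adjv G₀ x v u

/-- lifting to the graph on darts -/
noncomputable def lift (x : G₀.edgeSet → ZMod 2) : G₀.edgeSet ⊕ (Fin N × Fin N) → ZMod 2 :=
  fun e => Sum.elim x (fun q => psum G₀ x q.1 q.2.succ) e

theorem lift_inl (x : G₀.edgeSet → ZMod 2) (e : G₀.edgeSet) : lift G₀ x (Sum.inl e) = x e := rfl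

theorem lift_inr (x : G₀.edgeSet → ZMod 2) (q : Fin N × Fin N) :
    lift G₀ x (Sum.inr q) = psum G₀ x q.1 q.2.succ := rfl

theorem bd_eq {V E : Type} [Fintype V] [Fintype E] (G : MG V E) (z : E → ZMod 2) (v : V) :
    G.bd z v = ∑ e, G.d (fun w => bb (w = v)) e * z e := by
  rw [G.pair_d, sum_bb_eq]

theorem pair_zero {z : G₀.edgeSet ⊕ (Fin N × Fin N) → ZMod 2} (hz : z ∈ (DG G₀).Z)
    (φ : Fin N × Fin (N + 1) → ZMod 2) :
    ∑ e : G₀.edgeSet, (DG G₀).d φ (Sum.inl e) * z (Sum.inl e) +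
      ∑ q : Fin N × Fin N, (DG G₀).d φ (Sum.inr q) * z (Sum.inr q) = 0 := by
  rw [← Fintype.sum_sum_type (fun e => (DG G₀).d φ e * z e), (DG G₀).pair_d]
  exact Finset.sum_eq_zero fun w _ => by rw [hz w, mul_zero]

theorem even_of_mem {z : G₀.edgeSet ⊕ (Fin N × Fin N) → ZMod 2} (hz : z ∈ (DG G₀).Z) :
    Even0 G₀ (fun e => z (Sum.inl e)) := by
  intro v
  have h := pair_zero G₀ hz (fun w => bb (w.1 = v))
  have h1 : ∑ q : Fin N × Fin N, (DG G₀).d (fun w => bb (w.1 = v)) (Sum.inr q)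
      * z (Sum.inr q) = 0 := by
    refine Finset.sum_eq_zero fun q _ => ?_
    rw [d_inr, z2_add_self, zero_mul]
  rw [h1, add_zero] at h
  have h2 := sum_adj G₀ (fun e => z (Sum.inl e)) v (fun _ => 1)
  simp only [one_mul, mul_one] at h2
  rw [← h2, ← h]
  exact Finset.sum_congr rfl fun e _ => rfl

theorem eq_lift {z : G₀.edgeSet ⊕ (Fin N × Fin N) → ZMod 2} (hz : z ∈ (DG G₀).Z) :
    z = lift G₀ (fun e => z (Sum.inl e)) := by
  funext e
  rcases e with e | ⟨v, i⟩
  · rfl
  · rw [lift_inr, psum]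
    have h := pair_zero G₀ hz (fun w => bb (w.1 = v) * bb (w.2 < i.succ))
    have h1 : ∑ q : Fin N × Fin N, (DG G₀).d (fun w => bb (w.1 = v) * bb (w.2 < i.succ))
        (Sum.inr q) * z (Sum.inr q) = z (Sum.inr (v, i)) := by
      rw [Finset.sum_eq_single (v, i)]
      · rw [d_inr, bb_pos rfl, bb_pos Fin.castSucc_lt_succ, bb_neg (lt_irrefl _)]
        ring
      · rintro ⟨a, b⟩ _ hq
        rw [d_inr]
        by_cases ha : a = v
        · have hb : b ≠ i := fun hb => hq (by rw [ha, hb])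
          have e2 : (b.castSucc < i.succ) ↔ (b.succ < i.succ) := by
            rw [Fin.succ_lt_succ_iff, Fin.castSucc_lt_succ_iff]
            constructor
            · intro h; exact lt_of_le_of_ne h hb
            · exact le_of_lt
          rw [bb_congr e2, z2_add_self, zero_mul]
        · rw [bb_neg ha]
          ring
      · simp
    rw [h1] at h
    have h2 := sum_adj G₀ (fun e => z (Sum.inl e)) v (fun u => bb (u.castSucc < i.succ))
    rw [← h2]
    have h3 : ∑ e : G₀.edgeSet, (DG G₀).d (fun w => bb (w.1 = v) * bb (w.2 < i.succ))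
        (Sum.inl e) * z (Sum.inl e) = ∑ e, (bb (fs G₀ e = v) * bb ((sn G₀ e).castSucc < i.succ)
          + bb (sn G₀ e = v) * bb ((fs G₀ e).castSucc < i.succ)) * z (Sum.inl e) :=
      Finset.sum_congr rfl fun e _ => rfl
    rw [h3] at h
    exact (z2_add_eq_zero.1 h).symm

theorem psum_zero (x : G₀.edgeSet → ZMod 2) (v : Fin N) : psum G₀ x v 0 = 0 :=
  Finset.sum_eq_zero fun u _ => by rw [bb_neg (Fin.not_lt_zero _), zero_mul]

theorem psum_last {x : G₀.edgeSet → ZMod 2} (hx : Even0 G₀ x) (v : Fin N) :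
    psum G₀ x v (Fin.last N) = 0 := by
  rw [← hx v]
  exact Finset.sum_congr rfl fun u _ => by rw [bb_pos (Fin.castSucc_lt_last u), one_mul]

theorem psum_succ (x : G₀.edgeSet → ZMod 2) (v u₀ : Fin N) :
    psum G₀ x v u₀.succ = psum G₀ x v u₀.castSucc + adjv G₀ x v u₀ := by
  rw [← sum_bb_eq u₀ (fun u => adjv G₀ x v u), psum, psum, ← Finset.sum_add_distrib]
  refine Finset.sum_congr rfl fun u _ => ?_
  rw [← add_mul]
  congr 1
  by_cases h6 : u = u₀
  · subst h6
    rw [bb_pos Fin.castSucc_lt_succ, bb_pos rfl, bb_neg (lt_irrefl _), zero_add]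
  · have e2 : (u.castSucc < u₀.succ) ↔ (u.castSucc < u₀.castSucc) := by
      rw [Fin.castSucc_lt_succ_iff, Fin.castSucc_lt_castSucc_iff]
      exact ⟨fun h => lt_of_le_of_ne h h6, le_of_lt⟩
    rw [bb_congr e2, bb_neg h6, add_zero]

theorem lift_mem {x : G₀.edgeSet → ZMod 2} (hx : Even0 G₀ x) : lift G₀ x ∈ (DG G₀).Z := by
  rintro ⟨v, j⟩
  rw [bd_eq]
  refine (Fintype.sum_sum_type _).trans ?_
  -- path edges
  have h1 : ∑ q : Fin N × Fin N, (DG G₀).d (fun w => bb (w = (v, j))) (Sum.inr q)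
      * lift G₀ x (Sum.inr q) = ∑ i : Fin N, (bb (i.castSucc = j) + bb (i.succ = j))
        * psum G₀ x v i.succ := by
    rw [Fintype.sum_prod_type, Finset.sum_eq_single v]
    · refine Finset.sum_congr rfl fun i _ => ?_
      have e1 : ((v, i.castSucc) = (v, j)) ↔ i.castSucc = j :=
        ⟨fun h => congrArg Prod.snd h, fun h => by rw [h]⟩
      have e2 : ((v, i.succ) = (v, j)) ↔ i.succ = j :=
        ⟨fun h => congrArg Prod.snd h, fun h => by rw [h]⟩
      rw [d_inr, lift_inr, ← bb_congr e1, ← bb_congr e2]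
    · intro a _ ha
      refine Finset.sum_eq_zero fun i _ => ?_
      rw [d_inr, bb_neg, bb_neg]
      · ring
      · intro h; exact ha (congrArg Prod.fst h)
      · intro h; exact ha (congrArg Prod.fst h)
    · simp
  refine (congrArg₂ (· + ·) rfl h1).trans ?_
  rcases Fin.eq_castSucc_or_eq_last j with ⟨u₀, rfl⟩ | rfl
  · have h2 : ∑ e : G₀.edgeSet, (DG G₀).d (fun w => bb (w = (v, u₀.castSucc)))
        (Sum.inl e) * lift G₀ x (Sum.inl e) = adjv G₀ x v u₀ := by
      have h3 := sum_adj G₀ x v (fun u => bb (u = u₀))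
      rw [sum_bb_eq] at h3
      rw [← h3]
      refine Finset.sum_congr rfl fun e _ => ?_
      rw [d_inl, lift_inl, ← bb_and, ← bb_and]
      congr 2 <;> exact bb_congr (by simp [Fin.castSucc_inj])
    have h4 : ∑ i : Fin N, (bb (i.castSucc = u₀.castSucc) + bb (i.succ = u₀.castSucc))
        * psum G₀ x v i.succ = psum G₀ x v u₀.succ + psum G₀ x v u₀.castSucc := by
      simp_rw [add_mul, Finset.sum_add_distrib]
      congr 1
      · rw [← sum_bb_eq u₀ (fun i => psum G₀ x v i.succ)]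
        exact Finset.sum_congr rfl fun i _ => by
          rw [bb_congr (p := i.castSucc = u₀.castSucc) (q := i = u₀) Fin.castSucc_inj]
      · rcases Fin.eq_zero_or_eq_succ u₀.castSucc with h0 | ⟨i₀, hi⟩
        · rw [h0, psum_zero]
          refine Finset.sum_eq_zero fun i _ => ?_
          rw [bb_neg (Fin.succ_ne_zero i), zero_mul]
        · rw [hi, ← sum_bb_eq i₀ (fun i => psum G₀ x v i.succ)]
          exact Finset.sum_congr rfl fun i _ => by
            rw [bb_congr (p := i.succ = i₀.succ) (q := i = i₀) Fin.succ_inj]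
    refine (congrArg₂ (· + ·) h2 h4).trans ?_
    rw [psum_succ]
    have key : ∀ a b : ZMod 2, a + (b + a + b) = 0 := by decide
    exact key _ _
  · have h2 : ∑ e : G₀.edgeSet, (DG G₀).d (fun w => bb (w = (v, Fin.last N)))
        (Sum.inl e) * lift G₀ x (Sum.inl e) = 0 := by
      refine Finset.sum_eq_zero fun e _ => ?_
      rw [d_inl, bb_neg, bb_neg]
      · ring
      · intro h; exact Fin.castSucc_ne_last _ (congrArg Prod.snd h)
      · intro h; exact Fin.castSucc_ne_last _ (congrArg Prod.snd h)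
    have h4 : ∑ i : Fin N, (bb (i.castSucc = Fin.last N) + bb (i.succ = Fin.last N))
        * psum G₀ x v i.succ = psum G₀ x v (Fin.last N) := by
      rcases Fin.eq_zero_or_eq_succ (Fin.last N) with h0 | ⟨i₀, hi⟩
      · exfalso
        have h5 := congrArg Fin.val h0
        simp at h5
        subst h5
        exact v.elim0
      · rw [hi, ← sum_bb_eq i₀ (fun i => psum G₀ x v i.succ)]
        refine Finset.sum_congr rfl fun i _ => ?_
        rw [bb_neg (p := i.castSucc = i₀.succ), zero_add,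
          bb_congr (p := i.succ = i₀.succ) (q := i = i₀) Fin.succ_inj]
        rw [← hi]; exact Fin.castSucc_ne_last i
    refine (congrArg₂ (· + ·) h2 h4).trans ?_
    rw [psum_last G₀ hx, add_zero]

end Cyc
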