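import Pool.Agent.Cyc.ThmAnum

/-!
# Numerical part of Theorem A: consequences
-/

open Finset

namespace Cyc

theorem ta_pow_lin (k : ℕ) (hk : 6 ≤ k) : 4 * k + 26 ≤ 2 ^ k := by
  induction k, hk using Nat.le_induction with
  | base => norm_num
  | succ k hk ih => rw [pow_succ]; omega

namespace Par

variable {ε : ℝ} {R n l k : ℕ} {Q : ℝ}

theorem X_ge (h : Par ε R n l k Q) : (2 : ℝ) ^ 16 ≤ 6 * ((R : ℝ) * (l + 5)) := by
  have h1 : (1 : ℝ) ≤ R := by exact_mod_cast h.R_pos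
  have h2 : 2 ^ 16 ≤ l := by
    refine le_trans ?_ h.l_big
    exact Nat.pow_le_pow_right (by norm_num) (by have := h.R_pos; omega)
  have h3 : (2 : ℝ) ^ 16 ≤ l := by exact_mod_cast h2
  nlinarith

theorem l_ge (h : Par ε R n l k Q) : 2 ^ 16 ≤ l := by
  refine le_trans ?_ h.l_big
  exact Nat.pow_le_pow_right (by norm_num) (by have := h.R_pos; omega)

theorem Q_pos (h : Par ε R n l k Q) : 0 < Q := by linarith [h.Q1]

theorem Q_pow (h : Par ε R n l k Q) (a j : ℕ) (ha : a ≤ 40) (hj : j ≤ 10) :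
    2 ^ a * (6 * ((R : ℝ) * (l + 5))) ^ j ≤ Q := by
  refine le_trans ?_ h.Q_big
  have hX : (1 : ℝ) ≤ 6 * ((R : ℝ) * (l + 5)) := by
    have := h.X_ge
    norm_num at this
    linarith
  have h1 : (2 : ℝ) ^ a ≤ 2 ^ 40 := pow_le_pow_right₀ (by norm_num) ha
  have h2 : (6 * ((R : ℝ) * (l + 5))) ^ j ≤ (6 * ((R : ℝ) * (l + 5))) ^ 10 :=
    pow_le_pow_right₀ hX hj
  exact mul_le_mul h1 h2 (by positivity) (by positivity)

theorem k_ge (h : Par ε R n l k Q) : 16 * R < k := by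
  have h1 : 2 ^ (16 * R) < 2 ^ k := by
    refine lt_of_le_of_lt h.l_big (lt_of_le_of_lt ?_ h.k_low)
    have := h.R_pos
    nlinarith
  exact (Nat.pow_lt_pow_iff_right (by norm_num)).1 h1

/-- `196 M ^ 2 < 2 ^ (L₀ - 1)` -/
theorem L0_ok (h : Par ε R n l k Q) :
    196 * (2 * (R * (l + 5))) ^ 2 < 2 ^ ((2 * k + 9) - 1) := by
  have h1 : 2 ^ ((2 * k + 9) - 1) = 256 * (2 ^ k) ^ 2 := by
    have : (2 * k + 9) - 1 = k * 2 + 8 := by omega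
    rw [this, pow_add, pow_mul]
    ring
  rw [h1]
  have h2 : (2 * (R * (l + 5))) ^ 2 < (2 ^ k) ^ 2 := Nat.pow_lt_pow_left h.k_low (by norm_num)
  omega

theorem L_le (h : Par ε R n l k Q) : 4 * k + 26 ≤ 2 * (2 * (R * (l + 5))) := by
  refine le_trans (ta_pow_lin k ?_) h.k_up
  have := h.k_ge
  have := h.R_pos
  omega

theorem pow_L (h : Par ε R n l k Q) :
    (2 : ℝ) ^ (4 * k + 26) ≤ 2 ^ 30 * (6 * ((R : ℝ) * (l + 5))) ^ 4 := by
  have h1 : (2 : ℝ) ^ (4 * k + 26) = 2 ^ 26 * (2 ^ k) ^ 4 := by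
    rw [← pow_mul, ← pow_add]
    congr 1
    ring
  have h2 : (2 : ℝ) ^ k ≤ 2 * (6 * ((R : ℝ) * (l + 5))) := by
    have h3 : ((2 ^ k : ℕ) : ℝ) ≤ ((2 * (2 * (R * (l + 5))) : ℕ) : ℝ) := by exact_mod_cast h.k_up
    push_cast at h3
    have h4 : (0 : ℝ) ≤ (R : ℝ) * (l + 5) := by positivity
    linarith
  rw [h1]
  calc (2 : ℝ) ^ 26 * (2 ^ k) ^ 4 ≤ 2 ^ 26 * (2 * (6 * ((R : ℝ) * (l + 5)))) ^ 4 := by gcongr
    _ = 2 ^ 30 * (6 * ((R : ℝ) * (l + 5))) ^ 4 := by ring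

theorem n_big (h : Par ε R n l k Q) : 392 * (3 * (2 * (R * (l + 5)))) ^ 2 < n := by
  have h1 : ((392 * (3 * (2 * (R * (l + 5)))) ^ 2 : ℕ) : ℝ) < (n : ℝ) := by
    rw [← h.Q8]
    push_cast
    have h2 := h.Q_pow 9 2 (by norm_num) (by norm_num)
    have h3 : (3 * (2 * ((R : ℝ) * (l + 5)))) = 6 * ((R : ℝ) * (l + 5)) := by ring
    rw [h3]
    have hX := h.X_ge
    have hX0 : (0 : ℝ) < 6 * ((R : ℝ) * (l + 5)) := lt_of_lt_of_le (by norm_num) hX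
    have h4 : (392 : ℝ) * (6 * ((R : ℝ) * (l + 5))) ^ 2 < 2 ^ 9 * (6 * ((R : ℝ) * (l + 5))) ^ 2 := by
      have : 0 < (6 * ((R : ℝ) * (l + 5))) ^ 2 := by positivity
      nlinarith
    have h5 : Q ≤ Q ^ 8 := by
      calc Q = Q ^ 1 := (pow_one Q).symm
        _ ≤ Q ^ 8 := pow_le_pow_right₀ h.Q1 (by norm_num)
    linarith
  exact_mod_cast h1

theorem n_big' (h : Par ε R n l k Q) : 392 * (2 * (R * (l + 5))) ^ 2 < n := by
  refine lt_of_le_of_lt ?_ h.n_big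
  nlinarith [Nat.zero_le (R * (l + 5))]

/-- bound for the number of joining edges -/
theorem joins_ok (h : Par ε R n l k Q) :
    (2 : ℝ) ^ (1 + (2 * (R * (l + 5))) / ((4 * k + 20) - 1)) ≤ 2 * Q ^ 2 := by
  set j := (2 * (R * (l + 5))) / ((4 * k + 20) - 1) with hj
  have h1 : 16 * R * j ≤ 2 * (R * (l + 5)) := by
    have h2 : j * ((4 * k + 20) - 1) ≤ 2 * (R * (l + 5)) := Nat.div_mul_le_self _ _
    have h3 := h.k_ge
    have h4 : 16 * R ≤ (4 * k + 20) - 1 := by omega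
    calc 16 * R * j ≤ ((4 * k + 20) - 1) * j := Nat.mul_le_mul_right _ h4
      _ = j * ((4 * k + 20) - 1) := mul_comm _ _
      _ ≤ 2 * (R * (l + 5)) := h2
  have h2 : 8 * j ≤ l + 5 := by
    have hR := h.R_pos
    have : (2 * R) * (8 * j) ≤ (2 * R) * (l + 5) := by nlinarith
    exact Nat.le_of_mul_le_mul_left this (by omega)
  have hl := h.l_ge
  have h3 : 4 * j ≤ l - 1 := by omega
  have h4 : (2 : ℝ) ^ (4 * j) ≤ Q ^ 8 := by
    rw [h.Q8]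
    have h5 : 2 ^ (4 * j) ≤ n := by
      have h6 : 2 ^ (4 * j) ≤ 2 ^ (l - 1) := Nat.pow_le_pow_right (by norm_num) h3
      have h7 : 2 ^ l = 2 * 2 ^ (l - 1) := by
        conv_lhs => rw [← Nat.sub_add_cancel (show 1 ≤ l by omega)]
        rw [pow_succ]; ring
      have h8 := h.lt_n
      omega
    exact_mod_cast h5
  have h5 : (2 : ℝ) ^ j ≤ Q ^ 2 := by
    have : ((2 : ℝ) ^ j) ^ 4 ≤ (Q ^ 2) ^ 4 := by
      rw [← pow_mul, ← pow_mul, mul_comm j 4]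
      exact h4
    exact le_of_pow_le_pow_left₀ (by norm_num) (by positivity) this
  rw [pow_add, pow_one]
  linarith

theorem near_ok (h : Par ε R n l k Q) :
    (2 : ℝ) ^ (1 + (2 * (R * (l + 5))) / ((4 * k + 20) - 1)) *
      ((6 * ((2 * (R * (l + 5)) : ℕ) : ℝ)) * (1 / Q ^ 4)) ≤ 1 := by
  have h1 := h.joins_ok
  have hQ := h.Q_pos
  have h2 := h.Q_pow 4 1 (by norm_num) (by norm_num)
  rw [pow_one] at h2
  have h0 : (0 : ℝ) ≤ (R : ℝ) * (l + 5) := by positivity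
  push_cast
  calc (2 : ℝ) ^ (1 + (2 * (R * (l + 5))) / ((4 * k + 20) - 1)) *
      ((6 * (2 * ((R : ℝ) * (l + 5)))) * (1 / Q ^ 4))
      ≤ (2 * Q ^ 2) * ((6 * (2 * ((R : ℝ) * (l + 5)))) * (1 / Q ^ 4)) := by
        refine mul_le_mul_of_nonneg_right h1 (by positivity)
    _ = (24 * ((R : ℝ) * (l + 5))) / Q ^ 2 := by
        field_simp
        ring
    _ ≤ 1 := by
        rw [div_le_one (by positivity)]
        have : Q ≤ Q ^ 2 := by nlinarith [h.Q1]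
        linarith

theorem half_t0 (h : Par ε R n l k Q) : (1 / 2 : ℝ) ^ ((l + 1) / 2) ≤ 1 / Q ^ 4 := by
  have hQ := h.Q_pos
  rw [one_div_pow]
  refine one_div_le_one_div_of_le (by positivity) ?_
  have h1 : (Q ^ 4) ^ 2 ≤ ((2 : ℝ) ^ ((l + 1) / 2)) ^ 2 := by
    rw [← pow_mul, ← pow_mul]
    calc Q ^ (4 * 2) = (n : ℝ) := h.Q8
      _ ≤ (2 : ℝ) ^ l := by exact_mod_cast h.n_le
      _ ≤ (2 : ℝ) ^ ((l + 1) / 2 * 2) := pow_le_pow_right₀ (by norm_num) (by omega)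
  exact le_of_pow_le_pow_left₀ (by norm_num) (by positivity) h1

/-- the number of bad darts is small -/
theorem bad_ok (h : Par ε R n l k Q) (w : ℝ) (hw0 : 0 ≤ w) (hw : 2 * w ≤ Q ^ 4) (m : ℕ)
    (hm : m ≤ R * (l + 5)) (b : ℝ)
    (hb : b ≤ 6 * (w * 2 ^ (4 * k + 26) +
      (4 * (6 * ((R : ℝ) * (l + 5))) ^ 2 * Q) / (1 / Q ^ 4))) :
    10 * ((m : ℝ) + 1) * (b + w) ≤ 2 * Q ^ 8 := by
  set X : ℝ := 6 * ((R : ℝ) * (l + 5)) with hX
  have hQ := h.Q_pos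
  have hQ1 := h.Q1
  have hXb := h.X_ge
  rw [← hX] at hXb
  have hX1 : 1 ≤ X := le_trans (by norm_num) hXb
  have hm1 : (m : ℝ) + 1 ≤ X := by
    have : (m : ℝ) ≤ (R : ℝ) * (l + 5) := by exact_mod_cast hm
    have h5 : (0 : ℝ) ≤ (R : ℝ) * (l + 5) := by positivity
    have : X = 6 * ((R : ℝ) * (l + 5)) := hX
    linarith
  have hpow := h.pow_L
  rw [← hX] at hpow
  have e1 : w * 2 ^ (4 * k + 26) ≤ (Q ^ 4 / 2) * (2 ^ 30 * X ^ 4) :=
    mul_le_mul (by linarith) hpow (by positivity) (by positivity)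
  have e2 : (4 * X ^ 2 * Q) / (1 / Q ^ 4) = 4 * X ^ 2 * Q ^ 5 := by
    field_simp
  rw [e2] at hb
  have e3 : b + w ≤ 2 ^ 32 * X ^ 4 * Q ^ 4 + 24 * X ^ 2 * Q ^ 5 := by
    have : Q ^ 4 / 2 ≤ X ^ 4 * Q ^ 4 := by
      have h1 : 1 ≤ X ^ 4 := one_le_pow₀ hX1
      have h2 : 0 < Q ^ 4 := by positivity
      nlinarith
    have h3 : 0 < X ^ 4 * Q ^ 4 := by positivity
    nlinarith
  have e4 : 0 ≤ 2 ^ 32 * X ^ 4 * Q ^ 4 + 24 * X ^ 2 * Q ^ 5 := by positivity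
  have q5 := h.Q_pow 38 5 (by norm_num) (by norm_num)
  rw [← hX] at q5
  have q3 := h.Q_pow 10 3 (by norm_num) (by norm_num)
  rw [← hX] at q3
  have e5 : 10 * ((m : ℝ) + 1) * (b + w) ≤
      10 * X * (2 ^ 32 * X ^ 4 * Q ^ 4 + 24 * X ^ 2 * Q ^ 5) := by
    calc 10 * ((m : ℝ) + 1) * (b + w)
        ≤ 10 * ((m : ℝ) + 1) * (2 ^ 32 * X ^ 4 * Q ^ 4 + 24 * X ^ 2 * Q ^ 5) :=
          mul_le_mul_of_nonneg_left e3 (by positivity)
      _ ≤ 10 * X * (2 ^ 32 * X ^ 4 * Q ^ 4 + 24 * X ^ 2 * Q ^ 5) := by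
          refine mul_le_mul_of_nonneg_right ?_ e4
          linarith
  have e6 : 10 * X * (2 ^ 32 * X ^ 4 * Q ^ 4) ≤ Q ^ 8 := by
    calc 10 * X * (2 ^ 32 * X ^ 4 * Q ^ 4) ≤ (2 ^ 38 * X ^ 5) * Q ^ 4 := by
          have : 0 ≤ X ^ 5 * Q ^ 4 := by positivity
          nlinarith
      _ ≤ Q * Q ^ 4 := mul_le_mul_of_nonneg_right q5 (by positivity)
      _ = Q ^ 5 := by ring
      _ ≤ Q ^ 8 := pow_le_pow_right₀ hQ1 (by norm_num)
  have e7 : 10 * X * (24 * X ^ 2 * Q ^ 5) ≤ Q ^ 8 := by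
    calc 10 * X * (24 * X ^ 2 * Q ^ 5) ≤ (2 ^ 10 * X ^ 3) * Q ^ 5 := by
          have : 0 ≤ X ^ 3 * Q ^ 5 := by positivity
          nlinarith
      _ ≤ Q * Q ^ 5 := mul_le_mul_of_nonneg_right q3 (by positivity)
      _ = Q ^ 6 := by ring
      _ ≤ Q ^ 8 := pow_le_pow_right₀ hQ1 (by norm_num)
  linarith

/-- the total weight of bad closed walks is small -/
theorem badwalk_ok (h : Par ε R n l k Q) (K : ℝ) (hK0 : 0 ≤ K)
    (hK : K ≤ 2 * ((R : ℝ) * (l + 5))) :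
    ((R : ℝ) * (l + 5)) * (K ^ 2 * 2 ^ ((4 * k + 20) + 1) * (2 / Q ^ 2) *
      (4 * (6 * ((R : ℝ) * (l + 5))) ^ 2 * Q)) ≤ 1 := by
  set X : ℝ := 6 * ((R : ℝ) * (l + 5)) with hX
  have hQ := h.Q_pos
  have hQ1 := h.Q1
  have h5 : (0 : ℝ) ≤ (R : ℝ) * (l + 5) := by positivity
  have hX0 : 0 ≤ X := by positivity
  have hRX : (R : ℝ) * (l + 5) ≤ X := by rw [hX]; linarith
  have hKX : K ≤ X := by rw [hX]; linarith
  have hpow := h.pow_L
  rw [← hX] at hpow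
  have hpow2 : (2 : ℝ) ^ ((4 * k + 20) + 1) ≤ 2 ^ 30 * X ^ 4 :=
    le_trans (pow_le_pow_right₀ (by norm_num) (by omega)) hpow
  calc ((R : ℝ) * (l + 5)) * (K ^ 2 * 2 ^ ((4 * k + 20) + 1) * (2 / Q ^ 2) * (4 * X ^ 2 * Q))
      ≤ X * (X ^ 2 * (2 ^ 30 * X ^ 4) * (2 / Q ^ 2) * (4 * X ^ 2 * Q)) := by
        gcongr
    _ = (2 ^ 33 * X ^ 9) / Q := by
        field_simp
        ring
    _ ≤ 1 := by
        rw [div_le_one hQ]
        have := h.Q_pow 33 9 (by norm_num) (by norm_num)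
        rw [← hX] at this
        exact this

/-- `phi` is smaller than `2 ^ (-j)` for `j < L` at good vertices -/
theorem norep_ok (h : Par ε R n l k Q) (j : ℕ) (hj : j ≤ 4 * k + 26) :
    1 / Q ^ 4 < (1 / 2 : ℝ) ^ j := by
  set X : ℝ := 6 * ((R : ℝ) * (l + 5)) with hX
  have hQ := h.Q_pos
  have hQ1 := h.Q1
  have hpow := h.pow_L
  rw [← hX] at hpow
  have hX0 : 0 ≤ X := by positivity
  rw [one_div_pow]
  refine one_div_lt_one_div_of_lt (by positivity) ?_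
  have h1 : (2 : ℝ) ^ j ≤ 2 ^ (4 * k + 26) := pow_le_pow_right₀ (by norm_num) hj
  have h2 := h.Q_pow 31 4 (by norm_num) (by norm_num)
  rw [← hX] at h2
  have h3 : (0 : ℝ) < 2 ^ j := by positivity
  have h4 : Q ≤ Q ^ 4 := by
    calc Q = Q ^ 1 := (pow_one Q).symm
      _ ≤ Q ^ 4 := pow_le_pow_right₀ hQ1 (by norm_num)
  have h5 : 0 < 2 ^ 30 * X ^ 4 := by linarith
  nlinarith

/-- small `t` -/
theorem small_t (h : Par ε R n l k Q) (m : ℕ) (hm1 : l + 5 ≤ m) (hm : m ≤ R * (l + 5)) :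
    (((l + 1) / 2 : ℕ) : ℝ) * ((m : ℝ) * (1 / 2 : ℝ) ^ (m - (l + 1) / 2)) *
      (4 * (6 * ((R : ℝ) * (l + 5))) ^ 2 * Q) ≤ 1 / 8 := by
  set X : ℝ := 6 * ((R : ℝ) * (l + 5)) with hX
  have hQ := h.Q_pos
  have hQ1 := h.Q1
  have h5 : (0 : ℝ) ≤ (R : ℝ) * (l + 5) := by positivity
  have hX0 : 0 ≤ X := by positivity
  have h1 : (1 / 2 : ℝ) ^ (m - (l + 1) / 2) ≤ 1 / Q ^ 4 := by
    refine le_trans ?_ h.half_t0
    exact pow_le_pow_of_le_one (by norm_num) (by norm_num) (by omega)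
  have h2 : (m : ℝ) ≤ X := by
    have : (m : ℝ) ≤ (R : ℝ) * (l + 5) := by exact_mod_cast hm
    rw [hX]
    linarith
  have h3 : (((l + 1) / 2 : ℕ) : ℝ) ≤ X := by
    have h4 : (l + 1) / 2 ≤ m := by omega
    have : (((l + 1) / 2 : ℕ) : ℝ) ≤ m := by exact_mod_cast h4
    linarith
  calc (((l + 1) / 2 : ℕ) : ℝ) * ((m : ℝ) * (1 / 2 : ℝ) ^ (m - (l + 1) / 2)) * (4 * X ^ 2 * Q)
      ≤ X * (X * (1 / Q ^ 4)) * (4 * X ^ 2 * Q) := by gcongr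
    _ = (4 * X ^ 4) / Q ^ 3 := by
        field_simp
    _ ≤ 1 / 8 := by
        rw [div_le_iff₀ (by positivity)]
        have := h.Q_pow 5 4 (by norm_num) (by norm_num)
        rw [← hX] at this
        have h6 : Q ≤ Q ^ 3 := by
          calc Q = Q ^ 1 := (pow_one Q).symm
            _ ≤ Q ^ 3 := pow_le_pow_right₀ hQ1 (by norm_num)
        linarith

end Par

end Cyc
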