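import Pool.Agent.Cyc.ThmAmom
import Pool.Agent.Cyc.ThmAnum2

/-!
# Theorem A
-/

open Finset
open scoped Classical

set_option linter.unusedSectionVars false

namespace Cyc

namespace MG

variable {V E : Type} [Fintype V] [Fintype E] (G : MG V E)

/-- walks inside `Om A` from good vertices have no repetition -/
theorem ta_tame (hG : G.Good) (A : Finset V) (M L : ℕ) (hL1 : L ≤ M) (η : ℝ)
    (hη : ∀ j ≤ L, η < (1 / 2 : ℝ) ^ j) {v : V} (hv : G.taGv A M L η v) : G.Tame A L v := by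
  refine ⟨hv.1, fun x p hx hc hlen => ⟨hv.2.1 x p hx hc hlen, ?_⟩⟩
  have hlen' : p.length < L := by simpa using hlen
  refine G.no_rep hG (G.Om A) M x p.length (by omega)
    (lt_of_le_of_lt (hv.2.2 x hx) (hη p.length hlen'.le)) (x :: p) ?_
  rw [wk, mem_filter, mem_allL]
  exact ⟨by simp, rfl, hc, hv.2.1 x p hx hc hlen⟩

theorem ta_fine (hG : G.Good) (A : Finset V) (M M' L ρ k : ℕ) (hL : L ≤ M') (hkM : k ≤ M) (η : ℝ)
    (hη : ∀ j ≤ L, η < (1 / 2 : ℝ) ^ j) {c : E → ZMod 2}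
    (hc : c ∈ G.GG (G.taOg A M' L η) ρ k) : G.Fine A M L ρ c := by
  rw [GG, mem_filter] at hc
  obtain ⟨_, hcirc, hlen, hd, hch⟩ := hc
  refine ⟨hcirc, ?_, by rw [hlen]; exact hkM, ?_, hch⟩
  · intro e he
    have := G.ta_Og_sub A M' L η (hd e he).1
    rw [Om, mem_filter] at this
    exact this.2
  · rintro v ⟨e, he, hv⟩
    have h1 := (hd e he).2
    rw [taOg, mem_filter] at h1
    refine G.ta_tame hG A M' L hL η hη ?_
    rcases hv with hv | hv
    · rw [← hv]; exact h1.2.1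
    · rw [← hv]; exact h1.2.2

/-- weight of the good circuits through a vertex -/
theorem ta_kappa (hG : G.Good) (A : Finset V) (M M' L ρ : ℕ) (hM : M ≤ M') (η : ℝ) (hη0 : 0 ≤ η)
    (𝒢 : Finset (E → ZMod 2))
    (h𝒢 : ∀ c ∈ 𝒢, ∃ k ≤ M, c ∈ G.GG (G.taOg A M' L η) ρ k) (v : V) :
    ∑ c ∈ 𝒢.filter (fun c => G.On c v), (1 / 2 : ℝ) ^ len c ≤ η := by
  by_cases hv : ∃ c ∈ 𝒢, G.On c v
  · obtain ⟨c, hc, hcv⟩ := hv
    -- `v` is good
    have hvg : G.taGv A M' L η v := by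
      obtain ⟨k, _, hck⟩ := h𝒢 c hc
      rw [GG, mem_filter] at hck
      obtain ⟨e, he, hev⟩ := hcv
      have h1 := (hck.2.2.2.1 e he).2
      rw [taOg, mem_filter] at h1
      rcases hev with hev | hev
      · rw [← hev]; exact h1.2.1
      · rw [← hev]; exact h1.2.2
    have hsub : 𝒢.filter (fun c => G.On c v) ⊆ (G.short A M).filter (fun c => G.On c v) := by
      intro c' hc'
      rw [mem_filter] at hc' ⊢
      refine ⟨?_, hc'.2⟩
      obtain ⟨k, hk, hck⟩ := h𝒢 c' hc'.1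
      rw [GG, mem_filter] at hck
      rw [short, mem_filter]
      refine ⟨mem_univ _, hck.2.1, fun e he => ?_, by rw [hck.2.2.1]; exact hk⟩
      have := G.ta_Og_sub A M' L η (hck.2.2.2.1 e he).1
      rw [Om, mem_filter] at this
      exact this.2
    have h1 : ∑ c ∈ 𝒢.filter (fun c => G.On c v), (1 / 2 : ℝ) ^ len c ≤
        ∑ c ∈ (G.short A M).filter (fun c => G.On c v), (1 / 2 : ℝ) ^ len c :=
      Finset.sum_le_sum_of_subset_of_nonneg hsub fun _ _ _ => by positivity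
    have h2 := G.phi_vertex hG A M M' hM v
    have h3 : ∑ x ∈ (G.Om A).filter (fun x => G.tl x = v), G.phi (G.Om A) M' x ≤ 3 * η := by
      calc ∑ x ∈ (G.Om A).filter (fun x => G.tl x = v), G.phi (G.Om A) M' x
          ≤ ∑ _x ∈ (G.Om A).filter (fun x => G.tl x = v), η :=
            Finset.sum_le_sum fun x hx => hvg.2.2 x (mem_filter.1 hx).2
        _ = ((G.Om A).filter (fun x => G.tl x = v)).card * η := by
            rw [Finset.sum_const, nsmul_eq_mul]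
        _ ≤ 3 * η := by
            refine mul_le_mul_of_nonneg_right ?_ hη0
            have h4 : ((G.Om A).filter (fun x => G.tl x = v)).card ≤ 3 := by
              rw [← G.ta_card_tl hG v]
              exact Finset.card_le_card (Finset.filter_subset_filter _ (Finset.subset_univ _))
            exact_mod_cast h4
    have h5 : 0 ≤ ∑ c ∈ (G.short A M).filter (fun c => G.On c v), (1 / 2 : ℝ) ^ len c :=
      Finset.sum_nonneg fun _ _ => by positivity
    linarith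
  · push Not at hv
    have : 𝒢.filter (fun c => G.On c v) = ∅ := by
      rw [Finset.filter_eq_empty_iff]
      exact fun c hc => hv c hc
    rw [this]
    simpa using hη0

/-- closed walks in terms of good circuits -/
theorem ta_trace (hG : G.Good) (A : Finset V) (M' L : ℕ) (η : ℝ) (ρ t t₀ : ℕ) (ht0 : 1 ≤ t₀)
    (ht : t₀ ≤ t) (htM : 4 * t ≤ M') (htρ : 2 * t + ρ ≤ M') (hρL : ρ ≤ L) (q : ℝ) (hq : 0 ≤ q)
    (hq1 : (1 / 2 : ℝ) ^ t₀ + η ≤ q ^ 2) (hη0 : 0 ≤ η) (Φ : ℝ)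
    (hΦ : ∑ x ∈ G.Om A, G.phi (G.Om A) M' x ≤ Φ) :
    (1 / 2 : ℝ) ^ (2 * t) * (G.K (G.taOg A M' L η) ^ (2 * t)).trace / t ≤
      (2 * (t : ℝ)) ^ 2 * 2 ^ (ρ + 1) * q * Φ +
      4 * ((1 / 2 : ℝ) ^ (2 * t) * (G.GG (G.taOg A M' L η) ρ (2 * t)).card) := by
  set Ω := G.taOg A M' L η with hΩ
  have hΩsub : Ω ⊆ G.Om A := G.ta_Og_sub A M' L η
  have htpos : (0 : ℝ) < t := by exact_mod_cast (show 0 < t by omega)
  have hK : ∀ x ∈ Ω, ∀ y ∈ Ω, ∀ j, 2 * t ≤ 2 * j → j ≤ 2 * t → (G.K Ω ^ j) x y ≤ 2 ^ j * q := by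
    intro x hx y _ j hj1 hj2
    have h1 := G.sup_le hG (G.ta_Og_rev A M' L η) hΩsub M' j (by omega) x y hx
    have h2 : G.phi (G.Om A) M' x ≤ η := by
      rw [hΩ, taOg, mem_filter] at hx
      exact hx.2.1.2.2 x rfl
    have h3 : ((G.K Ω ^ j) x y) ^ 2 ≤ (2 ^ j * q) ^ 2 := by
      refine h1.trans ?_
      have h4 : (4 : ℝ) ^ j = 2 ^ j * 2 ^ j := by rw [← mul_pow]; norm_num
      have h5 : (1 / 2 : ℝ) ^ j ≤ (1 / 2 : ℝ) ^ t₀ :=
        pow_le_pow_of_le_one (by norm_num) (by norm_num) (by omega)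
      have h6 : (2 : ℝ) ^ j * (1 / 2 : ℝ) ^ j = 1 := by rw [← mul_pow]; norm_num
      have h7 : (0 : ℝ) < 2 ^ j := by positivity
      calc (2 : ℝ) ^ j + 4 ^ j * G.phi (G.Om A) M' x
          ≤ 2 ^ j + 4 ^ j * η := by
            have : (0 : ℝ) < 4 ^ j := by positivity
            nlinarith
        _ = (2 ^ j * 2 ^ j) * ((1 / 2 : ℝ) ^ j + η) := by
            rw [h4]
            linear_combination (- (2 : ℝ) ^ j) * h6
        _ ≤ (2 ^ j * 2 ^ j) * q ^ 2 := by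
            refine mul_le_mul_of_nonneg_left ?_ (by positivity)
            linarith
        _ = (2 ^ j * q) ^ 2 := by ring
    exact le_of_sq_le_sq h3 (by positivity)
  have hbad := G.bad_count hG A (G.ta_Og_rev A M' L η) hΩsub M' (2 * t) ρ (by omega) htρ q hq hK
    (by
      intro y hy x p hx hc hlen z hz
      rw [taOg, mem_filter] at hy
      exact hy.2.1.2.1 x p hx hc (hlen.trans hρL) z hz)
  have hgood := G.good_count hG (G.ta_Og_rev A M' L η) (2 * t) ρ (by omega)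
  have htr := G.trace_Kpow Ω (2 * t) (by omega)
  have hsplit : ((G.cw Ω (2 * t)).card : ℝ) =
      (((G.cw Ω (2 * t)).filter
        (fun l => ¬ ((l.map G.tl).Nodup ∧ ¬ G.Chord (chainOf l) ρ))).card : ℝ) +
      (((G.cw Ω (2 * t)).filter
        (fun l => (l.map G.tl).Nodup ∧ ¬ G.Chord (chainOf l) ρ)).card : ℝ) := by
    rw [← Nat.cast_add]
    congr 1
    rw [add_comm]
    exact (Finset.card_filter_add_card_filter_not _).symm
  have hgood' : (((G.cw Ω (2 * t)).filter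
        (fun l => (l.map G.tl).Nodup ∧ ¬ G.Chord (chainOf l) ρ)).card : ℝ) ≤
      2 * (2 * t) * (G.GG Ω ρ (2 * t)).card := by exact_mod_cast hgood
  rw [htr, hsplit, div_le_iff₀ htpos]
  have h2t : (0 : ℝ) ≤ (1 / 2 : ℝ) ^ (2 * t) := by positivity
  have hΦ0 : 0 ≤ ∑ x ∈ G.Om A, G.phi (G.Om A) M' x :=
    Finset.sum_nonneg fun x _ => G.ta_phi_nonneg _ _ _
  have hone : (1 / 2 : ℝ) ^ (2 * t) * 2 ^ (2 * t) = 1 := by rw [← mul_pow]; norm_num
  have hb2 : (1 / 2 : ℝ) ^ (2 * t) * (((G.cw Ω (2 * t)).filter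
        (fun l => ¬ ((l.map G.tl).Nodup ∧ ¬ G.Chord (chainOf l) ρ))).card : ℝ) ≤
      (2 * (t : ℝ)) ^ 2 * 2 ^ (ρ + 1) * q * Φ := by
    calc (1 / 2 : ℝ) ^ (2 * t) * (((G.cw Ω (2 * t)).filter
        (fun l => ¬ ((l.map G.tl).Nodup ∧ ¬ G.Chord (chainOf l) ρ))).card : ℝ)
        ≤ (1 / 2 : ℝ) ^ (2 * t) * (((2 * t : ℕ) : ℝ) ^ 2 * 2 ^ (ρ + 1) * 2 ^ (2 * t) * q *
            ∑ x ∈ G.Om A, G.phi (G.Om A) M' x) := mul_le_mul_of_nonneg_left hbad h2t
      _ = ((1 / 2 : ℝ) ^ (2 * t) * 2 ^ (2 * t)) * (((2 * t : ℕ) : ℝ) ^ 2 * 2 ^ (ρ + 1) * q *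
            ∑ x ∈ G.Om A, G.phi (G.Om A) M' x) := by ring
      _ = ((2 * t : ℕ) : ℝ) ^ 2 * 2 ^ (ρ + 1) * q *
            ∑ x ∈ G.Om A, G.phi (G.Om A) M' x := by rw [hone, one_mul]
      _ ≤ ((2 * t : ℕ) : ℝ) ^ 2 * 2 ^ (ρ + 1) * q * Φ :=
          mul_le_mul_of_nonneg_left hΦ (by positivity)
      _ = (2 * (t : ℝ)) ^ 2 * 2 ^ (ρ + 1) * q * Φ := by push_cast; ring
  have hg2 : (1 / 2 : ℝ) ^ (2 * t) * (((G.cw Ω (2 * t)).filter
        (fun l => (l.map G.tl).Nodup ∧ ¬ G.Chord (chainOf l) ρ)).card : ℝ) ≤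
      4 * ((1 / 2 : ℝ) ^ (2 * t) * (G.GG Ω ρ (2 * t)).card) * t := by
    calc (1 / 2 : ℝ) ^ (2 * t) * (((G.cw Ω (2 * t)).filter
        (fun l => (l.map G.tl).Nodup ∧ ¬ G.Chord (chainOf l) ρ)).card : ℝ)
        ≤ (1 / 2 : ℝ) ^ (2 * t) * (2 * (2 * t) * (G.GG Ω ρ (2 * t)).card) :=
          mul_le_mul_of_nonneg_left hgood' h2t
      _ = 4 * ((1 / 2 : ℝ) ^ (2 * t) * (G.GG Ω ρ (2 * t)).card) * t := by ring
  have ht1 : (1 : ℝ) ≤ t := by exact_mod_cast (show 1 ≤ t by omega)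
  have hb3 : (2 * (t : ℝ)) ^ 2 * 2 ^ (ρ + 1) * q * Φ ≤
      (2 * (t : ℝ)) ^ 2 * 2 ^ (ρ + 1) * q * Φ * t := by
    have : 0 ≤ (2 * (t : ℝ)) ^ 2 * 2 ^ (ρ + 1) * q * Φ := by
      have := hΦ0.trans hΦ
      positivity
    nlinarith
  rw [mul_add, add_mul]
  linarith

set_option maxHeartbeats 4000000 in
/-- Regime (i) -/
theorem ta_regime_one (hG : G.Good) {A : Finset V} (hA : G.MinSparse A) {ε : ℝ} (hε : 0 < ε)
    {R l k : ℕ} {Q : ℝ} (h : Par ε R A.card l k Q) (hR : 16 * (8 / ε + 3) ≤ Real.log R)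
    (hs : ∑ c ∈ G.short A (3 * (2 * (R * (l + 5)))), (1 / 2 : ℝ) ^ len c ≤ Q) :
    G.Pr (fun z => ¬ G.Two A z.1) ≤ ε := by
  have hQ := h.Q_pos
  have hQ1 := h.Q1
  set M := 2 * (R * (l + 5)) with hM
  set M' := 3 * M with hM'
  set L := 4 * k + 26 with hL
  set ρ := 4 * k + 20 with hρ
  set t₀ := (l + 1) / 2 with ht₀
  set η : ℝ := 1 / Q ^ 4 with hη
  have hη0 : 0 < η := by positivity
  set Ω := G.taOg A M' L η with hΩ
  set X : ℝ := 6 * ((R : ℝ) * (l + 5)) with hX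
  set Φ : ℝ := 4 * X ^ 2 * Q with hΦdef
  have hl16 := h.l_ge
  have hLM : L ≤ 2 * M := h.L_le
  have hRpos := h.R_pos
  have hMX : ((M' : ℕ) : ℝ) = X := by
    rw [hM', hM, hX]
    push_cast
    ring
  have hΦ : ∑ x ∈ G.Om A, G.phi (G.Om A) M' x ≤ Φ := by
    refine (G.phi_sum hG A M').trans ?_
    rw [hMX, hΦdef]
    exact mul_le_mul_of_nonneg_left hs (by positivity)
  have hΦ0 : 0 ≤ Φ := by positivity
  -- sizes
  have hOm : ((G.Om A).card : ℝ) + (G.del A).card = 3 * Q ^ 8 := by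
    have h1 := G.two_inn hG A
    have h2 := G.ta_card_Om A
    rw [h.Q8]
    rw [← h2] at h1
    exact_mod_cast h1
  have hw : 2 * ((G.del A).card : ℝ) ≤ Q ^ 4 := by
    have h1 := hA.1.2
    have h2 : (4 : ℝ) * ((G.del A).card : ℝ) ^ 2 ≤ Q ^ 8 := by
      rw [h.Q8]
      exact_mod_cast h1
    have h3 : (2 * ((G.del A).card : ℝ)) ^ 2 ≤ (Q ^ 4) ^ 2 := by nlinarith
    exact le_of_sq_le_sq h3 (by positivity)
  have hw0 : (0 : ℝ) ≤ ((G.del A).card : ℝ) := by positivity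
  have hQ48 : Q ^ 4 ≤ Q ^ 8 := pow_le_pow_right₀ hQ1 (by norm_num)
  have hOm2 : 2 * Q ^ 8 ≤ ((G.Om A).card : ℝ) := by linarith
  have hOm3 : ((G.Om A).card : ℝ) ≤ 3 * Q ^ 8 := by linarith
  have hQ8pos : 0 < Q ^ 8 := by positivity
  have hbad := G.ta_bad_card hG A M' L η Φ hη0 hΦ
  -- lower bound for the closed walks
  have hlow : ∀ m, l + 5 ≤ m → m ≤ R * (l + 5) → (1 / 4 : ℝ) ≤ ∑ t ∈ Finset.Ico t₀ m,
      ((m : ℝ) - t) * (1 / 2) ^ (m - t + 1) * ((1 / 2) ^ (2 * t) * (G.K Ω ^ (2 * t)).trace) := by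
    intro m hm1 hm2
    have h1 := G.closed_lower hG A (G.ta_Og_rev A M' L η) (G.ta_Og_sub A M' L η) m ?_ ?_
    · -- the trivial term
      have h2 : ((G.Om A).card : ℝ) / 2 ^ m ≤ 1 / 8 := by
        rw [div_le_iff₀ (by positivity)]
        have h3 : (2 : ℝ) ^ (l + 5) ≤ 2 ^ m := pow_le_pow_right₀ (by norm_num) hm1
        have h4 : Q ^ 8 ≤ 2 ^ l := by
          rw [h.Q8]
          exact_mod_cast h.n_le
        rw [pow_add] at h3
        linarith
      -- small t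
      have hsplit := Finset.sum_Ico_consecutive (fun t : ℕ => ((m : ℝ) - t) *
        (1 / 2 : ℝ) ^ (m - t + 1) * ((1 / 2) ^ (2 * t) * (G.K Ω ^ (2 * t)).trace))
        (show 1 ≤ t₀ by omega) (show t₀ ≤ m by omega)
      have h5 : ∑ t ∈ Finset.Ico 1 t₀, ((m : ℝ) - t) * (1 / 2 : ℝ) ^ (m - t + 1) *
          ((1 / 2) ^ (2 * t) * (G.K Ω ^ (2 * t)).trace) ≤ 1 / 8 := by
        refine le_trans ?_ (h.small_t m hm1 hm2)
        calc ∑ t ∈ Finset.Ico 1 t₀, ((m : ℝ) - t) * (1 / 2 : ℝ) ^ (m - t + 1) *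
          ((1 / 2) ^ (2 * t) * (G.K Ω ^ (2 * t)).trace)
            ≤ ∑ _t ∈ Finset.Ico 1 t₀, ((m : ℝ) * (1 / 2 : ℝ) ^ (m - t₀)) * Φ := by
              refine Finset.sum_le_sum fun t ht => ?_
              rw [Finset.mem_Ico] at ht
              have h6 : (1 / 2 : ℝ) ^ (m - t + 1) ≤ (1 / 2 : ℝ) ^ (m - t₀) :=
                pow_le_pow_of_le_one (by norm_num) (by norm_num) (by omega)
              have h7 : (1 / 2 : ℝ) ^ (2 * t) * (G.K Ω ^ (2 * t)).trace ≤ Φ := by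
                have h8 := G.ta_trace_le hG A (G.ta_Og_sub A M' L η) M' (2 * t) (by omega)
                  (by omega)
                have h9 : (1 / 2 : ℝ) ^ (2 * t) * 2 ^ (2 * t - 1) = 1 / 2 := by
                  have : 2 * t = (2 * t - 1) + 1 := by omega
                  rw [this, pow_succ, Nat.add_sub_cancel]
                  have h10 : (1 / 2 : ℝ) ^ (2 * t - 1) * 2 ^ (2 * t - 1) = 1 := by
                    rw [← mul_pow]; norm_num
                  calc (1 / 2 : ℝ) ^ (2 * t - 1) * (1 / 2) * 2 ^ (2 * t - 1)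
                      = ((1 / 2 : ℝ) ^ (2 * t - 1) * 2 ^ (2 * t - 1)) * (1 / 2) := by ring
                    _ = 1 / 2 := by rw [h10]; norm_num
                have h11 : (0 : ℝ) ≤ (1 / 2 : ℝ) ^ (2 * t) := by positivity
                calc (1 / 2 : ℝ) ^ (2 * t) * (G.K Ω ^ (2 * t)).trace
                    ≤ (1 / 2 : ℝ) ^ (2 * t) * (2 ^ (2 * t - 1) *
                      ∑ x ∈ G.Om A, G.phi (G.Om A) M' x) := mul_le_mul_of_nonneg_left h8 h11
                  _ = (1 / 2) * ∑ x ∈ G.Om A, G.phi (G.Om A) M' x := by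
                      rw [← mul_assoc, h9]
                  _ ≤ Φ := by linarith
              have h12 : 0 ≤ (1 / 2 : ℝ) ^ (2 * t) * (G.K Ω ^ (2 * t)).trace :=
                mul_nonneg (by positivity) (G.ta_trace_nonneg Ω (2 * t))
              have h13 : (m : ℝ) - t ≤ m := by
                have : (0 : ℝ) ≤ t := by positivity
                linarith
              have h14 : (0 : ℝ) ≤ (m : ℝ) - t := by
                have : (t : ℝ) ≤ m := by exact_mod_cast (show t ≤ m by omega)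
                linarith
              refine mul_le_mul ?_ h7 h12 (by positivity)
              exact mul_le_mul h13 h6 (by positivity) (by positivity)
          _ = ((t₀ - 1 : ℕ) : ℝ) * (((m : ℝ) * (1 / 2 : ℝ) ^ (m - t₀)) * Φ) := by
              rw [Finset.sum_const, Nat.card_Ico, nsmul_eq_mul]
          _ ≤ (t₀ : ℝ) * (((m : ℝ) * (1 / 2 : ℝ) ^ (m - t₀)) * Φ) := by
              refine mul_le_mul_of_nonneg_right ?_ (by positivity)
              exact_mod_cast Nat.sub_le t₀ 1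
          _ = (t₀ : ℝ) * ((m : ℝ) * (1 / 2 : ℝ) ^ (m - t₀)) * Φ := by ring
      rw [← hsplit] at h1
      linarith
    · refine le_trans ?_ hOm2
      refine h.bad_ok ((G.del A).card : ℝ) hw0 hw m hm2 _ ?_
      exact hbad
    · have h3 : (0 : ℝ) < ((G.Om A).card : ℝ) := by linarith
      exact_mod_cast h3
  -- the analytic step
  have hsum := sum_lower (fun t => (1 / 2 : ℝ) ^ (2 * t) * (G.K Ω ^ (2 * t)).trace)
    (fun t => mul_nonneg (by positivity) (G.ta_trace_nonneg Ω (2 * t))) (l + 5) (R * (l + 5)) t₀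
    (by omega) (by omega) (by nlinarith) (1 / 4) hlow
  -- good circuits
  set 𝒢 : Finset (E → ZMod 2) := (Finset.Ico t₀ (R * (l + 5))).biUnion
    (fun t => G.GG Ω ρ (2 * t)) with h𝒢
  set μ : ℝ := ∑ c ∈ 𝒢, (1 / 2 : ℝ) ^ len c with hμ
  have hμ2 : μ = ∑ t ∈ Finset.Ico t₀ (R * (l + 5)),
      (1 / 2 : ℝ) ^ (2 * t) * (G.GG Ω ρ (2 * t)).card := by
    rw [hμ, h𝒢, Finset.sum_biUnion]
    · refine Finset.sum_congr rfl fun t _ => ?_
      rw [Finset.sum_congr rfl (g := fun _ => (1 / 2 : ℝ) ^ (2 * t)) fun c hc => by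
        rw [GG, mem_filter] at hc
        rw [hc.2.2.1], Finset.sum_const, nsmul_eq_mul, mul_comm]
    · intro t _ t' _ htt'
      rw [Function.onFun, Finset.disjoint_left]
      intro c hc hc'
      rw [GG, mem_filter] at hc hc'
      have h1 := hc.2.2.1
      have h2 := hc'.2.2.1
      omega
  have hmem𝒢 : ∀ c ∈ 𝒢, ∃ j ≤ M, c ∈ G.GG (G.taOg A M' L η) ρ j := by
    intro c hc
    rw [h𝒢, mem_biUnion] at hc
    obtain ⟨t, ht, hct⟩ := hc
    rw [Finset.mem_Ico] at ht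
    exact ⟨2 * t, by omega, hct⟩
  have hμlow : (1 / 4) * Real.log R ≤ 1 + 4 * μ := by
    have e1 : (((R * (l + 5) : ℕ) : ℝ) / ((l + 5 : ℕ) : ℝ)) = R := by
      push_cast
      have : ((l : ℝ) + 5) ≠ 0 := by positivity
      field_simp
    rw [e1] at hsum
    refine hsum.trans ?_
    have hterm : ∀ t ∈ Finset.Ico t₀ (R * (l + 5)),
        (1 / 2 : ℝ) ^ (2 * t) * (G.K Ω ^ (2 * t)).trace / t ≤
        (2 * ((R : ℝ) * (l + 5))) ^ 2 * 2 ^ (ρ + 1) * (2 / Q ^ 2) * Φ +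
          4 * ((1 / 2 : ℝ) ^ (2 * t) * (G.GG Ω ρ (2 * t)).card) := by
      intro t ht
      rw [Finset.mem_Ico] at ht
      refine (G.ta_trace hG A M' L η ρ t t₀ (by omega) ht.1 (by omega) (by omega) (by omega)
        (2 / Q ^ 2) (by positivity) ?_ hη0.le Φ hΦ).trans ?_
      · have h1 := h.half_t0
        rw [← ht₀] at h1
        have h2 : (2 / Q ^ 2) ^ 2 = 4 * (1 / Q ^ 4) := by
          field_simp
          ring
        rw [h2]
        linarith
      · have h1 : (t : ℝ) ≤ (R : ℝ) * (l + 5) := by exact_mod_cast ht.2.le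
        have h2 : (2 * (t : ℝ)) ^ 2 ≤ (2 * ((R : ℝ) * (l + 5))) ^ 2 :=
          pow_le_pow_left₀ (by positivity) (by linarith) 2
        have h3 : 0 ≤ (2 : ℝ) ^ (ρ + 1) * (2 / Q ^ 2) * Φ := by positivity
        nlinarith
    refine (Finset.sum_le_sum hterm).trans ?_
    rw [Finset.sum_add_distrib, Finset.sum_const, nsmul_eq_mul, ← Finset.mul_sum, ← hμ2]
    have hb := h.badwalk_ok (2 * ((R : ℝ) * (l + 5))) (by positivity) le_rfl
    have hcard : ((Finset.Ico t₀ (R * (l + 5))).card : ℝ) ≤ (R : ℝ) * (l + 5) := by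
      rw [Nat.card_Ico]
      exact_mod_cast Nat.sub_le _ _
    have h0 : 0 ≤ (2 * ((R : ℝ) * (l + 5))) ^ 2 * 2 ^ (ρ + 1) * (2 / Q ^ 2) * Φ := by positivity
    have h1 := mul_le_mul_of_nonneg_right hcard h0
    linarith
  have hεp : 0 < 8 / ε := by positivity
  have hμbig : 8 / ε + 2 ≤ μ := by linarith
  -- second moment
  have hmom := G.ta_moment hG hA M (2 * k + 9) L ρ h.L0_ok (by omega) (by omega) h.n_big' 𝒢
    (fun c hc => by
      obtain ⟨j, hj, hcj⟩ := hmem𝒢 c hc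
      exact G.ta_fine hG A M M' L ρ j (by omega) hj η (fun i hi => h.norep_ok i hi) hcj)
    (1 + M / (ρ - 1)) le_rfl η hη0.le
    (G.ta_kappa hG A M M' L ρ (by omega) η hη0.le 𝒢 hmem𝒢) h.near_ok μ hμ (by linarith)
  refine hmom.trans ?_
  rw [div_le_iff₀ (by nlinarith)]
  have h1 : 8 ≤ ε * (μ - 1) := by
    have h2 : ε * (8 / ε) = 8 := by field_simp
    nlinarith
  nlinarith

end MG

/-- Theorem A -/
theorem thmA (ε : ℝ) (hε : 0 < ε) : ∃ n₀ : ℕ, ∀ (V E : Type) [Fintype V] [Fintype E] (G : MG V E),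
    G.Good → ∀ A : Finset V, G.MinSparse A → n₀ ≤ A.card → G.Pr (fun z => ¬ G.Two A z.1) ≤ ε := by
  obtain ⟨R, hR⟩ := exists_nat_ge (Real.exp (16 * (8 / ε + 3)))
  have hexp : 0 < Real.exp (16 * (8 / ε + 3)) := Real.exp_pos _
  have hRpos : (0 : ℝ) < R := lt_of_lt_of_le hexp hR
  have hR1 : 1 ≤ R := by exact_mod_cast hRpos
  have hlog : 16 * (8 / ε + 3) ≤ Real.log R := (Real.le_log_iff_exp_le hRpos).2 hR
  obtain ⟨n₀, hn₀⟩ := exists_par ε hε R hR1
  refine ⟨n₀, fun V E _ _ G hG A hA hn => ?_⟩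
  obtain ⟨l, k, Q, h⟩ := hn₀ A.card hn
  by_cases hreg : (∑ c ∈ G.short A (3 * (2 * (R * (l + 5)))), G.Pr (fun z => Le c z.1)) < Q
  · refine G.ta_regime_one hG hA hε h hlog (le_trans ?_ hreg.le)
    refine Finset.sum_le_sum fun c hc => ?_
    rw [MG.short, mem_filter] at hc
    exact G.Pr_Le_ge hc.2.1.1
  · push Not at hreg
    have hQ := h.Q_pos
    have hX := h.X_ge
    have h1 := h.Q_pow 1 1 (by norm_num) (by norm_num)
    rw [pow_one, pow_one] at h1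
    have hM1 : 1 ≤ 3 * (2 * (R * (l + 5))) := by
      have : 1 * 5 ≤ R * (l + 5) := Nat.mul_le_mul hR1 (by omega)
      omega
    refine (G.regime_two hG hA (3 * (2 * (R * (l + 5)))) hM1 h.n_big _ rfl ?_).trans ?_
    · have : (2 : ℝ) ^ 16 = 65536 := by norm_num
      linarith
    · rw [div_le_iff₀ (lt_of_lt_of_le hQ hreg)]
      have h2 := h.Q_eps
      have h3 : (((3 * (2 * (R * (l + 5))) : ℕ) : ℝ)) = 6 * ((R : ℝ) * (l + 5)) := by
        push_cast
        ring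
      rw [h3]
      exact h2.trans (mul_le_mul_of_nonneg_left hreg hε.le)

end Cyc
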