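import Pool.Agent.Cyc.CutClaim

/-!
# Good vertices, Section 2.2
-/

open Finset
open scoped Classical

set_option linter.unusedSectionVars false

namespace Cyc

/-- an initial segment of a chain is a chain -/
theorem ta_chain_pre {α : Type} {r : α → α → Prop} {l l₁ : List α} (h : l.IsChain r)
    (h' : l₁ <+: l) : l₁.IsChain r := by
  obtain ⟨s, rfl⟩ := h'
  exact h.left_of_append

namespace MG

variable {V E : Type} [Fintype V] [Fintype E] (G : MG V E)

theorem ta_rv_rv (x : E × Bool) : rv (rv x) = x := by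
  obtain ⟨e, b⟩ := x
  simp [rv]

theorem ta_tl_rv (x : E × Bool) : G.tl (rv x) = G.hd x := by
  obtain ⟨e, b⟩ := x
  cases b <;> simp [rv, tl, hd]

theorem ta_hd_rv (x : E × Bool) : G.hd (rv x) = G.tl x := by
  obtain ⟨e, b⟩ := x
  cases b <;> simp [rv, tl, hd]

theorem ta_mem_Om {A : Finset V} {x : E × Bool} : x ∈ G.Om A ↔ G.tl x ∈ A ∧ G.hd x ∈ A := by
  obtain ⟨e, b⟩ := x
  cases b <;> simp [Om, inn, tl, hd, and_comm]

theorem ta_rv_mem_Om {A : Finset V} {x : E × Bool} (h : x ∈ G.Om A) : rv x ∈ G.Om A := by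
  rw [ta_mem_Om] at h ⊢
  rw [ta_tl_rv, ta_hd_rv]
  exact ⟨h.2, h.1⟩

theorem ta_card_tl (hG : G.Good) (v : V) :
    (univ.filter (fun x : E × Bool => G.tl x = v)).card = 3 := by
  rw [← hG.cubic v, Finset.card_filter, Fintype.sum_prod_type, Finset.card_filter,
    Finset.card_filter, ← Finset.sum_add_distrib]
  refine Finset.sum_congr rfl fun e _ => ?_
  rw [Fintype.sum_bool]
  simp [tl, add_comm]

theorem ta_card_hd (hG : G.Good) (v : V) :
    (univ.filter (fun x : E × Bool => G.hd x = v)).card = 3 := by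
  rw [← hG.cubic v, Finset.card_filter, Fintype.sum_prod_type, Finset.card_filter,
    Finset.card_filter, ← Finset.sum_add_distrib]
  refine Finset.sum_congr rfl fun e _ => ?_
  rw [Fintype.sum_bool]
  simp [hd]

theorem ta_card_Om (A : Finset V) : (G.Om A).card = 2 * (G.inn A).card := by
  have : G.Om A = (G.inn A) ×ˢ (univ : Finset Bool) := by
    ext x
    simp [Om]
  rw [this, Finset.card_product]
  simp [mul_comm]

/-- good vertices -/
def taGv (A : Finset V) (M L : ℕ) (η : ℝ) (v : V) : Prop :=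
  v ∈ A ∧ (∀ (x : E × Bool) (p : List (E × Bool)), G.tl x = v → (x :: p).IsChain G.Nx →
    (x :: p).length ≤ L → ∀ y ∈ x :: p, y ∈ G.Om A) ∧
    ∀ x, G.tl x = v → G.phi (G.Om A) M x ≤ η

/-- good darts -/
noncomputable def taOg (A : Finset V) (M L : ℕ) (η : ℝ) : Finset (E × Bool) :=
  (G.Om A).filter (fun x => G.taGv A M L η (G.tl x) ∧ G.taGv A M L η (G.hd x))

theorem ta_Og_rev (A : Finset V) (M L : ℕ) (η : ℝ) : RevC (G.taOg A M L η) := by
  intro x hx
  rw [taOg, mem_filter] at hx ⊢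
  rw [ta_tl_rv, ta_hd_rv]
  exact ⟨G.ta_rv_mem_Om hx.1, hx.2.2, hx.2.1⟩

theorem ta_Og_sub (A : Finset V) (M L : ℕ) (η : ℝ) : G.taOg A M L η ⊆ G.Om A := filter_subset _ _

/-- a walk starting in `A` which leaves `Om A` -/
theorem ta_exit_pre {A : Finset V} : ∀ (p : List (E × Bool)) (x : E × Bool), G.tl x ∈ A →
    (x :: p).IsChain G.Nx → (∃ y ∈ x :: p, y ∉ G.Om A) →
    ∃ q y, (q ++ [y]) <+: (x :: p) ∧ G.tl y ∈ A ∧ G.hd y ∉ A := by
  intro p
  induction p with
  | nil =>
    intro x hx _ hy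
    obtain ⟨y, hy, hy2⟩ := hy
    simp only [List.mem_singleton] at hy
    subst hy
    refine ⟨[], y, by simp, hx, fun h => hy2 (G.ta_mem_Om.2 ⟨hx, h⟩)⟩
  | cons x' p ih =>
    intro x hx hc hy
    by_cases h : G.hd x ∈ A
    · have hc' := hc
      rw [List.isChain_cons_cons] at hc'
      have htl : G.tl x' ∈ A := by rw [hc'.1.1]; exact h
      have hy' : ∃ y ∈ x' :: p, y ∉ G.Om A := by
        obtain ⟨y, hy, hy2⟩ := hy
        rcases List.mem_cons.1 hy with rfl | hy
        · exact absurd (G.ta_mem_Om.2 ⟨hx, h⟩) hy2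
        · exact ⟨y, hy, hy2⟩
      obtain ⟨q, y, h1, h2, h3⟩ := ih x' htl hc'.2 hy'
      refine ⟨x :: q, y, ?_, h2, h3⟩
      simpa using h1
    · exact ⟨[], x, by simp, hx, h⟩

theorem ta_geom_le (L : ℕ) : ∑ i ∈ range L, 2 ^ i ≤ 2 ^ L := by
  have := Nat.geomSum_lt (m := 2) (n := L) (s := range L) (by norm_num) (by simp)
  exact this.le

theorem ta_exit_card (hG : G.Good) (A : Finset V) (L : ℕ) :
    (A.filter (fun v => ∃ (x : E × Bool) (p : List (E × Bool)), G.tl x = v ∧
      (x :: p).IsChain G.Nx ∧ (x :: p).length ≤ L ∧ ∃ y ∈ x :: p, y ∉ G.Om A)).card ≤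
      (G.del A).card * 2 ^ L := by
  set Ent : Finset (E × Bool) := univ.filter (fun y => G.tl y ∉ A ∧ G.hd y ∈ A) with hEnt
  have hEc : Ent.card ≤ (G.del A).card := by
    refine Finset.card_le_card_of_injOn (fun y => y.1) ?_ ?_
    · intro y hy
      rw [hEnt, Finset.mem_coe, mem_filter] at hy
      obtain ⟨e, b⟩ := y
      rw [Finset.mem_coe, del, mem_filter]
      cases b
      · simp only [tl, hd] at hy
        exact ⟨mem_univ _, Or.inr ⟨by simpa using hy.2.1, by simpa using hy.2.2⟩⟩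
      · simp only [tl, hd] at hy
        exact ⟨mem_univ _, Or.inl ⟨by simpa using hy.2.2, by simpa using hy.2.1⟩⟩
    · intro y hy y' hy' h
      rw [hEnt, Finset.mem_coe, mem_filter] at hy hy'
      obtain ⟨e, b⟩ := y
      obtain ⟨e', b'⟩ := y'
      simp only at h
      subst h
      cases b <;> cases b' <;> simp_all [tl, hd]
  have hsub : (A.filter (fun v => ∃ (x : E × Bool) (p : List (E × Bool)), G.tl x = v ∧
      (x :: p).IsChain G.Nx ∧ (x :: p).length ≤ L ∧ ∃ y ∈ x :: p, y ∉ G.Om A)) ⊆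
      Ent.biUnion (fun y => (range L).biUnion (fun i =>
        (G.wk univ y i).image (fun l => G.hd (l.getLast?.getD y)))) := by
    intro v hv
    rw [mem_filter] at hv
    obtain ⟨hvA, x, p, hx, hc, hlen, hy⟩ := hv
    obtain ⟨q, y, h1, h2, h3⟩ := G.ta_exit_pre p x (by rw [hx]; exact hvA) hc hy
    have hc1 : (q ++ [y]).IsChain G.Nx := ta_chain_pre hc h1
    have hlen1 : (q ++ [y]).length ≤ L := le_trans h1.length_le hlen
    have hhead : (q ++ [y]).head? = some x := by
      obtain ⟨s, hs⟩ := h1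
      have : ((q ++ [y]) ++ s).head? = some x := by rw [hs]; rfl
      rw [List.head?_append] at this
      cases hq : (q ++ [y]).head? with
      | none => simp at hq
      | some z => rw [hq] at this; simpa using this
    rw [mem_biUnion]
    refine ⟨rv y, ?_, ?_⟩
    · rw [hEnt, mem_filter, ta_tl_rv, ta_hd_rv]
      exact ⟨mem_univ _, h3, h2⟩
    · rw [mem_biUnion]
      refine ⟨q.length, ?_, ?_⟩
      · rw [mem_range]
        simp only [List.length_append, List.length_singleton] at hlen1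
        omega
      · rw [mem_image]
        refine ⟨(q ++ [y]).reverse.map rv, ?_, ?_⟩
        · rw [wk, mem_filter, mem_allL]
          refine ⟨by simp, by simp, ?_, fun _ _ => mem_univ _⟩
          rw [List.isChain_map, List.isChain_reverse]
          exact hc1.imp fun a b hab => (G.Nx_rev a b).1 hab
        · have : ((q ++ [y]).reverse.map rv).getLast? = some (rv x) := by
            rw [List.getLast?_map, List.getLast?_reverse, hhead]
            rfl
          rw [this, Option.getD_some, ta_hd_rv, hx]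
  refine (Finset.card_le_card hsub).trans ?_
  refine (Finset.card_biUnion_le).trans ?_
  calc ∑ y ∈ Ent, ((range L).biUnion (fun i =>
        (G.wk univ y i).image (fun l => G.hd (l.getLast?.getD y)))).card
      ≤ ∑ _y ∈ Ent, 2 ^ L := by
        refine Finset.sum_le_sum fun y _ => ?_
        refine (Finset.card_biUnion_le).trans ?_
        calc ∑ i ∈ range L, ((G.wk univ y i).image (fun l => G.hd (l.getLast?.getD y))).card
            ≤ ∑ i ∈ range L, 2 ^ i := Finset.sum_le_sum fun i _ =>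
              Finset.card_image_le.trans (G.card_wk_le hG univ y i)
          _ ≤ 2 ^ L := ta_geom_le L
    _ = Ent.card * 2 ^ L := by rw [Finset.sum_const, smul_eq_mul]
    _ ≤ (G.del A).card * 2 ^ L := Nat.mul_le_mul_right _ hEc

theorem ta_phi_nonneg (Ω : Finset (E × Bool)) (M : ℕ) (x : E × Bool) : 0 ≤ G.phi Ω M x :=
  Finset.sum_nonneg fun _ _ => by positivity

theorem ta_phi_zero {Ω : Finset (E × Bool)} (M : ℕ) {x : E × Bool} (hx : x ∉ Ω) :
    G.phi Ω M x = 0 := by
  refine Finset.sum_eq_zero fun j _ => ?_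
  have : G.SI Ω x j = ∅ := by
    rw [Finset.eq_empty_iff_forall_notMem]
    intro l hl
    rw [SI, mem_filter, wk, mem_filter] at hl
    have h1 := hl.1.2.1
    exact hx (hl.1.2.2.2 x (List.mem_of_mem_head? h1))
  rw [this]
  simp

theorem ta_bad_card (hG : G.Good) (A : Finset V) (M L : ℕ) (η Φ : ℝ) (hη : 0 < η)
    (hΦ : ∑ x ∈ G.Om A, G.phi (G.Om A) M x ≤ Φ) :
    (((G.Om A) \ (G.taOg A M L η)).card : ℝ) ≤ 6 * ((G.del A).card * 2 ^ L + Φ / η) := by
  set B1 := A.filter (fun v => ∃ (x : E × Bool) (p : List (E × Bool)), G.tl x = v ∧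
      (x :: p).IsChain G.Nx ∧ (x :: p).length ≤ L ∧ ∃ y ∈ x :: p, y ∉ G.Om A) with hB1
  set X2 := (G.Om A).filter (fun x => η < G.phi (G.Om A) M x) with hX2
  set B := B1 ∪ X2.image G.tl with hB
  have hbad : ∀ v ∈ A, ¬ G.taGv A M L η v → v ∈ B := by
    intro v hv h
    by_contra hvB
    rw [hB, mem_union, not_or] at hvB
    refine h ⟨hv, ?_, ?_⟩
    · intro x p hx hc hlen y hy
      by_contra hy2
      exact hvB.1 (mem_filter.2 ⟨hv, x, p, hx, hc, hlen, y, hy, hy2⟩)
    · intro x hx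
      by_contra h2
      push Not at h2
      have hxO : x ∈ G.Om A := by
        by_contra hx2
        rw [G.ta_phi_zero M hx2] at h2
        linarith
      exact hvB.2 (mem_image.2 ⟨x, mem_filter.2 ⟨hxO, h2⟩, hx⟩)
  have hsub : (G.Om A) \ (G.taOg A M L η) ⊆
      B.biUnion (fun v => univ.filter (fun x : E × Bool => G.tl x = v)) ∪
      B.biUnion (fun v => univ.filter (fun x : E × Bool => G.hd x = v)) := by
    intro x hx
    rw [mem_sdiff, taOg, mem_filter, not_and] at hx
    have h1 := G.ta_mem_Om.1 hx.1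
    have h2 := hx.2 hx.1
    rw [mem_union, mem_biUnion, mem_biUnion]
    by_cases h3 : G.taGv A M L η (G.tl x)
    · right
      have h4 : ¬ G.taGv A M L η (G.hd x) := fun h4 => h2 ⟨h3, h4⟩
      exact ⟨G.hd x, hbad _ h1.2 h4, by simp⟩
    · left
      exact ⟨G.tl x, hbad _ h1.1 h3, by simp⟩
  have h6 : ((G.Om A) \ (G.taOg A M L η)).card ≤ 6 * B.card := by
    refine (Finset.card_le_card hsub).trans ?_
    refine (Finset.card_union_le _ _).trans ?_
    have h1 : (B.biUnion (fun v => univ.filter (fun x : E × Bool => G.tl x = v))).card ≤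
        B.card * 3 := Finset.card_biUnion_le_card_mul _ _ _ fun v _ => (G.ta_card_tl hG v).le
    have h2 : (B.biUnion (fun v => univ.filter (fun x : E × Bool => G.hd x = v))).card ≤
        B.card * 3 := Finset.card_biUnion_le_card_mul _ _ _ fun v _ => (G.ta_card_hd hG v).le
    omega
  have hBc : (B.card : ℝ) ≤ (G.del A).card * 2 ^ L + Φ / η := by
    have h1 : B.card ≤ B1.card + X2.card := by
      refine (Finset.card_union_le _ _).trans ?_
      exact Nat.add_le_add_left Finset.card_image_le _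
    have h2 : (B1.card : ℝ) ≤ (G.del A).card * 2 ^ L := by
      exact_mod_cast G.ta_exit_card hG A L
    have h3 : (X2.card : ℝ) ≤ Φ / η := by
      rw [le_div_iff₀ hη]
      calc (X2.card : ℝ) * η = ∑ _x ∈ X2, η := by rw [Finset.sum_const, nsmul_eq_mul]
        _ ≤ ∑ x ∈ X2, G.phi (G.Om A) M x :=
          Finset.sum_le_sum fun x hx => (mem_filter.1 hx).2.le
        _ ≤ ∑ x ∈ G.Om A, G.phi (G.Om A) M x :=
          Finset.sum_le_sum_of_subset_of_nonneg (filter_subset _ _)
            fun x _ _ => G.ta_phi_nonneg _ _ _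
        _ ≤ Φ := hΦ
    have h4 : (B.card : ℝ) ≤ B1.card + X2.card := by exact_mod_cast h1
    linarith
  have h7 : (((G.Om A) \ (G.taOg A M L η)).card : ℝ) ≤ 6 * (B.card : ℝ) := by exact_mod_cast h6
  linarith

/-- traces are bounded by `phi` -/
theorem ta_trace_le (hG : G.Good) (A : Finset V) {Ω : Finset (E × Bool)} (hΩ : Ω ⊆ G.Om A) (M k : ℕ)
    (hk : 1 ≤ k) (hkM : k ≤ M) :
    (G.K Ω ^ k).trace ≤ 2 ^ (k - 1) * ∑ x ∈ G.Om A, G.phi (G.Om A) M x := by
  have hx : ∀ x ∈ Ω, (G.K Ω ^ k) x x ≤ 2 ^ (k - 1) * G.phi (G.Om A) M x := by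
    intro x hx
    refine le_trans ?_ (G.Kpow_ret_le hG Ω (G.Om A) hΩ M x hx (k - 1) (by omega))
    have h1 : G.K Ω ^ k = G.K Ω ^ (k - 1) * G.K Ω := by
      rw [← pow_succ, Nat.sub_add_cancel hk]
    rw [h1, Matrix.mul_apply]
    rw [Finset.sum_filter]
    refine Finset.sum_le_sum fun y _ => ?_
    by_cases h : G.hd y = G.tl x
    · rw [if_pos h]
      have h2 : G.K Ω y x ≤ 1 := by
        unfold K
        split_ifs <;> norm_num
      have h3 := G.Kpow_nonneg Ω x y (k - 1)
      nlinarith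
    · rw [if_neg h]
      have h2 : G.K Ω y x = 0 := by
        unfold K
        rw [if_neg]
        rintro ⟨_, _, h3⟩
        exact h h3.1.symm
      rw [h2, mul_zero]
  have hx0 : ∀ x, x ∉ Ω → (G.K Ω ^ k) x x = 0 := by
    intro x hx
    have h1 : G.K Ω ^ k = G.K Ω * G.K Ω ^ (k - 1) := by
      rw [← pow_succ', Nat.sub_add_cancel hk]
    rw [h1, Matrix.mul_apply]
    refine Finset.sum_eq_zero fun y _ => ?_
    have h2 : G.K Ω x y = 0 := by
      unfold K
      rw [if_neg]
      rintro ⟨h3, _⟩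
      exact hx h3
    rw [h2, zero_mul]
  rw [Matrix.trace]
  simp only [Matrix.diag_apply]
  rw [← Finset.sum_subset (Finset.subset_univ Ω) fun x _ hxΩ => hx0 x hxΩ]
  calc ∑ x ∈ Ω, (G.K Ω ^ k) x x ≤ ∑ x ∈ Ω, 2 ^ (k - 1) * G.phi (G.Om A) M x :=
        Finset.sum_le_sum hx
    _ ≤ ∑ x ∈ G.Om A, 2 ^ (k - 1) * G.phi (G.Om A) M x :=
        Finset.sum_le_sum_of_subset_of_nonneg hΩ fun x _ _ => by
          have := G.ta_phi_nonneg (G.Om A) M x
          positivity
    _ = 2 ^ (k - 1) * ∑ x ∈ G.Om A, G.phi (G.Om A) M x := by rw [Finset.mul_sum]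

theorem ta_trace_nonneg (Ω : Finset (E × Bool)) (k : ℕ) : 0 ≤ (G.K Ω ^ k).trace :=
  Finset.sum_nonneg fun x _ => G.Kpow_nonneg Ω x x k

end MG

end Cyc
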