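import Pool.Agent.Cyc.ThmAgood

/-!
# Second moment for fine circuits, Section 2.2 (i)
-/

open Finset
open scoped Classical

set_option linter.unusedSectionVars false

namespace Cyc

theorem ta_zmod2 (a : ZMod 2) : a = 0 ∨ a = 1 := by
  fin_cases a
  · exact Or.inl rfl
  · exact Or.inr rfl

namespace MG

variable {V E : Type} [Fintype V] [Fintype E] (G : MG V E)

/-- number of vertices of a chain -/
theorem ta_card_on (c : E → ZMod 2) : (univ.filter (fun v => G.On c v)).card ≤ 2 * len c := by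
  have hsub : univ.filter (fun v => G.On c v) ⊆
      (univ.filter (fun e => c e = 1)).image G.s ∪ (univ.filter (fun e => c e = 1)).image G.t := by
    intro v hv
    obtain ⟨e, he, h⟩ := (mem_filter.1 hv).2
    rw [mem_union, mem_image, mem_image]
    rcases h with h | h
    · exact Or.inl ⟨e, by simp [he], h⟩
    · exact Or.inr ⟨e, by simp [he], h⟩
  refine (Finset.card_le_card hsub).trans ((Finset.card_union_le _ _).trans ?_)
  have h1 := Finset.card_image_le (s := univ.filter (fun e => c e = 1)) (f := G.s)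
  have h2 := Finset.card_image_le (s := univ.filter (fun e => c e = 1)) (f := G.t)
  unfold len
  omega

theorem ta_len_add (c c' : E → ZMod 2) (hd : ∀ e, ¬ (c e = 1 ∧ c' e = 1)) :
    len (c + c') = len c + len c' := by
  unfold len
  rw [← Finset.card_union_of_disjoint]
  · congr 1
    ext e
    simp only [mem_filter, mem_univ, true_and, Pi.add_apply, mem_union]
    have h := hd e
    rcases ta_zmod2 (c e) with h1 | h1 <;> rcases ta_zmod2 (c' e) with h2 | h2 <;>
      simp_all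
  · rw [Finset.disjoint_left]
    intro e h1 h2
    exact hd e ⟨(mem_filter.1 h1).2, (mem_filter.1 h2).2⟩

theorem ta_Pr_single (hG : G.Good) {A : Finset V} (hA : G.MinSparse A) (M L₀ L ρ : ℕ)
    (h0 : 196 * M ^ 2 < 2 ^ (L₀ - 1)) (hL : 2 * L₀ + 4 ≤ L) (hρ : 2 * L₀ + 2 ≤ ρ)
    (hn : 392 * M ^ 2 < A.card) {c : E → ZMod 2} (hc : G.Fine A M L ρ c) :
    G.Pr (fun z => Le c z.1) = (1 / 2 : ℝ) ^ len c := by
  refine le_antisymm ?_ (G.Pr_Le_ge hc.circ.1)
  have h := G.Pr_Le_le c 0 ?_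
  · simpa using h
  · rw [pow_zero, Finset.card_le_one]
    intro f hf g hg
    rw [mem_filter] at hf hg
    rw [G.cut_single hG hA M L₀ L ρ h0 hL hρ hn hc f hf.2.1 hf.2.2,
      G.cut_single hG hA M L₀ L ρ h0 hL hρ hn hc g hg.2.1 hg.2.2]

theorem ta_Pr_pair (hG : G.Good) {A : Finset V} (hA : G.MinSparse A) (M L₀ L ρ : ℕ)
    (h0 : 196 * M ^ 2 < 2 ^ (L₀ - 1)) (hL : 2 * L₀ + 4 ≤ L) (hρ : 2 * L₀ + 2 ≤ ρ)
    (hn : 392 * M ^ 2 < A.card) {c c' : E → ZMod 2} (hc : G.Fine A M L ρ c)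
    (hc' : G.Fine A M L ρ c') (hne : c ≠ c') (J : ℕ) (hJ : 1 + M / (ρ - 1) ≤ J) :
    G.Pr (fun z => Le c z.1 ∧ Le c' z.1) ≤ (1 / 2 : ℝ) ^ len c * (1 / 2 : ℝ) ^ len c' +
      (if (G.joins c c').Nonempty then 2 ^ J * ((1 / 2 : ℝ) ^ len c * (1 / 2 : ℝ) ^ len c')
        else 0) := by
  have hp : 0 ≤ (1 / 2 : ℝ) ^ len c * (1 / 2 : ℝ) ^ len c' := by positivity
  have hrhs : 0 ≤ (if (G.joins c c').Nonempty then
      2 ^ J * ((1 / 2 : ℝ) ^ len c * (1 / 2 : ℝ) ^ len c') else 0) := by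
    split_ifs <;> positivity
  by_cases hv : ∃ v, G.On c v ∧ G.On c' v
  · obtain ⟨v, hv⟩ := hv
    have h : G.Pr (fun z => Le c z.1 ∧ Le c' z.1) = 0 := by
      unfold Pr
      simp only [Nat.cast_eq_zero, div_eq_zero_iff]
      left
      rw [Finset.card_eq_zero]
      ext z
      simp only [mem_filter, mem_univ, true_and, notMem_empty, iff_false]
      intro hz
      exact G.circ_disj hG z.2 hc.circ hc'.circ hz.1 hz.2 hne v hv
    rw [h]
    positivity
  · push Not at hv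
    have hd : ∀ v, ¬ (G.On c v ∧ G.On c' v) := fun v h => hv v h.1 h.2
    have hde : ∀ e, ¬ (c e = 1 ∧ c' e = 1) := fun e h =>
      hd (G.s e) ⟨⟨e, h.1, Or.inl rfl⟩, ⟨e, h.2, Or.inl rfl⟩⟩
    have h1 : G.Pr (fun z => Le c z.1 ∧ Le c' z.1) ≤ G.Pr (fun z => Le (c + c') z.1) := by
      refine G.Pr_mono fun z hz e he => ?_
      rw [Pi.add_apply] at he
      rcases ta_zmod2 (c e) with h1 | h1
      · rw [h1, zero_add] at he
        exact hz.2 e he
      · exact hz.1 e h1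
    have h2 := G.Pr_Le_le (c + c') (G.joins c c').card
      (G.cut_pair hG hA M L₀ L ρ h0 hL hρ hn hc hc' hd)
    rw [ta_len_add c c' hde, pow_add] at h2
    refine (h1.trans h2).trans ?_
    by_cases hj : (G.joins c c').Nonempty
    · rw [if_pos hj]
      have h3 : (2 : ℝ) ^ (G.joins c c').card ≤ 2 ^ J :=
        pow_le_pow_right₀ (by norm_num)
          ((G.joins_le hG M L ρ (by omega) hc hc' hd).trans hJ)
      nlinarith
    · rw [Finset.not_nonempty_iff_eq_empty] at hj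
      rw [hj]
      simp

/-- near circuits -/
theorem ta_near (hG : G.Good) (𝒢 : Finset (E → ZMod 2)) (c : E → ZMod 2) (M : ℕ)
    (hM : len c ≤ M) (κ : ℝ) (hκ0 : 0 ≤ κ)
    (hκ : ∀ v, ∑ c' ∈ 𝒢.filter (fun c' => G.On c' v), (1 / 2 : ℝ) ^ len c' ≤ κ) :
    ∑ c' ∈ 𝒢.filter (fun c' => (G.joins c c').Nonempty), (1 / 2 : ℝ) ^ len c' ≤
      (6 * M) * κ := by
  set X : Finset (E × Bool) := univ.filter (fun x => G.On c (G.tl x)) with hX
  have hXc : X.card ≤ 6 * M := by
    have hsub : X ⊆ (univ.filter (fun v => G.On c v)).biUnion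
        (fun v => univ.filter (fun x : E × Bool => G.tl x = v)) := by
      intro x hx
      rw [mem_biUnion]
      exact ⟨G.tl x, by rw [mem_filter]; exact ⟨mem_univ _, (mem_filter.1 hx).2⟩, by simp⟩
    refine (Finset.card_le_card hsub).trans ?_
    refine (Finset.card_biUnion_le_card_mul _ _ 3 fun v _ => (G.ta_card_tl hG v).le).trans ?_
    have := G.ta_card_on c
    omega
  calc ∑ c' ∈ 𝒢.filter (fun c' => (G.joins c c').Nonempty), (1 / 2 : ℝ) ^ len c'
      ≤ ∑ c' ∈ 𝒢, ∑ x ∈ X, (if G.On c' (G.hd x) then (1 / 2 : ℝ) ^ len c' else 0) := by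
        rw [Finset.sum_filter]
        refine Finset.sum_le_sum fun c' _ => ?_
        by_cases hj : (G.joins c c').Nonempty
        · rw [if_pos hj]
          obtain ⟨e, he⟩ := hj
          rw [joins, mem_filter] at he
          rcases he.2.2.2 with h | h
          · have hx : (e, false) ∈ X := by rw [hX, mem_filter]; exact ⟨mem_univ _, h.1⟩
            refine le_trans ?_ (Finset.single_le_sum (f := fun x : E × Bool =>
              (if G.On c' (G.hd x) then (1 / 2 : ℝ) ^ len c' else 0))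
              (fun x _ => by split_ifs <;> positivity) hx)
            have : G.On c' (G.hd (e, false)) := h.2
            simp only [if_pos this]
            exact le_refl _
          · have hx : (e, true) ∈ X := by rw [hX, mem_filter]; exact ⟨mem_univ _, h.2⟩
            refine le_trans ?_ (Finset.single_le_sum (f := fun x : E × Bool =>
              (if G.On c' (G.hd x) then (1 / 2 : ℝ) ^ len c' else 0))
              (fun x _ => by split_ifs <;> positivity) hx)
            have : G.On c' (G.hd (e, true)) := h.1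
            simp only [if_pos this]
            exact le_refl _
        · rw [if_neg hj]
          exact Finset.sum_nonneg fun x _ => by split_ifs <;> positivity
    _ = ∑ x ∈ X, ∑ c' ∈ 𝒢, (if G.On c' (G.hd x) then (1 / 2 : ℝ) ^ len c' else 0) :=
        Finset.sum_comm
    _ ≤ ∑ _x ∈ X, κ := by
        refine Finset.sum_le_sum fun x _ => ?_
        rw [← Finset.sum_filter]
        exact hκ (G.hd x)
    _ = X.card * κ := by rw [Finset.sum_const, nsmul_eq_mul]
    _ ≤ (6 * M) * κ := by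
        have : (X.card : ℝ) ≤ 6 * M := by exact_mod_cast hXc
        exact mul_le_mul_of_nonneg_right this hκ0

theorem ta_moment (hG : G.Good) {A : Finset V} (hA : G.MinSparse A) (M L₀ L ρ : ℕ)
    (h0 : 196 * M ^ 2 < 2 ^ (L₀ - 1)) (hL : 2 * L₀ + 4 ≤ L) (hρ : 2 * L₀ + 2 ≤ ρ)
    (hn : 392 * M ^ 2 < A.card) (𝒢 : Finset (E → ZMod 2)) (h𝒢 : ∀ c ∈ 𝒢, G.Fine A M L ρ c)
    (J : ℕ) (hJ : 1 + M / (ρ - 1) ≤ J) (κ : ℝ) (hκ0 : 0 ≤ κ)
    (hκ : ∀ v, ∑ c' ∈ 𝒢.filter (fun c' => G.On c' v), (1 / 2 : ℝ) ^ len c' ≤ κ)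
    (hs : 2 ^ J * ((6 * M) * κ) ≤ 1) (μ : ℝ) (hμ : μ = ∑ c ∈ 𝒢, (1 / 2 : ℝ) ^ len c)
    (hμ1 : 1 < μ) : G.Pr (fun z => ¬ G.Two A z.1) ≤ 2 * μ / (μ - 1) ^ 2 := by
  have hsingle : ∀ c ∈ 𝒢, G.Pr (fun z => Le c z.1) = (1 / 2 : ℝ) ^ len c := fun c hc =>
    G.ta_Pr_single hG hA M L₀ L ρ h0 hL hρ hn (h𝒢 c hc)
  refine G.second_moment A 𝒢 (fun c hc => ⟨(h𝒢 c hc).circ, (h𝒢 c hc).inn⟩) μ (2 * μ) ?_ hμ1 ?_
  · rw [hμ]
    exact Finset.sum_congr rfl fun c hc => (hsingle c hc).symm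
  · have hrow : ∀ c ∈ 𝒢, ∑ c' ∈ 𝒢, G.Pr (fun z => Le c z.1 ∧ Le c' z.1) ≤
        (1 / 2 : ℝ) ^ len c * μ + 2 * (1 / 2 : ℝ) ^ len c := by
      intro c hc
      have hterm : ∀ c' ∈ 𝒢, G.Pr (fun z => Le c z.1 ∧ Le c' z.1) ≤
          ((1 / 2 : ℝ) ^ len c * (1 / 2 : ℝ) ^ len c' +
          (if (G.joins c c').Nonempty then 2 ^ J * ((1 / 2 : ℝ) ^ len c * (1 / 2 : ℝ) ^ len c')
            else 0)) + (if c' = c then (1 / 2 : ℝ) ^ len c else 0) := by
        intro c' hc'
        by_cases h : c' = c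
        · subst h
          rw [if_pos rfl]
          have h1 : G.Pr (fun z => Le c' z.1 ∧ Le c' z.1) = (1 / 2 : ℝ) ^ len c' := by
            rw [← hsingle c' hc']
            congr 1
            funext z
            simp
          rw [h1]
          have h2 : 0 ≤ (1 / 2 : ℝ) ^ len c' * (1 / 2 : ℝ) ^ len c' +
            (if (G.joins c' c').Nonempty then
              2 ^ J * ((1 / 2 : ℝ) ^ len c' * (1 / 2 : ℝ) ^ len c') else 0) := by
            split_ifs <;> positivity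
          linarith
        · rw [if_neg h, add_zero]
          exact G.ta_Pr_pair hG hA M L₀ L ρ h0 hL hρ hn (h𝒢 c hc) (h𝒢 c' hc') (Ne.symm h) J hJ
      refine (Finset.sum_le_sum hterm).trans ?_
      rw [Finset.sum_add_distrib, Finset.sum_add_distrib, Finset.sum_ite_eq' 𝒢 c, if_pos hc,
        ← Finset.mul_sum, ← hμ, ← Finset.sum_filter, ← Finset.mul_sum, ← Finset.mul_sum]
      have hnear := G.ta_near hG 𝒢 c M (h𝒢 c hc).len_le κ hκ0 hκ
      have hcp : 0 ≤ (1 / 2 : ℝ) ^ len c := by positivity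
      have h3 : (2 : ℝ) ^ J * ((1 / 2 : ℝ) ^ len c *
          ∑ c' ∈ 𝒢.filter (fun c' => (G.joins c c').Nonempty), (1 / 2 : ℝ) ^ len c') ≤
          (1 / 2 : ℝ) ^ len c := by
        calc (2 : ℝ) ^ J * ((1 / 2 : ℝ) ^ len c *
          ∑ c' ∈ 𝒢.filter (fun c' => (G.joins c c').Nonempty), (1 / 2 : ℝ) ^ len c')
            ≤ (2 : ℝ) ^ J * ((1 / 2 : ℝ) ^ len c * ((6 * M) * κ)) := by
              refine mul_le_mul_of_nonneg_left ?_ (by positivity)
              exact mul_le_mul_of_nonneg_left hnear hcp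
          _ = (1 / 2 : ℝ) ^ len c * (2 ^ J * ((6 * M) * κ)) := by ring
          _ ≤ (1 / 2 : ℝ) ^ len c * 1 := mul_le_mul_of_nonneg_left hs hcp
          _ = (1 / 2 : ℝ) ^ len c := mul_one _
      linarith
    refine (Finset.sum_le_sum hrow).trans ?_
    rw [Finset.sum_add_distrib, ← Finset.sum_mul, ← Finset.mul_sum, ← hμ]
    nlinarith

end MG

end Cyc
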