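import Mathlib

/-!
# Numerical part of Theorem A: choice of parameters
-/

open Finset Filter

namespace Cyc

/-- The numerical facts used in Theorem A. -/
structure Par (ε : ℝ) (R n l k : ℕ) (Q : ℝ) : Prop where
  n_pos : 1 ≤ n
  R_pos : 1 ≤ R
  Q8 : Q ^ 8 = n
  Q1 : 1 ≤ Q
  n_le : n ≤ 2 ^ l
  lt_n : 2 ^ l < 2 * n
  l_big : 2 ^ (16 * R) ≤ l
  k_low : 2 * (R * (l + 5)) < 2 ^ k
  k_up : 2 ^ k ≤ 2 * (2 * (R * (l + 5)))
  Q_big : 2 ^ 40 * (6 * ((R : ℝ) * (l + 5))) ^ 10 ≤ Q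
  Q_eps : 3148 * (6 * ((R : ℝ) * (l + 5))) ^ 3 ≤ ε * Q

theorem exists_par (ε : ℝ) (hε : 0 < ε) (R : ℕ) (hR : 1 ≤ R) : ∃ n₀ : ℕ, ∀ n, n₀ ≤ n →
    ∃ (l k : ℕ) (Q : ℝ), Par ε R n l k Q := by
  set r : ℝ := (2 : ℝ) ^ (1 / 8 : ℝ) with hr
  have hr1 : 1 < r := Real.one_lt_rpow (by norm_num) (by norm_num)
  have hr0 : 0 < r := by linarith
  have hr8 : r ^ 8 = 2 := by
    rw [hr, ← Real.rpow_natCast, ← Real.rpow_mul (by norm_num)]
    norm_num
  set c : ℝ := (1 + 1 / ε) * (2 ^ 40 * (36 * (R : ℝ)) ^ 10) * r with hc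
  have hcpos : 0 < c := by
    have hRr : (1 : ℝ) ≤ R := by exact_mod_cast hR
    positivity
  have hlim := tendsto_pow_const_div_const_pow_of_one_lt 10 hr1
  have hev : ∀ᶠ l : ℕ in atTop, (l : ℝ) ^ 10 / r ^ l < 1 / c :=
    (tendsto_order.1 hlim).2 _ (by positivity)
  obtain ⟨l₀, hl₀⟩ := eventually_atTop.1 hev
  refine ⟨2 ^ (max l₀ (2 ^ (16 * R))) + 1, fun n hn => ?_⟩
  set l := Nat.clog 2 n with hl
  have hn1 : 1 < n := by
    have : 0 < 2 ^ (max l₀ (2 ^ (16 * R))) := by positivity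
    omega
  have hnl : n ≤ 2 ^ l := Nat.le_pow_clog (by norm_num) n
  have hl1 : 2 ^ (l - 1) < n := by
    have := Nat.pow_pred_clog_lt_self (b := 2) (by norm_num) hn1
    simpa using this
  have hlpos : 1 ≤ l := Nat.clog_pos (by norm_num) (by omega)
  have hl2 : 2 ^ l < 2 * n := by
    calc 2 ^ l = 2 * 2 ^ (l - 1) := by
          conv_lhs => rw [← Nat.sub_add_cancel hlpos]
          rw [pow_succ]; ring
      _ < 2 * n := by omega
  have hmax : max l₀ (2 ^ (16 * R)) ≤ l := by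
    by_contra h
    push Not at h
    have : 2 ^ l ≤ 2 ^ (max l₀ (2 ^ (16 * R))) := Nat.pow_le_pow_right (by norm_num) h.le
    omega
  have hll₀ : l₀ ≤ l := le_trans (le_max_left _ _) hmax
  have hlR : 2 ^ (16 * R) ≤ l := le_trans (le_max_right _ _) hmax
  set Mx := 2 * (R * (l + 5)) with hMx
  have hMx1 : Mx ≠ 0 := by
    have : 1 * 5 ≤ R * (l + 5) := Nat.mul_le_mul hR (by omega)
    omega
  set Q : ℝ := (n : ℝ) ^ (1 / 8 : ℝ) with hQ
  have hn0 : (0 : ℝ) ≤ n := by positivity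
  have hQ8 : Q ^ 8 = n := by
    rw [hQ, ← Real.rpow_natCast, ← Real.rpow_mul hn0]
    norm_num
  have hQ0 : 0 ≤ Q := by positivity
  have hQr : r ^ l ≤ r * Q := by
    have h1 : (r ^ l) ^ 8 ≤ (r * Q) ^ 8 := by
      rw [← pow_mul, mul_comm l 8, pow_mul, hr8, mul_pow, hr8, hQ8]
      have : ((2 ^ l : ℕ) : ℝ) ≤ ((2 * n : ℕ) : ℝ) := by exact_mod_cast hl2.le
      push_cast at this
      exact this
    exact le_of_pow_le_pow_left₀ (by norm_num) (by positivity) h1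
  have hmain : (1 + 1 / ε) * (2 ^ 40 * (6 * ((R : ℝ) * (l + 5))) ^ 10) ≤ Q := by
    have h1 := hl₀ l hll₀
    rw [div_lt_div_iff₀ (by positivity) hcpos, one_mul] at h1
    have hRr : (1 : ℝ) ≤ R := by exact_mod_cast hR
    have hlr : (1 : ℝ) ≤ l := by exact_mod_cast hlpos
    have h2 : (6 * ((R : ℝ) * (l + 5))) ≤ 36 * R * l := by nlinarith
    have h3 : (6 * ((R : ℝ) * (l + 5))) ^ 10 ≤ (36 * R * l) ^ 10 :=
      pow_le_pow_left₀ (by positivity) h2 10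
    have h4 : (1 + 1 / ε) * (2 ^ 40 * (6 * ((R : ℝ) * (l + 5))) ^ 10) * r ≤ Q * r := by
      calc (1 + 1 / ε) * (2 ^ 40 * (6 * ((R : ℝ) * (l + 5))) ^ 10) * r
          ≤ (1 + 1 / ε) * (2 ^ 40 * (36 * R * l) ^ 10) * r := by
            have : 0 < 1 + 1 / ε := by positivity
            gcongr
        _ = (l : ℝ) ^ 10 * c := by rw [hc]; ring
        _ ≤ r ^ l := h1.le
        _ ≤ r * Q := hQr
        _ = Q * r := by ring
    exact le_of_mul_le_mul_right h4 hr0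
  have hX1 : (1 : ℝ) ≤ (6 * ((R : ℝ) * (l + 5))) := by
    have hRr : (1 : ℝ) ≤ R := by exact_mod_cast hR
    have hlr : (1 : ℝ) ≤ l := by exact_mod_cast hlpos
    nlinarith
  have hεi : 0 < 1 / ε := by positivity
  have hP : 0 ≤ (2 : ℝ) ^ 40 * (6 * ((R : ℝ) * (l + 5))) ^ 10 := by positivity
  refine ⟨l, Nat.log 2 Mx + 1, Q, ⟨hn1.le, hR, hQ8, ?_, hnl, hl2, hlR, ?_, ?_, ?_, ?_⟩⟩
  · by_contra h
    push Not at h
    have : Q ^ 8 < 1 := pow_lt_one₀ hQ0 h (by norm_num)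
    rw [hQ8] at this
    have h2 : (1 : ℝ) ≤ n := by exact_mod_cast hn1.le
    linarith
  · exact Nat.lt_pow_succ_log_self (by norm_num) Mx
  · rw [pow_succ]
    have := Nat.pow_log_le_self 2 hMx1
    omega
  · nlinarith
  · have h1 : (1 / ε) * (2 ^ 40 * (6 * ((R : ℝ) * (l + 5))) ^ 10) ≤ Q := by nlinarith
    have h2 : 2 ^ 40 * (6 * ((R : ℝ) * (l + 5))) ^ 10 ≤ ε * Q := by
      have := mul_le_mul_of_nonneg_left h1 hε.le
      calc 2 ^ 40 * (6 * ((R : ℝ) * (l + 5))) ^ 10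
          = ε * ((1 / ε) * (2 ^ 40 * (6 * ((R : ℝ) * (l + 5))) ^ 10)) := by
            field_simp
        _ ≤ ε * Q := this
    refine le_trans ?_ h2
    have h3 : (6 * ((R : ℝ) * (l + 5))) ^ 3 ≤ (6 * ((R : ℝ) * (l + 5))) ^ 10 :=
      pow_le_pow_right₀ hX1 (by norm_num)
    nlinarith

end Cyc
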