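import Pool.Agent.Cyc.Lin

/-!
# Section 1: the triple lemma
-/

open Finset
open scoped Classical

namespace Cyc

namespace MG

variable {V E : Type} [Fintype V] [Fintype E] (G : MG V E)

/-- three pairwise disjoint, non-adjacent connected sets -/
structure Three (B : Fin 3 → Finset V) : Prop where
  conn : ∀ i, G.ConnOn (B i)
  nonempty : ∀ i, (B i).Nonempty
  disj : ∀ i j, i ≠ j → Disjoint (B i) (B j)
  far : ∀ i j, i ≠ j → Disjoint (G.tch (B i)) (G.tch (B j))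

theorem const_near {B : Finset V} (hB : G.ConnOn B) (φ : V → ZMod 2)
    (h : ∀ e ∈ G.tch B, G.d φ e = 0) :
    ∃ k : ZMod 2, ∀ e ∈ G.tch B, φ (G.s e) = k ∧ φ (G.t e) = k := by
  have hst : ∀ e ∈ G.tch B, φ (G.s e) = φ (G.t e) := fun e he => z2_add_eq_zero.1 (h e he)
  have hc := hB φ (fun e h1 _ => hst e (G.mem_tch.2 (Or.inl h1)))
  by_cases hne : ∃ u, u ∈ B
  · obtain ⟨u, hu⟩ := hne
    refine ⟨φ u, fun e he => ?_⟩
    rcases G.mem_tch.1 he with h1 | h1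
    · exact ⟨hc _ h1 _ hu, (hst e he).symm.trans (hc _ h1 _ hu)⟩
    · exact ⟨(hst e he).trans (hc _ h1 _ hu), hc _ h1 _ hu⟩
  · push Not at hne
    refine ⟨0, fun e he => ?_⟩
    rcases G.mem_tch.1 he with h1 | h1 <;> exact absurd h1 (hne _)

theorem triple_aux : ∀ x a b c d k₀ k₁ k₂ : ZMod 2, k₀ + k₁ + k₂ = 0 → x + 0 = a + b →
    a + c = k₀ → b + d = k₀ → x = (a + k₂) * (c + k₁) + (b + k₂) * (d + k₁) := by
  intro x a b c d k₀ k₁ k₂
  rcases z2_cases x with rfl | rfl <;> rcases z2_cases a with rfl | rfl <;>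
    rcases z2_cases b with rfl | rfl <;> rcases z2_cases c with rfl | rfl <;>
    rcases z2_cases d with rfl | rfl <;> rcases z2_cases k₀ with rfl | rfl <;>
    rcases z2_cases k₁ with rfl | rfl <;> rcases z2_cases k₂ with rfl | rfl <;> decide

theorem triple_core {B : Fin 3 → Finset V} (hB : G.Three B) (f : Fin 3 → E → ZMod 2)
    (hf : ∀ i, In (f i) (G.tch (B i))) (φ ψ : V → ZMod 2) (hφ : f 0 + f 1 = G.d φ)
    (hψ : f 0 + f 2 = G.d ψ) (k₀ k₁ k₂ : ZMod 2)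
    (h₀ : ∀ e ∈ G.tch (B 0), (φ + ψ) (G.s e) = k₀ ∧ (φ + ψ) (G.t e) = k₀)
    (h₁ : ∀ e ∈ G.tch (B 1), ψ (G.s e) = k₁ ∧ ψ (G.t e) = k₁)
    (h₂ : ∀ e ∈ G.tch (B 2), φ (G.s e) = k₂ ∧ φ (G.t e) = k₂) (hk : k₀ + k₁ + k₂ = 0) :
    G.ev (f 0) = 0 := by
  rw [ev_eq_zero_iff]
  refine ⟨fun v => (φ v + k₂) * (ψ v + k₁), ?_⟩
  have hz : ∀ i e, e ∉ G.tch (B i) → f i e = 0 := fun i e he => (In_iff_zero _ _).1 (hf i) e he
  have hfar : ∀ i j, i ≠ j → ∀ e, e ∈ G.tch (B i) → e ∉ G.tch (B j) := fun i j hij e hi hj =>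
    (Finset.disjoint_left.1 (hB.far i j hij)) hi hj
  funext e
  have eφ : f 0 e + f 1 e = φ (G.s e) + φ (G.t e) := congrFun hφ e
  have eψ : f 0 e + f 2 e = ψ (G.s e) + ψ (G.t e) := congrFun hψ e
  show f 0 e = (φ (G.s e) + k₂) * (ψ (G.s e) + k₁) + (φ (G.t e) + k₂) * (ψ (G.t e) + k₁)
  by_cases c0 : e ∈ G.tch (B 0)
  · have e1 := hz 1 e (hfar 0 1 (by decide) e c0)
    have e2 := h₀ e c0
    simp only [Pi.add_apply] at e2
    rw [e1] at eφ
    exact triple_aux _ _ _ _ _ _ _ _ hk eφ e2.1 e2.2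
  · by_cases c1 : e ∈ G.tch (B 1)
    · rw [hz 0 e c0, (h₁ e c1).1, (h₁ e c1).2, z2_add_self, mul_zero, mul_zero, add_zero]
    · by_cases c2 : e ∈ G.tch (B 2)
      · rw [hz 0 e c0, (h₂ e c2).1, (h₂ e c2).2, z2_add_self, zero_mul, zero_mul, add_zero]
      · rw [hz 0 e c0, hz 1 e c1, add_zero] at eφ
        rw [hz 0 e c0, hz 2 e c2, add_zero] at eψ
        rw [hz 0 e c0, z2_add_eq_zero.1 eφ.symm, z2_add_eq_zero.1 eψ.symm, z2_add_self]

theorem triple_data {B : Fin 3 → Finset V} (hB : G.Three B) (f : Fin 3 → E → ZMod 2)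
    (hf : ∀ i, In (f i) (G.tch (B i))) (hff : ∀ i, G.ev (f i) = G.ev (f 0)) :
    ∃ (φ ψ : V → ZMod 2) (k₀ k₁ k₂ : ZMod 2), f 0 + f 1 = G.d φ ∧ f 0 + f 2 = G.d ψ ∧
      (∀ e ∈ G.tch (B 0), (φ + ψ) (G.s e) = k₀ ∧ (φ + ψ) (G.t e) = k₀) ∧
      (∀ e ∈ G.tch (B 1), ψ (G.s e) = k₁ ∧ ψ (G.t e) = k₁) ∧
      (∀ e ∈ G.tch (B 2), φ (G.s e) = k₂ ∧ φ (G.t e) = k₂) := by
  obtain ⟨φ, hφ⟩ := (G.ev_eq_iff (f 0) (f 1)).1 (hff 1).symm
  obtain ⟨ψ, hψ⟩ := (G.ev_eq_iff (f 0) (f 2)).1 (hff 2).symm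
  have hz : ∀ i e, e ∉ G.tch (B i) → f i e = 0 := fun i e he => (In_iff_zero _ _).1 (hf i) e he
  have hfar : ∀ i j, i ≠ j → ∀ e, e ∈ G.tch (B i) → f j e = 0 := fun i j hij e hi =>
    hz j e fun hj => (Finset.disjoint_left.1 (hB.far i j hij)) hi hj
  obtain ⟨k₀, h₀⟩ := G.const_near (hB.conn 0) (φ + ψ) fun e he => by
    rw [G.d_add, Pi.add_apply, ← hφ, ← hψ, Pi.add_apply, Pi.add_apply,
      hfar 0 1 (by decide) e he, hfar 0 2 (by decide) e he, add_zero, z2_add_self]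
  obtain ⟨k₁, h₁⟩ := G.const_near (hB.conn 1) ψ fun e he => by
    rw [← hψ, Pi.add_apply, hfar 1 0 (by decide) e he, hfar 1 2 (by decide) e he, add_zero]
  obtain ⟨k₂, h₂⟩ := G.const_near (hB.conn 2) φ fun e he => by
    rw [← hφ, Pi.add_apply, hfar 2 0 (by decide) e he, hfar 2 1 (by decide) e he, add_zero]
  exact ⟨φ, ψ, k₀, k₁, k₂, hφ, hψ, h₀, h₁, h₂⟩

/-- COR 1: at most one nonzero functional is carried by all three sets. -/
theorem triple_unique (hG : G.Good) {B : Fin 3 → Finset V} (hB : G.Three B)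
    (f g : Fin 3 → E → ZMod 2) (hf : ∀ i, In (f i) (G.tch (B i)))
    (hg : ∀ i, In (g i) (G.tch (B i))) (hff : ∀ i, G.ev (f i) = G.ev (f 0))
    (hgg : ∀ i, G.ev (g i) = G.ev (g 0)) (hf0 : G.ev (f 0) ≠ 0) (hg0 : G.ev (g 0) ≠ 0) :
    G.ev (f 0) = G.ev (g 0) := by
  obtain ⟨φ, ψ, k₀, k₁, k₂, hφ, hψ, h₀, h₁, h₂⟩ := G.triple_data hB f hf hff
  obtain ⟨φ', ψ', k₀', k₁', k₂', hφ', hψ', h₀', h₁', h₂'⟩ := G.triple_data hB g hg hgg
  have hk : k₀ + k₁ + k₂ = 1 := z2_ne_zero fun hk =>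
    hf0 (G.triple_core hB f hf φ ψ hφ hψ k₀ k₁ k₂ h₀ h₁ h₂ hk)
  have hk' : k₀' + k₁' + k₂' = 1 := z2_ne_zero fun hk =>
    hg0 (G.triple_core hB g hg φ' ψ' hφ' hψ' k₀' k₁' k₂' h₀' h₁' h₂' hk)
  have key : G.ev ((fun i => f i + g i) 0) = 0 := by
    refine G.triple_core hB (fun i => f i + g i) ?_ (φ + φ') (ψ + ψ') ?_ ?_ (k₀ + k₀') (k₁ + k₁')
      (k₂ + k₂') ?_ ?_ ?_ ?_
    · intro i
      rw [In_iff_zero]
      intro e he
      show f i e + g i e = 0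
      rw [(In_iff_zero _ _).1 (hf i) e he, (In_iff_zero _ _).1 (hg i) e he, add_zero]
    · rw [G.d_add, ← hφ, ← hφ']
      abel
    · rw [G.d_add, ← hψ, ← hψ']
      abel
    · intro e he
      have a1 := h₀ e he
      have a2 := h₀' e he
      simp only [Pi.add_apply] at a1 a2 ⊢
      exact ⟨by rw [← a1.1, ← a2.1]; abel, by rw [← a1.2, ← a2.2]; abel⟩
    · intro e he
      simp only [Pi.add_apply]
      exact ⟨by rw [(h₁ e he).1, (h₁' e he).1], by rw [(h₁ e he).2, (h₁' e he).2]⟩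
    · intro e he
      simp only [Pi.add_apply]
      exact ⟨by rw [(h₂ e he).1, (h₂' e he).1], by rw [(h₂ e he).2, (h₂' e he).2]⟩
    · have : k₀ + k₀' + (k₁ + k₁') + (k₂ + k₂') = (k₀ + k₁ + k₂) + (k₀' + k₁' + k₂') := by abel
      rw [this, hk, hk', z2_add_self]
  have key' : G.ev (f 0) + G.ev (g 0) = 0 := by rw [← G.ev_add]; exact key
  exact chain_add_eq_zero.1 key'

/-- COR 2 -/
theorem triple_pair (hG : G.Good) {B : Fin 3 → Finset V} (hB : G.Three B)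
    (a b : Fin 3 → E) (ha : ∀ i, a i ∈ G.tch (B i)) (hb : ∀ i, b i ∈ G.tch (B i))
    (hab : ∀ i, a i ≠ b i) (h : ∀ i, G.co (a i) + G.co (b i) = G.co (a 0) + G.co (b 0))
    (h0 : G.co (a 0) + G.co (b 0) ≠ 0) : ¬ ∀ i, G.co (a i) = G.co (a 0) := by
  intro hall
  have hsingle : ∀ (x : E) (K : Finset E), x ∈ K → In (Pi.single x 1 : E → ZMod 2) K := by
    intro x K hx e he
    by_cases hxe : e = x
    · rw [hxe]; exact hx
    · simp [hxe] at he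
  have hne : ∀ e : E, G.co e ≠ 0 := by
    intro e he
    obtain ⟨z, hz⟩ := hG.bridgeless e
    have := congrFun he z
    simp only [co, hz, Pi.zero_apply] at this
    exact z2_one_ne_zero this
  have hb' : ∀ i, G.co (b i) = G.co (b 0) := by
    intro i
    have := h i
    rw [hall i] at this
    exact add_left_cancel this
  have key := G.triple_unique hG hB (fun i => Pi.single (a i) 1) (fun i => Pi.single (b i) 1)
    (fun i => hsingle _ _ (ha i)) (fun i => hsingle _ _ (hb i))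
    (fun i => by rw [← G.co_eq, ← G.co_eq]; exact hall i)
    (fun i => by rw [← G.co_eq, ← G.co_eq]; exact hb' i)
    (by rw [← G.co_eq]; exact hne _) (by rw [← G.co_eq]; exact hne _)
  rw [← G.co_eq, ← G.co_eq] at key
  exact h0 (chain_add_eq_zero.2 key)

end MG

end Cyc
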