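import Pool.Agent.Cyc.Structure

/-!
# Section 5: the tube lemma
-/

set_option linter.unusedSectionVars false
set_option linter.unusedVariables false

open Finset
open scoped Classical

namespace Cyc

namespace MG

variable {V E : Type} [Fintype V] [Fintype E] (G : MG V E)

/-- number of even chains supported in `H` -/
noncomputable def numZ (H : Finset E) : ℕ := (univ.filter (fun z : G.Z => In z.1 H)).card

/-- number of circuits supported in `H` -/
noncomputable def numC (H : Finset E) : ℕ := (univ.filter (fun z : G.Z => In z.1 H ∧ G.Circ z.1)).card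

/-! ### the subgraph with the edges of `H` -/

/-- the subgraph with the edges of `H` -/
def tSub (H : Finset E) : MG V {e // e ∈ H} := ⟨fun e => G.s e.1, fun e => G.t e.1⟩

theorem tSub_bd (H : Finset E) (z : E → ZMod 2) (hz : In z H) (v : V) :
    (G.tSub H).bd (fun e => z e.1) v = G.bd z v := by
  unfold bd
  have h1 : ∑ e, ((if G.s e = v then z e else 0) + (if G.t e = v then z e else 0)) =
      ∑ e ∈ H, ((if G.s e = v then z e else 0) + (if G.t e = v then z e else 0)) := by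
    symm
    refine Finset.sum_subset (Finset.subset_univ _) fun e _ he => ?_
    rw [(In_iff_zero z H).1 hz e he]
    simp
  rw [h1]
  exact Finset.sum_coe_sort H
    (fun e => ((if G.s e = v then z e else 0) + (if G.t e = v then z e else 0)))

/-- extension by zero -/
noncomputable def tExt (H : Finset E) (y : {e // e ∈ H} → ZMod 2) : E → ZMod 2 :=
  fun e => if h : e ∈ H then y ⟨e, h⟩ else 0

theorem tExt_in (H : Finset E) (y : {e // e ∈ H} → ZMod 2) : In (tExt H y) H := by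
  rw [In_iff_zero]
  intro e he
  simp [tExt, he]

theorem tExt_apply (H : Finset E) (y : {e // e ∈ H} → ZMod 2) (e : {e // e ∈ H}) :
    tExt H y e.1 = y e := by
  simp [tExt, e.2]

theorem tExt_res (H : Finset E) (z : E → ZMod 2) (hz : In z H) :
    tExt H (fun e => z e.1) = z := by
  funext e
  unfold tExt
  split_ifs with h
  · rfl
  · exact ((In_iff_zero z H).1 hz e h).symm

theorem tExt_mem (H : Finset E) (y : (G.tSub H).Z) : tExt H y.1 ∈ G.Z := by
  intro v
  rw [← G.tSub_bd H _ (tExt_in H y.1)]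
  have h1 : (fun e : {e // e ∈ H} => tExt H y.1 e.1) = y.1 := by
    funext e
    exact tExt_apply H y.1 e
  rw [h1]
  exact y.2 v

theorem tRes_mem (H : Finset E) {z : E → ZMod 2} (hz : z ∈ G.Z) (hH : In z H) :
    (fun e : {e // e ∈ H} => z e.1) ∈ (G.tSub H).Z := by
  intro v
  rw [G.tSub_bd H z hH]
  exact hz v

theorem tExt_add (H : Finset E) (y y' : {e // e ∈ H} → ZMod 2) :
    tExt H (y + y') = tExt H y + tExt H y' := by
  funext e
  simp only [tExt, Pi.add_apply]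
  split_ifs <;> simp

theorem tExt_smul (H : Finset E) (a : ZMod 2) (y : {e // e ∈ H} → ZMod 2) :
    tExt H (a • y) = a • tExt H y := by
  funext e
  simp only [tExt, Pi.smul_apply, smul_eq_mul]
  split_ifs <;> simp

theorem card_tSub (H : Finset E) (p : (E → ZMod 2) → Prop) :
    (G.tSub H).cnt (fun y => p (tExt H y.1)) =
      (univ.filter (fun z : G.Z => In z.1 H ∧ p z.1)).card := by
  unfold cnt
  refine Finset.card_bij (fun y _ => ⟨tExt H y.1, G.tExt_mem H y⟩) ?_ ?_ ?_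
  · intro y hy
    simp only [mem_filter, mem_univ, true_and] at hy ⊢
    exact ⟨tExt_in H y.1, hy⟩
  · intro a _ b _ h
    have h1 : tExt H a.1 = tExt H b.1 := congrArg Subtype.val h
    apply Subtype.ext
    funext e
    rw [← tExt_apply H a.1 e, ← tExt_apply H b.1 e, h1]
  · intro z hz
    simp only [mem_filter, mem_univ, true_and] at hz
    refine ⟨⟨fun e => z.1 e.1, G.tRes_mem H z.2 hz.1⟩, ?_, ?_⟩
    · simp only [mem_filter, mem_univ, true_and]
      rw [tExt_res H z.1 hz.1]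
      exact hz.2
    · apply Subtype.ext
      exact tExt_res H z.1 hz.1

theorem card_tSub_univ (H : Finset E) : Fintype.card (G.tSub H).Z = G.numZ H := by
  have h := G.card_tSub H (fun _ => True)
  unfold cnt at h
  rw [Finset.filter_true, Finset.card_univ] at h
  rw [h]
  unfold numZ
  congr 1
  ext z
  simp

/-- abstract form of the probabilistic part -/
theorem few_circ (H : Finset E) (I : Finset ℕ) (K : ℕ → Finset E) (B : ℕ → (E → ZMod 2) → Prop)
    (hg : ∀ y : ℕ → E → ZMod 2, (∀ i, y i ∈ G.Z ∧ In (y i) H) →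
      ∃ z ∈ G.Z, In z H ∧ ∀ i ∈ I, ∀ e ∈ K i, z e = y i e)
    (hB : ∀ i ∈ I, ∀ z z' : E → ZMod 2, (∀ e ∈ K i, z e = z' e) → (B i z ↔ B i z'))
    (hp : ∀ i ∈ I, ∃ w₀ w₁ w₂ : E → ZMod 2, (w₀ ∈ G.Z ∧ In w₀ H) ∧ (w₁ ∈ G.Z ∧ In w₁ H) ∧
      (w₂ ∈ G.Z ∧ In w₂ H) ∧ ∀ z ∈ G.Z, In z H →
        ∃ a : Fin 3 → ZMod 2, B i (z + (a 0 • w₀ + a 1 • w₁ + a 2 • w₂)))
    (hc : ∀ z : E → ZMod 2, G.Circ z → In z H → ∀ i ∈ I, ∀ j ∈ I, B i z → B j z → i = j) :
    (G.numC H : ℝ) ≤ (I.card + 1) * (7 / 8) ^ (I.card - 1) * G.numZ H := by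
  have hcard : (0 : ℝ) < Fintype.card (G.tSub H).Z := (G.tSub H).card_Z_pos'
  have h0 : ∀ z, (G.tSub H).ev 0 z = 0 := (G.tSub H).ev_zero'
  have hPr : ∀ p : (G.tSub H).Z → Prop,
      (G.tSub H).Pr (fun z => (G.tSub H).ev 0 z = 0 ∧ p z) = (G.tSub H).Pr p := fun p =>
    (G.tSub H).Pr_congr fun z => by simp [h0 z]
  have hPr1 : (G.tSub H).Pr (fun z => (G.tSub H).ev 0 z = 0) = 1 := by
    rw [← (G.tSub H).Pr_true]
    exact (G.tSub H).Pr_congr fun z => by simp [h0 z]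
  have key := (G.tSub H).at_most_one I (fun i => univ.filter (fun e : {e // e ∈ H} => e.1 ∈ K i)) 0
    (by
      intro y _
      obtain ⟨z, hz, hzH, hze⟩ := hg (fun i => tExt H (y i).1)
        (fun i => ⟨G.tExt_mem H (y i), tExt_in H (y i).1⟩)
      refine ⟨⟨fun e => z e.1, G.tRes_mem H hz hzH⟩, h0 _, ?_⟩
      intro i hi e he
      simp only [mem_filter, mem_univ, true_and] at he
      show z e.1 = _
      rw [hze i hi e.1 he, tExt_apply]) 0 (fun i z => B i (tExt H z.1))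
    (by
      intro i hi z z' hzz
      apply hB i hi
      intro e he
      by_cases h : e ∈ H
      · have := hzz ⟨e, h⟩ (by simp [he])
        simp only [tExt, h, dif_pos]
        exact this
      · simp [tExt, h]) (1 / 8) (by norm_num) (by norm_num)
    (by
      intro i hi
      rw [hPr, hPr1, mul_one]
      obtain ⟨w₀, w₁, w₂, hw₀, hw₁, hw₂, hcov⟩ := hp i hi
      let W : (Fin 3 → ZMod 2) → (G.tSub H).Z := fun a =>
        a 0 • ⟨fun e => w₀ e.1, G.tRes_mem H hw₀.1 hw₀.2⟩ +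
        a 1 • ⟨fun e => w₁ e.1, G.tRes_mem H hw₁.1 hw₁.2⟩ +
        a 2 • ⟨fun e => w₂ e.1, G.tRes_mem H hw₂.1 hw₂.2⟩
      have hW : ∀ a, tExt H (W a).1 = a 0 • w₀ + a 1 • w₁ + a 2 • w₂ := by
        intro a
        simp only [W]
        rw [Submodule.coe_add, Submodule.coe_add, Submodule.coe_smul, Submodule.coe_smul,
          Submodule.coe_smul, tExt_add, tExt_add, tExt_smul, tExt_smul, tExt_smul,
          tExt_res H w₀ hw₀.2, tExt_res H w₁ hw₁.2, tExt_res H w₂ hw₂.2]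
      have h1 : (G.tSub H).Pr (fun _ => True) ≤
          ∑ a : Fin 3 → ZMod 2, (G.tSub H).Pr (fun z => B i (tExt H z.1)) := by
        refine le_trans ((G.tSub H).Pr_mono (q := fun z => ∃ a ∈ (univ : Finset (Fin 3 → ZMod 2)),
          B i (tExt H (z + W a).1)) ?_) ?_
        · intro z _
          obtain ⟨a, ha⟩ := hcov _ (G.tExt_mem H z) (tExt_in H z.1)
          refine ⟨a, Finset.mem_univ _, ?_⟩
          rw [Submodule.coe_add, tExt_add, hW]
          exact ha
        · refine ((G.tSub H).Pr_exists_le _ _).trans (le_of_eq ?_)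
          refine Finset.sum_congr rfl fun a _ => ?_
          exact ((G.tSub H).Pr_translate (fun z => B i (tExt H z.1)) (W a)).symm
      rw [(G.tSub H).Pr_true, Finset.sum_const, Finset.card_univ, Fintype.card_fun,
        ZMod.card, Fintype.card_fin, nsmul_eq_mul] at h1
      norm_num at h1
      linarith)
  rw [hPr] at key
  have h2 : (G.tSub H).Pr (fun z => G.Circ (tExt H z.1)) ≤ (I.card + 1) * (7 / 8) ^ (I.card - 1) := by
    refine le_trans ((G.tSub H).Pr_mono ?_) (key.trans (le_of_eq (by norm_num)))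
    intro z hz i hi j hj h1 h2
    exact hc _ hz (tExt_in H z.1) i hi j hj h1 h2
  rw [Pr_eq_cnt, G.card_tSub H G.Circ, div_le_iff₀ hcard, G.card_tSub_univ H] at h2
  exact h2


section ring

variable {G} {L : E → ZMod 2} {m : ℕ} (R : G.Ring L m)

/-- vertices of the pieces `x, ..., y - 1` -/
noncomputable def Ring.U (x y : ℕ) : Finset V := univ.filter (fun v => x ≤ R.h v ∧ R.h v < y)

theorem Ring.mem_U {x y : ℕ} {v : V} : v ∈ R.U x y ↔ x ≤ R.h v ∧ R.h v < y := by simp [Ring.U]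

/-- edges with both ends outside the piece `0`, or: position of an edge with an end in `[x, y)`,
where `1 ≤ x` and `y ≤ m`. -/
theorem Ring.t_cases (hm : 2 ≤ m) (e : E) :
    (R.c e = none ∧ R.h (G.s e) = R.h (G.t e)) ∨
    (R.c e = some 0 ∧ ((R.h (G.s e) = m - 1 ∧ R.h (G.t e) = 0) ∨
      (R.h (G.s e) = 0 ∧ R.h (G.t e) = m - 1))) ∨
    ∃ i, R.c e = some (i + 1) ∧ i + 1 < m ∧ ((R.h (G.s e) = i ∧ R.h (G.t e) = i + 1) ∨
      (R.h (G.s e) = i + 1 ∧ R.h (G.t e) = i)) := by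
  rcases hc : R.c e with _ | j
  · exact Or.inl ⟨rfl, R.inner e hc⟩
  · right
    rcases j with _ | j
    · exact Or.inl ⟨rfl, R.cross0 e hc⟩
    · exact Or.inr ⟨j, rfl, R.clt e _ hc, R.cross e j hc⟩

theorem Ring.F_eq_pair {i : ℕ} (hi : i < m) : ∃ a b, a ≠ b ∧ R.F i = {a, b} :=
  Finset.card_eq_two.1 (R.two i hi)

/-- the edges of `F y` have exactly one end in `[x, y)`. -/
theorem Ring.F_del_left {x y : ℕ} (hxy : x < y) (hy : y < m) (hx : 1 ≤ x) {e : E}
    (he : R.c e = some y) : e ∈ G.del (R.U x y) := by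
  obtain ⟨j, rfl⟩ : ∃ j, y = j + 1 := ⟨y - 1, by omega⟩
  have h := R.cross e j he
  rw [mem_del, R.mem_U, R.mem_U]
  omega

/-- the edges of `F x` have exactly one end in `[x, y)`. -/
theorem Ring.F_del_right {x y : ℕ} (hxy : x < y) (hy : y ≤ m) (hx : 1 ≤ x) {e : E}
    (he : R.c e = some x) : e ∈ G.del (R.U x y) := by
  obtain ⟨j, rfl⟩ : ∃ j, x = j + 1 := ⟨x - 1, by omega⟩
  have h := R.cross e j he
  rw [mem_del, R.mem_U, R.mem_U]
  omega

theorem Ring.conn_compl_U (hm : 2 ≤ m) {x y : ℕ} (hx : 1 ≤ x) (hxy : x < y) (hy : y ≤ m) :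
    G.ConnOn (R.U x y)ᶜ := by
  have h := R.conn_compl hm (a := x) (b := y - 1) (by omega) (by omega) (Or.inl hx)
  have h1 : R.U x y = univ.filter (fun v => x ≤ R.h v ∧ R.h v ≤ y - 1) := by
    ext v
    rw [R.mem_U]
    simp only [mem_filter, mem_univ, true_and]
    omega
  rw [h1]
  exact h

theorem del_not_inn {X : Finset V} {e : E} (h : e ∈ G.del X) : e ∉ G.inn X := by
  rw [mem_del] at h
  rw [mem_inn]
  tauto

theorem tch_cases {X : Finset V} {e : E} (h : e ∈ G.tch X) : e ∈ G.inn X ∨ e ∈ G.del X := by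
  rw [mem_tch] at h
  rw [mem_inn, mem_del]
  tauto

theorem inn_mono_tb {X Y : Finset V} (h : X ⊆ Y) : G.inn X ⊆ G.inn Y := by
  intro e he
  rw [mem_inn] at he ⊢
  exact ⟨h he.1, h he.2⟩

theorem Ring.U_mono {x y x' y' : ℕ} (h : x' ≤ x) (h' : y ≤ y') : R.U x y ⊆ R.U x' y' := by
  intro v hv
  rw [R.mem_U] at hv ⊢
  omega

end ring

section run

variable {G} {Nb : ℕ} (r : G.Run Nb)

/-- core of the claim: a perfect run has no closed separating set `M` in an interval. -/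
theorem Run.core (H : Finset E) {x y : ℕ} (hx : r.a ≤ x) (hxy : x < y) (hy : y ≤ r.a + r.q)
    {Γ : E → ZMod 2} (hΓ : G.Circ Γ) (hΓin : In Γ (G.inn (r.R.U x y)))
    {j : ℕ} (hj : j < r.m) (hF : ∀ e, r.R.c e = some j → e ∈ G.del (r.R.U x y))
    {e₁ e₂ : E} (h1 : r.R.c e₁ = some j) (h2 : r.R.c e₂ = some j) (hne : e₁ ≠ e₂)
    {z₀ : E → ZMod 2} (hz₀ : z₀ ∈ G.Z) (hz₀H : In z₀ H)
    (hz1 : z₀ e₁ = 1) (hz2 : z₀ e₂ = 1)
    {u₁ u₂ : V} (hu1 : u₁ ∈ r.R.U x y) (hu2 : u₂ ∈ r.R.U x y)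
    (h1u : G.s e₁ = u₁ ∨ G.t e₁ = u₁) (h2u : G.s e₂ = u₂ ∨ G.t e₂ = u₂)
    (M : Finset V) (hM : M ⊆ r.R.U x y)
    (hcl : ∀ e ∈ H, e ∈ G.inn (r.R.U x y) → (G.s e ∈ M ↔ G.t e ∈ M))
    (hΓM : In Γ (G.inn Mᶜ)) (hone : ¬ (u₁ ∈ M ↔ u₂ ∈ M)) : False := by
  have ha := r.ha
  have hq := r.hq
  have hm := r.hm
  let w : E → ZMod 2 := fun e => if e ∈ G.tch M then z₀ e else 0
  have hw : ∀ v ∈ r.R.U x y, G.bd w v = 0 := by
    intro v hv
    by_cases hvM : v ∈ M
    · refine (G.bd_congr ?_).trans (hz₀ v)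
      intro e he
      have : e ∈ G.tch M := by
        rw [mem_tch]
        rcases he with rfl | rfl
        · exact Or.inl hvM
        · exact Or.inr hvM
      simp only [w, if_pos this]
    · refine (G.bd_congr ?_).trans (G.bd_zero v)
      intro e he
      simp only [w, Pi.zero_apply]
      split_ifs with h3
      · by_contra h4
        have h5 := hz₀H e (z2_ne_zero h4)
        rw [mem_tch] at h3
        have h6 : e ∈ G.inn (r.R.U x y) := by
          rw [mem_inn]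
          rcases he with rfl | rfl
          · exact ⟨hv, hM (h3.resolve_left hvM)⟩
          · exact ⟨hM (h3.resolve_right hvM), hv⟩
        have h7 := hcl e h5 h6
        rcases he with rfl | rfl
        · exact hvM (h7.2 (h3.resolve_left hvM))
        · exact hvM (h7.1 (h3.resolve_right hvM))
      · rfl
  obtain ⟨z, hz, hze⟩ := G.extend_conn (r.R.U x y)
    (r.R.conn_compl_U hm (by omega) hxy (by omega)) w hw
  -- `z` has `ev L = 1`
  obtain ⟨a, b, hab, hFab⟩ := r.R.F_eq_pair hj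
  have hmemF : ∀ e, r.R.c e = some j ↔ e = a ∨ e = b := by
    intro e
    rw [← r.R.rb_mem_F, hFab]
    simp
  have hFj : r.R.F j = {e₁, e₂} := by
    rw [hFab]
    have ha1 := (hmemF e₁).1 h1
    have ha2 := (hmemF e₂).1 h2
    rcases ha1 with rfl | rfl <;> rcases ha2 with rfl | rfl
    · exact absurd rfl hne
    · rfl
    · exact Finset.pair_comm _ _
    · exact absurd rfl hne
  have htch : ∀ (e : E) (u : V), r.R.c e = some j → u ∈ r.R.U x y → (G.s e = u ∨ G.t e = u) →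
      (e ∈ G.tch (r.R.U x y) ∧ (e ∈ G.tch M ↔ u ∈ M)) := by
    intro e u he hu heu
    have h3 := hF e he
    rw [mem_del] at h3
    rw [mem_tch, mem_tch]
    have h4 : G.s e ∈ M → G.s e ∈ r.R.U x y := fun h => hM h
    have h5 : G.t e ∈ M → G.t e ∈ r.R.U x y := fun h => hM h
    rcases heu with rfl | rfl
    · have h6 : G.t e ∉ r.R.U x y := (h3.resolve_right fun h => h.1 hu).2
      exact ⟨Or.inl hu, fun h => h.resolve_right fun h7 => h6 (h5 h7), Or.inl⟩
    · have h6 : G.s e ∉ r.R.U x y := (h3.resolve_left fun h => h.2 hu).1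
      exact ⟨Or.inr hu, fun h => h.resolve_left fun h7 => h6 (h4 h7), Or.inr⟩
  have he1 := htch e₁ u₁ h1 hu1 h1u
  have he2 := htch e₂ u₂ h2 hu2 h2u
  have hev : G.ev r.L ⟨z, hz⟩ = 1 := by
    rw [← r.R.rb_sum_F hj, hFj, Finset.sum_pair hne]
    show z e₁ + z e₂ = 1
    rw [hze e₁ he1.1, hze e₂ he2.1]
    simp only [w, he1.2, he2.2, hz1, hz2]
    by_cases h3 : u₁ ∈ M
    · by_cases h4 : u₂ ∈ M
      · exact absurd (iff_of_true h3 h4) hone
      · simp [h3, h4]
    · by_cases h4 : u₂ ∈ M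
      · simp [h3, h4]
      · exact absurd (iff_of_false h3 h4) hone
  have hΓ0 : G.ev r.L ⟨Γ, hΓ.1⟩ = 0 := by
    rw [← r.R.rb_sum_F hj]
    refine Finset.sum_eq_zero fun e he => ?_
    by_contra h3
    have h4 := hΓin e (z2_ne_zero h3)
    exact del_not_inn (hF e (r.R.rb_mem_F.1 he)) h4
  -- the two are disjoint
  have hdis : ∀ e, Γ e = 1 → z e = 0 := by
    intro e he
    have h3 := hΓin e he
    have h4 := hΓM e he
    rw [hze e (by rw [mem_inn] at h3; rw [mem_tch]; exact Or.inl h3.1)]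
    have h5 : e ∉ G.tch M := by
      rw [mem_inn, Finset.mem_compl, Finset.mem_compl] at h4
      rw [mem_tch]
      exact fun h => h.elim h4.1 h4.2
    simp only [w, if_neg h5]
  let zz : G.Z := ⟨z, hz⟩ + ⟨Γ, hΓ.1⟩
  have hzz : G.ev r.L zz = 1 := by
    rw [G.ev_map_add, hev, hΓ0, add_zero]
  have hle : Le Γ zz.1 := by
    intro e he
    show z e + Γ e = 1
    rw [hdis e he, he, zero_add]
  -- `Γ` has no crossing edges
  have hnc : ∀ e, Γ e = 1 → r.R.c e = none := by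
    intro e he
    by_contra h3
    obtain ⟨i, hi⟩ := Option.ne_none_iff_exists'.1 h3
    have him := r.R.clt e i hi
    obtain ⟨a', b', hab', hF'⟩ := r.R.F_eq_pair him
    have h4 : Γ a' + Γ b' = 0 := by
      have := r.R.rb_sum_F him ⟨Γ, hΓ.1⟩
      rw [hF', Finset.sum_pair hab', hΓ0] at this
      exact this
    have h5 : z a' + z b' = 1 := by
      have := r.R.rb_sum_F him ⟨z, hz⟩
      rw [hF', Finset.sum_pair hab', hev] at this
      exact this
    have h6 : e = a' ∨ e = b' := by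
      have : e ∈ r.R.F i := r.R.rb_mem_F.2 hi
      rw [hF'] at this
      simpa using this
    have h7 : Γ a' = 1 ∧ Γ b' = 1 := by
      have h8 := z2_add_eq_zero.1 h4
      rcases h6 with rfl | rfl
      · exact ⟨he, h8 ▸ he⟩
      · exact ⟨h8.symm ▸ he, he⟩
    rw [hdis a' h7.1, hdis b' h7.2] at h5
    exact absurd h5 (by decide)
  -- `Γ` is inside one piece
  obtain ⟨e, he⟩ : ∃ e, Γ e = 1 := by
    by_contra h3
    push Not at h3
    exact hΓ.2.1 (funext fun e => z2_ne_one (h3 e))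
  have hin := G.circ_in_of_on hΓ (r.R.P (r.R.h (G.s e))) (by
    intro e' he'
    by_contra h3
    have h4 := r.R.inner e' (hnc e' (z2_ne_zero h3))
    rw [mem_del, r.R.rb_mem_P, r.R.rb_mem_P] at he'
    omega) (v := G.s e) (r.R.rb_mem_P.2 rfl) ⟨e, he, Or.inl rfl⟩
  have hse : x ≤ r.R.h (G.s e) ∧ r.R.h (G.s e) < y := by
    have h3 := hΓin e he
    rw [mem_inn, r.R.mem_U, r.R.mem_U] at h3
    exact h3.1
  exact r.perfect (r.R.h (G.s e)) (by omega) (by omega) zz hzz Γ hΓ hle hin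

/-- half of the claim -/
theorem Run.half (H : Finset E) {x y : ℕ} (hx : r.a ≤ x) (hxy : x < y) (hy : y ≤ r.a + r.q)
    {Γ : E → ZMod 2} (hΓ : G.Circ Γ) (hΓin : In Γ (H ∩ G.inn (r.R.U x y)))
    {j : ℕ} (hj : j < r.m) (hF : ∀ e, r.R.c e = some j → e ∈ G.del (r.R.U x y))
    {e₁ e₂ : E} (h1 : r.R.c e₁ = some j) (h2 : r.R.c e₂ = some j) (hne : e₁ ≠ e₂)
    {z₀ : E → ZMod 2} (hz₀ : z₀ ∈ G.Z) (hz₀H : In z₀ H)
    (hz1 : z₀ e₁ = 1) (hz2 : z₀ e₂ = 1)
    {u₁ u₂ : V} (hu1 : u₁ ∈ r.R.U x y) (hu2 : u₂ ∈ r.R.U x y)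
    (h1u : G.s e₁ = u₁ ∨ G.t e₁ = u₁) (h2u : G.s e₂ = u₂ ∨ G.t e₂ = u₂) :
    ∃ w : E → ZMod 2, In w (H ∩ G.inn (r.R.U x y)) ∧
      ∀ v, G.bd w v = (if u₁ = v then 1 else 0) + (if u₂ = v then 1 else 0) := by
  by_contra hcon
  push Not at hcon
  let K : Finset V := (r.R.U x y).filter (fun u => ∃ w : E → ZMod 2,
    In w (H ∩ G.inn (r.R.U x y)) ∧
      ∀ v, G.bd w v = (if u₁ = v then 1 else 0) + (if u = v then 1 else 0))
  have hK : ∀ u, u ∈ K ↔ u ∈ r.R.U x y ∧ ∃ w : E → ZMod 2, In w (H ∩ G.inn (r.R.U x y)) ∧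
      ∀ v, G.bd w v = (if u₁ = v then 1 else 0) + (if u = v then 1 else 0) := by
    intro u
    simp only [K, mem_filter]
  have hu1K : u₁ ∈ K := by
    rw [hK]
    refine ⟨hu1, 0, fun e he => absurd he.symm z2_one_ne_zero, fun v => ?_⟩
    rw [G.bd_zero, z2_add_self]
  have hu2K : u₂ ∉ K := by
    rw [hK]
    rintro ⟨_, w, hw, hwv⟩
    obtain ⟨v, hv⟩ := hcon w hw
    exact hv (hwv v)
  have hstep : ∀ e ∈ H, e ∈ G.inn (r.R.U x y) → ∀ u u', (G.s e = u ∧ G.t e = u') ∨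
      (G.s e = u' ∧ G.t e = u) → u ∈ K → u' ∈ K := by
    intro e he hein u u' huu hu
    rw [hK] at hu ⊢
    obtain ⟨_, w, hw, hwv⟩ := hu
    have hein' := hein
    rw [mem_inn] at hein'
    refine ⟨by rcases huu with ⟨rfl, rfl⟩ | ⟨rfl, rfl⟩; exacts [hein'.2, hein'.1],
      w + Pi.single e 1, ?_, ?_⟩
    · rw [In_iff_zero] at hw ⊢
      intro e' he'
      have : e' ≠ e := by
        rintro rfl
        exact he' (Finset.mem_inter.2 ⟨he, hein⟩)
      rw [Pi.add_apply, hw e' he', Pi.single_eq_of_ne this, add_zero]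
    · intro v
      rw [G.bd_add, hwv v, G.bd_single]
      rcases huu with ⟨rfl, rfl⟩ | ⟨rfl, rfl⟩
      · have := z2_add_self (if G.s e = v then (1 : ZMod 2) else 0)
        linear_combination this
      · have := z2_add_self (if G.t e = v then (1 : ZMod 2) else 0)
        linear_combination this
  have hcl : ∀ e ∈ H, e ∈ G.inn (r.R.U x y) → (G.s e ∈ K ↔ G.t e ∈ K) := by
    intro e he hein
    exact ⟨hstep e he hein _ _ (Or.inl ⟨rfl, rfl⟩), hstep e he hein _ _ (Or.inr ⟨rfl, rfl⟩)⟩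
  have hΓin' : In Γ (G.inn (r.R.U x y)) := fun e he => (Finset.mem_inter.1 (hΓin e he)).2
  have hdel : ∀ e ∈ G.del K, Γ e = 0 := by
    intro e he
    by_contra h3
    have h4 := Finset.mem_inter.1 (hΓin e (z2_ne_zero h3))
    have h5 := hcl e h4.1 h4.2
    rw [mem_del] at he
    rcases he with he | he
    · exact he.2 (h5.1 he.1)
    · exact he.1 (h5.2 he.2)
  rcases G.circ_in_or hΓ K hdel with h3 | h3
  · -- `Γ` in `K`: take the complement
    refine r.core H hx hxy hy hΓ hΓin' hj hF h1 h2 hne hz₀ hz₀H hz1 hz2 hu1 hu2 h1u h2u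
      (r.R.U x y \ K) Finset.sdiff_subset ?_ ?_ ?_
    · intro e he hein
      have h5 := hcl e he hein
      rw [mem_inn] at hein
      rw [Finset.mem_sdiff, Finset.mem_sdiff]
      exact ⟨fun h => ⟨hein.2, fun h' => h.2 (h5.2 h')⟩, fun h => ⟨hein.1, fun h' => h.2 (h5.1 h')⟩⟩
    · intro e he
      have h5 := h3 e he
      rw [mem_inn] at h5 ⊢
      rw [Finset.mem_compl, Finset.mem_compl, Finset.mem_sdiff, Finset.mem_sdiff]
      exact ⟨fun h => h.2 h5.1, fun h => h.2 h5.2⟩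
    · rw [Finset.mem_sdiff, Finset.mem_sdiff]
      exact fun h => (h.2 ⟨hu2, hu2K⟩).2 hu1K
  · refine r.core H hx hxy hy hΓ hΓin' hj hF h1 h2 hne hz₀ hz₀H hz1 hz2 hu1 hu2 h1u h2u
      K (Finset.filter_subset _ _) hcl h3 (fun h => hu2K (h.1 hu1K))

/-- the claim: a circuit-like chain through the crossing edges between two intervals -/
theorem Run.exists_c (H : Finset E) (hH : ∀ z : G.Z, In z.1 H → G.ev r.L z = 0)
    {x y w : ℕ} (hx : r.a ≤ x) (hxy : x < y) (hyw : y < w) (hw : w ≤ r.a + r.q)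
    {Γ₁ Γ₂ : E → ZMod 2} (hΓ₁ : G.Circ Γ₁) (hΓ₁in : In Γ₁ (H ∩ G.inn (r.R.U x y)))
    (hΓ₂ : G.Circ Γ₂) (hΓ₂in : In Γ₂ (H ∩ G.inn (r.R.U y w))) :
    ∃ c ∈ G.Z, In c (H ∩ G.inn (r.R.U x w)) ∧ ∀ z ∈ G.Z, In z H →
      (∀ e, r.R.c e = some y → z e = 0) ∨ (∀ e, r.R.c e = some y → z e + c e = 0) := by
  have ha := r.ha
  have hq := r.hq
  have hm := r.hm
  have hym : y < r.m := by omega
  by_cases hall : ∀ z ∈ G.Z, In z H → ∀ e, r.R.c e = some y → z e = 0
  · exact ⟨0, G.Z.zero_mem, fun e he => absurd he.symm z2_one_ne_zero,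
      fun z hz hzH => Or.inl (hall z hz hzH)⟩
  push Not at hall
  obtain ⟨z₀, hz₀, hz₀H, e₀, he₀, hne₀⟩ := hall
  obtain ⟨a, b, hab, hFab⟩ := r.R.F_eq_pair hym
  have hmemF : ∀ e, r.R.c e = some y ↔ e = a ∨ e = b := by
    intro e
    rw [← r.R.rb_mem_F, hFab]
    simp
  have heq : ∀ z ∈ G.Z, In z H → z a = z b := by
    intro z hz hzH
    have h3 := r.R.rb_sum_F hym ⟨z, hz⟩
    rw [hFab, Finset.sum_pair hab, hH ⟨z, hz⟩ hzH] at h3
    exact z2_add_eq_zero.1 h3
  have hz1 : z₀ a = 1 ∧ z₀ b = 1 := by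
    have h3 := heq z₀ hz₀ hz₀H
    rcases (hmemF e₀).1 he₀ with rfl | rfl
    · exact ⟨z2_ne_zero hne₀, h3 ▸ z2_ne_zero hne₀⟩
    · exact ⟨h3.symm ▸ z2_ne_zero hne₀, z2_ne_zero hne₀⟩
  have hca : r.R.c a = some y := (hmemF a).2 (Or.inl rfl)
  have hcb : r.R.c b = some y := (hmemF b).2 (Or.inr rfl)
  -- ends
  have hends : ∀ e, r.R.c e = some y → ∃ l u, l ∈ r.R.U x y ∧ u ∈ r.R.U y w ∧
      ((G.s e = l ∧ G.t e = u) ∨ (G.s e = u ∧ G.t e = l)) := by
    intro e he
    obtain ⟨j, hj⟩ : ∃ j, y = j + 1 := ⟨y - 1, by omega⟩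
    have h3 := r.R.cross e j (by rw [he, hj])
    rcases h3 with h3 | h3
    · exact ⟨G.s e, G.t e, by rw [r.R.mem_U]; omega, by rw [r.R.mem_U]; omega, Or.inl ⟨rfl, rfl⟩⟩
    · exact ⟨G.t e, G.s e, by rw [r.R.mem_U]; omega, by rw [r.R.mem_U]; omega, Or.inr ⟨rfl, rfl⟩⟩
  obtain ⟨l₁, u₁, hl1, hu1, hlu1⟩ := hends a hca
  obtain ⟨l₂, u₂, hl2, hu2, hlu2⟩ := hends b hcb
  obtain ⟨wl, hwl, hwlv⟩ := r.half H hx hxy (by omega) hΓ₁ hΓ₁in hym
    (fun e he => r.R.F_del_left hxy hym (by omega) he) hca hcb hab hz₀ hz₀H hz1.1 hz1.2 hl1 hl2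
    (by rcases hlu1 with h | h; exacts [Or.inl h.1, Or.inr h.2])
    (by rcases hlu2 with h | h; exacts [Or.inl h.1, Or.inr h.2])
  obtain ⟨wr, hwr, hwrv⟩ := r.half H (by omega) hyw hw hΓ₂ hΓ₂in hym
    (fun e he => r.R.F_del_right hyw (by omega) (by omega) he) hca hcb hab hz₀ hz₀H hz1.1 hz1.2
    hu1 hu2
    (by rcases hlu1 with h | h; exacts [Or.inr h.2, Or.inl h.1])
    (by rcases hlu2 with h | h; exacts [Or.inr h.2, Or.inl h.1])
  rw [In_iff_zero] at hwl hwr
  have hzl : ∀ e, r.R.c e = some y → wl e = 0 := fun e he => hwl e fun h =>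
    del_not_inn (r.R.F_del_left hxy hym (by omega) he) (Finset.mem_inter.1 h).2
  have hzr : ∀ e, r.R.c e = some y → wr e = 0 := fun e he => hwr e fun h =>
    del_not_inn (r.R.F_del_right hyw (by omega) (by omega) he) (Finset.mem_inter.1 h).2
  have hbd : ∀ (e : E) (l u : V), ((G.s e = l ∧ G.t e = u) ∨ (G.s e = u ∧ G.t e = l)) → ∀ v,
      G.bd (Pi.single e 1) v = (if l = v then 1 else 0) + (if u = v then 1 else 0) := by
    intro e l u h v
    rw [G.bd_single]
    rcases h with ⟨rfl, rfl⟩ | ⟨rfl, rfl⟩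
    · rfl
    · exact add_comm _ _
  have hval : ∀ e, r.R.c e = some y →
      (Pi.single a 1 + Pi.single b 1 + wl + wr : E → ZMod 2) e = 1 := by
    intro e he
    simp only [Pi.add_apply]
    rw [hzl e he, hzr e he]
    rcases (hmemF e).1 he with rfl | rfl
    · rw [Pi.single_eq_same, Pi.single_eq_of_ne hab]; simp
    · rw [Pi.single_eq_same, Pi.single_eq_of_ne hab.symm]; simp
  refine ⟨Pi.single a 1 + Pi.single b 1 + wl + wr, ?_, ?_, ?_⟩
  · intro v
    rw [G.bd_add, G.bd_add, G.bd_add, hbd a l₁ u₁ hlu1, hbd b l₂ u₂ hlu2, hwlv, hwrv]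
    have e1 := z2_add_self (if l₁ = v then (1 : ZMod 2) else 0)
    have e2 := z2_add_self (if l₂ = v then (1 : ZMod 2) else 0)
    have e3 := z2_add_self (if u₁ = v then (1 : ZMod 2) else 0)
    have e4 := z2_add_self (if u₂ = v then (1 : ZMod 2) else 0)
    linear_combination e1 + e2 + e3 + e4
  · rw [In_iff_zero]
    intro e he
    have hae : e ≠ a := by
      rintro rfl
      apply he
      refine Finset.mem_inter.2 ⟨hz₀H _ hz1.1, ?_⟩
      rw [mem_inn]
      have h3 := r.R.U_mono (le_refl x) hyw.le hl1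
      have h4 := r.R.U_mono hxy.le (le_refl w) hu1
      rcases hlu1 with ⟨h5, h6⟩ | ⟨h5, h6⟩ <;> rw [h5, h6]
      · exact ⟨h3, h4⟩
      · exact ⟨h4, h3⟩
    have hbe : e ≠ b := by
      rintro rfl
      apply he
      refine Finset.mem_inter.2 ⟨hz₀H _ hz1.2, ?_⟩
      rw [mem_inn]
      have h3 := r.R.U_mono (le_refl x) hyw.le hl2
      have h4 := r.R.U_mono hxy.le (le_refl w) hu2
      rcases hlu2 with ⟨h5, h6⟩ | ⟨h5, h6⟩ <;> rw [h5, h6]
      · exact ⟨h3, h4⟩
      · exact ⟨h4, h3⟩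
    have h3 : wl e = 0 := hwl e fun h => he (by
      have := Finset.mem_inter.1 h
      exact Finset.mem_inter.2 ⟨this.1, inn_mono_tb (r.R.U_mono (le_refl x) hyw.le) this.2⟩)
    have h4 : wr e = 0 := hwr e fun h => he (by
      have := Finset.mem_inter.1 h
      exact Finset.mem_inter.2 ⟨this.1, inn_mono_tb (r.R.U_mono hxy.le (le_refl w)) this.2⟩)
    simp only [Pi.add_apply, h3, h4, Pi.single_eq_of_ne hae, Pi.single_eq_of_ne hbe, add_zero]
  · intro z hz hzH
    have h3 := heq z hz hzH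
    rcases z2_cases (z a) with h4 | h4
    · left
      intro e he
      rcases (hmemF e).1 he with rfl | rfl
      · exact h4
      · rw [← h3]; exact h4
    · right
      intro e he
      rw [hval e he]
      rcases (hmemF e).1 he with rfl | rfl
      · rw [h4]; decide
      · rw [← h3, h4]; decide

end run

section greedy

variable {G} {Nb : ℕ} (r : G.Run Nb) (H : Finset E)

theorem numZ_le_one (X : Finset E) (h : ¬ ∃ c, G.Circ c ∧ In c X) : G.numZ X ≤ 1 := by
  unfold numZ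
  rw [Finset.card_le_one]
  intro a ha b hb
  simp only [mem_filter, mem_univ, true_and] at ha hb
  have key : ∀ z : G.Z, In z.1 X → z = 0 := by
    intro z hz
    by_contra h0
    have h1 : z.1 ≠ 0 := fun h1 => h0 (Subtype.ext h1)
    obtain ⟨c, hc, hcz⟩ := G.exists_circ z.2 h1
    exact h ⟨c, hc, fun e he => hz e (hcz e he)⟩
  rw [key a ha, key b hb]

theorem Run.split {x y : ℕ} (hx : r.a ≤ x) (hxy : x < y)
    (hno : ¬ ∃ c, G.Circ c ∧ In c (H ∩ G.inn (r.R.U x (y - 1))))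
    {z : E → ZMod 2} (hz : z ∈ G.Z) (hzin : In z (H ∩ G.inn (r.R.U x (r.a + r.q))))
    (hzK : ∀ e ∈ G.tch (r.R.P (y - 1)), z e = 0) :
    In z (H ∩ G.inn (r.R.U y (r.a + r.q))) := by
  have ha := r.ha
  have hq := r.hq
  have hm := r.hm
  have hdel : ∀ e ∈ G.del (r.R.U x (y - 1)), z e = 0 := by
    intro e he
    by_contra hne
    have h1 := (Finset.mem_inter.1 (hzin e (z2_ne_zero hne))).2
    have h2 : e ∉ G.tch (r.R.P (y - 1)) := fun h => hne (hzK e h)
    rw [mem_inn, r.R.mem_U, r.R.mem_U] at h1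
    rw [mem_tch, r.R.rb_mem_P, r.R.rb_mem_P] at h2
    rw [mem_del, r.R.mem_U, r.R.mem_U] at he
    rcases r.R.t_cases hm e with ⟨_, h3⟩ | ⟨_, h3⟩ | ⟨i, _, _, h3⟩ <;> omega
  have hzero : ∀ e ∈ G.inn (r.R.U x (y - 1)), z e = 0 := by
    intro e he
    by_contra hne
    have h1 := G.restrict_mem hz _ hdel
    have h2 : (fun e => if e ∈ G.inn (r.R.U x (y - 1)) then z e else 0) ≠ 0 := by
      intro h3
      have h4 := congrFun h3 e
      simp only [he, if_true, Pi.zero_apply] at h4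
      exact hne h4
    obtain ⟨c, hc, hcz⟩ := G.exists_circ h1 h2
    refine hno ⟨c, hc, fun e' he' => ?_⟩
    have h3 := hcz e' he'
    simp only at h3
    split_ifs at h3 with h4
    · exact Finset.mem_inter.2 ⟨(Finset.mem_inter.1 (hzin e' h3)).1, h4⟩
    · exact absurd h3.symm z2_one_ne_zero
  intro e he
  have h0 := Finset.mem_inter.1 (hzin e he)
  have h1 : e ∉ G.inn (r.R.U x (y - 1)) := by
    intro h; rw [hzero e h] at he; exact z2_one_ne_zero he.symm
  have h2 : e ∉ G.del (r.R.U x (y - 1)) := by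
    intro h; rw [hdel e h] at he; exact z2_one_ne_zero he.symm
  have h3 : e ∉ G.tch (r.R.P (y - 1)) := by
    intro h; rw [hzK e h] at he; exact z2_one_ne_zero he.symm
  refine Finset.mem_inter.2 ⟨h0.1, ?_⟩
  have h4 := h0.2
  rw [mem_inn, r.R.mem_U, r.R.mem_U] at h4 h1 ⊢
  rw [mem_del, r.R.mem_U, r.R.mem_U] at h2
  rw [mem_tch, r.R.rb_mem_P, r.R.rb_mem_P] at h3
  omega

theorem Run.numZ_step (hG : G.Good) {x y : ℕ} (hx : r.a ≤ x) (hxy : x < y) (hy : y ≤ r.a + r.q)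
    (hno : ¬ ∃ c, G.Circ c ∧ In c (H ∩ G.inn (r.R.U x (y - 1)))) :
    G.numZ (H ∩ G.inn (r.R.U x (r.a + r.q))) ≤
      2 ^ (3 * Nb) * G.numZ (H ∩ G.inn (r.R.U y (r.a + r.q))) := by
  set K := G.tch (r.R.P (y - 1)) with hK
  have hKc : K.card ≤ 3 * Nb :=
    (G.card_tch_le hG _).trans (Nat.mul_le_mul_left _ (r.small (y - 1) (by omega) (by omega)))
  let rr : G.Z → (K → ZMod 2) := fun z e => z.1 e.1
  set S : Finset G.Z := univ.filter (fun z : G.Z => In z.1 (H ∩ G.inn (r.R.U x (r.a + r.q)))) with hS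
  have hfib : ∀ p ∈ S.image rr, (S.filter fun z => rr z = p).card ≤
      G.numZ (H ∩ G.inn (r.R.U y (r.a + r.q))) := by
    intro p hp
    obtain ⟨z₁, hz₁, rfl⟩ := Finset.mem_image.1 hp
    unfold numZ
    refine Finset.card_le_card_of_injOn (fun z => z + z₁) ?_ ?_
    · intro z hz
      simp only [hS, Finset.coe_filter, mem_filter, mem_univ, true_and, Set.mem_ofPred_eq] at hz hz₁ ⊢
      refine r.split H hx hxy hno (z + z₁).2 ?_ ?_
      · rw [In_iff_zero] at *
        intro e he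
        show z.1 e + z₁.1 e = 0
        rw [hz.1 e he, hz₁ e he, add_zero]
      · intro e he
        show z.1 e + z₁.1 e = 0
        have h1 : z.1 e = z₁.1 e := congrFun hz.2 ⟨e, he⟩
        rw [h1, z2_add_self]
    · intro a _ b _ h
      exact add_right_cancel h
  have h1 := Finset.card_le_mul_card_image _ _ hfib
  have h2 : (S.image rr).card ≤ 2 ^ (3 * Nb) := by
    refine (Finset.card_le_univ _).trans ?_
    rw [Fintype.card_fun, ZMod.card, Fintype.card_coe]
    exact Nat.pow_le_pow_right (by norm_num) hKc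
  calc G.numZ (H ∩ G.inn (r.R.U x (r.a + r.q))) = S.card := rfl
    _ ≤ G.numZ (H ∩ G.inn (r.R.U y (r.a + r.q))) * (S.image rr).card := h1
    _ ≤ G.numZ (H ∩ G.inn (r.R.U y (r.a + r.q))) * 2 ^ (3 * Nb) := Nat.mul_le_mul_left _ h2
    _ = _ := Nat.mul_comm _ _

theorem Run.greedy (hG : G.Good) : ∀ (k x : ℕ), r.a ≤ x → x ≤ r.a + r.q →
    (∃ b : ℕ → ℕ, b 0 = x ∧ (∀ s < k, b s < b (s + 1)) ∧ b k ≤ r.a + r.q ∧
      ∀ s < k, ∃ c, G.Circ c ∧ In c (H ∩ G.inn (r.R.U (b s) (b (s + 1))))) ∨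
    G.numZ (H ∩ G.inn (r.R.U x (r.a + r.q))) ≤ 2 ^ (3 * Nb * k) := by
  intro k
  induction k with
  | zero =>
    intro x hx hxq
    exact Or.inl ⟨fun _ => x, rfl, by simp, hxq, by simp⟩
  | succ k ih =>
    intro x hx hxq
    by_cases h : ∃ y, y ≤ r.a + r.q ∧ ∃ c, G.Circ c ∧ In c (H ∩ G.inn (r.R.U x y))
    · obtain ⟨y, hyq, ⟨c, hc, hcin⟩, hmin⟩ : ∃ y, y ≤ r.a + r.q ∧
          (∃ c, G.Circ c ∧ In c (H ∩ G.inn (r.R.U x y))) ∧
          ∀ y' < y, ¬ (y' ≤ r.a + r.q ∧ ∃ c, G.Circ c ∧ In c (H ∩ G.inn (r.R.U x y'))) :=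
        ⟨Nat.find h, (Nat.find_spec h).1, (Nat.find_spec h).2, fun y' hy' => Nat.find_min h hy'⟩
      have hxy : x < y := by
        by_contra hle
        apply hc.2.1
        funext e
        by_contra hne
        have h2 := (Finset.mem_inter.1 (hcin e (z2_ne_zero hne))).2
        rw [mem_inn, r.R.mem_U, r.R.mem_U] at h2
        omega
      have hno : ¬ ∃ c, G.Circ c ∧ In c (H ∩ G.inn (r.R.U x (y - 1))) := fun hex =>
        hmin (y - 1) (by omega) ⟨by omega, hex⟩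
      rcases ih y (by omega) hyq with ⟨b, hb0, hb1, hb2, hb3⟩ | hle
      · left
        refine ⟨fun s => if s = 0 then x else b (s - 1), rfl, ?_, ?_, ?_⟩
        · intro s hs
          rcases s with _ | s
          · simp only [if_true, Nat.zero_add, one_ne_zero, if_false, Nat.sub_self]
            omega
          · have := hb1 s (by omega)
            simpa using this
        · simpa using hb2
        · intro s hs
          rcases s with _ | s
          · refine ⟨c, hc, ?_⟩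
            simp only [if_true, Nat.zero_add, one_ne_zero, if_false, Nat.sub_self, hb0]
            exact hcin
          · have := hb3 s (by omega)
            simpa using this
      · right
        refine (r.numZ_step H hG hx hxy hyq hno).trans ?_
        calc 2 ^ (3 * Nb) * G.numZ (H ∩ G.inn (r.R.U y (r.a + r.q)))
            ≤ 2 ^ (3 * Nb) * 2 ^ (3 * Nb * k) := Nat.mul_le_mul_left _ hle
          _ = 2 ^ (3 * Nb * (k + 1)) := by rw [← pow_add]; congr 1; ring
    · right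
      refine (numZ_le_one _ ?_).trans Nat.one_le_two_pow
      rintro ⟨c, hc⟩
      exact h ⟨r.a + r.q, le_rfl, c, hc⟩

end greedy

section glue

variable {G} {Nb : ℕ} (r : G.Run Nb) (H : Finset E)

/-- correcting an even chain on the boundary of an interval -/
theorem Run.correct {x₀ x₁ x₂ x₃ : ℕ} (h0 : r.a ≤ x₀) (h01 : x₀ < x₁) (h12 : x₁ < x₂) (h23 : x₂ < x₃)
    (h3 : x₃ ≤ r.a + r.q) {c₁ c₂ : E → ZMod 2}
    (hc₁in : In c₁ (H ∩ G.inn (r.R.U x₀ x₂)))
    (hc₁c : ∀ z ∈ G.Z, In z H → (∀ e, r.R.c e = some x₁ → z e = 0) ∨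
      (∀ e, r.R.c e = some x₁ → z e + c₁ e = 0))
    (hc₂in : In c₂ (H ∩ G.inn (r.R.U x₁ x₃)))
    (hc₂c : ∀ z ∈ G.Z, In z H → (∀ e, r.R.c e = some x₂ → z e = 0) ∨
      (∀ e, r.R.c e = some x₂ → z e + c₂ e = 0))
    {z : E → ZMod 2} (hz : z ∈ G.Z) (hzH : In z H) :
    ∃ a b : ZMod 2, ∀ e ∈ G.del (r.R.U x₁ x₂), z e + (a * c₁ e + b * c₂ e) = 0 := by
  have ha := r.ha
  have hq := r.hq
  have hm := r.hm
  obtain ⟨a, ha'⟩ : ∃ a : ZMod 2, ∀ e, r.R.c e = some x₁ → z e + a * c₁ e = 0 := by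
    rcases hc₁c z hz hzH with h | h
    · exact ⟨0, fun e he => by rw [h e he]; simp⟩
    · exact ⟨1, fun e he => by rw [one_mul]; exact h e he⟩
  obtain ⟨b, hb'⟩ : ∃ b : ZMod 2, ∀ e, r.R.c e = some x₂ → z e + b * c₂ e = 0 := by
    rcases hc₂c z hz hzH with h | h
    · exact ⟨0, fun e he => by rw [h e he]; simp⟩
    · exact ⟨1, fun e he => by rw [one_mul]; exact h e he⟩
  rw [In_iff_zero] at hc₁in hc₂in
  refine ⟨a, b, fun e he => ?_⟩
  have hcase : r.R.c e = some x₁ ∨ r.R.c e = some x₂ := by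
    rw [mem_del, r.R.mem_U, r.R.mem_U] at he
    rcases r.R.t_cases hm e with ⟨_, h3⟩ | ⟨_, h3⟩ | ⟨i, h4, h5, h6⟩
    · omega
    · omega
    · rw [h4]
      have : i + 1 = x₁ ∨ i + 1 = x₂ := by omega
      rcases this with h | h
      · left; rw [h]
      · right; rw [h]
  rcases hcase with h | h
  · have h4 : c₂ e = 0 := hc₂in e fun h5 =>
      del_not_inn (r.R.F_del_right (by omega) (by omega) (by omega) h) (Finset.mem_inter.1 h5).2
    have h5 := ha' e h
    rw [h4, mul_zero, add_zero, h5]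
  · have h4 : c₁ e = 0 := hc₁in e fun h5 =>
      del_not_inn (r.R.F_del_left (by omega) (by omega) (by omega) h) (Finset.mem_inter.1 h5).2
    have h5 := hb' e h
    rw [h4, mul_zero, zero_add, h5]

/-- the event attached to an interval -/
def Ev (G : MG V E) (X : Finset V) (z : E → ZMod 2) : Prop :=
  (∀ e ∈ G.del X, z e = 0) ∧ ∃ e ∈ G.inn X, z e = 1

theorem Run.cover {X : Finset V} {c₁ c₂ Γ : E → ZMod 2}
    (hΓ : G.Circ Γ) (hΓin : In Γ (H ∩ G.inn X))
    {z : E → ZMod 2} (a b : ZMod 2) (hab : ∀ e ∈ G.del X, z e + (a * c₁ e + b * c₂ e) = 0) :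
    ∃ p : Fin 3 → ZMod 2, Ev G X (z + (p 0 • c₁ + p 1 • c₂ + p 2 • Γ)) := by
  have hΓd : ∀ e ∈ G.del X, Γ e = 0 := by
    intro e he
    by_contra hne
    exact del_not_inn he (Finset.mem_inter.1 (hΓin e (z2_ne_zero hne))).2
  by_cases h : ∃ e ∈ G.inn X, z e + (a * c₁ e + b * c₂ e) = 1
  · refine ⟨![a, b, 0], ?_, ?_⟩
    · intro e he
      simp only [Pi.add_apply, Pi.smul_apply, smul_eq_mul, Matrix.cons_val_zero,
        Matrix.cons_val_one, Matrix.cons_val, zero_mul, add_zero]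
      exact hab e he
    · obtain ⟨e, he, h1⟩ := h
      refine ⟨e, he, ?_⟩
      simp only [Pi.add_apply, Pi.smul_apply, smul_eq_mul, Matrix.cons_val_zero,
        Matrix.cons_val_one, Matrix.cons_val, zero_mul, add_zero]
      exact h1
  · push Not at h
    refine ⟨![a, b, 1], ?_, ?_⟩
    · intro e he
      simp only [Pi.add_apply, Pi.smul_apply, smul_eq_mul, Matrix.cons_val_zero,
        Matrix.cons_val_one, Matrix.cons_val, one_mul, hΓd e he, add_zero]
      exact hab e he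
    · obtain ⟨e, he⟩ : ∃ e, Γ e = 1 := by
        by_contra h3
        push Not at h3
        exact hΓ.2.1 (funext fun e => z2_ne_one (h3 e))
      have hein := (Finset.mem_inter.1 (hΓin e he)).2
      refine ⟨e, hein, ?_⟩
      have h1 := z2_ne_one (h e hein)
      simp only [Pi.add_apply, Pi.smul_apply, smul_eq_mul, Matrix.cons_val_zero,
        Matrix.cons_val_one, Matrix.cons_val, one_mul, he]
      linear_combination h1

/-- localization -/
theorem Run.localize {X Y : Finset V} (hXY : X ⊆ Y) {c₁ c₂ : E → ZMod 2}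
    (hc₁ : c₁ ∈ G.Z) (hc₁in : In c₁ (H ∩ G.inn Y)) (hc₂ : c₂ ∈ G.Z) (hc₂in : In c₂ (H ∩ G.inn Y))
    {z : E → ZMod 2} (hz : z ∈ G.Z) (hzH : In z H)
    (a b : ZMod 2) (hab : ∀ e ∈ G.del X, z e + (a * c₁ e + b * c₂ e) = 0) :
    ∃ g ∈ G.Z, In g (H ∩ G.inn Y) ∧ ∀ e ∈ G.tch X, g e = z e := by
  let z' : E → ZMod 2 := z + (a • c₁ + b • c₂)
  have hz' : z' ∈ G.Z :=
    G.Z.add_mem hz (G.Z.add_mem (G.Z.smul_mem a hc₁) (G.Z.smul_mem b hc₂))
  have hd : ∀ e ∈ G.del X, z' e = 0 := by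
    intro e he
    exact hab e he
  have hr := G.restrict_mem hz' X hd
  rw [In_iff_zero] at hc₁in hc₂in
  have hzH0 := (In_iff_zero z H).1 hzH
  refine ⟨(fun e => if e ∈ G.inn X then z' e else 0) + (a • c₁ + b • c₂),
    G.Z.add_mem hr (G.Z.add_mem (G.Z.smul_mem a hc₁) (G.Z.smul_mem b hc₂)), ?_, ?_⟩
  · rw [In_iff_zero]
    intro e he
    simp only [Pi.add_apply, Pi.smul_apply, smul_eq_mul, hc₁in e he, hc₂in e he, mul_zero,
      add_zero]
    split_ifs with h
    · have h1 : e ∉ H := fun h2 => he (Finset.mem_inter.2 ⟨h2, inn_mono_tb hXY h⟩)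
      show z e + (a * c₁ e + b * c₂ e) = 0
      rw [hzH0 e h1, hc₁in e he, hc₂in e he]
      simp
    · rfl
  · intro e he
    simp only [Pi.add_apply, Pi.smul_apply, smul_eq_mul]
    by_cases h : e ∈ G.inn X
    · rw [if_pos h]
      show z e + (a * c₁ e + b * c₂ e) + (a * c₁ e + b * c₂ e) = z e
      rw [add_assoc, z2_add_self, add_zero]
    · rw [if_neg h, zero_add]
      have h1 : e ∈ G.del X := (tch_cases he).resolve_left h
      have h2 := hab e h1
      exact (z2_add_eq_zero.1 h2).symm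

/-- two events are impossible for a circuit -/
theorem Ev.circ {X : Finset V} {z : E → ZMod 2} (hz : G.Circ z) (h : Ev G X z) :
    In z (G.inn X) := by
  have h1 := G.restrict_mem hz.1 X h.1
  obtain ⟨e, he, hze⟩ := h.2
  have h2 := (hz.2.2 _ h1 (by
    intro e' he'
    simp only at he'
    split_ifs at he' with h3
    · exact he'
    · exact absurd he'.symm z2_one_ne_zero)).resolve_left (by
    intro h3
    have h4 := congrFun h3 e
    simp only [he, if_true, Pi.zero_apply] at h4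
    rw [hze] at h4
    exact z2_one_ne_zero h4)
  intro e' he'
  have h3 : (if e' ∈ G.inn X then z e' else 0) = z e' := congrFun h2 e'
  by_contra h4
  rw [if_neg h4, he'] at h3
  exact z2_one_ne_zero h3.symm

theorem Ev.congr {X : Finset V} {z z' : E → ZMod 2} (h : ∀ e ∈ G.tch X, z e = z' e) :
    Ev G X z ↔ Ev G X z' := by
  have h1 : ∀ e ∈ G.del X, z e = z' e := fun e he => h e (by
    rw [mem_del] at he; rw [mem_tch]; tauto)
  have h2 : ∀ e ∈ G.inn X, z e = z' e := fun e he => h e (by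
    rw [mem_inn] at he; rw [mem_tch]; tauto)
  unfold Ev
  constructor
  · rintro ⟨h3, e, he, h4⟩
    exact ⟨fun e he => by rw [← h1 e he]; exact h3 e he, e, he, by rw [← h2 e he]; exact h4⟩
  · rintro ⟨h3, e, he, h4⟩
    exact ⟨fun e he => by rw [h1 e he]; exact h3 e he, e, he, by rw [h2 e he]; exact h4⟩

/-- the bound for the number of circuits -/
theorem Run.bound (hH : ∀ z : G.Z, In z.1 H → G.ev r.L z = 0) (n : ℕ) (b : ℕ → ℕ)
    (hb0 : r.a ≤ b 0) (hb1 : ∀ s < 2 * n + 1, b s < b (s + 1)) (hb2 : b (2 * n + 1) ≤ r.a + r.q)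
    (hb3 : ∀ s < 2 * n + 1, ∃ c, G.Circ c ∧ In c (H ∩ G.inn (r.R.U (b s) (b (s + 1))))) :
    (G.numC H : ℝ) ≤ (n + 1) * (7 / 8) ^ (n - 1) * G.numZ H := by
  -- monotonicity
  have hmono : ∀ s t, s ≤ t → t ≤ 2 * n + 1 → b s ≤ b t := by
    intro s t hst
    induction t, hst using Nat.le_induction with
    | base => intro _; exact le_rfl
    | succ t hst ih =>
      intro ht
      exact (ih (by omega)).trans (hb1 t (by omega)).le
  have hlow : ∀ s ≤ 2 * n + 1, r.a ≤ b s := fun s hs => hb0.trans (hmono 0 s (Nat.zero_le _) hs)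
  have hup : ∀ s ≤ 2 * n + 1, b s ≤ r.a + r.q := fun s hs => (hmono s _ hs le_rfl).trans hb2
  choose! Γ hΓ hΓin using hb3
  have hc : ∀ s, 1 ≤ s → s < 2 * n + 1 → ∃ c ∈ G.Z, In c (H ∩ G.inn (r.R.U (b (s - 1)) (b (s + 1)))) ∧
      ∀ z ∈ G.Z, In z H → (∀ e, r.R.c e = some (b s) → z e = 0) ∨
        (∀ e, r.R.c e = some (b s) → z e + c e = 0) := by
    intro s hs1 hs
    obtain ⟨t, rfl⟩ : ∃ t, s = t + 1 := ⟨s - 1, by omega⟩
    rw [Nat.add_sub_cancel]
    exact r.exists_c H hH (hlow t (by omega)) (hb1 t (by omega)) (hb1 (t + 1) (by omega))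
      (hup (t + 2) (by omega)) (hΓ t (by omega)) (hΓin t (by omega)) (hΓ (t + 1) (by omega))
      (hΓin (t + 1) (by omega))
  choose! c hcZ hcin hcc using hc
  have hX : ∀ i < n, ∀ z ∈ G.Z, In z H → ∃ p q : ZMod 2,
      ∀ e ∈ G.del (r.R.U (b (2 * i + 1)) (b (2 * i + 2))),
        z e + (p * c (2 * i + 1) e + q * c (2 * i + 2) e) = 0 := by
    intro i hi z hz hzH
    exact r.correct H (x₀ := b (2 * i)) (x₃ := b (2 * i + 3)) (hlow _ (by omega))
      (hb1 (2 * i) (by omega)) (hb1 (2 * i + 1) (by omega)) (hb1 (2 * i + 2) (by omega))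
      (hup _ (by omega)) (hcin (2 * i + 1) (by omega) (by omega))
      (hcc (2 * i + 1) (by omega) (by omega)) (hcin (2 * i + 2) (by omega) (by omega))
      (hcc (2 * i + 2) (by omega) (by omega)) hz hzH
  have hY1 : ∀ i < n, In (c (2 * i + 1)) (H ∩ G.inn (r.R.U (b (2 * i)) (b (2 * i + 3)))) := by
    intro i hi e he
    have h1 := Finset.mem_inter.1 (hcin (2 * i + 1) (by omega) (by omega) e he)
    exact Finset.mem_inter.2 ⟨h1.1, inn_mono_tb (r.R.U_mono (le_refl _)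
      (hb1 (2 * i + 2) (by omega)).le) h1.2⟩
  have hY2 : ∀ i < n, In (c (2 * i + 2)) (H ∩ G.inn (r.R.U (b (2 * i)) (b (2 * i + 3)))) := by
    intro i hi e he
    have h1 := Finset.mem_inter.1 (hcin (2 * i + 2) (by omega) (by omega) e he)
    exact Finset.mem_inter.2 ⟨h1.1, inn_mono_tb (r.R.U_mono
      (hb1 (2 * i) (by omega)).le (le_refl _)) h1.2⟩
  -- localization of a family
  have hloc : ∀ y : ℕ → E → ZMod 2, (∀ i, y i ∈ G.Z ∧ In (y i) H) → ∀ i, ∃ g : E → ZMod 2, i < n →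
      g ∈ G.Z ∧ In g (H ∩ G.inn (r.R.U (b (2 * i)) (b (2 * i + 3)))) ∧
      ∀ e ∈ G.tch (r.R.U (b (2 * i + 1)) (b (2 * i + 2))), g e = y i e := by
    intro y hy i
    by_cases hi : i < n
    · obtain ⟨p, q, hpq⟩ := hX i hi (y i) (hy i).1 (hy i).2
      obtain ⟨g, h1, h2, h3⟩ := Run.localize H (Y := r.R.U (b (2 * i)) (b (2 * i + 3)))
        (r.R.U_mono (hb1 (2 * i) (by omega)).le (hb1 (2 * i + 2) (by omega)).le)
        (hcZ (2 * i + 1) (by omega) (by omega)) (hY1 i hi)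
        (hcZ (2 * i + 2) (by omega) (by omega)) (hY2 i hi) (hy i).1 (hy i).2 p q hpq
      exact ⟨g, fun _ => ⟨h1, h2, h3⟩⟩
    · exact ⟨0, fun h => absurd h hi⟩
  -- separation
  have hsep : ∀ i < n, ∀ j < n, i ≠ j → ∀ v, v ∈ r.R.U (b (2 * i + 1)) (b (2 * i + 2)) →
      v ∉ r.R.U (b (2 * j)) (b (2 * j + 3)) := by
    intro i hi j hj hij v hv hv'
    rw [r.R.mem_U] at hv hv'
    rcases Nat.lt_or_gt_of_ne hij with h | h
    · have := hmono (2 * i + 2) (2 * j) (by omega) (by omega)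
      omega
    · have := hmono (2 * j + 3) (2 * i + 1) (by omega) (by omega)
      omega
  have key := G.few_circ H (range n) (fun i => G.tch (r.R.U (b (2 * i + 1)) (b (2 * i + 2))))
    (fun i => Ev G (r.R.U (b (2 * i + 1)) (b (2 * i + 2)))) ?_ ?_ ?_ ?_
  · rw [Finset.card_range] at key
    exact key
  · intro y hy
    choose g hg using hloc y hy
    refine ⟨∑ i ∈ range n, g i, G.Z.sum_mem fun i hi => (hg i (Finset.mem_range.1 hi)).1, ?_, ?_⟩
    · rw [In_iff_zero]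
      intro e he
      rw [Finset.sum_apply]
      refine Finset.sum_eq_zero fun i hi => ?_
      have h1 := (hg i (Finset.mem_range.1 hi)).2.1
      rw [In_iff_zero] at h1
      exact h1 e fun h => he (Finset.mem_inter.1 h).1
    · intro i hi e he
      rw [Finset.sum_apply, Finset.sum_eq_single i]
      · exact (hg i (Finset.mem_range.1 hi)).2.2 e he
      · intro j hj hji
        have h1 := (hg j (Finset.mem_range.1 hj)).2.1
        rw [In_iff_zero] at h1
        refine h1 e fun h => ?_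
        have h2 := (Finset.mem_inter.1 h).2
        rw [mem_inn] at h2
        rw [mem_tch] at he
        have h3 := hsep i (Finset.mem_range.1 hi) j (Finset.mem_range.1 hj) (Ne.symm hji)
        rcases he with h4 | h4
        · exact h3 _ h4 h2.1
        · exact h3 _ h4 h2.2
      · intro h
        exact absurd hi h
  · intro i hi z z' h
    exact Ev.congr h
  · intro i hi
    rw [Finset.mem_range] at hi
    have hH1 : ∀ {w : E → ZMod 2} {X : Finset E}, In w (H ∩ X) → In w H := fun h e he =>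
      (Finset.mem_inter.1 (h e he)).1
    refine ⟨c (2 * i + 1), c (2 * i + 2), Γ (2 * i + 1),
      ⟨hcZ _ (by omega) (by omega), hH1 (hY1 i hi)⟩, ⟨hcZ _ (by omega) (by omega), hH1 (hY2 i hi)⟩,
      ⟨(hΓ (2 * i + 1) (by omega)).1, hH1 (hΓin (2 * i + 1) (by omega))⟩, ?_⟩
    intro z hz hzH
    obtain ⟨p, q, hpq⟩ := hX i hi z hz hzH
    exact Run.cover H (hΓ (2 * i + 1) (by omega)) (hΓin (2 * i + 1) (by omega)) p q hpq
  · intro z hz hzH i hi j hj h1 h2
    rw [Finset.mem_range] at hi hj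
    by_contra hij
    have h3 := Ev.circ hz h1
    obtain ⟨e, he, hze⟩ := h2.2
    have h4 := h3 e hze
    rw [mem_inn] at he h4
    refine hsep i hi j hj hij _ h4.1 ?_
    exact r.R.U_mono (hb1 (2 * j) (by omega)).le (hb1 (2 * j + 2) (by omega)).le he.1

end glue

end MG

theorem tube_exists_n (δ : ℝ) (hδ : 0 < δ) : ∃ n : ℕ, ((n : ℝ) + 1) * (7 / 8) ^ (n - 1) < δ := by
  have h1 : Filter.Tendsto (fun n : ℕ => ((n : ℝ) + 2) * (7 / 8 : ℝ) ^ n) Filter.atTop (nhds 0) := by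
    have h2 := tendsto_self_mul_const_pow_of_lt_one (r := (7 / 8 : ℝ)) (by norm_num) (by norm_num)
    have h3 := (tendsto_pow_atTop_nhds_zero_of_lt_one (r := (7 / 8 : ℝ)) (by norm_num)
      (by norm_num)).const_mul 2
    have h4 := h2.add h3
    simp only [mul_zero, add_zero] at h4
    refine h4.congr fun n => ?_
    ring
  obtain ⟨n, hn⟩ := (h1.eventually_lt_const hδ).exists
  refine ⟨n + 1, ?_⟩
  rw [Nat.add_sub_cancel]
  push_cast
  have : (n : ℝ) + 1 + 1 = n + 2 := by ring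
  rw [this]
  exact hn

/-- tube lemma -/
theorem tube (δ : ℝ) (hδ : 0 < δ) (Nb : ℕ) : ∃ C : ℕ, ∀ (V E : Type) [Fintype V] [Fintype E]
    (G : MG V E), G.Good → ∀ (r : G.Run Nb) (H : Finset E),
    (∀ z : G.Z, In z.1 H → G.ev r.L z = 0) → δ * G.numZ H ≤ G.numC H →
    G.numZ (H ∩ G.inn r.Y) ≤ 2 ^ C := by
  obtain ⟨n, hn⟩ := tube_exists_n δ hδ
  refine ⟨3 * Nb * (2 * n + 1), ?_⟩
  intro V E _ _ G hG r H hH hδH
  have hY : r.Y = r.R.U r.a (r.a + r.q) := rfl
  rw [hY]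
  rcases r.greedy H hG (2 * n + 1) r.a le_rfl (Nat.le_add_right _ _) with ⟨b, hb0, hb1, hb2, hb3⟩ | h
  · exfalso
    have h1 := r.bound H hH n b hb0.ge hb1 hb2 hb3
    have h2 : (0 : ℝ) < G.numZ H := by
      have : 0 < G.numZ H := by
        unfold MG.numZ
        refine Finset.card_pos.2 ⟨0, ?_⟩
        simp only [mem_filter, mem_univ, true_and]
        intro e he
        exact absurd he.symm z2_one_ne_zero
      exact_mod_cast this
    have h3 : δ * G.numZ H ≤ (n + 1) * (7 / 8) ^ (n - 1) * G.numZ H := hδH.trans h1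
    have h4 := le_of_mul_le_mul_right h3 h2
    linarith
  · exact h

end Cyc
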