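import Pool.Agent.Cyc.RegimeTwo

/-!
# Non-backtracking walks (definitions and interface)
-/

open Finset
open scoped Classical

namespace Cyc

/-- reverse of a dart -/
def rv {E : Type} (x : E × Bool) : E × Bool := (x.1, !x.2)

/-- all lists of length `n` -/
noncomputable def allL (D : Type) [Fintype D] (n : ℕ) : Finset (List D) :=
  (univ : Finset (Fin n → D)).image List.ofFn

theorem mem_allL {D : Type} [Fintype D] (n : ℕ) (l : List D) : l ∈ allL D n ↔ l.length = n := by
  unfold allL
  rw [Finset.mem_image]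
  constructor
  · rintro ⟨f, -, rfl⟩
    exact List.length_ofFn
  · rintro rfl
    exact ⟨l.get, Finset.mem_univ _, List.ofFn_get l⟩

theorem rv_rv {E : Type} (x : E × Bool) : rv (rv x) = x := by
  rcases x with ⟨e, b⟩
  simp [rv]

namespace MG

variable {V E : Type} [Fintype V] [Fintype E] (G : MG V E)

/-- tail of a dart -/
def tl (x : E × Bool) : V := if x.2 then G.t x.1 else G.s x.1

/-- head of a dart -/
def hd (x : E × Bool) : V := if x.2 then G.s x.1 else G.t x.1

/-- `y` is a successor of `x` -/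
def Nx (x y : E × Bool) : Prop := G.tl y = G.hd x ∧ y ≠ rv x

/-- darts inside `A` -/
noncomputable def Om (A : Finset V) : Finset (E × Bool) := univ.filter (fun x => x.1 ∈ G.inn A)

/-- non-backtracking walks with `j + 1` darts in `Ω` starting with the dart `x`. -/
noncomputable def wk (Ω : Finset (E × Bool)) (x : E × Bool) (j : ℕ) : Finset (List (E × Bool)) :=
  (allL (E × Bool) (j + 1)).filter (fun l => l.head? = some x ∧ l.IsChain G.Nx ∧ ∀ y ∈ l, y ∈ Ω)

/-- the vertices of a walk -/
def vts : List (E × Bool) → List V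
  | [] => []
  | (x :: l) => G.tl x :: (x :: l).map G.hd

/-- the walk repeats a vertex -/
def Rep (l : List (E × Bool)) : Prop := ¬ (G.vts l).Nodup

/-- walks whose first repetition is at the end -/
noncomputable def SI (Ω : Finset (E × Bool)) (x : E × Bool) (j : ℕ) : Finset (List (E × Bool)) :=
  (G.wk Ω x j).filter (fun l => G.Rep l ∧ ¬ G.Rep l.dropLast)

/-- probability of a repetition within `M` darts -/
noncomputable def phi (Ω : Finset (E × Bool)) (M : ℕ) (x : E × Bool) : ℝ :=
  ∑ j ∈ range M, ((G.SI Ω x j).card : ℝ) / 2 ^ j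

/-- transfer matrix -/
noncomputable def K (Ω : Finset (E × Bool)) : Matrix (E × Bool) (E × Bool) ℝ :=
  fun x y => if x ∈ Ω ∧ y ∈ Ω ∧ G.Nx x y then 1 else 0

/-- closed under reversal -/
def RevC (Ω : Finset (E × Bool)) : Prop := ∀ x ∈ Ω, rv x ∈ Ω

/-- cyclic non-backtracking closed walks of length `k` in `Ω` (rooted). -/
noncomputable def cw (Ω : Finset (E × Bool)) (k : ℕ) : Finset (List (E × Bool)) :=
  (allL (E × Bool) k).filter (fun l => l.IsChain G.Nx ∧ (∀ y ∈ l, y ∈ Ω) ∧
    ∀ x ∈ l.head?, ∀ y ∈ l.getLast?, G.Nx y x)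

theorem tl_rv (x : E × Bool) : G.tl (rv x) = G.hd x := by
  rcases x with ⟨e, b⟩
  cases b <;> simp [tl, hd, rv]

theorem hd_rv (x : E × Bool) : G.hd (rv x) = G.tl x := by
  rcases x with ⟨e, b⟩
  cases b <;> simp [tl, hd, rv]

theorem Nx_rev (x y : E × Bool) : G.Nx x y ↔ G.Nx (rv y) (rv x) := by
  unfold Nx
  rw [tl_rv, hd_rv, rv_rv]
  constructor
  · rintro ⟨h1, h2⟩
    exact ⟨h1.symm, fun h => h2 h.symm⟩
  · rintro ⟨h1, h2⟩
    exact ⟨h1.symm, fun h => h2 h.symm⟩

theorem card_tl (hG : G.Good) (v : V) : (univ.filter (fun y => G.tl y = v)).card = 3 := by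
  rw [← hG.cubic v]
  have h : univ.filter (fun y : E × Bool => G.tl y = v) =
      (univ.filter (fun e => G.s e = v)).image (fun e => (e, false)) ∪
      (univ.filter (fun e => G.t e = v)).image (fun e => (e, true)) := by
    ext ⟨e, b⟩
    cases b <;> simp [tl]
  rw [h, Finset.card_union_of_disjoint, Finset.card_image_of_injective,
    Finset.card_image_of_injective]
  · intro a b hab
    simpa using hab
  · intro a b hab
    simpa using hab
  · rw [Finset.disjoint_left]
    intro a ha hb
    rw [Finset.mem_image] at ha hb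
    obtain ⟨e, -, rfl⟩ := ha
    obtain ⟨e', -, h⟩ := hb
    simp at h

theorem card_succ (hG : G.Good) (x : E × Bool) : (univ.filter (fun y => G.Nx x y)).card = 2 := by
  have h : univ.filter (fun y => G.Nx x y) =
      (univ.filter (fun y => G.tl y = G.hd x)).erase (rv x) := by
    ext y
    simp only [mem_filter, mem_univ, true_and, mem_erase]
    constructor
    · rintro ⟨h1, h2⟩
      exact ⟨h2, h1⟩
    · rintro ⟨h1, h2⟩
      exact ⟨h2, h1⟩
  rw [h, card_erase_of_mem (by simp [tl_rv]), G.card_tl hG]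

theorem card_pred (hG : G.Good) (y : E × Bool) : (univ.filter (fun x => G.Nx x y)).card = 2 := by
  rw [← G.card_succ hG (rv y)]
  apply card_bij' (fun x _ => rv x) (fun x _ => rv x)
  · intro x hx
    simp only [mem_filter, mem_univ, true_and] at hx ⊢
    exact (G.Nx_rev _ _).1 hx
  · intro x hx
    simp only [mem_filter, mem_univ, true_and] at hx ⊢
    rw [Nx_rev, rv_rv]
    exact hx
  · intro x _; exact rv_rv x
  · intro x _; exact rv_rv x

omit [Fintype V] in
lemma mem_wk_w {Ω : Finset (E × Bool)} {x : E × Bool} {j : ℕ} {l : List (E × Bool)} :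
    l ∈ G.wk Ω x j ↔ l.length = j + 1 ∧ l.head? = some x ∧ l.IsChain G.Nx ∧ ∀ y ∈ l, y ∈ Ω := by
  rw [wk, Finset.mem_filter, mem_allL]

omit [Fintype V] in
lemma wk_mono_w {Ω Ω' : Finset (E × Bool)} (h : Ω ⊆ Ω') (x : E × Bool) (j : ℕ) :
    G.wk Ω x j ⊆ G.wk Ω' x j := by
  intro l hl
  rw [mem_wk_w] at hl ⊢
  exact ⟨hl.1, hl.2.1, hl.2.2.1, fun y hy => h (hl.2.2.2 y hy)⟩

omit [Fintype V] in
/-- walks with one more dart -/
lemma mem_wk_succ_w {Ω : Finset (E × Bool)} {x : E × Bool} {j : ℕ} {l : List (E × Bool)} :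
    l ∈ G.wk Ω x (j + 1) ↔ ∃ l' y, l = l' ++ [y] ∧ l' ∈ G.wk Ω x j ∧ y ∈ Ω ∧
      ∀ w ∈ l'.getLast?, G.Nx w y := by
  rw [mem_wk_w]
  constructor
  · rintro ⟨hlen, hhead, hch, hmem⟩
    have hne : l ≠ [] := by
      intro h; rw [h] at hlen; simp at hlen
    have hl : l = l.dropLast ++ [l.getLast hne] := (List.dropLast_append_getLast hne).symm
    refine ⟨l.dropLast, l.getLast hne, hl, ?_, hmem _ (List.getLast_mem hne), ?_⟩
    · rw [mem_wk_w]
      have hlen' : l.dropLast.length = j + 1 := by rw [List.length_dropLast, hlen]; omega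
      refine ⟨hlen', ?_, ?_, fun y hy => hmem y (List.mem_of_mem_dropLast hy)⟩
      · have hne' : l.dropLast ≠ [] := by
          intro h; rw [h] at hlen'; simp at hlen'
        rw [hl, List.head?_append_of_ne_nil _ hne'] at hhead
        exact hhead
      · rw [hl] at hch
        exact (List.isChain_append.1 hch).1
    · rw [hl] at hch
      intro w hw
      exact (List.isChain_append.1 hch).2.2 w hw _ (by simp)
  · rintro ⟨l', y, rfl, hl', hy, hw⟩
    rw [mem_wk_w] at hl'
    obtain ⟨hlen, hhead, hch, hmem⟩ := hl'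
    have hne' : l' ≠ [] := by
      intro h; rw [h] at hlen; simp at hlen
    refine ⟨by simp [hlen], ?_, ?_, ?_⟩
    · rw [List.head?_append_of_ne_nil _ hne', hhead]
    · rw [List.isChain_append]
      refine ⟨hch, List.isChain_singleton _, ?_⟩
      intro w hw' z hz
      have : z = y := by simpa using hz.symm
      rw [this]
      exact hw w hw'
    · intro z hz
      rw [List.mem_append, List.mem_singleton] at hz
      rcases hz with hz | rfl
      · exact hmem z hz
      · exact hy

/-- every walk has at most two extensions -/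
lemma card_le_two_mul_w (hG : G.Good) {Ω : Finset (E × Bool)} {x : E × Bool} {j : ℕ}
    {S : Finset (List (E × Bool))} (hS : S ⊆ G.wk Ω x (j + 1)) {T : Finset (List (E × Bool))}
    (hT : ∀ l ∈ S, l.dropLast ∈ T) : S.card ≤ 2 * T.card := by
  refine Finset.card_le_mul_card_image_of_maps_to (f := List.dropLast) hT 2 ?_
  intro l' _
  have h1 : S.filter (fun l => l.dropLast = l') ⊆
      (univ.filter (fun y => ∃ w ∈ l'.getLast?, G.Nx w y)).image (fun y => l' ++ [y]) := by
    intro l hl
    rw [Finset.mem_filter] at hl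
    obtain ⟨l'', y, rfl, hl'', hy, hw⟩ := (G.mem_wk_succ_w).1 (hS hl.1)
    have h2 : l'' = l' := by simpa using hl.2
    subst h2
    rw [Finset.mem_image]
    refine ⟨y, ?_, rfl⟩
    rw [Finset.mem_filter]
    refine ⟨Finset.mem_univ _, ?_⟩
    rw [mem_wk_w] at hl''
    have hne' : l'' ≠ [] := by
      intro h; rw [h] at hl''; simp at hl''
    refine ⟨l''.getLast hne', ?_, hw _ ?_⟩ <;> simp [List.getLast?_eq_some_getLast hne']
  refine (Finset.card_le_card h1).trans (Finset.card_image_le.trans ?_)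
  cases hlast : l'.getLast? with
  | none =>
    have : (univ.filter (fun y => ∃ w ∈ (none : Option (E × Bool)), G.Nx w y)) = ∅ := by
      ext y; simp
    rw [this]; simp
  | some w =>
    have : (univ.filter (fun y => ∃ w' ∈ (some w : Option (E × Bool)), G.Nx w' y)) =
        univ.filter (fun y => G.Nx w y) := by
      ext y; simp
    rw [this, G.card_succ hG]

omit [Fintype V] in
theorem wk_zero_subset (Ω : Finset (E × Bool)) (x : E × Bool) : G.wk Ω x 0 ⊆ {[x]} := by
  intro l hl
  rw [mem_wk_w] at hl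
  rw [Finset.mem_singleton]
  obtain ⟨h1, h2, -, -⟩ := hl
  rw [zero_add, List.length_eq_one_iff] at h1
  obtain ⟨a, rfl⟩ := h1
  simpa using h2

omit [Fintype V] in
theorem wk_zero (Ω : Finset (E × Bool)) {x : E × Bool} (hx : x ∈ Ω) : G.wk Ω x 0 = {[x]} := by
  apply Finset.Subset.antisymm (G.wk_zero_subset Ω x)
  intro l hl
  rw [Finset.mem_singleton] at hl
  subst hl
  rw [mem_wk_w]
  simp [hx]

theorem card_wk_le (hG : G.Good) (Ω : Finset (E × Bool)) (x : E × Bool) (j : ℕ) :
    (G.wk Ω x j).card ≤ 2 ^ j := by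
  induction j with
  | zero => exact (Finset.card_le_card (G.wk_zero_subset Ω x)).trans (by simp)
  | succ j ih =>
    rw [pow_succ, mul_comm]
    refine le_trans (G.card_le_two_mul_w hG (Finset.Subset.refl _) (T := G.wk Ω x j) ?_)
      (Nat.mul_le_mul_left 2 ih)
    intro l hl
    obtain ⟨l', y, rfl, hl', -, -⟩ := (G.mem_wk_succ_w).1 hl
    simpa using hl'

omit [Fintype V] in
theorem step_count (Ω : Finset (E × Bool)) (x y : E × Bool) (j : ℕ) (A : E × Bool → ℝ)
    (hA : ∀ z, A z = (((G.wk Ω x j).filter (fun l => l.getLast? = some z)).card : ℝ)) :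
    ∑ z, A z * G.K Ω z y = (((G.wk Ω x j).filter (fun l => ∃ w, l.getLast? = some w ∧
      (w ∈ Ω ∧ y ∈ Ω ∧ G.Nx w y))).card : ℝ) := by
  have h1 : ((G.wk Ω x j).filter (fun l => ∃ w, l.getLast? = some w ∧
      (w ∈ Ω ∧ y ∈ Ω ∧ G.Nx w y))) =
      (univ.filter (fun w => w ∈ Ω ∧ y ∈ Ω ∧ G.Nx w y)).biUnion
        (fun w => (G.wk Ω x j).filter (fun l => l.getLast? = some w)) := by
    ext l
    simp only [Finset.mem_filter, Finset.mem_biUnion, Finset.mem_univ, true_and]
    constructor
    · rintro ⟨h, w, hw, h'⟩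
      exact ⟨w, h', h, hw⟩
    · rintro ⟨w, h', h, hw⟩
      exact ⟨h, w, hw, h'⟩
  rw [h1, Finset.card_biUnion]
  · push_cast
    rw [Finset.sum_filter]
    apply Finset.sum_congr rfl
    intro z _
    rw [hA z]
    unfold K
    split_ifs <;> simp
  · intro w _ w' _ hne
    rw [Function.onFun, Finset.disjoint_left]
    intro l hl hl'
    rw [Finset.mem_filter] at hl hl'
    apply hne
    have := hl.2.symm.trans hl'.2
    simpa using this

/-- matrix powers count walks -/
theorem Kpow_eq (Ω : Finset (E × Bool)) {x : E × Bool} (hx : x ∈ Ω) (y : E × Bool) (j : ℕ) :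
    (G.K Ω ^ j) x y = (((G.wk Ω x j).filter (fun l => l.getLast? = some y)).card : ℝ) := by
  induction j generalizing y with
  | zero =>
    rw [G.wk_zero Ω hx, pow_zero, Matrix.one_apply, Finset.filter_singleton]
    by_cases h : x = y
    · simp [h]
    · simp [h]
  | succ j ih =>
    rw [pow_succ, Matrix.mul_apply, G.step_count Ω x y j (fun z => (G.K Ω ^ j) x z) ih]
    congr 1
    apply Finset.card_bij (fun l _ => l ++ [y])
    · intro l hl
      rw [Finset.mem_filter] at hl ⊢
      obtain ⟨h1, w, hw, h2, h3, h4⟩ := hl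
      refine ⟨?_, by simp⟩
      rw [G.mem_wk_succ_w]
      refine ⟨l, y, rfl, h1, h3, ?_⟩
      intro w' hw'
      rw [hw] at hw'
      have : w = w' := by simpa using hw'
      rw [← this]
      exact h4
    · intro l _ l' _ h
      simpa using h
    · intro l hl
      rw [Finset.mem_filter, G.mem_wk_succ_w] at hl
      obtain ⟨⟨l', y', rfl, h1, h2, h3⟩, h4⟩ := hl
      have hy : y' = y := by simpa using h4
      subst hy
      refine ⟨l', ?_, rfl⟩
      rw [Finset.mem_filter]
      refine ⟨h1, ?_⟩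
      rw [mem_wk_w] at h1
      have hne : l' ≠ [] := by
        intro h; rw [h] at h1; simp at h1
      refine ⟨l'.getLast hne, List.getLast?_eq_some_getLast hne, ?_, h2, ?_⟩
      · exact h1.2.2.2 _ (List.getLast_mem hne)
      · exact h3 _ (by rw [List.getLast?_eq_some_getLast hne]; rfl)

omit [Fintype V] in
theorem K_nonneg (Ω : Finset (E × Bool)) (x y : E × Bool) : 0 ≤ G.K Ω x y := by
  unfold K; split_ifs <;> norm_num

theorem Kpow_nonneg (Ω : Finset (E × Bool)) (x y : E × Bool) (j : ℕ) : 0 ≤ (G.K Ω ^ j) x y := by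
  induction j generalizing y with
  | zero =>
    rw [pow_zero, Matrix.one_apply]; split_ifs <;> norm_num
  | succ j ih =>
    rw [pow_succ, Matrix.mul_apply]
    exact Finset.sum_nonneg fun z _ => mul_nonneg (ih z) (G.K_nonneg Ω z y)

theorem K_rev {Ω : Finset (E × Bool)} (hΩ : RevC Ω) (x y : E × Bool) :
    G.K Ω x y = G.K Ω (rv y) (rv x) := by
  unfold K
  by_cases h : x ∈ Ω ∧ y ∈ Ω ∧ G.Nx x y
  · rw [if_pos h, if_pos ⟨hΩ _ h.2.1, hΩ _ h.1, (G.Nx_rev _ _).1 h.2.2⟩]
  · rw [if_neg h, if_neg]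
    rintro ⟨h1, h2, h3⟩
    apply h
    have h4 := hΩ _ h1
    have h5 := hΩ _ h2
    rw [rv_rv] at h4 h5
    exact ⟨h5, h4, (G.Nx_rev _ _).2 h3⟩

theorem sum_rv {E : Type} [Fintype E] (f : E × Bool → ℝ) : ∑ x, f (rv x) = ∑ x, f x :=
  Fintype.sum_bijective rv
    ⟨fun a b h => by rw [← rv_rv a, h, rv_rv], fun x => ⟨rv x, rv_rv x⟩⟩ _ _ (fun _ => rfl)

theorem Kpow_rev {Ω : Finset (E × Bool)} (hΩ : RevC Ω) (x y : E × Bool) (j : ℕ) :
    (G.K Ω ^ j) x y = (G.K Ω ^ j) (rv y) (rv x) := by
  induction j generalizing x y with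
  | zero =>
    simp only [pow_zero, Matrix.one_apply]
    by_cases h : x = y
    · simp [h]
    · rw [if_neg h, if_neg]
      intro h'
      apply h
      rw [← rv_rv x, ← h', rv_rv]
  | succ j ih =>
    have h1 : (G.K Ω ^ (j + 1)) x y = ∑ z, (G.K Ω ^ j) x z * G.K Ω z y := by
      rw [pow_succ, Matrix.mul_apply]
    have h2 : (G.K Ω ^ (j + 1)) (rv y) (rv x) =
        ∑ z, G.K Ω (rv y) z * (G.K Ω ^ j) z (rv x) := by
      rw [pow_succ', Matrix.mul_apply]
    rw [h1, h2, ← sum_rv (fun z => G.K Ω (rv y) z * (G.K Ω ^ j) z (rv x))]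
    apply sum_congr rfl
    intro z _
    rw [ih x z, G.K_rev hΩ z y, mul_comm]

/-- traces count closed walks -/
theorem trace_Kpow (Ω : Finset (E × Bool)) (k : ℕ) (hk : 1 ≤ k) :
    (G.K Ω ^ k).trace = ((G.cw Ω k).card : ℝ) := by
  obtain ⟨m, rfl⟩ : ∃ m, k = m + 1 := ⟨k - 1, by omega⟩
  have key : ∀ x, (G.K Ω ^ (m + 1)) x x =
      (((G.cw Ω (m + 1)).filter (fun l => l.head? = some x)).card : ℝ) := by
    intro x
    by_cases hx : x ∈ Ω
    · rw [pow_succ, Matrix.mul_apply,
        G.step_count Ω x x m (fun z => (G.K Ω ^ m) x z) (fun z => G.Kpow_eq Ω hx z m)]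
      congr 2
      ext l
      rw [Finset.mem_filter, Finset.mem_filter, mem_wk_w, cw, Finset.mem_filter, mem_allL]
      constructor
      · rintro ⟨⟨h1, h2, h3, h4⟩, w, hw, h5, h6, h7⟩
        refine ⟨⟨h1, h3, h4, ?_⟩, h2⟩
        intro a ha b hb
        rw [h2] at ha
        rw [hw] at hb
        have ha' : x = a := by simpa using ha
        have hb' : w = b := by simpa using hb
        rw [← ha', ← hb']
        exact h7
      · rintro ⟨⟨h1, h3, h4, h5⟩, h2⟩
        have hne : l ≠ [] := by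
          intro h; rw [h] at h1; simp at h1
        refine ⟨⟨h1, h2, h3, h4⟩, l.getLast hne, List.getLast?_eq_some_getLast hne,
          h4 _ (List.getLast_mem hne), hx, ?_⟩
        exact h5 x (by rw [h2]; rfl) _ (by rw [List.getLast?_eq_some_getLast hne]; rfl)
    · have h1 : (G.K Ω ^ (m + 1)) x x = 0 := by
        rw [pow_succ', Matrix.mul_apply]
        apply Finset.sum_eq_zero
        intro z _
        have : G.K Ω x z = 0 := by
          unfold K
          rw [if_neg]
          rintro ⟨h, -⟩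
          exact hx h
        rw [this, zero_mul]
      rw [h1]
      have h2 : (G.cw Ω (m + 1)).filter (fun l => l.head? = some x) = ∅ := by
        rw [Finset.filter_eq_empty_iff]
        intro l hl hh
        rw [cw, Finset.mem_filter] at hl
        exact hx (hl.2.2.1 x (List.mem_of_head? hh))
      rw [h2]
      simp
  unfold Matrix.trace
  simp only [Matrix.diag_apply]
  rw [Finset.sum_congr rfl (fun x _ => key x)]
  rw [← Nat.cast_sum]
  congr 1
  rw [← Finset.card_biUnion]
  · congr 1
    ext l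
    rw [Finset.mem_biUnion]
    constructor
    · rintro ⟨x, -, h⟩
      exact (Finset.mem_filter.1 h).1
    · intro h
      have h1 : l.length = m + 1 := by
        rw [cw, Finset.mem_filter, mem_allL] at h
        exact h.1
      have hne : l ≠ [] := by
        intro h; rw [h] at h1; simp at h1
      exact ⟨l.head hne, Finset.mem_univ _, Finset.mem_filter.2 ⟨h, List.head?_eq_some_head hne⟩⟩
  · intro x _ x' _ hne
    rw [Function.onFun, Finset.disjoint_left]
    intro l hl hl'
    rw [Finset.mem_filter] at hl hl'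
    apply hne
    have := hl.2.symm.trans hl'.2
    simpa using this

lemma rep_count_w (hG : G.Good) (Ω : Finset (E × Bool)) (x : E × Bool) (j : ℕ) :
    (((G.wk Ω x j).filter G.Rep).card : ℝ) ≤
      ∑ i ∈ range (j + 1), 2 ^ (j - i) * ((G.SI Ω x i).card : ℝ) := by
  induction j with
  | zero =>
    rw [Finset.sum_range_one, Nat.sub_zero, pow_zero, one_mul]
    have : (G.wk Ω x 0).filter G.Rep ⊆ G.SI Ω x 0 := by
      intro l hl
      rw [Finset.mem_filter] at hl
      rw [SI, Finset.mem_filter]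
      refine ⟨hl.1, hl.2, ?_⟩
      rw [mem_wk_w] at hl
      have h1 : l.dropLast = [] := by
        apply List.eq_nil_of_length_eq_zero
        rw [List.length_dropLast, hl.1.1]
      rw [h1]
      simp [Rep, vts]
    exact_mod_cast Finset.card_le_card this
  | succ j ih =>
    have h1 : ((G.wk Ω x (j + 1)).filter G.Rep).card ≤
        2 * ((G.wk Ω x j).filter G.Rep).card + (G.SI Ω x (j + 1)).card := by
      set A := (G.wk Ω x (j + 1)).filter (fun l => G.Rep l ∧ G.Rep l.dropLast) with hA
      have h2 : (G.wk Ω x (j + 1)).filter G.Rep ⊆ A ∪ G.SI Ω x (j + 1) := by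
        intro l hl
        rw [Finset.mem_filter] at hl
        rw [Finset.mem_union, hA, SI, Finset.mem_filter, Finset.mem_filter]
        by_cases h : G.Rep l.dropLast
        · exact Or.inl ⟨hl.1, hl.2, h⟩
        · exact Or.inr ⟨hl.1, hl.2, h⟩
      refine (Finset.card_le_card h2).trans ((Finset.card_union_le _ _).trans ?_)
      refine Nat.add_le_add_right ?_ _
      refine G.card_le_two_mul_w hG (Ω := Ω) (x := x) (j := j) (Finset.filter_subset _ _) ?_
      intro l hl
      rw [Finset.mem_filter] at hl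
      rw [Finset.mem_filter]
      refine ⟨?_, hl.2.2⟩
      obtain ⟨l', y, rfl, hl', -, -⟩ := (G.mem_wk_succ_w).1 hl.1
      simpa using hl'
    have h2 : (((G.wk Ω x (j + 1)).filter G.Rep).card : ℝ) ≤
        2 * (((G.wk Ω x j).filter G.Rep).card : ℝ) + ((G.SI Ω x (j + 1)).card : ℝ) := by
      exact_mod_cast h1
    refine h2.trans ?_
    rw [Finset.sum_range_succ _ (j + 1), Nat.sub_self, pow_zero, one_mul]
    refine add_le_add ?_ le_rfl
    refine (mul_le_mul_of_nonneg_left ih (by norm_num)).trans (le_of_eq ?_)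
    rw [Finset.mul_sum]
    refine Finset.sum_congr rfl fun i hi => ?_
    rw [Finset.mem_range] at hi
    rw [show j + 1 - i = (j - i) + 1 by omega, pow_succ]
    ring

/-- (phi1): walks with a repetition -/
theorem rep_card_le (hG : G.Good) (Ω : Finset (E × Bool)) (M : ℕ) (x : E × Bool) (j : ℕ)
    (hj : j < M) : (((G.wk Ω x j).filter G.Rep).card : ℝ) ≤ 2 ^ j * G.phi Ω M x := by
  refine (G.rep_count_w hG Ω x j).trans ?_
  rw [phi, Finset.mul_sum]
  calc ∑ i ∈ range (j + 1), 2 ^ (j - i) * ((G.SI Ω x i).card : ℝ)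
      = ∑ i ∈ range (j + 1), 2 ^ j * (((G.SI Ω x i).card : ℝ) / 2 ^ i) := by
        refine Finset.sum_congr rfl fun i hi => ?_
        rw [Finset.mem_range] at hi
        have h1 : (2 : ℝ) ^ j = 2 ^ (j - i) * 2 ^ i := by rw [← pow_add]; congr 1; omega
        rw [h1]
        field_simp
    _ ≤ ∑ i ∈ range M, 2 ^ j * (((G.SI Ω x i).card : ℝ) / 2 ^ i) := by
        refine Finset.sum_le_sum_of_subset_of_nonneg ?_ fun _ _ _ => by positivity
        intro i hi
        rw [Finset.mem_range] at hi ⊢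
        omega

omit [Fintype V] in
/-- a walk which comes back to its first vertex has a repetition -/
lemma rep_of_return_w {Ω : Finset (E × Bool)} {x y : E × Bool} {j : ℕ} {l : List (E × Bool)}
    (hl : l ∈ G.wk Ω x j) (hy : l.getLast? = some y) (h : G.hd y = G.tl x) : G.Rep l := by
  rw [wk, Finset.mem_filter] at hl
  obtain ⟨-, hhead, -, -⟩ := hl
  cases l with
  | nil => simp at hhead
  | cons a l =>
    have ha : a = x := by simpa using hhead
    subst ha
    unfold Rep vts
    rw [List.nodup_cons]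
    intro hn
    apply hn.1
    rw [List.mem_map]
    refine ⟨y, ?_, h⟩
    exact List.mem_of_getLast? hy

/-- returning walks -/
theorem Kpow_ret_le (hG : G.Good) (Ω Ω' : Finset (E × Bool)) (hΩ : Ω ⊆ Ω') (M : ℕ)
    (x : E × Bool) (hx : x ∈ Ω) (j : ℕ) (hj : j < M) :
    ∑ y ∈ univ.filter (fun y => G.hd y = G.tl x), (G.K Ω ^ j) x y ≤ 2 ^ j * G.phi Ω' M x := by
  refine le_trans ?_ (G.rep_card_le hG Ω' M x j hj)
  have h1 : ∀ y ∈ univ.filter (fun y => G.hd y = G.tl x), (G.K Ω ^ j) x y =
      (((G.wk Ω x j).filter (fun l => l.getLast? = some y)).card : ℝ) := fun y _ =>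
    G.Kpow_eq Ω hx y j
  rw [Finset.sum_congr rfl h1]
  have h2 : ∑ y ∈ univ.filter (fun y => G.hd y = G.tl x),
      ((G.wk Ω x j).filter (fun l => l.getLast? = some y)).card ≤
      ((G.wk Ω' x j).filter G.Rep).card := by
    rw [← Finset.card_biUnion]
    · refine Finset.card_le_card ?_
      intro l hl
      rw [Finset.mem_biUnion] at hl
      obtain ⟨y, hy, hl⟩ := hl
      rw [Finset.mem_filter] at hy hl
      rw [Finset.mem_filter]
      exact ⟨G.wk_mono_w hΩ x j hl.1, G.rep_of_return_w hl.1 hl.2 hy.2⟩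
    · intro y _ y' _ hne
      rw [Function.onFun, Finset.disjoint_left]
      intro l hl hl'
      rw [Finset.mem_filter] at hl hl'
      apply hne
      have := hl.2.symm.trans hl'.2
      simpa using this
  exact_mod_cast h2

/-- closing walks from `x` to `rv x` -/
theorem Kpow_rv_le (hG : G.Good) (Ω Ω' : Finset (E × Bool)) (hΩ : Ω ⊆ Ω') (M : ℕ)
    (x : E × Bool) (hx : x ∈ Ω) (j : ℕ) (hj1 : 1 ≤ j) (hj : j < M) :
    (G.K Ω ^ j) x (rv x) ≤ 2 ^ j * G.phi Ω' M x := by
  refine le_trans ?_ (G.Kpow_ret_le hG Ω Ω' hΩ M x hx j hj)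
  refine Finset.single_le_sum (f := fun y => (G.K Ω ^ j) x y)
    (fun y _ => G.Kpow_nonneg Ω x y j) ?_
  rw [Finset.mem_filter]
  refine ⟨Finset.mem_univ _, ?_⟩
  rcases x with ⟨e, b⟩
  cases b <;> simp [hd, tl, rv]

/-- if `phi` is small there are no short repetitions -/
theorem no_rep (hG : G.Good) (Ω : Finset (E × Bool)) (M : ℕ) (x : E × Bool)
    (j : ℕ) (hj : j < M) (hphi : G.phi Ω M x < (1 / 2 : ℝ) ^ j) (l : List (E × Bool))
    (hl : l ∈ G.wk Ω x j) : ¬ G.Rep l := by
  intro hrep
  have h1 := G.rep_card_le hG Ω M x j hj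
  have h2 : (1 : ℝ) ≤ (((G.wk Ω x j).filter G.Rep).card : ℝ) := by
    have : 0 < ((G.wk Ω x j).filter G.Rep).card :=
      Finset.card_pos.2 ⟨l, Finset.mem_filter.2 ⟨hl, hrep⟩⟩
    exact_mod_cast this
  have h3 : (2 : ℝ) ^ j * G.phi Ω M x < 1 := by
    calc (2 : ℝ) ^ j * G.phi Ω M x < 2 ^ j * (1 / 2 : ℝ) ^ j :=
          mul_lt_mul_of_pos_left hphi (by positivity)
      _ = 1 := by rw [← mul_pow]; norm_num
  linarith

end MG

end Cyc
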